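import Pool.Agent.Lib.MP_2f3286_ag.HYP.HSel

/-!
# The hypothesis about the 2-adic Selmer group, with or without the condition at the infinite places
-/

open Polynomial IsDedekindDomain NumberField

noncomputable section

namespace Pool.Agent.Lib.MP_2f3286_ag.HYP

/-- **The hypothesis.** Let `Q` be a proposition. Every element `c` of the first cohomology group of `k` with
values in the 2-adic Tate module of `J` which is, at every finite place of `k`, and, if `Q` is true, also at
every infinite place, the class of a point of the curve, is a torsion element: the cocycles `c n` are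
coboundaries of elements of 2-power order. (Such a `c` is an element of the 2-adic Selmer group.) -/
def SelTorR (k : Type*) [Field k] [NumberField k] (f : k[X]) (Q : Prop) : Prop :=
  ∀ c : ℕ → Gal(AlgebraicClosure k/k) → J (f.map (algebraMap k (AlgebraicClosure k))),
    (∀ n, IsLocallyConstant (c n)) → (∀ n σ, 2 ^ n • c n σ = 0) →
    (∀ n σ τ, c n (σ * τ) = c n σ + gact f σ (c n τ)) → (∀ n σ, 2 • c (n + 1) σ = c n σ) →
    (∀ (v : HeightOneSpectrum (𝓞 k))
      (ι : AlgebraicClosure k →ₐ[k] AlgebraicClosure (v.adicCompletion k)),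
      LocPt f c (v.adicCompletion k)
        (ι : AlgebraicClosure k →+* AlgebraicClosure (v.adicCompletion k))) →
    (Q → ∀ ι : AlgebraicClosure k →+* ℂ, LocPt f c ℝ ι) →
    ∀ n, ∃ t : J (f.map (algebraMap k (AlgebraicClosure k))), (∃ m : ℕ, 2 ^ m • t = 0) ∧
      ∀ σ, c n σ = gact f σ t - t

theorem SelTorR.selTor {k : Type*} [Field k] [NumberField k] {f : k[X]} {Q : Prop}
    (h : SelTorR k f Q) : SelTor k f :=
  fun c h1 h2 h3 h4 h5 h6 => h c h1 h2 h3 h4 h5 fun _ => h6

theorem SelTor.selTorR {k : Type*} [Field k] [NumberField k] {f : k[X]} (h : SelTor k f) :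
    SelTorR k f True :=
  fun c h1 h2 h3 h4 h5 h6 => h c h1 h2 h3 h4 h5 (h6 trivial)

end Pool.Agent.Lib.MP_2f3286_ag.HYP
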