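import Pool.Agent.Lib.MP_2f3286_ag.HYP.AFCoc
import Pool.Agent.Lib.MP_2f3286_ag.HYP.HSelR

/-!
# The chain of halves, for a section of the fundamental group
-/

open Polynomial IsDedekindDomain NumberField

noncomputable section

namespace Pool.Agent.Lib.MP_2f3286_ag.HYP

/-- change of the embedding -/
theorem respects_change {k K M kb : Type*} [Field k] [Field kb] [Algebra k kb] [Field K]
    [Algebra k K] [Field M] [Algebra K M] [Algebra kb M] {R : Subalgebra k K}
    {s : Gal(kb/k) →* Gal(M/K)} (hsec : ∀ σ a, s σ (algebraMap kb M a) = algebraMap kb M (σ a))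
    {F Fb : Type*} [Field F] [Field Fb] [Algebra F Fb] {ι ι' : kb →+* Fb} {ρ : Gal(kb/k)}
    (hρ : ∀ x, ι (ρ x) = ι' x) {φ : integralClosure R M →+* Fb} (hφ : Respects s F ι φ) :
    ∃ φ' : integralClosure R M →+* Fb, Respects s F ι' φ' := by
  refine ⟨φ.comp (actHom R (s ρ)), fun a b hb => ?_, fun σ τ hστ b b' hb => ?_⟩
  · rw [← hρ]
    refine hφ.1 (ρ a) _ ?_
    rw [actHom_coe, hb, hsec]
  · change φ (actHom R (s ρ) b') = τ (φ (actHom R (s ρ) b))
    refine hφ.2 (ρ * σ * ρ⁻¹) τ (fun a => ?_) _ _ ?_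
    · have h1 := hστ (ρ⁻¹ a)
      rw [← hρ, ← hρ] at h1
      rw [AlgEquiv.mul_apply, AlgEquiv.mul_apply, h1]
      congr 2
      exact ρ.apply_symm_apply a
    · rw [actHom_coe, actHom_coe, hb, ← AlgEquiv.mul_apply, ← AlgEquiv.mul_apply, ← map_mul,
        ← map_mul, inv_mul_cancel_right]

section

variable {k : Type*} [Field k] [NumberField k] {K : Type*} [Field K] [Algebra k K]
  {Ω : Type*} [Field Ω] [Algebra K Ω] [IsAlgClosed Ω] [IsGalois K Ω]
  [Algebra (AlgebraicClosure k) Ω] [Algebra k Ω]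
  [IsScalarTower k K Ω] [IsScalarTower k (AlgebraicClosure k) Ω]
  {M : Type*} [Field M] [Algebra K M] [Normal K M] [Algebra M Ω] [Algebra (AlgebraicClosure k) M]
  [IsScalarTower K M Ω] [IsScalarTower (AlgebraicClosure k) M Ω]
  {f : k[X]} (s : Gal(AlgebraicClosure k/k) →* Gal(M/K))

/-- the class is, up to torsion, infinitely divisible by `2` in the classes fixed by the section -/
theorem exists_approx_lft (hs : Continuous s)
    (hsec : ∀ σ a, s σ (algebraMap (AlgebraicClosure k) M a) =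
      algebraMap (AlgebraicClosure k) M (σ a))
    (hfin : ∀ (v : HeightOneSpectrum (𝓞 k))
      (ι : AlgebraicClosure k →ₐ[k] AlgebraicClosure (v.adicCompletion k)),
      ∃ (A : ValuationSubring Ω) (π : A →+* AlgebraicClosure (v.adicCompletion k)),
        PlaceOver s (v.adicCompletion k)
          (ι : AlgebraicClosure k →+* AlgebraicClosure (v.adicCompletion k)) A π)
    {Q : Prop} (hreal : Q → ∀ ι : AlgebraicClosure k →+* ℂ,
      (∃ σ₀ : Gal(AlgebraicClosure k/k), ∀ a, ι (σ₀ a) = starRingEnd ℂ (ι a)) →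
      ∃ (A : ValuationSubring Ω) (π : A →+* ℂ), PlaceOver s ℝ ι A π)
    (hunr : ∀ (n : ℕ) (E' : J (f.map (algebraMap k Ω))), 2 ^ n • E' ∈ lfix f s →
      ∀ δ : Gal(Ω/K), (∀ m : M, δ (algebraMap M Ω m) = algebraMap M Ω m) → sact f δ E' = E')
    {g : ℕ} (hf : f.Monic) (hfs : f.Separable)
    (hfd : f.natDegree = 2 * g + 1) (hS : SelTorR k f Q)
    {P : Pt (f.map (algebraMap k Ω))}
    (hx : ∀ (σ : Gal(AlgebraicClosure k/k)) (γ : Gal(Ω/K)), Lft s σ γ → γ P.x = P.x)
    (hy : ∀ (σ : Gal(AlgebraicClosure k/k)) (γ : Gal(Ω/K)), Lft s σ γ → γ P.y = P.y) (n : ℕ) :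
    ∃ z ∈ lfix f s, ∃ t : J (f.map (algebraMap k (AlgebraicClosure k))), (∀ σ, gact f σ t = t) ∧
        (∃ m : ℕ, 2 ^ m • t = 0) ∧ 2 ^ n • z + jconst f t = cl P := by
  classical
  have : CharZero Ω := charZero_of_injective_algebraMap (algebraMap k Ω).injective
  -- a compatible sequence of halves
  choose hv hhv using fun z => exists_half (good_of hfs hfd (algebraMap k Ω)) (hf.map _) z
  let E' : ℕ → J (f.map (algebraMap k Ω)) := fun n => Nat.rec (cl P) (fun _ w => hv w) n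
  have hE : ∀ n, 2 • E' (n + 1) = E' n := fun n => hhv (E' n)
  have hE0 : E' 0 = cl P := rfl
  have hEn : ∀ n, 2 ^ n • E' n = cl P := by
    intro n
    induction n with
    | zero => rw [pow_zero, one_smul, hE0]
    | succ n ih => rw [pow_succ, mul_smul, hE, ih]
  have hcP : (cl P : J (f.map (algebraMap k Ω))) ∈ lfix f s := by
    intro σ γ hγ
    rw [sact, J.map_cl]
    congr 1
    exact Pt.ext (hx σ γ hγ) (hy σ γ hγ)
  choose c c1 c2 c3 c4 using fun n => exists_cocycle_lft (f := f) (s := s)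
    (good_of hfs hfd (algebraMap k (AlgebraicClosure k))) hf hs hsec n (E' := E' n)
    (hunr n (E' n) (by rw [hEn]; exact hcP)) (by rw [hEn]; exact hcP)
  have hinj := jconst_injective (Ω := Ω) f (good_of hfs hfd (algebraMap k (AlgebraicClosure k)))
  have hcomp : ∀ n σ, 2 • c (n + 1) σ = c n σ := by
    intro n σ
    obtain ⟨γ, hγ⟩ := exists_lft (s := s) (Ω := Ω) σ
    apply hinj
    rw [map_nsmul, c4 _ _ _ hγ, c4 _ _ _ hγ, nsmul_sub, ← map_nsmul, hE]
  have hc1 : ∀ n, c n 1 = 0 := by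
    intro n
    have h := c3 n 1 1
    rw [mul_one] at h
    have h' : gact f (1 : Gal(AlgebraicClosure k/k)) (c n 1) = c n 1 := by
      have h5 := J.map_id (φ := f.map (algebraMap k (AlgebraicClosure k)))
        (Polynomial.map_id) (c n 1)
      exact h5
    rw [h'] at h
    exact left_eq_add.mp h
  obtain ⟨t, ⟨m, ht⟩, htc⟩ := hS c c1 c2 c3 hcomp (by
      intro v ι
      obtain ⟨A, π, h⟩ := hfin v ι
      have hC : CharZero (v.adicCompletion k) :=
        charZero_of_injective_algebraMap (algebraMap k (v.adicCompletion k)).injective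
      have hG : IsGalois (v.adicCompletion k) (AlgebraicClosure (v.adicCompletion k)) :=
        IsAlgClosure.isGalois _ _
      exact locPt_of_placeOver hf h (good_of hfs hfd _) (good_of hfs hfd _) (hres_fin v ι) c4 hE
        hE0 hx hy)
    (by
      intro hQ ι
      exact locPt_real_lft ι hf (hreal hQ ι) (good_of hfs hfd _) (good_of hfs hfd _) c4 hc1 hE hE0
        hx hy) n
  refine ⟨E' n - jconst f t, fun σ γ hγ => ?_, 2 ^ n • t, fun σ => ?_, ⟨m, ?_⟩, ?_⟩
  · rw [map_sub, ← jconst_gact_lft hsec hγ, ← sub_eq_zero]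
    have h1 := c4 n σ γ hγ
    rw [htc, map_sub] at h1
    rw [← sub_eq_zero] at h1
    rw [← neg_eq_zero, ← h1]
    abel
  · rw [map_nsmul, ← sub_eq_zero, ← nsmul_sub, ← htc, c2]
  · rw [← mul_smul, mul_comm, mul_smul, ht, nsmul_zero]
  · rw [nsmul_sub, hEn, map_nsmul]
    abel

/-- **the chain of halves**, up to a rational class of 2-power order -/
theorem exists_chain_lft (hs : Continuous s)
    (hsec : ∀ σ a, s σ (algebraMap (AlgebraicClosure k) M a) =
      algebraMap (AlgebraicClosure k) M (σ a))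
    (hfin : ∀ (v : HeightOneSpectrum (𝓞 k))
      (ι : AlgebraicClosure k →ₐ[k] AlgebraicClosure (v.adicCompletion k)),
      ∃ (A : ValuationSubring Ω) (π : A →+* AlgebraicClosure (v.adicCompletion k)),
        PlaceOver s (v.adicCompletion k)
          (ι : AlgebraicClosure k →+* AlgebraicClosure (v.adicCompletion k)) A π)
    {Q : Prop} (hreal : Q → ∀ ι : AlgebraicClosure k →+* ℂ,
      (∃ σ₀ : Gal(AlgebraicClosure k/k), ∀ a, ι (σ₀ a) = starRingEnd ℂ (ι a)) →
      ∃ (A : ValuationSubring Ω) (π : A →+* ℂ), PlaceOver s ℝ ι A π)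
    (hunr : ∀ (n : ℕ) (E' : J (f.map (algebraMap k Ω))), 2 ^ n • E' ∈ lfix f s →
      ∀ δ : Gal(Ω/K), (∀ m : M, δ (algebraMap M Ω m) = algebraMap M Ω m) → sact f δ E' = E')
    {g : ℕ} (hf : f.Monic) (hfs : f.Separable)
    (hfd : f.natDegree = 2 * g + 1) (hS : SelTorR k f Q)
    {P : Pt (f.map (algebraMap k Ω))}
    (hx : ∀ (σ : Gal(AlgebraicClosure k/k)) (γ : Gal(Ω/K)), Lft s σ γ → γ P.x = P.x)
    (hy : ∀ (σ : Gal(AlgebraicClosure k/k)) (γ : Gal(Ω/K)), Lft s σ γ → γ P.y = P.y) :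
    ∃ t : J (f.map (algebraMap k (AlgebraicClosure k))), (∀ σ, gact f σ t = t) ∧
      (∃ m : ℕ, 2 ^ m • t = 0) ∧
      ∃ z : ℕ → J (f.map (algebraMap k Ω)), z 0 = cl P - jconst f t ∧
        (∀ n, z n ∈ lfix f s) ∧ ∀ n, 2 • z (n + 1) = z n := by
  classical
  have hT := (rational_torsion_finite k hf hfs hfd).image (jconst f (Ω := Ω))
  obtain ⟨t, ⟨t₀, ⟨h1, h2⟩, rfl⟩, z, hz, hz0, hz2⟩ := chain_of_approx (lfix f s) hT (η := cl P) (by
      rintro z hz ⟨m, hm⟩
      obtain ⟨w, hw, hwz⟩ := pow_torsion_lift (good_of hfs hfd _) (hf.map _)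
        (algebraMap (AlgebraicClosure k) Ω) (map_const f) m hm
      refine ⟨w, ⟨fun σ => ?_, m, hw⟩, hwz⟩
      obtain ⟨γ, hγ⟩ := exists_lft (s := s) (Ω := Ω) σ
      apply jconst_injective (Ω := Ω) f (good_of hfs hfd _)
      rw [jconst_gact_lft hsec hγ]
      have : jconst f w = z := hwz
      rw [this]
      exact hz σ γ hγ)
    (by
      intro n
      obtain ⟨z, hz, t, ht, htm, hzt⟩ := exists_approx_lft s hs hsec hfin hreal hunr hf hfs hfd hS
        hx hy n
      exact ⟨z, hz, jconst f t, ⟨t, ⟨ht, htm⟩, rfl⟩, hzt⟩)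
  exact ⟨t₀, h1, h2, z, hz0, hz, hz2⟩

end

end Pool.Agent.Lib.MP_2f3286_ag.HYP
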