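import Pool.Agent.Lib.MP_2f3286_ag.HYP.AFUnit

/-!
# The three cases of the chain of halves, for a section of the fundamental group
-/

open Polynomial IsDedekindDomain NumberField
open scoped WithZero

noncomputable section

namespace Pool.Agent.Lib.MP_2f3286_ag.HYP

theorem inv_sub_integral {R Ω : Type*} [CommRing R] [Field Ω] [Algebra R Ω] {φ : Polynomial Ω}
    (hm : φ.Monic) (hs : φ.Splits) {P : Pt φ} (hroot : ∀ a, φ.eval a = 0 → IsIntegral R a)
    (hx : IsIntegral R P.x) (hy : IsIntegral R (P.y)⁻¹) (hy0 : P.y ≠ 0) {a : Ω}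
    (ha : φ.eval a = 0) : IsIntegral R (P.x - a)⁻¹ := by
  classical
  have h1 := hs.eq_prod_roots_of_monic hm
  have h2 : a ∈ φ.roots := (mem_roots hm.ne_zero).2 ha
  obtain ⟨t, ht⟩ := Multiset.exists_cons_of_mem h2
  have h3 : P.y ^ 2 = (P.x - a) * (t.map fun b => P.x - b).prod := by
    have h5 := congrArg (eval P.x) h1
    rw [P.eqn]
    refine h5.trans ?_
    rw [ht, Multiset.map_cons, Multiset.prod_cons, eval_mul, eval_sub, eval_X, eval_C,
      eval_multiset_prod, Multiset.map_map]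
    congr 2
    refine Multiset.map_congr rfl fun b _ => ?_
    simp only [Function.comp_apply, eval_sub, eval_X, eval_C]
  have h4 : (P.x - a)⁻¹ = (t.map fun b => P.x - b).prod * ((P.y)⁻¹) ^ 2 := by
    rw [inv_pow, h3, mul_inv, mul_comm (P.x - a)⁻¹, ← mul_assoc, mul_inv_cancel₀, one_mul]
    intro h0
    rw [h0, mul_zero] at h3
    exact hy0 (pow_eq_zero_iff two_ne_zero |>.1 h3)
  rw [h4]
  refine IsIntegral.mul ?_ (hy.pow 2)
  refine IsIntegral.multiset_prod fun c hc => ?_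
  rw [Multiset.mem_map] at hc
  obtain ⟨b, hb, rfl⟩ := hc
  refine hx.sub (hroot b ?_)
  have h5 : b ∈ φ.roots := by
    rw [ht]; exact Multiset.mem_cons_of_mem hb
  exact (mem_roots hm.ne_zero).1 h5

section

universe u

variable {k : Type u} [Field k] [NumberField k] {K : Type*} [Field K] [Algebra k K]
  {Ω : Type*} [Field Ω] [Algebra K Ω] [IsAlgClosed Ω]
  [Algebra (AlgebraicClosure k) Ω] [Algebra k Ω]
  [IsScalarTower k K Ω] [IsScalarTower k (AlgebraicClosure k) Ω]
  {M : Type*} [Field M] [Algebra K M] [Algebra M Ω]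
  {R : Subalgebra k K} {s : Gal(AlgebraicClosure k/k) →* Gal(M/K)}

/-- the chain begins at the point -/
theorem gunit_chain {f : k[X]} (hf : f.Monic) (hfs : f.Separable) {g : ℕ} (hg : 1 ≤ g)
    (hfd : f.natDegree = 2 * g + 1)
    (hBk : ∀ a : AlgebraicClosure k, IsIntegral R (algebraMap (AlgebraicClosure k) Ω a))
    {P : Pt (f.map (algebraMap k Ω))}
    (hx : ∀ (σ : Gal(AlgebraicClosure k/k)) (γ : Gal(Ω/K)), Lft s σ γ → γ P.x = P.x)
    (hy : ∀ (σ : Gal(AlgebraicClosure k/k)) (γ : Gal(Ω/K)), Lft s σ γ → γ P.y = P.y)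
    (hxc : ∀ c : AlgebraicClosure k, P.x ≠ algebraMap _ Ω c)
    (hxi : IsIntegral R P.x) (hyi : IsIntegral R (P.y)⁻¹)
    {z : ℕ → J (f.map (algebraMap k Ω))} (z0 : z 0 = cl P)
    (zs : ∀ n, z n ∈ lfix f s) (z2 : ∀ n, 2 • z (n + 1) = z n) : GUnit R s Ω := by
  classical
  have hφ : Good g (f.map (algebraMap k Ω)) := good_of hfs hfd _
  have hy0 : P.y ≠ 0 := by
    intro h0
    have h := P.eqn
    rw [h0, zero_pow two_ne_zero] at h
    obtain ⟨c, hc⟩ := root_const hf.ne_zero h.symm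
    exact hxc c hc.symm
  have hz1 : (2 : ℕ) • z 1 = cl P := by rw [z2 0, z0]
  obtain ⟨m, G, hm, hzm, hc, hG, hGP, hGd⟩ := half_form hφ (hf.map _) hz1
  rw [hzm] at hz1
  have hT : ∀ (σ : Gal(AlgebraicClosure k/k)) (γ : Gal(Ω/K)), Lft s σ γ →
      γ (PHI (f.map (algebraMap k Ω)) G (upol m)) = PHI (f.map (algebraMap k Ω)) G (upol m) := by
    intro σ γ hγ
    refine PHI_fixed hφ (γ : Ω →+* Ω) (map_fixΩ f γ) hy0 (Pt.ext (hx σ γ hγ) (hy σ γ hγ)) hm ?_ hG
      hGP
    rw [← hzm]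
    exact zs 1 σ γ hγ
  have hroot : ∀ a, (f.map (algebraMap k Ω)).eval a = 0 → IsIntegral R a := by
    intro a ha
    obtain ⟨c, rfl⟩ := root_const hf.ne_zero ha
    exact hBk c
  obtain ⟨hTi, hTi'⟩ := PHI_integral (R := R) hφ (hf.map _) (IsAlgClosed.splits _) (P := P) hG hroot
    (by
      intro a b ha hb _
      obtain ⟨c, rfl⟩ := root_const hf.ne_zero ha
      obtain ⟨d, rfl⟩ := root_const hf.ne_zero hb
      rw [← map_sub, ← map_inv₀]
      exact hBk _) hxi hyi hy0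
  refine ⟨PHI (f.map (algebraMap k Ω)) G (upol m), hT,
    phi_const hg hφ (hf.map _) (fun a ha => root_const hf.ne_zero ha) hxc hm hc hz1 hG hGP hGd,
    hTi, hTi', val_of_chain hf hfs hfd hT ?_⟩
  intro κ _ _ A π ψ h _ hψ hch
  refine unit_val h hφ hψ hy0 hm hc hz1 hG hGP hGd ?_ ?_
  · intro W hW h3
    refine cl_ne_zero hψ hg W ?_
    rw [← h3, ← z0]
    apply hch z z2 zs 0
    rw [z0, h3]
    exact two_cl hψ hW
  · intro h3
    rw [← hzm]
    apply hch z z2 zs 1
    rw [← map_nsmul, z2 0, z0, h3]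

/-- the chain begins at the difference of the point and a torsion class which is not `0` and not the
class of a ramification point -/
theorem gunit_tor {f : k[X]} (hf : f.Monic) (hfs : f.Separable) {g : ℕ}
    (hfd : f.natDegree = 2 * g + 1)
    {P : Pt (f.map (algebraMap k Ω))}
    (hy : ∀ (σ : Gal(AlgebraicClosure k/k)) (γ : Gal(Ω/K)), Lft s σ γ → γ P.y = P.y)
    (hxc : ∀ c : AlgebraicClosure k, P.x ≠ algebraMap _ Ω c)
    (hyi : IsIntegral R P.y) (hyi' : IsIntegral R (P.y)⁻¹)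
    {t : J (f.map (algebraMap k Ω))} {m : ℕ} (htm : 2 ^ m • t = 0) (ht0 : t ≠ 0)
    (htW : ∀ W : Pt (f.map (algebraMap k Ω)), W.y = 0 → t ≠ cl W)
    {z : ℕ → J (f.map (algebraMap k Ω))} (z0 : z 0 = cl P - t)
    (zs : ∀ n, z n ∈ lfix f s) (z2 : ∀ n, 2 • z (n + 1) = z n) : GUnit R s Ω := by
  classical
  have hφ : Good g (f.map (algebraMap k Ω)) := good_of hfs hfd _
  have hyc : ∀ c : AlgebraicClosure k, P.y ≠ algebraMap _ Ω c := by
    intro c hc
    -- `x` is a root of `f - c ^ 2`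
    have hne : (f.map (algebraMap k (AlgebraicClosure k)) - C (c ^ 2)) ≠ 0 := by
      intro h
      have h2 := congrArg Polynomial.natDegree (sub_eq_zero.mp h)
      rw [natDegree_map, natDegree_C, hfd] at h2
      omega
    have h3 : P.x ∈ ((f.map (algebraMap k (AlgebraicClosure k)) - C (c ^ 2)).map
        (algebraMap (AlgebraicClosure k) Ω)).roots := by
      rw [mem_roots (Polynomial.map_ne_zero hne), IsRoot, Polynomial.map_sub, Polynomial.map_map,
        ← IsScalarTower.algebraMap_eq, eval_sub, ← P.eqn, map_C, eval_C, hc, map_pow, sub_self]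
    rw [(IsAlgClosed.splits _).roots_map, Multiset.mem_map] at h3
    obtain ⟨d, -, hd⟩ := h3
    exact hxc d hd.symm
  let Gs : Set (Ω →+* Ω) := {h | ∃ (σ : Gal(AlgebraicClosure k/k)) (γ : Gal(Ω/K)), Lft s σ γ ∧
    h = (γ : Ω →+* Ω)}
  have hGs : ∀ h ∈ Gs, (f.map (algebraMap k Ω)).map h = f.map (algebraMap k Ω) := by
    rintro _ ⟨σ, γ, -, rfl⟩
    exact map_fixΩ f γ
  refine ⟨P.y, hy, hyc, hyi, hyi', val_of_chain hf hfs hfd hy ?_⟩
  intro κ _ _ A π ψ h _ hψ hch
  refine y_unit h hφ hψ htm ht0 htW (P := P) (fun j hj => ?_)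
  rw [← z0] at hj ⊢
  refine chain_pow_zero h hφ hψ hGs z2 (by
    rintro _ ⟨σ, γ, hγ, rfl⟩ n
    exact zs n σ γ hγ) (fun T hT hTfix n => hch T hT (fun n σ γ hγ => ?_) n) j hj
  exact hTfix _ ⟨σ, γ, hγ, rfl⟩ n

/-- the case of a ramification point: the second model -/
theorem gunit_ram {f : k[X]} (hf : f.Monic) (hfs : f.Separable) {g : ℕ} (hg : 1 ≤ g)
    (hfd : f.natDegree = 2 * g + 1)
    (hBk : ∀ a : AlgebraicClosure k, IsIntegral R (algebraMap (AlgebraicClosure k) Ω a))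
    {P : Pt (f.map (algebraMap k Ω))}
    (hx : ∀ (σ : Gal(AlgebraicClosure k/k)) (γ : Gal(Ω/K)), Lft s σ γ → γ P.x = P.x)
    (hy : ∀ (σ : Gal(AlgebraicClosure k/k)) (γ : Gal(Ω/K)), Lft s σ γ → γ P.y = P.y)
    (hxc : ∀ c : AlgebraicClosure k, P.x ≠ algebraMap _ Ω c)
    (hxi : IsIntegral R P.x) (hyi : IsIntegral R (P.y)⁻¹)
    {W : Pt (f.map (algebraMap k Ω))} {a₀ : k} (hW : W.x = algebraMap k Ω a₀)
    (ha₀ : f.eval a₀ = 0)
    {z : ℕ → J (f.map (algebraMap k Ω))} (z0 : z 0 = cl P - cl W)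
    (zs : ∀ n, z n ∈ lfix f s) (z2 : ∀ n, 2 • z (n + 1) = z n) : GUnit R s Ω := by
  classical
  have hF : Good g (f.map (algebraMap k Ω)) := good_of hfs hfd _
  have ha : (f.map (algebraMap k Ω)).eval (algebraMap k Ω a₀) = 0 := by
    rw [eval_map, eval₂_at_apply, ha₀, map_zero]
  have hk : Good g f := ⟨two_ne_zero, hfs, hfd⟩
  have hgk : Good g (f.map (algebraMap k (AlgebraicClosure k))) := good_of hfs hfd _
  have hak : (f.map (algebraMap k (AlgebraicClosure k))).eval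
      (algebraMap k (AlgebraicClosure k) a₀) = 0 := by
    rw [eval_map, eval₂_at_apply, ha₀, map_zero]
  -- the second model over `k`
  obtain ⟨hm2, hd2⟩ := mod2_monic hk ha₀
  have hs2 : (mod2 g a₀ f).Separable := by
    have h2 := (mod2_good hgk hak).sep
    rw [← mod2_map] at h2
    exact (separable_map _).mp h2
  have he : (mod2 g (algebraMap k Ω a₀) (f.map (algebraMap k Ω))).map (RingHom.id Ω) =
      (mod2 g a₀ f).map (algebraMap k Ω) := by
    rw [Polynomial.map_id, mod2_map]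
  have hPa : P.x ≠ algebraMap k Ω a₀ := by
    intro h
    exact hxc (algebraMap k _ a₀) (by rw [← IsScalarTower.algebraMap_apply]; exact h)
  have hy0 : P.y ≠ 0 := by
    intro h0
    have h := P.eqn
    rw [h0, zero_pow two_ne_zero] at h
    obtain ⟨c, hc⟩ := root_const hf.ne_zero h.symm
    exact hxc c hc.symm
  have hsk : ∀ (γ : Gal(Ω/K)) (b : k), γ (algebraMap k Ω b) = algebraMap k Ω b := by
    intro γ b
    rw [IsScalarTower.algebraMap_apply k K Ω, γ.commutes]
  have hB : (f.map (algebraMap k Ω)).derivative.eval (algebraMap k Ω a₀) =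
      algebraMap k Ω (f.derivative.eval a₀) := by
    rw [derivative_map, eval_map, eval₂_at_apply]
  have hb := deriv_ne_zero hF ha
  have hkR : ∀ b : k, IsIntegral R (algebraMap k Ω b) := by
    intro b
    rw [IsScalarTower.algebraMap_apply k (AlgebraicClosure k) Ω]
    exact hBk _
  have hinv : IsIntegral R (P.x - algebraMap k Ω a₀)⁻¹ := by
    refine inv_sub_integral (hf.map _) (IsAlgClosed.splits _) (fun a ha => ?_) hxi hyi hy0 ha
    obtain ⟨c, rfl⟩ := root_const hf.ne_zero ha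
    exact hBk c
  refine gunit_chain hm2 hs2 hg hd2 hBk
    (P := (P.two hF ha hPa).map (RingHom.id Ω) he) ?_ ?_ ?_ ?_ ?_
    (z := fun n => J.map (RingHom.id Ω) he (rho hF ha (z n))) ?_ ?_ ?_
  · intro σ γ hγ
    change γ ((f.map (algebraMap k Ω)).derivative.eval (algebraMap k Ω a₀) /
      (P.x - algebraMap k Ω a₀)) = _
    rw [hB, map_div₀, map_sub, hsk, hsk, hx σ γ hγ, ← hB]
    rfl
  · intro σ γ hγ
    change γ ((f.map (algebraMap k Ω)).derivative.eval (algebraMap k Ω a₀) ^ g * P.y /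
      (P.x - algebraMap k Ω a₀) ^ (g + 1)) = _
    rw [hB, map_div₀, map_mul, map_pow, map_pow, map_sub, hsk, hsk, hx σ γ hγ, hy σ γ hγ, ← hB]
    rfl
  · intro c hc
    have h2 : (f.map (algebraMap k Ω)).derivative.eval (algebraMap k Ω a₀) /
      (P.x - algebraMap k Ω a₀) = algebraMap (AlgebraicClosure k) Ω c := hc
    have h3 : P.x - algebraMap k Ω a₀ ≠ 0 := sub_ne_zero.mpr hPa
    have hc0 : algebraMap (AlgebraicClosure k) Ω c ≠ 0 := by
      rw [← h2]
      exact div_ne_zero hb h3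
    apply hxc (algebraMap k _ a₀ + algebraMap k _ (f.derivative.eval a₀) / c)
    rw [map_add, map_div₀, ← IsScalarTower.algebraMap_apply, ← IsScalarTower.algebraMap_apply, ← hB,
      ← h2, div_div_cancel₀ hb]
    ring
  · change IsIntegral R ((f.map (algebraMap k Ω)).derivative.eval (algebraMap k Ω a₀) /
      (P.x - algebraMap k Ω a₀))
    rw [hB, div_eq_mul_inv]
    exact (hkR _).mul hinv
  · change IsIntegral R ((f.map (algebraMap k Ω)).derivative.eval (algebraMap k Ω a₀) ^ g * P.y /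
      (P.x - algebraMap k Ω a₀) ^ (g + 1))⁻¹
    rw [inv_div, div_eq_mul_inv, mul_inv, hB, ← map_pow, ← map_inv₀]
    exact ((hxi.sub (hkR _)).pow _).mul ((hkR _).mul hyi)
  · rw [z0, rho_sub hF ha hPa hW, J.map_cl]
  · intro n σ γ hγ
    have hj2 : (mod2 g (algebraMap k Ω a₀) (f.map (algebraMap k Ω))).map
        (γ : Ω →+* Ω) = mod2 g (algebraMap k Ω a₀) (f.map (algebraMap k Ω)) := by
      rw [mod2_map, map_fixΩ f γ]
      congr 1
      exact hsk γ a₀
    have h2 := rho_map hF ha hF ha (γ : Ω →+* Ω) (map_fixΩ f γ) (hsk γ a₀) hj2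
      (z n)
    have h3 : J.map (γ : Ω →+* Ω) (map_fixΩ f γ) (z n) = z n := zs n σ γ hγ
    rw [h3] at h2
    conv_rhs => rw [h2]
    rw [sact]
    have hc1 : (mod2 g (algebraMap k Ω a₀) (f.map (algebraMap k Ω))).map
        ((γ : Ω →+* Ω).comp (RingHom.id Ω)) =
        (mod2 g a₀ f).map (algebraMap k Ω) := by
      rw [← Polynomial.map_map, he, map_fixΩ]
    have hc2 : (mod2 g (algebraMap k Ω a₀) (f.map (algebraMap k Ω))).map
        ((RingHom.id Ω).comp (γ : Ω →+* Ω)) =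
        (mod2 g a₀ f).map (algebraMap k Ω) := by
      rw [← Polynomial.map_map, hj2, he]
    rw [J.map_map _ _ _ _ hc1, J.map_map _ _ _ _ hc2]
    rfl
  · intro n
    rw [← map_nsmul, ← map_nsmul, z2]

end

end Pool.Agent.Lib.MP_2f3286_ag.HYP
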