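import Pool.Agent.Lib.MP_2f3286_ag.HYP.Fin
import Pool.Agent.Lib.MP_2f3286_ag.GU.Final2
import Pool.Agent.Lib.MP_2f3286_ag.PA.VRel

/-!
# A unit fixed by the section, with unit values at almost all places: the other functions take finitely many values
-/

open IsDedekindDomain NumberField Polynomial
open scoped WithZero

namespace Pool.Agent.Lib.MP_2f3286_ag.HYP

open PA (biv)

/-- a polynomial over `k` vanishing at the second coordinates of the points of a curve above the zeros of `χ₁` -/
theorem exists_chi_rel {k kb : Type*} [Field k] [Field kb] [Algebra k kb]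
    [Algebra.IsAlgebraic k kb] (P : k[X][X])
    (hP : ∀ ε : kb, P.map (eval₂RingHom (algebraMap k kb) ε) ≠ 0) (χ₁ : k[X]) (hχ₁ : χ₁ ≠ 0) :
    ∃ χ : k[X], χ ≠ 0 ∧ ∀ ε η : kb, aeval ε χ₁ = 0 → biv (algebraMap k kb) ε η P = 0 →
      aeval η χ = 0 := by
  classical
  let Z : Finset kb := (χ₁.map (algebraMap k kb)).roots.toFinset
  let Q : kb → kb[X] := fun ε => P.map (eval₂RingHom (algebraMap k kb) ε)
  have hZ : ∀ ε, aeval ε χ₁ = 0 → ε ∈ Z := by
    intro ε h
    rw [Multiset.mem_toFinset, mem_roots (Polynomial.map_ne_zero hχ₁), IsRoot.def, eval_map, ← aeval_def]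
    exact h
  refine ⟨∏ ε ∈ Z, ∏ η ∈ (Q ε).roots.toFinset, minpoly k η, ?_, fun ε η hε hη => ?_⟩
  · refine Finset.prod_ne_zero_iff.mpr fun ε _ => Finset.prod_ne_zero_iff.mpr fun η _ => ?_
    exact minpoly.ne_zero (Algebra.IsIntegral.isIntegral η)
  · have h1 : ε ∈ Z := hZ ε hε
    have h2 : η ∈ (Q ε).roots.toFinset := by
      rw [Multiset.mem_toFinset, mem_roots (hP ε), IsRoot.def]
      rw [eval_map]
      exact hη
    rw [map_prod, Finset.prod_eq_zero h1]
    rw [map_prod, Finset.prod_eq_zero h2]
    exact minpoly.aeval k η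

universe u

variable {k : Type u} [Field k] [NumberField k] {K : Type*} [Field K] [Algebra k K]
  (R : Subalgebra k K)
  {M : Type*} [Field M] [Algebra K M] [Algebra (AlgebraicClosure k) M] [Algebra k M]
  [IsScalarTower k K M] [IsScalarTower k (AlgebraicClosure k) M]

theorem exists_chi_unit (hinf : Fintype.card (InfinitePlace k) = 1) (htr : Algebra.trdeg k M = 1)
    [Algebra.IsAlgebraic K M]
    (hmax : Pt.IsRadClosed R M (AlgebraicClosure k))
    (s : Gal(AlgebraicClosure k/k) →* Gal(M/K)) (hs : Continuous s)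
    (hsec : ∀ σ a, s σ (algebraMap (AlgebraicClosure k) M a) =
      algebraMap (AlgebraicClosure k) M (σ a))
    (ι : ∀ v : HeightOneSpectrum (𝓞 k),
      AlgebraicClosure k →ₐ[k] AlgebraicClosure (v.adicCompletion k))
    (φ : ∀ v : HeightOneSpectrum (𝓞 k),
      integralClosure R M →+* AlgebraicClosure (v.adicCompletion k))
    (hφ : ∀ v, Respects s (v.adicCompletion k)
      (ι v : _ →+* AlgebraicClosure (v.adicCompletion k)) (φ v))
    (T : integralClosure R M) (hT : ∀ σ, s σ (T : M) = T)
    (hTc : ∀ c : AlgebraicClosure k, (T : M) ≠ algebraMap _ M c) (hT' : IsIntegral R (T : M)⁻¹)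
    (B : Finset (HeightOneSpectrum (𝓞 k)))
    (hval : ∀ v ∉ B, ∀ y : v.adicCompletion k, φ v T = algebraMap _ _ y →
      Valued.v y = (1 : ℤᵐ⁰))
    (x : R) (hx : Transcendental k (x : K)) :
    ∃ (S' : Finset (HeightOneSpectrum (𝓞 k))) (χ : k[X]), χ ≠ 0 ∧
      ∀ v ∉ S', φ v (algebraMap R (integralClosure R M) (aeval x χ)) = 0 := by
  classical
  set kb := AlgebraicClosure k with hkb
  have hTa : ¬ IsAlgebraic k (T : M) := by
    rintro ⟨p, hp, hp'⟩
    have h1 : (p.map (algebraMap k kb)).eval₂ (algebraMap kb M) (T : M) = 0 := by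
      rw [eval₂_map, ← IsScalarTower.algebraMap_eq, ← aeval_def]
      exact hp'
    obtain ⟨c, -, hc⟩ := root_mem (algebraMap kb M) (Polynomial.map_ne_zero hp) h1
    exact hTc c hc.symm
  have hT0 : (T : M) ≠ 0 := fun h => hTc 0 (by rw [h, map_zero])
  -- the relation
  have hxM : Transcendental k (algebraMap R M x) := by
    have h1 : algebraMap R M x = algebraMap K M (x : K) := rfl
    rw [h1]
    rwa [transcendental_algebraMap_iff (algebraMap K M).injective]
  obtain ⟨P₀, hP₀, hP₀'⟩ := MP_2f3286_bir.exists_bivariate htr hxM (T : M)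
  have hrel : biv (algebraMap k M) (algebraMap R M x) (T : M) P₀ = 0 := by
    unfold PA.biv
    rw [← hP₀']
    rfl
  obtain ⟨Q, hQ, hQ0⟩ := PA.exists_prim_rel (kb := kb) (algebraMap R M x) (T : M) P₀ hP₀ hrel hTa
  -- the fixed field of `s`
  let L : IntermediateField K M :=
    { carrier := {x | ∀ σ, s σ x = x}
      mul_mem' := fun ha hb σ => by rw [map_mul, ha σ, hb σ]
      add_mem' := fun ha hb σ => by rw [map_add, ha σ, hb σ]
      algebraMap_mem' := fun a σ => (s σ).commutes a
      inv_mem' := fun a ha σ => by rw [map_inv₀, ha σ] }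
  let iL : Algebra k L := ((algebraMap K L).comp (algebraMap k K)).toAlgebra
  have t1 : IsScalarTower k L M := IsScalarTower.of_algebraMap_eq fun a => by
    rw [IsScalarTower.algebraMap_apply k K M]; rfl
  have hL : ∀ σ : Gal(AlgebraicClosure k/k),
      (∀ a : k, σ (algebraMap k _ a) = algebraMap k _ a) →
      ∀ x : L, s σ (algebraMap L M x) = algebraMap L M x := fun σ _ x => x.2 σ
  let e : AlgebraicClosure k ≃ₐ[k] AlgebraicClosure k := AlgEquiv.refl
  let s' : Gal(AlgebraicClosure k/k) →* Gal(M/L) := Koe.resS s e hL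
  have hs's : ∀ σ x, s' σ x = s σ x := by
    intro σ x
    have h1 : Koe.resG (k := k) e σ = σ := AlgEquiv.ext fun _ => rfl
    change s (Koe.resG (k := k) e σ) x = s σ x
    rw [h1]
  have hs' : Continuous s' := Koe.resS_continuous s e hL hs
  have hsec' : ∀ σ a, s' σ (algebraMap (AlgebraicClosure k) M a) =
      algebraMap (AlgebraicClosure k) M (σ a) := fun σ a => by rw [hs's, hsec]
  let t : L := ⟨(T : M), hT⟩
  have htM : algebraMap L M t = (T : M) := rfl
  let P : Fin 1 → k[X] := fun _ => X
  have h0 : ∀ j, aeval t (P j) ≠ 0 := by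
    intro j h
    apply hT0
    rw [← htM]
    have h1 : t = 0 := by
      rw [← h]
      exact (aeval_X t).symm
    rw [h1, map_zero]
  let R₁ : Subalgebra k L := GU.polyAlg t P
  -- the elements of `R₁` are integral over `R`
  have hR₁ : ∀ r : L, r ∈ R₁ → IsIntegral R (algebraMap L M r) := by
    intro r hr
    induction hr using Algebra.adjoin_induction with
    | mem r hr =>
      rcases hr with rfl | ⟨j, rfl⟩
      · exact T.2
      · beta_reduce
        have h2 : aeval t (P j) = t := aeval_X t
        rw [h2, map_inv₀]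
        exact hT'
    | algebraMap c =>
      have h2 : algebraMap L M (algebraMap k L c) = algebraMap R M (algebraMap k R c) := by
        rw [← IsScalarTower.algebraMap_apply k L M, IsScalarTower.algebraMap_apply k K M]
        rfl
      rw [h2]
      exact isIntegral_algebraMap
    | add a b _ _ ha hb => rw [map_add]; exact ha.add hb
    | mul a b _ _ ha hb => rw [map_mul]; exact ha.mul hb
  have hint : ∀ b : M, IsIntegral R₁ b → IsIntegral R b := by
    intro b hb
    let jj : R₁ →+* integralClosure R M :=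
      ((algebraMap L M).comp (algebraMap R₁ L)).codRestrict (integralClosure R M)
        (fun r => hR₁ r r.2)
    let _ : Algebra R₁ (integralClosure R M) := jj.toAlgebra
    have : IsScalarTower R₁ (integralClosure R M) M := IsScalarTower.of_algebraMap_eq fun x => rfl
    exact isIntegral_trans (A := integralClosure R M) b hb.tower_top
  let inc : integralClosure R₁ M →+* integralClosure R M :=
    { toFun := fun b => ⟨b, hint _ b.2⟩
      map_one' := rfl
      map_mul' := fun _ _ => rfl
      map_zero' := rfl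
      map_add' := fun _ _ => rfl }
  have hres : ∀ v, Respects s' (v.adicCompletion k)
      (ι v : _ →+* AlgebraicClosure (v.adicCompletion k)) ((φ v).comp inc) := by
    intro v
    refine ⟨fun a b hb => (hφ v).1 a (inc b) hb, fun σ τ hστ b b' hb =>
      (hφ v).2 σ τ hστ (inc b) (inc b') ?_⟩
    rw [← hs's]
    exact hb
  obtain ⟨S', χ₁, -, hχ₁, hvan⟩ := GU.exists_poly_of_units.{u, u} R₁ (GU.polyAlg_fg t P) ∅
    (GU.polyUnit t P h0)
    (GU.enough_of_points.{u, u} ∅ t P h0 (enough_one k hinf.le))
    (fun b hb hb' n hn => Full.root_of_unit hmax _ (hint _ hb) (hint _ hb') n hn) s' hs' hsec'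
    (fun v => ι v.1) (fun v => (φ v.1).comp inc) (fun v => hres v.1) B 1 le_rfl (by
      intro v hv i y z hy _
      refine hval v.1 hv y ?_
      rw [← hy]
      change φ v.1 T = φ v.1 (inc _)
      congr 1
      apply Subtype.ext
      change (T : M) = algebraMap L M (aeval t (P i))
      have h2 : aeval t (P i) = t := aeval_X t
      rw [h2]
      rfl) (GU.polyVar t P)
  -- the values of `T`
  have hTval : ∀ v ∉ S', (χ₁.map (algebraMap k kb)).eval₂ (ι v : kb →+* _) (φ v T) = 0 := by
    intro v hv
    have h1 := hvan ⟨v, Finset.notMem_empty v⟩ hv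
    change φ v (inc _) = 0 at h1
    have hκ : (φ v).comp (algebraMap k (integralClosure R M)) =
        ((ι v : kb →+* AlgebraicClosure (v.adicCompletion k))).comp (algebraMap k kb) := by
      ext a
      refine (hφ v).1 _ _ ?_
      change algebraMap k M a = algebraMap kb M (algebraMap k kb a)
      exact IsScalarTower.algebraMap_apply k kb M a
    rw [eval₂_map, ← hκ, ← hom_eval₂, ← aeval_def, ← h1]
    congr 1
    apply Subtype.ext
    have h2 : ((aeval T χ₁ : integralClosure R M) : M) = aeval (T : M) χ₁ :=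
      (aeval_algHom_apply ((integralClosure R M).val.restrictScalars k) T χ₁).symm
    rw [h2]
    change aeval (T : M) χ₁ = algebraMap L M ((aeval (GU.polyVar t P) χ₁ : R₁) : L)
    have h3 : ((aeval (GU.polyVar t P) χ₁ : R₁) : L) = aeval t χ₁ :=
      (aeval_algHom_apply R₁.val (GU.polyVar t P) χ₁).symm
    rw [h3, ← aeval_algebraMap_apply, htM]
  obtain ⟨χ, hχ, hχ'⟩ := exists_chi_rel (kb := kb) Q hQ0 χ₁ hχ₁
  refine ⟨S', χ, hχ, fun v hv => ?_⟩
  obtain ⟨ε, hε, hε'⟩ := root_mem (ι v : kb →+* AlgebraicClosure (v.adicCompletion k))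
    (Polynomial.map_ne_zero hχ₁) (hTval v hv)
  have hε0 : aeval ε χ₁ = 0 := by
    rw [IsRoot.def, eval_map, ← aeval_def] at hε
    exact hε
  set xB : integralClosure R M := algebraMap R (integralClosure R M) x with hxB
  have hκ : (φ v).comp (algebraMap k (integralClosure R M)) =
      ((ι v : kb →+* AlgebraicClosure (v.adicCompletion k))).comp (algebraMap k kb) := by
    ext a
    refine (hφ v).1 _ _ ?_
    change algebraMap k M a = algebraMap kb M (algebraMap k kb a)
    exact IsScalarTower.algebraMap_apply k kb M a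
  have h1 : biv (algebraMap k (integralClosure R M)) T xB Q = 0 := by
    apply Subtype.ext
    have h4 := PA.map_biv (algebraMap k (integralClosure R M))
      ((integralClosure R M).val : integralClosure R M →+* M) T xB Q
    refine h4.trans ?_
    have h5 : ((integralClosure R M).val : integralClosure R M →+* M).comp
        (algebraMap k (integralClosure R M)) = algebraMap k M := RingHom.ext fun a => rfl
    rw [h5]
    exact hQ
  have h2 : (Q.map (eval₂RingHom (algebraMap k kb) ε)).eval₂
      (ι v : kb →+* AlgebraicClosure (v.adicCompletion k)) (φ v xB) = 0 := by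
    have h3 := congrArg (φ v) h1
    rw [map_zero, PA.map_biv, hκ, ← hε'] at h3
    rw [eval₂_map]
    refine Eq.trans ?_ h3
    unfold PA.biv
    congr 1
    refine Polynomial.ringHom_ext (fun c => ?_) ?_
    · simp
    · simp
  obtain ⟨η, hη, hη'⟩ := root_mem (ι v : kb →+* AlgebraicClosure (v.adicCompletion k)) (hQ0 ε) h2
  have h7 : aeval η χ = 0 := by
    refine hχ' ε η hε0 ?_
    rw [IsRoot.def, eval_map] at hη
    exact hη
  have h8 : algebraMap R (integralClosure R M) (aeval x χ) = aeval xB χ := by
    rw [hxB]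
    exact (aeval_algebraMap_apply (integralClosure R M) x χ).symm
  rw [h8, aeval_def, hom_eval₂, hκ, ← hη', ← hom_eval₂, ← aeval_def, h7, map_zero]

end Pool.Agent.Lib.MP_2f3286_ag.HYP
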