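import Pool.Agent.Lib.MP_2f3286_ag.HYP.Mum

/-!
# The identity `φ = F ^ 2 + (X - ξ) O ^ 2`   (module HlfP, 60 minutes)

PROOF. `P = (ξ, η)`, roots `α` of `φ` (monic: `φ = ∏ (X - α)` over the multiset `φ.roots` of `2 g + 1` elements). Choose a
multiset `R` of `r` with `r ^ 2 = ξ - α` and `∏ r = (-1) ^ (g + 1) η` (the squares are equal: `∏ (ξ - α) = φ(ξ) = η ^ 2`; if the
sign is wrong change one `r`). `G = (-1) ^ g ∏ (T + r)` has even and odd part: `G = A(T ^ 2) + T B(T ^ 2)`; `B` has degree `g`
and leading coefficient `(-1) ^ g`.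
`G(T) G(-T) = A(T^2) ^ 2 - T ^ 2 B(T ^ 2) ^ 2 = ∏ (r + T)(r - T) = ∏ (r ^ 2 - T ^ 2)`, so with `S = T ^ 2`
(`Polynomial.expand` is injective): `A(S) ^ 2 - S B(S) ^ 2 = ∏ (r ^ 2 - S)`; substitute `S = ξ - X`: `F = A(ξ - X)`,
`O = B(ξ - X)`: `φ = F ^ 2 + (X - ξ) O ^ 2`, `F(ξ) = A(0) = G(0) = (-1) ^ g ∏ r = - η`. `O` is monic of degree `g`.
-/

open Polynomial

noncomputable section

namespace Pool.Agent.Lib.MP_2f3286_ag.HYP

variable {E : Type*} [Field E] {g : ℕ} {φ : E[X]}

/-- even and odd part of a polynomial -/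
private theorem HlfP_parts (G : E[X]) :
    ∃ A B : E[X], G = expand E 2 A + X * expand E 2 B := by
  induction G using Polynomial.induction_on' with
  | add p q hp hq =>
    obtain ⟨A, B, h⟩ := hp
    obtain ⟨A', B', h'⟩ := hq
    refine ⟨A + A', B + B', ?_⟩
    rw [h, h', map_add, map_add]
    ring
  | monomial n a =>
    rcases Nat.even_or_odd' n with ⟨k, hk | hk⟩
    · refine ⟨monomial k a, 0, ?_⟩
      rw [expand_monomial, map_zero, mul_zero, add_zero, hk, mul_comm]
    · refine ⟨0, monomial k a, ?_⟩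
      rw [expand_monomial, map_zero, zero_add, hk, X_mul_monomial, mul_comm k 2]

/-- the coefficients of the odd part -/
private theorem HlfP_coeff {G A B : E[X]} (h : G = expand E 2 A + X * expand E 2 B) (i : ℕ) :
    B.coeff i = G.coeff (2 * i + 1) := by
  have h1 : (expand E 2 A).coeff (2 * i + 1) = 0 := by
    rw [coeff_expand (by norm_num)]
    exact if_neg (by omega)
  have h2 : (expand E 2 B).coeff (2 * i) = B.coeff i := by
    rw [coeff_expand (by norm_num), if_pos (by omega)]
    congr 1
    omega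
  rw [h, coeff_add, coeff_X_mul, h1, h2, zero_add]

/-- choice of the square roots -/
private theorem HlfP_roots [IsAlgClosed E] (s : Multiset E) (hs : s ≠ 0) (x y : E)
    (h : (s.map fun a => x - a).prod = y ^ 2) :
    ∃ R : Multiset E, R.map (fun r => x - r ^ 2) = s ∧ R.prod = y := by
  have hex : ∀ a : E, ∃ r : E, r ^ 2 = x - a := fun a => IsAlgClosed.exists_pow_nat_eq _ (by norm_num)
  choose r hr using hex
  have h1 : (s.map r).map (fun r => x - r ^ 2) = s := by
    rw [Multiset.map_map]
    conv_rhs => rw [← Multiset.map_id s]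
    refine Multiset.map_congr rfl fun a _ => ?_
    simp only [Function.comp_apply, hr, id]
    ring
  have h2 : (s.map r).prod ^ 2 = y ^ 2 := by
    rw [← h, ← Multiset.prod_map_pow]
    congr 1
    exact Multiset.map_congr rfl fun a _ => hr a
  rcases sq_eq_sq_iff_eq_or_eq_neg.1 h2 with h3 | h3
  · exact ⟨s.map r, h1, h3⟩
  · obtain ⟨a, ha⟩ := Multiset.exists_mem_of_ne_zero hs
    obtain ⟨t, rfl⟩ := Multiset.exists_cons_of_mem ha
    rw [Multiset.map_cons] at h1 h3
    refine ⟨-r a ::ₘ t.map r, ?_, ?_⟩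
    · rw [Multiset.map_cons] at h1 ⊢
      rw [neg_sq]
      exact h1
    · rw [Multiset.prod_cons] at h3 ⊢
      rw [neg_mul, h3, neg_neg]

private theorem HlfP_comp_neg (A : E[X]) : (expand E 2 A).comp (-X) = expand E 2 A := by
  rw [expand_eq_comp_X_pow, comp_assoc]
  congr 1
  simp

theorem exists_EO [IsAlgClosed E] (hφ : Good g φ) (hm : φ.Monic) (P : Pt φ) :
    ∃ F O : E[X], φ = F ^ 2 + (X - C P.x) * O ^ 2 ∧ F.eval P.x = -P.y ∧ O.Monic ∧
      O.natDegree = g := by
  have hroots : φ = (φ.roots.map fun a => X - C a).prod := by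
    have := (IsAlgClosed.splits φ).eq_prod_roots_of_monic hm
    exact this
  have hcard : φ.roots.card = 2 * g + 1 := by
    rw [← hφ.deg]
    exact (splits_iff_card_roots.1 (IsAlgClosed.splits φ))
  have hne : φ.roots ≠ 0 := by
    intro h0
    rw [h0, Multiset.card_zero] at hcard
    omega
  have hev : (φ.roots.map fun a => P.x - a).prod = ((-1) ^ (g + 1) * P.y) ^ 2 := by
    rw [mul_pow, ← pow_mul, mul_comm (g + 1) 2, pow_mul, neg_one_sq, one_pow, one_mul, P.eqn]
    have h1 : φ.eval P.x = ((φ.roots.map fun a => X - C a).prod).eval P.x :=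
      congrArg (eval P.x) hroots
    rw [h1, eval_multiset_prod, Multiset.map_map]
    congr 1
    exact Multiset.map_congr rfl fun a _ => by simp
  obtain ⟨R, hR, hRp⟩ := HlfP_roots φ.roots hne P.x _ hev
  have hRc : R.card = 2 * g + 1 := by
    rw [← hcard, ← hR, Multiset.card_map]
  set G : E[X] := C ((-1) ^ g) * (R.map fun r => X + C r).prod with hG
  obtain ⟨A, B, hAB⟩ := HlfP_parts G
  have hsgn : ((-1 : E) ^ g) * (-1) ^ g = 1 := by
    rw [← mul_pow]; simp
  have hsgn0 : ((-1 : E) ^ g) ≠ 0 := pow_ne_zero _ (neg_ne_zero.2 one_ne_zero)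
  -- degree and leading coefficient
  have hmon : ((R.map fun r => X + C r).prod : E[X]).Monic :=
    monic_multiset_prod_of_monic _ _ fun r _ => monic_X_add_C r
  have hdegp : ((R.map fun r => X + C r).prod : E[X]).natDegree = 2 * g + 1 := by
    rw [natDegree_multiset_prod_of_monic _ (by
      intro q hq
      obtain ⟨r, _, rfl⟩ := Multiset.mem_map.1 hq
      exact monic_X_add_C r), Multiset.map_map]
    have : (R.map (natDegree ∘ fun r => X + C r)) = R.map fun _ => 1 :=
      Multiset.map_congr rfl fun r _ => natDegree_X_add_C r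
    rw [this, Multiset.map_const', Multiset.sum_replicate, hRc, smul_eq_mul, mul_one]
  have hGdeg : G.natDegree = 2 * g + 1 := by
    rw [hG, natDegree_C_mul hsgn0, hdegp]
  have hGlc : G.coeff (2 * g + 1) = (-1) ^ g := by
    rw [hG, coeff_C_mul]
    have : ((R.map fun r => X + C r).prod : E[X]).coeff (2 * g + 1) = 1 := by
      have := hmon.coeff_natDegree
      rwa [hdegp] at this
    rw [this, mul_one]
  have hBg : B.coeff g = (-1) ^ g := by rw [HlfP_coeff hAB, hGlc]
  have hBdeg : B.natDegree = g := by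
    refine le_antisymm ?_ (le_natDegree_of_ne_zero (by rw [hBg]; exact hsgn0))
    rw [natDegree_le_iff_coeff_eq_zero]
    intro i hi
    rw [HlfP_coeff hAB]
    exact coeff_eq_zero_of_natDegree_lt (by rw [hGdeg]; omega)
  have hBlc : B.leadingCoeff = (-1) ^ g := by rw [leadingCoeff, hBdeg, hBg]
  -- the product `G(T) G(-T)`
  have hGn : G.comp (-X) = expand E 2 A - X * expand E 2 B := by
    rw [hAB, add_comp, mul_comp, X_comp, HlfP_comp_neg, HlfP_comp_neg]
    ring
  have hGn' : G.comp (-X) = C ((-1) ^ g) * (R.map fun r => C r - X).prod := by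
    rw [hG, mul_comp, C_comp, multiset_prod_comp, Multiset.map_map]
    congr 2
    refine Multiset.map_congr rfl fun r _ => ?_
    simp only [Function.comp_apply, add_comp, X_comp, C_comp]
    ring
  have hprod : expand E 2 (A ^ 2 - X * B ^ 2) = expand E 2 (R.map fun r => C (r ^ 2) - X).prod := by
    have h1 : expand E 2 (A ^ 2 - X * B ^ 2) = G * G.comp (-X) := by
      rw [hGn]
      conv_rhs => rw [hAB]
      rw [map_sub, map_mul, map_pow, map_pow, expand_X]
      ring
    rw [h1, hGn', hG, map_multiset_prod, Multiset.map_map]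
    have h2 : (C ((-1) ^ g) * (R.map fun r => X + C r).prod) *
        (C ((-1) ^ g) * (R.map fun r => C r - X).prod) =
        C ((-1) ^ g * (-1) ^ g) * ((R.map fun r => X + C r).prod * (R.map fun r => C r - X).prod) := by
      rw [C_mul]; ring
    rw [h2, hsgn, C_1, one_mul, ← Multiset.prod_map_mul]
    congr 1
    refine Multiset.map_congr rfl fun r _ => ?_
    simp only [Function.comp_apply, map_sub, expand_C, expand_X, map_pow]
    ring
  have hid : A ^ 2 - X * B ^ 2 = (R.map fun r => C (r ^ 2) - X).prod :=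
    expand_injective (by norm_num) hprod
  refine ⟨A.comp (C P.x - X), B.comp (C P.x - X), ?_, ?_, ?_, ?_⟩
  · have h1 := congrArg (fun q : E[X] => q.comp (C P.x - X)) hid
    simp only [sub_comp, mul_comp, pow_comp, X_comp] at h1
    rw [multiset_prod_comp, Multiset.map_map] at h1
    have h2 : (R.map ((fun p : E[X] => p.comp (C P.x - X)) ∘ fun r => C (r ^ 2) - X)).prod = φ := by
      conv_rhs => rw [hroots, ← hR, Multiset.map_map]
      congr 1
      refine Multiset.map_congr rfl fun r _ => ?_
      simp only [Function.comp_apply, sub_comp, X_comp, C_comp, C_sub]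
      ring
    rw [h2] at h1
    conv_lhs => rw [← h1]
    ring
  · rw [eval_comp, eval_sub, eval_C, eval_X, sub_self]
    have h1 : G.eval 0 = A.eval 0 := by
      rw [hAB, eval_add, eval_mul, eval_X, zero_mul, add_zero, expand_eval, zero_pow (by norm_num)]
    have h2 : G.eval 0 = (-1) ^ g * R.prod := by
      rw [hG, eval_mul, eval_C, eval_multiset_prod, Multiset.map_map]
      congr 2
      conv_rhs => rw [← Multiset.map_id R]
      exact Multiset.map_congr rfl fun r _ => by simp
    rw [← h1, h2, hRp, ← mul_assoc, pow_succ, ← mul_assoc, hsgn, one_mul, neg_one_mul]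
  · have hd : (C P.x - X : E[X]).natDegree = 1 := by
      rw [← neg_sub, natDegree_neg, natDegree_X_sub_C]
    have hl : (C P.x - X : E[X]).leadingCoeff = -1 := by
      rw [← neg_sub, leadingCoeff_neg, leadingCoeff_X_sub_C]
    rw [Monic, leadingCoeff_comp (by rw [hd]; exact one_ne_zero), hl, hBlc, hBdeg, hsgn]
  · have hd : (C P.x - X : E[X]).natDegree = 1 := by
      rw [← neg_sub, natDegree_neg, natDegree_X_sub_C]
    rw [natDegree_comp, hd, hBdeg, mul_one]

end Pool.Agent.Lib.MP_2f3286_ag.HYP
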