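import Pool.Agent.Lib.MP_2f3286_ag.HYP.Mum
import Pool.Agent.Lib.MP_2f3286_ag.HYP.HlfP

/-!
# Halves exist   (modules HlfP and Hlf)

PROOF. `exists_EO` (module HlfP). `P = (ξ, η)`, roots `α` of `φ` (monic, separable: `φ = ∏ (X - α)` over the finite set `φ.roots.toFinset`, `2 g + 1` elements). Choose `r α` with `r α ^ 2 = ξ - α`
and `∏ r α = (-1) ^ (g + 1) η` (the squares are equal: `∏ (ξ - α) = φ(ξ) = η ^ 2`; if the sign is wrong change one `r α` which is not zero; if some `r α = 0`, `η = 0`). `G = (-1) ^ g ∏ (T + r α)` has even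
and odd part: `G = A(T ^ 2) + T B(T ^ 2)` (Mathlib `Polynomial.contract`/ or: every polynomial is of this form, by induction; `B` has degree `g` and leading coefficient `(-1) ^ g`, `deg A ≤ g`).
`G(T) G(-T) = A(T^2) ^ 2 - T ^ 2 B(T ^ 2) ^ 2 = ∏ (r α + T)(r α - T) = ∏ (ξ - T ^ 2 - α) = φ(ξ - T ^ 2)` (the sign is `((-1)^g)^2 = 1`), so with `S = T ^ 2`
(`Polynomial.expand` is injective): `A(S) ^ 2 - S B(S) ^ 2 = φ(ξ - S)`; substitute `S = ξ - X`: `F = A(ξ - X)`, `O = B(ξ - X)`: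
`φ = F ^ 2 + (X - ξ) O ^ 2`, `F(ξ) = A(0) = G(0) = (-1) ^ g ∏ r α = - η`. `O` is monic of degree `g`.
`exists_half_pt`: `z = y - F`, `z' = y + F`, `z z' = φ - F ^ 2 = (X - ξ) O ^ 2`; `O`, `F` are coprime (a common root `u` is a double root of `φ`: derivative), so `(O, z, z')` contains `O`, `2 F`: everything.
`span_half`: `(z) = (X - ξ, z) (O, z) ^ 2`; `(X - ξ, z) = (X - ξ, y + η) = P.inv.idl` (`X - ξ ∣ F - F(ξ)`); `(O, z)` is nonzero, so `= idm m` (`exists_idm`; no need to compute `m`).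
`clm_of_span`: `cl P.inv + 2 clm m = 0`, `2 clm m = cl P`.
`exists_half`: `J φ` is generated by the classes of points (`exists_clm`, induction on the multiset).
-/

open Polynomial

noncomputable section

namespace Pool.Agent.Lib.MP_2f3286_ag.HYP

variable {E : Type*} [Field E] {g : ℕ} {φ : E[X]}

private theorem hlf_coprime (hφ : Good g φ) {F O L : E[X]} (h : φ = F ^ 2 + L * O ^ 2) :
    IsCoprime O F := by
  have h0 : ¬ (O = 0 ∧ F = 0) := by
    rintro ⟨rfl, rfl⟩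
    have h1 : φ = 0 := by rw [h]; ring
    have h2 := hφ.deg
    rw [h1, natDegree_zero] at h2
    omega
  refine isCoprime_of_dvd O F h0 fun d hd _ hO hF => ?_
  apply hd
  have h1 : d * d ∣ φ := by
    rw [h, ← pow_two]
    exact dvd_add (pow_dvd_pow_of_dvd hF 2) (Dvd.dvd.mul_left (pow_dvd_pow_of_dvd hO 2) L)
  exact hφ.sep.squarefree d h1

private theorem hlf_span (P : Pt φ) {F : E[X]} (h : F.eval P.x = -P.y) :
    Ideal.span {(lin P.x : CR φ), ymin F} = P.inv.idl := by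
  rw [Pt.idl_eq]
  have h1 : X - C P.x ∣ F - C (F.eval P.x) := X_sub_C_dvd_sub_C_eval
  obtain ⟨F1, hF1⟩ := h1
  have hx : P.inv.x = P.x := rfl
  have hy : P.inv.y = F.eval P.x := by rw [h]; rfl
  rw [hx, hy]
  have h2 : (ymin F : CR φ) = ymin (C (F.eval P.x)) - ⟨F1, 0⟩ * lin P.x := by
    apply QuadraticAlgebra.ext
    · rw [QuadraticAlgebra.re_sub, QuadraticAlgebra.re_mul]
      show -F = -C (F.eval P.x) - (F1 * (X - C P.x) + φ * 0 * 0)
      linear_combination -hF1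
    · rw [QuadraticAlgebra.im_sub, QuadraticAlgebra.im_mul]
      show (1 : E[X]) = 1 - (F1 * 0 + 0 * (X - C P.x) + 0 * 0 * 0)
      ring
  apply le_antisymm
  · rw [Ideal.span_le]
    intro w hw
    rw [Set.mem_insert_iff, Set.mem_singleton_iff] at hw
    rw [SetLike.mem_coe]
    rcases hw with rfl | rfl
    · exact Ideal.mem_span_pair.mpr ⟨1, 0, by ring⟩
    · exact Ideal.mem_span_pair.mpr ⟨-⟨F1, 0⟩, 1, by rw [h2]; ring⟩
  · rw [Ideal.span_le]
    intro w hw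
    rw [Set.mem_insert_iff, Set.mem_singleton_iff] at hw
    rw [SetLike.mem_coe]
    rcases hw with rfl | rfl
    · exact Ideal.mem_span_pair.mpr ⟨1, 0, by ring⟩
    · exact Ideal.mem_span_pair.mpr ⟨⟨F1, 0⟩, 1, by rw [h2]; ring⟩

theorem exists_half_pt [IsAlgClosed E] (hφ : Good g φ) (hm : φ.Monic) (P : Pt φ) :
    ∃ z : J φ, (2 : ℕ) • z = cl P := by
  obtain ⟨F, O, h1, h2, -, -⟩ := exists_EO hφ hm P
  obtain ⟨u, v, huv⟩ := hlf_coprime hφ h1
  have hz : (ymin F : CR φ) * ⟨F, 1⟩ = lin P.x * (⟨O, 0⟩ : CR φ) ^ 2 := by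
    rw [pow_two]
    apply QuadraticAlgebra.ext
    · simp only [QuadraticAlgebra.re_mul, QuadraticAlgebra.im_mul]
      show -F * F + φ * 1 * 1 = (X - C P.x) * (O * O + φ * 0 * 0) + φ * 0 * (O * 0 + 0 * O + 0 * 0 * 0)
      linear_combination h1
    · simp only [QuadraticAlgebra.re_mul, QuadraticAlgebra.im_mul]
      show -F * 1 + 1 * F + 0 * 1 * 1 = (X - C P.x) * (O * 0 + 0 * O + 0 * 0 * 0) +
        0 * (O * O + φ * 0 * 0) + 0 * 0 * (O * 0 + 0 * O + 0 * 0 * 0)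
      ring
  have htwo : (2 : E) * (2 : E)⁻¹ = 1 := mul_inv_cancel₀ hφ.two
  have htop : Ideal.span {(⟨O, 0⟩ : CR φ), ymin F, ⟨F, 1⟩} = ⊤ := by
    rw [Ideal.eq_top_iff_one]
    have h3 : (1 : CR φ) = ⟨u, 0⟩ * ⟨O, 0⟩ + (⟨-(v * C (2 : E)⁻¹), 0⟩ * ymin F +
        ⟨v * C (2 : E)⁻¹, 0⟩ * ⟨F, 1⟩) := by
      have h4 : (C (2 : E)⁻¹ : E[X]) * 2 = 1 := by
        have h5 : (2 : E[X]) = C (2 : E) := rfl
        rw [h5, ← C_mul, mul_comm, htwo, C_1]
      apply QuadraticAlgebra.ext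
      · simp only [QuadraticAlgebra.re_add, QuadraticAlgebra.re_mul, QuadraticAlgebra.re_one]
        show (1 : E[X]) = (u * O + φ * 0 * 0) + ((-(v * C (2 : E)⁻¹)) * (-F) + φ * 0 * 1 +
          (v * C (2 : E)⁻¹ * F + φ * 0 * 1))
        linear_combination -huv - v * F * h4
      · simp only [QuadraticAlgebra.im_add, QuadraticAlgebra.im_mul, QuadraticAlgebra.im_one]
        show (0 : E[X]) = (u * 0 + 0 * O + 0 * 0 * 0) +
          ((-(v * C (2 : E)⁻¹)) * 1 + 0 * (-F) + 0 * 0 * 1 +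
          (v * C (2 : E)⁻¹ * 1 + 0 * F + 0 * 0 * 1))
        ring
    rw [h3]
    refine Ideal.add_mem _ (Ideal.mul_mem_left _ _ (Ideal.subset_span (by simp)))
      (Ideal.add_mem _ (Ideal.mul_mem_left _ _ (Ideal.subset_span (by simp)))
        (Ideal.mul_mem_left _ _ (Ideal.subset_span (by simp))))
  have hhalf := span_half hz htop
  rw [hlf_span P h2] at hhalf
  have hz0 : (ymin F : CR φ) ≠ 0 := by
    intro h
    have h3 : (ymin F : CR φ).im = 0 := by rw [h]; rfl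
    exact one_ne_zero h3
  have hI : Ideal.span {(⟨O, 0⟩ : CR φ), ymin F} ≠ ⊥ := by
    intro h
    rw [Ideal.span_eq_bot] at h
    exact hz0 (h _ (by simp))
  obtain ⟨m, hmI⟩ := exists_idm hφ hI
  rw [hmI] at hhalf
  have h5 : Ideal.span {(ymin F : CR φ)} = idm (P.inv ::ₘ (m + m)) := by
    rw [idm_cons, idm_add, ← pow_two]
    exact hhalf
  have h6 := clm_of_span hz0 h5
  rw [clm_cons, clm_add, cl_inv hφ] at h6
  refine ⟨clm m, ?_⟩
  rw [two_nsmul]
  exact (neg_add_eq_zero.mp h6).symm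

theorem exists_half [IsAlgClosed E] (hφ : Good g φ) (hm : φ.Monic) (z : J φ) :
    ∃ w : J φ, (2 : ℕ) • w = z := by
  obtain ⟨m, rfl⟩ := exists_clm hφ z
  induction m using Multiset.induction_on with
  | empty => exact ⟨0, by rw [clm_zero, smul_zero]⟩
  | cons P m ih =>
    obtain ⟨w, hw⟩ := ih
    obtain ⟨w', hw'⟩ := exists_half_pt hφ hm P
    exact ⟨w' + w, by rw [nsmul_add, hw, hw', clm_cons]⟩

end Pool.Agent.Lib.MP_2f3286_ag.HYP
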