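import Pool.Agent.Lib.MP_2f3286_ag.HYP.Spc
import Pool.Agent.Lib.MP_2f3286_ag.HYP.Hlf

/-!
# Elements of 2-power order of the Jacobian
-/

open Polynomial

noncomputable section

namespace Pool.Agent.Lib.MP_2f3286_ag.HYP

/-- elements of 2-power order come from the smaller field -/
theorem pow_torsion_lift {E E' : Type*} [Field E] [Field E'] [IsAlgClosed E] [IsAlgClosed E']
    {g : ℕ} {φ : E[X]} {ψ : E'[X]} (hφ : Good g φ) (hmon : φ.Monic) (j : E →+* E')
    (hj : φ.map j = ψ) (m : ℕ) {z : J ψ} (hz : (2 ^ m : ℕ) • z = 0) :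
    ∃ w : J φ, (2 ^ m : ℕ) • w = 0 ∧ J.map j hj w = z := by
  induction m generalizing z with
  | zero =>
    rw [pow_zero, one_smul] at hz
    exact ⟨0, smul_zero _, by rw [map_zero, hz]⟩
  | succ m ih =>
    rw [pow_succ, mul_smul] at hz
    obtain ⟨w₁, h1, h2⟩ := ih hz
    obtain ⟨w₂, h3⟩ := exists_half hφ hmon w₁
    have h4 : (2 : ℕ) • (z - J.map j hj w₂) = 0 := by
      rw [nsmul_sub, ← map_nsmul, h3, h2, sub_self]
    obtain ⟨w₃, h5, h6⟩ := two_torsion_lift hφ j hj h4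
    refine ⟨w₂ + w₃, ?_, ?_⟩
    · rw [pow_succ, mul_smul, nsmul_add, h3, h5, add_zero, h1]
    · rw [map_add, h6]
      abel

/-- the roots of `φ` reduce to different roots -/
theorem Plc.root_red_inj {M F : Type*} [Field M] [Field F] {g : ℕ} {A : ValuationSubring M}
    {π : A →+* F} {φ : M[X]} {ψ : F[X]} (h : Plc A π φ ψ) (hψ : Good g ψ) {a b : M}
    (ha : φ.eval a = 0) (hb : φ.eval b = 0)
    (hab : π ⟨a, h.root_mem ha⟩ = π ⟨b, h.root_mem hb⟩) : a = b := by
  by_contra hne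
  obtain ⟨p, hp, h1, h2⟩ := h.lift
  have hev : ∀ u : A, ((p.eval u : A) : M) = φ.eval (u : M) := by
    intro u
    rw [← h1]
    change A.subtype (p.eval u) = (p.map A.subtype).eval (A.subtype u)
    rw [eval_map, eval₂_at_apply]
  have ha' : p.IsRoot ⟨a, h.root_mem ha⟩ := Subtype.ext ((hev _).trans ha)
  have hb' : p.eval ⟨b, h.root_mem hb⟩ = 0 := Subtype.ext ((hev _).trans hb)
  obtain ⟨q, hq⟩ := dvd_iff_isRoot.mpr ha'
  rw [hq, eval_mul] at hb'
  have h3 : q.eval ⟨b, h.root_mem hb⟩ = 0 := by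
    refine (mul_eq_zero.mp hb').resolve_left ?_
    rw [eval_sub, eval_X, eval_C]
    intro h4
    exact hne (congrArg Subtype.val (sub_eq_zero.mp h4)).symm
  have h4 : (q.map π).IsRoot (π ⟨a, h.root_mem ha⟩) := by
    rw [IsRoot, hab, eval_map, eval₂_at_apply, h3, map_zero]
  obtain ⟨r, hr⟩ := dvd_iff_isRoot.mpr h4
  have h5 : ψ = (X - C (π ⟨a, h.root_mem ha⟩)) * (X - C (π ⟨a, h.root_mem ha⟩)) * r := by
    refine h2.symm.trans ?_
    rw [hq, Polynomial.map_mul, Polynomial.map_sub, map_X, map_C, hr, mul_assoc]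
  exact not_isUnit_X_sub_C _ (hψ.sep.squarefree _ ⟨r, h5⟩)

/-- the reduction of a divisor whose points have `x` in `A` -/
theorem Plc.redp_eq_pmap {M F : Type*} [Field M] [Field F] {A : ValuationSubring M}
    {π : A →+* F} {φ : M[X]} {ψ : F[X]} (h : Plc A π φ ψ) (p : Pt φ → Prop)
    (hp : ∀ P, p P → P.x ∈ A) (m : Multiset (Pt φ)) (hm : ∀ P ∈ m, p P) :
    h.redp m = m.pmap (fun P hP => h.redPt P (hp P hP)) hm := by
  induction m using Multiset.induction_on with
  | empty => rw [h.redp_zero]; rfl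
  | cons P m ih =>
    rw [h.redp_cons_mem m (hp P (hm P (Multiset.mem_cons_self P m))), Multiset.pmap_cons,
      ih fun Q hQ => hm Q (Multiset.mem_cons_of_mem hQ)]

/-- specialisation is injective on elements of 2-power order -/
theorem Plc.sp_torsion_inj {M F : Type*} [Field M] [Field F] [IsAlgClosed M] [IsAlgClosed F]
    {g : ℕ} {A : ValuationSubring M} {π : A →+* F} {φ : M[X]} {ψ : F[X]} (h : Plc A π φ ψ)
    (hφ : Good g φ) (hψ : Good g ψ) (m : ℕ) {z : J φ} (hz : (2 ^ m : ℕ) • z = 0)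
    (h0 : h.sp hφ hψ z = 0) : z = 0 := by
  classical
  induction m generalizing z with
  | zero => rwa [pow_zero, one_smul] at hz
  | succ m ih =>
    rw [pow_succ, mul_smul] at hz
    have h1 : (2 : ℕ) • z = 0 := ih hz (by rw [map_nsmul, h0, smul_zero])
    obtain ⟨d, hd1, hd2, hd3, rfl⟩ := two_torsion hφ h1
    have hr : ∀ P : Pt φ, P.y = 0 → φ.eval P.x = 0 := fun P hP => by
      rw [← P.eqn, hP]; ring
    have hp : ∀ P : Pt φ, P.y = 0 → P.x ∈ A := fun P hP => h.root_mem (hr P hP)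
    have hd := h.redp_eq_pmap (fun P => P.y = 0) hp d hd3
    rw [h.sp_clm] at h0
    have h2 : h.redp d = 0 := by
      refine Reduced.unique hψ ⟨?_, ?_⟩ ⟨Nat.zero_le _, fun Q hQ => ?_⟩ (h0.trans clm_zero.symm)
      · rw [hd, Multiset.card_pmap]
        exact hd1.1
      · -- the reductions are different ramification points
        intro Q hQ
        have hQm : Q ∈ h.redp d := Multiset.mem_of_le hQ (Multiset.mem_cons_self _ _)
        rw [hd, Multiset.mem_pmap] at hQm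
        obtain ⟨P, hP, hPQ⟩ := hQm
        have hy : Q.y = 0 := by
          rw [← hPQ]
          change π ⟨P.y, _⟩ = 0
          have : (⟨P.y, h.y_mem (hp P (hd3 P hP))⟩ : A) = 0 := Subtype.ext (hd3 P hP)
          rw [this, map_zero]
        have hinv : Q.inv = Q := by
          ext
          · rfl
          · change -Q.y = Q.y
            rw [hy, neg_zero]
        have hnd : (h.redp d).Nodup := by
          rw [hd]
          refine hd2.pmap ?_
          intro P hP Q hQ hPQ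
          have e1 : P.x = Q.x := h.root_red_inj hψ (hr P hP) (hr Q hQ) (congrArg Pt.x hPQ)
          ext
          · exact e1
          · rw [hP, hQ]
        rw [hinv] at hQ
        exact (Multiset.nodup_iff_le.mp hnd) Q hQ
      · have := Multiset.card_le_card hQ
        rw [Multiset.card_cons, Multiset.card_singleton, Multiset.card_zero] at this
        omega
    rw [hd] at h2
    have h3 : d.card = 0 := by
      rw [← Multiset.card_pmap (fun P hP => h.redPt P (hp P hP)) d hd3, h2, Multiset.card_zero]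
    rw [Multiset.card_eq_zero.mp h3, clm_zero]

/-- **a chain of halves from approximations up to torsion** -/
theorem chain_of_approx {G : Type*} [AddCommGroup G] (H : AddSubgroup G) {T : Set G}
    (hT : T.Finite) (hTH : ∀ z ∈ H, (∃ m : ℕ, (2 ^ m : ℕ) • z = 0) → z ∈ T) {η : G}
    (h : ∀ n : ℕ, ∃ z ∈ H, ∃ t ∈ T, (2 ^ n : ℕ) • z + t = η) :
    ∃ t ∈ T, ∃ c : ℕ → G, (∀ n, c n ∈ H) ∧ c 0 = η - t ∧ ∀ n, (2 : ℕ) • c (n + 1) = c n := by
  classical
  choose z hz t ht hzt using h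
  -- one `t` occurs infinitely often
  have : Finite T := hT
  obtain ⟨t₀, ht₀⟩ := Finite.exists_infinite_fiber (fun n : ℕ => (⟨t n, ht n⟩ : T))
  have h1 : ∀ n : ℕ, ∃ w ∈ H, (2 ^ n : ℕ) • w = η - t₀ := by
    intro n
    have hinf : ((fun n : ℕ => (⟨t n, ht n⟩ : T)) ⁻¹' {t₀}).Infinite :=
      Set.infinite_coe_iff.mp ht₀
    obtain ⟨k, hk, hnk⟩ := hinf.exists_gt n
    have hk' : t k = t₀ := congrArg Subtype.val hk
    refine ⟨(2 ^ (k - n) : ℕ) • z k, H.nsmul_mem (hz k) _, ?_⟩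
    rw [← mul_smul, ← pow_add, Nat.add_sub_cancel' hnk.le, ← hzt k, hk']
    abel
  choose w hw hw' using h1
  -- a common exponent of the torsion
  obtain ⟨N, hN⟩ : ∃ N : ℕ, ∀ u ∈ T, (∃ m : ℕ, (2 ^ m : ℕ) • u = 0) → (2 ^ N : ℕ) • u = 0 := by
    have h2 : ∀ u : G, ∃ m : ℕ, (∃ m : ℕ, (2 ^ m : ℕ) • u = 0) → (2 ^ m : ℕ) • u = 0 := by
      intro u
      by_cases hu : ∃ m : ℕ, (2 ^ m : ℕ) • u = 0
      · exact ⟨hu.choose, fun _ => hu.choose_spec⟩
      · exact ⟨0, fun h => absurd h hu⟩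
    choose m hm using h2
    refine ⟨hT.toFinset.sup m, fun u hu hu' => ?_⟩
    have h3 : m u ≤ hT.toFinset.sup m := Finset.le_sup (hT.mem_toFinset.mpr hu)
    rw [← Nat.sub_add_cancel h3, pow_add, mul_smul, hm u hu', smul_zero]
  refine ⟨t₀, t₀.2, fun n => (2 ^ N : ℕ) • w (n + N), fun n => H.nsmul_mem (hw _) _, ?_, ?_⟩
  · change (2 ^ N : ℕ) • w (0 + N) = _
    rw [zero_add]
    exact hw' N
  · intro n
    have h3 : (2 : ℕ) • w (n + 1 + N) - w (n + N) ∈ H :=
      H.sub_mem (H.nsmul_mem (hw _) _) (hw _)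
    have h4 : (2 ^ (n + N) : ℕ) • ((2 : ℕ) • w (n + 1 + N) - w (n + N)) = 0 := by
      rw [nsmul_sub, ← mul_smul, ← pow_succ, hw', show n + N + 1 = n + 1 + N by ring, hw', sub_self]
    have h5 := hN _ (hTH _ h3 ⟨_, h4⟩) ⟨_, h4⟩
    rw [nsmul_sub, sub_eq_zero] at h5
    change (2 : ℕ) • (2 ^ N : ℕ) • w (n + 1 + N) = (2 ^ N : ℕ) • w (n + N)
    rw [← h5, ← mul_smul, ← mul_smul, mul_comm]

end Pool.Agent.Lib.MP_2f3286_ag.HYP
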