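import Pool.Agent.Lib.MP_2f3286_ag.HYP.RealPl
import Pool.Agent.Lib.MP_2f3286_bir.Place

/-!
# Real places

A section of the Galois group of a field is, at every embedding of the algebraic closure of the base
field in `ℂ`, the section of a place with values in `ℂ`.
-/

noncomputable section

namespace Pool.Agent.Lib.MP_2f3286_ag.HYP

open ArchimedeanClass ComplexConjugate Pool.Agent.Lib.MP_2f3286_bir

/-- a real number whose square root in an algebraically closed field is fixed by complex conjugation -/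
theorem sq_of_pos {kb : Type*} [Field kb] [IsAlgClosed kb] {s0 : kb →+* kb} {ι : kb →+* ℂ}
    (h : ∀ a, ι (s0 a) = conj (ι a)) {a : kb} {r : ℝ} (hr : 0 ≤ r) (ha : ι a = r) :
    ∃ z : kb, z * z = a ∧ s0 z = z := by
  obtain ⟨z, hz⟩ := IsAlgClosed.exists_pow_nat_eq a (n := 2) (by norm_num)
  refine ⟨z, by rw [← hz, pow_two], ι.injective ?_⟩
  rw [h]
  have h1 : ι z * ι z = ((Real.sqrt r : ℝ) : ℂ) * (Real.sqrt r : ℝ) := by
    rw [← map_mul, ← pow_two, hz, ha, ← Complex.ofReal_mul, Real.mul_self_sqrt hr]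
  rcases mul_self_eq_mul_self_iff.mp h1 with h2 | h2
  · rw [h2, Complex.conj_ofReal]
  · rw [h2, map_neg, Complex.conj_ofReal]

/-- the standard part of an algebraic element fixed by the involution -/
theorem std_alg {Ω kb : Type*} [Field Ω] [CharZero Ω] [Field kb] [IsAlgClosed kb] [Algebra kb Ω]
    {c : Ω →+* Ω} [LinearOrder (Fx c)] [IsStrictOrderedRing (Fx c)]
    (hpos : ∀ a : Fx c, 0 ≤ a ↔ ∃ b : Fx c, a = b * b) {s0 : kb →+* kb}
    (hs : ∀ a, c (algebraMap kb Ω a) = algebraMap kb Ω (s0 a)) {ι : kb →+* ℂ}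
    (h : ∀ a, ι (s0 a) = conj (ι a)) {a : kb} (ha : s0 a = a) :
    ∃ (ha' : algebraMap kb Ω a ∈ Fx c), 0 ≤ mk (⟨algebraMap kb Ω a, ha'⟩ : Fx c) ∧
      ι a = stdPart (⟨algebraMap kb Ω a, ha'⟩ : Fx c) := by
  have ha' : algebraMap kb Ω a ∈ Fx c := by
    rw [mem_Fx, hs, ha]
  obtain ⟨r, hr⟩ : ∃ r : ℝ, ι a = r := Complex.conj_eq_iff_real.mp (by rw [← h, ha])
  set A : Fx c := ⟨algebraMap kb Ω a, ha'⟩ with hA
  -- comparison with rational numbers
  have h1 : ∀ q : ℚ, (q : ℝ) ≤ r → (q : Fx c) ≤ A := by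
    intro q hq
    rw [← sub_nonneg, hpos]
    obtain ⟨z, hz, hz'⟩ := sq_of_pos h (a := a - q) (r := r - q) (sub_nonneg.mpr hq) (by
      rw [map_sub, hr, map_ratCast]; push_cast; ring)
    refine ⟨⟨algebraMap kb Ω z, by rw [mem_Fx, hs, hz']⟩, Subtype.ext ?_⟩
    change algebraMap kb Ω a - ((q : Fx c) : Ω) = algebraMap kb Ω z * algebraMap kb Ω z
    rw [← map_mul, hz, map_sub, map_ratCast]
    rfl
  have h2 : ∀ q : ℚ, r ≤ (q : ℝ) → A ≤ (q : Fx c) := by
    intro q hq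
    rw [← sub_nonneg, hpos]
    obtain ⟨z, hz, hz'⟩ := sq_of_pos h (a := q - a) (r := q - r) (sub_nonneg.mpr hq) (by
      rw [map_sub, hr, map_ratCast]; push_cast; ring)
    refine ⟨⟨algebraMap kb Ω z, by rw [mem_Fx, hs, hz']⟩, Subtype.ext ?_⟩
    change ((q : Fx c) : Ω) - algebraMap kb Ω a = algebraMap kb Ω z * algebraMap kb Ω z
    rw [← map_mul, hz, map_sub, map_ratCast]
    rfl
  have h3 : 0 ≤ mk A := by
    obtain ⟨q1, hq1, hq1'⟩ := exists_rat_btwn (sub_one_lt r)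
    obtain ⟨q2, hq2, hq2'⟩ := exists_rat_btwn (lt_add_one r)
    exact (le_min (mk_ratCast_nonneg q1) (mk_ratCast_nonneg q2)).trans
      (min_le_mk_of_le_of_le (h1 q1 hq1'.le) (h2 q2 hq2.le))
  refine ⟨ha', h3, ?_⟩
  rw [hr]
  congr 1
  have h4 : ∀ q : ℚ, (q : ℝ) ≤ r → (q : ℝ) ≤ stdPart A := by
    intro q hq
    rw [← stdPart_ratCast (K := Fx c) q]
    exact stdPart_monotoneOn (mk_ratCast_nonneg q) h3 (h1 q hq)
  have h5 : ∀ q : ℚ, r ≤ (q : ℝ) → stdPart A ≤ (q : ℝ) := by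
    intro q hq
    rw [← stdPart_ratCast (K := Fx c) q]
    exact stdPart_monotoneOn h3 (mk_ratCast_nonneg q) (h2 q hq)
  apply le_antisymm
  · by_contra hlt
    push Not at hlt
    obtain ⟨q, hq1, hq2⟩ := exists_rat_btwn hlt
    exact absurd (h4 q hq2.le) (not_le.mpr hq1)
  · by_contra hlt
    push Not at hlt
    obtain ⟨q, hq1, hq2⟩ := exists_rat_btwn hlt
    exact absurd (h5 q hq1.le) (not_le.mpr hq2)

/-- **real places**: at an embedding `ι` of the algebraic closure of `k` in `ℂ` for which complex conjugation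
is the image of `σ₀`, a section is the section of a place over `ℝ`. -/
theorem exists_real_place {k kb K Ω : Type*} [Field k] [Field kb] [Algebra k kb] [Field K]
    [Field Ω] [Algebra K Ω] [Algebra kb Ω] [IsAlgClosed kb] [IsAlgClosed Ω] [CharZero Ω]
    (s : Gal(kb/k) →* Gal(Ω/K))
    (hsec : ∀ σ a, s σ (algebraMap kb Ω a) = algebraMap kb Ω (σ a))
    (ι : kb →+* ℂ) (σ₀ : Gal(kb/k)) (h : ∀ a, ι (σ₀ a) = conj (ι a)) :
    ∃ (A : ValuationSubring Ω) (φ : A →+* ℂ), IsPlaceOf s ℝ ι A φ := by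
  classical
  have hσ : σ₀ * σ₀ = 1 := by
    ext a
    apply ι.injective
    rw [AlgEquiv.mul_apply, h, h, Complex.conj_conj]
    rfl
  let c : Ω →+* Ω := (s σ₀ : Gal(Ω/K)).toRingEquiv.toRingHom
  have hcs : ∀ x, c x = s σ₀ x := fun x => rfl
  have hc : ∀ x, c (c x) = x := by
    intro x
    rw [hcs, hcs, ← AlgEquiv.mul_apply, ← map_mul, hσ, map_one]
    rfl
  obtain ⟨i₀, hi₀⟩ := IsAlgClosed.exists_pow_nat_eq (-1 : kb) (n := 2) (by norm_num)
  have hJ : ι i₀ * ι i₀ = -1 := by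
    rw [← map_mul, ← pow_two, hi₀, map_neg, map_one]
  have hJc : conj (ι i₀) = -ι i₀ := by
    rcases mul_self_eq_mul_self_iff.mp (hJ.trans Complex.I_mul_I.symm) with h | h
    · rw [h, Complex.conj_I]
    · rw [h, map_neg, Complex.conj_I]
  have hσi : σ₀ i₀ = -i₀ := by
    apply ι.injective
    rw [h, hJc, map_neg]
  set i : Ω := algebraMap kb Ω i₀ with hi'
  have hi : i * i = -1 := by
    rw [hi', ← map_mul, ← pow_two, hi₀, map_neg, map_one]
  have hci : c i = -i := by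
    rw [hcs, hi', hsec, hσi, map_neg]
  obtain ⟨o1, o2, hpos⟩ := fx_order hc hi hci
  obtain ⟨A, φ, h1, h2, h3⟩ := real_place_aux hc hi hci (ι i₀) hJ
  refine ⟨A, φ, ?_, h2, ?_⟩
  · intro a
    -- the real and the imaginary part of `a`
    have h0 : (2 : kb) ≠ 0 := by
      intro h
      have : ι (2 : kb) = 0 := by rw [h, map_zero]
      rw [map_ofNat] at this
      exact two_ne_zero this
    have hi0 : i₀ ≠ 0 := by
      rintro rfl
      rw [map_zero, mul_zero] at hJ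
      exact one_ne_zero (α := ℂ) (by linear_combination hJ)
    have hσσ : σ₀ (σ₀ a) = a := by
      rw [← AlgEquiv.mul_apply, hσ]
      rfl
    have e1 : σ₀ ((a + σ₀ a) / 2) = (a + σ₀ a) / 2 := by
      rw [map_div₀, map_add, hσσ, map_ofNat, add_comm]
    have e2 : σ₀ ((a - σ₀ a) / (2 * i₀)) = (a - σ₀ a) / (2 * i₀) := by
      rw [map_div₀, map_sub, hσσ, map_mul, map_ofNat, hσi, ← neg_sub, mul_neg, neg_div_neg_eq]
    obtain ⟨m1, g1, f1⟩ := std_alg (s0 := (σ₀ : kb →+* kb)) (ι := ι) hpos (fun a => hsec σ₀ a) h e1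
    obtain ⟨m2, g2, f2⟩ := std_alg (s0 := (σ₀ : kb →+* kb)) (ι := ι) hpos (fun a => hsec σ₀ a) h e2
    obtain ⟨m3, f3⟩ := h1 _ _ g1 g2
    have e3 : (a + σ₀ a) / 2 + i₀ * ((a - σ₀ a) / (2 * i₀)) = a := by
      field_simp
      ring
    have e4 : algebraMap kb Ω ((a + σ₀ a) / 2) + i * algebraMap kb Ω ((a - σ₀ a) / (2 * i₀)) =
        algebraMap kb Ω a := by
      rw [hi', ← map_mul, ← map_add, e3]
    refine ⟨e4 ▸ m3, ?_⟩
    have e5 : φ ⟨algebraMap kb Ω a, e4 ▸ m3⟩ = φ ⟨_, m3⟩ := by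
      congr 1
      exact Subtype.ext e4.symm
    rw [e5, f3, ← f1, ← f2, ← map_mul, ← map_add, e3]
  · intro σ τ hστ x
    have hτ : τ = 1 ∨ ∀ z : ℂ, τ z = conj z := by
      rcases Complex.real_algHom_eq_id_or_conj (τ : ℂ →ₐ[ℝ] ℂ) with h | h
      · left
        ext z
        exact DFunLike.congr_fun h z
      · right
        intro z
        exact DFunLike.congr_fun h z
    rcases hτ with rfl | hτ
    · have : σ = 1 := by
        ext a
        apply ι.injective
        exact hστ a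
      subst this
      rw [map_one]
      exact ⟨x.2, rfl⟩
    · have : σ = σ₀ := by
        ext a
        apply ι.injective
        rw [hστ, hτ, h]
      subst this
      rw [hτ]
      exact h3 x

end Pool.Agent.Lib.MP_2f3286_ag.HYP
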