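import Pool.Agent.Lib.MP_2f3286_ag.HYP.Coc
import Pool.Agent.Lib.MP_2f3286_ag.HYP.Hlf
import Pool.Agent.Lib.MP_2f3286_ag.HYP.Real
import Pool.Agent.Lib.MP_2f3286_ag.Koe.LocalPlace

/-!
# The Kummer step: infinite divisibility   (module Kst)
-/

open Polynomial IsDedekindDomain NumberField
open Pool.Agent.Lib.MP_2f3286_bir (IsPlaceOf)

noncomputable section

namespace Pool.Agent.Lib.MP_2f3286_ag.HYP

theorem gal_complex (τ : Gal(ℂ/ℝ)) : (∀ z, τ z = z) ∨ ∀ z, τ z = starRingEnd ℂ z := by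
  have h1 : τ Complex.I * τ Complex.I = -1 := by
    rw [← map_mul, Complex.I_mul_I, map_neg, map_one]
  have h2 : (τ Complex.I - Complex.I) * (τ Complex.I + Complex.I) = 0 := by
    linear_combination h1 - Complex.I_mul_I
  have h3 : ∀ z : ℂ, z = algebraMap ℝ ℂ z.re + algebraMap ℝ ℂ z.im * Complex.I := fun z =>
    (Complex.re_add_im z).symm
  rcases mul_eq_zero.mp h2 with h | h
  · left
    intro z
    rw [h3 z, map_add, map_mul, AlgEquiv.commutes, AlgEquiv.commutes, sub_eq_zero.mp h]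
  · right
    intro z
    rw [h3 z, map_add, map_mul, AlgEquiv.commutes, AlgEquiv.commutes, eq_neg_of_add_eq_zero_left h,
      map_add, map_mul, Complex.conj_I]
    change _ = starRingEnd ℂ ((z.re : ℝ) : ℂ) + starRingEnd ℂ ((z.im : ℝ) : ℂ) * _
    rw [Complex.conj_ofReal, Complex.conj_ofReal]
    rfl

/-- the condition at an infinite place -/
theorem locSol_real {k kb K Ω : Type*} [Field k] [Field kb] [Algebra k kb] [Field K] [Field Ω]
    [Algebra K Ω] [Algebra kb Ω] [Algebra k Ω] [IsScalarTower k kb Ω] [Algebra k K]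
    [IsScalarTower k K Ω] [IsAlgClosed kb] [IsAlgClosed Ω] [CharZero Ω]
    {f : k[X]} {s : Gal(kb/k) →* Gal(Ω/K)}
    (hsec : ∀ σ a, s σ (algebraMap kb Ω a) = algebraMap kb Ω (σ a)) (ι : kb →+* ℂ)
    {g : ℕ} (hf : f.Monic)
    (h1 : Good g (f.map (algebraMap k Ω))) (h2 : Good g (f.map (ι.comp (algebraMap k kb))))
    {n : ℕ} {c : Gal(kb/k) → J (f.map (algebraMap k kb))} {E' : J (f.map (algebraMap k Ω))}
    (hc : ∀ σ, jconst f (c σ) = sact f (s σ) E' - E') (hc1 : c 1 = 0)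
    {P : Pt (f.map (algebraMap k Ω))}
    (hP : 2 ^ (n + 1) • E' = cl P) (hx : ∀ σ, s σ P.x = P.x) (hy : ∀ σ, s σ P.y = P.y) :
    LocSol f n c ℝ ι := by
  classical
  by_cases hσ : ∃ σ₀ : Gal(kb/k), ∀ a, ι (σ₀ a) = starRingEnd ℂ (ι a)
  · obtain ⟨σ₀, hσ₀⟩ := hσ
    obtain ⟨A, φ, h⟩ := exists_real_place s hsec ι σ₀ hσ₀
    have hA : IsAlgClosure ℝ ℂ := ⟨inferInstance, inferInstance⟩
    have hG : IsGalois ℝ ℂ := IsAlgClosure.isGalois ℝ ℂ
    refine locSol_of_place hf h h1 h2 ?_ hc hP hx hy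
    intro τ
    rcases gal_complex τ with h3 | h3
    · exact ⟨1, fun a => (h3 _).symm⟩
    · exact ⟨σ₀, fun a => by rw [hσ₀, h3]⟩
  · refine ⟨0, Or.inl (smul_zero _), ?_⟩
    intro σ τ hστ
    rcases gal_complex τ with h3 | h3
    · have h4 : σ = 1 := by
        ext a
        apply ι.injective
        rw [hστ, h3]
        rfl
      subst h4
      rw [hc1]
      simp only [map_zero, sub_zero]
    · exact absurd ⟨σ, fun a => by rw [hστ, h3]⟩ hσ

section

variable {k : Type*} [Field k] [NumberField k] {K : Type*} [Field K] [Algebra k K]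
  {Ω : Type*} [Field Ω] [Algebra K Ω] [IsAlgClosure K Ω]
  [Algebra (AlgebraicClosure k) Ω] [Algebra k Ω]
  [IsScalarTower k K Ω] [IsScalarTower k (AlgebraicClosure k) Ω]
  {f : k[X]} (s : Gal(AlgebraicClosure k/k) →* Gal(Ω/K))

theorem good_of {k E : Type*} [Field k] [CharZero k] [Field E] {f : k[X]} {g : ℕ}
    (hfs : f.Separable) (hfd : f.natDegree = 2 * g + 1) (i : k →+* E) : Good g (f.map i) where
  two := by
    have h : (2 : k) ≠ 0 := two_ne_zero
    have := (map_ne_zero i).2 h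
    rwa [map_ofNat] at this
  sep := hfs.map
  deg := by rw [natDegree_map, hfd]

theorem kummer_step (hs : Continuous s)
    (hsec : ∀ σ a, s σ (algebraMap (AlgebraicClosure k) Ω a) =
      algebraMap (AlgebraicClosure k) Ω (σ a)) {g : ℕ} (hf : f.Monic) (hfs : f.Separable)
    (hfd : f.natDegree = 2 * g + 1) (hS : SelTriv k f)
    {P : Pt (f.map (algebraMap k Ω))} (hx : ∀ σ, s σ P.x = P.x) (hy : ∀ σ, s σ P.y = P.y)
    {n : ℕ} {z : J (f.map (algebraMap k Ω))} (hz : ∀ σ, sact f (s σ) z = z)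
    (hn : 2 ^ n • z = cl P) :
    ∃ w : J (f.map (algebraMap k Ω)), (∀ σ, sact f (s σ) w = w) ∧ 2 • w = z := by
  have hcl : IsAlgClosed Ω := IsAlgClosure.isAlgClosed K
  have halg : Algebra.IsAlgebraic K Ω := IsAlgClosure.isAlgebraic
  have : CharZero Ω := charZero_of_injective_algebraMap (algebraMap k Ω).injective
  obtain ⟨E', hE⟩ := exists_half (good_of hfs hfd (algebraMap k Ω)) (hf.map _) z
  obtain ⟨c, c1, c2, c3, c4⟩ := exists_cocycle f s (good_of hfs hfd (algebraMap k _)) hs hsec E'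
    (by intro σ; rw [hE, hz σ])
  have hP : 2 ^ (n + 1) • E' = cl P := by
    rw [pow_succ, mul_smul, hE, hn]
  have hc1 : c 1 = 0 := by
    have h := c3 1 1
    rw [mul_one] at h
    have h' : gact f (1 : Gal(AlgebraicClosure k/k)) (c 1) = c 1 := by
      have h5 := J.map_id (φ := f.map (algebraMap k (AlgebraicClosure k)))
        (Polynomial.map_id) (c 1)
      exact h5
    rw [h'] at h
    exact left_eq_add.mp h
  obtain ⟨t, ht, htc⟩ := hS n c c1 c2 c3 (by
      intro v ι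
      obtain ⟨A, φ, h⟩ := Koe.local_place s hs hsec v ι
      have hC : CharZero (v.adicCompletion k) :=
        charZero_of_injective_algebraMap (algebraMap k (v.adicCompletion k)).injective
      have hG : IsGalois (v.adicCompletion k) (AlgebraicClosure (v.adicCompletion k)) :=
        IsAlgClosure.isGalois _ _
      exact locSol_of_place hf h (good_of hfs hfd _) (good_of hfs hfd _) (hres_fin v ι) c4 hP
        hx hy)
    (by
      intro ι
      exact locSol_real hsec ι hf (good_of hfs hfd _) (good_of hfs hfd _) c4 hc1 hP hx hy)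
  refine ⟨E' - jconst f t, fun σ => ?_, ?_⟩
  · rw [map_sub, ← jconst_gact f s hsec, ← sub_eq_zero]
    have h1 := c4 σ
    rw [htc, map_sub] at h1
    rw [← sub_eq_zero] at h1
    rw [← neg_eq_zero, ← h1]
    abel
  · rw [nsmul_sub, hE, ← map_nsmul, ht, map_zero, sub_zero]

/-- **the chain of halves** -/
theorem exists_chain (hs : Continuous s)
    (hsec : ∀ σ a, s σ (algebraMap (AlgebraicClosure k) Ω a) =
      algebraMap (AlgebraicClosure k) Ω (σ a)) {g : ℕ} (hf : f.Monic) (hfs : f.Separable)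
    (hfd : f.natDegree = 2 * g + 1) (hS : SelTriv k f)
    {P : Pt (f.map (algebraMap k Ω))} (hx : ∀ σ, s σ P.x = P.x) (hy : ∀ σ, s σ P.y = P.y) :
    ∃ z : ℕ → J (f.map (algebraMap k Ω)), z 0 = cl P ∧ (∀ n σ, sact f (s σ) (z n) = z n) ∧
      ∀ n, 2 • z (n + 1) = z n := by
  have key : ∀ (n : ℕ) (w : {w : J (f.map (algebraMap k Ω)) //
      (∀ σ, sact f (s σ) w = w) ∧ 2 ^ n • w = cl P}),
      ∃ w' : {w : J (f.map (algebraMap k Ω)) //
      (∀ σ, sact f (s σ) w = w) ∧ 2 ^ (n + 1) • w = cl P}, 2 • w'.1 = w.1 := by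
    intro n w
    obtain ⟨w', h1, h2⟩ := kummer_step s hs hsec hf hfs hfd hS hx hy w.2.1 w.2.2
    exact ⟨⟨w', h1, by rw [pow_succ, mul_smul, h2, w.2.2]⟩, h2⟩
  choose nx hnx using key
  have h0 : (∀ σ, sact f (s σ) (cl P) = cl P) ∧ 2 ^ 0 • (cl P : J (f.map (algebraMap k Ω))) = cl P := by
    refine ⟨fun σ => ?_, by rw [pow_zero, one_smul]⟩
    rw [sact, J.map_cl]
    congr 1
    exact Pt.ext (hx σ) (hy σ)
  let z : (n : ℕ) → {w : J (f.map (algebraMap k Ω)) //
      (∀ σ, sact f (s σ) w = w) ∧ 2 ^ n • w = cl P} := fun n =>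
    Nat.rec ⟨cl P, h0⟩ (fun n w => nx n w) n
  exact ⟨fun n => (z n).1, rfl, fun n => (z n).2.1, fun n => hnx n (z n)⟩

end

end Pool.Agent.Lib.MP_2f3286_ag.HYP
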