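import Pool.Agent.Lib.MP_2f3286_ag.HYP.PLoc

/-!
# Torsion of two-power order over a local field   (module PTor)
-/

open Polynomial IsDedekindDomain NumberField

noncomputable section

namespace Pool.Agent.Lib.MP_2f3286_ag.HYP

/-- a class which is fixed by the automorphisms in `G` has a rational polynomial -/
theorem rat_of_fixed {M : Type*} [Field M] [IsAlgClosed M] {g : ℕ} {φ : M[X]} (hφ : Good g φ)
    {G : Set (M →+* M)} (hG : ∀ σ ∈ G, φ.map σ = φ) {T : J φ}
    (hT : ∀ (σ : M →+* M) (hσ : σ ∈ G), J.map σ (hG σ hσ) T = T) :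
    T ∈ Rat φ g {a | ∀ σ ∈ G, σ a = a} := by
  obtain ⟨m, hm, rfl⟩ := exists_reduced hφ T
  refine ⟨m, hm.1, rfl, 1, one_ne_zero, fun n σ hσ => ?_⟩
  rw [C_1, one_mul, ← coeff_map]
  congr 1
  have h1 := fixed_reduced hφ σ (hG σ hσ) hm (hT σ hσ)
  conv_rhs => rw [← h1]
  rw [upol, upol, Polynomial.map_multiset_prod, Multiset.map_map, Multiset.map_map]
  congr 1
  apply Multiset.map_congr rfl
  intro P _
  simp only [Function.comp_apply, Polynomial.map_sub, map_X, map_C]
  rfl

/-- injectivity modulo a subgroup without two-torsion -/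
theorem eq_of_sub_mem {G : Type*} [AddCommGroup G] {H : AddSubgroup G}
    (hH : ∀ t ∈ H, (2 : ℕ) • t = 0 → t = 0) {z : G} (hz : z ∈ H) {n : ℕ}
    (h : (2 ^ n : ℕ) • z = 0) : z = 0 := by
  induction n with
  | zero => rwa [pow_zero, one_nsmul] at h
  | succ n ih =>
    apply ih
    apply hH _ (AddSubgroup.nsmul_mem _ hz _)
    rw [← mul_nsmul', ← pow_succ']
    exact h

variable {k : Type*} [Field k] [NumberField k] (v : HeightOneSpectrum (𝓞 k))

/-- the classes of two-power order which are rational over `k_v` form a finite set -/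
theorem torsion_finite {g : ℕ} {φ : (AlgebraicClosure (v.adicCompletion k))[X]} (hφ : Good g φ)
    (hm : φ.Monic)
    (hG : ∀ τ : Gal(AlgebraicClosure (v.adicCompletion k)/v.adicCompletion k),
      φ.map (τ : AlgebraicClosure (v.adicCompletion k) →+* AlgebraicClosure (v.adicCompletion k)) = φ) :
    {z : J φ | (∀ τ : Gal(AlgebraicClosure (v.adicCompletion k)/v.adicCompletion k),
      J.map (τ : AlgebraicClosure (v.adicCompletion k) →+* AlgebraicClosure (v.adicCompletion k))
        (hG τ) z = z) ∧ ∃ n : ℕ, (2 ^ n : ℕ) • z = 0}.Finite := by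
  obtain ⟨H, hH, R, hR, hR'⟩ := exists_HR v hφ hm
  set 𝒯 := {z : J φ | (∀ τ : Gal(AlgebraicClosure (v.adicCompletion k)/v.adicCompletion k),
      J.map (τ : AlgebraicClosure (v.adicCompletion k) →+* AlgebraicClosure (v.adicCompletion k))
        (hG τ) z = z) ∧ ∃ n : ℕ, (2 ^ n : ℕ) • z = 0} with h𝒯
  have h1 : ∀ z ∈ 𝒯, z ∈ Rat φ g (Set.range
      (algebraMap (v.adicCompletion k) (AlgebraicClosure (v.adicCompletion k)))) := by
    intro z hz
    obtain ⟨m, h2, h3, c, hc, h4⟩ := rat_of_fixed hφ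
      (G := Set.range fun τ : Gal(AlgebraicClosure (v.adicCompletion k)/v.adicCompletion k) =>
        (τ : AlgebraicClosure (v.adicCompletion k) →+* AlgebraicClosure (v.adicCompletion k)))
      (by rintro _ ⟨τ, rfl⟩; exact hG τ) (T := z) (by rintro _ ⟨τ, rfl⟩; exact hz.1 τ)
    refine ⟨m, h2, h3, c, hc, fun n => ?_⟩
    have h5 : ∀ τ : Gal(AlgebraicClosure (v.adicCompletion k)/v.adicCompletion k),
        τ ((C c * upol m).coeff n) = (C c * upol m).coeff n := fun τ => h4 n _ ⟨τ, rfl⟩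
    have hc0 : CharZero (v.adicCompletion k) :=
      charZero_of_injective_algebraMap (algebraMap k (v.adicCompletion k)).injective
    have : IsGalois (v.adicCompletion k) (AlgebraicClosure (v.adicCompletion k)) := {}
    exact (InfiniteGalois.mem_range_algebraMap_iff_fixed _).2 h5
  choose! t ht ht' using fun z hz => hR' z (h1 z hz)
  refine Set.Finite.of_finite_image (f := t) (hR.subset ?_) ?_
  · rintro _ ⟨z, hz, rfl⟩
    exact ht z hz
  · intro z hz z' hz' hzz
    obtain ⟨n, hn⟩ := hz.2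
    obtain ⟨n', hn'⟩ := hz'.2
    have h2 : z - z' ∈ H := by
      have h3 := sub_mem (ht' z hz) (ht' z' hz')
      rwa [hzz, sub_sub_sub_cancel_right] at h3
    have h3 : (2 ^ (n + n') : ℕ) • (z - z') = 0 := by
      rw [nsmul_sub, pow_add, mul_nsmul, hn, mul_comm, mul_nsmul, hn', nsmul_zero, nsmul_zero,
        sub_zero]
    exact sub_eq_zero.1 (eq_of_sub_mem hH h2 h3)

/-- **there are no chains of halves of two-torsion over a local field** -/
theorem no_chain {g : ℕ} {φ : (AlgebraicClosure (v.adicCompletion k))[X]} (hφ : Good g φ)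
    (hm : φ.Monic)
    (hG : ∀ τ : Gal(AlgebraicClosure (v.adicCompletion k)/v.adicCompletion k),
      φ.map (τ : AlgebraicClosure (v.adicCompletion k) →+* AlgebraicClosure (v.adicCompletion k)) = φ)
    {T : ℕ → J φ} (hT : ∀ n, (2 : ℕ) • T (n + 1) = T n)
    (hfix : ∀ (τ : Gal(AlgebraicClosure (v.adicCompletion k)/v.adicCompletion k)) (n : ℕ),
      J.map (τ : AlgebraicClosure (v.adicCompletion k) →+* AlgebraicClosure (v.adicCompletion k))
        (hG τ) (T n) = T n) {m : ℕ} {j : ℕ} (h0 : (2 ^ j : ℕ) • T m = 0) : T m = 0 := by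
  have hfin := torsion_finite v hφ hm hG
  -- all elements are torsion
  have h1 : ∀ n, (2 ^ n : ℕ) • T (m + n) = T m := by
    intro n
    induction n with
    | zero => rw [pow_zero, one_nsmul, add_zero]
    | succ n ih => rw [pow_succ, mul_nsmul', ← add_assoc, hT, ih]
  have h2 : ∀ n, T (m + n) ∈ {z : J φ | (∀ τ : Gal(AlgebraicClosure (v.adicCompletion k)/v.adicCompletion k),
      J.map (τ : AlgebraicClosure (v.adicCompletion k) →+* AlgebraicClosure (v.adicCompletion k))
        (hG τ) z = z) ∧ ∃ n : ℕ, (2 ^ n : ℕ) • z = 0} := by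
    intro n
    refine ⟨fun τ => hfix τ _, j + n, ?_⟩
    rw [pow_add, mul_comm, mul_nsmul, h1, h0]
  -- a bound for the order
  obtain ⟨N, hN⟩ : ∃ N : ℕ, ∀ n, (2 ^ N : ℕ) • T (m + n) = 0 := by
    choose! e he using fun (z : J φ) (hz : z ∈ {z : J φ | (∀ τ : Gal(AlgebraicClosure (v.adicCompletion k)/v.adicCompletion k),
      J.map (τ : AlgebraicClosure (v.adicCompletion k) →+* AlgebraicClosure (v.adicCompletion k))
        (hG τ) z = z) ∧ ∃ n : ℕ, (2 ^ n : ℕ) • z = 0}) => hz.2
    obtain ⟨N, hN⟩ := (hfin.image e).bddAbove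
    refine ⟨N, fun n => ?_⟩
    have h3 : e (T (m + n)) ≤ N := hN ⟨_, h2 n, rfl⟩
    rw [← Nat.add_sub_of_le h3, pow_add, mul_nsmul, he _ (h2 n), nsmul_zero]
  rw [← h1 N, hN]

end Pool.Agent.Lib.MP_2f3286_ag.HYP
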