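import Pool.Agent.Lib.MP_2f3286_ag.HYP.HSel
import Pool.Agent.Lib.MP_2f3286_ag.HYP.HT1
import Pool.Agent.Lib.MP_2f3286_ag.HYP.Kst
import Pool.Agent.Lib.MP_2f3286_ag.HYP.PTor

/-!
# The 2-adic Kummer class of a section: chains of halves up to torsion
-/

open Polynomial IsDedekindDomain NumberField
open Pool.Agent.Lib.MP_2f3286_bir (IsPlaceOf)

noncomputable section

namespace Pool.Agent.Lib.MP_2f3286_ag.HYP

section

variable {k kb K Ω : Type*} [Field k] [Field kb] [Algebra k kb] [Field K] [Field Ω] [Algebra K Ω]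
  [Algebra kb Ω] [Algebra k Ω] [IsScalarTower k kb Ω] [Algebra k K] [IsScalarTower k K Ω]
  (f : k[X]) (s : Gal(kb/k) →* Gal(Ω/K))

/-- the cocycle of a `2 ^ n`-th part -/
theorem exists_cocycle_pow [IsAlgClosed kb] [IsAlgClosed Ω] [Algebra.IsAlgebraic K Ω] {g : ℕ}
    (h : Good g (f.map (algebraMap k kb))) (hmon : f.Monic) (hs : Continuous s)
    (hsec : ∀ σ a, s σ (algebraMap kb Ω a) = algebraMap kb Ω (σ a)) (n : ℕ)
    (E' : J (f.map (algebraMap k Ω)))
    (hE : ∀ σ, sact f (s σ) (2 ^ n • E') = 2 ^ n • E') :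
    ∃ c : Gal(kb/k) → J (f.map (algebraMap k kb)),
      IsLocallyConstant c ∧ (∀ σ, 2 ^ n • c σ = 0) ∧
      (∀ σ τ, c (σ * τ) = c σ + gact f σ (c τ)) ∧
      ∀ σ, jconst f (c σ) = sact f (s σ) E' - E' := by
  classical
  have hΩ : Good g (f.map (algebraMap k Ω)) := good_map h (algebraMap kb Ω) (map_const f)
  have h1 : ∀ σ, ∃ w : J (f.map (algebraMap k kb)), (2 ^ n : ℕ) • w = 0 ∧
      jconst f w = sact f (s σ) E' - E' := by
    intro σ
    refine pow_torsion_lift h (hmon.map _) (algebraMap kb Ω) (map_const f) n ?_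
    rw [nsmul_sub, ← map_nsmul, hE, sub_self]
  choose c hc2 hcj using h1
  have hinj := jconst_injective (Ω := Ω) f h
  refine ⟨c, ?_, hc2, ?_, hcj⟩
  · rw [IsLocallyConstant.iff_exists_open]
    obtain ⟨m, hm⟩ := exists_clm hΩ E'
    obtain ⟨S, hS⟩ : ∃ S : Finset Ω, S = (m.map Pt.x + m.map Pt.y).toFinset := ⟨_, rfl⟩
    have hfin : FiniteDimensional K (IntermediateField.adjoin K (S : Set Ω)) :=
      IntermediateField.finiteDimensional_adjoin fun x _ => Algebra.IsIntegral.isIntegral x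
    have hopen := IntermediateField.fixingSubgroup_isOpen (IntermediateField.adjoin K (S : Set Ω))
    have hfix : ∀ τ ∈ (IntermediateField.adjoin K (S : Set Ω)).fixingSubgroup,
        sact f τ E' = E' := by
      intro τ hτ
      have h2 : ∀ a ∈ S, τ a = a := by
        intro a ha
        exact (IntermediateField.mem_fixingSubgroup_iff _ _).mp hτ a
          (IntermediateField.subset_adjoin K _ ha)
      rw [hm]
      unfold sact
      rw [J.map_clm']
      congr 1
      conv_rhs => rw [← Multiset.map_id m]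
      refine Multiset.map_congr rfl fun P hP => ?_
      apply Pt.ext
      · refine h2 P.x ?_
        rw [hS, Multiset.mem_toFinset, Multiset.mem_add]
        exact Or.inl (Multiset.mem_map_of_mem _ hP)
      · refine h2 P.y ?_
        rw [hS, Multiset.mem_toFinset, Multiset.mem_add]
        exact Or.inr (Multiset.mem_map_of_mem _ hP)
    intro σ
    refine ⟨{σ' | s (σ⁻¹ * σ') ∈ (IntermediateField.adjoin K (S : Set Ω)).fixingSubgroup},
      ?_, ?_, ?_⟩
    · exact hopen.preimage (hs.comp (continuous_const.mul continuous_id))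
    · rw [Set.mem_ofPred_eq, inv_mul_cancel, map_one]
      exact one_mem _
    · intro σ' hσ'
      rw [Set.mem_ofPred_eq] at hσ'
      apply hinj
      rw [hcj, hcj]
      have h3 : σ' = σ * (σ⁻¹ * σ') := by rw [mul_inv_cancel_left]
      rw [h3, map_mul, sact_mul, hfix _ hσ']
  · intro σ τ
    apply hinj
    rw [map_add, jconst_gact f s hsec, hcj, hcj, hcj, map_sub, map_mul, sact_mul]
    abel

variable {f s} {F Fb : Type*} [Field F] [Field Fb] [Algebra F Fb]
  {ι : kb →+* Fb} {A : ValuationSubring Ω} {φ : A →+* Fb}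

theorem locPt_of_place [IsAlgClosed Ω] [IsAlgClosed Fb] [IsGalois F Fb] {g : ℕ} (hf : f.Monic)
    (h : IsPlaceOf s F ι A φ)
    (h1 : Good g (f.map (algebraMap k Ω))) (h2 : Good g (f.map (ι.comp (algebraMap k kb))))
    (hres : ∀ τ : Gal(Fb/F), ∃ σ : Gal(kb/k), ∀ a, ι (σ a) = τ (ι a))
    {c : ℕ → Gal(kb/k) → J (f.map (algebraMap k kb))} {E' : ℕ → J (f.map (algebraMap k Ω))}
    (hc : ∀ n σ, jconst f (c n σ) = sact f (s σ) (E' n) - E' n)
    (hE : ∀ n, 2 • E' (n + 1) = E' n) {P : Pt (f.map (algebraMap k Ω))}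
    (hP : E' 0 = cl P) (hx : ∀ σ, s σ P.x = P.x) (hy : ∀ σ, s σ P.y = P.y) :
    LocPt f c F ι := by
  refine ⟨fun n => (plc_of hf h).sp h1 h2 (E' n), ?_, ?_, ?_⟩
  · beta_reduce
    rw [hP]
    by_cases hxA : P.x ∈ A
    · right
      rw [(plc_of hf h).sp_cl h1 h2 P hxA]
      obtain ⟨a, ha⟩ := value_mem h hres hxA hx
      obtain ⟨b, hb⟩ := value_mem h hres ((plc_of hf h).y_mem hxA) hy
      exact ⟨(plc_of hf h).redPt P hxA, ⟨a, b, ha, hb⟩, rfl⟩
    · left
      exact (plc_of hf h).sp_cl' h1 h2 P hxA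
  · intro n
    rw [← map_nsmul, hE]
  · intro n σ τ hστ
    rw [← sp_sact hf h h1 h2 hστ, ← map_sub, ← hc, sp_const hf h h1 h2]

/-- the condition at an infinite place -/
theorem locPt_real [IsAlgClosed kb] [IsAlgClosed Ω] [CharZero Ω]
    (hsec : ∀ σ a, s σ (algebraMap kb Ω a) = algebraMap kb Ω (σ a)) (ι : kb →+* ℂ)
    {g : ℕ} (hf : f.Monic)
    (h1 : Good g (f.map (algebraMap k Ω))) (h2 : Good g (f.map (ι.comp (algebraMap k kb))))
    {c : ℕ → Gal(kb/k) → J (f.map (algebraMap k kb))} {E' : ℕ → J (f.map (algebraMap k Ω))}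
    (hc : ∀ n σ, jconst f (c n σ) = sact f (s σ) (E' n) - E' n) (hc1 : ∀ n, c n 1 = 0)
    (hE : ∀ n, 2 • E' (n + 1) = E' n) {P : Pt (f.map (algebraMap k Ω))}
    (hP : E' 0 = cl P) (hx : ∀ σ, s σ P.x = P.x) (hy : ∀ σ, s σ P.y = P.y) :
    LocPt f c ℝ ι := by
  classical
  by_cases hσ : ∃ σ₀ : Gal(kb/k), ∀ a, ι (σ₀ a) = starRingEnd ℂ (ι a)
  · obtain ⟨σ₀, hσ₀⟩ := hσ
    obtain ⟨A, φ, h⟩ := exists_real_place s hsec ι σ₀ hσ₀
    have hA : IsAlgClosure ℝ ℂ := ⟨inferInstance, inferInstance⟩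
    have hG : IsGalois ℝ ℂ := IsAlgClosure.isGalois ℝ ℂ
    refine locPt_of_place hf h h1 h2 ?_ hc hE hP hx hy
    intro τ
    rcases gal_complex τ with h3 | h3
    · exact ⟨1, fun a => (h3 _).symm⟩
    · exact ⟨σ₀, fun a => by rw [hσ₀, h3]⟩
  · refine ⟨fun _ => 0, Or.inl rfl, fun _ => smul_zero _, ?_⟩
    intro n σ τ hστ
    rcases gal_complex τ with h3 | h3
    · have h4 : σ = 1 := by
        ext a
        apply ι.injective
        rw [hστ, h3]
        rfl
      subst h4
      rw [hc1]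
      simp only [map_zero, sub_zero]
    · exact absurd ⟨σ, fun a => by rw [hστ, h3]⟩ hσ

end

section

variable {k : Type*} [Field k] [NumberField k] {K : Type*} [Field K] [Algebra k K]
  {Ω : Type*} [Field Ω] [Algebra K Ω] [IsAlgClosure K Ω]
  [Algebra (AlgebraicClosure k) Ω] [Algebra k Ω]
  [IsScalarTower k K Ω] [IsScalarTower k (AlgebraicClosure k) Ω]
  {f : k[X]} (s : Gal(AlgebraicClosure k/k) →* Gal(Ω/K))

/-- the class is, up to torsion, infinitely divisible by `2` in the classes fixed by the section -/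
theorem exists_approx (hs : Continuous s)
    (hsec : ∀ σ a, s σ (algebraMap (AlgebraicClosure k) Ω a) =
      algebraMap (AlgebraicClosure k) Ω (σ a)) {g : ℕ} (hf : f.Monic) (hfs : f.Separable)
    (hfd : f.natDegree = 2 * g + 1) (hS : SelTor k f)
    {P : Pt (f.map (algebraMap k Ω))} (hx : ∀ σ, s σ P.x = P.x) (hy : ∀ σ, s σ P.y = P.y) (n : ℕ) :
    ∃ z : J (f.map (algebraMap k Ω)), (∀ σ, sact f (s σ) z = z) ∧
      ∃ t : J (f.map (algebraMap k (AlgebraicClosure k))), (∀ σ, gact f σ t = t) ∧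
        (∃ m : ℕ, 2 ^ m • t = 0) ∧ 2 ^ n • z + jconst f t = cl P := by
  classical
  have hcl : IsAlgClosed Ω := IsAlgClosure.isAlgClosed K
  have halg : Algebra.IsAlgebraic K Ω := IsAlgClosure.isAlgebraic
  have : CharZero Ω := charZero_of_injective_algebraMap (algebraMap k Ω).injective
  -- a compatible sequence of halves
  choose hv hhv using fun z => exists_half (good_of hfs hfd (algebraMap k Ω)) (hf.map _) z
  let E' : ℕ → J (f.map (algebraMap k Ω)) := fun n => Nat.rec (cl P) (fun _ w => hv w) n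
  have hE : ∀ n, 2 • E' (n + 1) = E' n := fun n => hhv (E' n)
  have hE0 : E' 0 = cl P := rfl
  have hEn : ∀ n, 2 ^ n • E' n = cl P := by
    intro n
    induction n with
    | zero => rw [pow_zero, one_smul, hE0]
    | succ n ih => rw [pow_succ, mul_smul, hE, ih]
  have hcP : ∀ σ, sact f (s σ) (cl P) = cl P := by
    intro σ
    rw [sact, J.map_cl]
    congr 1
    exact Pt.ext (hx σ) (hy σ)
  choose c c1 c2 c3 c4 using fun n => exists_cocycle_pow f s (good_of hfs hfd (algebraMap k _)) hf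
    hs hsec n (E' n) (by intro σ; rw [hEn, hcP σ])
  have hinj := jconst_injective (Ω := Ω) f (good_of hfs hfd (algebraMap k (AlgebraicClosure k)))
  have hcomp : ∀ n σ, 2 • c (n + 1) σ = c n σ := by
    intro n σ
    apply hinj
    rw [map_nsmul, c4, c4, nsmul_sub, ← map_nsmul, hE]
  have hc1 : ∀ n, c n 1 = 0 := by
    intro n
    have h := c3 n 1 1
    rw [mul_one] at h
    have h' : gact f (1 : Gal(AlgebraicClosure k/k)) (c n 1) = c n 1 := by
      have h5 := J.map_id (φ := f.map (algebraMap k (AlgebraicClosure k)))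
        (Polynomial.map_id) (c n 1)
      exact h5
    rw [h'] at h
    exact left_eq_add.mp h
  obtain ⟨t, ⟨m, ht⟩, htc⟩ := hS c c1 c2 c3 hcomp (by
      intro v ι
      obtain ⟨A, φ, h⟩ := Koe.local_place s hs hsec v ι
      have hC : CharZero (v.adicCompletion k) :=
        charZero_of_injective_algebraMap (algebraMap k (v.adicCompletion k)).injective
      have hG : IsGalois (v.adicCompletion k) (AlgebraicClosure (v.adicCompletion k)) :=
        IsAlgClosure.isGalois _ _
      exact locPt_of_place hf h (good_of hfs hfd _) (good_of hfs hfd _) (hres_fin v ι) c4 hE hE0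
        hx hy)
    (by
      intro ι
      exact locPt_real hsec ι hf (good_of hfs hfd _) (good_of hfs hfd _) c4 hc1 hE hE0 hx hy) n
  refine ⟨E' n - jconst f t, fun σ => ?_, 2 ^ n • t, fun σ => ?_, ⟨m, ?_⟩, ?_⟩
  · rw [map_sub, ← jconst_gact f s hsec, ← sub_eq_zero]
    have h1 := c4 n σ
    rw [htc, map_sub] at h1
    rw [← sub_eq_zero] at h1
    rw [← neg_eq_zero, ← h1]
    abel
  · rw [map_nsmul, ← sub_eq_zero, ← nsmul_sub, ← htc, c2]
  · rw [← mul_smul, mul_comm, mul_smul, ht, nsmul_zero]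
  · rw [nsmul_sub, hEn, map_nsmul]
    abel

theorem exists_finite_place (k : Type*) [Field k] [NumberField k] :
    Nonempty (HeightOneSpectrum (𝓞 k)) := by
  obtain ⟨w, -⟩ := exists_notMem (k := k) ∅
  exact ⟨w⟩

/-- there are only finitely many rational classes of 2-power order -/
theorem rational_torsion_finite (k : Type*) [Field k] [NumberField k] {f : k[X]} {g : ℕ}
    (hf : f.Monic) (hfs : f.Separable) (hfd : f.natDegree = 2 * g + 1) :
    {t : J (f.map (algebraMap k (AlgebraicClosure k))) | (∀ σ, gact f σ t = t) ∧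
      ∃ m : ℕ, 2 ^ m • t = 0}.Finite := by
  obtain ⟨v⟩ := exists_finite_place k
  let ι : AlgebraicClosure k →ₐ[k] AlgebraicClosure (v.adicCompletion k) := IsAlgClosed.lift
  let φ := f.map ((ι : AlgebraicClosure k →+* AlgebraicClosure (v.adicCompletion k)).comp
    (algebraMap k (AlgebraicClosure k)))
  have hφ : Good g φ := good_of hfs hfd _
  have hG : ∀ τ : Gal(AlgebraicClosure (v.adicCompletion k)/v.adicCompletion k),
      φ.map (τ : AlgebraicClosure (v.adicCompletion k) →+* AlgebraicClosure (v.adicCompletion k)) =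
        φ := by
    intro τ
    obtain ⟨σ, hσ⟩ := hres_fin v ι τ
    exact map_fix' f hσ
  refine Set.Finite.of_finite_image (f := J.map
    (ι : AlgebraicClosure k →+* AlgebraicClosure (v.adicCompletion k))
    (Polynomial.map_map _ _ _)) ((torsion_finite v hφ (hf.map _) hG).subset ?_) ?_
  · rintro _ ⟨t, ⟨ht, m, hm⟩, rfl⟩
    refine ⟨fun τ => ?_, m, by rw [← map_nsmul, hm, map_zero]⟩
    obtain ⟨σ, hσ⟩ := hres_fin v ι τ
    have h1 := ht σ
    conv_rhs => rw [← h1]
    rw [gact]
    have hc : (f.map (algebraMap k (AlgebraicClosure k))).map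
        (((ι : AlgebraicClosure k →+* AlgebraicClosure (v.adicCompletion k))).comp
          (σ : AlgebraicClosure k →+* AlgebraicClosure k)) = φ := by
      rw [← Polynomial.map_map, map_fix, Polynomial.map_map]
    have hc' : (f.map (algebraMap k (AlgebraicClosure k))).map
        ((τ : AlgebraicClosure (v.adicCompletion k) →+* AlgebraicClosure (v.adicCompletion k)).comp
          ((ι : AlgebraicClosure k →+* AlgebraicClosure (v.adicCompletion k)))) = φ := by
      rw [Polynomial.map_map, RingHom.comp_assoc, ← Polynomial.map_map]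
      exact hG τ
    rw [J.map_map _ _ _ _ hc', J.map_map _ _ _ _ hc]
    congr 2
    ext a
    exact (hσ a).symm
  · intro t _ t' _ htt
    exact J.map_injective (good_of hfs hfd _) _ _ htt

/-- **the chain of halves**, up to a rational class of 2-power order -/
theorem exists_chain_tor (hs : Continuous s)
    (hsec : ∀ σ a, s σ (algebraMap (AlgebraicClosure k) Ω a) =
      algebraMap (AlgebraicClosure k) Ω (σ a)) {g : ℕ} (hf : f.Monic) (hfs : f.Separable)
    (hfd : f.natDegree = 2 * g + 1) (hS : SelTor k f)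
    {P : Pt (f.map (algebraMap k Ω))} (hx : ∀ σ, s σ P.x = P.x) (hy : ∀ σ, s σ P.y = P.y) :
    ∃ t : J (f.map (algebraMap k (AlgebraicClosure k))), (∀ σ, gact f σ t = t) ∧
      (∃ m : ℕ, 2 ^ m • t = 0) ∧
      ∃ z : ℕ → J (f.map (algebraMap k Ω)), z 0 = cl P - jconst f t ∧
        (∀ n σ, sact f (s σ) (z n) = z n) ∧ ∀ n, 2 • z (n + 1) = z n := by
  classical
  have hcl : IsAlgClosed Ω := IsAlgClosure.isAlgClosed K
  let H : AddSubgroup (J (f.map (algebraMap k Ω))) :=
    { carrier := {z | ∀ σ, sact f (s σ) z = z}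
      add_mem' := fun {a b} ha hb σ => by rw [map_add, ha σ, hb σ]
      zero_mem' := fun σ => map_zero _
      neg_mem' := fun {a} ha σ => by rw [map_neg, ha σ] }
  have hT := (rational_torsion_finite k hf hfs hfd).image (jconst f (Ω := Ω))
  obtain ⟨t, ⟨t₀, ⟨h1, h2⟩, rfl⟩, z, hz, hz0, hz2⟩ := chain_of_approx H hT (η := cl P) (by
      rintro z hz ⟨m, hm⟩
      obtain ⟨w, hw, hwz⟩ := pow_torsion_lift (good_of hfs hfd _) (hf.map _)
        (algebraMap (AlgebraicClosure k) Ω) (map_const f) m hm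
      refine ⟨w, ⟨fun σ => ?_, m, hw⟩, hwz⟩
      apply jconst_injective (Ω := Ω) f (good_of hfs hfd _)
      rw [jconst_gact f s hsec]
      have : jconst f w = z := hwz
      rw [this]
      exact hz σ)
    (by
      intro n
      obtain ⟨z, hz, t, ht, htm, hzt⟩ := exists_approx s hs hsec hf hfs hfd hS hx hy n
      exact ⟨z, hz, jconst f t, ⟨t, ⟨ht, htm⟩, rfl⟩, hzt⟩)
  exact ⟨t₀, h1, h2, z, hz0, hz, hz2⟩

end

end Pool.Agent.Lib.MP_2f3286_ag.HYP
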