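import Pool.Agent.Lib.MP_2f3286_ag.HYP.AFUnr
import Pool.Agent.Lib.MP_2f3286_ag.HYP.HT2

/-!
# The cocycles of the halves, for a section of the fundamental group
-/

open Polynomial IsDedekindDomain NumberField
open scoped Topology

noncomputable section

namespace Pool.Agent.Lib.MP_2f3286_ag.HYP

/-- restriction of automorphisms is continuous -/
theorem restr_continuous {K M Ω : Type*} [Field K] [Field M] [Field Ω] [Algebra K M] [Algebra M Ω]
    [Algebra K Ω] [IsScalarTower K M Ω] [Normal K M] :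
    Continuous (AlgEquiv.restrictNormalHom M : Gal(Ω/K) →* Gal(M/K)) := by
  apply continuous_of_continuousAt_one _ (continuousAt_def.mpr _)
  intro N hN
  rw [map_one, krullTopology_mem_nhds_one_iff] at hN
  obtain ⟨E, hE, hEN⟩ := hN
  rw [krullTopology_mem_nhds_one_iff]
  refine ⟨E.map (IsScalarTower.toAlgHom K M Ω), ?_, ?_⟩
  · exact LinearEquiv.finiteDimensional
      (IntermediateField.equivMap E (IsScalarTower.toAlgHom K M Ω)).toLinearEquiv
  intro γ hγ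
  apply hEN
  rw [SetLike.mem_coe, IntermediateField.mem_fixingSubgroup_iff] at hγ ⊢
  intro x hx
  apply (algebraMap M Ω).injective
  have h1 := hγ (algebraMap M Ω x) ⟨x, hx, rfl⟩
  have h2 := AlgEquiv.restrictNormal_commutes γ M x
  exact h2.trans h1

section

variable {k kb K M Ω : Type*} [Field k] [Field kb] [Algebra k kb] [Field K] [Field Ω] [Algebra K Ω]
  [Algebra kb Ω] [Algebra k Ω] [IsScalarTower k kb Ω] [Algebra k K] [IsScalarTower k K Ω]
  [Field M] [Algebra K M] [Algebra M Ω] [Algebra kb M] [IsScalarTower K M Ω]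
  [IsScalarTower kb M Ω]
  (f : k[X]) (s : Gal(kb/k) →* Gal(M/K))

/-- the classes fixed by the lifts of the automorphisms of the section -/
def lfix : AddSubgroup (J (f.map (algebraMap k Ω))) where
  carrier := {z | ∀ (σ : Gal(kb/k)) (γ : Gal(Ω/K)), Lft s σ γ → sact f γ z = z}
  add_mem' := fun {a b} ha hb σ γ h => by rw [map_add, ha σ γ h, hb σ γ h]
  zero_mem' := fun σ γ h => map_zero _
  neg_mem' := fun {a} ha σ γ h => by rw [map_neg, ha σ γ h]

variable {f s}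

omit [Algebra kb Ω] [IsScalarTower k kb Ω] [Algebra kb M] [IsScalarTower kb M Ω]
  [IsScalarTower K M Ω] in
theorem mem_lfix {z : J (f.map (algebraMap k Ω))} :
    z ∈ lfix f s ↔ ∀ (σ : Gal(kb/k)) (γ : Gal(Ω/K)), Lft s σ γ → sact f γ z = z := Iff.rfl

omit [Algebra k Ω] [IsScalarTower k kb Ω] [IsScalarTower k K Ω] [Algebra k K]
  [IsScalarTower K M Ω] in
theorem Lft.const (hsec : ∀ σ a, s σ (algebraMap kb M a) = algebraMap kb M (σ a))
    {σ : Gal(kb/k)} {γ : Gal(Ω/K)} (h : Lft s σ γ) (a : kb) :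
    γ (algebraMap kb Ω a) = algebraMap kb Ω (σ a) := by
  rw [IsScalarTower.algebraMap_apply kb M Ω, h, hsec, ← IsScalarTower.algebraMap_apply]

omit [IsScalarTower K M Ω] in
theorem jconst_gact_lft (hsec : ∀ σ a, s σ (algebraMap kb M a) = algebraMap kb M (σ a))
    {σ : Gal(kb/k)} {γ : Gal(Ω/K)} (h : Lft s σ γ) (z : J (f.map (algebraMap k kb))) :
    jconst f (gact f σ z) = sact f γ (jconst f z) := by
  unfold jconst gact sact
  have hc : (f.map (algebraMap k kb)).map ((algebraMap kb Ω).comp (σ : kb →+* kb)) =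
      f.map (algebraMap k Ω) := by
    rw [← Polynomial.map_map, map_fix, map_const]
  have hc' : (f.map (algebraMap k kb)).map ((γ : Ω →+* Ω).comp (algebraMap kb Ω)) =
      f.map (algebraMap k Ω) := by
    rw [← Polynomial.map_map, map_const, map_fixΩ]
  rw [J.map_map _ _ _ _ hc, J.map_map _ _ _ _ hc']
  congr 2
  ext a
  exact (h.const hsec a).symm

/-- the cocycle of a `2 ^ n`-th part -/
theorem exists_cocycle_lft [IsAlgClosed kb] [IsAlgClosed Ω] [IsGalois K Ω] [Normal K M] {g : ℕ}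
    (h : Good g (f.map (algebraMap k kb))) (hmon : f.Monic) (hs : Continuous s)
    (hsec : ∀ σ a, s σ (algebraMap kb M a) = algebraMap kb M (σ a)) (n : ℕ)
    {E' : J (f.map (algebraMap k Ω))}
    (hfix : ∀ δ : Gal(Ω/K), (∀ m : M, δ (algebraMap M Ω m) = algebraMap M Ω m) → sact f δ E' = E')
    (hE : 2 ^ n • E' ∈ lfix f s) :
    ∃ c : Gal(kb/k) → J (f.map (algebraMap k kb)),
      IsLocallyConstant c ∧ (∀ σ, 2 ^ n • c σ = 0) ∧
      (∀ σ τ, c (σ * τ) = c σ + gact f σ (c τ)) ∧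
      ∀ (σ : Gal(kb/k)) (γ : Gal(Ω/K)), Lft s σ γ → jconst f (c σ) = sact f γ E' - E' := by
  classical
  have hΩ : Good g (f.map (algebraMap k Ω)) := good_map h (algebraMap kb Ω) (map_const f)
  choose L hL using fun σ : Gal(kb/k) => exists_lft (s := s) (Ω := Ω) σ
  have h1 : ∀ σ, ∃ w : J (f.map (algebraMap k kb)), (2 ^ n : ℕ) • w = 0 ∧
      jconst f w = sact f (L σ) E' - E' := by
    intro σ
    refine pow_torsion_lift h (hmon.map _) (algebraMap kb Ω) (map_const f) n ?_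
    rw [nsmul_sub, ← map_nsmul, hE σ _ (hL σ), sub_self]
  choose c hc2 hcj using h1
  have hcl : ∀ (σ : Gal(kb/k)) (γ : Gal(Ω/K)), Lft s σ γ → jconst f (c σ) = sact f γ E' - E' := by
    intro σ γ hγ
    rw [hcj]
    have h2 := hfix _ ((hL σ).diff hγ)
    have h3 : γ = L σ * ((L σ)⁻¹ * γ) := by rw [mul_inv_cancel_left]
    rw [h3, sact_mul, h2]
  have hinj := jconst_injective (Ω := Ω) f h
  refine ⟨c, ?_, hc2, ?_, hcl⟩
  · rw [IsLocallyConstant.iff_exists_open]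
    let r : Gal(Ω/K) →* Gal(M/K) := AlgEquiv.restrictNormalHom M
    have hr : ∀ (γ : Gal(Ω/K)) (m : M), algebraMap M Ω (r γ m) = γ (algebraMap M Ω m) := fun γ m =>
      AlgEquiv.restrictNormal_commutes γ M m
    let V : Set Gal(M/K) := (r '' {γ : Gal(Ω/K) | sact f γ E' = E'}ᶜ)ᶜ
    have hV : IsOpen V := by
      rw [isOpen_compl_iff]
      refine IsCompact.isClosed ?_
      exact ((stab_isOpen hΩ E').isClosed_compl.isCompact).image restr_continuous
    intro σ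
    refine ⟨{σ' | s (σ⁻¹ * σ') ∈ V}, ?_, ?_, ?_⟩
    · exact hV.preimage (hs.comp (continuous_const.mul continuous_id))
    · rw [Set.mem_ofPred_eq, inv_mul_cancel, map_one]
      rintro ⟨γ, hγ, hγ1⟩
      apply hγ
      refine hfix γ fun m => ?_
      rw [← hr, hγ1, AlgEquiv.one_apply]
    · intro σ' hσ'
      rw [Set.mem_ofPred_eq] at hσ'
      apply hinj
      rw [hcj σ, hcl σ' (L σ * L (σ⁻¹ * σ')) (by
        have h3 := (hL σ).mul (hL (σ⁻¹ * σ'))
        rwa [mul_inv_cancel_left] at h3), sact_mul]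
      have h4 : sact f (L (σ⁻¹ * σ')) E' = E' := by
        by_contra h5
        apply hσ'
        refine ⟨L (σ⁻¹ * σ'), h5, ?_⟩
        apply AlgEquiv.ext
        intro m
        apply (algebraMap M Ω).injective
        rw [hr, hL]
      rw [h4]
  · intro σ τ
    apply hinj
    rw [map_add, jconst_gact_lft hsec (hL σ), hcl _ _ ((hL σ).mul (hL τ)), hcj, hcj, map_sub,
      sact_mul]
    abel

variable {F Fb : Type*} [Field F] [Field Fb] [Algebra F Fb]
  {ι : kb →+* Fb} {A : ValuationSubring Ω} {π : A →+* Fb}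

omit [Algebra k Ω] [IsScalarTower k kb Ω] [Algebra k K] [IsScalarTower k K Ω] [Algebra kb M]
  [IsScalarTower K M Ω] [IsScalarTower kb M Ω] in
/-- the value of an element fixed by the lifts -/
theorem PlaceOver.value_mem [IsGalois F Fb] (h : PlaceOver s F ι A π)
    (hres : ∀ τ : Gal(Fb/F), ∃ σ : Gal(kb/k), ∀ a, ι (σ a) = τ (ι a)) {x : Ω} (hx : x ∈ A)
    (hs : ∀ (σ : Gal(kb/k)) (γ : Gal(Ω/K)), Lft s σ γ → γ x = x) :
    ∃ a : F, algebraMap F Fb a = π ⟨x, hx⟩ := by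
  have h1 : ∀ τ : Gal(Fb/F), τ (π ⟨x, hx⟩) = π ⟨x, hx⟩ := by
    intro τ
    obtain ⟨σ, hσ⟩ := hres τ
    obtain ⟨γ, hγ, hγA⟩ := h.lift σ τ hσ
    obtain ⟨h3, h4⟩ := hγA ⟨x, hx⟩
    rw [← h4]
    congr 1
    apply Subtype.ext
    exact hs σ γ hγ
  have h2 : π ⟨x, hx⟩ ∈ (⊥ : IntermediateField F Fb) := by
    rw [InfiniteGalois.mem_bot_iff_fixed]; exact h1
  exact IntermediateField.mem_bot.mp h2

omit [Algebra kb M] [IsScalarTower K M Ω] [IsScalarTower kb M Ω] in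
theorem locPt_of_placeOver [IsAlgClosed Ω] [IsAlgClosed Fb] [IsGalois F Fb] {g : ℕ} (hf : f.Monic)
    (h : PlaceOver s F ι A π)
    (h1 : Good g (f.map (algebraMap k Ω))) (h2 : Good g (f.map (ι.comp (algebraMap k kb))))
    (hres : ∀ τ : Gal(Fb/F), ∃ σ : Gal(kb/k), ∀ a, ι (σ a) = τ (ι a))
    {c : ℕ → Gal(kb/k) → J (f.map (algebraMap k kb))} {E' : ℕ → J (f.map (algebraMap k Ω))}
    (hc : ∀ (n : ℕ) (σ : Gal(kb/k)) (γ : Gal(Ω/K)), Lft s σ γ →
      jconst f (c n σ) = sact f γ (E' n) - E' n)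
    (hE : ∀ n, 2 • E' (n + 1) = E' n) {P : Pt (f.map (algebraMap k Ω))}
    (hP : E' 0 = cl P) (hx : ∀ (σ : Gal(kb/k)) (γ : Gal(Ω/K)), Lft s σ γ → γ P.x = P.x)
    (hy : ∀ (σ : Gal(kb/k)) (γ : Gal(Ω/K)), Lft s σ γ → γ P.y = P.y) :
    LocPt f c F ι := by
  have hpl := plc_of_const hf h.const h.loc
  refine ⟨fun n => hpl.sp h1 h2 (E' n), ?_, ?_, ?_⟩
  · beta_reduce
    rw [hP]
    by_cases hxA : P.x ∈ A
    · right
      rw [hpl.sp_cl h1 h2 P hxA]
      obtain ⟨a, ha⟩ := h.value_mem hres hxA hx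
      obtain ⟨b, hb⟩ := h.value_mem hres (hpl.y_mem hxA) hy
      exact ⟨hpl.redPt P hxA, ⟨a, b, ha, hb⟩, rfl⟩
    · left
      exact hpl.sp_cl' h1 h2 P hxA
  · intro n
    rw [← map_nsmul, hE]
  · intro n σ τ hστ
    obtain ⟨γ, hγ, hγA⟩ := h.lift σ τ hστ
    have h3 := hpl.sp_act h1 h2 (γ : Ω →+* Ω) (map_fixΩ f γ) (τ : Fb →+* Fb) (map_fix' f hστ) hγA
      (E' n)
    rw [← h3]
    have h4 : J.map (γ : Ω →+* Ω) (map_fixΩ f γ) (E' n) = sact f γ (E' n) := rfl
    rw [h4, ← map_sub, ← hc n σ γ hγ, hpl.sp_jconst h.const h1 h2]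

omit [Algebra kb M] [IsScalarTower K M Ω] [IsScalarTower kb M Ω] in
/-- the condition at an infinite place -/
theorem locPt_real_lft [IsAlgClosed kb] [IsAlgClosed Ω] [CharZero Ω] (ι : kb →+* ℂ)
    {g : ℕ} (hf : f.Monic)
    (hreal : (∃ σ₀ : Gal(kb/k), ∀ a, ι (σ₀ a) = starRingEnd ℂ (ι a)) →
      ∃ (A : ValuationSubring Ω) (π : A →+* ℂ), PlaceOver s ℝ ι A π)
    (h1 : Good g (f.map (algebraMap k Ω))) (h2 : Good g (f.map (ι.comp (algebraMap k kb))))
    {c : ℕ → Gal(kb/k) → J (f.map (algebraMap k kb))} {E' : ℕ → J (f.map (algebraMap k Ω))}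
    (hc : ∀ (n : ℕ) (σ : Gal(kb/k)) (γ : Gal(Ω/K)), Lft s σ γ →
      jconst f (c n σ) = sact f γ (E' n) - E' n) (hc1 : ∀ n, c n 1 = 0)
    (hE : ∀ n, 2 • E' (n + 1) = E' n) {P : Pt (f.map (algebraMap k Ω))}
    (hP : E' 0 = cl P) (hx : ∀ (σ : Gal(kb/k)) (γ : Gal(Ω/K)), Lft s σ γ → γ P.x = P.x)
    (hy : ∀ (σ : Gal(kb/k)) (γ : Gal(Ω/K)), Lft s σ γ → γ P.y = P.y) :
    LocPt f c ℝ ι := by
  classical
  by_cases hσ : ∃ σ₀ : Gal(kb/k), ∀ a, ι (σ₀ a) = starRingEnd ℂ (ι a)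
  · obtain ⟨A, π, h⟩ := hreal hσ
    obtain ⟨σ₀, hσ₀⟩ := hσ
    have hA : IsAlgClosure ℝ ℂ := ⟨inferInstance, inferInstance⟩
    have hG : IsGalois ℝ ℂ := IsAlgClosure.isGalois ℝ ℂ
    refine locPt_of_placeOver hf h h1 h2 ?_ hc hE hP hx hy
    intro τ
    rcases gal_complex τ with h3 | h3
    · exact ⟨1, fun a => (h3 _).symm⟩
    · exact ⟨σ₀, fun a => by rw [hσ₀, h3]⟩
  · refine ⟨fun _ => 0, Or.inl rfl, fun _ => smul_zero _, ?_⟩
    intro n σ τ hστ
    rcases gal_complex τ with h3 | h3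
    · have h4 : σ = 1 := by
        ext a
        apply ι.injective
        rw [hστ, h3]
        rfl
      subst h4
      rw [hc1]
      simp only [map_zero, sub_zero]
    · exact absurd ⟨σ, fun a => by rw [hστ, h3]⟩ hσ

end

end Pool.Agent.Lib.MP_2f3286_ag.HYP
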