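import Mathlib

/-!
# Extension of homomorphisms to integral extensions, and conjugacy of the extensions
-/

open Polynomial

noncomputable section

namespace Pool.Agent.Lib.MP_2f3286_ag.HYP

/-- homomorphisms to algebraically closed fields extend to integral extensions -/
theorem exists_hom_ext {B C E : Type*} [CommRing B] [CommRing C] [Algebra B C]
    [Algebra.IsIntegral B C] (hinj : Function.Injective (algebraMap B C)) [Field E]
    [IsAlgClosed E] (φ : B →+* E) : ∃ Φ : C →+* E, ∀ b, Φ (algebraMap B C b) = φ b := by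
  have hp : (RingHom.ker φ).IsPrime := RingHom.ker_isPrime φ
  obtain ⟨Q, -, hQp, hQ⟩ := Ideal.exists_ideal_over_prime_of_isIntegral (S := C) (RingHom.ker φ) ⊥
    (by
      rw [← RingHom.ker_eq_comap_bot, (RingHom.injective_iff_ker_eq_bot _).mp hinj]
      exact bot_le)
  let j : (B ⧸ RingHom.ker φ) →+* C ⧸ Q := Ideal.quotientMap Q (algebraMap B C) (by rw [← hQ])
  have hj : Function.Injective j := Ideal.quotientMap_injective' (by rw [← hQ])
  let i : (B ⧸ RingHom.ker φ) →+* E := RingHom.kerLift φ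
  have hi : Function.Injective i := RingHom.kerLift_injective φ
  let _ : Algebra (B ⧸ RingHom.ker φ) (C ⧸ Q) := j.toAlgebra
  let _ : Algebra (B ⧸ RingHom.ker φ) E := i.toAlgebra
  have f1 : FaithfulSMul (B ⧸ RingHom.ker φ) (C ⧸ Q) := (faithfulSMul_iff_algebraMap_injective _ _).2 hj
  have f2 : FaithfulSMul (B ⧸ RingHom.ker φ) E := (faithfulSMul_iff_algebraMap_injective _ _).2 hi
  have hint : Algebra.IsIntegral (B ⧸ RingHom.ker φ) (C ⧸ Q) := by
    constructor
    intro x
    obtain ⟨c, rfl⟩ := Ideal.Quotient.mk_surjective x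
    have h1 : (algebraMap B C).IsIntegralElem c := Algebra.IsIntegral.isIntegral c
    obtain ⟨p, hp, hp'⟩ := h1
    refine ⟨p.map (Ideal.Quotient.mk (RingHom.ker φ)), hp.map _, ?_⟩
    rw [Polynomial.eval₂_map]
    have h2 : (algebraMap (B ⧸ RingHom.ker φ) (C ⧸ Q)).comp (Ideal.Quotient.mk (RingHom.ker φ)) =
        (Ideal.Quotient.mk Q).comp (algebraMap B C) := by
      ext b
      change j (Ideal.Quotient.mk (RingHom.ker φ) b) = Ideal.Quotient.mk Q (algebraMap B C b)
      exact Ideal.quotientMap_mk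
    rw [h2, ← Polynomial.hom_eval₂, hp', map_zero]
  let F : (C ⧸ Q) →ₐ[B ⧸ RingHom.ker φ] E := IsAlgClosed.lift
  refine ⟨F.toRingHom.comp (Ideal.Quotient.mk Q), fun b => ?_⟩
  have h3 : (Ideal.Quotient.mk Q (algebraMap B C b)) =
      algebraMap (B ⧸ RingHom.ker φ) (C ⧸ Q) (Ideal.Quotient.mk _ b) := by
    exact Ideal.quotientMap_mk.symm
  change F (Ideal.Quotient.mk Q (algebraMap B C b)) = φ b
  rw [h3, F.commutes]
  exact RingHom.kerLift_mk φ b

section conj

variable {M Ω E : Type*} [Field M] [Field Ω] [Algebra M Ω] [IsGalois M Ω] [Field E]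
  (D : Subring Ω) (hC : ∀ h : Gal(Ω/M), ∀ x ∈ D, h x ∈ D) (Φ Φ' : D →+* E)
  (hΦ : ∀ c : D, (∃ m : M, algebraMap M Ω m = c) → Φ c = Φ' c)

include hC hΦ in
/-- one element -/
theorem conj_one (c : D) : ∃ h : Gal(Ω/M), ∃ c' : D, (c' : Ω) = h c ∧ Φ' c = Φ c' := by
  classical
  let p := minpoly M (c : Ω)
  have hp : IsIntegral M (c : Ω) := Algebra.IsIntegral.isIntegral _
  have hpm : p.Monic := minpoly.monic hp
  let s : Multiset Ω := (p.map (algebraMap M Ω)).roots
  have hs : ∀ β ∈ s, ∃ h : Gal(Ω/M), h c = β := by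
    intro β hβ
    have h1 : aeval β p = 0 := by
      have h2 := (mem_roots (Polynomial.map_ne_zero hpm.ne_zero)).1 hβ
      rw [IsRoot, eval_map_algebraMap] at h2
      exact h2
    exact minpoly.exists_algEquiv_of_root' (K := M) (L := Ω) (x := β) (y := (c : Ω))
      (Algebra.IsAlgebraic.isAlgebraic _) h1
  have hsC : ∀ β ∈ s, β ∈ D := by
    intro β hβ
    obtain ⟨h, rfl⟩ := hs β hβ
    exact hC h c c.2
  have hsplit : (p.map (algebraMap M Ω)).Splits := Normal.splits (inferInstance : Normal M Ω) (c : Ω)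
  have hprod : p.map (algebraMap M Ω) = (s.map fun β => X - Polynomial.C β).prod := by
    have h2 := hsplit.eq_prod_roots
    rw [(hpm.map _).leadingCoeff, C_1, one_mul] at h2
    exact h2
  let sC : Multiset D := s.pmap (fun β h => (⟨β, h⟩ : D)) hsC
  have hsC' : sC.map (fun β : D => (β : Ω)) = s := by
    rw [Multiset.map_pmap, Multiset.pmap_eq_map]
    exact Multiset.map_id _
  let P : (D : Type _)[X] := (sC.map fun β => X - Polynomial.C β).prod
  have hP : P.map D.subtype = p.map (algebraMap M Ω) := by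
    rw [hprod, Polynomial.map_multiset_prod, Multiset.map_map]
    have h3 : (Polynomial.map D.subtype ∘ fun β : D => X - Polynomial.C β) =
        (fun β : Ω => X - Polynomial.C β) ∘ (fun β : D => (β : Ω)) := by
      funext β
      simp only [Function.comp_apply, Polynomial.map_sub, map_X, map_C]
      rfl
    rw [h3, ← Multiset.map_map, hsC']
  have hcoef : P.map Φ = P.map Φ' := by
    ext n
    rw [coeff_map, coeff_map]
    apply hΦ
    refine ⟨p.coeff n, ?_⟩
    have h4 := congrArg (fun q => q.coeff n) hP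
    simp only [coeff_map] at h4
    exact h4.symm
  have hPc : P.eval c = 0 := by
    apply Subtype.ext
    have h5 : (P.map D.subtype).eval (D.subtype c) = D.subtype (P.eval c) := by
      rw [eval_map, eval₂_at_apply]
    have h6 : (p.map (algebraMap M Ω)).eval (c : Ω) = 0 := by
      rw [eval_map_algebraMap]
      exact minpoly.aeval M (c : Ω)
    rw [hP] at h5
    exact h5.symm.trans h6
  have h7 : (P.map Φ).eval (Φ' c) = 0 := by
    rw [hcoef, eval_map, eval₂_at_apply, hPc, map_zero]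
  have h8 : (P.map Φ).eval (Φ' c) = (sC.map fun β => Φ' c - Φ β).prod := by
    rw [Polynomial.map_multiset_prod, Polynomial.eval_multiset_prod, Multiset.map_map,
      Multiset.map_map]
    congr 1
    apply Multiset.map_congr rfl
    intro β _
    simp only [Function.comp_apply, Polynomial.map_sub, map_X, map_C, eval_sub, eval_X, eval_C]
  rw [h8, Multiset.prod_eq_zero_iff, Multiset.mem_map] at h7
  obtain ⟨β, hβ, h9⟩ := h7
  have h10 : (β : Ω) ∈ s := by
    rw [← hsC']
    exact Multiset.mem_map_of_mem _ hβ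
  obtain ⟨h, hh⟩ := hs _ h10
  exact ⟨h, β, hh.symm, sub_eq_zero.mp h9⟩

include hC hΦ in
/-- finitely many elements -/
theorem conj_fin [CharZero E] {n : ℕ} (c : Fin n → D) :
    ∃ h : Gal(Ω/M), ∀ i, ∃ c' : D, (c' : Ω) = h (c i) ∧ Φ' (c i) = Φ c' := by
  classical
  let b : ℕ → D := fun j => ∑ i, c i * (j : D) ^ (i : ℕ)
  choose h d hd hd' using fun j => conj_one D hC Φ Φ' hΦ (b j)
  let T : Set (Fin n → Ω) := Set.pi Set.univ fun i => (minpoly M (c i : Ω)).rootSet Ω
  have hT : T.Finite := Set.Finite.pi fun i => Polynomial.rootSet_finite _ _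
  have hmem : ∀ j, (fun i => h j (c i : Ω)) ∈ T := by
    intro j i _
    rw [mem_rootSet]
    refine ⟨minpoly.ne_zero (Algebra.IsIntegral.isIntegral _), ?_⟩
    have h1 := Polynomial.aeval_algHom_apply ((h j : Ω ≃ₐ[M] Ω) : Ω →ₐ[M] Ω) (c i : Ω)
      (minpoly M (c i : Ω))
    rw [minpoly.aeval, map_zero] at h1
    exact h1
  have : Finite T := hT
  obtain ⟨y, hy⟩ := Finite.exists_infinite_fiber (fun j : ℕ => (⟨_, hmem j⟩ : T))
  have hinf : ((fun j : ℕ => (⟨_, hmem j⟩ : T)) ⁻¹' {y}).Infinite := Set.infinite_coe_iff.mp hy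
  obtain ⟨j₀, hj₀⟩ := hinf.nonempty
  have hj : ∀ j ∈ ((fun j : ℕ => (⟨_, hmem j⟩ : T)) ⁻¹' {y}), ∀ i, h j (c i : Ω) = h j₀ (c i : Ω) := by
    intro j hj i
    have h1 : (⟨_, hmem j⟩ : T) = ⟨_, hmem j₀⟩ := hj.trans hj₀.symm
    exact congrFun (congrArg Subtype.val h1) i
  let e : Fin n → D := fun i => ⟨h j₀ (c i), hC _ _ (c i).2⟩
  have key : ∀ j ∈ ((fun j : ℕ => (⟨_, hmem j⟩ : T)) ⁻¹' {y}),
      ∑ i : Fin n, (Φ' (c i) - Φ (e i)) * (j : E) ^ (i : ℕ) = 0 := by
    intro j hjj
    have h1 : d j = ∑ i, e i * (j : D) ^ (i : ℕ) := by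
      apply Subtype.ext
      rw [hd j]
      have h2 : ((b j : D) : Ω) = ∑ i, (c i : Ω) * (j : Ω) ^ (i : ℕ) := by
        simp [b]
      have h3 : ((∑ i, e i * (j : D) ^ (i : ℕ) : D) : Ω) =
          ∑ i, (e i : Ω) * (j : Ω) ^ (i : ℕ) := by
        simp
      rw [h2, h3, map_sum]
      refine Finset.sum_congr rfl fun i _ => ?_
      rw [map_mul, map_pow, map_natCast, hj j hjj i]
    have h4 := hd' j
    rw [h1] at h4
    simp only [b, map_sum, map_mul, map_pow, map_natCast] at h4
    simp only [sub_mul]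
    rw [Finset.sum_sub_distrib, h4, sub_self]
  let Q : E[X] := ∑ i : Fin n, Polynomial.C (Φ' (c i) - Φ (e i)) * X ^ (i : ℕ)
  have hQ : Q = 0 := by
    apply Polynomial.eq_zero_of_infinite_isRoot
    refine Set.Infinite.mono ?_ (hinf.image (f := fun j : ℕ => (j : E))
      (Nat.cast_injective.injOn))
    rintro _ ⟨j, hjj, rfl⟩
    have h5 := key j hjj
    simp only [Set.mem_ofPred_eq, IsRoot, Q, eval_finsetSum, eval_mul, eval_C, eval_pow, eval_X]
    exact h5
  refine ⟨h j₀, fun i => ⟨e i, rfl, ?_⟩⟩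
  have h6 : Q.coeff i = Φ' (c i) - Φ (e i) := by
    simp only [Q, finsetSum_coeff, coeff_C_mul, coeff_X_pow]
    rw [Finset.sum_eq_single i]
    · simp
    · intro b _ hb
      rw [if_neg (fun h => hb (Fin.ext h.symm)), mul_zero]
    · intro hi
      exact absurd (Finset.mem_univ i) hi
  rw [hQ, coeff_zero] at h6
  exact (sub_eq_zero.mp h6.symm)

include hC hΦ in
/-- **conjugacy of extensions** -/
theorem conj_all [CharZero E] :
    ∃ h : Gal(Ω/M), ∀ c c' : D, (c' : Ω) = h c → Φ' c = Φ c' := by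
  classical
  let Z : D → Set Gal(Ω/M) := fun c => {h | ∃ c' : D, (c' : Ω) = h c ∧ Φ' c = Φ c'}
  have hcl : ∀ c, IsClosed (Z c) := by
    intro c
    rw [← isOpen_compl_iff, isOpen_iff_mem_nhds]
    intro h₀ hh₀
    have hfin : FiniteDimensional M (IntermediateField.adjoin M {(c : Ω)}) :=
      IntermediateField.adjoin.finiteDimensional (Algebra.IsIntegral.isIntegral _)
    have hop := IntermediateField.fixingSubgroup_isOpen (IntermediateField.adjoin M {(c : Ω)})
    have h1 : IsOpen {h : Gal(Ω/M) | h₀⁻¹ * h ∈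
        (IntermediateField.adjoin M {(c : Ω)}).fixingSubgroup} :=
      hop.preimage (continuous_const.mul continuous_id)
    refine Filter.mem_of_superset (h1.mem_nhds ?_) ?_
    · change h₀⁻¹ * h₀ ∈ (IntermediateField.adjoin M {(c : Ω)}).fixingSubgroup
      rw [inv_mul_cancel]
      exact one_mem _
    · intro h hh hZ
      apply hh₀
      have h2 : (h₀⁻¹ * h : Gal(Ω/M)) (c : Ω) = c :=
        (IntermediateField.mem_fixingSubgroup_iff _ _).mp hh _
          (IntermediateField.mem_adjoin_simple_self M _)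
      have h3 : h (c : Ω) = h₀ c := by
        have h4 := congrArg h₀ h2
        rw [← AlgEquiv.mul_apply, mul_inv_cancel_left] at h4
        exact h4
      obtain ⟨c', hc', hc''⟩ := hZ
      exact ⟨c', hc'.trans h3, hc''⟩
  have hne : (⋂ c, Z c).Nonempty := CompactSpace.iInter_nonempty hcl (fun s => by
    obtain ⟨h, hh⟩ := conj_fin D hC Φ Φ' hΦ (fun i : Fin s.card => (s.equivFin.symm i : D))
    refine ⟨h, ?_⟩
    rw [Set.mem_iInter₂]
    intro c hc
    have h1 := hh (s.equivFin ⟨c, hc⟩)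
    rw [Equiv.symm_apply_apply] at h1
    exact h1)
  obtain ⟨h, hh⟩ := hne
  rw [Set.mem_iInter] at hh
  refine ⟨h, fun c c' hcc' => ?_⟩
  obtain ⟨c'', h1, h2⟩ := hh c
  rw [h2]
  congr 1
  exact Subtype.ext (h1.trans hcc'.symm)

end conj

end Pool.Agent.Lib.MP_2f3286_ag.HYP
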