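import Pool.Agent.Lib.MP_2f3286_bir.Loc

/-!
# Places from homomorphisms
-/

open Polynomial

noncomputable section

namespace Pool.Agent.Lib.MP_2f3286_ag.HYP

/-- A homomorphism from a subring such that every element is a fraction of two elements, not both in the
kernel, extends to a place. -/
theorem exists_place_of_frac {Ω E : Type*} [Field Ω] [Field E] (C : Subring Ω) (Φ : C →+* E)
    (hfrac : ∀ x : Ω, ∃ a b : C, x * b = a ∧ (Φ a ≠ 0 ∨ Φ b ≠ 0)) :
    ∃ (A : ValuationSubring Ω) (π : A →+* E), (∀ a : A, π a ≠ 0 → (a : Ω)⁻¹ ∈ A) ∧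
      (∀ (x : Ω) (a b : C), x * b = a → Φ b ≠ 0 → ∃ h : x ∈ A, π ⟨x, h⟩ = Φ a / Φ b) ∧
      (∀ x ∈ A, ∃ a b : C, x * b = a ∧ Φ b ≠ 0) := by
  classical
  have hne : ∀ b : C, Φ b ≠ 0 → (b : Ω) ≠ 0 := by
    intro b hb h
    apply hb
    have : b = 0 := Subtype.ext h
    rw [this, map_zero]
  let A : ValuationSubring Ω :=
    { carrier := {x | ∃ a b : C, x * b = a ∧ Φ b ≠ 0}
      mul_mem' := by
        rintro x x' ⟨a, b, h, hb⟩ ⟨a', b', h', hb'⟩
        refine ⟨a * a', b * b', ?_, by rw [map_mul]; exact mul_ne_zero hb hb'⟩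
        rw [Subring.coe_mul, Subring.coe_mul, ← h, ← h']
        ring
      one_mem' := ⟨1, 1, by simp, by rw [map_one]; exact one_ne_zero⟩
      add_mem' := by
        rintro x x' ⟨a, b, h, hb⟩ ⟨a', b', h', hb'⟩
        refine ⟨a * b' + a' * b, b * b', ?_, by rw [map_mul]; exact mul_ne_zero hb hb'⟩
        rw [Subring.coe_mul, Subring.coe_add, Subring.coe_mul, Subring.coe_mul, ← h, ← h']
        ring
      zero_mem' := ⟨0, 1, by simp, by rw [map_one]; exact one_ne_zero⟩
      neg_mem' := by
        rintro x ⟨a, b, h, hb⟩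
        refine ⟨-a, b, ?_, hb⟩
        rw [NegMemClass.coe_neg, ← h]
        ring
      mem_or_inv_mem' := by
        intro x
        obtain ⟨a, b, h, hab⟩ := hfrac x
        rcases hab with ha | hb
        · right
          refine ⟨b, a, ?_, ha⟩
          have hx : x ≠ 0 := by
            rintro rfl
            apply hne a ha
            rw [← h, zero_mul]
          rw [← h, inv_mul_cancel_left₀ hx]
        · left
          exact ⟨a, b, h, hb⟩ }
  have hA : ∀ x : Ω, x ∈ A ↔ ∃ a b : C, x * b = a ∧ Φ b ≠ 0 := fun x => Iff.rfl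
  choose na da hnd hd using fun x : A => (hA x).1 x.2
  have hwd : ∀ (x : Ω) (a b a' b' : C), x * b = a → Φ b ≠ 0 → x * b' = a' → Φ b' ≠ 0 →
      Φ a / Φ b = Φ a' / Φ b' := by
    intro x a b a' b' h hb h' hb'
    rw [div_eq_div_iff hb hb', ← map_mul, ← map_mul]
    congr 1
    apply Subtype.ext
    rw [Subring.coe_mul, Subring.coe_mul, ← h, ← h']
    ring
  let π : A →+* E :=
    { toFun := fun x => Φ (na x) / Φ (da x)
      map_one' := by
        rw [hwd (1 : A) (na 1) (da 1) 1 1 (hnd 1) (hd 1) (by simp) (by rw [map_one]; exact one_ne_zero),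
          map_one, div_one]
      map_zero' := by
        rw [hwd (0 : A) (na 0) (da 0) 0 1 (hnd 0) (hd 0) (by simp) (by rw [map_one]; exact one_ne_zero),
          map_zero, zero_div]
      map_mul' := fun x y => by
        rw [hwd (x * y : A) (na (x * y)) (da (x * y)) (na x * na y) (da x * da y) (hnd _) (hd _) (by
          have h1 := hnd x
          have h2 := hnd y
          change (x : Ω) * y * ((da x : Ω) * (da y : Ω)) = (na x : Ω) * (na y : Ω)
          rw [← h1, ← h2]
          ring) (by rw [map_mul]; exact mul_ne_zero (hd x) (hd y)), map_mul, map_mul,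
          mul_div_mul_comm]
      map_add' := fun x y => by
        rw [hwd (x + y : A) (na (x + y)) (da (x + y)) (na x * da y + na y * da x) (da x * da y) (hnd _)
          (hd _) (by
          have h1 := hnd x
          have h2 := hnd y
          change ((x : Ω) + y) * ((da x : Ω) * (da y : Ω)) =
            (na x : Ω) * (da y : Ω) + (na y : Ω) * (da x : Ω)
          rw [← h1, ← h2]
          ring) (by rw [map_mul]; exact mul_ne_zero (hd x) (hd y)), map_add, map_mul, map_mul,
          map_mul, div_add_div _ _ (hd x) (hd y), mul_comm (Φ (da x)) (Φ (na y))] }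
  have hπ : ∀ (x : Ω) (a b : C), x * b = a → Φ b ≠ 0 → ∃ h : x ∈ A, π ⟨x, h⟩ = Φ a / Φ b := by
    intro x a b h hb
    refine ⟨⟨a, b, h, hb⟩, ?_⟩
    exact hwd x _ _ a b (hnd ⟨x, _⟩) (hd _) h hb
  refine ⟨A, π, fun x hx => ?_, hπ, fun x hx => hx⟩
  refine ⟨da x, na x, ?_, ?_⟩
  · have h1 : Φ (na x) ≠ 0 := fun h => hx (by
      change Φ (na x) / Φ (da x) = 0
      rw [h, zero_div])
    have hx0 : (x : Ω) ≠ 0 := by
      intro h
      apply hne _ h1
      rw [← hnd x, h, zero_mul]
    rw [← hnd x, inv_mul_cancel_left₀ hx0]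
  · intro h
    apply hx
    change Φ (na x) / Φ (da x) = 0
    rw [h, zero_div]

/-- every element is a fraction of two integral elements, not both in the kernel of a given homomorphism -/
theorem frac_of_hom {k K Ω E : Type*} [Field k] [Field K] [Algebra k K] [Field Ω] [Algebra K Ω]
    [Algebra k Ω] [IsScalarTower k K Ω] [Field E] (R : Subalgebra k K)
    (htr : Algebra.trdeg k Ω = 1) (t : R) (ht : Transcendental k (t : K))
    (Φ : integralClosure R Ω →+* E) (x : Ω) :
    ∃ a b : integralClosure R Ω, x * b = a ∧ (Φ a ≠ 0 ∨ Φ b ≠ 0) := by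
  classical
  have htow : IsScalarTower k R Ω := IsScalarTower.of_algebraMap_eq fun x => by
    rw [IsScalarTower.algebraMap_apply k K Ω]; rfl
  let _ : Algebra k (integralClosure R Ω) :=
    ((algebraMap R (integralClosure R Ω)).comp (algebraMap k R)).toAlgebra
  have htowB : IsScalarTower k (integralClosure R Ω) Ω := IsScalarTower.of_algebraMap_eq fun x => by
    rw [IsScalarTower.algebraMap_apply k R Ω]; rfl
  let _ : Algebra k E := (Φ.comp (algebraMap k (integralClosure R Ω))).toAlgebra
  let Φ' : integralClosure R Ω →ₐ[k] E := { Φ with commutes' := fun a => rfl }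
  have hint : ∀ x : Ω, IsIntegral (integralClosure R Ω) x →
      ∃ b : integralClosure R Ω, algebraMap (integralClosure R Ω) Ω b = x :=
    fun x hx => ⟨⟨x, isIntegral_trans x hx⟩, rfl⟩
  have ht' : Transcendental k
      (algebraMap (integralClosure R Ω) Ω (algebraMap R (integralClosure R Ω) t)) := by
    have h1 : algebraMap (integralClosure R Ω) Ω (algebraMap R (integralClosure R Ω) t) =
        algebraMap K Ω (t : K) := rfl
    rw [h1]
    exact (transcendental_algebraMap_iff (algebraMap K Ω).injective).mpr ht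
  by_cases hτ : IsIntegral k (Φ' (algebraMap R (integralClosure R Ω) t))
  · exact MP_2f3286_bir.exists_frac' htr hint Φ' ht' hτ x
  · have hτ' : Transcendental k (Φ' (algebraMap R (integralClosure R Ω) t)) := by
      intro h
      exact hτ h.isIntegral
    obtain ⟨p, hp, hp'⟩ := MP_2f3286_bir.exists_bivariate htr ht' x
    refine MP_2f3286_bir.exists_frac hint Φ x _ (p.map (aeval (algebraMap R (integralClosure R Ω) t) :
      k[X] →ₐ[k] integralClosure R Ω).toRingHom) le_rfl ?_ ?_
    · rw [aeval_def, eval₂_map]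
      have h2 : (algebraMap (integralClosure R Ω) Ω).comp
          (aeval (algebraMap R (integralClosure R Ω) t) :
            k[X] →ₐ[k] integralClosure R Ω).toRingHom =
          (aeval (algebraMap (integralClosure R Ω) Ω (algebraMap R (integralClosure R Ω) t)) :
            k[X] →ₐ[k] Ω).toRingHom := by
        apply RingHom.ext
        intro P
        exact (aeval_algebraMap_apply Ω (algebraMap R (integralClosure R Ω) t) P).symm
      rw [h2]; exact hp'
    · rw [Polynomial.map_map]
      have h2 : Φ.comp (aeval (algebraMap R (integralClosure R Ω) t) :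
            k[X] →ₐ[k] integralClosure R Ω).toRingHom =
          (aeval (Φ' (algebraMap R (integralClosure R Ω) t)) : k[X] →ₐ[k] E).toRingHom := by
        apply RingHom.ext
        intro P
        exact (aeval_algHom_apply Φ' (algebraMap R (integralClosure R Ω) t) P).symm
      rw [h2]
      exact (Polynomial.map_ne_zero_iff (transcendental_iff_injective.mp hτ')).mpr hp

end Pool.Agent.Lib.MP_2f3286_ag.HYP
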