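import Pool.Agent.Lib.MP_2f3286_ag.HYP.AFPlace
import Pool.Agent.Lib.MP_2f3286_ag.Top.Defs
import Pool.Agent.Lib.MP_2f3286_ag.Pt.Places

/-!
# Places of the algebraic closure above an arbitrary place of a section
-/

open Polynomial

noncomputable section

namespace Pool.Agent.Lib.MP_2f3286_ag.HYP

section

variable {k K M Ω kb : Type*} [Field k] [Field kb] [Algebra k kb] [Field K] [Algebra k K]
  [Field M] [Algebra K M] [Algebra kb M] [Algebra k M] [IsScalarTower k K M] [IsScalarTower k kb M]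
  [Field Ω] [Algebra M Ω] [Algebra K Ω] [Algebra kb Ω] [Algebra k Ω] [IsScalarTower K M Ω]
  [IsScalarTower kb M Ω] [IsScalarTower k K Ω] [Normal K M] [Normal K Ω] [IsGalois M Ω]
  {F Fb : Type*} [Field F] [Field Fb] [Algebra F Fb] [IsAlgClosed Fb] [CharZero Fb]

/-- a place of `M` of which `s` is the section extends to the algebraic closure -/
theorem exists_placeOver (htr : Algebra.trdeg k Ω = 1) (htrM : Algebra.trdeg k M = 1)
    [Algebra.IsAlgebraic k kb] {x : K}
    (hx : Transcendental k x) {s : Gal(kb/k) →* Gal(M/K)} {ι : kb →+* Fb}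
    {A : ValuationSubring M} {φ : A →+* Fb} (h : Sel.IsPlaceOf s F ι A φ) :
    ∃ (A' : ValuationSubring Ω) (π : A' →+* Fb), PlaceOver s F ι A' π ∧
      (∀ z : M, algebraMap M Ω z ∈ A' ↔ z ∈ A) ∧
      ∀ (z : M) (hz : z ∈ A), ∃ h : algebraMap M Ω z ∈ A', π ⟨algebraMap M Ω z, h⟩ = φ ⟨z, hz⟩ := by
  obtain ⟨t, ht, htA⟩ : ∃ t : K, Transcendental k t ∧ algebraMap K M t ∈ A := by
    rcases A.mem_or_inv_mem (algebraMap K M x) with h1 | h1
    · exact ⟨x, hx, h1⟩
    · refine ⟨x⁻¹, ?_, by rw [map_inv₀]; exact h1⟩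
      intro h2
      apply hx
      have h3 := h2.inv
      rwa [inv_inv] at h3
  have hkA : ∀ a : k, algebraMap k M a ∈ A := by
    intro a
    rw [IsScalarTower.algebraMap_apply k kb M]
    exact (h.1 _).1
  let R : Subalgebra k K := Algebra.adjoin k {t}
  have hR : ∀ r : R, algebraMap K M r ∈ A := by
    rintro ⟨r, hr⟩
    change algebraMap K M r ∈ A
    induction hr using Algebra.adjoin_induction with
    | mem r hr =>
      rw [Set.mem_singleton_iff] at hr
      rw [hr]
      exact htA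
    | algebraMap c =>
      rw [← IsScalarTower.algebraMap_apply k K M]
      exact hkA c
    | add a b _ _ ha hb => rw [map_add]; exact add_mem ha hb
    | mul a b _ _ ha hb => rw [map_mul]; exact mul_mem ha hb
  have hA : ∀ b : integralClosure R M, (b : M) ∈ A :=
    fun b => Pt.PTAux.mem_of_isIntegral (R := R) hR b.2
  let φ' : integralClosure R M →+* Fb :=
    φ.comp ((algebraMap (integralClosure R M) M).codRestrict A hA)
  have hφ'e : ∀ b, φ' b = φ ⟨b, hA b⟩ := fun b => rfl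
  have hφ' : Respects s F ι φ' := by
    refine ⟨fun a b hab => ?_, fun σ τ hστ b b' hb => ?_⟩
    · obtain ⟨h1, h2⟩ := h.1 a
      rw [hφ'e, ← h2]
      congr 1
      exact Subtype.ext hab
    · obtain ⟨h1, h2⟩ := h.2.2 σ τ hστ ⟨b, hA b⟩
      rw [hφ'e, hφ'e, ← h2]
      congr 1
      exact Subtype.ext hb
  have hBk : ∀ a : kb, IsIntegral R (algebraMap kb M a) := by
    intro a
    have htow' : IsScalarTower k R M := IsScalarTower.of_algebraMap_eq fun x => by
      rw [IsScalarTower.algebraMap_apply k K M]; rfl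
    have h1 : IsIntegral k a := Algebra.IsIntegral.isIntegral a
    have h2 : IsIntegral k (algebraMap kb M a) := h1.algebraMap
    exact h2.tower_top
  obtain ⟨A', π, hpl, hπ⟩ := exists_place_over (Ω := Ω) R htr
    ⟨t, Algebra.subset_adjoin rfl⟩ ht hBk hφ'
  -- the elements of `A`
  have key : ∀ z : M, ∀ hz : z ∈ A, ∃ h : algebraMap M Ω z ∈ A',
      π ⟨algebraMap M Ω z, h⟩ = φ ⟨z, hz⟩ := by
    intro z hz
    obtain ⟨a, b, hab, hab'⟩ := frac_of_hom (Ω := M) R htrM
      ⟨t, Algebra.subset_adjoin rfl⟩ ht φ' z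
    have h1 : φ ⟨z, hz⟩ * φ' b = φ' a := by
      rw [hφ'e, hφ'e, ← map_mul]
      congr 1
      exact Subtype.ext hab
    have hb : φ' b ≠ 0 := by
      rcases hab' with ha | hb
      · intro hb
        rw [hb, mul_zero] at h1
        exact ha h1.symm
      · exact hb
    obtain ⟨h2, h3⟩ := hπ b
    obtain ⟨h4, h5⟩ := hπ a
    have h6 := hpl.loc ⟨_, h2⟩ (by rw [h3]; exact hb)
    have hb0 : algebraMap M Ω (b : M) ≠ 0 := by
      rw [_root_.map_ne_zero]
      intro h0
      apply hb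
      rw [show b = 0 from Subtype.ext h0, map_zero]
    have h7 : algebraMap M Ω z = algebraMap M Ω (a : M) * (algebraMap M Ω (b : M))⁻¹ := by
      rw [← hab, map_mul, mul_inv_cancel_right₀ hb0]
    have h8 : algebraMap M Ω z ∈ A' := by rw [h7]; exact mul_mem h4 h6
    refine ⟨h8, ?_⟩
    have h9 : (⟨algebraMap M Ω z, h8⟩ : A') * ⟨algebraMap M Ω (b : M), h2⟩ =
        ⟨algebraMap M Ω (a : M), h4⟩ := by
      apply Subtype.ext
      change algebraMap M Ω z * algebraMap M Ω (b : M) = algebraMap M Ω (a : M)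
      rw [← hab, map_mul]
    have h10 := congrArg π h9
    rw [map_mul, h3, h5, ← h1] at h10
    exact mul_right_cancel₀ hb h10
  refine ⟨A', π, hpl, fun z => ⟨fun hz => ?_, fun hz => (key z hz).1⟩, key⟩
  by_contra hzA
  have hz1 : z⁻¹ ∈ A := (A.mem_or_inv_mem z).resolve_left hzA
  have hz0 : z ≠ 0 := fun h0 => hzA (h0 ▸ zero_mem A)
  have hz2 : φ ⟨z⁻¹, hz1⟩ = 0 := by
    by_contra h0
    have h1 := h.2.1 ⟨z⁻¹, hz1⟩ h0
    change (z⁻¹)⁻¹ ∈ A at h1
    rw [inv_inv] at h1
    exact hzA h1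
  obtain ⟨h1, h2⟩ := key z⁻¹ hz1
  have h3 := h2.trans hz2
  have h4 : (⟨algebraMap M Ω z, hz⟩ : A') * ⟨algebraMap M Ω z⁻¹, h1⟩ = 1 := by
    apply Subtype.ext
    change algebraMap M Ω z * algebraMap M Ω z⁻¹ = 1
    rw [← map_mul, mul_inv_cancel₀ hz0, map_one]
  have h5 := congrArg π h4
  rw [map_mul, h3, mul_zero, map_one] at h5
  exact zero_ne_one h5

end

end Pool.Agent.Lib.MP_2f3286_ag.HYP
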