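import Pool.Agent.Lib.MP_2f3286_ag.HYP.AFChi
import Pool.Agent.Lib.MP_2f3286_ag.HYP.AFCase
import Pool.Agent.Lib.MP_2f3286_ag.HYP.AFPl2
import Pool.Agent.Lib.MP_2f3286_ag.Pair

/-!
# Sections of the fundamental group of affine curves above an odd hyperelliptic curve whose 2-adic Selmer
# group contains no adelic points of infinite order
-/

open Polynomial IsDedekindDomain NumberField
open scoped WithZero

noncomputable section

namespace Pool.Agent.Lib.MP_2f3286_ag.HYP

universe u

section

variable {k : Type u} [Field k] [NumberField k] {K : Type*} [Field K] [Algebra k K]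
  {Ω : Type*} [Field Ω] [Algebra K Ω] [IsAlgClosed Ω] [IsGalois K Ω]
  [Algebra (AlgebraicClosure k) Ω] [Algebra k Ω]
  [IsScalarTower k K Ω] [IsScalarTower k (AlgebraicClosure k) Ω]
  {M : Type*} [Field M] [Algebra K M] [Normal K M] [Algebra M Ω] [IsGalois M Ω]
  [Algebra (AlgebraicClosure k) M]
  [IsScalarTower K M Ω] [IsScalarTower (AlgebraicClosure k) M Ω]

omit [IsGalois M Ω] in
/-- the unit -/
theorem exists_gunit (R : Subalgebra k K) (htr : Algebra.trdeg k Ω = 1)
    (hM : ∀ x : Ω, (∃ m : M, algebraMap M Ω m = x) ↔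
      ∀ g ∈ Pt.inertia R K Ω (AlgebraicClosure k), g x = x)
    (hBM : ∀ a : AlgebraicClosure k, IsIntegral R (algebraMap (AlgebraicClosure k) M a))
    (s : Gal(AlgebraicClosure k/k) →* Gal(M/K)) (hs : Continuous s)
    (hsec : ∀ σ a, s σ (algebraMap (AlgebraicClosure k) M a) =
      algebraMap (AlgebraicClosure k) M (σ a))
    (hfin : ∀ (v : HeightOneSpectrum (𝓞 k))
      (ι : AlgebraicClosure k →ₐ[k] AlgebraicClosure (v.adicCompletion k)),
      ∃ (A : ValuationSubring Ω) (π : A →+* AlgebraicClosure (v.adicCompletion k)),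
        PlaceOver s (v.adicCompletion k)
          (ι : AlgebraicClosure k →+* AlgebraicClosure (v.adicCompletion k)) A π)
    {Q : Prop} (hreal : Q → ∀ ι : AlgebraicClosure k →+* ℂ,
      (∃ σ₀ : Gal(AlgebraicClosure k/k), ∀ a, ι (σ₀ a) = starRingEnd ℂ (ι a)) →
      ∃ (A : ValuationSubring Ω) (π : A →+* ℂ), PlaceOver s ℝ ι A π)
    {f : k[X]} (hf : f.Monic) (hfs : f.Separable) {g : ℕ} (hg : 1 ≤ g)
    (hfd : f.natDegree = 2 * g + 1) (hS : SelTorR k f Q)
    {x y : R} (hx : Transcendental k (x : K)) (hxy : (y : K) ^ 2 = aeval (x : K) f)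
    (hy : IsIntegral R ((y : K)⁻¹)) : GUnit R s Ω := by
  classical
  have hBk : ∀ a : AlgebraicClosure k, IsIntegral R (algebraMap (AlgebraicClosure k) Ω a) := by
    intro a
    rw [IsScalarTower.algebraMap_apply (AlgebraicClosure k) M Ω]
    have htM : IsScalarTower R M Ω := IsScalarTower.of_algebraMap_eq fun x => by
      change algebraMap K Ω x = algebraMap M Ω (algebraMap K M x)
      rw [← IsScalarTower.algebraMap_apply]
    exact (hBM a).algebraMap
  let P : Pt (f.map (algebraMap k Ω)) := ⟨algebraMap K Ω x, algebraMap K Ω y, by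
    rw [← map_pow, hxy, eval_map, IsScalarTower.algebraMap_eq k K Ω, ← hom_eval₂]
    rfl⟩
  have hPx : ∀ (σ : Gal(AlgebraicClosure k/k)) (γ : Gal(Ω/K)), Lft s σ γ → γ P.x = P.x :=
    fun σ γ _ => γ.commutes (x : K)
  have hPy : ∀ (σ : Gal(AlgebraicClosure k/k)) (γ : Gal(Ω/K)), Lft s σ γ → γ P.y = P.y :=
    fun σ γ _ => γ.commutes (y : K)
  have hxΩ : Transcendental k P.x := (transcendental_algebraMap_iff (algebraMap K Ω).injective).2 hx
  have hxc : ∀ c : AlgebraicClosure k, P.x ≠ algebraMap _ Ω c := by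
    intro c hc
    apply hxΩ
    rw [hc]
    exact (Algebra.IsAlgebraic.isAlgebraic (R := k) c).algebraMap
  have hxi : IsIntegral R P.x := by
    change IsIntegral R (algebraMap R Ω x)
    exact isIntegral_algebraMap
  have hyi : IsIntegral R P.y := by
    change IsIntegral R (algebraMap R Ω y)
    exact isIntegral_algebraMap
  have hyi' : IsIntegral R (P.y)⁻¹ := by
    have htK : IsScalarTower R K Ω := IsScalarTower.of_algebraMap_eq fun x => rfl
    change IsIntegral R (algebraMap K Ω y)⁻¹
    rw [← map_inv₀]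
    exact hy.algebraMap
  have hunr : ∀ (n : ℕ) (E' : J (f.map (algebraMap k Ω))), 2 ^ n • E' ∈ lfix f s →
      ∀ δ : Gal(Ω/K), (∀ m : M, δ (algebraMap M Ω m) = algebraMap M Ω m) →
        sact f δ E' = E' := by
    intro n E' hE' δ hδ
    refine fixed_of_inertia (kb := AlgebraicClosure k) (R := R) (good_of hfs hfd _)
      (fun z hz => (hM z).2 hz) (fun g hg => ?_) δ hδ
    refine inertia_half R htr x hx hBk hf hfs hfd hg (n := n) ?_
    exact hE' 1 g (lft_one fun m => (hM _).1 ⟨m, rfl⟩ g hg)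
  obtain ⟨t, ht, ⟨m, htm⟩, z, z0, zs, z2⟩ :=
    exists_chain_lft s hs hsec hfin hreal hunr hf hfs hfd hS hPx hPy
  have hinj := jconst_injective (Ω := Ω) f (good_of hfs hfd (algebraMap k (AlgebraicClosure k)))
  by_cases ht0 : t = 0
  · rw [ht0, map_zero, sub_zero] at z0
    exact gunit_chain hf hfs hg hfd hBk hPx hPy hxc hxi hyi' z0 zs z2
  by_cases htW : ∃ W : Pt (f.map (algebraMap k (AlgebraicClosure k))), W.y = 0 ∧ t = cl W
  · obtain ⟨W, hW, rfl⟩ := htW
    -- the ramification point is rational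
    obtain ⟨a₀, ha₀⟩ := mem_of_fixed (k := k) (a := W.x) fun σ => by
      have h2 := ht σ
      rw [gact, J.map_cl] at h2
      exact congrArg Pt.x (cl_injective (good_of hfs hfd _) hg h2)
    have h0 : f.eval a₀ = 0 := by
      have h3 : (f.map (algebraMap k (AlgebraicClosure k))).eval W.x = 0 := by
        rw [← W.eqn, hW]; ring
      rw [← ha₀, eval_map, eval₂_at_apply] at h3
      exact (map_eq_zero _).mp h3
    rw [jconst, J.map_cl] at z0
    refine gunit_ram hf hfs hg hfd hBk hPx hPy hxc hxi hyi' (a₀ := a₀) ?_ h0 z0 zs z2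
    change algebraMap (AlgebraicClosure k) Ω W.x = _
    rw [← ha₀, ← IsScalarTower.algebraMap_apply]
  · refine gunit_tor hf hfs hfd hPy hxc hyi hyi' (t := jconst f t) (m := m) ?_ ?_ ?_
      z0 zs z2
    · rw [← map_nsmul, htm, map_zero]
    · intro h
      exact ht0 (hinj (h.trans (map_zero _).symm))
    · intro W hW h
      obtain ⟨c, hc⟩ := root_const hf.ne_zero (a := W.x) (by rw [← W.eqn, hW]; ring)
      apply htW
      have h3 : (f.map (algebraMap k (AlgebraicClosure k))).eval c = 0 := by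
        apply (algebraMap (AlgebraicClosure k) Ω).injective
        rw [map_zero, ← eval₂_at_apply, ← eval_map, Polynomial.map_map,
          ← IsScalarTower.algebraMap_eq, hc, ← W.eqn, hW]
        ring
      refine ⟨⟨c, 0, by rw [h3]; ring⟩, rfl, ?_⟩
      apply hinj
      rw [h, jconst, J.map_cl]
      congr 1
      ext
      · exact hc.symm
      · rw [hW]
        exact (map_zero _).symm

end

/-- **The theorem, affine curves.** -/
theorem full_of_selTor {k : Type u} [Field k] [NumberField k]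
    (hinf : Fintype.card (InfinitePlace k) = 1)
    {K : Type*} [Field K] [Algebra k K]
    (R : Subalgebra k K) (hRn : ∀ y : K, IsIntegral R y → y ∈ R) (hfg : R.FG)
    (x y : R) (hx : Transcendental k (x : K))
    [FiniteDimensional (IntermediateField.adjoin k {(x : K)}) K]
    {M : Type*} [Field M] [Algebra K M] [IsGalois K M]
    [Algebra (AlgebraicClosure k) M] [Algebra k M]
    [IsScalarTower k K M] [IsScalarTower k (AlgebraicClosure k) M]
    (hM : Pt.IsMaxUnram R K M (AlgebraicClosure k))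
    (s : Gal(AlgebraicClosure k/k) →* Gal(M/K)) (hs : Continuous s)
    (hsec : ∀ σ a, s σ (algebraMap (AlgebraicClosure k) M a) =
      algebraMap (AlgebraicClosure k) M (σ a))
    (ι : ∀ v : HeightOneSpectrum (𝓞 k),
      AlgebraicClosure k →ₐ[k] AlgebraicClosure (v.adicCompletion k))
    (φ : ∀ v : HeightOneSpectrum (𝓞 k),
      integralClosure R M →+* AlgebraicClosure (v.adicCompletion k))
    (hφ : ∀ v, Respects s (v.adicCompletion k)
      (ι v : _ →+* AlgebraicClosure (v.adicCompletion k)) (φ v))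
    {Q : Prop} (hreal : Q → ∀ τ : AlgebraicClosure k →+* ℂ,
      (∀ a : k, starRingEnd ℂ (τ (algebraMap k _ a)) = τ (algebraMap k _ a)) →
      ∃ (A : ValuationSubring M) (φ : A →+* ℂ), Sel.IsPlaceOf s ℝ τ A φ)
    {f : k[X]} (hf : f.Monic) (hfs : f.Separable) {g : ℕ} (hg : 1 ≤ g)
    (hfd : f.natDegree = 2 * g + 1) (hS : SelTorR k f Q)
    (hxy : y ^ 2 = aeval x f) (hy : IsUnit y) :
    ∃ (Δ : Subgroup Gal(AlgebraicClosure k/k))
      (Ψ : integralClosure R M →+* AlgebraicClosure k),
      IsOpen (Δ : Set Gal(AlgebraicClosure k/k)) ∧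
      (∀ (a : AlgebraicClosure k) (b : integralClosure R M), (b : M) = algebraMap _ M a → Ψ b = a) ∧
      (∀ σ ∈ Δ, ∀ b b' : integralClosure R M, (b' : M) = s σ b → Ψ b' = σ (Ψ b)) ∧
      (∀ r : R, algebraMap R M r ∈ Subring.closure {b : M | IsIntegral R b ∧ IsIntegral R b⁻¹} →
        ∃ c : k, Ψ (algebraMap R _ r) = algebraMap k _ c ∧
          ∀ v, φ v (algebraMap R _ r) = ι v (algebraMap k _ c)) ∧
      (∀ Ψ' : integralClosure R M →+* AlgebraicClosure k,
        (∀ (a : AlgebraicClosure k) (b : integralClosure R M), (b : M) = algebraMap _ M a →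
          Ψ' b = a) → (∀ r : R, Ψ' (algebraMap R _ r) = Ψ (algebraMap R _ r)) →
        (∃ Δ' : Subgroup Gal(AlgebraicClosure k/k), IsOpen (Δ' : Set Gal(AlgebraicClosure k/k)) ∧
          ∀ σ ∈ Δ', ∀ b b' : integralClosure R M, (b' : M) = s σ b → Ψ' b' = σ (Ψ' b)) → Ψ' = Ψ) ∧
      ((∀ r : R, ∃ c : k, Ψ (algebraMap R _ r) = algebraMap k _ c) →
        Respects s k (RingHom.id _) Ψ) ∧
      ((∀ r : R, algebraMap R M r ∈
        Subring.closure {b : M | IsIntegral R b ∧ IsIntegral R b⁻¹}) →
        ∀ Ψ' : integralClosure R M →+* AlgebraicClosure k,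
          Respects s k (RingHom.id _) Ψ' → Ψ' = Ψ) := by
  classical
  have hK0 : CharZero K := charZero_of_injective_algebraMap (algebraMap k K).injective
  have hM0 : CharZero M := charZero_of_injective_algebraMap (algebraMap K M).injective
  have hΩ0 : CharZero (AlgebraicClosure M) :=
    charZero_of_injective_algebraMap (algebraMap M _).injective
  have halg : Algebra.IsAlgebraic K (AlgebraicClosure M) := Algebra.IsAlgebraic.trans K M _
  have hcl : IsAlgClosure K (AlgebraicClosure M) := ⟨inferInstance, halg⟩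
  have hnorm : Normal K (AlgebraicClosure M) := IsAlgClosure.normal K _
  have hΩg : IsGalois K (AlgebraicClosure M) := ⟨⟩
  have hΩM : IsGalois M (AlgebraicClosure M) := IsGalois.tower_top_of_isGalois K M _
  have htrM : Algebra.trdeg k M = 1 := trdeg_top (K := K) (Full.trdeg_of_finite hx)
  have htr : Algebra.trdeg k (AlgebraicClosure M) = 1 :=
    trdeg_top (K := K) (Full.trdeg_of_finite hx)
  have hBM : ∀ a : AlgebraicClosure k, IsIntegral R (algebraMap (AlgebraicClosure k) M a) :=
    Pt.integral_const R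
  have hmax := Pt.radClosed_of_max R hM
  -- the places
  have hIsG : IsGalois k (AlgebraicClosure k) := {}
  have hloc : ∀ (v : HeightOneSpectrum (𝓞 k)), CharZero (v.adicCompletion k) := fun v =>
    charZero_of_injective_algebraMap (algebraMap k (v.adicCompletion k)).injective
  have hfin : ∀ (v : HeightOneSpectrum (𝓞 k))
      (ι' : AlgebraicClosure k →ₐ[k] AlgebraicClosure (v.adicCompletion k)),
      ∃ (A : ValuationSubring (AlgebraicClosure M))
        (π : A →+* AlgebraicClosure (v.adicCompletion k)),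
        PlaceOver s (v.adicCompletion k)
          (ι' : AlgebraicClosure k →+* AlgebraicClosure (v.adicCompletion k)) A π := by
    intro v ι'
    have := hloc v
    have hC : CharZero (AlgebraicClosure (v.adicCompletion k)) :=
      charZero_of_injective_algebraMap (algebraMap (v.adicCompletion k) _).injective
    obtain ⟨ρ, hρ⟩ := exists_aut_of_embeddings (k := k) (kb := AlgebraicClosure k)
      (ι v : AlgebraicClosure k →+* AlgebraicClosure (v.adicCompletion k))
      (ι' : AlgebraicClosure k →+* AlgebraicClosure (v.adicCompletion k)) (fun a => ((ι v).commutes a).trans (ι'.commutes a).symm)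
    obtain ⟨φ', hφ'⟩ := respects_change hsec hρ (hφ v)
    obtain ⟨A, π, h, -⟩ := exists_place_over (Ω := AlgebraicClosure M) R htr x hx hBM hφ'
    exact ⟨A, π, h⟩
  have hre : Q → ∀ ι' : AlgebraicClosure k →+* ℂ,
      (∃ σ₀ : Gal(AlgebraicClosure k/k), ∀ a, ι' (σ₀ a) = starRingEnd ℂ (ι' a)) →
      ∃ (A : ValuationSubring (AlgebraicClosure M)) (π : A →+* ℂ), PlaceOver s ℝ ι' A π := by
    rintro hQ ι' ⟨σ₀, hσ₀⟩
    obtain ⟨A₁, φ', hφ'⟩ := hreal hQ ι' fun a => by rw [← hσ₀, AlgEquiv.commutes]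
    obtain ⟨A, π, h, -⟩ := exists_placeOver (Ω := AlgebraicClosure M) htr htrM hx hφ'
    exact ⟨A, π, h⟩
  have hxyK : (y : K) ^ 2 = aeval (x : K) f := by
    have h1 := congrArg (Subtype.val : R → K) hxy
    refine h1.trans ?_
    exact (aeval_algHom_apply R.val x f).symm
  have hyK : IsIntegral R ((y : K)⁻¹) := by
    obtain ⟨w, hw⟩ := hy
    have h1 : ((y : K)⁻¹) = algebraMap R K ((w⁻¹ : Rˣ) : R) := by
      rw [← hw]
      apply inv_eq_of_mul_eq_one_right
      exact congrArg (Subtype.val : R → K) w.mul_inv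
    rw [h1]
    exact isIntegral_algebraMap
  obtain ⟨T₁, hT1, hT2, hT3, hT4, B, hB⟩ := exists_gunit (Ω := AlgebraicClosure M) R htr hM hBM s hs
    hsec hfin hre hf hfs hg hfd hS hx hxyK hyK
  -- the unit in `M`
  obtain ⟨T, hT⟩ : ∃ T : M, algebraMap M (AlgebraicClosure M) T = T₁ := by
    refine (InfiniteGalois.mem_range_algebraMap_iff_fixed T₁).2 fun δ => ?_
    exact hT1 1 (δ.restrictScalars K) (lft_one fun m => δ.commutes m)
  have htM : IsScalarTower R M (AlgebraicClosure M) := IsScalarTower.of_algebraMap_eq fun x => rfl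
  have hTi : IsIntegral R T := by
    rw [← hT] at hT3
    exact (isIntegral_algebraMap_iff (algebraMap M (AlgebraicClosure M)).injective).mp hT3
  have hTi' : IsIntegral R T⁻¹ := by
    rw [← hT, ← map_inv₀] at hT4
    exact (isIntegral_algebraMap_iff (algebraMap M (AlgebraicClosure M)).injective).mp hT4
  obtain ⟨S', χ, hχ, hvan⟩ := exists_chi_unit R hinf htrM hmax s hs hsec ι φ hφ ⟨T, hTi⟩
    (fun σ => by
      obtain ⟨γ, hγ⟩ := exists_lft (s := s) (Ω := AlgebraicClosure M) σ
      apply (algebraMap M (AlgebraicClosure M)).injective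
      rw [← hγ, hT]
      exact hT1 σ γ hγ)
    (fun c hc => hT2 c (by
      rw [← hT, IsScalarTower.algebraMap_apply (AlgebraicClosure k) M (AlgebraicClosure M)]
      exact congrArg _ hc)) hTi' B
    (fun v hv w hw => by
      have := hloc v
      have hC : CharZero (AlgebraicClosure (v.adicCompletion k)) :=
        charZero_of_injective_algebraMap (algebraMap (v.adicCompletion k) _).injective
      obtain ⟨A, π, h, hAπ⟩ := exists_place_over (Ω := AlgebraicClosure M) R htr x hx hBM (hφ v)
      obtain ⟨h1, h2⟩ := hAπ ⟨T, hTi⟩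
      subst hT
      exact hB v hv (ι v) A π h h1 w (h2.trans hw)) x hx
  refine GU.gu_final2 R hRn hfg x hx ?_ (fun Ψ hΨ g _ hg => Pt.unram_of_max R hM Ψ hΨ g hg) hmax s hs
    hsec ∅ (fun v => ι v.1) (fun v => φ v.1) (fun v => hφ v.1) S' (Finset.empty_subset _) χ hχ
    (fun v hv => hvan v.1 hv) |>.imp fun Δ => Exists.imp fun Ψ => ?_
  · refine GU.mem_units_of_unit R x f (by omega) ?_
    rw [← hxy]
    exact hy.pow 2
  · rintro ⟨h1, h2, h3, h4, h5, h6, h7⟩
    refine ⟨h1, h2, h3, fun r hr => ?_, h5, h6, h7⟩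
    obtain ⟨c, hc, hc'⟩ := h4 r hr
    exact ⟨c, hc, fun v => hc' ⟨v, Finset.notMem_empty v⟩⟩

end Pool.Agent.Lib.MP_2f3286_ag.HYP
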