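import Pool.Agent.Lib.MP_2f3286_ag.HYP.AFUni
import Pool.Agent.Lib.MP_2f3286_ag.SNeigh.Main

/-!
# Sections with a neighbourhood above an odd hyperelliptic curve over a finite extension
-/

open Polynomial IsDedekindDomain NumberField
open scoped WithZero

noncomputable section

namespace Pool.Agent.Lib.MP_2f3286_ag.HYP

open Pool.Agent.Lib.MP_2f3286_ag.Pt Pool.Agent.Lib.MP_2f3286_ag.SNeigh
  Pool.Agent.Lib.MP_2f3286_ag.SFull

universe u v

/-- the functions in the valuation ring of a place over an affine curve are fractions -/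
theorem frac_of_place {k : Type*} [Field k] {K : Type*} [Field K] [Algebra k K]
    (htr : Algebra.trdeg k K = 1) (R : Subalgebra k K) (hRn : ∀ y : K, IsIntegral R y → y ∈ R)
    (t : K) (htR : t ∈ R) (ht : Transcendental k t)
    {M kb : Type*} [Field M] [Field kb] [Algebra K M] {A : ValuationSubring M} (ψ : A →+* kb)
    (hR : ∀ r : R, algebraMap K M r ∈ A) (h : K) (hh : algebraMap K M h ∈ A) :
    ∃ a b : R, h * b = a ∧ ψ ⟨algebraMap K M b, hR b⟩ ≠ 0 := by
  have hA : ∀ b : integralClosure R K, algebraMap K M b ∈ A := fun b => hR ⟨b, hRn _ b.2⟩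
  let Φ : integralClosure R K →+* kb := ψ.comp (((algebraMap K M).comp
    (algebraMap (integralClosure R K) K)).codRestrict A hA)
  obtain ⟨a, b, hab, hab'⟩ := frac_of_hom (Ω := K) R htr ⟨t, htR⟩ ht Φ h
  refine ⟨⟨a, hRn _ a.2⟩, ⟨b, hRn _ b.2⟩, hab, ?_⟩
  rcases hab' with ha | hb
  · intro hb
    apply ha
    have h1 : (⟨algebraMap K M a, hA a⟩ : A) = ⟨_, hh⟩ * ⟨algebraMap K M b, hA b⟩ := by
      apply Subtype.ext
      change algebraMap K M a = algebraMap K M h * algebraMap K M b
      rw [← map_mul, hab]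
    change ψ ⟨algebraMap K M a, hA a⟩ = 0
    rw [h1, map_mul]
    change _ * ψ ⟨algebraMap K M b, hA b⟩ = 0
    rw [hb, mul_zero]
  · exact hb

/-- The place of a section over an open subgroup. -/
theorem affine_end {k : Type u} [Field k] [NumberField k]
    {K : Type*} [Field K] [Algebra k K] (htr : Algebra.trdeg k K = 1)
    (R : Subalgebra k K) (hfg : R.FG) (hRn : ∀ y : K, IsIntegral R y → y ∈ R)
    (t : K) (htR : t ∈ R) (ht : Transcendental k t)
    {M : Type*} [Field M] [Algebra K M] [IsGalois K M]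
    [Algebra (AlgebraicClosure k) M] [Algebra k M]
    [IsScalarTower k K M] [IsScalarTower k (AlgebraicClosure k) M]
    (hM : IsMaxUnramOver R K M (AlgebraicClosure k))
    (s : Gal(AlgebraicClosure k/k) →* Gal(M/K)) (hs : Continuous s)
    (hsec : ∀ σ a, s σ (algebraMap (AlgebraicClosure k) M a) =
      algebraMap (AlgebraicClosure k) M (σ a))
    {A₀ : ValuationSubring M} {ψ₀ : A₀ →+* AlgebraicClosure k}
    (hR : ∀ r : R, algebraMap K M r ∈ A₀) (h₀ : IsOver A₀ ψ₀)
    (Δ : Subgroup Gal(AlgebraicClosure k/k)) (hΔ : IsOpen (Δ : Set Gal(AlgebraicClosure k/k)))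
    (hr₀ : ResOn s A₀ ψ₀ Δ) :
    Sel.IsSectionAt s A₀ ψ₀ ∧
    (∀ (A₁ : ValuationSubring M) (ψ₁ : A₁ →+* AlgebraicClosure k), Sel.IsSectionAt s A₁ ψ₁ →
      (∀ (r : R) (h₀ : algebraMap K M r ∈ A₀), ∃ h₁ : algebraMap K M r ∈ A₁,
        algebraMap K M r ∈ unitRing R M ∨ ψ₁ ⟨_, h₁⟩ = ψ₀ ⟨_, h₀⟩) →
      A₁ = A₀ ∧ ∀ (a : A₁) (b : A₀), (a : M) = b → ψ₁ a = ψ₀ b) ∧
    (∀ r : R, algebraMap K M r ∈ unitRing R M →
      ∃ c : k, ψ₀ ⟨_, hR r⟩ = algebraMap k (AlgebraicClosure k) c) ∧
    ((∀ r : R, algebraMap K M r ∈ unitRing R M) →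
      Sel.IsPlaceOf s k (RingHom.id _) A₀ ψ₀) := by
  classical
  have hfdim := finite_of_fg htr R hRn hfg htR ht
  have hK0 : CharZero K := charZero_of_injective_algebraMap (algebraMap k K).injective
  have hKM : Algebra.IsAlgebraic K M := inferInstance
  have halg : Algebra.IsAlgebraic K (AlgebraicClosure M) := Algebra.IsAlgebraic.trans K M _
  have htrΩ : Algebra.trdeg k (AlgebraicClosure M) = 1 :=
    trdeg_top (K := K) (Full.trdeg_of_finite ht)
  have hMp := maxUnram_of_over R htrΩ t htR ht hM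
  have hK : (⊤ : IntermediateField k K).FG := by
    have h1 : Algebra.EssFiniteType k (IntermediateField.adjoin k {t}) :=
      IntermediateField.essFiniteType_iff.2
        (IntermediateField.fg_adjoin_of_finite (Set.finite_singleton t))
    have h2 := Algebra.EssFiniteType.comp k (IntermediateField.adjoin k {t}) K
    exact IntermediateField.fg_top k K
  obtain ⟨g1, g2⟩ := SNeigh.section_of_open hK htr R hfg hM s hsec hR h₀ Δ hΔ hr₀
  obtain ⟨hA, Ψ, e, i1, i2⟩ := pt_of_place R s h₀ hR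
  -- agreement
  have hag : ∀ (A₁ : ValuationSubring M) (ψ₁ : A₁ →+* AlgebraicClosure k) (_ : IsOver A₁ ψ₁)
      (Δ₁ : Subgroup Gal(AlgebraicClosure k/k)), IsOpen (Δ₁ : Set Gal(AlgebraicClosure k/k)) →
      ResOn s A₁ ψ₁ Δ₁ → ∀ (hR₁ : ∀ r : R, algebraMap K M r ∈ A₁) (r : R),
      algebraMap K M r ∈ unitRing R M → ψ₁ ⟨_, hR₁ r⟩ = ψ₀ ⟨_, hR r⟩ := by
    intro A₁ ψ₁ h₁ Δ₁ hΔ₁ hr₁ hR₁ r hr
    obtain ⟨hA₁, Ψ₁, e₁, j1, j2⟩ := pt_of_place R s h₁ hR₁
    have h8 := open_agree R s hs (Pt.radClosed_of_max R hMp) (Δ ⊓ Δ₁) (hΔ.inter hΔ₁) i1 j1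
      (fun σ hσ => i2 Δ hr₀ σ hσ.1) (fun σ hσ => j2 Δ₁ hr₁ σ hσ.2)
      (algebraMap R (integralClosure R M) r) hr
    rw [e, e₁] at h8
    exact h8
  have hrat : ∀ r : R, algebraMap K M r ∈ unitRing R M →
      ∃ c : k, ψ₀ ⟨_, hR r⟩ = algebraMap k (AlgebraicClosure k) c := by
    intro r hr
    obtain ⟨c, hc⟩ := mem_of_fixed (k := k) (a := ψ₀ ⟨_, hR r⟩) fun σ => by
      obtain ⟨A₁, ψ₁, p1, p2, p3⟩ := exists_conj hsec h₀ σ
      have hKA : ∀ f : K, (s σ)⁻¹ (algebraMap K M f) = algebraMap K M f := fun f =>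
        ((s σ)⁻¹).commutes f
      have hR₁ : ∀ r : R, algebraMap K M r ∈ A₁ := fun r => (p2 _).2 (by rw [hKA]; exact hR r)
      let Δ' : Subgroup Gal(AlgebraicClosure k/k) := Δ.comap (MulAut.conj σ⁻¹).toMonoidHom
      have hΔ' : IsOpen (Δ' : Set Gal(AlgebraicClosure k/k)) := by
        refine hΔ.preimage ?_
        change Continuous fun x => σ⁻¹ * x * σ⁻¹⁻¹
        fun_prop
      have hr₁' : ResOn s A₁ ψ₁ Δ' := by
        intro τ hτ y
        have h1 : σ⁻¹ * τ * σ ∈ Δ := by
          have h2 : σ⁻¹ * τ * σ⁻¹⁻¹ ∈ Δ := hτ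
          rwa [inv_inv] at h2
        have hy : (s σ)⁻¹ (y : M) ∈ A₀ := (p2 _).mp y.2
        obtain ⟨h3, h4⟩ := hr₀ _ h1 ⟨_, hy⟩
        have h5 : (s σ)⁻¹ (s τ y) = s (σ⁻¹ * τ * σ) ((s σ)⁻¹ (y : M)) := by
          rw [← AlgEquiv.mul_apply, ← AlgEquiv.mul_apply, map_mul, map_mul, map_inv]
          congr 1
          group
        have h6 : (s σ)⁻¹ (s τ y) ∈ A₀ := by rw [h5]; exact h3
        have h7 : s τ y ∈ A₁ := (p2 _).mpr h6
        refine ⟨h7, ?_⟩
        rw [p3 _ h7 h6, p3 _ y.2 hy]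
        have h8 : (⟨(s σ)⁻¹ (s τ y), h6⟩ : A₀) = ⟨_, h3⟩ := Subtype.ext h5
        rw [h8, h4, ← AlgEquiv.mul_apply, ← AlgEquiv.mul_apply]
        congr 1
        group
      have h8 := hag A₁ ψ₁ p1 Δ' hΔ' hr₁' hR₁ r hr
      have h9 : (s σ)⁻¹ (algebraMap K M (r : K)) ∈ A₀ := by rw [hKA]; exact hR r
      have h10 : (⟨_, hR r⟩ : A₀) = ⟨_, h9⟩ := Subtype.ext (hKA _).symm
      exact (congrArg (fun z => σ (ψ₀ z)) h10).trans ((p3 _ (hR₁ r) h9).symm.trans h8)
    exact ⟨c, hc.symm⟩
  refine ⟨g1, fun A₁ ψ₁ hψ₁ hA₁ => ?_, hrat, fun hu => ?_⟩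
  · have hR₁ : ∀ r : R, algebraMap K M r ∈ A₁ := fun r => (hA₁ r (hR r)).1
    have hsame : ∀ r : R, ψ₁ ⟨_, hR₁ r⟩ = ψ₀ ⟨_, hR r⟩ := by
      intro r
      obtain ⟨h1, h2⟩ := hA₁ r (hR r)
      rcases h2 with h2 | h2
      · exact hag A₁ ψ₁ ⟨hψ₁.1, hψ₁.2.1⟩ (stab K A₁ ψ₁) hψ₁.2.2.1
          (fun σ hσ z => hψ₁.2.2.2 σ hσ z) hR₁ r h2
      · exact h2
    refine g2 A₁ ψ₁ hψ₁ fun h hh => ?_
    obtain ⟨a, b, hab, hb⟩ := frac_of_place htr R hRn t htR ht ψ₀ hR h hh
    have h3 : (algebraMap K M (b : K))⁻¹ ∈ A₁ := hψ₁.2.1 ⟨_, hR₁ b⟩ (by rw [hsame]; exact hb)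
    have hb0 : algebraMap K M (b : K) ≠ 0 := by
      intro h0
      apply hb
      rw [show (⟨algebraMap K M (b : K), hR b⟩ : A₀) = 0 from Subtype.ext h0, map_zero]
    have h4 : algebraMap K M h = algebraMap K M a * (algebraMap K M (b : K))⁻¹ := by
      rw [← hab, map_mul, mul_inv_cancel_right₀ hb0]
    have h5 : algebraMap K M h ∈ A₁ := by
      rw [h4]
      exact A₁.mul_mem _ _ (hR₁ a) h3
    refine ⟨h5, mul_right_cancel₀ hb ?_⟩
    have h6 : (⟨_, h5⟩ : A₁) * ⟨_, hR₁ b⟩ = ⟨_, hR₁ a⟩ := by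
      apply Subtype.ext
      change algebraMap K M h * algebraMap K M (b : K) = algebraMap K M (a : K)
      rw [← map_mul, hab]
    have h7 : (⟨_, hh⟩ : A₀) * ⟨_, hR b⟩ = ⟨_, hR a⟩ := by
      apply Subtype.ext
      change algebraMap K M h * algebraMap K M (b : K) = algebraMap K M (a : K)
      rw [← map_mul, hab]
    rw [← map_mul, h7, ← hsame a, ← h6, map_mul, hsame b]
  · -- the place is rational
    have hfix : ∀ (σ : Gal(AlgebraicClosure k/k)) (h : K) (hh : algebraMap K M h ∈ A₀),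
        σ (ψ₀ ⟨_, hh⟩) = ψ₀ ⟨_, hh⟩ := by
      intro σ h hh
      obtain ⟨a, b, hab, hb⟩ := frac_of_place htr R hRn t htR ht ψ₀ hR h hh
      obtain ⟨ca, hca⟩ := hrat a (hu a)
      obtain ⟨cb, hcb⟩ := hrat b (hu b)
      have h7 : (⟨_, hh⟩ : A₀) * ⟨_, hR b⟩ = ⟨_, hR a⟩ := by
        apply Subtype.ext
        change algebraMap K M h * algebraMap K M (b : K) = algebraMap K M (a : K)
        rw [← map_mul, hab]
      have h8 := congrArg ψ₀ h7
      rw [map_mul] at h8
      have h9 : ψ₀ ⟨_, hh⟩ = algebraMap k _ (ca / cb) := by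
        rw [map_div₀, ← hca, ← hcb, ← h8, mul_div_cancel_right₀ _ hb]
      rw [h9, AlgEquiv.commutes]
    refine ⟨h₀.1, h₀.2, fun σ τ hστ z => ?_⟩
    obtain ⟨h9, h10⟩ := g1.2.2.2 σ (hfix σ) z
    exact ⟨h9, h10.trans (hστ _)⟩

/-- the integral closure in a finite extension is finitely generated -/
theorem fg_closure {k K F L : Type*} [Field k] [CharZero k] [Field K] [Field F] [Field L]
    [Algebra k K] [Algebra K L] [Algebra k L] [IsScalarTower k K L] [FiniteDimensional K L]
    [Algebra k F] [Algebra F L] [IsScalarTower k F L]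
    (R : Subalgebra k K) (hfg : R.FG) (hRn : ∀ y : K, IsIntegral R y → y ∈ R)
    (hfrac : ∀ z : K, ∃ a b : R, (b : K) ≠ 0 ∧ z * b = a)
    (R₁ : Subalgebra F L) (h1 : ∀ z : L, z ∈ R₁ ↔ IsIntegral R z) : R₁.FG := by
  classical
  have hK0 : CharZero K := charZero_of_injective_algebraMap (algebraMap k K).injective
  have hft : Algebra.FiniteType k R := R.fg_iff_finiteType.1 hfg
  have hN : IsNoetherianRing R := Algebra.FiniteType.isNoetherianRing k R
  have hfr : IsFractionRing R K := by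
    refine (isLocalization_iff (nonZeroDivisors R) K).2 ⟨?_, ?_, ?_⟩
    · intro y
      have h2 : ((y : R) : K) ≠ 0 := fun h => nonZeroDivisors.coe_ne_zero y (Subtype.ext h)
      exact isUnit_iff_ne_zero.2 h2
    · intro z
      obtain ⟨a, b, hb, hab⟩ := hfrac z
      exact ⟨(a, ⟨b, mem_nonZeroDivisors_of_ne_zero fun h => hb (by rw [h]; rfl)⟩), hab⟩
    · intro a b hab
      exact ⟨1, by rw [Subtype.ext hab]⟩
  have hic : IsIntegrallyClosed R := by
    rw [isIntegrallyClosed_iff K]
    intro z hz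
    exact ⟨⟨z, hRn z hz⟩, rfl⟩
  have hfin : Module.Finite R (integralClosure R L) := IsIntegralClosure.finite R K L _
  obtain ⟨B, hB⟩ := hfin.fg_top
  obtain ⟨T, hT⟩ := hfg
  refine ⟨B.image (algebraMap (integralClosure R L) L) ∪ T.image (algebraMap K L), ?_⟩
  have hTR : ∀ r ∈ T, r ∈ R := fun r hr => by
    rw [← hT]; exact Algebra.subset_adjoin hr
  apply le_antisymm
  · refine Algebra.adjoin_le ?_
    intro z hz
    rw [Finset.coe_union, Finset.coe_image, Finset.coe_image] at hz
    rcases hz with ⟨b, -, rfl⟩ | ⟨r, hr, rfl⟩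
    · exact (h1 _).2 b.2
    · exact (h1 _).2 (isIntegral_algebraMap (R := R) (A := L) (x := ⟨r, hTR r hr⟩))
  · have hR : ∀ r ∈ R, algebraMap K L r ∈ Algebra.adjoin F
        ((B.image (algebraMap (integralClosure R L) L) ∪ T.image (algebraMap K L) : Finset L) :
          Set L) := by
      intro r hr
      rw [← hT] at hr
      induction hr using Algebra.adjoin_induction with
      | mem r hr =>
        refine Algebra.subset_adjoin ?_
        rw [Finset.coe_union, Finset.coe_image, Finset.coe_image]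
        exact Or.inr ⟨r, hr, rfl⟩
      | algebraMap c =>
        rw [← IsScalarTower.algebraMap_apply k K L, IsScalarTower.algebraMap_apply k F L]
        exact Subalgebra.algebraMap_mem _ _
      | add a b _ _ ha hb => rw [map_add]; exact add_mem ha hb
      | mul a b _ _ ha hb => rw [map_mul]; exact mul_mem ha hb
    intro z hz
    have h2 : (⟨z, (h1 z).1 hz⟩ : integralClosure R L) ∈ Submodule.span R (B : Set _) := by
      rw [hB]; exact Submodule.mem_top
    have h3 : ∀ w ∈ Submodule.span R (B : Set (integralClosure R L)),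
        (w : L) ∈ Algebra.adjoin F
          ((B.image (algebraMap (integralClosure R L) L) ∪ T.image (algebraMap K L) : Finset L) :
            Set L) := by
      intro w hw
      induction hw using Submodule.span_induction with
      | mem b hb =>
        refine Algebra.subset_adjoin ?_
        rw [Finset.coe_union, Finset.coe_image, Finset.coe_image]
        exact Or.inl ⟨b, hb, rfl⟩
      | zero => exact zero_mem _
      | add a b _ _ ha hb => exact add_mem ha hb
      | smul r b _ hb =>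
        have h4 : ((r • b : integralClosure R L) : L) = algebraMap K L r * b := by
          rw [Algebra.smul_def]
          rfl
        rw [h4]
        exact mul_mem (hR r r.2) hb
    exact h3 _ h2


section transfer

open Pool.Agent.Lib.MP_2f3286_ag.Koe

/-- the section of a place is over `F` the section of the same place -/
theorem placeOf_res {k kb K M F Fb E Eb : Type*} [Field k] [Field kb] [Algebra k kb] [Field K]
    [Field M] [Algebra K M] [Algebra kb M] [Field F] [Algebra k F] [Algebra F kb]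
    [IsScalarTower k F kb] [Field Fb] [Algebra F Fb] [Algebra Fb M] (e : Fb ≃ₐ[F] kb)
    (he : ∀ a, algebraMap Fb M a = algebraMap kb M (e a)) (s : Gal(kb/k) →* Gal(M/K))
    {L : Type*} [Field L] [Algebra L M]
    (hL : ∀ σ : Gal(kb/k), (∀ a : F, σ (algebraMap F _ a) = algebraMap F _ a) →
      ∀ x : L, s σ (algebraMap L M x) = algebraMap L M x)
    [Field E] [Field Eb] [Algebra E Eb] {ι : kb →+* Eb} {A : ValuationSubring M} {φ : A →+* Eb}
    (h : Sel.IsPlaceOf s E ι A φ) :
    Sel.IsPlaceOf (resS s e hL) E (ι.comp (e : Fb →+* kb)) A φ := by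
  refine ⟨fun b => ?_, h.2.1, fun σ τ hστ x => ?_⟩
  · obtain ⟨h1, h2⟩ := h.1 (e b)
    have h3 : algebraMap Fb M b ∈ A := by rw [he]; exact h1
    refine ⟨h3, ?_⟩
    have h4 : (⟨algebraMap Fb M b, h3⟩ : A) = ⟨_, h1⟩ := Subtype.ext (he b)
    rw [h4, h2]
    rfl
  · refine h.2.2 (resG e σ) τ (fun y => ?_) x
    have h4 := hστ (e.symm y)
    change ι (e (σ (e.symm y))) = τ (ι (e (e.symm y))) at h4
    rw [e.apply_symm_apply] at h4
    exact h4

/-- a place of which `s` is the section over a finite extension of `F` -/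
theorem up_section {k : Type u} [Field k] [NumberField k] {K : Type*} [Field K]
    {M : Type*} [Field M] [Algebra K M] [Algebra (AlgebraicClosure k) M]
    (s : Gal(AlgebraicClosure k/k) →* Gal(M/K))
    {F : Type v} [Field F] [NumberField F] [Algebra k F]
    [Algebra F (AlgebraicClosure k)] [IsScalarTower k F (AlgebraicClosure k)]
    (e : AlgebraicClosure F ≃ₐ[F] AlgebraicClosure k) [Algebra (AlgebraicClosure F) M]
    (he : ∀ a, algebraMap (AlgebraicClosure F) M a = algebraMap (AlgebraicClosure k) M (e a))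
    {L : IntermediateField K M}
    (hL : ∀ σ : Gal(AlgebraicClosure k/k),
      (∀ a : F, σ (algebraMap F _ a) = algebraMap F _ a) →
      ∀ x : L, s σ (algebraMap L M x) = algebraMap L M x)
    {A₀ : ValuationSubring M} {ψ : A₀ →+* AlgebraicClosure F}
    (h : Sel.IsSectionAt (resS s e hL) A₀ ψ) :
    IsOver A₀ ((e : _ →+* AlgebraicClosure k).comp ψ) ∧
      ∃ Δ : Subgroup Gal(AlgebraicClosure k/k), IsOpen (Δ : Set Gal(AlgebraicClosure k/k)) ∧
        ResOn s A₀ ((e : _ →+* AlgebraicClosure k).comp ψ) Δ := by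
  have hfin : FiniteDimensional k F := FiniteDimensional.right ℚ k F
  obtain ⟨q1, q2, q3, q4⟩ := h
  have hgal : IsGalois F (AlgebraicClosure F) := IsAlgClosure.isGalois F _
  let B : Subgroup Gal(AlgebraicClosure F/F) := stab L A₀ ψ
  have hB : IsOpen (B : Set Gal(AlgebraicClosure F/F)) := q3
  let E' : IntermediateField F (AlgebraicClosure F) := IntermediateField.fixedField B
  have hfix : E'.fixingSubgroup = B :=
    InfiniteGalois.fixingSubgroup_fixedField ⟨B, Subgroup.isClosed_of_isOpen B hB⟩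
  have hE' : FiniteDimensional F E' := by
    rw [← InfiniteGalois.isOpen_iff_finite, hfix]
    exact hB
  let E₁ : IntermediateField F (AlgebraicClosure k) := E'.map (e : _ →ₐ[F] AlgebraicClosure k)
  have hE₁ : FiniteDimensional F E₁ := LinearEquiv.finiteDimensional
    (E'.equivMap (e : _ →ₐ[F] AlgebraicClosure k)).toLinearEquiv
  let E₂ : IntermediateField k (AlgebraicClosure k) := E₁.restrictScalars k
  have hE₂ : FiniteDimensional k E₂ := by
    have h1 : FiniteDimensional k E₁ := FiniteDimensional.trans k F E₁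
    exact h1
  have hmem : ∀ x, x ∈ E₂ ↔ e.symm x ∈ E' := by
    intro x
    constructor
    · rintro ⟨y, hy, rfl⟩
      change e.symm (e y) ∈ E'
      rw [e.symm_apply_apply]
      exact hy
    · intro h
      exact ⟨e.symm x, h, e.apply_symm_apply x⟩
  refine ⟨⟨fun b => ?_, fun x hx => ?_⟩, E₂.fixingSubgroup,
    IntermediateField.fixingSubgroup_isOpen E₂, fun σ hσ x => ?_⟩
  · obtain ⟨h1, h2⟩ := q1 (e.symm b)
    have h3 : algebraMap (AlgebraicClosure F) M (e.symm b) =
        algebraMap (AlgebraicClosure k) M b := by rw [he, e.apply_symm_apply]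
    refine ⟨h3 ▸ h1, ?_⟩
    have h4 : (⟨algebraMap (AlgebraicClosure k) M b, h3 ▸ h1⟩ : A₀) = ⟨_, h1⟩ :=
      Subtype.ext h3.symm
    rw [h4]
    change e (ψ ⟨_, h1⟩) = b
    rw [h2, e.apply_symm_apply]
  · refine q2 x fun h0 => hx ?_
    change e (ψ x) = 0
    rw [h0, _root_.map_zero]
  · rw [IntermediateField.mem_fixingSubgroup_iff] at hσ
    have hσF : ∀ a : F, σ (algebraMap F _ a) = algebraMap F _ a := by
      intro a
      apply hσ
      rw [hmem, AlgEquiv.commutes]
      exact E'.algebraMap_mem a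
    obtain ⟨τ, hτ, hτ'⟩ := resG_surj e σ hσF
    have h1 : τ ∈ B := by
      rw [← hfix, IntermediateField.mem_fixingSubgroup_iff]
      intro x hx
      rw [hτ', hσ (e x) (by rw [hmem, e.symm_apply_apply]; exact hx), e.symm_apply_apply]
    obtain ⟨h2, h3⟩ := q4 τ h1 x
    have h4 : resS s e hL τ (x : M) = s σ x := by rw [resS_apply, hτ]
    refine ⟨h4 ▸ h2, ?_⟩
    have h5 : (⟨s σ x, h4 ▸ h2⟩ : A₀) = ⟨_, h2⟩ := Subtype.ext h4.symm
    rw [h5]
    change e (ψ ⟨_, h2⟩) = σ (e (ψ x))
    rw [h3, hτ', e.apply_symm_apply]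

end transfer

/-- The function `h` has at the place `(A₀, ψ₀)` a value in `k`, and the same value at every place
over the curve with ring of functions `R` of which `s` is the section over a completion of `F`. -/
def HasValOver {k : Type*} [Field k] {K : Type*} [Field K] [Algebra k K]
    {M : Type*} [Field M] [Algebra K M] [Algebra (AlgebraicClosure k) M]
    (s : Gal(AlgebraicClosure k/k) →* Gal(M/K)) (R : Subalgebra k K) (F : Type*) [Field F]
    [NumberField F] [Algebra F (AlgebraicClosure k)] (A₀ : ValuationSubring M)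
    (ψ₀ : A₀ →+* AlgebraicClosure k) (h : K) : Prop :=
  ∃ (c : k) (hh : algebraMap K M h ∈ A₀), ψ₀ ⟨algebraMap K M h, hh⟩ = algebraMap k _ c ∧
    ∀ (w : HeightOneSpectrum (𝓞 F))
      (ι : AlgebraicClosure k →ₐ[F] AlgebraicClosure (w.adicCompletion F))
      (A : ValuationSubring M) (φ : A →+* AlgebraicClosure (w.adicCompletion F)),
      IsPointOn s R (w.adicCompletion F) (ι : _ →+* AlgebraicClosure (w.adicCompletion F)) A φ →
      ∃ h' : algebraMap K M h ∈ A, φ ⟨algebraMap K M h, h'⟩ = ι (algebraMap k _ c)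

section nbhd

open Pool.Agent.Lib.MP_2f3286_ag.Koe

/-- an element of `M` fixed by the section over `F` which is algebraic over `F` is in `F` -/
theorem const_of_fixF {k : Type u} [Field k] [NumberField k] {K : Type*} [Field K]
    {M : Type*} [Field M] [Algebra K M] [Algebra (AlgebraicClosure k) M]
    (s : Gal(AlgebraicClosure k/k) →* Gal(M/K))
    (hsec : ∀ σ a, s σ (algebraMap (AlgebraicClosure k) M a) =
      algebraMap (AlgebraicClosure k) M (σ a))
    {F : Type v} [Field F] [NumberField F] [Algebra k F]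
    [Algebra F (AlgebraicClosure k)] [IsScalarTower k F (AlgebraicClosure k)]
    [Algebra F M] [IsScalarTower F (AlgebraicClosure k) M]
    (e : AlgebraicClosure F ≃ₐ[F] AlgebraicClosure k) {x : M} (hxs : x ∈ fixF s F)
    (hx : ∀ c : F, x ≠ algebraMap F M c) : Transcendental F x := by
  rintro ⟨p, hp, hp'⟩
  have h1 : (p.map (algebraMap F (AlgebraicClosure k))).eval₂
      (algebraMap (AlgebraicClosure k) M) x = 0 := by
    rw [eval₂_map, ← IsScalarTower.algebraMap_eq, ← aeval_def, hp']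
  obtain ⟨c, -, hc⟩ := root_mem (algebraMap (AlgebraicClosure k) M)
    (Polynomial.map_ne_zero hp) h1
  obtain ⟨c₀, hc₀⟩ := mem_of_fixed (k := F) (a := e.symm c) fun τ => by
    have h2 := hxs (resG e τ) (resG_fix e τ)
    rw [← hc, hsec] at h2
    have h3 := (algebraMap (AlgebraicClosure k) M).injective h2
    rw [resG_apply] at h3
    rw [← e.symm_apply_apply (τ (e.symm c)), h3]
  apply hx c₀
  rw [← hc, IsScalarTower.algebraMap_apply F (AlgebraicClosure k) M]
  congr 1
  have h4 := congrArg e hc₀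
  rw [e.apply_symm_apply, AlgEquiv.commutes] at h4
  exact h4.symm

/-- **Affine curves with a neighbourhood over `F` mapping to the curve.** -/
theorem affine_over {k : Type u} [Field k] [NumberField k]
    {F : Type v} [Field F] [NumberField F] [Algebra k F]
    [Algebra F (AlgebraicClosure k)] [IsScalarTower k F (AlgebraicClosure k)]
    (hinf : Fintype.card (InfinitePlace F) = 1)
    {f : F[X]} (hf : f.Monic) (hfs : f.Separable) {g : ℕ} (hg : 1 ≤ g)
    (hfd : f.natDegree = 2 * g + 1) {Q : Prop} (hS : SelTorR F f Q)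
    {K : Type*} [Field K] [Algebra k K] (htr : Algebra.trdeg k K = 1)
    (R : Subalgebra k K) (hfg : R.FG) (hRn : ∀ y : K, IsIntegral R y → y ∈ R)
    {M : Type*} [Field M] [Algebra K M] [IsGalois K M]
    [Algebra (AlgebraicClosure k) M] [Algebra k M]
    [IsScalarTower k K M] [IsScalarTower k (AlgebraicClosure k) M]
    [Algebra F M] [IsScalarTower F (AlgebraicClosure k) M]
    (hM : IsMaxUnramOver R K M (AlgebraicClosure k))
    (s : Gal(AlgebraicClosure k/k) →* Gal(M/K)) (hs : Continuous s)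
    (hsec : ∀ σ a, s σ (algebraMap (AlgebraicClosure k) M a) =
      algebraMap (AlgebraicClosure k) M (σ a))
    {x y : M} (hxs : x ∈ fixF s F) (hys : y ∈ fixF s F)
    (hx : ∀ c : F, x ≠ algebraMap F M c) (hxy : y ^ 2 = aeval x f)
    (hxR : IsIntegral R x) (hyR : IsIntegral R y) (hyR' : IsIntegral R y⁻¹)
    (hloc : ∀ w : HeightOneSpectrum (𝓞 F),
      ∃ (ι : AlgebraicClosure k →ₐ[F] AlgebraicClosure (w.adicCompletion F))
        (A : ValuationSubring M) (φ : A →+* AlgebraicClosure (w.adicCompletion F)),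
        IsPointOn s R (w.adicCompletion F)
          (ι : _ →+* AlgebraicClosure (w.adicCompletion F)) A φ)
    (hre : Q → ∀ τ : AlgebraicClosure k →+* ℂ,
      (∀ a : F, starRingEnd ℂ (τ (algebraMap F _ a)) = τ (algebraMap F _ a)) →
      ∃ (A : ValuationSubring M) (φ : A →+* ℂ), Sel.IsPlaceOf s ℝ τ A φ) :
    ∃ (A₀ : ValuationSubring M) (ψ₀ : A₀ →+* AlgebraicClosure k),
      (∀ r : R, algebraMap K M r ∈ A₀) ∧ Sel.IsSectionAt s A₀ ψ₀ ∧
      (∀ (A₁ : ValuationSubring M) (ψ₁ : A₁ →+* AlgebraicClosure k), Sel.IsSectionAt s A₁ ψ₁ →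
        (∀ (r : R) (h₀ : algebraMap K M r ∈ A₀), ∃ h₁ : algebraMap K M r ∈ A₁,
          algebraMap K M r ∈ unitRing R M ∨ ψ₁ ⟨_, h₁⟩ = ψ₀ ⟨_, h₀⟩) →
        A₁ = A₀ ∧ ∀ (a : A₁) (b : A₀), (a : M) = b → ψ₁ a = ψ₀ b) ∧
      (∀ h : K, algebraMap K M h ∈ unitRing R M → HasValOver s R F A₀ ψ₀ h) ∧
      ((∀ r : R, algebraMap K M r ∈ unitRing R M) → Sel.IsPlaceOf s k (RingHom.id _) A₀ ψ₀) ∧
      ∀ z ∈ Algebra.adjoin F ({x, y, y⁻¹} : Set M), z ∈ unitRing R M := by
  classical
  have hfin : FiniteDimensional k F := FiniteDimensional.right ℚ k F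
  have hFk : Algebra.IsAlgebraic F (AlgebraicClosure k) :=
    Algebra.IsAlgebraic.tower_top (K := k) F
  have : IsAlgClosure F (AlgebraicClosure k) := ⟨inferInstance, inferInstance⟩
  let e : AlgebraicClosure F ≃ₐ[F] AlgebraicClosure k :=
    IsAlgClosure.equiv F (AlgebraicClosure F) (AlgebraicClosure k)
  let iFb : Algebra (AlgebraicClosure F) M :=
    ((algebraMap (AlgebraicClosure k) M).comp (e : _ →+* AlgebraicClosure k)).toAlgebra
  have he : ∀ a : AlgebraicClosure F, algebraMap (AlgebraicClosure F) M a =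
      algebraMap (AlgebraicClosure k) M (e a) := fun _ => rfl
  have t3 : IsScalarTower k F M := IsScalarTower.of_algebraMap_eq fun a => by
    rw [IsScalarTower.algebraMap_apply F (AlgebraicClosure k) M,
      ← IsScalarTower.algebraMap_apply k F (AlgebraicClosure k),
      ← IsScalarTower.algebraMap_apply k (AlgebraicClosure k) M]
  have t4 : IsScalarTower F (AlgebraicClosure F) M := IsScalarTower.of_algebraMap_eq fun a => by
    rw [he, AlgEquiv.commutes, ← IsScalarTower.algebraMap_apply]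
  have hK0 : CharZero K := charZero_of_injective_algebraMap (algebraMap k K).injective
  have hKM : Algebra.IsAlgebraic K M := inferInstance
  -- transcendental functions
  have hxt : Transcendental F x := const_of_fixF s hsec e hxs hx
  have hxtk : Transcendental k x := fun h => hxt (h.tower_top F)
  obtain ⟨t, htR, ht⟩ : ∃ t : K, t ∈ R ∧ Transcendental k t := by
    by_contra hcon
    push Not at hcon
    apply hxtk
    have h1 : Algebra.IsAlgebraic k R := ⟨fun r => by
      have h2 := hcon r r.2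
      rw [Transcendental, not_not] at h2
      exact (isAlgebraic_algebraMap_iff (R := k) (S := R) (A := K) Subtype.val_injective).1 h2⟩
    have h3 : IsScalarTower k R M := IsScalarTower.of_algebraMap_eq fun a => by
      rw [IsScalarTower.algebraMap_apply k K M]; rfl
    exact IsAlgebraic.restrictScalars k (hxR.isAlgebraic)
  have hfrac : ∀ z : K, ∃ a b : R, (b : K) ≠ 0 ∧ z * b = a := by
    intro z
    obtain ⟨a, b, hab, hab'⟩ := frac_of_hom (Ω := K) R htr ⟨t, htR⟩ ht
      (algebraMap (integralClosure R K) K) z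
    refine ⟨⟨a, hRn _ a.2⟩, ⟨b, hRn _ b.2⟩, ?_, hab⟩
    rcases hab' with ha | hb
    · intro hb
      apply ha
      change (a : K) = 0
      rw [← hab, show (b : K) = 0 from hb, mul_zero]
    · exact hb
  -- the field `L₁`
  have hFL : ∀ a : F, algebraMap F M a ∈ fixF s F := by
    intro a σ hσ
    rw [IsScalarTower.algebraMap_apply F (AlgebraicClosure k) M, hsec, hσ]
  obtain ⟨Lx, hLx1, hLx2, hLx3, hLx4⟩ := exists_sub (k := k) (F := F) (fixF s F) hFL x hxs
  obtain ⟨Ly, hLy1, hLy2, hLy3, hLy4⟩ := exists_sub (k := k) (F := F) (fixF s F) hFL y hys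
  let L₁ : IntermediateField K M := Lx ⊔ Ly
  have hL₁L : L₁ ≤ fixF s F := sup_le hLx1 hLy1
  have hxL : x ∈ L₁ := (le_sup_left : Lx ≤ L₁) hLx2
  have hyL : y ∈ L₁ := (le_sup_right : Ly ≤ L₁) hLy2
  have hFL₁ : ∀ a : F, algebraMap F M a ∈ L₁ := fun a => (le_sup_left : Lx ≤ L₁) (hLx3 a)
  have hfd₁ : FiniteDimensional K L₁ := IntermediateField.finiteDimensional_sup Lx Ly
  let iFL : Algebra F L₁ := ((algebraMap F M).codRestrict L₁.toSubfield hFL₁).toAlgebra
  have t7 : IsScalarTower k L₁ M := IsScalarTower.of_algebraMap_eq fun a => rfl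
  have t5 : IsScalarTower F L₁ M := IsScalarTower.of_algebraMap_eq fun a => rfl
  have t6 : IsScalarTower k F L₁ := IsScalarTower.of_algebraMap_eq fun a => by
    apply (algebraMap L₁ M).injective
    rw [← IsScalarTower.algebraMap_apply k L₁ M, ← IsScalarTower.algebraMap_apply F L₁ M,
      ← IsScalarTower.algebraMap_apply k F M]
  have t8 : IsScalarTower R L₁ M := IsScalarTower.of_algebraMap_eq fun a => rfl
  have hL₁ : ∀ σ : Gal(AlgebraicClosure k/k),
      (∀ a : F, σ (algebraMap F _ a) = algebraMap F _ a) →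
      ∀ x : L₁, s σ (algebraMap L₁ M x) = algebraMap L₁ M x :=
    fun σ hσ x => hL₁L x.2 σ hσ
  have htr' : Algebra.trdeg F L₁ = 1 := trdeg_fix (k := k) (K := K) (Ω := M) htr
  -- the ring
  let R₁ : Subalgebra F L₁ :=
    { (integralClosure R L₁).toSubsemiring with
      algebraMap_mem' := fun a => by
        have h1 : IsIntegral k a := Algebra.IsIntegral.isIntegral a
        have h2 : IsIntegral k (algebraMap F L₁ a) := h1.algebraMap
        have h3 : IsScalarTower k R L₁ := IsScalarTower.of_algebraMap_eq fun a => by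
          rw [IsScalarTower.algebraMap_apply k K L₁]; rfl
        exact h2.tower_top }
  have hmem₁ : ∀ z : L₁, z ∈ R₁ ↔ IsIntegral R z := fun z => Iff.rfl
  let iRR : Algebra R R₁ := ((algebraMap R L₁).codRestrict R₁.toSubring fun r => by
    change IsIntegral R (algebraMap R L₁ r)
    exact isIntegral_algebraMap).toAlgebra
  have t9 : IsScalarTower R R₁ L₁ := IsScalarTower.of_algebraMap_eq fun r => rfl
  have t10 : IsScalarTower R R₁ M := IsScalarTower.of_algebraMap_eq fun r => rfl
  have hint₁ : Algebra.IsIntegral R R₁ := ⟨fun z => by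
    have h1 : IsIntegral R (z : L₁) := (hmem₁ _).1 z.2
    exact (isIntegral_algebraMap_iff (R := R) (A := R₁) (B := L₁) Subtype.val_injective).1 h1⟩
  have hRR : ∀ z : M, IsIntegral R₁ z ↔ IsIntegral R z := fun z =>
    ⟨fun h => isIntegral_trans z h, fun h => h.tower_top⟩
  have hunit : unitRing R₁ M = unitRing R M := by
    rw [unitRing, unitRing]
    congr 1
    ext z
    exact and_congr (hRR z) (hRR z⁻¹)
  have hR₁fg : R₁.FG := fg_closure (k := k) R hfg hRn hfrac R₁ hmem₁
  have hR₁n : ∀ z : L₁, IsIntegral R₁ z → z ∈ R₁ := fun z hz => isIntegral_trans z hz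
  have hLM : ∀ z : L₁, IsIntegral R (z : M) → z ∈ R₁ := fun z hz =>
    (isIntegral_algebraMap_iff (algebraMap L₁ M).injective).1 hz
  -- the maximal unramified extension
  have hKL : ∀ x : K, ∃ y : L₁, algebraMap L₁ M y = algebraMap K M x :=
    fun x => ⟨algebraMap K L₁ x, rfl⟩
  have hM₁' : IsMaxUnramOver (upR F L₁ M R) L₁ M (AlgebraicClosure F) :=
    maxUnram_trans (e : AlgebraicClosure F ≃+* AlgebraicClosure k) he hKL R hM
  have hM₁ : IsMaxUnramOver R₁ L₁ M (AlgebraicClosure F) := by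
    intro z
    rw [hM₁' z]
    refine forall_congr' fun V => imp_congr ⟨fun h => ⟨h.1, fun r => ?_⟩,
      fun h => ⟨h.1, fun r => ?_⟩⟩ Iff.rfl
    · -- the integral closure is in `V`
      have h3 : ∀ r : R, algebraMap R M r ∈ V.comap (algebraMap M (AlgebraicClosure M)) := by
        intro r
        have h4 := h.2 ⟨algebraMap K L₁ r, Algebra.subset_adjoin ⟨r, rfl⟩⟩
        rw [alg_gen] at h4
        exact h4
      rw [alg_gen]
      have h5 : IsIntegral R ((r : L₁) : M) := ((hmem₁ _).1 r.2).algebraMap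
      exact PTAux.mem_of_isIntegral (R := R) h3 h5
    · rw [alg_gen]
      refine upR_mem (V.toSubring.comap (algebraMap M (AlgebraicClosure M))) (fun a => ?_)
        (fun r => ?_) r
      · change algebraMap M (AlgebraicClosure M) (algebraMap F M a) ∈ V
        have h3 := h.1.1 (algebraMap F (AlgebraicClosure F) a)
        rw [IsScalarTower.algebraMap_apply (AlgebraicClosure F) M (AlgebraicClosure M),
          ← IsScalarTower.algebraMap_apply F (AlgebraicClosure F) M] at h3
        exact h3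
      · change algebraMap M (AlgebraicClosure M) (algebraMap K M r) ∈ V
        have h3 := h.2 (algebraMap R R₁ r)
        rw [alg_gen] at h3
        exact h3
  -- the section over `F`
  have hs₁ := resS_continuous s e hL₁ hs
  have hsec₁ : ∀ (σ : Gal(AlgebraicClosure F/F)) (a : AlgebraicClosure F),
      resS s e hL₁ σ (algebraMap (AlgebraicClosure F) M a) =
        algebraMap (AlgebraicClosure F) M (σ a) := by
    intro σ a
    rw [resS_apply, he, hsec, resG_apply, e.symm_apply_apply, he]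
  have hRA₁ : ∀ {A : ValuationSubring M}, (∀ r : R, algebraMap K M r ∈ A) →
      ∀ r : R₁, algebraMap L₁ M r ∈ A := by
    intro A h r
    refine PTAux.mem_of_isIntegral (R := R) h ?_
    exact ((hmem₁ _).1 r.2).algebraMap
  have hupw : ∀ (w : HeightOneSpectrum (𝓞 F))
      (ι : AlgebraicClosure k →ₐ[F] AlgebraicClosure (w.adicCompletion F))
      (A : ValuationSubring M) (φ : A →+* AlgebraicClosure (w.adicCompletion F)),
      IsPointOn s R (w.adicCompletion F) (ι : _ →+* AlgebraicClosure (w.adicCompletion F)) A φ →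
      IsPointOn (resS s e hL₁) R₁ (w.adicCompletion F)
        ((ι.comp (e : AlgebraicClosure F →ₐ[F] AlgebraicClosure k) :
          AlgebraicClosure F →ₐ[F] AlgebraicClosure (w.adicCompletion F)) :
          _ →+* AlgebraicClosure (w.adicCompletion F)) A φ :=
    fun w ι A φ h => ⟨placeOf_res e he s hL₁ h.1, hRA₁ h.2⟩
  obtain ⟨A₀, ψ, h1, h2, -, h4, -⟩ := uni_of_selTorR hinf hf hfs hg hfd hS htr' (x := ⟨x, hxL⟩)
    (y := ⟨y, hyL⟩) (fun c hc => hx c (congrArg (algebraMap L₁ M) hc))
    (by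
      apply (algebraMap L₁ M).injective
      rw [map_pow, ← aeval_algebraMap_apply]
      exact hxy) R₁ (resS s e hL₁) hs₁ hsec₁
    (Or.inr ⟨hR₁fg, hR₁n, hLM _ hxR, hLM _ hyR, hLM _ hyR', hM₁, fun w => by
      obtain ⟨ι, A, φ, h⟩ := hloc w
      exact ⟨_, A, φ, hupw w ι A φ h⟩, fun hQ τ hτ => by
      obtain ⟨A, φ, h⟩ := hre hQ (τ.comp (e.symm : AlgebraicClosure k →+* AlgebraicClosure F))
        (fun a => by
          change starRingEnd ℂ (τ (e.symm (algebraMap F _ a))) = τ (e.symm (algebraMap F _ a))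
          rw [AlgEquiv.commutes]
          exact hτ a)
      have h' : Sel.IsPlaceOf (resS s e hL₁) ℝ
          ((τ.comp (e.symm : AlgebraicClosure k →+* AlgebraicClosure F)).comp
            (e : AlgebraicClosure F →+* AlgebraicClosure k)) A φ :=
        placeOf_res e he s hL₁ h
      have h5 : ((τ.comp (e.symm : AlgebraicClosure k →+* AlgebraicClosure F)).comp
          (e : AlgebraicClosure F →+* AlgebraicClosure k)) = τ := by
        ext a
        change τ (e.symm (e a)) = τ a
        rw [e.symm_apply_apply]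
      rw [h5] at h'
      exact ⟨A, φ, h'⟩⟩)
  obtain ⟨h5, Δ, h6, h7⟩ := up_section s e he hL₁ h2
  have hRA : ∀ r : R, algebraMap K M r ∈ A₀ := fun r => h1 (algebraMap R R₁ r)
  obtain ⟨g1, g2, g3, g4⟩ := affine_end htr R hfg hRn t htR ht hM s hs hsec hRA h5 Δ h6 h7
  refine ⟨A₀, _, hRA, g1, g2, fun h hh => ?_, g4, ?_⟩
  · have hR : h ∈ R := by
      refine hRn _ ?_
      have h8 : unitRing R M ≤ (integralClosure R M).toSubring := by
        rw [unitRing, Subring.closure_le]
        intro b hb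
        exact hb.1
      have h9 : IsIntegral R (algebraMap K M h) := h8 hh
      exact (isIntegral_algebraMap_iff (algebraMap K M).injective).mp h9
    obtain ⟨c, hc⟩ := g3 ⟨h, hR⟩ hh
    obtain ⟨c', hh', hc', hv⟩ := h4 (algebraMap K L₁ h) (hRA ⟨h, hR⟩)
      (Or.inr (Or.inr (by rw [hunit]; exact hh)))
    refine ⟨c, hRA ⟨h, hR⟩, hc, fun w ι A φ hφ => ?_⟩
    obtain ⟨h8, h9⟩ := hv w _ A φ (hupw w ι A φ hφ)
    refine ⟨h8, h9.trans ?_⟩
    change ι (e (algebraMap F _ c')) = ι (algebraMap k _ c)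
    rw [← hc', ← hc]
    rfl
  · have hx1 : (⟨x, hxL⟩ : L₁) ∈ R₁ := hLM _ hxR
    have hy1 : (⟨y, hyL⟩ : L₁) ∈ R₁ := hLM _ hyR
    have hy1' : (⟨y, hyL⟩ : L₁)⁻¹ ∈ R₁ := hLM _ hyR'
    have hy0 : (⟨y, hyL⟩ : L₁) ≠ 0 := by
      intro h0
      have h1 : y = 0 := congrArg (algebraMap L₁ M) h0
      rw [h1, zero_pow two_ne_zero] at hxy
      exact hxt ⟨f, hf.ne_zero, hxy.symm⟩
    have hxy1 : (⟨y, hyL⟩ : L₁) ^ 2 = aeval (⟨x, hxL⟩ : L₁) f := by
      apply (algebraMap L₁ M).injective
      rw [map_pow, ← aeval_algebraMap_apply]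
      exact hxy
    have key := fun (r : L₁) hr => adjoin_mem_units (k := F) (K := L₁) (M := M) (by omega) hxy1 hy0
      R₁ hx1 hy1 hy1' (r := r) hr
    have key' : ∀ r : L₁, r ∈ Algebra.adjoin F {(⟨x, hxL⟩ : L₁), ⟨y, hyL⟩, (⟨y, hyL⟩ : L₁)⁻¹} →
        (r : M) ∈ unitRing R M := by
      intro r hr
      rw [← hunit]
      exact key r hr
    intro z hz
    induction hz using Algebra.adjoin_induction with
    | mem z hz =>
      rcases hz with rfl | rfl | rfl
      · exact key' ⟨_, hxL⟩ (Algebra.subset_adjoin (by simp))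
      · exact key' ⟨_, hyL⟩ (Algebra.subset_adjoin (by simp))
      · exact key' (⟨_, hyL⟩⁻¹) (Algebra.subset_adjoin (by simp))
    | algebraMap c => exact key' (algebraMap F L₁ c) (Subalgebra.algebraMap_mem _ _)
    | add a b _ _ ha hb => exact add_mem ha hb
    | mul a b _ _ ha hb => exact mul_mem ha hb

end nbhd

section nbhd2

open Pool.Agent.Lib.MP_2f3286_ag.Koe

/-- the local places over a completion of `F` of a section that comes from a place -/
theorem local_unique_over {k : Type u} [Field k] [NumberField k]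
    {F : Type v} [Field F] [NumberField F] [Algebra k F]
    [Algebra F (AlgebraicClosure k)] [IsScalarTower k F (AlgebraicClosure k)]
    {K : Type*} [Field K] [Algebra k K] (htr : Algebra.trdeg k K = 1)
    {M : Type*} [Field M] [Algebra K M] [IsGalois K M]
    [Algebra (AlgebraicClosure k) M] [Algebra k M]
    [IsScalarTower k K M] [IsScalarTower k (AlgebraicClosure k) M]
    [Algebra F M] [IsScalarTower F (AlgebraicClosure k) M] [IsAlgClosed M]
    (s : Gal(AlgebraicClosure k/k) →* Gal(M/K)) (hs : Continuous s)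
    (hsec : ∀ σ a, s σ (algebraMap (AlgebraicClosure k) M a) =
      algebraMap (AlgebraicClosure k) M (σ a))
    {x : M} (hxs : x ∈ fixF s F) (hx : ∀ c : F, x ≠ algebraMap F M c)
    {A₀ : ValuationSubring M} {ψ₀ : A₀ →+* AlgebraicClosure k}
    (h₀ : Sel.IsPlaceOf s k (RingHom.id _) A₀ ψ₀)
    (w : HeightOneSpectrum (𝓞 F))
    (ι : AlgebraicClosure k →ₐ[F] AlgebraicClosure (w.adicCompletion F))
    (A : ValuationSubring M) (φ : A →+* AlgebraicClosure (w.adicCompletion F))
    (h : Sel.IsPlaceOf s (w.adicCompletion F)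
      (ι : _ →+* AlgebraicClosure (w.adicCompletion F)) A φ) :
    A = A₀ ∧ ∀ (a : A) (b : A₀), (a : M) = b → φ a = ι (ψ₀ b) := by
  have hfin : FiniteDimensional k F := FiniteDimensional.right ℚ k F
  have hFk : Algebra.IsAlgebraic F (AlgebraicClosure k) :=
    Algebra.IsAlgebraic.tower_top (K := k) F
  have : IsAlgClosure F (AlgebraicClosure k) := ⟨inferInstance, inferInstance⟩
  let e : AlgebraicClosure F ≃ₐ[F] AlgebraicClosure k :=
    IsAlgClosure.equiv F (AlgebraicClosure F) (AlgebraicClosure k)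
  let iFb : Algebra (AlgebraicClosure F) M :=
    ((algebraMap (AlgebraicClosure k) M).comp (e : _ →+* AlgebraicClosure k)).toAlgebra
  have he : ∀ a : AlgebraicClosure F, algebraMap (AlgebraicClosure F) M a =
      algebraMap (AlgebraicClosure k) M (e a) := fun _ => rfl
  have t1 : IsScalarTower F (AlgebraicClosure F) M := IsScalarTower.of_algebraMap_eq fun a => by
    rw [he, AlgEquiv.commutes, ← IsScalarTower.algebraMap_apply]
  have t3 : IsScalarTower k F M := IsScalarTower.of_algebraMap_eq fun a => by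
    rw [IsScalarTower.algebraMap_apply F (AlgebraicClosure k) M,
      ← IsScalarTower.algebraMap_apply k F (AlgebraicClosure k),
      ← IsScalarTower.algebraMap_apply k (AlgebraicClosure k) M]
  let iFL : Algebra F (fixF s F) := (toFixF s F hsec).toAlgebra
  have t2 : IsScalarTower F (fixF s F) M := IsScalarTower.of_algebraMap_eq fun a => by
    change algebraMap F M a = algebraMap (AlgebraicClosure k) M (algebraMap F _ a)
    rw [← IsScalarTower.algebraMap_apply]
  have hLM : Algebra.IsAlgebraic (fixF s F) M :=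
    Algebra.IsAlgebraic.tower_top (K := K) (fixF s F)
  have hcl : IsAlgClosure (fixF s F) M := ⟨inferInstance, hLM⟩
  have htr' : Algebra.trdeg F (fixF s F) = 1 := trdeg_fix (k := k) (K := K) (Ω := M) htr
  have hL : ∀ σ : Gal(AlgebraicClosure k/k),
      (∀ a : F, σ (algebraMap F _ a) = algebraMap F _ a) →
      ∀ x : fixF s F, s σ (algebraMap (fixF s F) M x) = algebraMap (fixF s F) M x :=
    fun σ hσ x => x.2 σ hσ
  have hs' := resS_continuous s e hL hs
  have hsec' : ∀ (σ : Gal(AlgebraicClosure F/F)) (a : AlgebraicClosure F),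
      resS s e hL σ (algebraMap (AlgebraicClosure F) M a) =
        algebraMap (AlgebraicClosure F) M (σ a) := by
    intro σ a
    rw [resS_apply, he, hsec, resG_apply, e.symm_apply_apply, he]
  have h₀' : Sel.IsPlaceOf (resS s e hL) F (RingHom.id _) A₀
      ((e.symm : AlgebraicClosure k →+* AlgebraicClosure F).comp ψ₀) := by
    refine ⟨fun b => ?_, fun z hz => ?_, fun σ τ hστ z => ?_⟩
    · obtain ⟨h1, h2⟩ := h₀.1 (e b)
      refine ⟨h1, ?_⟩
      change e.symm (ψ₀ ⟨algebraMap (AlgebraicClosure k) M (e b), h1⟩) = b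
      rw [h2]
      exact e.symm_apply_apply b
    · refine h₀.2.1 z fun h0 => hz ?_
      change e.symm (ψ₀ z) = 0
      rw [h0, map_zero]
    · obtain ⟨h1, h2⟩ := h₀.2.2 (resG e σ) (resG e σ) (fun _ => rfl) z
      refine ⟨h1, ?_⟩
      change e.symm (ψ₀ ⟨s (resG e σ) z, h1⟩) = τ (e.symm (ψ₀ z))
      rw [h2, resG_apply, e.symm_apply_apply]
      exact hστ _
  obtain ⟨h1, h2⟩ := PD.local_unique htr' (⟨x, hxs⟩ : fixF s F) (fun c hc => hx c (by
    have h3 := congrArg (algebraMap (fixF s F) M) hc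
    rw [← IsScalarTower.algebraMap_apply F (fixF s F) M] at h3
    exact h3)) (resS s e hL) hs' hsec' h₀' w
    (ι.comp (e : AlgebraicClosure F →ₐ[F] AlgebraicClosure k)) A φ (placeOf_res e he s hL h)
  refine ⟨h1, fun a b hab => (h2 a b hab).trans ?_⟩
  change ι (e (e.symm (ψ₀ b))) = ι (ψ₀ b)
  rw [e.apply_symm_apply]

/-- `h` is in the set `D` of the functions whose values are controlled. -/
def InD {k K : Type*} [Field k] [Field K] [Algebra k K] (R : Subalgebra k K) (F : Type*) [Field F]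
    {M : Type*} [Field M] [Algebra K M] [Algebra F M] (x y : M) (h : K) : Prop :=
  IsAlgClosed M ∨ algebraMap K M h ∈ Algebra.adjoin F {x, y, y⁻¹} ∨
    algebraMap K M h ∈ unitRing R M

/-- **The theorem, affine curves and function fields with a neighbourhood over `F` mapping to the
curve.** -/
theorem nbhd_of_selTor {k : Type u} [Field k] [NumberField k]
    {F : Type v} [Field F] [NumberField F] [Algebra k F]
    [Algebra F (AlgebraicClosure k)] [IsScalarTower k F (AlgebraicClosure k)]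
    (hinf : Fintype.card (InfinitePlace F) = 1)
    {f : F[X]} (hf : f.Monic) (hfs : f.Separable) {g : ℕ} (hg : 1 ≤ g)
    (hfd : f.natDegree = 2 * g + 1) {Q : Prop} (hS : SelTorR F f Q)
    {K : Type*} [Field K] [Algebra k K] (htr : Algebra.trdeg k K = 1)
    (R : Subalgebra k K)
    {M : Type*} [Field M] [Algebra K M] [IsGalois K M]
    [Algebra (AlgebraicClosure k) M] [Algebra k M]
    [IsScalarTower k K M] [IsScalarTower k (AlgebraicClosure k) M]
    [Algebra F M] [IsScalarTower F (AlgebraicClosure k) M]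
    (s : Gal(AlgebraicClosure k/k) →* Gal(M/K)) (hs : Continuous s)
    (hsec : ∀ σ a, s σ (algebraMap (AlgebraicClosure k) M a) =
      algebraMap (AlgebraicClosure k) M (σ a))
    {x y : M} (hfix : ∀ σ : Gal(AlgebraicClosure k/k),
      (∀ a : F, σ (algebraMap F _ a) = algebraMap F _ a) → s σ x = x ∧ s σ y = y)
    (hx : ∀ c : F, x ≠ algebraMap F M c) (hxy : y ^ 2 = aeval x f)
    (hM : (IsAlgClosed M ∧ R = ⊥) ∨
      (R.FG ∧ (∀ h : K, IsIntegral R h → h ∈ R) ∧ IsIntegral R x ∧ IsIntegral R y ∧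
        IsIntegral R y⁻¹ ∧ IsMaxUnramOver R K M (AlgebraicClosure k) ∧
        (∀ w : HeightOneSpectrum (𝓞 F),
          ∃ (ι : AlgebraicClosure k →ₐ[F] AlgebraicClosure (w.adicCompletion F))
            (A : ValuationSubring M) (φ : A →+* AlgebraicClosure (w.adicCompletion F)),
            IsPointOn s R (w.adicCompletion F)
              (ι : _ →+* AlgebraicClosure (w.adicCompletion F)) A φ) ∧
        (Q → ∀ τ : AlgebraicClosure k →+* ℂ,
          (∀ a : F, starRingEnd ℂ (τ (algebraMap F _ a)) = τ (algebraMap F _ a)) →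
          ∃ (A : ValuationSubring M) (φ : A →+* ℂ), Sel.IsPlaceOf s ℝ τ A φ))) :
    ∃ (A₀ : ValuationSubring M) (ψ₀ : A₀ →+* AlgebraicClosure k),
      (∀ r : R, algebraMap K M r ∈ A₀) ∧ Sel.IsSectionAt s A₀ ψ₀ ∧
      (∀ (A₁ : ValuationSubring M) (ψ₁ : A₁ →+* AlgebraicClosure k), Sel.IsSectionAt s A₁ ψ₁ →
        (∀ (r : R) (h₀ : algebraMap K M r ∈ A₀), ∃ h₁ : algebraMap K M r ∈ A₁,
          InD R F x y r ∨ ψ₁ ⟨_, h₁⟩ = ψ₀ ⟨_, h₀⟩) →
        A₁ = A₀ ∧ ∀ (a : A₁) (b : A₀), (a : M) = b → ψ₁ a = ψ₀ b) ∧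
      (∀ h : K, algebraMap K M h ∈ A₀ → InD R F x y h → HasValOver s R F A₀ ψ₀ h) ∧
      ((∀ r : R, InD R F x y r) → Sel.IsPlaceOf s k (RingHom.id _) A₀ ψ₀) := by
  classical
  have hxs : x ∈ fixF s F := fun σ hσ => (hfix σ hσ).1
  have hys : y ∈ fixF s F := fun σ hσ => (hfix σ hσ).2
  suffices main : ∃ (A₀ : ValuationSubring M) (ψ₀ : A₀ →+* AlgebraicClosure k),
      (∀ r : R, algebraMap K M r ∈ A₀) ∧ Sel.IsSectionAt s A₀ ψ₀ ∧
      (¬ IsAlgClosed M →
        (∀ (A₁ : ValuationSubring M) (ψ₁ : A₁ →+* AlgebraicClosure k), Sel.IsSectionAt s A₁ ψ₁ →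
          (∀ (r : R) (h₀ : algebraMap K M r ∈ A₀), ∃ h₁ : algebraMap K M r ∈ A₁,
            algebraMap K M r ∈ unitRing R M ∨ ψ₁ ⟨_, h₁⟩ = ψ₀ ⟨_, h₀⟩) →
          A₁ = A₀ ∧ ∀ (a : A₁) (b : A₀), (a : M) = b → ψ₁ a = ψ₀ b) ∧
        (∀ h : K, algebraMap K M h ∈ unitRing R M → HasValOver s R F A₀ ψ₀ h) ∧
        ((∀ r : R, algebraMap K M r ∈ unitRing R M) →
          Sel.IsPlaceOf s k (RingHom.id _) A₀ ψ₀) ∧
        ∀ z ∈ Algebra.adjoin F ({x, y, y⁻¹} : Set M), z ∈ unitRing R M) by
    obtain ⟨A₀, ψ₀, h1, h2, h3⟩ := main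
    refine ⟨A₀, ψ₀, h1, h2, ?_⟩
    by_cases hcl : IsAlgClosed M
    · have h4 := SNeigh.place_of_sectionAt s hs hsec h2
      refine ⟨fun A₁ ψ₁ h _ => MP_2f3286_bir.place_unique s hs h4
        (SNeigh.place_of_sectionAt s hs hsec h), fun h hA _ => ?_, fun _ => h4⟩
      obtain ⟨c, hc⟩ := mem_of_fixed (k := k) (a := ψ₀ ⟨_, hA⟩) fun σ =>
        (SNeigh.sectionAt_of_place h4).1 σ h hA
      refine ⟨c, hA, hc.symm, fun w ι A φ hφ => ?_⟩
      obtain ⟨h5, h6⟩ := local_unique_over htr s hs hsec hxs hx h4 w ι A φ hφ.1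
      subst h5
      exact ⟨hA, by rw [h6 ⟨_, hA⟩ ⟨_, hA⟩ rfl, hc]⟩
    · obtain ⟨h4, h5, h6, h7⟩ := h3 hcl
      have hD : ∀ h : K, InD R F x y h → algebraMap K M h ∈ unitRing R M := by
        rintro h (h8 | h8 | h8)
        · exact absurd h8 hcl
        · exact h7 _ h8
        · exact h8
      exact ⟨fun A₁ ψ₁ h h' => h4 A₁ ψ₁ h fun r h₀ => (h' r h₀).imp fun h₁ =>
        Or.imp_left (hD r), fun h _ hh => h5 h (hD h hh), fun h => h6 fun r => hD r (h r)⟩
  rcases hM with ⟨hcl, rfl⟩ | ⟨hfg, hRn, hxR, hyR, hyR', hM, hloc, hre⟩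
  · -- function fields
    have hfin : FiniteDimensional k F := FiniteDimensional.right ℚ k F
    have hFk : Algebra.IsAlgebraic F (AlgebraicClosure k) :=
      Algebra.IsAlgebraic.tower_top (K := k) F
    have : IsAlgClosure F (AlgebraicClosure k) := ⟨inferInstance, inferInstance⟩
    let e : AlgebraicClosure F ≃ₐ[F] AlgebraicClosure k :=
      IsAlgClosure.equiv F (AlgebraicClosure F) (AlgebraicClosure k)
    let iFb : Algebra (AlgebraicClosure F) M :=
      ((algebraMap (AlgebraicClosure k) M).comp (e : _ →+* AlgebraicClosure k)).toAlgebra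
    have he : ∀ a : AlgebraicClosure F, algebraMap (AlgebraicClosure F) M a =
        algebraMap (AlgebraicClosure k) M (e a) := fun _ => rfl
    have t1 : IsScalarTower F (AlgebraicClosure F) M := IsScalarTower.of_algebraMap_eq fun a => by
      rw [he, AlgEquiv.commutes, ← IsScalarTower.algebraMap_apply]
    have t3 : IsScalarTower k F M := IsScalarTower.of_algebraMap_eq fun a => by
      rw [IsScalarTower.algebraMap_apply F (AlgebraicClosure k) M,
        ← IsScalarTower.algebraMap_apply k F (AlgebraicClosure k),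
        ← IsScalarTower.algebraMap_apply k (AlgebraicClosure k) M]
    let iFL : Algebra F (fixF s F) := (toFixF s F hsec).toAlgebra
    have t2 : IsScalarTower F (fixF s F) M := IsScalarTower.of_algebraMap_eq fun a => by
      change algebraMap F M a = algebraMap (AlgebraicClosure k) M (algebraMap F _ a)
      rw [← IsScalarTower.algebraMap_apply]
    have hLM : Algebra.IsAlgebraic (fixF s F) M :=
      Algebra.IsAlgebraic.tower_top (K := K) (fixF s F)
    have hclo : IsAlgClosure (fixF s F) M := ⟨hcl, hLM⟩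
    have htr' : Algebra.trdeg F (fixF s F) = 1 := trdeg_fix (k := k) (K := K) (Ω := M) htr
    have hL : ∀ σ : Gal(AlgebraicClosure k/k),
        (∀ a : F, σ (algebraMap F _ a) = algebraMap F _ a) →
        ∀ x : fixF s F, s σ (algebraMap (fixF s F) M x) = algebraMap (fixF s F) M x :=
      fun σ hσ x => x.2 σ hσ
    have hs' := resS_continuous s e hL hs
    have hsec' : ∀ (σ : Gal(AlgebraicClosure F/F)) (a : AlgebraicClosure F),
        resS s e hL σ (algebraMap (AlgebraicClosure F) M a) =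
          algebraMap (AlgebraicClosure F) M (σ a) := by
      intro σ a
      rw [resS_apply, he, hsec, resG_apply, e.symm_apply_apply, he]
    obtain ⟨A₀, ψ, h1, -, -⟩ := of_selTor (K := fixF s F) (Ω := M) hinf htr' (resS s e hL) hs' hsec'
      hf hfs hg hfd hS.selTor (x := ⟨x, hxs⟩) (y := ⟨y, hys⟩) (by
        apply (algebraMap (fixF s F) M).injective
        rw [map_pow, ← aeval_algebraMap_apply]
        exact hxy) (fun c hc => hx c (by
        have h3 := congrArg (algebraMap (fixF s F) M) hc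
        rw [← IsScalarTower.algebraMap_apply F (fixF s F) M] at h3
        exact h3))
    have h4 : Sel.IsPlaceOf s k (RingHom.id _) A₀ ((e : _ →+* AlgebraicClosure k).comp ψ) :=
      descend s hs hsec F (placeOn_of s e hL he h1)
    refine ⟨A₀, _, ?_, (SNeigh.sectionAt_of_place h4).2, fun h => absurd hcl h⟩
    rintro ⟨r, hr⟩
    obtain ⟨a, rfl⟩ := Algebra.mem_bot.1 hr
    change algebraMap K M (algebraMap k K a) ∈ A₀
    rw [← IsScalarTower.algebraMap_apply k K M, IsScalarTower.algebraMap_apply k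
      (AlgebraicClosure k) M]
    exact (h4.1 _).1
  · obtain ⟨A₀, ψ₀, h1, h2, h3⟩ := affine_over hinf hf hfs hg hfd hS htr R hfg hRn hM s hs hsec hxs
      hys hx hxy hxR hyR hyR' hloc hre
    exact ⟨A₀, ψ₀, h1, h2, fun _ => h3⟩

end nbhd2

end Pool.Agent.Lib.MP_2f3286_ag.HYP
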