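import Pool.Agent.Lib.MP_2f3286_ag.HYP.Pls

/-!
# The cocycle of a half   (module Coc, 75 minutes)

PROOF. `sact` is an action: `sact (σ τ) = sact σ ∘ sact τ` (`J.map_map`). `exists_cocycle`: `2 (sact (s σ) E' - E') = 0`, so it is `jconst f (c σ)` for a `c σ` with `2 c σ = 0` (`two_torsion_lift` for `algebraMap kb Ω`); choose `c σ`.
`jconst` is injective (`J.map_injective`); `jconst (gact f σ z) = sact (s σ) (jconst z)` (`J.map_map` and `hsec`). Cocycle: `jconst` of both sides: `sact (s σ)(sact (s τ) E' - E') + (sact (s σ) E' - E')`. Locally constant: let `E' = clm m` (`exists_clm`);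
the coordinates of the points of `m` are finitely many elements of `Ω`, algebraic over `K`; the subgroup `U` of the `σ` with `s σ` fixing them is open (`hs` continuous, the fixing subgroup of a finite extension is open in `Gal(Ω/K)`:
`IntermediateField.fixingSubgroup_isOpen`, `FiniteDimensional K (adjoin ..)`, see `Koe`/`Defs` for the same argument). For `u` in `U`: `sact (s (σ u)) E' = sact (s σ) E'`; so `c` is constant on the cosets `σ U`
(`IsLocallyConstant.iff_exists_open`).
-/

open Polynomial IsDedekindDomain NumberField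
open Pool.Agent.Lib.MP_2f3286_bir (IsPlaceOf)

noncomputable section

namespace Pool.Agent.Lib.MP_2f3286_ag.HYP

variable {k kb K Ω : Type*} [Field k] [Field kb] [Algebra k kb] [Field K] [Field Ω] [Algebra K Ω]
  [Algebra kb Ω] [Algebra k Ω] [IsScalarTower k kb Ω] [Algebra k K] [IsScalarTower k K Ω]
  (f : k[X]) (s : Gal(kb/k) →* Gal(Ω/K))

omit [Algebra kb Ω] [IsScalarTower k kb Ω] in
theorem sact_mul (σ τ : Gal(Ω/K)) (z : J (f.map (algebraMap k Ω))) :
    sact f (σ * τ) z = sact f σ (sact f τ z) := by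
  unfold sact
  rw [J.map_map (τ : Ω →+* Ω) (map_fixΩ f τ) (σ : Ω →+* Ω) (map_fixΩ f σ)
    (map_fixΩ f (σ * τ)) z]
  rfl

omit [Algebra kb Ω] [IsScalarTower k kb Ω] in
theorem sact_one (z : J (f.map (algebraMap k Ω))) : sact f (1 : Gal(Ω/K)) z = z := by
  unfold sact
  exact J.map_id _ z

theorem jconst_gact (hsec : ∀ σ a, s σ (algebraMap kb Ω a) = algebraMap kb Ω (σ a))
    (σ : Gal(kb/k)) (z : J (f.map (algebraMap k kb))) :
    jconst f (gact f σ z) = sact f (s σ) (jconst f z) := by
  unfold jconst gact sact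
  have hc : (f.map (algebraMap k kb)).map ((algebraMap kb Ω).comp (σ : kb →+* kb)) =
      f.map (algebraMap k Ω) := by
    rw [← Polynomial.map_map, map_fix, map_const]
  have hc' : (f.map (algebraMap k kb)).map ((s σ : Ω →+* Ω).comp (algebraMap kb Ω)) =
      f.map (algebraMap k Ω) := by
    rw [← Polynomial.map_map, map_const, map_fixΩ]
  rw [J.map_map _ _ _ _ hc, J.map_map _ _ _ _ hc']
  congr 2
  ext a
  exact (hsec σ a).symm

theorem jconst_injective [IsAlgClosed kb] [IsAlgClosed Ω] {g : ℕ}
    (h : Good g (f.map (algebraMap k kb))) :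
    Function.Injective (jconst f : J (f.map (algebraMap k kb)) →+ J (f.map (algebraMap k Ω))) :=
  J.map_injective h _ _

theorem exists_cocycle [IsAlgClosed kb] [IsAlgClosed Ω] [Algebra.IsAlgebraic K Ω] {g : ℕ}
    (h : Good g (f.map (algebraMap k kb))) (hs : Continuous s)
    (hsec : ∀ σ a, s σ (algebraMap kb Ω a) = algebraMap kb Ω (σ a))
    (E' : J (f.map (algebraMap k Ω))) (hE : ∀ σ, sact f (s σ) (2 • E') = 2 • E') :
    ∃ c : Gal(kb/k) → J (f.map (algebraMap k kb)),
      IsLocallyConstant c ∧ (∀ σ, 2 • c σ = 0) ∧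
      (∀ σ τ, c (σ * τ) = c σ + gact f σ (c τ)) ∧
      ∀ σ, jconst f (c σ) = sact f (s σ) E' - E' := by
  classical
  have hΩ : Good g (f.map (algebraMap k Ω)) := good_map h (algebraMap kb Ω) (map_const f)
  have h1 : ∀ σ, ∃ w : J (f.map (algebraMap k kb)), (2 : ℕ) • w = 0 ∧
      jconst f w = sact f (s σ) E' - E' := by
    intro σ
    refine two_torsion_lift h (algebraMap kb Ω) (map_const f) ?_
    rw [nsmul_sub, ← map_nsmul, hE, sub_self]
  choose c hc2 hcj using h1
  have hinj := jconst_injective (Ω := Ω) f h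
  refine ⟨c, ?_, hc2, ?_, hcj⟩
  · rw [IsLocallyConstant.iff_exists_open]
    obtain ⟨m, hm⟩ := exists_clm hΩ E'
    obtain ⟨S, hS⟩ : ∃ S : Finset Ω, S = (m.map Pt.x + m.map Pt.y).toFinset := ⟨_, rfl⟩
    have hfin : FiniteDimensional K (IntermediateField.adjoin K (S : Set Ω)) :=
      IntermediateField.finiteDimensional_adjoin fun x _ => Algebra.IsIntegral.isIntegral x
    have hopen := IntermediateField.fixingSubgroup_isOpen (IntermediateField.adjoin K (S : Set Ω))
    have hfix : ∀ τ ∈ (IntermediateField.adjoin K (S : Set Ω)).fixingSubgroup,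
        sact f τ E' = E' := by
      intro τ hτ
      have h2 : ∀ a ∈ S, τ a = a := by
        intro a ha
        exact (IntermediateField.mem_fixingSubgroup_iff _ _).mp hτ a
          (IntermediateField.subset_adjoin K _ ha)
      rw [hm]
      unfold sact
      rw [J.map_clm']
      congr 1
      conv_rhs => rw [← Multiset.map_id m]
      refine Multiset.map_congr rfl fun P hP => ?_
      apply Pt.ext
      · refine h2 P.x ?_
        rw [hS, Multiset.mem_toFinset, Multiset.mem_add]
        exact Or.inl (Multiset.mem_map_of_mem _ hP)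
      · refine h2 P.y ?_
        rw [hS, Multiset.mem_toFinset, Multiset.mem_add]
        exact Or.inr (Multiset.mem_map_of_mem _ hP)
    intro σ
    refine ⟨{σ' | s (σ⁻¹ * σ') ∈ (IntermediateField.adjoin K (S : Set Ω)).fixingSubgroup},
      ?_, ?_, ?_⟩
    · exact hopen.preimage (hs.comp (continuous_const.mul continuous_id))
    · rw [Set.mem_ofPred_eq, inv_mul_cancel, map_one]
      exact one_mem _
    · intro σ' hσ'
      rw [Set.mem_ofPred_eq] at hσ'
      apply hinj
      rw [hcj, hcj]
      have h3 : σ' = σ * (σ⁻¹ * σ') := by rw [mul_inv_cancel_left]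
      rw [h3, map_mul, sact_mul, hfix _ hσ']
  · intro σ τ
    apply hinj
    rw [map_add, jconst_gact f s hsec, hcj, hcj, hcj, map_sub, map_mul, sact_mul]
    abel

end Pool.Agent.Lib.MP_2f3286_ag.HYP
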