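import Pool.Agent.Lib.MP_2f3286_ag.HYP.AFExt
import Pool.Agent.Lib.MP_2f3286_ag.HYP.AFConj
import Pool.Agent.Lib.MP_2f3286_ag.HYP.Coc

/-!
# Places of the algebraic closure above a local point of a section of the fundamental group of a curve
-/

open Polynomial

noncomputable section

namespace Pool.Agent.Lib.MP_2f3286_ag.HYP

section

variable {k K M Ω kb : Type*} [Field k] [Field kb] [Algebra k kb] [Field K] [Field M]
  [Algebra K M] [Field Ω] [Algebra M Ω] [Algebra K Ω]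

/-- `γ` is a lift of the automorphism `s σ` of `M` to `Ω` -/
def Lft (s : Gal(kb/k) →* Gal(M/K)) (σ : Gal(kb/k)) (γ : Gal(Ω/K)) : Prop :=
  ∀ m : M, γ (algebraMap M Ω m) = algebraMap M Ω (s σ m)

/-- A place `(A, π)` of `Ω` with values in `Fb`, over the embedding `ι` of `kb`, such that the action of
`Gal(Fb/F)` lifts to automorphisms of `Ω` which lift those of the section. -/
structure PlaceOver [Algebra kb Ω] (s : Gal(kb/k) →* Gal(M/K)) (F : Type*) {Fb : Type*} [Field F] [Field Fb]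
    [Algebra F Fb] (ι : kb →+* Fb) (A : ValuationSubring Ω) (π : A →+* Fb) : Prop where
  const : ∀ a : kb, ∃ h : algebraMap kb Ω a ∈ A, π ⟨algebraMap kb Ω a, h⟩ = ι a
  loc : ∀ a : A, π a ≠ 0 → (a : Ω)⁻¹ ∈ A
  lift : ∀ (σ : Gal(kb/k)) (τ : Gal(Fb/F)), (∀ a, ι (σ a) = τ (ι a)) →
    ∃ γ : Gal(Ω/K), Lft s σ γ ∧ ∀ x : A, ∃ h : γ x ∈ A, π ⟨γ x, h⟩ = τ (π x)

variable {s : Gal(kb/k) →* Gal(M/K)}

theorem exists_lft [IsScalarTower K M Ω] [Normal K M] [Normal K Ω] (σ : Gal(kb/k)) :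
    ∃ γ : Gal(Ω/K), Lft s σ γ := by
  obtain ⟨γ, hγ⟩ := AlgEquiv.restrictNormalHom_surjective (F := K) (K₁ := M) (E := Ω) (s σ)
  refine ⟨γ, fun m => ?_⟩
  rw [← hγ]
  exact (AlgEquiv.restrictNormal_commutes γ M m).symm

theorem Lft.mul {σ τ : Gal(kb/k)} {γ δ : Gal(Ω/K)} (h : Lft s σ γ) (h' : Lft s τ δ) :
    Lft s (σ * τ) (γ * δ) := by
  intro m
  rw [AlgEquiv.mul_apply, h' m, h, map_mul, AlgEquiv.mul_apply]

theorem Lft.of_fix {σ : Gal(kb/k)} {γ δ : Gal(Ω/K)} (h : Lft s σ γ)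
    (hδ : ∀ m : M, δ (algebraMap M Ω m) = algebraMap M Ω m) : Lft s σ (γ * δ) := by
  intro m
  rw [AlgEquiv.mul_apply, hδ m, h]

theorem Lft.diff {σ : Gal(kb/k)} {γ δ : Gal(Ω/K)} (h : Lft s σ γ) (h' : Lft s σ δ) (m : M) :
    (γ⁻¹ * δ) (algebraMap M Ω m) = algebraMap M Ω m := by
  rw [AlgEquiv.mul_apply, h' m, ← h m]
  exact γ.symm_apply_apply _

/-- automorphisms over `M` are lifts of the identity -/
theorem lft_one {δ : Gal(Ω/K)} (hδ : ∀ m : M, δ (algebraMap M Ω m) = algebraMap M Ω m) :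
    Lft s 1 δ := by
  intro m
  rw [hδ, map_one, AlgEquiv.one_apply]

end

section

variable {k K M Ω kb : Type*} [Field k] [Field kb] [Algebra k kb] [Field K] [Algebra k K]
  [Field M] [Algebra K M] [Algebra kb M]
  [Field Ω] [Algebra M Ω] [Algebra K Ω] [Algebra kb Ω] [Algebra k Ω] [IsScalarTower K M Ω]
  [IsScalarTower kb M Ω] [IsScalarTower k K Ω] [Normal K M] [Normal K Ω] [IsGalois M Ω]
  {F Fb : Type*} [Field F] [Field Fb] [Algebra F Fb] [IsAlgClosed Fb] [CharZero Fb]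

theorem exists_place_over (R : Subalgebra k K) (htr : Algebra.trdeg k Ω = 1) (t : R)
    (ht : Transcendental k (t : K)) (hBk : ∀ a : kb, IsIntegral R (algebraMap kb M a))
    {s : Gal(kb/k) →* Gal(M/K)} {ι : kb →+* Fb} {φ : integralClosure R M →+* Fb}
    (hφ : Respects s F ι φ) :
    ∃ (A : ValuationSubring Ω) (π : A →+* Fb), PlaceOver s F ι A π ∧
      ∀ b : integralClosure R M, ∃ h : algebraMap M Ω b ∈ A, π ⟨algebraMap M Ω b, h⟩ = φ b := by
  classical
  have htM : IsScalarTower R M Ω := IsScalarTower.of_algebraMap_eq fun x => by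
    change algebraMap K Ω x = algebraMap M Ω (algebraMap K M x)
    rw [← IsScalarTower.algebraMap_apply]
  have htB : IsScalarTower R (integralClosure R M) Ω := IsScalarTower.of_algebraMap_eq fun x => by
    change algebraMap R Ω x = algebraMap M Ω (algebraMap R M x)
    rw [← IsScalarTower.algebraMap_apply]
  let C' := integralClosure (integralClosure R M) Ω
  have hCint : Algebra.IsIntegral (integralClosure R M) C' := integralClosure.AlgebraIsIntegral
  have hinj : Function.Injective (algebraMap (integralClosure R M) C') := by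
    intro x y h
    have h1 := congrArg (algebraMap C' Ω) h
    rw [← IsScalarTower.algebraMap_apply, ← IsScalarTower.algebraMap_apply] at h1
    exact Subtype.ext ((algebraMap M Ω).injective h1)
  obtain ⟨Φ', hΦ'⟩ := exists_hom_ext (C := C') hinj φ
  -- integral elements of `Ω`
  have hRM : ∀ x : Ω, IsIntegral R x → IsIntegral (integralClosure R M) x := fun x hx => hx.tower_top
  let Φ : integralClosure R Ω →+* Fb := Φ'.comp
    { toFun := fun b => ⟨b, hRM _ b.2⟩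
      map_one' := rfl
      map_mul' := fun _ _ => rfl
      map_zero' := rfl
      map_add' := fun _ _ => rfl }
  have hMΩ : ∀ b : integralClosure R M, IsIntegral R (algebraMap M Ω b) := fun b => b.2.algebraMap
  have hΦ : ∀ b : integralClosure R M, Φ ⟨algebraMap M Ω b, hMΩ b⟩ = φ b := fun b => hΦ' b
  let D : Subring Ω := (integralClosure R Ω).toSubring
  let ΦD : D →+* Fb := Φ
  have hfrac : ∀ x : Ω, ∃ a b : D, x * b = a ∧ (ΦD a ≠ 0 ∨ ΦD b ≠ 0) := fun x =>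
    frac_of_hom R htr t ht Φ x
  obtain ⟨A, π, hloc, hA, hA'⟩ := exists_place_of_frac D ΦD hfrac
  have hin : ∀ c : D, ∃ h : (c : Ω) ∈ A, π ⟨c, h⟩ = ΦD c := by
    intro c
    obtain ⟨h, h'⟩ := hA c c 1 (by rw [Subring.coe_one, mul_one]) (by rw [map_one]; exact one_ne_zero)
    exact ⟨h, by rw [h', map_one, div_one]⟩
  have hMA : ∀ b : integralClosure R M, ∃ h : algebraMap M Ω b ∈ A,
      π ⟨algebraMap M Ω b, h⟩ = φ b := by
    intro b
    obtain ⟨h, h'⟩ := hin ⟨_, hMΩ b⟩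
    exact ⟨h, h'.trans (hΦ b)⟩
  refine ⟨A, π, ⟨?_, hloc, ?_⟩, hMA⟩
  · intro a
    obtain ⟨h, h'⟩ := hMA ⟨algebraMap kb M a, hBk a⟩
    have h1 : algebraMap kb Ω a = algebraMap M Ω (algebraMap kb M a) :=
      IsScalarTower.algebraMap_apply kb M Ω a
    refine ⟨h1 ▸ h, ?_⟩
    rw [← hφ.1 a ⟨algebraMap kb M a, hBk a⟩ rfl, ← h']
    congr 1
    exact Subtype.ext h1
  · intro σ τ hστ
    obtain ⟨γ₀, hγ₀⟩ := exists_lft (s := s) (Ω := Ω) σ
    -- automorphisms act on integral elements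
    have hact : ∀ (γ : Gal(Ω/K)) (x : Ω), x ∈ D → γ x ∈ D := fun γ x hx =>
      IsIntegral.map ((γ.toAlgHom.restrictScalars R : Ω →ₐ[R] Ω)) hx
    have hactM : ∀ (γ : Gal(Ω/M)) (x : Ω), x ∈ D → γ x ∈ D := fun γ x hx =>
      IsIntegral.map ((γ.toAlgHom.restrictScalars R : Ω →ₐ[R] Ω)) hx
    let aD : D →+* D :=
      { toFun := fun c => ⟨γ₀ c, hact γ₀ c c.2⟩
        map_one' := Subtype.ext (map_one γ₀)
        map_mul' := fun _ _ => Subtype.ext (map_mul γ₀ _ _)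
        map_zero' := Subtype.ext (map_zero γ₀)
        map_add' := fun _ _ => Subtype.ext (map_add γ₀ _ _) }
    let Φ₂ : D →+* Fb := ((τ⁻¹ : Gal(Fb/F)) : Fb →+* Fb).comp (ΦD.comp aD)
    have hΦ₂ : ∀ c : D, τ (Φ₂ c) = ΦD (aD c) := fun c => τ.apply_symm_apply _
    obtain ⟨h, hh⟩ := conj_all D hactM ΦD Φ₂ (by
      rintro c ⟨m, hm⟩
      have hmi : IsIntegral R m := by
        have h1 : IsIntegral R (algebraMap M Ω m) := by
          rw [hm]; exact c.2
        exact (isIntegral_algebraMap_iff (algebraMap M Ω).injective).mp h1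
      have hc : c = ⟨_, hMΩ ⟨m, hmi⟩⟩ := Subtype.ext hm.symm
      have hsm : IsIntegral R (s σ m) := hmi.map ((s σ).toAlgHom.restrictScalars R : M →ₐ[R] M)
      have hac : aD c = ⟨_, hMΩ ⟨s σ m, hsm⟩⟩ := by
        apply Subtype.ext
        change γ₀ (c : Ω) = algebraMap M Ω (s σ m)
        rw [← hm, hγ₀]
      apply τ.injective
      rw [hΦ₂, hac]
      have h2 : ΦD ⟨_, hMΩ ⟨s σ m, hsm⟩⟩ = φ ⟨s σ m, hsm⟩ := hΦ _
      have h3 : ΦD c = φ ⟨m, hmi⟩ := by rw [hc]; exact hΦ _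
      rw [h2, h3]
      exact (hφ.2 σ τ hστ ⟨m, hmi⟩ ⟨s σ m, hsm⟩ rfl).symm)
    let hK : Gal(Ω/K) := h.restrictScalars K
    have hhK : ∀ x, hK x = h x := fun x => rfl
    let γ : Gal(Ω/K) := γ₀ * hK⁻¹
    have hγ : ∀ x : Ω, γ (h x) = γ₀ x := by
      intro x
      change γ₀ (hK⁻¹ (hK x)) = γ₀ x
      congr 1
      exact hK.symm_apply_apply x
    have hγD : ∀ c : D, ΦD ⟨γ c, hact γ c c.2⟩ = τ (ΦD c) := by
      intro c
      let c₁ : D := ⟨hK⁻¹ (c : Ω), hact _ _ c.2⟩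
      have h1 : h (c₁ : Ω) = c := hK.apply_symm_apply (c : Ω)
      have h2 := hh c₁ c h1.symm
      rw [← h2, hΦ₂]
      rfl
    refine ⟨γ, fun m => ?_, fun x => ?_⟩
    · have h1 : h (algebraMap M Ω m) = algebraMap M Ω m := h.commutes m
      rw [← h1, hγ, hγ₀]
    · obtain ⟨a, b, hab, hb⟩ := hA' x x.2
      have h1 : γ x * ((⟨γ b, hact γ b b.2⟩ : D) : Ω) = ((⟨γ a, hact γ a a.2⟩ : D) : Ω) := by
        change γ x * γ b = γ a
        rw [← map_mul, hab]
      obtain ⟨h2, h3⟩ := hA _ _ _ h1 (by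
        rw [hγD]
        exact (map_ne_zero τ).mpr hb)
      obtain ⟨h4, h5⟩ := hA _ _ _ hab hb
      refine ⟨h2, ?_⟩
      rw [h3, hγD, hγD, ← map_div₀, ← h5]

end

end Pool.Agent.Lib.MP_2f3286_ag.HYP
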