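import Pool.Agent.Lib.MP_2f3286_ag.HYP.AFFin
import Pool.Agent.Lib.MP_2f3286_ag.Top.FF

/-!
# Sections of the fundamental group of affine curves above an odd hyperelliptic curve: final form
-/

open Polynomial IsDedekindDomain NumberField
open scoped WithZero

noncomputable section

namespace Pool.Agent.Lib.MP_2f3286_ag.HYP

universe u

/-- the function field of an affine curve is finite over the field generated by a function -/
theorem finite_of_fg {k K : Type*} [Field k] [Field K] [Algebra k K]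
    (htr : Algebra.trdeg k K = 1) (R : Subalgebra k K) (hR : ∀ z : K, IsIntegral R z → z ∈ R)
    (hfg : R.FG) {x : K} (hxR : x ∈ R) (hx : Transcendental k x) :
    FiniteDimensional (IntermediateField.adjoin k {x}) K := by
  classical
  let E := IntermediateField.adjoin k {x}
  obtain ⟨S, hS⟩ := hfg
  let N : IntermediateField E K := IntermediateField.adjoin E (S : Set K)
  have hN : FiniteDimensional E N := IntermediateField.finiteDimensional_adjoin fun z _ =>
    (Top.isAlgebraic_of_trdeg htr hx z).isIntegral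
  have hRN : ∀ z ∈ R, z ∈ N := by
    intro z hz
    rw [← hS] at hz
    have h1 : Algebra.adjoin k (S : Set K) ≤ N.toSubalgebra.restrictScalars k :=
      Algebra.adjoin_le fun w hw => IntermediateField.subset_adjoin E _ hw
    exact h1 hz
  have hRalg : ∀ z : K, IsAlgebraic R z := by
    intro z
    obtain ⟨p, hp, hp'⟩ := MP_2f3286_bir.exists_bivariate htr hx z
    let j : k[X] →+* R := (aeval (⟨x, hxR⟩ : R) : k[X] →ₐ[k] R).toRingHom
    have hj : ∀ q, ((j q : R) : K) = aeval x q := fun q => by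
      have h := (aeval_algHom_apply R.val (⟨x, hxR⟩ : R) q).symm
      exact h
    have hinj : Function.Injective j := by
      rw [injective_iff_map_eq_zero]
      intro q hq
      by_contra hq0
      exact hx ⟨q, hq0, by rw [← hj, hq]; rfl⟩
    refine ⟨p.map j, (Polynomial.map_ne_zero_iff hinj).2 hp, ?_⟩
    rw [aeval_def, eval₂_map, ← hp']
    congr 1
    exact RingHom.ext fun q => hj q
  have htop : N = ⊤ := by
    rw [eq_top_iff]
    intro z _
    obtain ⟨r, hr, hrz⟩ := (hRalg z).exists_integral_multiple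
    have h1 : (r : K) * z ∈ N := by
      refine hRN _ (hR _ ?_)
      rw [Algebra.smul_def] at hrz
      exact hrz
    have hr0 : (r : K) ≠ 0 := fun h => hr (Subtype.ext h)
    have h2 : z = ((r : K))⁻¹ * ((r : K) * z) := by
      rw [← mul_assoc, inv_mul_cancel₀ hr0, one_mul]
    rw [h2]
    exact N.mul_mem (N.inv_mem (hRN _ r.2)) h1
  rw [htop] at hN
  exact LinearEquiv.finiteDimensional (IntermediateField.topEquiv (F := E) (E := K)).toLinearEquiv

/-- the functions `x`, `y`, `1 / y` are sums of units -/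
theorem adjoin_mem_units {k : Type u} [Field k] [NumberField k]
    {f : k[X]} (hfd : 0 < f.natDegree)
    {K : Type*} [Field K] [Algebra k K] {x y : K} (hxy : y ^ 2 = aeval x f) (hy0 : y ≠ 0)
    {M : Type*} [Field M] [Algebra K M]
    [Algebra (AlgebraicClosure k) M] [Algebra k M]
    [IsScalarTower k K M] [IsScalarTower k (AlgebraicClosure k) M]
    (R : Subalgebra k K) (hxR : x ∈ R) (hyR : y ∈ R) (hyR' : y⁻¹ ∈ R) {r : K}
    (hr : r ∈ Algebra.adjoin k {x, y, y⁻¹}) :
    algebraMap K M r ∈ Subring.closure {b : M | IsIntegral R b ∧ IsIntegral R b⁻¹} := by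
  let xR : R := ⟨x, hxR⟩
  let yR : R := ⟨y, hyR⟩
  have hyU : IsUnit yR := by
    refine IsUnit.of_mul_eq_one ⟨y⁻¹, hyR'⟩ ?_
    apply Subtype.ext
    exact mul_inv_cancel₀ hy0
  have hxyR : yR ^ 2 = aeval xR f := by
    apply Subtype.ext
    have h1 : ((aeval xR f : R) : K) = aeval x f := (aeval_algHom_apply R.val xR f).symm
    rw [h1, ← hxy]
    rfl
  have hxU : algebraMap R M xR ∈ Subring.closure {b : M | IsIntegral R b ∧ IsIntegral R b⁻¹} := by
    refine GU.mem_units_of_unit R xR f hfd ?_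
    rw [← hxyR]
    exact hyU.pow 2
  have hyM : IsIntegral R (algebraMap K M y) ∧ IsIntegral R (algebraMap K M y)⁻¹ := by
    refine ⟨?_, ?_⟩
    · exact isIntegral_algebraMap (R := R) (A := M) (x := yR)
    · rw [← map_inv₀]
      exact isIntegral_algebraMap (R := R) (A := M) (x := ⟨y⁻¹, hyR'⟩)
  induction hr using Algebra.adjoin_induction with
  | mem r hr =>
    rcases hr with rfl | rfl | rfl
    · exact hxU
    · exact Subring.subset_closure hyM
    · exact Subring.subset_closure ⟨by rw [map_inv₀]; exact hyM.2, by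
        rw [map_inv₀, inv_inv]; exact hyM.1⟩
  | algebraMap c =>
    have hi : ∀ c : k, IsIntegral R (algebraMap K M (algebraMap k K c)) := fun c =>
      isIntegral_algebraMap (R := R) (A := M) (x := algebraMap k R c)
    exact Subring.subset_closure ⟨hi c, by rw [← map_inv₀, ← map_inv₀]; exact hi _⟩
  | add a b _ _ ha hb => rw [map_add]; exact add_mem ha hb
  | mul a b _ _ ha hb => rw [map_mul]; exact mul_mem ha hb

/-- **The theorem, affine curves.** -/
theorem affine_of_selTor {k : Type u} [Field k] [NumberField k]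
    (hinf : Fintype.card (InfinitePlace k) = 1)
    {f : k[X]} (hf : f.Monic) (hfs : f.Separable) {g : ℕ} (hg : 1 ≤ g)
    (hfd : f.natDegree = 2 * g + 1) {Q : Prop} (hS : SelTorR k f Q)
    {K : Type*} [Field K] [Algebra k K] (htr : Algebra.trdeg k K = 1)
    {x y : K} (hx : ∀ c : k, x ≠ algebraMap k K c) (hxy : y ^ 2 = aeval x f)
    {M : Type*} [Field M] [Algebra K M] [IsGalois K M]
    [Algebra (AlgebraicClosure k) M] [Algebra k M]
    [IsScalarTower k K M] [IsScalarTower k (AlgebraicClosure k) M]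
    (s : Gal(AlgebraicClosure k/k) →* Gal(M/K)) (hs : Continuous s)
    (hsec : ∀ σ a, s σ (algebraMap (AlgebraicClosure k) M a) =
      algebraMap (AlgebraicClosure k) M (σ a))
    (R : Subalgebra k K) (hRn : ∀ y : K, IsIntegral R y → y ∈ R) (hfg : R.FG)
    (hxR : x ∈ R) (hyR : y ∈ R) (hyR' : y⁻¹ ∈ R)
    (hM : Pt.IsMaxUnram R K M (AlgebraicClosure k))
    (hfin : ∀ v : HeightOneSpectrum (𝓞 k),
      ∃ (ι : AlgebraicClosure k →ₐ[k] AlgebraicClosure (v.adicCompletion k))
        (φ : integralClosure R M →+* AlgebraicClosure (v.adicCompletion k)),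
        Respects s (v.adicCompletion k) (ι : _ →+* AlgebraicClosure (v.adicCompletion k)) φ)
    (hreal : Q → ∀ τ : AlgebraicClosure k →+* ℂ,
      (∀ a : k, starRingEnd ℂ (τ (algebraMap k _ a)) = τ (algebraMap k _ a)) →
      ∃ (A : ValuationSubring M) (φ : A →+* ℂ), Sel.IsPlaceOf s ℝ τ A φ) :
    ∃ (Δ : Subgroup Gal(AlgebraicClosure k/k))
      (Ψ : integralClosure R M →+* AlgebraicClosure k),
      IsOpen (Δ : Set Gal(AlgebraicClosure k/k)) ∧
      Pt.IsPt R M (AlgebraicClosure k) Ψ ∧
      (∀ σ ∈ Δ, ∀ b b' : integralClosure R M, (b' : M) = s σ b → Ψ b' = σ (Ψ b)) ∧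
      (∀ r : R, ((r : K) ∈ Algebra.adjoin k {x, y, y⁻¹} ∨ algebraMap R M r ∈
        Subring.closure {b : M | IsIntegral R b ∧ IsIntegral R b⁻¹}) →
        ∃ c : k, Ψ (algebraMap R _ r) = algebraMap k _ c ∧
          ∀ (v : HeightOneSpectrum (𝓞 k))
            (ι : AlgebraicClosure k →ₐ[k] AlgebraicClosure (v.adicCompletion k))
            (φ : integralClosure R M →+* AlgebraicClosure (v.adicCompletion k)),
            Respects s (v.adicCompletion k) (ι : _ →+* AlgebraicClosure (v.adicCompletion k)) φ →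
            φ (algebraMap R _ r) = ι (algebraMap k _ c)) ∧
      (∀ Ψ' : integralClosure R M →+* AlgebraicClosure k,
        Pt.IsPt R M (AlgebraicClosure k) Ψ' →
        (∀ r : R, Ψ' (algebraMap R _ r) = Ψ (algebraMap R _ r)) →
        (∃ Δ' : Subgroup Gal(AlgebraicClosure k/k), IsOpen (Δ' : Set Gal(AlgebraicClosure k/k)) ∧
          ∀ σ ∈ Δ', ∀ b b' : integralClosure R M, (b' : M) = s σ b → Ψ' b' = σ (Ψ' b)) → Ψ' = Ψ) ∧
      ((∀ r : R, ∃ c : k, Ψ (algebraMap R _ r) = algebraMap k _ c) →
        Respects s k (RingHom.id _) Ψ) ∧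
      ((∀ r : R, (r : K) ∈ Algebra.adjoin k {x, y, y⁻¹} ∨ algebraMap R M r ∈
        Subring.closure {b : M | IsIntegral R b ∧ IsIntegral R b⁻¹}) →
        Respects s k (RingHom.id _) Ψ ∧
        (∀ r : R, ∃ c : k, Ψ (algebraMap R _ r) = algebraMap k _ c ∧
          ∀ (v : HeightOneSpectrum (𝓞 k))
            (ι : AlgebraicClosure k →ₐ[k] AlgebraicClosure (v.adicCompletion k))
            (φ : integralClosure R M →+* AlgebraicClosure (v.adicCompletion k)),
            Respects s (v.adicCompletion k) (ι : _ →+* AlgebraicClosure (v.adicCompletion k)) φ →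
            φ (algebraMap R _ r) = ι (algebraMap k _ c)) ∧
        ∀ Ψ' : integralClosure R M →+* AlgebraicClosure k,
          Respects s k (RingHom.id _) Ψ' → Ψ' = Ψ) := by
  classical
  -- `x` is transcendental
  have hxk : Transcendental k x := by
    rintro ⟨p, hp, hp'⟩
    have h1 : (p.map (algebraMap k (AlgebraicClosure k))).eval₂
        (algebraMap (AlgebraicClosure k) M) (algebraMap K M x) = 0 := by
      rw [eval₂_map, ← IsScalarTower.algebraMap_eq, ← aeval_def, aeval_algebraMap_apply, hp', map_zero]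
    obtain ⟨c, -, hc⟩ := root_mem (algebraMap (AlgebraicClosure k) M)
      (Polynomial.map_ne_zero hp) h1
    obtain ⟨c₀, hc₀⟩ := mem_of_fixed (k := k) (a := c) fun σ => by
      apply (algebraMap (AlgebraicClosure k) M).injective
      rw [← hsec, hc, (s σ).commutes]
    apply hx c₀
    apply (algebraMap K M).injective
    rw [← IsScalarTower.algebraMap_apply, IsScalarTower.algebraMap_apply k (AlgebraicClosure k) M,
      hc₀]
    exact hc.symm
  have hfdim := finite_of_fg htr R hRn hfg hxR hxk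
  let xR : R := ⟨x, hxR⟩
  let yR : R := ⟨y, hyR⟩
  have hy0 : y ≠ 0 := by
    intro h0
    rw [h0, zero_pow two_ne_zero] at hxy
    exact hxk ⟨f, hf.ne_zero, hxy.symm⟩
  have hyU : IsUnit yR := by
    refine IsUnit.of_mul_eq_one ⟨y⁻¹, hyR'⟩ ?_
    apply Subtype.ext
    exact mul_inv_cancel₀ hy0
  have hxyR : yR ^ 2 = aeval xR f := by
    apply Subtype.ext
    have h1 : ((aeval xR f : R) : K) = aeval x f := (aeval_algHom_apply R.val xR f).symm
    rw [h1, ← hxy]
    rfl
  have hfin' : FiniteDimensional (IntermediateField.adjoin k {(xR : K)}) K := hfdim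
  choose ι₀ φ₀ hφ₀ using hfin
  have main := fun ι φ hφ => full_of_selTor hinf R hRn hfg xR yR hxk hM s hs hsec ι φ hφ hreal hf hfs
    hg hfd hS hxyR hyU
  obtain ⟨Δ, Ψ, h1, h2, h3, h4, h5, h6, h7⟩ := main ι₀ φ₀ hφ₀
  -- all local points
  have h4' : ∀ r : R, algebraMap R M r ∈
      Subring.closure {b : M | IsIntegral R b ∧ IsIntegral R b⁻¹} →
        ∃ c : k, Ψ (algebraMap R _ r) = algebraMap k _ c ∧
          ∀ (v : HeightOneSpectrum (𝓞 k))
            (ι : AlgebraicClosure k →ₐ[k] AlgebraicClosure (v.adicCompletion k))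
            (φ : integralClosure R M →+* AlgebraicClosure (v.adicCompletion k)),
            Respects s (v.adicCompletion k) (ι : _ →+* AlgebraicClosure (v.adicCompletion k)) φ →
            φ (algebraMap R _ r) = ι (algebraMap k _ c) := by
    intro r hr
    obtain ⟨c, hc, hcv⟩ := h4 r hr
    refine ⟨c, hc, fun v ι φ hφ => ?_⟩
    -- change the local point at `v`
    let D : HeightOneSpectrum (𝓞 k) → Type _ := fun w =>
      {p : (AlgebraicClosure k →ₐ[k] AlgebraicClosure (w.adicCompletion k)) ×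
        (integralClosure R M →+* AlgebraicClosure (w.adicCompletion k)) //
        Respects s (w.adicCompletion k) (p.1 : _ →+* AlgebraicClosure (w.adicCompletion k)) p.2}
    let d : ∀ w, D w := Function.update (fun w => ⟨(ι₀ w, φ₀ w), hφ₀ w⟩) v ⟨(ι, φ), hφ⟩
    obtain ⟨Δ₂, Ψ₂, -, -, -, g4, -, -, -⟩ := main (fun w => (d w).1.1) (fun w => (d w).1.2)
      (fun w => (d w).2)
    obtain ⟨c₂, -, hc₂⟩ := g4 r hr
    have hv := hc₂ v
    have hd : d v = ⟨(ι, φ), hφ⟩ := Function.update_self _ _ _
    rw [hd] at hv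
    obtain ⟨w, hw⟩ : ∃ w : HeightOneSpectrum (𝓞 k), w ≠ v := by
      obtain ⟨w, hw⟩ := exists_notMem ({v} : Finset (HeightOneSpectrum (𝓞 k)))
      exact ⟨w, fun h => hw (Finset.mem_singleton.2 h)⟩
    have hdw : d w = ⟨(ι₀ w, φ₀ w), hφ₀ w⟩ := Function.update_of_ne hw _ _
    have hcw := hc₂ w
    rw [hdw] at hcw
    have h8 : algebraMap k (AlgebraicClosure k) c₂ = algebraMap k _ c := by
      apply (ι₀ w : AlgebraicClosure k →+* AlgebraicClosure (w.adicCompletion k)).injective
      exact hcw.symm.trans (hcv w)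
    rw [← h8]
    exact hv
  have hor : ∀ r : R, ((r : K) ∈ Algebra.adjoin k {x, y, y⁻¹} ∨ algebraMap R M r ∈
      Subring.closure {b : M | IsIntegral R b ∧ IsIntegral R b⁻¹}) → algebraMap R M r ∈
      Subring.closure {b : M | IsIntegral R b ∧ IsIntegral R b⁻¹} := by
    rintro r (hr | hr)
    · exact adjoin_mem_units (by omega) hxy hy0 R hxR hyR hyR' hr
    · exact hr
  refine ⟨Δ, Ψ, h1, h2, h3, fun r hr => h4' r (hor r hr), h5, h6, fun hR => ?_⟩
  have hRU : ∀ r : R, algebraMap R M r ∈
      Subring.closure {b : M | IsIntegral R b ∧ IsIntegral R b⁻¹} := fun r => hor r (hR r)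
  refine ⟨h6 fun r => ?_, fun r => h4' r (hRU r), h7 hRU⟩
  obtain ⟨c, hc, -⟩ := h4' r (hRU r)
  exact ⟨c, hc⟩

end Pool.Agent.Lib.MP_2f3286_ag.HYP
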