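import Pool.Agent.Lib.MP_2f3286_ag.HYP.HM2

/-!
# The homomorphism from the Jacobian to the Jacobian of the second model: divisors of functions
-/

open Polynomial

noncomputable section

namespace Pool.Agent.Lib.MP_2f3286_ag.HYP

variable {E : Type*} [Field E] {g : ℕ} {a : E} {f : E[X]}

theorem trf_prod (a b : E) (s : Multiset E) :
    trf a b s.card (s.map fun x => X - C x).prod =
      (s.map fun x => C b + C (a - x) * X).prod := by
  induction s using Multiset.induction_on with
  | empty =>
    rw [Multiset.map_zero, Multiset.prod_zero, Multiset.map_zero, Multiset.prod_zero,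
      Multiset.card_zero, trf_one, pow_zero]
  | cons x s ih =>
    rw [Multiset.map_cons, Multiset.prod_cons, Multiset.map_cons, Multiset.prod_cons,
      Multiset.card_cons, add_comm, trf_mul _ _ (by rw [natDegree_X_sub_C]) ?_, trf_X_sub_C, ih]
    rw [natDegree_multiset_prod_X_sub_C_eq_card]

theorem trf_fac (hf : Good g f) (ha : f.eval a = 0) (m : Multiset (Pt f)) :
    ∃ c : E, c ≠ 0 ∧ (m.map fun P => C (f.derivative.eval a) + C (a - P.x) * X).prod =
      C c * ((two hf ha m).map fun Q => X - C Q.x).prod := by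
  have hb := deriv_ne_zero hf ha
  induction m using Multiset.induction_on with
  | empty =>
    refine ⟨1, one_ne_zero, ?_⟩
    rw [two_zero, Multiset.map_zero, Multiset.prod_zero, Multiset.map_zero, Multiset.prod_zero,
      C_1, one_mul]
  | cons P m ih =>
    obtain ⟨c, hc, h⟩ := ih
    rw [Multiset.map_cons, Multiset.prod_cons, h]
    by_cases hP : P.x = a
    · refine ⟨f.derivative.eval a * c, mul_ne_zero hb hc, ?_⟩
      rw [two_cons_eq hf ha m hP, hP, sub_self, C_0, zero_mul, add_zero, C_mul, mul_assoc]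
    · have h2 : P.x - a ≠ 0 := sub_ne_zero.mpr hP
      have h3 : a - P.x ≠ 0 := sub_ne_zero.mpr (Ne.symm hP)
      refine ⟨(a - P.x) * c, mul_ne_zero h3 hc, ?_⟩
      rw [two_cons_ne hf ha m hP, Multiset.map_cons, Multiset.prod_cons]
      have e : (C (f.derivative.eval a) + C (a - P.x) * X : E[X]) =
          C (a - P.x) * (X - C (P.two hf ha hP).x) := by
        rw [mul_sub, ← C_mul]
        have : (a - P.x) * (P.two hf ha hP).x = -f.derivative.eval a := by
          change (a - P.x) * (f.derivative.eval a / (P.x - a)) = -f.derivative.eval a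
          field_simp
          ring
        rw [this, C_neg]
        ring
      rw [e, C_mul]
      ring

/-- the value of the homomorphism at the class of a point -/
def rhoPt (hf : Good g f) (ha : f.eval a = 0) (P : Pt f) : J (mod2 g a f) :=
  open scoped Classical in
    if hP : P.x ≠ a then cl (P.two hf ha hP) - cl (zpt hf) else -cl (zpt hf)

theorem rhoPt_ne (hf : Good g f) (ha : f.eval a = 0) {P : Pt f} (hP : P.x ≠ a) :
    rhoPt hf ha P = cl (P.two hf ha hP) - cl (zpt hf) := dif_pos hP

theorem rhoPt_eq (hf : Good g f) (ha : f.eval a = 0) {P : Pt f} (hP : P.x = a) :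
    rhoPt hf ha P = -cl (zpt hf) := dif_neg (not_not.mpr hP)

theorem sum_rhoPt (hf : Good g f) (ha : f.eval a = 0) (m : Multiset (Pt f)) :
    (m.map (rhoPt hf ha)).sum = clm (two hf ha m) - m.card • cl (zpt hf) := by
  induction m using Multiset.induction_on with
  | empty =>
    rw [Multiset.map_zero, Multiset.sum_zero, two_zero, clm_zero, Multiset.card_zero, zero_nsmul,
      sub_zero]
  | cons P m ih =>
    rw [Multiset.map_cons, Multiset.sum_cons, ih, Multiset.card_cons, succ_nsmul]
    by_cases hP : P.x = a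
    · rw [rhoPt_eq hf ha hP, two_cons_eq hf ha m hP]
      abel
    · rw [rhoPt_ne hf ha hP, two_cons_ne hf ha m hP, clm_cons]
      abel

theorem rho_prin [IsAlgClosed E] (hf : Good g f) (ha : f.eval a = 0) (h : CR f)
    (m : Multiset (Pt f)) (h0 : h ≠ 0) (hm : Ideal.span {h} = idm m) :
    (m.map (rhoPt hf ha)).sum = 0 := by
  classical
  have hg := mod2_good hf ha
  obtain ⟨M₀, hM₀⟩ := th_mem hf ha m (h := h) (by
    rw [← hm]; exact Ideal.mem_span_singleton_self h)
  obtain ⟨hbd, hmem⟩ := hM₀ M₀ le_rfl
  obtain ⟨c, hc, hnorm⟩ := norm_fac hf h0 hm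
  have hdeg := norm_deg hf h0 hm
  -- the degree of the norm
  have hn : m.card ≤ 2 * M₀ := by
    rw [← hdeg, norm_eq]
    obtain ⟨h1, h2⟩ := hbd
    refine (natDegree_sub_le _ _).trans (max_le ?_ ?_)
    · refine natDegree_pow_le.trans ?_
      omega
    · refine natDegree_mul_le.trans ?_
      have := natDegree_pow_le (p := h.im) (n := 2)
      rw [hf.deg]
      omega
  -- the norm of the transform
  obtain ⟨c₂, hc₂, hfac⟩ := trf_fac hf ha m
  have hN : (th g a M₀ h).norm =
      C (c * c₂) * (((two hf ha m).map fun Q => X - C Q.x).prod * X ^ (2 * M₀ - m.card)) := by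
    have e1 : 2 * M₀ = m.card + (2 * M₀ - m.card) := by omega
    have e2 := trf_prod a (f.derivative.eval a) (m.map fun P => P.x)
    rw [Multiset.map_map, Multiset.map_map, Multiset.card_map] at e2
    have e3 : (m.map ((fun x => X - C x) ∘ fun P : Pt f => P.x)).prod =
        (m.map fun P => X - C P.x).prod := rfl
    have e4 : (m.map ((fun x => C (f.derivative.eval a) + C (a - x) * X) ∘
        fun P : Pt f => P.x)).prod =
        (m.map fun P => C (f.derivative.eval a) + C (a - P.x) * X).prod := rfl
    rw [e3, e4, hfac] at e2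
    have e5 : ((m.map fun P => X - C P.x).prod : E[X]).natDegree ≤ m.card := by
      have := natDegree_multiset_prod_X_sub_C_eq_card (m.map fun P : Pt f => P.x)
      rw [Multiset.map_map, Multiset.card_map] at this
      exact this.le
    rw [th_norm hf ha hbd, hnorm, trf_C_mul]
    conv_lhs => rw [e1]
    rw [trf_add_pow _ _ _ e5, e2, C_mul]
    ring
  have hp0 : ((two hf ha m).map fun Q => X - C Q.x).prod ≠ 0 := by
    apply Multiset.prod_ne_zero
    intro h1
    obtain ⟨Q, _, hQ⟩ := Multiset.mem_map.mp h1
    exact X_sub_C_ne_zero _ hQ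
  have hne : th g a M₀ h ≠ 0 := by
    intro h1
    have h2 : (th g a M₀ h).norm = 0 := by rw [h1, QuadraticAlgebra.norm_zero]
    rw [hN] at h2
    exact mul_ne_zero (C_ne_zero.mpr (mul_ne_zero hc hc₂))
      (mul_ne_zero hp0 (pow_ne_zero _ X_ne_zero)) h2
  obtain ⟨r, hr⟩ := (mem_idm_iff hg hne).mp hmem
  obtain ⟨c₃, hc₃, hN'⟩ := norm_fac hg hne hr
  -- the remaining points have `x = 0`
  have hX : C (c * c₂) * X ^ (2 * M₀ - m.card) = C c₃ * (r.map fun Q => X - C Q.x).prod := by
    rw [hN, Multiset.map_add, Multiset.prod_add] at hN'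
    apply mul_left_cancel₀ hp0
    linear_combination hN'
  have hroots := congrArg Polynomial.roots hX
  have e6 : (r.map fun Q => X - C Q.x) = (r.map fun Q : Pt (mod2 g a f) => Q.x).map
      fun x => X - C x := by
    rw [Multiset.map_map]
    rfl
  rw [roots_C_mul _ (mul_ne_zero hc hc₂), roots_C_mul _ hc₃, roots_X_pow, e6,
    roots_multiset_prod_X_sub_C] at hroots
  have hrz : ∀ Q ∈ r, Q = zpt hf := by
    intro Q hQ
    have h1 : Q.x ∈ (2 * M₀ - m.card) • ({0} : Multiset E) := by
      rw [hroots]
      exact Multiset.mem_map_of_mem _ hQ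
    have h2 : Q.x = 0 := Multiset.mem_singleton.mp (Multiset.mem_of_mem_nsmul h1)
    have h3 := Q.eqn
    rw [h2, mod2_eval_zero hf] at h3
    ext
    · exact h2
    · exact pow_eq_zero_iff (two_ne_zero) |>.mp h3
  have hcard : r.card = 2 * M₀ - m.card := by
    have := congrArg Multiset.card hroots
    rw [Multiset.card_nsmul, Multiset.card_singleton, Multiset.card_map, mul_one] at this
    exact this.symm
  have hrr : clm r = (2 * M₀ - m.card) • cl (zpt hf) := by
    rw [Multiset.eq_replicate.mpr ⟨hcard, hrz⟩, clm, Multiset.map_replicate, Multiset.sum_replicate]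
  have h1 := clm_of_span hne hr
  rw [clm_add, hrr] at h1
  have h2 : (2 : ℕ) • (cl (zpt hf) : J (mod2 g a f)) = 0 := two_cl hg rfl
  rw [sum_rhoPt]
  have h3 : (2 * M₀ - m.card) • (cl (zpt hf) : J (mod2 g a f)) + m.card • cl (zpt hf) = 0 := by
    rw [← add_nsmul, Nat.sub_add_cancel hn, mul_comm, mul_nsmul', h2, nsmul_zero]
  have h4 : (clm (two hf ha m) : J (mod2 g a f)) = m.card • cl (zpt hf) := by
    rw [eq_neg_of_add_eq_zero_left h1]
    exact (eq_neg_of_add_eq_zero_right h3).symm
  rw [h4, sub_self]

/-- **the homomorphism to the Jacobian of the second model** -/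
def rho [IsAlgClosed E] (hf : Good g f) (ha : f.eval a = 0) : J f →+ J (mod2 g a f) :=
  J.lift (rhoPt hf ha) (rho_prin hf ha)

theorem rho_ne [IsAlgClosed E] (hf : Good g f) (ha : f.eval a = 0) {P : Pt f} (hP : P.x ≠ a) :
    rho hf ha (cl P) = cl (P.two hf ha hP) - cl (zpt hf) := by
  rw [rho, J.lift_cl, rhoPt_ne hf ha hP]

theorem rho_eq [IsAlgClosed E] (hf : Good g f) (ha : f.eval a = 0) {P : Pt f} (hP : P.x = a) :
    rho hf ha (cl P) = -cl (zpt hf) := by
  rw [rho, J.lift_cl, rhoPt_eq hf ha hP]

theorem rho_sub [IsAlgClosed E] (hf : Good g f) (ha : f.eval a = 0) {P W : Pt f} (hP : P.x ≠ a)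
    (hW : W.x = a) : rho hf ha (cl P - cl W) = cl (P.two hf ha hP) := by
  rw [map_sub, rho_ne hf ha hP, rho_eq hf ha hW]
  abel

/-- the homomorphism is compatible with homomorphisms of fields -/
theorem rho_map {E' : Type*} [Field E'] [IsAlgClosed E] [IsAlgClosed E'] (hf : Good g f)
    (ha : f.eval a = 0) {f' : E'[X]} {a' : E'} (hf' : Good g f') (ha' : f'.eval a' = 0)
    (j : E →+* E') (hj : f.map j = f') (hja : j a = a')
    (hj2 : (mod2 g a f).map j = mod2 g a' f') (z : J f) :
    rho hf' ha' (J.map j hj z) = J.map j hj2 (rho hf ha z) := by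
  have key : (rho hf' ha').comp (J.map j hj) = (J.map j hj2).comp (rho hf ha) := by
    apply J.hom_ext
    intro P
    change rho hf' ha' (J.map j hj (cl P)) = J.map j hj2 (rho hf ha (cl P))
    have hz : (zpt hf : Pt (mod2 g a f)).map j hj2 = zpt hf' := by
      ext
      · exact map_zero j
      · exact map_zero j
    rw [J.map_cl]
    by_cases hP : P.x = a
    · have hP' : (P.map j hj).x = a' := by
        change j P.x = a'
        rw [hP, hja]
      rw [rho_eq hf' ha' hP', rho_eq hf ha hP, map_neg, J.map_cl, hz]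
    · have hP' : (P.map j hj).x ≠ a' := by
        change j P.x ≠ a'
        rw [← hja]
        exact fun h => hP (j.injective h)
      have hd : j (f.derivative.eval a) = f'.derivative.eval a' := by
        rw [← hj, derivative_map, ← hja, eval_map, eval₂_at_apply]
      have h2 : (P.two hf ha hP).map j hj2 = (P.map j hj).two hf' ha' hP' := by
        ext
        · change j (f.derivative.eval a / (P.x - a)) = f'.derivative.eval a' / (j P.x - a')
          rw [map_div₀, map_sub, hja, hd]
        · change j (f.derivative.eval a ^ g * P.y / (P.x - a) ^ (g + 1)) =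
            f'.derivative.eval a' ^ g * j P.y / (j P.x - a') ^ (g + 1)
          rw [map_div₀, map_mul, map_pow, map_pow, map_sub, hja, hd]
      rw [rho_ne hf' ha' hP', rho_ne hf ha hP, map_sub, J.map_cl, J.map_cl, hz, h2]
  exact DFunLike.congr_fun key z

end Pool.Agent.Lib.MP_2f3286_ag.HYP
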