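import Pool.Agent.Lib.MP_2f3286_ag.HYP.HT3
import Pool.Agent.Lib.MP_2f3286_ag.HYP.HM3

/-!
# The birational section conjecture for curves above an odd hyperelliptic curve whose 2-adic Selmer group contains
# no adelic points of infinite order
-/

open Polynomial IsDedekindDomain NumberField
open Pool.Agent.Lib.MP_2f3286_bir (IsPlaceOf)

noncomputable section

namespace Pool.Agent.Lib.MP_2f3286_ag.HYP

universe u

variable {k : Type u} [Field k] [NumberField k] {K : Type*} [Field K] [Algebra k K]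
  {Ω : Type*} [Field Ω] [Algebra K Ω] [IsAlgClosure K Ω]
  [Algebra (AlgebraicClosure k) Ω] [Algebra k Ω]
  [IsScalarTower k K Ω] [IsScalarTower k (AlgebraicClosure k) Ω]

/-- an element of the algebraic closure of `k` fixed by all automorphisms -/
theorem mem_of_fixed {a : AlgebraicClosure k} (h : ∀ σ : Gal(AlgebraicClosure k/k), σ a = a) :
    ∃ a₀ : k, algebraMap k (AlgebraicClosure k) a₀ = a := by
  have : IsGalois k (AlgebraicClosure k) := {}
  exact (InfiniteGalois.mem_range_algebraMap_iff_fixed a).2 h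

/-- the case of a ramification point: the second model -/
theorem of_chain_ram (h1 : Fintype.card (InfinitePlace k) = 1) (htr : Algebra.trdeg k K = 1)
    (s : Gal(AlgebraicClosure k/k) →* Gal(Ω/K)) (hs : Continuous s)
    (hsec : ∀ σ a, s σ (algebraMap (AlgebraicClosure k) Ω a) =
      algebraMap (AlgebraicClosure k) Ω (σ a))
    {f : k[X]} (hf : f.Monic) (hfs : f.Separable) {g : ℕ} (hg : 1 ≤ g)
    (hfd : f.natDegree = 2 * g + 1)
    {P : Pt (f.map (algebraMap k Ω))} (hx : ∀ σ, s σ P.x = P.x) (hy : ∀ σ, s σ P.y = P.y)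
    (hxc : ∀ c : AlgebraicClosure k, P.x ≠ algebraMap _ Ω c)
    {W : Pt (f.map (algebraMap k Ω))} {a₀ : k} (hW : W.x = algebraMap k Ω a₀)
    (ha₀ : f.eval a₀ = 0)
    {z : ℕ → J (f.map (algebraMap k Ω))} (z0 : z 0 = cl P - cl W)
    (zs : ∀ n σ, sact f (s σ) (z n) = z n) (z2 : ∀ n, 2 • z (n + 1) = z n) :
    ∃ (A₀ : ValuationSubring Ω) (ψ₀ : A₀ →+* AlgebraicClosure k),
      IsPlaceOf s k (RingHom.id _) A₀ ψ₀ ∧
      (∀ (f : K) (h : algebraMap K Ω f ∈ A₀),
        ∃ a : k, ψ₀ ⟨algebraMap K Ω f, h⟩ = algebraMap k (AlgebraicClosure k) a) ∧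
      ∀ (A₁ : ValuationSubring Ω) (ψ₁ : A₁ →+* AlgebraicClosure k),
        IsPlaceOf s k (RingHom.id _) A₁ ψ₁ →
        A₁ = A₀ ∧ ∀ (a : A₁) (b : A₀), (a : Ω) = b → ψ₁ a = ψ₀ b := by
  classical
  have hcl : IsAlgClosed Ω := IsAlgClosure.isAlgClosed K
  have hF : Good g (f.map (algebraMap k Ω)) := good_of hfs hfd _
  have ha : (f.map (algebraMap k Ω)).eval (algebraMap k Ω a₀) = 0 := by
    rw [eval_map, eval₂_at_apply, ha₀, map_zero]
  have hk : Good g f := ⟨two_ne_zero, hfs, hfd⟩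
  have hgk : Good g (f.map (algebraMap k (AlgebraicClosure k))) := good_of hfs hfd _
  have hak : (f.map (algebraMap k (AlgebraicClosure k))).eval
      (algebraMap k (AlgebraicClosure k) a₀) = 0 := by
    rw [eval_map, eval₂_at_apply, ha₀, map_zero]
  -- the second model over `k`
  obtain ⟨hm2, hd2⟩ := mod2_monic hk ha₀
  have hs2 : (mod2 g a₀ f).Separable := by
    have h2 := (mod2_good hgk hak).sep
    rw [← mod2_map] at h2
    exact (separable_map _).mp h2
  have he : (mod2 g (algebraMap k Ω a₀) (f.map (algebraMap k Ω))).map (RingHom.id Ω) =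
      (mod2 g a₀ f).map (algebraMap k Ω) := by
    rw [Polynomial.map_id, mod2_map]
  have hPa : P.x ≠ algebraMap k Ω a₀ := by
    intro h
    exact hxc (algebraMap k _ a₀) (by rw [← IsScalarTower.algebraMap_apply]; exact h)
  have hsk : ∀ (σ : Gal(AlgebraicClosure k/k)) (b : k), s σ (algebraMap k Ω b) = algebraMap k Ω b := by
    intro σ b
    rw [IsScalarTower.algebraMap_apply k K Ω, (s σ).commutes]
  have hB : (f.map (algebraMap k Ω)).derivative.eval (algebraMap k Ω a₀) =
      algebraMap k Ω (f.derivative.eval a₀) := by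
    rw [derivative_map, eval_map, eval₂_at_apply]
  have hb := deriv_ne_zero hF ha
  refine of_chain h1 htr s hs hsec hm2 hs2 hg hd2
    (P := (P.two hF ha hPa).map (RingHom.id Ω) he) ?_ ?_ ?_
    (z := fun n => J.map (RingHom.id Ω) he (rho hF ha (z n))) ?_ ?_ ?_
  · intro σ
    change s σ ((f.map (algebraMap k Ω)).derivative.eval (algebraMap k Ω a₀) /
      (P.x - algebraMap k Ω a₀)) = _
    rw [hB, map_div₀, map_sub, hsk, hsk, hx, ← hB]
    rfl
  · intro σ
    change s σ ((f.map (algebraMap k Ω)).derivative.eval (algebraMap k Ω a₀) ^ g * P.y /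
      (P.x - algebraMap k Ω a₀) ^ (g + 1)) = _
    rw [hB, map_div₀, map_mul, map_pow, map_pow, map_sub, hsk, hsk, hx, hy, ← hB]
    rfl
  · intro c hc
    have h2 : (f.map (algebraMap k Ω)).derivative.eval (algebraMap k Ω a₀) /
      (P.x - algebraMap k Ω a₀) = algebraMap (AlgebraicClosure k) Ω c := hc
    have h3 : P.x - algebraMap k Ω a₀ ≠ 0 := sub_ne_zero.mpr hPa
    have hc0 : algebraMap (AlgebraicClosure k) Ω c ≠ 0 := by
      rw [← h2]
      exact div_ne_zero hb h3
    apply hxc (algebraMap k _ a₀ + algebraMap k _ (f.derivative.eval a₀) / c)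
    rw [map_add, map_div₀, ← IsScalarTower.algebraMap_apply, ← IsScalarTower.algebraMap_apply, ← hB,
      ← h2, div_div_cancel₀ hb]
    ring
  · rw [z0, rho_sub hF ha hPa hW, J.map_cl]
  · intro n σ
    have hj2 : (mod2 g (algebraMap k Ω a₀) (f.map (algebraMap k Ω))).map
        ((s σ : Ω ≃ₐ[K] Ω) : Ω →+* Ω) = mod2 g (algebraMap k Ω a₀) (f.map (algebraMap k Ω)) := by
      rw [mod2_map, map_fixΩ f (s σ)]
      congr 1
      exact hsk σ a₀
    have h2 := rho_map hF ha hF ha ((s σ : Ω ≃ₐ[K] Ω) : Ω →+* Ω) (map_fixΩ f (s σ)) (hsk σ a₀) hj2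
      (z n)
    have h3 : J.map ((s σ : Ω ≃ₐ[K] Ω) : Ω →+* Ω) (map_fixΩ f (s σ)) (z n) = z n := zs n σ
    rw [h3] at h2
    conv_rhs => rw [h2]
    rw [sact]
    have hc1 : (mod2 g (algebraMap k Ω a₀) (f.map (algebraMap k Ω))).map
        (((s σ : Ω ≃ₐ[K] Ω) : Ω →+* Ω).comp (RingHom.id Ω)) =
        (mod2 g a₀ f).map (algebraMap k Ω) := by
      rw [← Polynomial.map_map, he, map_fixΩ]
    have hc2 : (mod2 g (algebraMap k Ω a₀) (f.map (algebraMap k Ω))).map
        ((RingHom.id Ω).comp ((s σ : Ω ≃ₐ[K] Ω) : Ω →+* Ω)) =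
        (mod2 g a₀ f).map (algebraMap k Ω) := by
      rw [← Polynomial.map_map, hj2, he]
    rw [J.map_map _ _ _ _ hc1, J.map_map _ _ _ _ hc2]
    rfl
  · intro n
    rw [← map_nsmul, ← map_nsmul, z2]

/-- **The theorem.** -/
theorem of_selTor (h1 : Fintype.card (InfinitePlace k) = 1) (htr : Algebra.trdeg k K = 1)
    (s : Gal(AlgebraicClosure k/k) →* Gal(Ω/K)) (hs : Continuous s)
    (hsec : ∀ σ a, s σ (algebraMap (AlgebraicClosure k) Ω a) =
      algebraMap (AlgebraicClosure k) Ω (σ a))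
    {f : k[X]} (hf : f.Monic) (hfs : f.Separable) {g : ℕ} (hg : 1 ≤ g)
    (hfd : f.natDegree = 2 * g + 1) (hS : SelTor k f)
    {x y : K} (hxy : y ^ 2 = aeval x f) (hx : ∀ c : k, x ≠ algebraMap k K c) :
    ∃ (A₀ : ValuationSubring Ω) (ψ₀ : A₀ →+* AlgebraicClosure k),
      IsPlaceOf s k (RingHom.id _) A₀ ψ₀ ∧
      (∀ (f : K) (h : algebraMap K Ω f ∈ A₀),
        ∃ a : k, ψ₀ ⟨algebraMap K Ω f, h⟩ = algebraMap k (AlgebraicClosure k) a) ∧
      ∀ (A₁ : ValuationSubring Ω) (ψ₁ : A₁ →+* AlgebraicClosure k),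
        IsPlaceOf s k (RingHom.id _) A₁ ψ₁ →
        A₁ = A₀ ∧ ∀ (a : A₁) (b : A₀), (a : Ω) = b → ψ₁ a = ψ₀ b := by
  classical
  have hcl : IsAlgClosed Ω := IsAlgClosure.isAlgClosed K
  let P : Pt (f.map (algebraMap k Ω)) := ⟨algebraMap K Ω x, algebraMap K Ω y, by
    rw [← map_pow, hxy, eval_map, IsScalarTower.algebraMap_eq k K Ω, ← hom_eval₂]
    rfl⟩
  have hPx : ∀ σ, s σ P.x = P.x := fun σ => (s σ).commutes x
  have hPy : ∀ σ, s σ P.y = P.y := fun σ => (s σ).commutes y
  have hxc : ∀ c : AlgebraicClosure k, P.x ≠ algebraMap _ Ω c := by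
    intro c hc
    obtain ⟨c₀, hc₀⟩ := mem_of_fixed (k := k) (a := c) fun σ => by
      apply (algebraMap (AlgebraicClosure k) Ω).injective
      rw [← hsec, ← hc, hPx]
    apply hx c₀
    apply (algebraMap K Ω).injective
    rw [← IsScalarTower.algebraMap_apply, IsScalarTower.algebraMap_apply k (AlgebraicClosure k) Ω,
      hc₀]
    exact hc
  obtain ⟨t, ht, ⟨m, htm⟩, z, z0, zs, z2⟩ :=
    exists_chain_tor s hs hsec hf hfs hfd hS hPx hPy
  have hinj := jconst_injective (Ω := Ω) f (good_of hfs hfd (algebraMap k (AlgebraicClosure k)))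
  by_cases ht0 : t = 0
  · rw [ht0, map_zero, sub_zero] at z0
    exact of_chain h1 htr s hs hsec hf hfs hg hfd hPx hPy hxc z0 zs z2
  by_cases htW : ∃ W : Pt (f.map (algebraMap k (AlgebraicClosure k))), W.y = 0 ∧ t = cl W
  · obtain ⟨W, hW, rfl⟩ := htW
    -- the ramification point is rational
    obtain ⟨a₀, ha₀⟩ := mem_of_fixed (k := k) (a := W.x) fun σ => by
      have h2 := ht σ
      rw [gact, J.map_cl] at h2
      exact congrArg Pt.x (cl_injective (good_of hfs hfd _) hg h2)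
    have h0 : f.eval a₀ = 0 := by
      have h3 : (f.map (algebraMap k (AlgebraicClosure k))).eval W.x = 0 := by
        rw [← W.eqn, hW]; ring
      rw [← ha₀, eval_map, eval₂_at_apply] at h3
      exact (map_eq_zero _).mp h3
    rw [jconst, J.map_cl] at z0
    refine of_chain_ram h1 htr s hs hsec hf hfs hg hfd hPx hPy hxc (a₀ := a₀) ?_ h0 z0 zs z2
    change algebraMap (AlgebraicClosure k) Ω W.x = _
    rw [← ha₀, ← IsScalarTower.algebraMap_apply]
  · refine of_chain_tor h1 htr s hs hsec hf hfs hfd hPy hxc (t := jconst f t) (m := m) ?_ ?_ ?_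
      z0 zs z2
    · rw [← map_nsmul, htm, map_zero]
    · intro h
      exact ht0 (hinj (h.trans (map_zero _).symm))
    · intro W hW h
      obtain ⟨c, hc⟩ := root_const hf.ne_zero (a := W.x) (by rw [← W.eqn, hW]; ring)
      apply htW
      have h3 : (f.map (algebraMap k (AlgebraicClosure k))).eval c = 0 := by
        apply (algebraMap (AlgebraicClosure k) Ω).injective
        rw [map_zero, ← eval₂_at_apply, ← eval_map, Polynomial.map_map,
          ← IsScalarTower.algebraMap_eq, hc, ← W.eqn, hW]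
        ring
      refine ⟨⟨c, 0, by rw [h3]; ring⟩, rfl, ?_⟩
      apply hinj
      rw [h, jconst, J.map_cl]
      congr 1
      ext
      · exact hc.symm
      · rw [hW]
        exact (map_zero _).symm

end Pool.Agent.Lib.MP_2f3286_ag.HYP
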