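import Pool.Agent.Lib.MP_2f3286_ag.HYP.AFRes
import Pool.Agent.Lib.MP_2f3286_ag.HYP.HFin
import Pool.Agent.Lib.MP_2f3286_ag.PD.LocalUniq
import Pool.Agent.Lib.MP_2f3286_ag.SNeigh.Uni
import Pool.Agent.Lib.MP_2f3286_ag.Pt.MaxUnrOver

/-!
# Sections above an odd hyperelliptic curve: affine curves and function fields together
-/

open Polynomial IsDedekindDomain NumberField
open scoped WithZero

noncomputable section

namespace Pool.Agent.Lib.MP_2f3286_ag.HYP

universe u

section inert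

open Pool.Agent.Lib.MP_2f3286_ag.Pt

/-- a valuation ring with residue field `kb` has a residue map to `kb` -/
theorem exists_residue {kb Ω : Type*} [Field kb] [Field Ω] [Algebra kb Ω] (V : ValuationSubring Ω)
    (hk : ∀ a : kb, algebraMap kb Ω a ∈ V)
    (hres : ∀ x ∈ V, ∃ a : kb, V.valuation (x - algebraMap kb Ω a) < 1) :
    ∃ ρ : V →+* kb, (∀ x : V, V.valuation ((x : Ω) - algebraMap kb Ω (ρ x)) < 1) ∧
      ∀ (x : V) (a : kb), V.valuation ((x : Ω) - algebraMap kb Ω a) < 1 → ρ x = a := by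
  choose r hr using fun x : V => hres x x.2
  have huniq : ∀ (x : Ω) (a b : kb), V.valuation (x - algebraMap kb Ω a) < 1 →
      V.valuation (x - algebraMap kb Ω b) < 1 → a = b := by
    intro x a b ha hb
    have h1 : V.valuation (algebraMap kb Ω (a - b)) < 1 := by
      have h2 : algebraMap kb Ω (a - b) =
          (x - algebraMap kb Ω b) - (x - algebraMap kb Ω a) := by
        rw [map_sub]; ring
      rw [h2]
      exact V.valuation.map_sub_lt hb ha
    exact sub_eq_zero.1 (MaxOver.const_eq_zero V hk h1)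
  have hle : ∀ x ∈ V, V.valuation x ≤ 1 := fun x hx => (V.valuation_le_one_iff _).2 hx
  let ρ : V →+* kb :=
    { toFun := r
      map_one' := huniq _ _ _ (hr 1) (by
        rw [map_one, OneMemClass.coe_one, sub_self, map_zero]; exact zero_lt_one)
      map_zero' := huniq _ _ _ (hr 0) (by
        rw [map_zero, ZeroMemClass.coe_zero, sub_self, map_zero]; exact zero_lt_one)
      map_add' := fun x y => huniq _ _ _ (hr (x + y)) (by
        have h2 : ((x + y : V) : Ω) - algebraMap kb Ω (r x + r y) =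
            (x - algebraMap kb Ω (r x)) + (y - algebraMap kb Ω (r y)) := by
          rw [map_add, AddMemClass.coe_add]; ring
        rw [h2]
        exact V.valuation.map_add_lt (hr x) (hr y))
      map_mul' := fun x y => huniq _ _ _ (hr (x * y)) (by
        have h2 : ((x * y : V) : Ω) - algebraMap kb Ω (r x * r y) =
            (x - algebraMap kb Ω (r x)) * y + algebraMap kb Ω (r x) *
              (y - algebraMap kb Ω (r y)) := by
          rw [map_mul, MulMemClass.coe_mul]; ring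
        rw [h2]
        refine V.valuation.map_add_lt ?_ ?_
        · rw [map_mul]
          exact mul_lt_one_of_lt_of_le (hr x) (hle _ y.2)
        · rw [map_mul, mul_comm]
          exact mul_lt_one_of_lt_of_le (hr y) (hle _ (hk _))) }
  exact ⟨ρ, hr, fun x a ha => huniq _ _ _ (hr x) ha⟩

/-- the two descriptions of the maximal extension unramified over an affine curve -/
theorem maxUnram_of_over {k K M : Type*} [Field k] [CharZero k] [Field K] [Field M]
    [Algebra k K] [Algebra K M] [Algebra (AlgebraicClosure k) M] [Algebra k M]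
    [IsScalarTower k K M] [IsScalarTower k (AlgebraicClosure k) M] [Algebra.IsAlgebraic K M]
    (R : Subalgebra k K) (htr : Algebra.trdeg k (AlgebraicClosure M) = 1)
    (t : K) (htR : t ∈ R) (ht : Transcendental k t)
    [FiniteDimensional (IntermediateField.adjoin k {t}) K]
    (hM : IsMaxUnramOver R K M (AlgebraicClosure k)) :
    IsMaxUnram R K M (AlgebraicClosure k) := by
  have halg : Algebra.IsAlgebraic K (AlgebraicClosure M) := Algebra.IsAlgebraic.trans K M _
  have htΩ : Transcendental (AlgebraicClosure k) (algebraMap K (AlgebraicClosure M) t) :=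
    PTAux.transc (k := k) t ht
  have halgΩ : ∀ z : AlgebraicClosure M, IsAlgebraic
      (IntermediateField.adjoin (AlgebraicClosure k) {algebraMap K (AlgebraicClosure M) t}) z :=
    Full.isAlgebraic_M (k := k) t
  intro x
  rw [hM x]
  constructor
  · -- places to points
    rintro h g ⟨Ψ, hΨ, hΨg⟩
    obtain ⟨A, π, hA1, hA2, hA3⟩ := exists_place_of_frac
      (integralClosure R (AlgebraicClosure M)).toSubring Ψ
      (fun x => frac_of_hom R htr ⟨t, htR⟩ ht Ψ x)
    have hconst : ∀ a : AlgebraicClosure k, IsIntegral R (algebraMap _ (AlgebraicClosure M) a) :=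
      fun a => integral_const R a
    have hmem : ∀ b : integralClosure R (AlgebraicClosure M), ∃ h : (b : AlgebraicClosure M) ∈ A,
        π ⟨b, h⟩ = Ψ b := by
      intro b
      obtain ⟨h1, h2⟩ := hA2 b b 1 (by simp) (by rw [map_one]; exact one_ne_zero)
      refine ⟨h1, h2.trans ?_⟩
      rw [map_one, div_one]
      rfl
    have hval : ∀ y : A, π y = 0 → A.valuation (y : AlgebraicClosure M) < 1 := by
      intro y hy
      rw [Full.val_lt_one_iff]
      by_cases hy0 : (y : AlgebraicClosure M) = 0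
      · exact Or.inl hy0
      refine Or.inr fun h => ?_
      have h1 : y * ⟨_, h⟩ = 1 := Subtype.ext (mul_inv_cancel₀ hy0)
      have h2 := congrArg π h1
      rw [map_mul, hy, zero_mul, map_one] at h2
      exact zero_ne_one h2
    refine h A ⟨⟨fun a => (hmem ⟨_, hconst a⟩).1, ?_⟩, fun r => ?_⟩ g fun y hy => ?_
    · intro htop
      have hall : ∀ z, z ∈ A := fun z => by rw [htop]; exact ValuationSubring.mem_top _
      obtain ⟨h1, h2⟩ := hmem ⟨algebraMap K (AlgebraicClosure M) t,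
        (isIntegral_algebraMap (R := R) (A := AlgebraicClosure M) (x := ⟨t, htR⟩))⟩
      set c := π ⟨algebraMap K (AlgebraicClosure M) t, h1⟩ with hc
      obtain ⟨h3, h4⟩ := hmem ⟨_, hconst c⟩
      have h5 : Ψ ⟨_, hconst c⟩ = c := hΨ c _ rfl
      have h4' := h4.trans h5
      have h6 : π (⟨algebraMap K (AlgebraicClosure M) t, h1⟩ - ⟨_, h3⟩) = 0 := by
        rw [map_sub, h4', ← hc, sub_self]
      have h7 := hval _ h6
      have h8 : algebraMap K (AlgebraicClosure M) t - algebraMap _ _ c ≠ 0 := by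
        intro h0
        rw [sub_eq_zero] at h0
        apply htΩ
        rw [h0]
        exact isAlgebraic_algebraMap c
      rw [Full.val_lt_one_iff] at h7
      rcases h7 with h7 | h7
      · exact h8 h7
      · exact h7 (hall _)
    · exact (hmem ⟨_, isIntegral_algebraMap (x := r)⟩).1
    · obtain ⟨a, b, hab, hb⟩ := hA3 y hy
      let act : integralClosure R (AlgebraicClosure M) → integralClosure R (AlgebraicClosure M) :=
        fun c => ⟨g c, c.2.map ((g.toAlgHom.restrictScalars R :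
          AlgebraicClosure M →ₐ[R] AlgebraicClosure M))⟩
      have ha' := hΨg a (act a) rfl
      have hb' := hΨg b (act b) rfl
      have hgy : g y * (act b : AlgebraicClosure M) = act a := by
        change g y * g b = g a
        rw [← map_mul]
        exact congrArg g hab
      obtain ⟨h1, h2⟩ := hA2 (g y) (act a) (act b) hgy (by
        intro h0
        exact hb (hb'.symm.trans h0))
      obtain ⟨h3, h4⟩ := hA2 y a b hab hb
      refine ⟨h1, hval (⟨_, h1⟩ - ⟨_, h3⟩) ?_⟩
      rw [map_sub, h2, h4]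
      change Ψ (act a) / Ψ (act b) - Ψ a / Ψ b = 0
      rw [ha', hb', sub_self]
  · -- points to places
    rintro h V ⟨⟨hV1, hV2⟩, hV3⟩ g hg
    obtain ⟨ρ, hρ, hρ'⟩ := exists_residue V hV1 fun y hy =>
      MaxOver.residue_const _ htΩ halgΩ V hV1 hV2 y hy
    have hBV : ∀ b : integralClosure R (AlgebraicClosure M), (b : AlgebraicClosure M) ∈ V :=
      fun b => PTAux.mem_of_isIntegral (R := R) hV3 b.2
    refine h g ⟨ρ.comp ((algebraMap (integralClosure R (AlgebraicClosure M))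
      (AlgebraicClosure M)).codRestrict V hBV), fun a b hab => ?_, fun b b' hb => ?_⟩
    · refine hρ' _ _ ?_
      change V.valuation ((b : AlgebraicClosure M) - _) < 1
      rw [hab, sub_self, map_zero]
      exact zero_lt_one
    · refine hρ' _ _ ?_
      change V.valuation ((b' : AlgebraicClosure M) - algebraMap _ _ (ρ ⟨b, hBV b⟩)) < 1
      have h2 : (b' : AlgebraicClosure M) - algebraMap _ _ (ρ ⟨b, hBV b⟩) =
          (g b - b) + (b - algebraMap _ _ (ρ ⟨b, hBV b⟩)) := by
        rw [hb]; ring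
      rw [h2]
      exact V.valuation.map_add_lt (hg _ (hBV b)).2 (hρ ⟨b, hBV b⟩)

end inert

section conv

variable {k kb K M E Eb : Type*} [Field k] [Field kb] [Algebra k kb] [Field K] [Algebra k K]
  [Field M] [Algebra K M] [Algebra kb M] [Field E] [Field Eb] [Algebra E Eb]

/-- the point of a place over an affine curve -/
theorem respects_of_place (R : Subalgebra k K) {s : Gal(kb/k) →* Gal(M/K)} {ι : kb →+* Eb}
    {A : ValuationSubring M} {φ : A →+* Eb} (h : Sel.IsPlaceOf s E ι A φ)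
    (hR : ∀ r : R, algebraMap K M r ∈ A) :
    ∃ (hA : ∀ b : integralClosure R M, (b : M) ∈ A) (φ' : integralClosure R M →+* Eb),
      (∀ b, φ' b = φ ⟨b, hA b⟩) ∧ Respects s E ι φ' := by
  have hA : ∀ b : integralClosure R M, (b : M) ∈ A :=
    fun b => Pt.PTAux.mem_of_isIntegral (R := R) hR b.2
  refine ⟨hA, φ.comp ((algebraMap (integralClosure R M) M).codRestrict A hA), fun b => rfl, ?_, ?_⟩
  · intro a b hab
    obtain ⟨h1, h2⟩ := h.1 a
    change φ ⟨b, hA b⟩ = ι a
    rw [← h2]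
    congr 1
    exact Subtype.ext hab
  · intro σ τ hστ b b' hb
    obtain ⟨h1, h2⟩ := h.2.2 σ τ hστ ⟨b, hA b⟩
    change φ ⟨b', hA b'⟩ = τ (φ ⟨b, hA b⟩)
    rw [← h2]
    congr 1
    exact Subtype.ext hb

/-- the point of a place over an affine curve, over an open subgroup -/
theorem pt_of_place (R : Subalgebra k K) (s : Gal(kb/k) →* Gal(M/K))
    {A : ValuationSubring M} {ψ : A →+* kb} (h : SNeigh.IsOver A ψ)
    (hR : ∀ r : R, algebraMap K M r ∈ A) :
    ∃ (hA : ∀ b : integralClosure R M, (b : M) ∈ A) (Ψ : integralClosure R M →+* kb),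
      (∀ b, Ψ b = ψ ⟨b, hA b⟩) ∧ Pt.IsPt R M kb Ψ ∧
      ∀ Δ : Subgroup Gal(kb/k), SNeigh.ResOn s A ψ Δ →
        ∀ σ ∈ Δ, ∀ b b' : integralClosure R M, (b' : M) = s σ b → Ψ b' = σ (Ψ b) := by
  have hA : ∀ b : integralClosure R M, (b : M) ∈ A :=
    fun b => Pt.PTAux.mem_of_isIntegral (R := R) hR b.2
  refine ⟨hA, ψ.comp ((algebraMap (integralClosure R M) M).codRestrict A hA), fun b => rfl, ?_, ?_⟩
  · intro a b hab
    obtain ⟨h1, h2⟩ := h.1 a
    change ψ ⟨b, hA b⟩ = a
    rw [← h2]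
    congr 1
    exact Subtype.ext hab
  · intro Δ hΔ σ hσ b b' hb
    obtain ⟨h1, h2⟩ := hΔ σ hσ ⟨b, hA b⟩
    change ψ ⟨b', hA b'⟩ = σ (ψ ⟨b, hA b⟩)
    rw [← h2]
    congr 1
    exact Subtype.ext hb

end conv

open IntermediateField in
/-- two points, over open subgroups, of which `s` is the section take the same values on sums of
units -/
theorem open_agree {k : Type u} [Field k] [NumberField k]
    {K : Type*} [Field K] [Algebra k K] (R : Subalgebra k K)
    {M : Type*} [Field M] [Algebra K M] [Algebra.IsAlgebraic K M]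
    [Algebra (AlgebraicClosure k) M] [Algebra k M]
    [IsScalarTower k K M] [IsScalarTower k (AlgebraicClosure k) M]
    (s : Gal(AlgebraicClosure k/k) →* Gal(M/K)) (hs : Continuous s)
    (hmax : Pt.IsRadClosed R M (AlgebraicClosure k))
    (Δ : Subgroup Gal(AlgebraicClosure k/k)) (hΔ : IsOpen (Δ : Set Gal(AlgebraicClosure k/k)))
    {Ψ₀ Ψ₁ : integralClosure R M →+* AlgebraicClosure k}
    (h₀ : Pt.IsPt R M (AlgebraicClosure k) Ψ₀) (h₁ : Pt.IsPt R M (AlgebraicClosure k) Ψ₁)
    (hr₀ : ∀ σ ∈ Δ, ∀ b b' : integralClosure R M, (b' : M) = s σ b → Ψ₀ b' = σ (Ψ₀ b))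
    (hr₁ : ∀ σ ∈ Δ, ∀ b b' : integralClosure R M, (b' : M) = s σ b → Ψ₁ b' = σ (Ψ₁ b))
    (b : integralClosure R M) (hb : (b : M) ∈ unitRing R M) : Ψ₁ b = Ψ₀ b := by
  classical
  have hBk : ∀ a : AlgebraicClosure k, IsIntegral R (algebraMap (AlgebraicClosure k) M a) :=
    fun a => Pt.integral_const R a
  -- the generators
  have key : ∀ (b₁ : M) (hb₁ : IsIntegral R b₁), IsIntegral R b₁⁻¹ → b₁ ≠ 0 →
      Ψ₁ ⟨b₁, hb₁⟩ = Ψ₀ ⟨b₁, hb₁⟩ := by
    intro b₁ hb₁ hb₁' hb₁0
    have hopen : {σ : Gal(AlgebraicClosure k/k) | s σ b₁ = b₁} ∈ nhds 1 := by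
      have hTalg : IsIntegral K b₁ := hb₁.tower_top
      have hfin : FiniteDimensional K K⟮b₁⟯ := adjoin.finiteDimensional hTalg
      have ho := IntermediateField.fixingSubgroup_isOpen (K⟮b₁⟯ : IntermediateField K M)
      have hmem : ((K⟮b₁⟯ : IntermediateField K M).fixingSubgroup : Set Gal(M/K)) ∈ nhds (s 1) := by
        rw [map_one]
        exact ho.mem_nhds (one_mem _)
      refine Filter.mem_of_superset (hs.continuousAt hmem) fun σ hσ => ?_
      have h7 : s σ ∈ (K⟮b₁⟯ : IntermediateField K M).fixingSubgroup := hσ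
      rw [IntermediateField.mem_fixingSubgroup_iff] at h7
      exact h7 b₁ (IntermediateField.mem_adjoin_simple_self _ _)
    obtain ⟨L, hLfin, hLs⟩ := (krullTopology_mem_nhds_one_iff k _ _).mp
      (Filter.inter_mem hopen (hΔ.mem_nhds (one_mem Δ)))
    have hLnf : NumberField L := NumberField.of_module_finite k L
    have hfix : ∀ σ ∈ L.fixingSubgroup, s σ b₁ = b₁ := fun σ hσ => (hLs hσ).1
    have hLΔ : ∀ σ ∈ L.fixingSubgroup, σ ∈ Δ := fun σ hσ => (hLs hσ).2
    have hne : ∀ (Ψ : integralClosure R M →+* AlgebraicClosure k) (β : M) (hβ : IsIntegral R β),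
        IsIntegral R β⁻¹ → β ≠ 0 → Ψ ⟨β, hβ⟩ ≠ 0 := by
      intro Ψ β hβ hβ' hβ0 h0
      have h6 : Ψ (⟨β, hβ⟩ * ⟨β⁻¹, hβ'⟩) = 1 := by
        have h7 : ((⟨β, hβ⟩ : integralClosure R M) * ⟨β⁻¹, hβ'⟩) = 1 :=
          Subtype.ext (mul_inv_cancel₀ hβ0)
        rw [h7, map_one]
      rw [map_mul, h0, zero_mul] at h6
      exact zero_ne_one h6
    have hquot : ∀ n : ℕ, 1 ≤ n → ∃ w : L, (w : AlgebraicClosure k) ^ n =
        Ψ₁ ⟨b₁, hb₁⟩ / Ψ₀ ⟨b₁, hb₁⟩ := by
      intro n hn
      obtain ⟨β, hβ⟩ := Full.root_of_unit hmax b₁ hb₁ hb₁' n hn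
      have hβ0 : β ≠ 0 := by
        rintro rfl
        rw [zero_pow (by omega)] at hβ
        exact hb₁0 hβ.symm
      have hβi : IsIntegral R β := IsIntegral.of_pow hn (by rw [hβ]; exact hb₁)
      have hβi' : IsIntegral R β⁻¹ := IsIntegral.of_pow hn (by rw [inv_pow, hβ]; exact hb₁')
      have hmem : Ψ₁ ⟨β, hβi⟩ / Ψ₀ ⟨β, hβi⟩ ∈ L := by
        apply mem_of_fixed_L
        intro σ hσ
        have h6 : (s σ β / β) ^ n = 1 := by
          rw [div_pow, ← map_pow, hβ, hfix σ hσ, div_self hb₁0]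
        obtain ⟨ζ, hζ⟩ := root_of_unity_mem (AlgebraicClosure k) M hn h6
        have hζ' : s σ β = algebraMap (AlgebraicClosure k) M ζ * β := by
          rw [hζ, div_mul_cancel₀ _ hβ0]
        have hζ0 : ζ ≠ 0 := by
          rintro rfl
          rw [map_zero, zero_mul, _root_.map_eq_zero] at hζ'
          exact hβ0 hζ'
        have e0 : ∀ (Ψ : integralClosure R M →+* AlgebraicClosure k),
            Pt.IsPt R M (AlgebraicClosure k) Ψ →
            (∀ σ ∈ Δ, ∀ b b' : integralClosure R M, (b' : M) = s σ b → Ψ b' = σ (Ψ b)) →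
            ζ * Ψ ⟨β, hβi⟩ = σ (Ψ ⟨β, hβi⟩) := by
          intro Ψ hΨ hΨs
          have h7 := hΨs σ (hLΔ σ hσ) ⟨β, hβi⟩
            (⟨algebraMap (AlgebraicClosure k) M ζ, hBk ζ⟩ * ⟨β, hβi⟩) hζ'.symm
          rw [← h7, map_mul, hΨ ζ ⟨algebraMap (AlgebraicClosure k) M ζ, hBk ζ⟩ rfl]
        rw [map_div₀, ← e0 Ψ₀ h₀ hr₀, ← e0 Ψ₁ h₁ hr₁, mul_div_mul_left _ _ hζ0]
      refine ⟨⟨_, hmem⟩, ?_⟩
      change (Ψ₁ ⟨β, hβi⟩ / Ψ₀ ⟨β, hβi⟩) ^ n = _
      rw [div_pow, ← map_pow, ← map_pow]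
      congr 2
      · exact Subtype.ext hβ
      · exact Subtype.ext hβ
    choose! w hw using hquot
    have hw1 : w 1 = 1 := by
      refine GU.eq_one_of_divisible_nf ?_ fun n hn => ⟨w n, ?_⟩
      · intro h0
        have h6 := hw 1 le_rfl
        rw [h0, ZeroMemClass.coe_zero, zero_pow one_ne_zero] at h6
        exact div_ne_zero (hne Ψ₁ _ hb₁ hb₁' hb₁0) (hne Ψ₀ _ hb₁ hb₁' hb₁0) h6.symm
      · apply Subtype.ext
        have h6 := hw 1 le_rfl
        rw [pow_one] at h6
        rw [h6]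
        exact hw n hn
    have h6 := hw 1 le_rfl
    rw [hw1, OneMemClass.coe_one, one_pow] at h6
    exact (div_eq_one_iff_eq (hne Ψ₀ _ hb₁ hb₁' hb₁0)).mp h6.symm
  -- all elements
  obtain ⟨c, hc⟩ := b
  have hc' : c ∈ unitRing R M := hb
  rw [unitRing] at hc'
  clear hb
  have hle : ∀ z ∈ Subring.closure {b : M | IsIntegral R b ∧ IsIntegral R b⁻¹},
      IsIntegral R z := by
    have h2 : Subring.closure {b : M | IsIntegral R b ∧ IsIntegral R b⁻¹} ≤
        (integralClosure R M).toSubring := by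
      rw [Subring.closure_le]
      intro b hb
      exact hb.1
    exact fun z hz => h2 hz
  induction hc' using Subring.closure_induction with
  | mem a ha =>
    by_cases ha0 : a = 0
    · subst ha0
      have h1 : (⟨0, hc⟩ : integralClosure R M) = 0 := rfl
      rw [h1, map_zero, map_zero]
    · exact key a hc ha.2 ha0
  | zero =>
    have h1 : (⟨0, hc⟩ : integralClosure R M) = 0 := rfl
    rw [h1, map_zero, map_zero]
  | one =>
    have h1 : (⟨1, hc⟩ : integralClosure R M) = 1 := rfl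
    rw [h1, map_one, map_one]
  | add a a' ha ha' iha iha' =>
    have h1 : (⟨a + a', hc⟩ : integralClosure R M) = ⟨a, hle a ha⟩ + ⟨a', hle a' ha'⟩ := rfl
    rw [h1, map_add, map_add, iha, iha']
  | neg a ha iha =>
    have h1 : (⟨-a, hc⟩ : integralClosure R M) = -⟨a, hle a ha⟩ := rfl
    rw [h1, map_neg, map_neg, iha]
  | mul a a' ha ha' iha iha' =>
    have h1 : (⟨a * a', hc⟩ : integralClosure R M) = ⟨a, hle a ha⟩ * ⟨a', hle a' ha'⟩ := rfl
    rw [h1, map_mul, map_mul, iha, iha']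


/-- The place `(A, φ)` of `M` lies on the curve with ring of functions `R`, and `s` is over the extension
`F` of `k` the section of this place. -/
def IsPointOn {k kb K M : Type*} [Field k] [Field kb] [Algebra k kb] [Field K] [Algebra k K] [Field M]
    [Algebra K M] [Algebra kb M] (s : Gal(kb/k) →* Gal(M/K)) (R : Subalgebra k K) (F : Type*)
    {Fb : Type*} [Field F] [Field Fb] [Algebra F Fb] (ι : kb →+* Fb) (A : ValuationSubring M)
    (φ : A →+* Fb) : Prop :=
  Sel.IsPlaceOf s F ι A φ ∧ ∀ r : R, algebraMap K M r ∈ A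

/-- The function `h` has at the place `(A₀, ψ₀)` a value in `k`, and the same value at every place
over the curve with ring of functions `R` of which `s` is the section over a completion of `k`. -/
def HasVal {k : Type*} [Field k] [NumberField k] {K : Type*} [Field K] [Algebra k K]
    {M : Type*} [Field M] [Algebra K M] [Algebra (AlgebraicClosure k) M]
    (s : Gal(AlgebraicClosure k/k) →* Gal(M/K)) (R : Subalgebra k K) (A₀ : ValuationSubring M)
    (ψ₀ : A₀ →+* AlgebraicClosure k) (h : K) : Prop :=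
  ∃ (c : k) (hh : algebraMap K M h ∈ A₀), ψ₀ ⟨algebraMap K M h, hh⟩ = algebraMap k _ c ∧
    ∀ (v : HeightOneSpectrum (𝓞 k))
      (ι : AlgebraicClosure k →ₐ[k] AlgebraicClosure (v.adicCompletion k))
      (A : ValuationSubring M) (φ : A →+* AlgebraicClosure (v.adicCompletion k)),
      IsPointOn s R (v.adicCompletion k) (ι : _ →+* AlgebraicClosure (v.adicCompletion k)) A φ →
      ∃ h' : algebraMap K M h ∈ A, φ ⟨algebraMap K M h, h'⟩ = ι (algebraMap k _ c)

/-- `h` is a polynomial in `x`, `y`, `1 / y` over `k`, or a sum of units of the integral closure of `R`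
in `M`. -/
def IsUnitSum {k K : Type*} [Field k] [Field K] [Algebra k K] (R : Subalgebra k K) (M : Type*)
    [Field M] [Algebra K M] (x y h : K) : Prop :=
  h ∈ Algebra.adjoin k {x, y, y⁻¹} ∨ algebraMap K M h ∈ unitRing R M

/-- **The theorem, affine curves and function fields.** -/
theorem uni_of_selTorR {k : Type u} [Field k] [NumberField k]
    (hinf : Fintype.card (InfinitePlace k) = 1)
    {f : k[X]} (hf : f.Monic) (hfs : f.Separable) {g : ℕ} (hg : 1 ≤ g)
    (hfd : f.natDegree = 2 * g + 1) {Q : Prop} (hS : SelTorR k f Q)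
    {K : Type*} [Field K] [Algebra k K] (htr : Algebra.trdeg k K = 1)
    {x y : K} (hx : ∀ c : k, x ≠ algebraMap k K c) (hxy : y ^ 2 = aeval x f)
    (R : Subalgebra k K)
    {M : Type*} [Field M] [Algebra K M] [IsGalois K M]
    [Algebra (AlgebraicClosure k) M] [Algebra k M]
    [IsScalarTower k K M] [IsScalarTower k (AlgebraicClosure k) M]
    (s : Gal(AlgebraicClosure k/k) →* Gal(M/K)) (hs : Continuous s)
    (hsec : ∀ σ a, s σ (algebraMap (AlgebraicClosure k) M a) =
      algebraMap (AlgebraicClosure k) M (σ a))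
    (hM : (IsAlgClosed M ∧ R = ⊥) ∨
      (R.FG ∧ (∀ h : K, IsIntegral R h → h ∈ R) ∧ x ∈ R ∧ y ∈ R ∧ y⁻¹ ∈ R ∧
        Pt.IsMaxUnramOver R K M (AlgebraicClosure k) ∧
        (∀ v : HeightOneSpectrum (𝓞 k),
          ∃ (ι : AlgebraicClosure k →ₐ[k] AlgebraicClosure (v.adicCompletion k))
            (A : ValuationSubring M) (φ : A →+* AlgebraicClosure (v.adicCompletion k)),
            IsPointOn s R (v.adicCompletion k)
              (ι : _ →+* AlgebraicClosure (v.adicCompletion k)) A φ) ∧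
        (Q → ∀ τ : AlgebraicClosure k →+* ℂ,
          (∀ a : k, starRingEnd ℂ (τ (algebraMap k _ a)) = τ (algebraMap k _ a)) →
          ∃ (A : ValuationSubring M) (φ : A →+* ℂ), Sel.IsPlaceOf s ℝ τ A φ))) :
    ∃ (A₀ : ValuationSubring M) (ψ₀ : A₀ →+* AlgebraicClosure k),
      (∀ r : R, algebraMap K M r ∈ A₀) ∧ Sel.IsSectionAt s A₀ ψ₀ ∧
      (∀ (A₁ : ValuationSubring M) (ψ₁ : A₁ →+* AlgebraicClosure k), Sel.IsSectionAt s A₁ ψ₁ →
        (IsAlgClosed M ∨ ∀ (r : R) (h₀ : algebraMap K M r ∈ A₀), ∃ h₁ : algebraMap K M r ∈ A₁,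
          IsUnitSum R M x y r ∨ ψ₁ ⟨_, h₁⟩ = ψ₀ ⟨_, h₀⟩) →
        A₁ = A₀ ∧ ∀ (a : A₁) (b : A₀), (a : M) = b → ψ₁ a = ψ₀ b) ∧
      (∀ h : K, algebraMap K M h ∈ A₀ → (IsAlgClosed M ∨ IsUnitSum R M x y h) →
        HasVal s R A₀ ψ₀ h) ∧
      ((IsAlgClosed M ∨ ∀ r : R, IsUnitSum R M x y r) →
        Sel.IsPlaceOf s k (RingHom.id _) A₀ ψ₀) := by
  classical
  suffices main : ∃ (A₀ : ValuationSubring M) (ψ₀ : A₀ →+* AlgebraicClosure k),
      (∀ r : R, algebraMap K M r ∈ A₀) ∧ Sel.IsSectionAt s A₀ ψ₀ ∧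
      (¬ IsAlgClosed M →
        (∀ (A₁ : ValuationSubring M) (ψ₁ : A₁ →+* AlgebraicClosure k), Sel.IsSectionAt s A₁ ψ₁ →
          (∀ (r : R) (h₀ : algebraMap K M r ∈ A₀), ∃ h₁ : algebraMap K M r ∈ A₁,
            IsUnitSum R M x y r ∨ ψ₁ ⟨_, h₁⟩ = ψ₀ ⟨_, h₀⟩) →
          A₁ = A₀ ∧ ∀ (a : A₁) (b : A₀), (a : M) = b → ψ₁ a = ψ₀ b) ∧
        (∀ h : K, IsUnitSum R M x y h → HasVal s R A₀ ψ₀ h) ∧
        ((∀ r : R, IsUnitSum R M x y r) → Sel.IsPlaceOf s k (RingHom.id _) A₀ ψ₀)) by
    obtain ⟨A₀, ψ₀, h1, h2, h3⟩ := main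
    refine ⟨A₀, ψ₀, h1, h2, ?_⟩
    by_cases hcl : IsAlgClosed M
    · have h4 := SNeigh.place_of_sectionAt s hs hsec h2
      refine ⟨fun A₁ ψ₁ h _ => MP_2f3286_bir.place_unique s hs h4
        (SNeigh.place_of_sectionAt s hs hsec h), fun h hA _ => ?_, fun _ => h4⟩
      have hcK : IsAlgClosure K M := ⟨hcl, inferInstance⟩
      obtain ⟨c, hc⟩ := mem_of_fixed (k := k) (a := ψ₀ ⟨_, hA⟩) fun σ =>
        (SNeigh.sectionAt_of_place h4).1 σ h hA
      refine ⟨c, hA, hc.symm, fun v ι A φ hφ => ?_⟩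
      obtain ⟨h5, h6⟩ := PD.local_unique htr x hx s hs hsec h4 v ι A φ hφ.1
      subst h5
      exact ⟨hA, by rw [h6 ⟨_, hA⟩ ⟨_, hA⟩ rfl, hc]⟩
    · obtain ⟨h4, h5, h6⟩ := h3 hcl
      exact ⟨fun A₁ ψ₁ h h' => h4 A₁ ψ₁ h (h'.resolve_left hcl),
        fun h _ hh => h5 h (hh.resolve_left hcl), fun h => h6 (h.resolve_left hcl)⟩
  rcases hM with ⟨hcl, rfl⟩ | ⟨hfg, hRn, hxR, hyR, hyR', hM, hloc, hre⟩
  · -- function fields
    have hcK : IsAlgClosure K M := ⟨hcl, inferInstance⟩
    obtain ⟨A₀, ψ₀, h1, -, -⟩ := of_selTor hinf htr s hs hsec hf hfs hg hfd hS.selTor hxy hx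
    refine ⟨A₀, ψ₀, ?_, (SNeigh.sectionAt_of_place h1).2, fun h => absurd hcl h⟩
    rintro ⟨r, hr⟩
    obtain ⟨a, rfl⟩ := Algebra.mem_bot.1 hr
    change algebraMap K M (algebraMap k K a) ∈ A₀
    rw [← IsScalarTower.algebraMap_apply k K M, IsScalarTower.algebraMap_apply k
      (AlgebraicClosure k) M]
    exact (h1.1 _).1
  · -- affine curves
    have hxk : Transcendental k x := by
      rintro ⟨p, hp, hp'⟩
      have h1 : (p.map (algebraMap k (AlgebraicClosure k))).eval₂
          (algebraMap (AlgebraicClosure k) M) (algebraMap K M x) = 0 := by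
        rw [eval₂_map, ← IsScalarTower.algebraMap_eq, ← aeval_def, aeval_algebraMap_apply, hp',
          map_zero]
      obtain ⟨c, -, hc⟩ := root_mem (algebraMap (AlgebraicClosure k) M)
        (Polynomial.map_ne_zero hp) h1
      obtain ⟨c₀, hc₀⟩ := mem_of_fixed (k := k) (a := c) fun σ => by
        apply (algebraMap (AlgebraicClosure k) M).injective
        rw [← hsec, hc, (s σ).commutes]
      apply hx c₀
      apply (algebraMap K M).injective
      rw [← IsScalarTower.algebraMap_apply, IsScalarTower.algebraMap_apply k (AlgebraicClosure k) M,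
        hc₀]
      exact hc.symm
    have hfdim := finite_of_fg htr R hRn hfg hxR hxk
    have hK0 : CharZero K := charZero_of_injective_algebraMap (algebraMap k K).injective
    have hKM : Algebra.IsAlgebraic K M := inferInstance
    have halg : Algebra.IsAlgebraic K (AlgebraicClosure M) := Algebra.IsAlgebraic.trans K M _
    have htrΩ : Algebra.trdeg k (AlgebraicClosure M) = 1 :=
      trdeg_top (K := K) (Full.trdeg_of_finite hxk)
    have hMp := maxUnram_of_over R htrΩ x hxR hxk hM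
    have hK : (⊤ : IntermediateField k K).FG := by
      have h1 : Algebra.EssFiniteType k (IntermediateField.adjoin k {x}) :=
        IntermediateField.essFiniteType_iff.2
          (IntermediateField.fg_adjoin_of_finite (Set.finite_singleton x))
      have h2 := Algebra.EssFiniteType.comp k (IntermediateField.adjoin k {x}) K
      exact IntermediateField.fg_top k K
    obtain ⟨Δ, Ψ, h1, h2, h3, h4, h5, h6, h7⟩ := affine_of_selTor hinf hf hfs hg hfd hS htr hx hxy
      s hs hsec R hRn hfg hxR hyR hyR' hMp (fun v => by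
        obtain ⟨ι, A, φ, hφ, hA⟩ := hloc v
        obtain ⟨-, φ', -, hφ'⟩ := respects_of_place R hφ hA
        exact ⟨ι, φ', hφ'⟩) hre
    obtain ⟨A₀, ψ₀, hA, hB, hmul, hunit⟩ := SFull.exists_place x hxk R hxR Ψ h2
    have hint : ∀ a : AlgebraicClosure k, IsIntegral R (algebraMap (AlgebraicClosure k) M a) :=
      fun a => Pt.integral_const R a
    have hover : SNeigh.IsOver A₀ ψ₀ := by
      refine ⟨fun a => ?_, hunit⟩
      obtain ⟨h8, h9⟩ := hB ⟨_, hint a⟩
      exact ⟨h8, h9.trans (h2 a _ rfl)⟩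
    have hRA : ∀ r : R, algebraMap K M r ∈ A₀ := fun r =>
      (hB (algebraMap R (integralClosure R M) r)).1
    have hres : ∀ Δ : Subgroup Gal(AlgebraicClosure k/k),
        (∀ σ ∈ Δ, ∀ b b' : integralClosure R M, (b' : M) = s σ b → Ψ b' = σ (Ψ b)) →
        SNeigh.ResOn s A₀ ψ₀ Δ := by
      intro Δ hΔ σ hσ z
      obtain ⟨a, b, hb, hab⟩ := (hA z).1 z.2
      let act : integralClosure R M → integralClosure R M := fun c =>
        ⟨s σ c, c.2.map (((s σ).toAlgHom.restrictScalars R : M →ₐ[R] M))⟩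
      have ha' := hΔ σ hσ a (act a) rfl
      have hb' := hΔ σ hσ b (act b) rfl
      have hgy : s σ z * (act b : M) = act a := by
        change s σ z * s σ b = s σ a
        rw [← map_mul, hab]
      have hb0 : Ψ (act b) ≠ 0 := by
        rw [hb']
        exact (_root_.map_ne_zero _).2 hb
      have hz : s σ z ∈ A₀ := (hA _).2 ⟨act a, act b, hb0, hgy⟩
      refine ⟨hz, mul_right_cancel₀ hb0 ?_⟩
      rw [hmul ⟨_, hz⟩ _ _ hgy, ha', hb', ← map_mul, hmul z a b hab]
    obtain ⟨g1, -⟩ := SNeigh.section_of_open hK htr R hfg hM s hsec hRA hover Δ h1 (hres Δ h3)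
    have hy0 : y ≠ 0 := by
      intro h0
      rw [h0, zero_pow two_ne_zero] at hxy
      exact hxk ⟨f, hf.ne_zero, hxy.symm⟩
    refine ⟨A₀, ψ₀, hRA, g1, fun _ => ⟨fun A₁ ψ₁ hψ₁ hA₁ => ?_, fun h hu => ?_, fun hu => ?_⟩⟩
    · obtain ⟨hA', Ψ₁, e', i1, i2⟩ := pt_of_place R s (A := A₁) (ψ := ψ₁) ⟨hψ₁.1, hψ₁.2.1⟩
        fun r => (hA₁ r (hRA r)).1
      have i3 := i2 (SFull.stab K A₁ ψ₁) fun σ hσ z => hψ₁.2.2.2 σ hσ z
      have h8 : Ψ₁ = Ψ := by
        refine h5 Ψ₁ i1 (fun r => ?_) ⟨SFull.stab K A₁ ψ₁, hψ₁.2.2.1, i3⟩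
        obtain ⟨h9, h10⟩ := hA₁ r (hRA r)
        rcases h10 with h10 | h10
        · refine open_agree R s hs (Pt.radClosed_of_max R hMp) (Δ ⊓ SFull.stab K A₁ ψ₁)
            (h1.inter hψ₁.2.2.1) h2 i1 (fun σ hσ => h3 σ hσ.1) (fun σ hσ => i3 σ hσ.2)
            (algebraMap R _ r) ?_
          rcases h10 with h10 | h10
          · exact adjoin_mem_units (by omega) hxy hy0 R hxR hyR hyR' h10
          · exact h10
        · obtain ⟨h11, h12⟩ := hB (algebraMap R (integralClosure R M) r)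
          rw [e', ← h12]
          exact h10
      subst h8
      refine SNeigh.place_eq hunit fun z => ?_
      obtain ⟨a, b, hb, hab⟩ := (hA z).1 z.2
      have h9 : (b : M)⁻¹ ∈ A₁ := hψ₁.2.1 ⟨b, hA' b⟩ (by rw [← e']; exact hb)
      have hb0 : (b : M) ≠ 0 := by
        intro h0
        apply hb
        rw [show b = 0 from Subtype.ext h0, map_zero]
      have h10 : (z : M) = a * (b : M)⁻¹ := by rw [← hab, mul_inv_cancel_right₀ hb0]
      have h11 : (z : M) ∈ A₁ := by rw [h10]; exact A₁.mul_mem _ _ (hA' a) h9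
      refine ⟨h11, mul_right_cancel₀ hb ?_⟩
      rw [hmul z a b hab, e', e', ← map_mul]
      congr 1
      exact Subtype.ext hab
    · have hh : h ∈ R := by
        rcases hu with hu | hu
        · refine (Algebra.adjoin_le ?_ : Algebra.adjoin k {x, y, y⁻¹} ≤ R) hu
          rintro z (rfl | rfl | rfl)
          · exact hxR
          · exact hyR
          · exact hyR'
        · refine hRn _ ?_
          have h8 : unitRing R M ≤ (integralClosure R M).toSubring := by
            rw [unitRing, Subring.closure_le]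
            intro b hb
            exact hb.1
          have h9 : IsIntegral R (algebraMap K M h) := h8 hu
          exact (isIntegral_algebraMap_iff (algebraMap K M).injective).mp h9
      obtain ⟨c, hc, hc'⟩ := h4 ⟨h, hh⟩ hu
      obtain ⟨h8, h9⟩ := hB (algebraMap R (integralClosure R M) ⟨h, hh⟩)
      refine ⟨c, h8, h9.trans hc, fun v ι A φ hφ => ?_⟩
      obtain ⟨hA', φ', e', hφ'⟩ := respects_of_place R hφ.1 hφ.2
      exact ⟨hA' (algebraMap R (integralClosure R M) ⟨h, hh⟩), (e' _).symm.trans (hc' v ι φ' hφ')⟩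
    · have h8 := hres ⊤ fun σ _ b b' hb => (h7 hu).1.2 σ σ (fun _ => rfl) b b' hb
      refine ⟨hover.1, hunit, fun σ τ hστ z => ?_⟩
      obtain ⟨h9, h10⟩ := h8 σ (Subgroup.mem_top σ) z
      exact ⟨h9, h10.trans (hστ _)⟩

/-- **The theorem, affine curves and function fields.** -/
theorem uni_of_selTor {k : Type u} [Field k] [NumberField k]
    (hinf : Fintype.card (InfinitePlace k) = 1)
    {f : k[X]} (hf : f.Monic) (hfs : f.Separable) {g : ℕ} (hg : 1 ≤ g)
    (hfd : f.natDegree = 2 * g + 1) (hS : SelTor k f)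
    {K : Type*} [Field K] [Algebra k K] (htr : Algebra.trdeg k K = 1)
    {x y : K} (hx : ∀ c : k, x ≠ algebraMap k K c) (hxy : y ^ 2 = aeval x f)
    (R : Subalgebra k K)
    {M : Type*} [Field M] [Algebra K M] [IsGalois K M]
    [Algebra (AlgebraicClosure k) M] [Algebra k M]
    [IsScalarTower k K M] [IsScalarTower k (AlgebraicClosure k) M]
    (s : Gal(AlgebraicClosure k/k) →* Gal(M/K)) (hs : Continuous s)
    (hsec : ∀ σ a, s σ (algebraMap (AlgebraicClosure k) M a) =
      algebraMap (AlgebraicClosure k) M (σ a))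
    (hM : (IsAlgClosed M ∧ R = ⊥) ∨
      (R.FG ∧ (∀ h : K, IsIntegral R h → h ∈ R) ∧ x ∈ R ∧ y ∈ R ∧ y⁻¹ ∈ R ∧
        Pt.IsMaxUnramOver R K M (AlgebraicClosure k) ∧
        (∀ v : HeightOneSpectrum (𝓞 k),
          ∃ (ι : AlgebraicClosure k →ₐ[k] AlgebraicClosure (v.adicCompletion k))
            (A : ValuationSubring M) (φ : A →+* AlgebraicClosure (v.adicCompletion k)),
            IsPointOn s R (v.adicCompletion k)
              (ι : _ →+* AlgebraicClosure (v.adicCompletion k)) A φ) ∧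
        ∀ τ : AlgebraicClosure k →+* ℂ,
          (∀ a : k, starRingEnd ℂ (τ (algebraMap k _ a)) = τ (algebraMap k _ a)) →
          ∃ (A : ValuationSubring M) (φ : A →+* ℂ), IsPointOn s R ℝ τ A φ)) :
    ∃ (A₀ : ValuationSubring M) (ψ₀ : A₀ →+* AlgebraicClosure k),
      (∀ r : R, algebraMap K M r ∈ A₀) ∧ Sel.IsSectionAt s A₀ ψ₀ ∧
      (∀ (A₁ : ValuationSubring M) (ψ₁ : A₁ →+* AlgebraicClosure k), Sel.IsSectionAt s A₁ ψ₁ →
        (IsAlgClosed M ∨ ∀ (r : R) (h₀ : algebraMap K M r ∈ A₀), ∃ h₁ : algebraMap K M r ∈ A₁,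
          IsUnitSum R M x y r ∨ ψ₁ ⟨_, h₁⟩ = ψ₀ ⟨_, h₀⟩) →
        A₁ = A₀ ∧ ∀ (a : A₁) (b : A₀), (a : M) = b → ψ₁ a = ψ₀ b) ∧
      (∀ h : K, algebraMap K M h ∈ A₀ → (IsAlgClosed M ∨ IsUnitSum R M x y h) →
        HasVal s R A₀ ψ₀ h) ∧
      ((IsAlgClosed M ∨ ∀ r : R, IsUnitSum R M x y r) →
        Sel.IsPlaceOf s k (RingHom.id _) A₀ ψ₀) :=
  uni_of_selTorR hinf hf hfs hg hfd hS.selTorR htr hx hxy R s hs hsec
    (hM.imp_right fun h => ⟨h.1, h.2.1, h.2.2.1, h.2.2.2.1, h.2.2.2.2.1, h.2.2.2.2.2.1,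
      h.2.2.2.2.2.2.1, fun _ τ hτ => (h.2.2.2.2.2.2.2 τ hτ).imp fun _ => Exists.imp fun _ => And.left⟩)

end Pool.Agent.Lib.MP_2f3286_ag.HYP
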