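import Pool.Agent.Lib.MP_2f3286_ag.HYP.AFApx
import Pool.Agent.Lib.MP_2f3286_ag.HYP.HFin

/-!
# The unit, for a section of the fundamental group
-/

open Polynomial IsDedekindDomain NumberField
open scoped WithZero

noncomputable section

namespace Pool.Agent.Lib.MP_2f3286_ag.HYP

open scoped Classical in
/-- `PHI` is a unit over the affine curve without the ramification points -/
theorem PHI_integral {R Ω : Type*} [CommRing R] [Field Ω] [Algebra R Ω] {φ : Polynomial Ω} {g : ℕ}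
    (hφ : Good g φ) (hm : φ.Monic) (hs : φ.Splits) {P : Pt φ} {G O : Polynomial Ω}
    (hG : φ = G ^ 2 + (X - C P.x) * O ^ 2) (hroot : ∀ a, φ.eval a = 0 → IsIntegral R a)
    (hdiff : ∀ a b, φ.eval a = 0 → φ.eval b = 0 → a ≠ b → IsIntegral R (a - b)⁻¹)
    (hx : IsIntegral R P.x) (hy : IsIntegral R (P.y)⁻¹) (hy0 : P.y ≠ 0) :
    IsIntegral R (PHI φ G O) ∧ IsIntegral R (PHI φ G O)⁻¹ := by
  obtain ⟨hprod, hcard⟩ := prod_roots_coe hm hs hφ
  let α : φ.roots.toFinset → Ω := fun i => (i : Ω)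
  have hα : Function.Injective α := Subtype.val_injective
  have hf : ∏ i, (X - C (α i)) = G ^ 2 + (X - C P.x) * O ^ 2 := hprod.trans hG
  have hr : ∀ i, φ.eval (α i) = 0 := by
    intro i
    have h1 := i.2
    rw [Multiset.mem_toFinset, mem_roots hm.ne_zero] at h1
    exact h1
  have hsq := rt_sq hα hf
  have hxα : ∀ i, P.x ≠ α i := by
    intro i hi
    apply hy0
    have h3 := P.eqn
    rw [hi, hr] at h3
    exact pow_eq_zero_iff two_ne_zero |>.1 h3
  set r := rt α G O with hrdef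
  have h1 : ∀ i, IsIntegral R (r i) := by
    intro i
    refine IsIntegral.of_pow (n := 2) (by norm_num) ?_
    rw [hsq]
    exact hx.sub (hroot _ (hr i))
  have h2 : ∀ i, IsIntegral R (P.x - α i)⁻¹ := by
    intro i
    have h3 : P.y ^ 2 = (P.x - α i) * ∏ j ∈ Finset.univ.erase i, (P.x - α j) := by
      rw [P.eqn, Finset.mul_prod_erase Finset.univ (fun j => P.x - α j) (Finset.mem_univ i)]
      have h4 := congrArg (eval P.x) hprod
      rw [eval_prod] at h4
      rw [← h4]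
      refine Finset.prod_congr rfl fun j _ => ?_
      rw [eval_sub, eval_X, eval_C]
    have h5 : (P.x - α i)⁻¹ = (∏ j ∈ Finset.univ.erase i, (P.x - α j)) * ((P.y)⁻¹) ^ 2 := by
      have h6 : P.x - α i ≠ 0 := sub_ne_zero.mpr (hxα i)
      rw [inv_pow, h3]
      rw [mul_inv, mul_comm (P.x - α i)⁻¹, ← mul_assoc, mul_inv_cancel₀, one_mul]
      intro h0
      rw [h0, mul_zero] at h3
      exact hy0 (pow_eq_zero_iff two_ne_zero |>.1 h3)
    rw [h5]
    exact (IsIntegral.prod _ fun j _ => hx.sub (hroot _ (hr j))).mul (hy.pow 2)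
  have hr0 : ∀ i, r i ≠ 0 := rt_ne_zero hα hf hxα
  have h3 : ∀ i, IsIntegral R (r i)⁻¹ := by
    intro i
    have h4 : (r i)⁻¹ = r i * (P.x - α i)⁻¹ := by
      rw [← hsq i, pow_two, mul_inv, ← mul_assoc, mul_inv_cancel₀ (hr0 i), one_mul]
    rw [h4]
    exact (h1 i).mul (h2 i)
  have h4 : ∀ i j, i ≠ j → IsIntegral R (r i + r j)⁻¹ := by
    intro i j hij
    have h5 := rt_add_mul_sub hα hf i j
    have h6 : α j - α i ≠ 0 := sub_ne_zero.mpr fun h => hij (hα h).symm
    have h7 : (r i + r j)⁻¹ = (r i - r j) * (α j - α i)⁻¹ := by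
      rw [← h5, mul_inv]
      have h8 : r i - r j ≠ 0 := by
        intro h0
        rw [← hrdef, h0, mul_zero] at h5
        exact h6 h5.symm
      rw [← hrdef, mul_comm (r i + r j)⁻¹, ← mul_assoc, mul_inv_cancel₀ h8, one_mul]
    rw [h7]
    exact ((h1 i).sub (h1 j)).mul (hdiff _ _ (hr j) (hr i) fun h => hij (hα h).symm)
  have h5 : PHI φ G O = ∏ i : φ.roots.toFinset, ∏ j ∈ Finset.univ.erase i, r i / (r i + r j) := by
    unfold PHI
    exact Phi_eq _ _
  rw [h5]
  refine ⟨IsIntegral.prod _ fun i _ => IsIntegral.prod _ fun j hj => ?_, ?_⟩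
  · rw [div_eq_mul_inv]
    exact (h1 i).mul (h4 i j (Finset.ne_of_mem_erase hj).symm)
  · rw [← Finset.prod_inv_distrib]
    refine IsIntegral.prod _ fun i _ => ?_
    rw [← Finset.prod_inv_distrib]
    refine IsIntegral.prod _ fun j hj => ?_
    rw [inv_div, div_eq_mul_inv]
    exact ((h1 i).add (h1 j)).mul (h3 i)

universe u

/-- **Good places.** At almost all `v` a place above a local point can be reduced. -/
theorem good_place_lft {k : Type u} [Field k] [NumberField k] {K : Type*} [Field K] [Algebra k K]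
    {M : Type*} [Field M] [Algebra K M]
    {Ω : Type*} [Field Ω] [Algebra K Ω] [Algebra M Ω] [Algebra (AlgebraicClosure k) Ω] [Algebra k Ω]
    [IsScalarTower k K Ω] [IsScalarTower k (AlgebraicClosure k) Ω]
    (s : Gal(AlgebraicClosure k/k) →* Gal(M/K)) {f : k[X]} (hf : f.Monic) (hfs : f.Separable)
    {g : ℕ} (hfd : f.natDegree = 2 * g + 1) :
    ∃ B : Finset (HeightOneSpectrum (𝓞 k)), ∀ v ∉ B,
      ∀ (ι : AlgebraicClosure k →ₐ[k] AlgebraicClosure (v.adicCompletion k))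
        (A : ValuationSubring Ω) (π : A →+* AlgebraicClosure (v.adicCompletion k)),
        PlaceOver s (v.adicCompletion k)
          (ι : _ →+* AlgebraicClosure (v.adicCompletion k)) A π →
        ∃ (E : Type u) (_ : Field E) (_ : IsAlgClosed E) (A' : ValuationSubring Ω) (π' : A' →+* E)
          (ψ : E[X]) (S : Set E), Plc A' π' (f.map (algebraMap k Ω)) ψ ∧ Good g ψ ∧ S.Finite ∧
          (∀ a : A', (∀ (σ : Gal(AlgebraicClosure k/k)) (γ : Gal(Ω/K)), Lft s σ γ → γ (a : Ω) = a) →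
            π' a ∈ S) ∧
          ∀ a : A', π' a ≠ 0 →
            (∀ (σ : Gal(AlgebraicClosure k/k)) (γ : Gal(Ω/K)), Lft s σ γ → γ (a : Ω) = a) →
            ∃ (h : (a : Ω) ∈ A) (y : v.adicCompletion k), π ⟨a, h⟩ = algebraMap _ _ y ∧
              Valued.v y = (1 : ℤᵐ⁰) := by
  obtain ⟨B, hB⟩ := exists_good hf hfs hfd
  refine ⟨B, fun v hv ι A π h => ?_⟩
  have : CharZero (v.adicCompletion k) := charZero_of_injective_algebraMap
    (algebraMap k (v.adicCompletion k)).injective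
  have hGal : IsGalois (v.adicCompletion k) (AlgebraicClosure (v.adicCompletion k)) :=
    IsAlgClosure.isGalois _ _
  obtain ⟨E, iE, iE', A', π', S, hS, hloc, hAA, hA'⟩ := exists_cplace v π h.loc
  have hc : ∀ c : k, ∃ h : algebraMap k Ω c ∈ A, π ⟨_, h⟩ =
      algebraMap _ _ (algebraMap k (v.adicCompletion k) c) := by
    intro c
    obtain ⟨h1, h2⟩ := h.const (algebraMap k _ c)
    have h3 : algebraMap k Ω c = algebraMap (AlgebraicClosure k) Ω (algebraMap k _ c) :=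
      IsScalarTower.algebraMap_apply _ _ _ _
    refine ⟨h3 ▸ h1, ?_⟩
    have h4 : (⟨algebraMap k Ω c, h3 ▸ h1⟩ : A) = ⟨_, h1⟩ := Subtype.ext h3
    rw [h4, h2]
    change ι (algebraMap k _ c) = _
    rw [AlgHom.commutes, ← IsScalarTower.algebraMap_apply]
  obtain ⟨ψ, h1, h2⟩ := hB v hv (algebraMap k Ω) A' π' hloc (fun c hc1 => by
    obtain ⟨h, h'⟩ := hc c
    refine ((hA' _ h _ h').1).2 ?_
    rw [val_alg]
    exact hc1)
  refine ⟨E, iE, iE', A', π', ψ, S, h1, h2, hS, fun a ha => ?_, fun a ha0 ha => ?_⟩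
  · have h5 := hAA a a.2
    obtain ⟨y, hy⟩ := h.value_mem (hres_fin v ι) h5 ha
    exact ((hA' a h5 y hy.symm).2 a.2).1
  · have h5 := hAA a a.2
    obtain ⟨y, hy⟩ := h.value_mem (hres_fin v ι) h5 ha
    exact ⟨h5, y, hy.symm, ((hA' a h5 y hy.symm).2 a.2).2.1 ha0⟩

section

variable {k : Type u} [Field k] [NumberField k] {K : Type*} [Field K] [Algebra k K]
  {Ω : Type*} [Field Ω] [Algebra K Ω] [IsAlgClosed Ω]
  [Algebra (AlgebraicClosure k) Ω] [Algebra k Ω]
  [IsScalarTower k K Ω] [IsScalarTower k (AlgebraicClosure k) Ω]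
  {M : Type*} [Field M] [Algebra K M] [Algebra M Ω]
  (R : Subalgebra k K) (s : Gal(AlgebraicClosure k/k) →* Gal(M/K))

/-- a unit over the curve, fixed by the section, whose values are units at almost all places -/
def GUnit (Ω : Type*) [Field Ω] [Algebra K Ω] [Algebra (AlgebraicClosure k) Ω] [Algebra M Ω] : Prop :=
  ∃ T : Ω, (∀ (σ : Gal(AlgebraicClosure k/k)) (γ : Gal(Ω/K)), Lft s σ γ → γ T = T) ∧
    (∀ c : AlgebraicClosure k, T ≠ algebraMap _ Ω c) ∧ IsIntegral R T ∧ IsIntegral R T⁻¹ ∧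
    ∃ B : Finset (HeightOneSpectrum (𝓞 k)), ∀ v ∉ B,
      ∀ (ι : AlgebraicClosure k →ₐ[k] AlgebraicClosure (v.adicCompletion k))
        (A : ValuationSubring Ω) (π : A →+* AlgebraicClosure (v.adicCompletion k)),
        PlaceOver s (v.adicCompletion k) (ι : _ →+* AlgebraicClosure (v.adicCompletion k)) A π →
        ∀ (h : T ∈ A) (y : v.adicCompletion k), π ⟨T, h⟩ = algebraMap _ _ y →
          Valued.v y = (1 : ℤᵐ⁰)

variable {R s}

/-- the values of a function at almost all places, from the chains at the good places -/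
theorem val_of_chain {f : k[X]} (hf : f.Monic) (hfs : f.Separable) {g : ℕ}
    (hfd : f.natDegree = 2 * g + 1) {T : Ω}
    (hT : ∀ (σ : Gal(AlgebraicClosure k/k)) (γ : Gal(Ω/K)), Lft s σ γ → γ T = T)
    (key : ∀ {κ : Type u} [Field κ] [IsAlgClosed κ] {A : ValuationSubring Ω} {π : A →+* κ}
      {ψ : κ[X]} (h : Plc A π (f.map (algebraMap k Ω)) ψ) (h1 : Good g (f.map (algebraMap k Ω)))
      (h2 : Good g ψ), (∀ Z : ℕ → J (f.map (algebraMap k Ω)), (∀ n, 2 • Z (n + 1) = Z n) →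
        (∀ n, Z n ∈ lfix f s) → ∀ n, 2 • h.sp h1 h2 (Z n) = 0 → h.sp h1 h2 (Z n) = 0) →
      ∃ hA : T ∈ A, π ⟨T, hA⟩ ≠ 0) :
    ∃ B : Finset (HeightOneSpectrum (𝓞 k)), ∀ v ∉ B,
      ∀ (ι : AlgebraicClosure k →ₐ[k] AlgebraicClosure (v.adicCompletion k))
        (A : ValuationSubring Ω) (π : A →+* AlgebraicClosure (v.adicCompletion k)),
        PlaceOver s (v.adicCompletion k) (ι : _ →+* AlgebraicClosure (v.adicCompletion k)) A π →
        ∀ (h : T ∈ A) (y : v.adicCompletion k), π ⟨T, h⟩ = algebraMap _ _ y →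
          Valued.v y = (1 : ℤᵐ⁰) := by
  obtain ⟨B, hB⟩ := good_place_lft (Ω := Ω) s hf hfs hfd
  refine ⟨B, fun v hv ι A π hP hTA y hy => ?_⟩
  obtain ⟨κ, _, _, A', π', ψ, Sf, hP', hψ', hSf, hSv, hval⟩ := hB v hv ι A π hP
  have hφ : Good g (f.map (algebraMap k Ω)) := good_of hfs hfd _
  let Gs : Set (Ω →+* Ω) := {h | ∃ (σ : Gal(AlgebraicClosure k/k)) (γ : Gal(Ω/K)), Lft s σ γ ∧
    h = (γ : Ω →+* Ω)}
  have hGs : ∀ h ∈ Gs, (f.map (algebraMap k Ω)).map h = f.map (algebraMap k Ω) := by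
    rintro _ ⟨σ, γ, -, rfl⟩
    exact map_fixΩ f γ
  obtain ⟨hA', hA0'⟩ := key hP' hφ hψ' (fun Z hZ2 hZ n => chain_good hP' hφ hψ' hGs hSf
    (fun a ha => hSv a fun σ γ h => ha _ ⟨σ, γ, h, rfl⟩) hZ2 (by
      rintro _ ⟨σ, γ, h, rfl⟩ n
      exact hZ n σ γ h) n)
  obtain ⟨h3, x', h4, h5⟩ := hval ⟨T, hA'⟩ hA0' hT
  have h6 : algebraMap (v.adicCompletion k) (AlgebraicClosure (v.adicCompletion k)) x' =
      algebraMap _ _ y := by
    rw [← h4, ← hy]
  rw [← (algebraMap (v.adicCompletion k) (AlgebraicClosure (v.adicCompletion k))).injective h6]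
  exact h5

end

end Pool.Agent.Lib.MP_2f3286_ag.HYP
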