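import Pool.Agent.Lib.MP_2f3286_ag.HYP.AFPlace
import Pool.Agent.Lib.MP_2f3286_ag.HYP.HT1
import Pool.Agent.Lib.MP_2f3286_ag.HYP.Kst
import Pool.Agent.Lib.MP_2f3286_ag.Pt.MaxUnr

/-!
# Halves of unramified classes are unramified
-/

open Polynomial

noncomputable section

namespace Pool.Agent.Lib.MP_2f3286_ag.HYP

/-- specialisation is equivariant -/
theorem Plc.sp_act {Ω Fb : Type*} [Field Ω] [Field Fb] [IsAlgClosed Ω] [IsAlgClosed Fb]
    {A : ValuationSubring Ω} {π : A →+* Fb} {φ : Polynomial Ω} {ψ : Fb[X]} {g : ℕ} (h : Plc A π φ ψ)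
    (h1 : Good g φ) (h2 : Good g ψ) (σ : Ω →+* Ω) (hσ : φ.map σ = φ) (τ : Fb →+* Fb)
    (hτ : ψ.map τ = ψ) (hA : ∀ x : A, ∃ h' : σ x ∈ A, π ⟨σ x, h'⟩ = τ (π x)) (z : J φ) :
    h.sp h1 h2 (J.map σ hσ z) = J.map τ hτ (h.sp h1 h2 z) := by
  have key : (h.sp h1 h2).comp (J.map σ hσ) = (J.map τ hτ).comp (h.sp h1 h2) := by
    apply J.hom_ext
    intro P
    rw [AddMonoidHom.comp_apply, AddMonoidHom.comp_apply, J.map_cl]
    by_cases hx : P.x ∈ A
    · obtain ⟨hx', hx1⟩ := hA ⟨P.x, hx⟩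
      obtain ⟨hy', hy1⟩ := hA ⟨P.y, h.y_mem hx⟩
      rw [h.sp_cl h1 h2 P hx, J.map_cl]
      refine (h.sp_cl h1 h2 (P.map σ hσ) hx').trans ?_
      congr 1
      apply Pt.ext
      · exact hx1
      · exact hy1
    · rw [h.sp_cl' h1 h2 P hx, map_zero]
      apply h.sp_cl' h1 h2
      intro hx'
      obtain ⟨hb, hb0⟩ := h.inv_of_notMem hx
      obtain ⟨hb', hb1⟩ := hA ⟨P.x⁻¹, hb⟩
      rw [hb0, map_zero] at hb1
      have hx0 : P.x ≠ 0 := fun h0 => hx (h0 ▸ zero_mem _)
      have h5 : (⟨σ P.x, hx'⟩ : A) * ⟨σ P.x⁻¹, hb'⟩ = 1 := by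
        apply Subtype.ext
        change σ P.x * σ P.x⁻¹ = 1
        rw [← map_mul, mul_inv_cancel₀ hx0, map_one]
      have h6 := congrArg π h5
      rw [map_mul, hb1, mul_zero, map_one] at h6
      exact zero_ne_one h6
  exact DFunLike.congr_fun key z

section

variable {k kb K Ω : Type*} [Field k] [Field kb] [Algebra k kb] [Field K] [Field Ω] [Algebra K Ω]
  [Algebra kb Ω] [Algebra k Ω] [IsScalarTower k kb Ω] [Algebra k K] [IsScalarTower k K Ω]
  {f : k[X]} {Fb : Type*} [Field Fb]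
  {ι : kb →+* Fb} {A : ValuationSubring Ω} {π : A →+* Fb}

/-- a place which is the identity on constants reduces the curve to itself -/
theorem plc_of_const (hf : f.Monic)
    (hc : ∀ a : kb, ∃ h : algebraMap kb Ω a ∈ A, π ⟨algebraMap kb Ω a, h⟩ = ι a)
    (hloc : ∀ a : A, π a ≠ 0 → (a : Ω)⁻¹ ∈ A) :
    Plc A π (f.map (algebraMap k Ω)) (f.map (ι.comp (algebraMap k kb))) := by
  refine ⟨hloc, ?_⟩
  let j : kb →+* A := (algebraMap kb Ω).codRestrict A fun a => (hc a).1
  refine ⟨f.map (j.comp (algebraMap k kb)), hf.map _, ?_, ?_⟩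
  · rw [Polynomial.map_map]
    congr 1
    apply RingHom.ext
    intro a
    exact (IsScalarTower.algebraMap_apply k kb Ω a).symm
  · rw [Polynomial.map_map]
    congr 1
    apply RingHom.ext
    intro a
    exact (hc (algebraMap k kb a)).2

/-- specialisation of constant classes -/
theorem Plc.sp_jconst [IsAlgClosed Ω] [IsAlgClosed Fb] {g : ℕ}
    (h : Plc A π (f.map (algebraMap k Ω)) (f.map (ι.comp (algebraMap k kb))))
    (hc : ∀ a : kb, ∃ h : algebraMap kb Ω a ∈ A, π ⟨algebraMap kb Ω a, h⟩ = ι a)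
    (h1 : Good g (f.map (algebraMap k Ω))) (h2 : Good g (f.map (ι.comp (algebraMap k kb))))
    (z : J (f.map (algebraMap k kb))) :
    h.sp h1 h2 (jconst f z) = J.map ι (Polynomial.map_map _ _ _) z := by
  have key : (h.sp h1 h2).comp (jconst f) = J.map ι (Polynomial.map_map _ _ _) := by
    apply J.hom_ext
    intro P
    rw [AddMonoidHom.comp_apply, jconst, J.map_cl, J.map_cl]
    obtain ⟨hx', hx1⟩ := hc P.x
    obtain ⟨hy', hy1⟩ := hc P.y
    rw [h.sp_cl h1 h2 (P.map _ _) hx']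
    congr 1
    apply Pt.ext
    · exact hx1
    · exact hy1
  exact DFunLike.congr_fun key z

/-- the stabiliser of a class is open -/
theorem stab_isOpen [IsAlgClosed Ω] [Algebra.IsAlgebraic K Ω] {g : ℕ}
    (hΩ : Good g (f.map (algebraMap k Ω))) (E' : J (f.map (algebraMap k Ω))) :
    IsOpen {γ : Gal(Ω/K) | sact f γ E' = E'} := by
  classical
  obtain ⟨m, hm⟩ := exists_clm hΩ E'
  obtain ⟨S, hS⟩ : ∃ S : Finset Ω, S = (m.map Pt.x + m.map Pt.y).toFinset := ⟨_, rfl⟩
  have hfin : FiniteDimensional K (IntermediateField.adjoin K (S : Set Ω)) :=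
    IntermediateField.finiteDimensional_adjoin fun x _ => Algebra.IsIntegral.isIntegral x
  have hopen := IntermediateField.fixingSubgroup_isOpen (IntermediateField.adjoin K (S : Set Ω))
  have hfix : ∀ τ ∈ (IntermediateField.adjoin K (S : Set Ω)).fixingSubgroup,
      sact f τ E' = E' := by
    intro τ hτ
    have h2 : ∀ a ∈ S, τ a = a := by
      intro a ha
      exact (IntermediateField.mem_fixingSubgroup_iff _ _).mp hτ a
        (IntermediateField.subset_adjoin K _ ha)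
    rw [hm]
    unfold sact
    rw [J.map_clm']
    congr 1
    conv_rhs => rw [← Multiset.map_id m]
    refine Multiset.map_congr rfl fun P hP => ?_
    apply Pt.ext
    · refine h2 P.x ?_
      rw [hS, Multiset.mem_toFinset, Multiset.mem_add]
      exact Or.inl (Multiset.mem_map_of_mem _ hP)
    · refine h2 P.y ?_
      rw [hS, Multiset.mem_toFinset, Multiset.mem_add]
      exact Or.inr (Multiset.mem_map_of_mem _ hP)
  let St : Subgroup Gal(Ω/K) :=
    { carrier := {γ | sact f γ E' = E'}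
      mul_mem' := fun {a b} ha hb => by
        change sact f (a * b) E' = E'
        rw [sact_mul, show sact f b E' = E' from hb, show sact f a E' = E' from ha]
      one_mem' := sact_one f E'
      inv_mem' := fun {a} ha => by
        change sact f a⁻¹ E' = E'
        have h : sact f a E' = E' := ha
        conv_lhs => rw [← h]
        rw [← sact_mul, inv_mul_cancel, sact_one] }
  exact Subgroup.isOpen_mono (H₁ := (IntermediateField.adjoin K (S : Set Ω)).fixingSubgroup)
    (H₂ := St) hfix hopen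

omit [Algebra k kb] [IsScalarTower k kb Ω] in
/-- a class fixed by the inertia elements is fixed by the automorphisms over the maximal unramified
extension -/
theorem fixed_of_inertia [IsAlgClosed Ω] [IsGalois K Ω] {M : Type*} [Field M]
    [Algebra M Ω] {R : Subalgebra k K} {g : ℕ} (hΩ : Good g (f.map (algebraMap k Ω)))
    (hM : ∀ x : Ω, (∀ g ∈ Pt.inertia R K Ω kb, g x = x) → ∃ m : M, algebraMap M Ω m = x)
    {E' : J (f.map (algebraMap k Ω))} (hE : ∀ g ∈ Pt.inertia R K Ω kb, sact f g E' = E')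
    (δ : Gal(Ω/K)) (hδ : ∀ m : M, δ (algebraMap M Ω m) = algebraMap M Ω m) : sact f δ E' = E' := by
  let St : Subgroup Gal(Ω/K) :=
    { carrier := {γ | sact f γ E' = E'}
      mul_mem' := fun {a b} ha hb => by
        change sact f (a * b) E' = E'
        rw [sact_mul, show sact f b E' = E' from hb, show sact f a E' = E' from ha]
      one_mem' := sact_one f E'
      inv_mem' := fun {a} ha => by
        change sact f a⁻¹ E' = E'
        have h : sact f a E' = E' := ha
        conv_lhs => rw [← h]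
        rw [← sact_mul, inv_mul_cancel, sact_one] }
  have hcl : IsClosed (St : Set Gal(Ω/K)) := Subgroup.isClosed_of_isOpen _ (stab_isOpen hΩ E')
  have h1 := InfiniteGalois.fixingSubgroup_fixedField (k := K) (K := Ω) ⟨St, hcl⟩
  have h2 : δ ∈ (IntermediateField.fixedField St).fixingSubgroup := by
    rw [IntermediateField.mem_fixingSubgroup_iff]
    intro x hx
    rw [IntermediateField.mem_fixedField_iff] at hx
    obtain ⟨m, rfl⟩ := hM x fun g hg => hx g (hE g hg)
    exact hδ m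
  have h3 : δ ∈ St := by
    have h4 : (IntermediateField.fixedField St).fixingSubgroup = St := h1
    rw [← h4]
    exact h2
  exact h3

/-- **inertia elements fix the halves of the classes that they fix** -/
theorem inertia_half [CharZero k] [IsAlgClosed Ω] [IsAlgClosed kb] (R : Subalgebra k K)
    (htr : Algebra.trdeg k Ω = 1) (t : R) (ht : Transcendental k (t : K))
    (hBk : ∀ a : kb, IsIntegral R (algebraMap kb Ω a)) {g : ℕ}
    (hf : f.Monic) (hfs : f.Separable) (hfd : f.natDegree = 2 * g + 1)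
    {γ : Gal(Ω/K)} (hγ : γ ∈ Pt.inertia R K Ω kb) {n : ℕ} {E' : J (f.map (algebraMap k Ω))}
    (h : sact f γ (2 ^ n • E') = 2 ^ n • E') : sact f γ E' = E' := by
  classical
  obtain ⟨Ψ, hΨ, hΨγ⟩ := hγ
  have hΩ : Good g (f.map (algebraMap k Ω)) := good_of hfs hfd _
  have hkb : Good g (f.map ((RingHom.id kb).comp (algebraMap k kb))) := good_of hfs hfd _
  let D : Subring Ω := (integralClosure R Ω).toSubring
  let ΦD : D →+* kb := Ψ
  have hfrac : ∀ x : Ω, ∃ a b : D, x * b = a ∧ (ΦD a ≠ 0 ∨ ΦD b ≠ 0) := fun x =>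
    frac_of_hom R htr t ht Ψ x
  obtain ⟨A, π, hloc, hA, hA'⟩ := exists_place_of_frac D ΦD hfrac
  have hin : ∀ c : D, ∃ h : (c : Ω) ∈ A, π ⟨c, h⟩ = ΦD c := by
    intro c
    obtain ⟨h, h'⟩ := hA c c 1 (by rw [Subring.coe_one, mul_one]) (by rw [map_one]; exact one_ne_zero)
    exact ⟨h, by rw [h', map_one, div_one]⟩
  have hc : ∀ a : kb, ∃ h : algebraMap kb Ω a ∈ A, π ⟨algebraMap kb Ω a, h⟩ = RingHom.id kb a := by
    intro a
    obtain ⟨h, h'⟩ := hin ⟨_, hBk a⟩
    exact ⟨h, h'.trans (hΨ a ⟨_, hBk a⟩ rfl)⟩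
  have hact : ∀ x : Ω, x ∈ D → γ x ∈ D := fun x hx =>
    IsIntegral.map ((γ.toAlgHom.restrictScalars R : Ω →ₐ[R] Ω)) hx
  have hγA : ∀ x : A, ∃ h' : (γ : Ω →+* Ω) x ∈ A, π ⟨(γ : Ω →+* Ω) x, h'⟩ = RingHom.id kb (π x) := by
    intro x
    obtain ⟨a, b, hab, hb⟩ := hA' x x.2
    have hb' : ΦD ⟨γ b, hact b b.2⟩ = ΦD b := hΨγ b ⟨γ b, hact b b.2⟩ rfl
    have ha' : ΦD ⟨γ a, hact a a.2⟩ = ΦD a := hΨγ a ⟨γ a, hact a a.2⟩ rfl
    have h1 : γ x * ((⟨γ b, hact b b.2⟩ : D) : Ω) = ((⟨γ a, hact a a.2⟩ : D) : Ω) := by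
      change γ x * γ b = γ a
      rw [← map_mul, hab]
    obtain ⟨h2, h3⟩ := hA _ _ _ h1 (by rw [hb']; exact hb)
    obtain ⟨h4, h5⟩ := hA _ _ _ hab hb
    refine ⟨h2, ?_⟩
    refine h3.trans ?_
    rw [ha', hb', ← h5]
    rfl
  have hpl := plc_of_const (f := f) hf hc hloc
  rw [← sub_eq_zero]
  refine hpl.sp_torsion_inj hΩ hkb n ?_ ?_
  · rw [nsmul_sub, ← map_nsmul, h, sub_self]
  · rw [map_sub]
    have h1 := hpl.sp_act hΩ hkb (γ : Ω →+* Ω) (map_fixΩ f γ) (RingHom.id kb) (Polynomial.map_id)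
      hγA E'
    rw [J.map_id] at h1
    rw [sub_eq_zero]
    exact h1

end

end Pool.Agent.Lib.MP_2f3286_ag.HYP
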