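import Pool.Agent.Lib.MP_2f3286_ag.HYP.Gens

/-!
# The action of the Galois group of `k` on divisor classes
-/

open Polynomial

noncomputable section

namespace Pool.Agent.Lib.MP_2f3286_ag.HYP

theorem map_fix {k kb : Type*} [Field k] [Field kb] [Algebra k kb] (f : k[X]) (σ : Gal(kb/k)) :
    (f.map (algebraMap k kb)).map (σ : kb →+* kb) = f.map (algebraMap k kb) := by
  rw [Polynomial.map_map]
  congr 1
  ext a
  exact σ.commutes a

theorem map_fix' {k kb F Fb : Type*} [Field k] [Field kb] [Algebra k kb] [Field F] [Field Fb]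
    [Algebra F Fb] (f : k[X]) {ι : kb →+* Fb} {σ : Gal(kb/k)} {τ : Gal(Fb/F)}
    (h : ∀ a, ι (σ a) = τ (ι a)) :
    (f.map (ι.comp (algebraMap k kb))).map (τ : Fb →+* Fb) = f.map (ι.comp (algebraMap k kb)) := by
  rw [Polynomial.map_map]
  congr 1
  ext a
  change τ (ι (algebraMap k kb a)) = ι (algebraMap k kb a)
  rw [← h, σ.commutes]

/-- the action of the Galois group of `k` on the classes over the algebraic closure of `k` -/
def gact {k kb : Type*} [Field k] [Field kb] [Algebra k kb] (f : k[X]) (σ : Gal(kb/k)) :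
    J (f.map (algebraMap k kb)) →+ J (f.map (algebraMap k kb)) :=
  J.map (σ : kb →+* kb) (map_fix f σ)

end Pool.Agent.Lib.MP_2f3286_ag.HYP
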