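import Pool.Agent.Lib.MP_2f3286_ag.HYP.Two

/-!
# Homomorphisms of fields and reduced divisors   (module Aut, 60 minutes)

PROOF. `good_map`: degree, separability (`Polynomial.Separable.map`), `2 ≠ 0` are preserved (`j` injective). `reduced_map`: `Pt.map j` is injective and commutes with `inv`. `map_injective`: reduced representatives (`exists_reduced`,
`J.map_clm'`, `Reduced.unique`). `fixed_reduced`: `clm m = J.map j (clm m) = clm (m.map (Pt.map j))`, both reduced. `two_torsion_lift`: by `two_torsion` the class is a sum of classes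
of points with `y = 0`, `x` a root of `ψ = φ.map j`; the roots of `ψ` are the images of the roots of `φ` (`E` is algebraically closed, `φ` splits: `Polynomial.roots_map`).
`fixed_of_orbit`: the points `(σ P)` for `σ` in the group are all in `m` (`m.map (Pt.map σ) = m`), at most `#m ≤ g` different ones.
-/

open Polynomial

noncomputable section

namespace Pool.Agent.Lib.MP_2f3286_ag.HYP

variable {E E' : Type*} [Field E] [Field E'] {g : ℕ} {φ : E[X]} {ψ : E'[X]}

theorem good_map (hφ : Good g φ) (j : E →+* E') (hj : φ.map j = ψ) : Good g ψ := by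
  subst hj
  refine ⟨?_, hφ.sep.map, ?_⟩
  · intro h
    apply hφ.two
    apply j.injective
    rw [map_zero, map_ofNat]
    exact h
  · rw [natDegree_map, hφ.deg]

theorem map_pt_injective (j : E →+* E') (hj : φ.map j = ψ) :
    Function.Injective (Pt.map j hj) := by
  intro P Q h
  have hx : j P.x = j Q.x := congrArg Pt.x h
  have hy : j P.y = j Q.y := congrArg Pt.y h
  exact Pt.ext (j.injective hx) (j.injective hy)

private theorem aut_map_inv (j : E →+* E') (hj : φ.map j = ψ) (P : Pt φ) :
    (Pt.map j hj P).inv = Pt.map j hj P.inv := by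
  apply Pt.ext
  · rfl
  · exact (map_neg j P.y).symm

theorem reduced_map (j : E →+* E') (hj : φ.map j = ψ) {m : Multiset (Pt φ)}
    (hm : Reduced g m) : Reduced g (m.map (Pt.map j hj)) := by
  refine ⟨by rw [Multiset.card_map]; exact hm.1, ?_⟩
  intro Q hQ
  have hQm : Q ∈ m.map (Pt.map j hj) := Multiset.mem_of_le hQ (Multiset.mem_cons_self _ _)
  obtain ⟨P, -, rfl⟩ := Multiset.mem_map.mp hQm
  rw [aut_map_inv, ← Multiset.map_singleton (Pt.map j hj) P.inv,
    ← Multiset.map_cons (Pt.map j hj), Multiset.map_le_map_iff (map_pt_injective j hj)] at hQ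
  exact hm.2 P hQ

theorem J.map_injective [IsAlgClosed E] [IsAlgClosed E'] (hφ : Good g φ) (j : E →+* E')
    (hj : φ.map j = ψ) : Function.Injective (J.map j hj) := by
  intro z w h
  obtain ⟨m, hm, rfl⟩ := exists_reduced hφ z
  obtain ⟨m', hm', rfl⟩ := exists_reduced hφ w
  rw [J.map_clm', J.map_clm'] at h
  have h1 := Reduced.unique (good_map hφ j hj) (reduced_map j hj hm) (reduced_map j hj hm') h
  rw [Multiset.map_injective (map_pt_injective j hj) h1]

theorem fixed_reduced [IsAlgClosed E] (hφ : Good g φ) (j : E →+* E) (hj : φ.map j = φ)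
    {m : Multiset (Pt φ)} (hm : Reduced g m) (h : J.map j hj (clm m) = clm m) :
    m.map (Pt.map j hj) = m := by
  rw [J.map_clm'] at h
  exact Reduced.unique hφ (reduced_map j hj hm) hm h

private theorem aut_two_clm (hφ : Good g φ) (m : Multiset (Pt φ)) (h : ∀ P ∈ m, P.y = 0) :
    (2 : ℕ) • (clm m : J φ) = 0 := by
  induction m using Multiset.induction_on with
  | empty => rw [clm_zero]; exact nsmul_zero 2
  | cons P m ih =>
    rw [clm_cons, nsmul_add, two_cl hφ (h P (Multiset.mem_cons_self P m)),
      ih fun Q hQ => h Q (Multiset.mem_cons_of_mem hQ), add_zero]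

private theorem aut_lift [IsAlgClosed E] (hφ : Good g φ) (j : E →+* E') (hj : φ.map j = ψ)
    (m' : Multiset (Pt ψ)) (h : ∀ P ∈ m', P.y = 0) :
    ∃ m : Multiset (Pt φ), (∀ P ∈ m, P.y = 0) ∧ m.map (Pt.map j hj) = m' := by
  induction m' using Multiset.induction_on with
  | empty => exact ⟨0, by simp, by simp⟩
  | cons Q m' ih =>
    obtain ⟨m, h1, h2⟩ := ih fun P hP => h P (Multiset.mem_cons_of_mem hP)
    have hQ0 : Q.y = 0 := h Q (Multiset.mem_cons_self Q m')
    have hψ : ψ ≠ 0 := by
      intro h0
      have := (good_map hφ j hj).deg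
      rw [h0, natDegree_zero] at this
      omega
    have hroot : Q.x ∈ ψ.roots := by
      rw [mem_roots hψ, IsRoot.def, ← Q.eqn, hQ0]
      ring
    have hr : φ.roots.map j = ψ.roots := by
      rw [← hj]
      apply roots_map_of_injective_of_card_eq_natDegree j.injective
      exact (IsAlgClosed.splits φ).natDegree_eq_card_roots.symm
    rw [← hr, Multiset.mem_map] at hroot
    obtain ⟨a, ha, hax⟩ := hroot
    have ha0 : φ.eval a = 0 := by
      have hφ0 : φ ≠ 0 := by
        intro h0
        rw [h0] at ha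
        simp at ha
      exact (mem_roots hφ0).mp ha
    refine ⟨(⟨a, 0, by rw [ha0]; ring⟩ : Pt φ) ::ₘ m, ?_, ?_⟩
    · intro P hP
      rcases Multiset.mem_cons.mp hP with rfl | hP
      · rfl
      · exact h1 P hP
    · rw [Multiset.map_cons, h2]
      congr 1
      apply Pt.ext
      · exact hax
      · rw [hQ0]
        exact map_zero j

theorem two_torsion_lift [IsAlgClosed E] [IsAlgClosed E'] (hφ : Good g φ) (j : E →+* E')
    (hj : φ.map j = ψ) {z : J ψ} (hz : (2 : ℕ) • z = 0) :
    ∃ w : J φ, (2 : ℕ) • w = 0 ∧ J.map j hj w = z := by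
  obtain ⟨m', -, -, h0, rfl⟩ := two_torsion (good_map hφ j hj) hz
  obtain ⟨m, h1, rfl⟩ := aut_lift hφ j hj m' h0
  exact ⟨clm m, aut_two_clm hφ m h1, J.map_clm' j hj m⟩

private theorem aut_deg {C E : Type*} [Field C] [Field E] [Algebra C E] [IsGalois C E]
    (a : E) (s : Finset E) (h : ∀ τ : Gal(E/C), τ a ∈ s) : (minpoly C a).natDegree ≤ s.card := by
  classical
  have hsep : (minpoly C a).Separable := IsGalois.separable C a
  have hspl : ((minpoly C a).map (algebraMap C E)).Splits := IsGalois.splits C a
  have h1 : Fintype.card ((minpoly C a).rootSet E) = (minpoly C a).natDegree :=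
    card_rootSet_eq_natDegree hsep hspl
  rw [← h1, ← Set.toFinset_card]
  apply Finset.card_le_card
  intro b hb
  rw [Set.mem_toFinset] at hb
  have hb' : aeval b (minpoly C a) = 0 := aeval_eq_zero_of_mem_rootSet hb
  obtain ⟨σ, hσ⟩ := minpoly.exists_algEquiv_of_root' (K := C) (L := E) (x := b) (y := a)
    (Algebra.IsAlgebraic.isAlgebraic a) hb'
  rw [← hσ]
  exact h σ

/-- a point with an orbit of at most `g` elements in a multiset of at most `g` points: the coordinates
have degree at most `g` over the base field -/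
theorem degree_le {C E : Type*} [Field C] [Field E] [Algebra C E] [IsGalois C E]
    {φ : E[X]} (hj : ∀ τ : Gal(E/C), φ.map (τ : E →+* E) = φ) {m : Multiset (Pt φ)}
    (hm : m.card ≤ g) (h : ∀ τ : Gal(E/C), m.map (Pt.map (τ : E →+* E) (hj τ)) = m)
    {P : Pt φ} (hP : P ∈ m) : (minpoly C P.x).natDegree ≤ g ∧ (minpoly C P.y).natDegree ≤ g := by
  classical
  have hmem : ∀ τ : Gal(E/C), Pt.map (τ : E →+* E) (hj τ) P ∈ m := by
    intro τ
    rw [← h τ]
    exact Multiset.mem_map_of_mem _ hP
  constructor
  · refine (aut_deg (C := C) P.x (m.map Pt.x).toFinset ?_).trans ?_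
    · intro τ
      rw [Multiset.mem_toFinset]
      exact Multiset.mem_map.mpr ⟨_, hmem τ, rfl⟩
    · exact ((Multiset.toFinset_card_le _).trans (by rw [Multiset.card_map])).trans hm
  · refine (aut_deg (C := C) P.y (m.map Pt.y).toFinset ?_).trans ?_
    · intro τ
      rw [Multiset.mem_toFinset]
      exact Multiset.mem_map.mpr ⟨_, hmem τ, rfl⟩
    · exact ((Multiset.toFinset_card_le _).trans (by rw [Multiset.card_map])).trans hm

end Pool.Agent.Lib.MP_2f3286_ag.HYP
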