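import Pool.Agent.Lib.MP_2f3286_ag.Fer.CPl
import Pool.Agent.Lib.MP_2f3286_ag.PD.Loc

/-!
# Composite places: reduction of the values in the algebraic closure of a local field
-/

open IsDedekindDomain NumberField
open scoped WithZero

namespace Pool.Agent.Lib.MP_2f3286_ag.HYP

section comp

variable {Ω Fb : Type*} [Field Ω] [Field Fb] {A : ValuationSubring Ω} (φ : A →+* Fb)
  (hloc : ∀ x : A, φ x ≠ 0 → (x : Ω)⁻¹ ∈ A) (O : ValuationSubring Fb)

/-- the composite of a place with a valuation ring of the field of values -/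
def cplace : ValuationSubring Ω where
  carrier := {x | ∃ h : x ∈ A, φ ⟨x, h⟩ ∈ O}
  mul_mem' := by
    rintro x y ⟨h, h1⟩ ⟨h', h1'⟩
    refine ⟨mul_mem h h', ?_⟩
    have e : (⟨x * y, mul_mem h h'⟩ : A) = ⟨x, h⟩ * ⟨y, h'⟩ := rfl
    rw [e, map_mul]
    exact mul_mem h1 h1'
  one_mem' := by
    refine ⟨one_mem A, ?_⟩
    have e : (⟨1, one_mem A⟩ : A) = 1 := rfl
    rw [e, map_one]
    exact one_mem O
  add_mem' := by
    rintro x y ⟨h, h1⟩ ⟨h', h1'⟩
    refine ⟨add_mem h h', ?_⟩
    have e : (⟨x + y, add_mem h h'⟩ : A) = ⟨x, h⟩ + ⟨y, h'⟩ := rfl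
    rw [e, map_add]
    exact add_mem h1 h1'
  zero_mem' := by
    refine ⟨zero_mem A, ?_⟩
    have e : (⟨0, zero_mem A⟩ : A) = 0 := rfl
    rw [e, map_zero]
    exact zero_mem O
  neg_mem' := by
    rintro x ⟨h, h1⟩
    refine ⟨neg_mem h, ?_⟩
    have e : (⟨-x, neg_mem h⟩ : A) = -⟨x, h⟩ := rfl
    rw [e, map_neg]
    exact neg_mem h1
  mem_or_inv_mem' := by
    intro x
    rcases eq_or_ne x 0 with rfl | hx0
    · left
      refine ⟨zero_mem A, ?_⟩
      have e : (⟨0, zero_mem A⟩ : A) = 0 := rfl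
      rw [e, map_zero]
      exact zero_mem O
    by_cases hx : x ∈ A
    · by_cases h1 : φ ⟨x, hx⟩ ∈ O
      · exact Or.inl ⟨hx, h1⟩
      · right
        have h0 : φ ⟨x, hx⟩ ≠ 0 := fun h0 => h1 (h0 ▸ zero_mem O)
        have h2 := hloc ⟨x, hx⟩ h0
        refine ⟨h2, ?_⟩
        have h3 : (⟨x, hx⟩ : A) * ⟨x⁻¹, h2⟩ = 1 := Subtype.ext (mul_inv_cancel₀ hx0)
        have h4 := congrArg φ h3
        rw [map_mul, map_one] at h4
        rw [eq_inv_of_mul_eq_one_right h4]
        exact (O.mem_or_inv_mem _).resolve_left h1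
    · right
      have h2 : x⁻¹ ∈ A := (A.mem_or_inv_mem x).resolve_left hx
      refine ⟨h2, ?_⟩
      by_cases h3 : φ ⟨x⁻¹, h2⟩ = 0
      · rw [h3]; exact zero_mem O
      · exfalso
        apply hx
        have h4 := hloc _ h3
        rwa [inv_inv] at h4

theorem mem_cplace {x : Ω} : x ∈ cplace φ hloc O ↔ ∃ h : x ∈ A, φ ⟨x, h⟩ ∈ O := Iff.rfl

/-- the values at the composite place, in the valuation ring -/
def cvalO : cplace φ hloc O →+* O :=
  (φ.comp (((cplace φ hloc O).subtype).codRestrict A.toSubring fun x => x.2.choose)).codRestrict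
    O.toSubring fun x => x.2.choose_spec

theorem cvalO_apply (x : cplace φ hloc O) (h : (x : Ω) ∈ A) :
    (cvalO φ hloc O x : Fb) = φ ⟨x, h⟩ := rfl

end comp

/-- a valuation ring of the algebraic closure of a local field above the ring of integers -/
theorem exists_above {k : Type*} [Field k] [NumberField k] (v : HeightOneSpectrum (𝓞 k)) :
    ∃ O : ValuationSubring (AlgebraicClosure (v.adicCompletion k)), ∀ y : v.adicCompletion k,
      (algebraMap (v.adicCompletion k) (AlgebraicClosure (v.adicCompletion k)) y ∈ O ↔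
        Valued.v y ≤ (1 : ℤᵐ⁰)) := by
  obtain ⟨O, h, hO⟩ := IsLocalRing.exists_factor_valuationRing
    ((algebraMap (v.adicCompletion k) (AlgebraicClosure (v.adicCompletion k))).comp
      (v.adicCompletionIntegers k).subtype)
  have key : ∀ y : v.adicCompletion k, Valued.v y ≤ (1 : ℤᵐ⁰) →
      algebraMap (v.adicCompletion k) (AlgebraicClosure (v.adicCompletion k)) y ∈ O :=
    fun y hy => h ⟨y, (HeightOneSpectrum.mem_adicCompletionIntegers (𝓞 k) k v).2 hy⟩
  refine ⟨O, fun y => ⟨fun hy => ?_, key y⟩⟩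
  by_contra hlt
  rw [not_le] at hlt
  have hy0 : y ≠ 0 := by
    rintro rfl
    rw [map_zero] at hlt
    exact absurd hlt (by simp)
  have h1 : Valued.v y⁻¹ < (1 : ℤᵐ⁰) := by
    rw [map_inv₀]
    exact inv_lt_one_of_one_lt₀ hlt
  let z : v.adicCompletionIntegers k :=
    ⟨y⁻¹, (HeightOneSpectrum.mem_adicCompletionIntegers (𝓞 k) k v).2 h1.le⟩
  have h2 : IsUnit z := by
    apply hO.map_nonunit
    refine IsUnit.of_mul_eq_one ⟨algebraMap (v.adicCompletion k) _ y, hy⟩ ?_
    apply Subtype.ext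
    change algebraMap (v.adicCompletion k) (AlgebraicClosure (v.adicCompletion k)) y⁻¹ *
      algebraMap (v.adicCompletion k) _ y = 1
    rw [← map_mul, inv_mul_cancel₀ hy0, map_one]
  rw [HeightOneSpectrum.adicCompletionIntegers.isUnit_iff_valued_eq_one] at h2
  exact absurd h2 h1.ne

private theorem zero_res {F : Type*} [Field F] [NumberField F] (w : HeightOneSpectrum (𝓞 F))
    (x : w.adicCompletionIntegers F) :
    IsLocalRing.residue (w.adicCompletionIntegers F) x = 0 ↔
      Valued.v (x : w.adicCompletion F) < (1 : ℤᵐ⁰) := by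
  rw [IsLocalRing.residue_eq_zero_iff, IsLocalRing.mem_maximalIdeal, mem_nonunits_iff,
    HeightOneSpectrum.adicCompletionIntegers.isUnit_iff_valued_eq_one]
  have h : Valued.v (x : w.adicCompletion F) ≤ (1 : ℤᵐ⁰) :=
    (HeightOneSpectrum.mem_adicCompletionIntegers (𝓞 F) F w).1 x.2
  exact ⟨fun h' => lt_of_le_of_ne h h', fun h' => h'.ne⟩

theorem finite_res {F : Type*} [Field F] [NumberField F] (w : HeightOneSpectrum (𝓞 F)) :
    Finite (IsLocalRing.ResidueField (w.adicCompletionIntegers F)) := by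
  have hfin : Finite (𝓞 F ⧸ w.asIdeal) := w.asIdeal.finiteQuotientOfFreeOfNeBot w.ne_bot
  have hval : ∀ a : 𝓞 F, (((algebraMap (𝓞 F) (w.adicCompletionIntegers F) a :
      w.adicCompletionIntegers F)) : w.adicCompletion F) =
      algebraMap F (w.adicCompletion F) (algebraMap (𝓞 F) F a) := fun a => rfl
  have h0 : ∀ a ∈ w.asIdeal, ((IsLocalRing.residue (w.adicCompletionIntegers F)).comp
      (algebraMap (𝓞 F) (w.adicCompletionIntegers F))) a = 0 := by
    intro a ha
    rw [RingHom.comp_apply, zero_res, hval, val_alg]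
    exact (HeightOneSpectrum.valuation_lt_one_iff_mem w a).2 ha
  refine Finite.of_surjective (Ideal.Quotient.lift w.asIdeal _ h0) ?_
  intro e
  obtain ⟨x, rfl⟩ := IsLocalRing.residue_surjective e
  have hx : Valued.v (x : w.adicCompletion F) ≤ (1 : ℤᵐ⁰) :=
    (HeightOneSpectrum.mem_adicCompletionIntegers (𝓞 F) F w).1 x.2
  obtain ⟨y, hy⟩ := exists_approx w (x : w.adicCompletion F) 1
  have hlt : WithZero.exp (-((1 : ℕ) : ℤ)) < (1 : ℤᵐ⁰) := by
    rw [← WithZero.exp_zero]
    exact WithZero.exp_lt_exp.mpr (by norm_num)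
  have hy1 : w.valuation F y ≤ 1 := by
    rw [← val_alg]
    have e : algebraMap F (w.adicCompletion F) y =
        (x : w.adicCompletion F) - ((x : w.adicCompletion F) - algebraMap F (w.adicCompletion F) y) := by
      ring
    rw [e]
    exact (Valued.v.map_sub _ _).trans (max_le hx (hy.trans hlt.le))
  obtain ⟨a, ha⟩ := HeightOneSpectrum.exists_valuation_sub_lt_of_integer w hy1 1
  simp only [Units.val_one] at ha
  refine ⟨Ideal.Quotient.mk _ a, ?_⟩
  rw [Ideal.Quotient.lift_mk, RingHom.comp_apply, ← sub_eq_zero, ← map_sub, zero_res]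
  have e : ((algebraMap (𝓞 F) (w.adicCompletionIntegers F) a - x :
      w.adicCompletionIntegers F) : w.adicCompletion F) =
      algebraMap F (w.adicCompletion F) (algebraMap (𝓞 F) F a - y) -
      ((x : w.adicCompletion F) - algebraMap F (w.adicCompletion F) y) := by
    rw [map_sub, AddSubgroupClass.coe_sub, hval]
    ring
  rw [e]
  refine lt_of_le_of_lt (Valued.v.map_sub _ _) (max_lt ?_ (lt_of_le_of_lt hy hlt))
  rw [val_alg]
  exact ha

universe u

/-- **the composite place** of a place with values in the algebraic closure of `k_v`: the elements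
with values in `k_v` have only finitely many values -/
theorem exists_cplace {k : Type u} [Field k] [NumberField k] (v : HeightOneSpectrum (𝓞 k))
    {Ω : Type*} [Field Ω] {A : ValuationSubring Ω}
    (φ : A →+* AlgebraicClosure (v.adicCompletion k))
    (hloc : ∀ x : A, φ x ≠ 0 → (x : Ω)⁻¹ ∈ A) :
    ∃ (E : Type u) (_ : Field E) (_ : IsAlgClosed E) (A' : ValuationSubring Ω) (π : A' →+* E)
      (S : Set E), S.Finite ∧ (∀ a : A', π a ≠ 0 → (a : Ω)⁻¹ ∈ A') ∧ (∀ x ∈ A', x ∈ A) ∧
      ∀ (x : Ω) (h : x ∈ A) (y : v.adicCompletion k), φ ⟨x, h⟩ = algebraMap _ _ y →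
        (x ∈ A' ↔ Valued.v y ≤ (1 : ℤᵐ⁰)) ∧ ∀ h' : x ∈ A', π ⟨x, h'⟩ ∈ S ∧
          (π ⟨x, h'⟩ ≠ 0 ↔ Valued.v y = (1 : ℤᵐ⁰)) := by
  obtain ⟨O, hO⟩ := exists_above v
  let κ := IsLocalRing.ResidueField O
  let ρ : O →+* AlgebraicClosure κ := (algebraMap κ (AlgebraicClosure κ)).comp (IsLocalRing.residue O)
  have hρ : ∀ x : O, ρ x ≠ 0 ↔ IsUnit x := by
    intro x
    change algebraMap κ (AlgebraicClosure κ) (IsLocalRing.residue O x) ≠ 0 ↔ _
    rw [_root_.map_ne_zero]
    exact IsLocalRing.residue_ne_zero_iff_isUnit x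
  -- the integers of `k_v`
  let i : v.adicCompletionIntegers k →+* O :=
    ((algebraMap (v.adicCompletion k) (AlgebraicClosure (v.adicCompletion k))).comp
      (v.adicCompletionIntegers k).subtype).codRestrict O.toSubring (fun y => (hO y).2
        ((HeightOneSpectrum.mem_adicCompletionIntegers (𝓞 k) k v).1 y.2))
  have hi : ∀ y : v.adicCompletionIntegers k, ((i y : O) : AlgebraicClosure (v.adicCompletion k)) =
      algebraMap (v.adicCompletion k) _ (y : v.adicCompletion k) := fun y => rfl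
  have hi0 : ∀ y : v.adicCompletionIntegers k, ρ (i y) ≠ 0 ↔
      Valued.v (y : v.adicCompletion k) = (1 : ℤᵐ⁰) := by
    intro y
    have hy1 : Valued.v (y : v.adicCompletion k) ≤ (1 : ℤᵐ⁰) :=
      (HeightOneSpectrum.mem_adicCompletionIntegers (𝓞 k) k v).1 y.2
    rw [hρ]
    constructor
    · intro hu
      refine le_antisymm hy1 ?_
      obtain ⟨z, hz⟩ := hu.exists_right_inv
      have h1 : ((i y : O) : AlgebraicClosure (v.adicCompletion k)) * (z : _) = 1 :=
        congrArg Subtype.val hz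
      rw [hi] at h1
      have hy0 : (y : v.adicCompletion k) ≠ 0 := by
        intro h0
        rw [h0, map_zero, zero_mul] at h1
        exact zero_ne_one h1
      have h2 : algebraMap (v.adicCompletion k) (AlgebraicClosure (v.adicCompletion k))
          (y : v.adicCompletion k)⁻¹ ∈ O := by
        rw [map_inv₀, ← eq_inv_of_mul_eq_one_right h1]
        exact z.2
      have h3 := (hO _).1 h2
      rw [map_inv₀] at h3
      have h4 : Valued.v (y : v.adicCompletion k) ≠ 0 := by rwa [_root_.map_ne_zero]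
      exact (inv_le_one₀ (zero_lt_iff.2 h4)).1 h3
    · intro h1
      have h2 := HeightOneSpectrum.adicCompletionIntegers.isUnit_iff_valued_eq_one.2 h1
      exact h2.map i
  let S : Set (AlgebraicClosure κ) := Set.range fun y : v.adicCompletionIntegers k => ρ (i y)
  have hS : S.Finite := by
    have := finite_res v
    have hker : ∀ a b : v.adicCompletionIntegers k,
        IsLocalRing.residue (v.adicCompletionIntegers k) a =
        IsLocalRing.residue (v.adicCompletionIntegers k) b → ρ (i a) = ρ (i b) := by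
      intro a b hab
      rw [← sub_eq_zero, ← map_sub, ← map_sub]
      by_contra h1
      have h1 := (hi0 _).1 h1
      rw [← sub_eq_zero, ← map_sub, zero_res] at hab
      exact absurd h1 hab.ne
    choose sec hsec using IsLocalRing.residue_surjective (R := v.adicCompletionIntegers k)
    refine (Set.finite_range fun e : IsLocalRing.ResidueField (v.adicCompletionIntegers k) =>
      ρ (i (sec e))).subset ?_
    rintro _ ⟨y, rfl⟩
    exact ⟨IsLocalRing.residue _ y, hker _ _ (hsec _)⟩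
  let A' := cplace φ hloc O
  let π : A' →+* AlgebraicClosure κ := ρ.comp (cvalO φ hloc O)
  refine ⟨AlgebraicClosure κ, inferInstance, inferInstance, A', π, S, hS, ?_, fun x hx => hx.1, ?_⟩
  · intro a ha
    obtain ⟨h1, h2⟩ := a.2
    have h3 : IsUnit (cvalO φ hloc O a) := (hρ _).1 ha
    obtain ⟨z, hz⟩ := h3.exists_right_inv
    have h4 : φ ⟨a, h1⟩ * (z : _) = 1 := by
      have h5 := congrArg (Subtype.val) hz
      change (cvalO φ hloc O a : AlgebraicClosure (v.adicCompletion k)) * (z : _) = 1 at h5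
      rwa [cvalO_apply φ hloc O a h1] at h5
    have h0 : φ ⟨a, h1⟩ ≠ 0 := left_ne_zero_of_mul_eq_one h4
    have h6 := hloc _ h0
    refine ⟨h6, ?_⟩
    have ha0 : (a : Ω) ≠ 0 := by
      intro h7
      apply h0
      have h8 : (⟨a, h1⟩ : A) = 0 := Subtype.ext h7
      rw [h8, map_zero]
    have h7 : (⟨a, h1⟩ : A) * ⟨(a : Ω)⁻¹, h6⟩ = 1 := Subtype.ext (mul_inv_cancel₀ ha0)
    have h8 := congrArg φ h7
    rw [map_mul, map_one] at h8
    rw [eq_inv_of_mul_eq_one_right h8, ← eq_inv_of_mul_eq_one_right h4]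
    exact z.2
  · intro x h y hy
    have h1 : x ∈ A' ↔ Valued.v y ≤ (1 : ℤᵐ⁰) := by
      rw [← hO y, ← hy]
      exact ⟨fun h2 => h2.2, fun h2 => ⟨h, h2⟩⟩
    refine ⟨h1, fun h' => ?_⟩
    let y' : v.adicCompletionIntegers k :=
      ⟨y, (HeightOneSpectrum.mem_adicCompletionIntegers (𝓞 k) k v).2 (h1.1 h')⟩
    have h2 : cvalO φ hloc O ⟨x, h'⟩ = i y' := by
      apply Subtype.ext
      rw [cvalO_apply φ hloc O ⟨x, h'⟩ h, hi, hy]
    have h3 : π ⟨x, h'⟩ = ρ (i y') := congrArg ρ h2
    rw [h3]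
    exact ⟨⟨y', rfl⟩, hi0 y'⟩

end Pool.Agent.Lib.MP_2f3286_ag.HYP
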