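import Pool.Agent.Lib.MP_2f3286_ag.HYP.AFChi
import Pool.Agent.Lib.MP_2f3286_ag.Top.Defs

/-!
# The values of units at the local places, cusps included, are independent of the place
-/

open IsDedekindDomain NumberField Polynomial
open scoped WithZero

namespace Pool.Agent.Lib.MP_2f3286_ag.HYP

universe u

variable {k : Type u} [Field k] [NumberField k] {K : Type*} [Field K] [Algebra k K]
  (R : Subalgebra k K)
  {M : Type*} [Field M] [Algebra K M] [Algebra (AlgebraicClosure k) M] [Algebra k M]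
  [IsScalarTower k K M] [IsScalarTower k (AlgebraicClosure k) M]

theorem value_indep (hinf : Fintype.card (InfinitePlace k) = 1) (htr : Algebra.trdeg k K = 1)
    [Algebra.IsAlgebraic K M]
    (hmax : Pt.IsRadClosed R M (AlgebraicClosure k))
    (s : Gal(AlgebraicClosure k/k) →* Gal(M/K)) (hs : Continuous s)
    (hsec : ∀ σ a, s σ (algebraMap (AlgebraicClosure k) M a) =
      algebraMap (AlgebraicClosure k) M (σ a))
    (ι₁ : ∀ v : HeightOneSpectrum (𝓞 k),
      AlgebraicClosure k →ₐ[k] AlgebraicClosure (v.adicCompletion k))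
    (A₁ : HeightOneSpectrum (𝓞 k) → ValuationSubring M)
    (φ₁ : ∀ v : HeightOneSpectrum (𝓞 k), A₁ v →+* AlgebraicClosure (v.adicCompletion k))
    (h₁ : ∀ v, Sel.IsPlaceOf s (v.adicCompletion k)
      (ι₁ v : _ →+* AlgebraicClosure (v.adicCompletion k)) (A₁ v) (φ₁ v))
    {T : M} (hT : ∀ σ, s σ T = T)
    (hTc : ∀ c : AlgebraicClosure k, T ≠ algebraMap _ M c)
    (hTi : IsIntegral R T) (hTi' : IsIntegral R T⁻¹)
    (hTA : ∀ v, T ∈ A₁ v) (hTA' : ∀ v, T⁻¹ ∈ A₁ v)
    (B : Finset (HeightOneSpectrum (𝓞 k)))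
    (hval : ∀ v ∉ B, ∀ y : v.adicCompletion k, φ₁ v ⟨T, hTA v⟩ = algebraMap _ _ y →
      Valued.v y = (1 : ℤᵐ⁰))
    {ρ : M} (hρR : IsIntegral R ρ) (hρR' : IsIntegral R ρ⁻¹)
    (hρ : ∀ V : ValuationSubring M, (∀ a : k, algebraMap k M a ∈ V) → T ∈ V → T⁻¹ ∈ V →
      ρ ∈ V ∧ ρ⁻¹ ∈ V) :
    ∃ e : AlgebraicClosure k, ∀ (v : HeightOneSpectrum (𝓞 k))
      (ι : AlgebraicClosure k →ₐ[k] AlgebraicClosure (v.adicCompletion k))
      (A : ValuationSubring M) (φ : A →+* AlgebraicClosure (v.adicCompletion k)),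
      Sel.IsPlaceOf s (v.adicCompletion k) (ι : _ →+* AlgebraicClosure (v.adicCompletion k)) A φ →
      T ∈ A → T⁻¹ ∈ A → ∃ h : ρ ∈ A, φ ⟨ρ, h⟩ = ι e := by
  classical
  set kb := AlgebraicClosure k with hkb
  have hTa : ¬ IsAlgebraic k (T : M) := by
    rintro ⟨p, hp, hp'⟩
    have h1 : (p.map (algebraMap k kb)).eval₂ (algebraMap kb M) (T : M) = 0 := by
      rw [eval₂_map, ← IsScalarTower.algebraMap_eq, ← aeval_def]
      exact hp'
    obtain ⟨c, -, hc⟩ := root_mem (algebraMap kb M) (Polynomial.map_ne_zero hp) h1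
    exact hTc c hc.symm
  have hT0 : (T : M) ≠ 0 := fun h => hTc 0 (by rw [h, map_zero])
  -- the fixed field of `s`
  let L : IntermediateField K M :=
    { carrier := {x | ∀ σ, s σ x = x}
      mul_mem' := fun ha hb σ => by rw [map_mul, ha σ, hb σ]
      add_mem' := fun ha hb σ => by rw [map_add, ha σ, hb σ]
      algebraMap_mem' := fun a σ => (s σ).commutes a
      inv_mem' := fun a ha σ => by rw [map_inv₀, ha σ] }
  let iL : Algebra k L := ((algebraMap K L).comp (algebraMap k K)).toAlgebra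
  have t1 : IsScalarTower k L M := IsScalarTower.of_algebraMap_eq fun a => by
    rw [IsScalarTower.algebraMap_apply k K M]; rfl
  have t2 : IsScalarTower k K L := IsScalarTower.of_algebraMap_eq fun a => rfl
  have htrL : Algebra.trdeg k L = 1 := trdeg_top (K := K) htr
  have hL : ∀ σ : Gal(AlgebraicClosure k/k),
      (∀ a : k, σ (algebraMap k _ a) = algebraMap k _ a) →
      ∀ x : L, s σ (algebraMap L M x) = algebraMap L M x := fun σ _ x => x.2 σ
  let e : AlgebraicClosure k ≃ₐ[k] AlgebraicClosure k := AlgEquiv.refl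
  let s' : Gal(AlgebraicClosure k/k) →* Gal(M/L) := Koe.resS s e hL
  have hs's : ∀ σ x, s' σ x = s σ x := by
    intro σ x
    have h1 : Koe.resG (k := k) e σ = σ := AlgEquiv.ext fun _ => rfl
    change s (Koe.resG (k := k) e σ) x = s σ x
    rw [h1]
  have hs' : Continuous s' := Koe.resS_continuous s e hL hs
  have hsec' : ∀ σ a, s' σ (algebraMap (AlgebraicClosure k) M a) =
      algebraMap (AlgebraicClosure k) M (σ a) := fun σ a => by rw [hs's, hsec]
  let t : L := ⟨(T : M), hT⟩
  have htM : algebraMap L M t = (T : M) := rfl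
  let P : Fin 1 → k[X] := fun _ => X
  have h0 : ∀ j, aeval t (P j) ≠ 0 := by
    intro j h
    apply hT0
    rw [← htM]
    have h1 : t = 0 := by
      rw [← h]
      exact (aeval_X t).symm
    rw [h1, map_zero]
  let R₁ : Subalgebra k L := GU.polyAlg t P
  -- rings containing `R₁`
  have hR₁V : ∀ V : Subring M, (∀ a : k, algebraMap k M a ∈ V) → T ∈ V → T⁻¹ ∈ V →
      ∀ r : R₁, algebraMap L M r ∈ V := by
    rintro V hk h1 h2 ⟨r, hr⟩
    change algebraMap L M r ∈ V
    induction hr using Algebra.adjoin_induction with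
    | mem r hr =>
      rcases hr with rfl | ⟨j, rfl⟩
      · exact h1
      · beta_reduce
        have h3 : aeval t (P j) = t := aeval_X t
        rw [h3, map_inv₀]
        exact h2
    | algebraMap c =>
      rw [← IsScalarTower.algebraMap_apply k L M]
      exact hk c
    | add a b _ _ ha hb => rw [map_add]; exact add_mem ha hb
    | mul a b _ _ ha hb => rw [map_mul]; exact mul_mem ha hb
  -- the elements of `R₁` are integral over `R`
  have hR₁ : ∀ r : R₁, IsIntegral R (algebraMap L M r) := by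
    refine hR₁V (integralClosure R M).toSubring (fun a => ?_) hTi hTi'
    have h2 : algebraMap k M a = algebraMap R M (algebraMap k R a) := by
      rw [IsScalarTower.algebraMap_apply k K M]
      rfl
    rw [h2]
    exact isIntegral_algebraMap
  have hint : ∀ b : M, IsIntegral R₁ b → IsIntegral R b := by
    intro b hb
    let jj : R₁ →+* integralClosure R M :=
      ((algebraMap L M).comp (algebraMap R₁ L)).codRestrict (integralClosure R M)
        (fun r => hR₁ r)
    let _ : Algebra R₁ (integralClosure R M) := jj.toAlgebra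
    have : IsScalarTower R₁ (integralClosure R M) M := IsScalarTower.of_algebraMap_eq fun x => rfl
    exact isIntegral_trans (A := integralClosure R M) b hb.tower_top
  -- places
  have hplace : ∀ (v : HeightOneSpectrum (𝓞 k))
      (ι : AlgebraicClosure k →ₐ[k] AlgebraicClosure (v.adicCompletion k))
      (A : ValuationSubring M) (φ : A →+* AlgebraicClosure (v.adicCompletion k)),
      Sel.IsPlaceOf s (v.adicCompletion k) (ι : _ →+* AlgebraicClosure (v.adicCompletion k)) A φ →
      T ∈ A → T⁻¹ ∈ A → ∃ (hA : ∀ b : integralClosure R₁ M, (b : M) ∈ A)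
        (φ' : integralClosure R₁ M →+* AlgebraicClosure (v.adicCompletion k)),
        (∀ b, φ' b = φ ⟨b, hA b⟩) ∧ Respects s' (v.adicCompletion k)
          (ι : _ →+* AlgebraicClosure (v.adicCompletion k)) φ' := by
    intro v ι A φ h h1 h2
    have hk : ∀ a : k, algebraMap k M a ∈ A.toSubring := by
      intro a
      rw [IsScalarTower.algebraMap_apply k (AlgebraicClosure k) M]
      exact (h.1 _).1
    have hA : ∀ b : integralClosure R₁ M, (b : M) ∈ A := fun b =>
      Pt.PTAux.mem_of_isIntegral (R := R₁) (𝒱 := A) (hR₁V A.toSubring hk h1 h2) b.2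
    refine ⟨hA, φ.comp ((algebraMap (integralClosure R₁ M) M).codRestrict A hA), fun b => rfl, ?_, ?_⟩
    · intro a b hab
      obtain ⟨h1, h2⟩ := h.1 a
      change φ ⟨b, hA b⟩ = ι a
      refine Eq.trans ?_ h2
      congr 1
      exact Subtype.ext hab
    · intro σ τ hστ b b' hb
      obtain ⟨h1, h2⟩ := h.2.2 σ τ hστ ⟨b, hA b⟩
      change φ ⟨b', hA b'⟩ = τ (φ ⟨b, hA b⟩)
      rw [← h2]
      congr 1
      apply Subtype.ext
      rw [hs's] at hb
      exact hb
  choose hA φ' hφ' hres using fun v => hplace v (ι₁ v) (A₁ v) (φ₁ v) (h₁ v) (hTA v) (hTA' v)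
  have htint : IsIntegral R₁ T := by
    have h3 : T = algebraMap R₁ M (GU.polyVar t P) := rfl
    rw [h3]
    exact isIntegral_algebraMap
  obtain ⟨S', χ₁, -, hχ₁, hvan⟩ := GU.exists_poly_of_units.{u, u} R₁ (GU.polyAlg_fg t P) ∅
    (GU.polyUnit t P h0)
    (GU.enough_of_points.{u, u} ∅ t P h0 (enough_one k hinf.le))
    (fun b hb hb' n hn => Full.root_of_unit hmax _ (hint _ hb) (hint _ hb') n hn) s' hs' hsec'
    (fun v => ι₁ v.1) (fun v => φ' v.1) (fun v => hres v.1) B 1 le_rfl (by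
      intro v hv i y z hy _
      refine hval v.1 hv y ?_
      rw [← hy, hφ']
      congr 1
      apply Subtype.ext
      change (T : M) = algebraMap L M (aeval t (P i))
      have h2 : aeval t (P i) = t := aeval_X t
      rw [h2]
      rfl) (GU.polyVar t P)
  -- the point on the ring generated by the units
  have hh : (aeval (GU.polyVar t P) χ₁ : R₁) ≠ 0 := by
    intro h1
    apply hTa
    refine ⟨χ₁, hχ₁, ?_⟩
    have h3 : ((aeval (GU.polyVar t P) χ₁ : R₁) : L) = aeval t χ₁ :=
      (aeval_algHom_apply R₁.val (GU.polyVar t P) χ₁).symm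
    have h4 : aeval t χ₁ = 0 := by rw [← h3, h1]; rfl
    rw [← htM, aeval_algebraMap_apply, h4, map_zero]
  obtain ⟨⟨ψ, hψ1, hψ2, -⟩, -⟩ := core_div htrL R₁ s' hs' hsec' S' (fun v => ι₁ v.1)
    (fun v => φ' v.1) (fun v => hres v.1) _ hh
    (fun v => hvan ⟨v.1, Finset.notMem_empty v.1⟩ v.2)
  -- the unit
  have hcrit : ∀ z : M, (∀ V : ValuationSubring M, (∀ a : k, algebraMap k M a ∈ V) → T ∈ V →
      T⁻¹ ∈ V → z ∈ V) → IsIntegral R₁ z := by
    intro z hz
    by_contra hcon
    have hx' : z ∉ (integralClosure R₁ M).toSubring := hcon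
    obtain ⟨V, hV1, hV2⟩ := Subring.exists_le_valuationSubring_of_isIntegrallyClosedIn hx'
    have h2 : ∀ r : R₁, algebraMap R₁ M r ∈ V := fun r => hV1 (algebraMap_mem
      (integralClosure R₁ M) r)
    refine hV2 (hz V (fun a => ?_) (hV1 htint) ?_)
    · have h3 := h2 (algebraMap k R₁ a)
      rw [IsScalarTower.algebraMap_apply k L M]
      exact h3
    · refine hV1 ?_
      have h3 : T⁻¹ = algebraMap R₁ M ((GU.polyUnit t P h0 0)⁻¹ : R₁ˣ) := by
        symm
        apply eq_inv_of_mul_eq_one_right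
        have h4 : T = algebraMap R₁ M ((GU.polyUnit t P h0 0 : R₁ˣ) : R₁) := by
          change (T : M) = algebraMap L M (aeval t (P 0))
          have h2 : aeval t (P 0) = t := aeval_X t
          rw [h2]
          rfl
        conv_lhs => rw [h4]
        rw [← map_mul, Units.mul_inv, map_one]
      rw [h3]
      exact isIntegral_algebraMap
  have hρ1 : IsIntegral R₁ ρ := hcrit ρ fun V hV h1 h2 => (hρ V hV h1 h2).1
  have hρ2 : IsIntegral R₁ ρ⁻¹ := hcrit ρ⁻¹ fun V hV h1 h2 => (hρ V hV h1 h2).2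
  have hρD : ρ ∈ divUnitRing R₁ M := Subring.subset_closure
    ⟨hρ1, hρ2, fun n hn => Full.root_of_unit hmax _ hρR hρR' n hn⟩
  refine ⟨ψ ⟨ρ, hρD⟩, fun v ι A φ h h1 h2 => ?_⟩
  obtain ⟨hA2, φ2, hφ2, hres2⟩ := hplace v ι A φ h h1 h2
  refine ⟨hA2 ⟨ρ, hρ1⟩, ?_⟩
  exact (hφ2 ⟨ρ, hρ1⟩).symm.trans
    (GU.local_agree R₁ s' hs' hsec' ψ hψ1 v ι φ2 hres2 ⟨ρ, hρD⟩ ⟨ρ, hρ1⟩ rfl)

end Pool.Agent.Lib.MP_2f3286_ag.HYP
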