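import Pool.Agent.Lib.MP_2f3286_ag.HYP.CuVal
import Pool.Agent.Lib.MP_2f3286_ag.HYP.CuPsi
import Pool.Agent.Lib.MP_2f3286_ag.HYP.AFCase

/-!
# No mixture of the points above infinity and the other points
-/

open Polynomial IsDedekindDomain NumberField
open scoped WithZero

noncomputable section

namespace Pool.Agent.Lib.MP_2f3286_ag.HYP

section

variable {k kb K M Ω : Type*} [Field k] [Field kb] [Algebra k kb] [Field K] [Field M]
  [Algebra K M] [Algebra kb M] [Field Ω] [Algebra M Ω] [Algebra K Ω] [Algebra kb Ω]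
  [IsScalarTower kb M Ω] {s : Gal(kb/k) →* Gal(M/K)} {F : Type*} {Fb : Type*} [Field F] [Field Fb]
  [Algebra F Fb] {ι : kb →+* Fb}

/-- the place of `M` below a place of `Ω` -/
theorem place_below {A : ValuationSubring Ω} {π : A →+* Fb} (h : PlaceOver s F ι A π) :
    ∃ φ : A.comap (algebraMap M Ω) →+* Fb,
      Sel.IsPlaceOf s F ι (A.comap (algebraMap M Ω)) φ ∧
        ∀ x : A.comap (algebraMap M Ω), φ x = π ⟨algebraMap M Ω x, x.2⟩ := by
  let φ : A.comap (algebraMap M Ω) →+* Fb := π.comp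
    (((algebraMap M Ω).comp (A.comap (algebraMap M Ω)).subtype).codRestrict A fun x => x.2)
  have hφ : ∀ x : A.comap (algebraMap M Ω), φ x = π ⟨algebraMap M Ω x, x.2⟩ := fun x => rfl
  refine ⟨φ, ⟨fun a => ?_, fun x hx => ?_, fun σ τ hστ x => ?_⟩, hφ⟩
  · obtain ⟨h1, h2⟩ := h.const a
    have h3 : algebraMap kb Ω a = algebraMap M Ω (algebraMap kb M a) :=
      IsScalarTower.algebraMap_apply kb M Ω a
    refine ⟨(show algebraMap M Ω (algebraMap kb M a) ∈ A from h3 ▸ h1), ?_⟩
    rw [hφ, ← h2]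
    congr 1
    exact Subtype.ext h3.symm
  · have h1 := h.loc ⟨algebraMap M Ω x, x.2⟩ (by rw [← hφ]; exact hx)
    change algebraMap M Ω (x : M)⁻¹ ∈ A
    rw [map_inv₀]
    exact h1
  · obtain ⟨γ, hγ, hγA⟩ := h.lift σ τ hστ
    obtain ⟨h1, h2⟩ := hγA ⟨algebraMap M Ω x, x.2⟩
    have h3 : γ (algebraMap M Ω x) = algebraMap M Ω (s σ x) := hγ x
    refine ⟨(show algebraMap M Ω (s σ x) ∈ A from h3 ▸ h1), ?_⟩
    rw [hφ, hφ, ← h2]
    congr 1
    exact Subtype.ext h3.symm

end

universe u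

variable {k : Type u} [Field k] [NumberField k] {K : Type*} [Field K] [Algebra k K]
  {Ω : Type*} [Field Ω] [Algebra K Ω] [IsAlgClosed Ω]
  [Algebra (AlgebraicClosure k) Ω] [Algebra k Ω]
  [IsScalarTower k K Ω] [IsScalarTower k (AlgebraicClosure k) Ω]
  {M : Type*} [Field M] [Algebra K M] [Algebra M Ω]
  {s : Gal(AlgebraicClosure k/k) →* Gal(M/K)}

/-- the chains at the local places -/
theorem chain_place {f : k[X]} (hf : f.Monic) (hfs : f.Separable) {g : ℕ}
    (hfd : f.natDegree = 2 * g + 1) {v : HeightOneSpectrum (𝓞 k)}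
    {ι : AlgebraicClosure k →ₐ[k] AlgebraicClosure (v.adicCompletion k)}
    {A : ValuationSubring Ω} {π : A →+* AlgebraicClosure (v.adicCompletion k)}
    (h : PlaceOver s (v.adicCompletion k)
      (ι : _ →+* AlgebraicClosure (v.adicCompletion k)) A π) :
    ∃ (ψ : (AlgebraicClosure (v.adicCompletion k))[X])
      (hp : Plc A π (f.map (algebraMap k Ω)) ψ) (h1 : Good g (f.map (algebraMap k Ω)))
      (h2 : Good g ψ), ∀ Z : ℕ → J (f.map (algebraMap k Ω)), (∀ n, 2 • Z (n + 1) = Z n) →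
        (∀ n, Z n ∈ lfix f s) → ∀ n, 2 • hp.sp h1 h2 (Z n) = 0 → hp.sp h1 h2 (Z n) = 0 := by
  have hC : CharZero (v.adicCompletion k) :=
    charZero_of_injective_algebraMap (algebraMap k (v.adicCompletion k)).injective
  have hGal : IsGalois (v.adicCompletion k) (AlgebraicClosure (v.adicCompletion k)) :=
    IsAlgClosure.isGalois _ _
  let Gs : Set (Ω →+* Ω) := {h | ∃ (σ : Gal(AlgebraicClosure k/k)) (γ : Gal(Ω/K)), Lft s σ γ ∧
    h = (γ : Ω →+* Ω)}
  have hGs : ∀ h ∈ Gs, (f.map (algebraMap k Ω)).map h = f.map (algebraMap k Ω) := by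
    rintro _ ⟨σ, γ, -, rfl⟩
    exact map_fixΩ f γ
  refine ⟨_, plc_of_const hf h.const h.loc, good_of hfs hfd _, good_of hfs hfd _,
    fun Z hZ2 hZ n => chain_local v (plc_of_const hf h.const h.loc) (good_of hfs hfd _)
      (good_of hfs hfd _) hGs (fun a ha => ?_) hZ2 (by
        rintro _ ⟨σ, γ, hγ, rfl⟩ n
        exact hZ n σ γ hγ) n⟩
  obtain ⟨c, hc⟩ := h.value_mem (hres_fin v ι) a.2 (fun σ γ hγ => ha _ ⟨σ, γ, hγ, rfl⟩)
  exact ⟨c, hc.symm⟩

variable [Algebra (AlgebraicClosure k) M] [Algebra k M]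
  [IsScalarTower k K M] [IsScalarTower k (AlgebraicClosure k) M]
  [IsScalarTower (AlgebraicClosure k) M Ω] [IsScalarTower K M Ω]
  [IsGalois M Ω] [IsGalois K Ω] [Normal K M]

/-- **No mixture.** If a place of `s` over a completion is not above infinity, then all such places
are above the part of the curve where `y` is not zero or infinite. -/
theorem near_of_chain (hinf : Fintype.card (InfinitePlace k) = 1) (htr : Algebra.trdeg k K = 1)
    (R : Subalgebra k K) (hmax : Pt.IsRadClosed R M (AlgebraicClosure k)) (hs : Continuous s)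
    (hsec : ∀ σ a, s σ (algebraMap (AlgebraicClosure k) M a) =
      algebraMap (AlgebraicClosure k) M (σ a))
    (hfin : ∀ v : HeightOneSpectrum (𝓞 k),
      ∃ (ι : AlgebraicClosure k →ₐ[k] AlgebraicClosure (v.adicCompletion k))
        (A : ValuationSubring Ω) (π : A →+* AlgebraicClosure (v.adicCompletion k)),
        PlaceOver s (v.adicCompletion k)
          (ι : AlgebraicClosure k →+* AlgebraicClosure (v.adicCompletion k)) A π)
    {f : k[X]} (hf : f.Monic) (hfs : f.Separable) {g : ℕ} (hg : 1 ≤ g)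
    (hfd : f.natDegree = 2 * g + 1)
    {P : Pt (f.map (algebraMap k Ω))}
    (hx : ∀ (σ : Gal(AlgebraicClosure k/k)) (γ : Gal(Ω/K)), Lft s σ γ → γ P.x = P.x)
    (hy : ∀ (σ : Gal(AlgebraicClosure k/k)) (γ : Gal(Ω/K)), Lft s σ γ → γ P.y = P.y)
    (hxc : ∀ c : AlgebraicClosure k, P.x ≠ algebraMap _ Ω c)
    (hxi : IsIntegral R P.x) (hyi : IsIntegral R (P.y)⁻¹)
    {z : ℕ → J (f.map (algebraMap k Ω))} (z0 : z 0 = cl P)
    (zs : ∀ n, z n ∈ lfix f s) (z2 : ∀ n, 2 • z (n + 1) = z n)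
    {v₀ : HeightOneSpectrum (𝓞 k)}
    {ι₀ : AlgebraicClosure k →ₐ[k] AlgebraicClosure (v₀.adicCompletion k)}
    {A₀ : ValuationSubring Ω} {π₀ : A₀ →+* AlgebraicClosure (v₀.adicCompletion k)}
    (h₀ : PlaceOver s (v₀.adicCompletion k)
      (ι₀ : AlgebraicClosure k →+* AlgebraicClosure (v₀.adicCompletion k)) A₀ π₀)
    (hx₀ : P.x ∈ A₀)
    {v : HeightOneSpectrum (𝓞 k)}
    {ι : AlgebraicClosure k →ₐ[k] AlgebraicClosure (v.adicCompletion k)}
    {A : ValuationSubring Ω} {π : A →+* AlgebraicClosure (v.adicCompletion k)}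
    (h : PlaceOver s (v.adicCompletion k)
      (ι : AlgebraicClosure k →+* AlgebraicClosure (v.adicCompletion k)) A π) :
    ∃ hyA : P.y ∈ A, P.x ∈ A ∧ π ⟨P.y, hyA⟩ ≠ 0 := by
  classical
  have hΩ0 : CharZero Ω := charZero_of_injective_algebraMap (algebraMap k Ω).injective
  have hφ : Good g (f.map (algebraMap k Ω)) := good_of hfs hfd _
  have tk : IsScalarTower k M Ω := IsScalarTower.of_algebraMap_eq fun a => by
    rw [IsScalarTower.algebraMap_apply k K Ω, IsScalarTower.algebraMap_apply K M Ω,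
      ← IsScalarTower.algebraMap_apply k K M]
  have tRM : IsScalarTower R M Ω := IsScalarTower.of_algebraMap_eq fun x => by
    change algebraMap K Ω x = algebraMap M Ω (algebraMap K M x)
    rw [← IsScalarTower.algebraMap_apply]
  have hy0 : P.y ≠ 0 := by
    intro h0
    have h := P.eqn
    rw [h0, zero_pow two_ne_zero] at h
    obtain ⟨c, hc⟩ := root_const hf.ne_zero h.symm
    exact hxc c hc.symm
  have hz1 : (2 : ℕ) • z 1 = cl P := by rw [z2 0, z0]
  obtain ⟨m, G, hm, hzm, hc, hG, hGP, hGd⟩ := half_form hφ (hf.map _) hz1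
  rw [hzm] at hz1
  set T := PHI (f.map (algebraMap k Ω)) G (upol m) with hTdef
  -- the elements fixed by the automorphisms over `M`
  have hfixM : ∀ x : Ω, (∀ (σ : Gal(AlgebraicClosure k/k)) (γ : Gal(Ω/K)), Lft s σ γ → γ x = x) →
      ∃ m : M, algebraMap M Ω m = x := by
    intro x hx
    refine (InfiniteGalois.mem_range_algebraMap_iff_fixed x).2 fun δ => ?_
    exact hx 1 (δ.restrictScalars K) (lft_one fun m => δ.commutes m)
  -- the unit at the places
  have hTA : ∀ {v : HeightOneSpectrum (𝓞 k)}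
      {ι : AlgebraicClosure k →ₐ[k] AlgebraicClosure (v.adicCompletion k)}
      {A : ValuationSubring Ω} {π : A →+* AlgebraicClosure (v.adicCompletion k)},
      PlaceOver s (v.adicCompletion k)
        (ι : AlgebraicClosure k →+* AlgebraicClosure (v.adicCompletion k)) A π →
      ∃ hA : T ∈ A, π ⟨T, hA⟩ ≠ 0 := by
    intro v ι A π h
    obtain ⟨ψ, hp, h1, h2, hch⟩ := chain_place (s := s) hf hfs hfd h
    refine unit_val hp h1 h2 hy0 hm hc hz1 hG hGP hGd ?_ ?_
    · intro W hW h3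
      refine cl_ne_zero h2 hg W ?_
      rw [← h3, ← z0]
      apply hch z z2 zs 0
      rw [z0, h3]
      exact two_cl h2 hW
    · intro h3
      rw [← hzm]
      apply hch z z2 zs 1
      rw [← map_nsmul, z2 0, z0, h3]
  have hT : ∀ (σ : Gal(AlgebraicClosure k/k)) (γ : Gal(Ω/K)), Lft s σ γ → γ T = T := by
    intro σ γ hγ
    refine PHI_fixed hφ (γ : Ω →+* Ω) (map_fixΩ f γ) hy0 (Pt.ext (hx σ γ hγ) (hy σ γ hγ)) hm ?_ hG
      hGP
    rw [← hzm]
    exact zs 1 σ γ hγ
  -- almost all values are units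
  obtain ⟨B, hB⟩ := val_of_chain (s := s) hf hfs hfd hT (by
    intro κ _ _ A π ψ h _ hψ hch
    refine unit_val h hφ hψ hy0 hm hc hz1 hG hGP hGd ?_ ?_
    · intro W hW h3
      refine cl_ne_zero hψ hg W ?_
      rw [← h3, ← z0]
      apply hch z z2 zs 0
      rw [z0, h3]
      exact two_cl hψ hW
    · intro h3
      rw [← hzm]
      apply hch z z2 zs 1
      rw [← map_nsmul, z2 0, z0, h3])
  -- the roots
  obtain ⟨hprod, hcard⟩ := prod_roots_coe (hf.map (algebraMap k Ω)) (IsAlgClosed.splits _) hφ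
  let I := (f.map (algebraMap k Ω)).roots.toFinset
  let α : I → Ω := fun i => (i : Ω)
  have hα : Function.Injective α := Subtype.val_injective
  have hrt : ∀ i, (f.map (algebraMap k Ω)).eval (α i) = 0 := by
    intro i
    have h1 := i.2
    rw [Multiset.mem_toFinset, mem_roots (hf.map _).ne_zero] at h1
    exact h1
  choose c hcα using fun i => root_const (Ω := Ω) hf.ne_zero (hrt i)
  set r := rt α G (upol m) with hrdef
  have hsq : ∀ i, r i ^ 2 = P.x - α i := rt_sq hα (hprod.trans hG)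
  have hxα : ∀ i, P.x ≠ α i := by
    intro i hi
    exact hxc (c i) (hi.trans (hcα i).symm)
  have hr0 : ∀ i, r i ≠ 0 := fun i h0 => hxα i (by
    have h1 := hsq i
    rw [h0, zero_pow two_ne_zero] at h1
    exact (sub_eq_zero.mp h1.symm))
  have hTprod : T = ∏ i : I, ∏ j ∈ Finset.univ.erase i, r i / (r i + r j) := by
    rw [hTdef]
    unfold PHI
    exact Phi_eq _ _
  obtain ⟨i₀, j₀, hij⟩ : ∃ i₀ j₀ : I, i₀ ≠ j₀ := by
    have h1 : 1 < Fintype.card I := by
      rw [hcard]; omega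
    exact Fintype.one_lt_card_iff.mp h1
  -- everything is in `M`
  obtain ⟨xM, hxM⟩ := hfixM P.x hx
  have hroot : ∀ a, (f.map (algebraMap k Ω)).eval a = 0 → IsIntegral R a := by
    intro a ha
    obtain ⟨c, rfl⟩ := root_const hf.ne_zero ha
    rw [IsScalarTower.algebraMap_apply (AlgebraicClosure k) M Ω]
    exact (Pt.integral_const R c).algebraMap
  let αM : I → M := fun i => algebraMap (AlgebraicClosure k) M (c i)
  have hαM : ∀ i, algebraMap M Ω (αM i) = α i := fun i => by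
    rw [← hcα, IsScalarTower.algebraMap_apply (AlgebraicClosure k) M Ω]
  have hinj : Function.Injective (algebraMap M Ω) := (algebraMap M Ω).injective
  have hxi' : ∀ i, IsIntegral R (xM - αM i) := by
    intro i
    refine (isIntegral_algebraMap_iff hinj).mp ?_
    rw [map_sub, hxM, hαM]
    exact hxi.sub (hroot _ (hrt i))
  have hxi'' : ∀ i, IsIntegral R (xM - αM i)⁻¹ := by
    intro i
    refine (isIntegral_algebraMap_iff hinj).mp ?_
    rw [map_inv₀, map_sub, hxM, hαM]
    exact inv_sub_integral (hf.map _) (IsAlgClosed.splits _) hroot hxi hyi hy0 (hrt i)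
  have hrM : ∀ i, ∃ b : M, algebraMap M Ω b = r i := by
    intro i
    obtain ⟨b, hb⟩ := Full.root_of_unit hmax _ (hxi' i) (hxi'' i) 2 (by norm_num)
    have h1 : (algebraMap M Ω b) ^ 2 = r i ^ 2 := by
      rw [← map_pow, hb, map_sub, hxM, hαM, hsq]
    rcases sq_eq_sq_iff_eq_or_eq_neg.mp h1 with h2 | h2
    · exact ⟨b, h2⟩
    · exact ⟨-b, by rw [map_neg, h2, neg_neg]⟩
  choose rM hrM using hrM
  have hsqM : ∀ i, rM i ^ 2 = xM - αM i := by
    intro i
    apply hinj
    rw [map_pow, hrM, hsq, map_sub, hxM, hαM]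
  have hrM0 : ∀ i, rM i ≠ 0 := by
    intro i h0
    apply hr0 i
    rw [← hrM, h0, map_zero]
  let TM : M := ∏ i : I, ∏ j ∈ Finset.univ.erase i, rM i / (rM i + rM j)
  have hTM : algebraMap M Ω TM = T := by
    rw [hTprod, map_prod]
    refine Finset.prod_congr rfl fun i _ => ?_
    rw [map_prod]
    refine Finset.prod_congr rfl fun j _ => ?_
    rw [map_div₀, map_add, hrM, hrM]
  have hrMi : ∀ i, IsIntegral R (rM i) := fun i => IsIntegral.of_pow (n := 2) (by norm_num) (by
    rw [hsqM]; exact hxi' i)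
  have hrMi' : ∀ i, IsIntegral R (rM i)⁻¹ := fun i => IsIntegral.of_pow (n := 2) (by norm_num) (by
    rw [inv_pow, hsqM]; exact hxi'' i)
  obtain ⟨hTi, hTi'⟩ := PHI_integral (R := R) hφ (hf.map _) (IsAlgClosed.splits _) (P := P) hG hroot
    (by
      intro a b ha hb _
      obtain ⟨c, rfl⟩ := root_const hf.ne_zero ha
      obtain ⟨d, rfl⟩ := root_const hf.ne_zero hb
      rw [← map_sub, ← map_inv₀, IsScalarTower.algebraMap_apply (AlgebraicClosure k) M Ω]
      exact (Pt.integral_const R _).algebraMap) hxi hyi hy0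
  -- the places
  choose ι₁ A₁ π₁ h₁ using hfin
  choose φ₁ hφ₁ hφ₁' using fun v => place_below (M := M) (h₁ v)
  have hTA' : ∀ {v : HeightOneSpectrum (𝓞 k)}
      {ι : AlgebraicClosure k →ₐ[k] AlgebraicClosure (v.adicCompletion k)}
      {A : ValuationSubring Ω} {π : A →+* AlgebraicClosure (v.adicCompletion k)},
      PlaceOver s (v.adicCompletion k)
        (ι : AlgebraicClosure k →+* AlgebraicClosure (v.adicCompletion k)) A π →
      TM ∈ A.comap (algebraMap M Ω) ∧ TM⁻¹ ∈ A.comap (algebraMap M Ω) := by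
    intro v ι A π h
    obtain ⟨h1, h2⟩ := hTA h
    refine ⟨?_, ?_⟩
    · change algebraMap M Ω TM ∈ A
      rw [hTM]; exact h1
    · change algebraMap M Ω TM⁻¹ ∈ A
      rw [map_inv₀, hTM]; exact h.loc ⟨T, h1⟩ h2
  obtain ⟨e, he⟩ := value_indep (s := s) R hinf htr hmax hs hsec ι₁ _ φ₁ hφ₁ (T := TM) (fun σ => by
      obtain ⟨γ, hγ⟩ := exists_lft (s := s) (Ω := Ω) σ
      apply hinj
      rw [← hγ, hTM, hT σ γ hγ])
    (fun c₁ hc₁ => phi_const hg hφ (hf.map _) (fun a ha => root_const hf.ne_zero ha) hxc hm hc hz1 hG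
      hGP hGd c₁ (by
        change T = _
        rw [← hTM, hc₁, ← IsScalarTower.algebraMap_apply]))
    ((isIntegral_algebraMap_iff hinj).mp (by rw [hTM]; exact hTi))
    ((isIntegral_algebraMap_iff hinj).mp (by rw [map_inv₀, hTM]; exact hTi'))
    (fun v => (hTA' (h₁ v)).1) (fun v => (hTA' (h₁ v)).2) B (by
      intro v hv y hy
      rw [hφ₁'] at hy
      obtain ⟨h1, -⟩ := hTA (h₁ v)
      refine hB v hv (ι₁ v) (A₁ v) (π₁ v) (h₁ v) h1 y ?_
      rw [← hy]
      congr 1
      exact Subtype.ext hTM.symm)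
    (ρ := rM i₀ / rM j₀)
    (by rw [div_eq_mul_inv]; exact (hrMi _).mul (hrMi' _))
    (by rw [inv_div, div_eq_mul_inv]; exact (hrMi _).mul (hrMi' _))
    (by
      intro V hV h1 h2
      have hVk : ∀ a : AlgebraicClosure k, algebraMap (AlgebraicClosure k) M a ∈ V := by
        intro a
        refine Pt.PTAux.mem_of_isIntegral (R := k) (𝒱 := V) hV ?_
        exact (Algebra.IsIntegral.isIntegral (R := k) a).algebraMap
      have h3 : ∀ i j, rM i / rM j ∈ V := ratio_mem V (fun i => hVk _) (fun i j hij => by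
          change (algebraMap (AlgebraicClosure k) M (c i) - algebraMap (AlgebraicClosure k) M (c j))⁻¹
            ∈ V
          rw [← map_sub, ← map_inv₀]
          exact hVk _) (fun i j hij => hα (by
          have h4 : algebraMap M Ω (αM i) = algebraMap M Ω (αM j) := congrArg _ hij
          rwa [hαM, hαM] at h4)) hsqM hrM0 h2
      exact ⟨h3 i₀ j₀, by rw [inv_div]; exact h3 j₀ i₀⟩)
  have he' : ∀ {v : HeightOneSpectrum (𝓞 k)}
      {ι : AlgebraicClosure k →ₐ[k] AlgebraicClosure (v.adicCompletion k)}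
      {A : ValuationSubring Ω} {π : A →+* AlgebraicClosure (v.adicCompletion k)},
      PlaceOver s (v.adicCompletion k)
        (ι : AlgebraicClosure k →+* AlgebraicClosure (v.adicCompletion k)) A π →
      Hv A π (r i₀ / r j₀) (ι e) := by
    intro v ι A π h
    obtain ⟨φ, hφ, hφ'⟩ := place_below (M := M) h
    obtain ⟨h1, h2⟩ := he v ι _ φ hφ (hTA' h).1 (hTA' h).2
    rw [hφ'] at h2
    have h3 : algebraMap M Ω (rM i₀ / rM j₀) = r i₀ / r j₀ := by rw [map_div₀, hrM, hrM]
    rw [← h3]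
    exact ⟨h1, h2⟩
  have hα' : ∀ {v : HeightOneSpectrum (𝓞 k)}
      {ι : AlgebraicClosure k →ₐ[k] AlgebraicClosure (v.adicCompletion k)}
      {A : ValuationSubring Ω} {π : A →+* AlgebraicClosure (v.adicCompletion k)},
      PlaceOver s (v.adicCompletion k)
        (ι : AlgebraicClosure k →+* AlgebraicClosure (v.adicCompletion k)) A π →
      ∀ i, Hv A π (α i) (ι (c i)) := by
    intro v ι A π h i
    rw [← hcα i]
    exact h.const (c i)
  have he2 : e ^ 2 ≠ 1 := by
    intro h2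
    have h3 := (he' h₀).pow 2
    have h4 : (r i₀ / r j₀) ^ 2 * (P.x - α j₀) = P.x - α i₀ := by
      rw [div_pow, hsq i₀, hsq j₀, div_mul_cancel₀]
      exact sub_ne_zero.mpr (hxα j₀)
    have hX : Hv A₀ π₀ P.x (π₀ ⟨P.x, hx₀⟩) := ⟨hx₀, rfl⟩
    have h5 := h3.mul (hX.sub (hα' h₀ j₀))
    rw [h4] at h5
    have h6 := h5.unique (hX.sub (hα' h₀ i₀))
    rw [← map_pow, h2, map_one, one_mul] at h6
    have h7 : ι₀ (c j₀) = ι₀ (c i₀) := by linear_combination -h6
    have h8 := (ι₀ : AlgebraicClosure k →+* AlgebraicClosure (v₀.adicCompletion k)).injective h7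
    exact hij (hα (by rw [← hcα, ← hcα, h8]))
  have hxA : P.x ∈ A := by
    by_contra hxA
    apply he2
    apply (ι : AlgebraicClosure k →+* AlgebraicClosure (v.adicCompletion k)).injective
    change ι (e ^ 2) = ι 1
    rw [map_pow, map_one]
    rcases far_ratio h.loc (hα' h) hxA hsq i₀ j₀ with h1 | h1
    · rw [(he' h).unique h1, one_pow]
    · rw [(he' h).unique h1]; ring
  obtain ⟨ψ, hp, h1, h2, hch⟩ := chain_place (s := s) hf hfs hfd h
  refine ⟨hp.y_mem hxA, hxA, fun h0 => ?_⟩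
  have hW : (hp.redPt P hxA).y = 0 := h0
  have h3 := hp.sp_cl h1 h2 P hxA
  refine cl_ne_zero h2 hg (hp.redPt P hxA) ?_
  rw [← h3, ← z0]
  apply hch z z2 zs 0
  rw [z0, h3]
  exact two_cl h2 hW

end Pool.Agent.Lib.MP_2f3286_ag.HYP
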