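import Pool.Agent.Lib.MP_2f3286_ag.HYP.CuNear
import Pool.Agent.Lib.MP_2f3286_ag.HYP.AFFin

/-!
# If one local point is on the curve then all local points, cusps included, are on the curve
-/

open Polynomial IsDedekindDomain NumberField
open scoped WithZero

noncomputable section

namespace Pool.Agent.Lib.MP_2f3286_ag.HYP

section

variable {k Ω E : Type*} [Field k] [Field Ω] [Algebra k Ω] [Field E] {A : ValuationSubring Ω}
  {π : A →+* E}

theorem aeval_mem_val (hk : ∀ c : k, algebraMap k Ω c ∈ A) {x : Ω} (hx : x ∈ A) (q : k[X]) :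
    aeval x q ∈ A := by
  induction q using Polynomial.induction_on' with
  | add p q hp hq => rw [map_add]; exact add_mem hp hq
  | monomial n c =>
    rw [aeval_monomial]
    exact mul_mem (hk c) (pow_mem hx n)

theorem val_sub_ne_zero (hk : ∀ c : k, algebraMap k Ω c ∈ A) {f : k[X]} {a : k}
    (ha : f.eval a = 0) {x y : Ω} (hx : x ∈ A) (hy : y ∈ A) (hxy : y ^ 2 = aeval x f)
    (h0 : π ⟨y, hy⟩ ≠ 0) :
    π ⟨x - algebraMap k Ω a, sub_mem hx (hk a)⟩ ≠ 0 := by
  intro h1
  obtain ⟨q, hq⟩ := dvd_iff_isRoot.mpr (show f.IsRoot a from ha)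
  have h2 : (⟨y, hy⟩ : A) ^ 2 = ⟨x - algebraMap k Ω a, sub_mem hx (hk a)⟩ *
      ⟨aeval x q, aeval_mem_val hk hx q⟩ := by
    apply Subtype.ext
    change y ^ 2 = (x - algebraMap k Ω a) * aeval x q
    rw [hxy]
    conv_lhs => rw [hq]
    rw [map_mul, map_sub, aeval_X, aeval_C]
  have h3 := congrArg π h2
  rw [map_pow, map_mul, h1, zero_mul] at h3
  exact h0 (pow_eq_zero_iff two_ne_zero |>.1 h3)

theorem val_ne_zero_of_inv {z : Ω} (hz0 : z ≠ 0) (hz : z ∈ A) (hz' : z⁻¹ ∈ A) :
    π ⟨z, hz⟩ ≠ 0 := by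
  intro h0
  have h1 : (⟨z, hz⟩ : A) * ⟨z⁻¹, hz'⟩ = 1 := Subtype.ext (mul_inv_cancel₀ hz0)
  have h2 := congrArg π h1
  rw [map_mul, h0, zero_mul, map_one] at h2
  exact zero_ne_one h2

theorem x_mem_of_y_mem (hk : ∀ c : k, algebraMap k Ω c ∈ A) {f : k[X]} (hf : f.Monic)
    (hdeg : 0 < f.natDegree) {x y : Ω} (hy : y ∈ A) (hxy : y ^ 2 = aeval x f) : x ∈ A := by
  let j : k →+* A := (algebraMap k Ω).codRestrict A hk
  let p : A[X] := f.map j - C ⟨y ^ 2, pow_mem hy 2⟩
  have hp : p.Monic := by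
    refine (hf.map j).sub_of_left ?_
    rw [degree_map_eq_of_injective (RingHom.injective j), degree_eq_natDegree hf.ne_zero]
    refine degree_C_le.trans_lt ?_
    exact_mod_cast hdeg
  have h1 : IsIntegral A x := by
    refine ⟨p, hp, ?_⟩
    rw [eval₂_sub, eval₂_map, eval₂_C]
    have h2 : (algebraMap A Ω).comp j = algebraMap k Ω := RingHom.ext fun _ => rfl
    rw [h2, ← aeval_def, ← hxy]
    exact sub_self _
  obtain ⟨z, hz⟩ := (IsIntegrallyClosed.isIntegral_iff (R := A) (K := Ω)).mp h1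
  rw [← hz]
  exact z.2

end

universe u

variable {k : Type u} [Field k] [NumberField k] {K : Type*} [Field K] [Algebra k K]
  {Ω : Type*} [Field Ω] [Algebra K Ω] [IsAlgClosed Ω] [IsGalois K Ω]
  [Algebra (AlgebraicClosure k) Ω] [Algebra k Ω]
  [IsScalarTower k K Ω] [IsScalarTower k (AlgebraicClosure k) Ω]
  {M : Type*} [Field M] [Algebra K M] [Normal K M] [Algebra M Ω] [IsGalois M Ω]
  [Algebra (AlgebraicClosure k) M] [Algebra k M]
  [IsScalarTower k K M] [IsScalarTower k (AlgebraicClosure k) M]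
  [IsScalarTower K M Ω] [IsScalarTower (AlgebraicClosure k) M Ω]

omit [IsGalois M Ω] [Normal K M] [IsGalois K Ω] [IsAlgClosed Ω] in
/-- the values of the coordinates of the second model -/
theorem val_of_second {g : ℕ} {a b : k} (hb : b ≠ 0) {x y : Ω} (hxa : x - algebraMap k Ω a ≠ 0)
    (hy0 : y ≠ 0) {A : ValuationSubring Ω} {E : Type*} [Field E] {π : A →+* E}
    (hloc : ∀ a : A, π a ≠ 0 → (a : Ω)⁻¹ ∈ A)
    (hk : ∀ c : k, algebraMap k Ω c ∈ A)
    (hx2 : algebraMap k Ω b / (x - algebraMap k Ω a) ∈ A)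
    (hx2' : π ⟨_, hx2⟩ ≠ 0)
    (hy2 : algebraMap k Ω b ^ g * y / (x - algebraMap k Ω a) ^ (g + 1) ∈ A)
    (hy2' : π ⟨_, hy2⟩ ≠ 0) :
    ∃ hyA : y ∈ A, x ∈ A ∧ π ⟨y, hyA⟩ ≠ 0 := by
  have hb' : algebraMap k Ω b ≠ 0 := by rw [_root_.map_ne_zero]; exact hb
  have hbi : (algebraMap k Ω b)⁻¹ ∈ A := by rw [← map_inv₀]; exact hk _
  have h1 : x - algebraMap k Ω a ∈ A := by
    have h2 := hloc ⟨_, hx2⟩ hx2'
    have h3 : x - algebraMap k Ω a = algebraMap k Ω b *
        (algebraMap k Ω b / (x - algebraMap k Ω a))⁻¹ := by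
      rw [inv_div, mul_div_cancel₀ _ hb']
    rw [h3]
    exact mul_mem (hk b) h2
  have h2 : (x - algebraMap k Ω a)⁻¹ ∈ A := by
    have h3 : (x - algebraMap k Ω a)⁻¹ = (algebraMap k Ω b / (x - algebraMap k Ω a)) *
        (algebraMap k Ω b)⁻¹ := by
      field_simp
    rw [h3]
    exact mul_mem hx2 hbi
  have hxA : x ∈ A := by
    have h3 := add_mem h1 (hk a)
    rwa [sub_add_cancel] at h3
  have hyA : y ∈ A := by
    have h3 : y = (algebraMap k Ω b ^ g * y / (x - algebraMap k Ω a) ^ (g + 1)) *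
        (x - algebraMap k Ω a) ^ (g + 1) * ((algebraMap k Ω b)⁻¹) ^ g := by
      rw [inv_pow]
      field_simp
    rw [h3]
    exact mul_mem (mul_mem hy2 (pow_mem h1 _)) (pow_mem hbi _)
  have hyA' : y⁻¹ ∈ A := by
    have h4 := hloc ⟨_, hy2⟩ hy2'
    have h3 : y⁻¹ = (algebraMap k Ω b ^ g * y / (x - algebraMap k Ω a) ^ (g + 1))⁻¹ *
        ((x - algebraMap k Ω a)⁻¹) ^ (g + 1) * (algebraMap k Ω b) ^ g := by
      rw [inv_pow]
      field_simp
    rw [h3]
    exact mul_mem (mul_mem h4 (pow_mem h2 _)) (pow_mem (hk b) _)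
  exact ⟨hyA, hxA, val_ne_zero_of_inv hy0 hyA hyA'⟩

/-- **All local points are on the curve.** -/
theorem near_of_selTor (hinf : Fintype.card (InfinitePlace k) = 1)
    (R : Subalgebra k K) (htr : Algebra.trdeg k K = 1)
    (hmax : Pt.IsRadClosed R M (AlgebraicClosure k))
    (hM : ∀ x : Ω, (∃ m : M, algebraMap M Ω m = x) ↔
      ∀ g ∈ Pt.inertia R K Ω (AlgebraicClosure k), g x = x)
    (s : Gal(AlgebraicClosure k/k) →* Gal(M/K)) (hs : Continuous s)
    (hsec : ∀ σ a, s σ (algebraMap (AlgebraicClosure k) M a) =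
      algebraMap (AlgebraicClosure k) M (σ a))
    (hfin : ∀ (v : HeightOneSpectrum (𝓞 k))
      (ι : AlgebraicClosure k →ₐ[k] AlgebraicClosure (v.adicCompletion k)),
      ∃ (A : ValuationSubring Ω) (π : A →+* AlgebraicClosure (v.adicCompletion k)),
        PlaceOver s (v.adicCompletion k)
          (ι : AlgebraicClosure k →+* AlgebraicClosure (v.adicCompletion k)) A π)
    {Q : Prop} (hreal : Q → ∀ ι : AlgebraicClosure k →+* ℂ,
      (∃ σ₀ : Gal(AlgebraicClosure k/k), ∀ a, ι (σ₀ a) = starRingEnd ℂ (ι a)) →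
      ∃ (A : ValuationSubring Ω) (π : A →+* ℂ), PlaceOver s ℝ ι A π)
    {f : k[X]} (hf : f.Monic) (hfs : f.Separable) {g : ℕ} (hg : 1 ≤ g)
    (hfd : f.natDegree = 2 * g + 1) (hS : SelTorR k f Q)
    {x y : R} (hx : Transcendental k (x : K)) (hxy : (y : K) ^ 2 = aeval (x : K) f)
    (hy : IsIntegral R ((y : K)⁻¹))
    {v₀ : HeightOneSpectrum (𝓞 k)}
    {ι₀ : AlgebraicClosure k →ₐ[k] AlgebraicClosure (v₀.adicCompletion k)}
    {A₀ : ValuationSubring Ω} {π₀ : A₀ →+* AlgebraicClosure (v₀.adicCompletion k)}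
    (h₀ : PlaceOver s (v₀.adicCompletion k)
      (ι₀ : AlgebraicClosure k →+* AlgebraicClosure (v₀.adicCompletion k)) A₀ π₀)
    (hx₀ : algebraMap K Ω x ∈ A₀) (hy₀ : algebraMap K Ω (y : K)⁻¹ ∈ A₀)
    {v : HeightOneSpectrum (𝓞 k)}
    {ι : AlgebraicClosure k →ₐ[k] AlgebraicClosure (v.adicCompletion k)}
    {A : ValuationSubring Ω} {π : A →+* AlgebraicClosure (v.adicCompletion k)}
    (h : PlaceOver s (v.adicCompletion k)
      (ι : AlgebraicClosure k →+* AlgebraicClosure (v.adicCompletion k)) A π) :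
    algebraMap K Ω x ∈ A ∧ algebraMap K Ω (y : K)⁻¹ ∈ A := by
  classical
  have htrΩ : Algebra.trdeg k Ω = 1 := trdeg_top (K := K) htr
  have hk : ∀ {v : HeightOneSpectrum (𝓞 k)}
      {ι : AlgebraicClosure k →ₐ[k] AlgebraicClosure (v.adicCompletion k)}
      {A : ValuationSubring Ω} {π : A →+* AlgebraicClosure (v.adicCompletion k)},
      PlaceOver s (v.adicCompletion k)
        (ι : AlgebraicClosure k →+* AlgebraicClosure (v.adicCompletion k)) A π →
      ∀ c : k, algebraMap k Ω c ∈ A := by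
    intro v ι A π h c
    rw [IsScalarTower.algebraMap_apply k (AlgebraicClosure k) Ω]
    exact (h.const _).1
  have hBk : ∀ a : AlgebraicClosure k, IsIntegral R (algebraMap (AlgebraicClosure k) Ω a) := by
    intro a
    rw [IsScalarTower.algebraMap_apply (AlgebraicClosure k) M Ω]
    have htM : IsScalarTower R M Ω := IsScalarTower.of_algebraMap_eq fun x => by
      change algebraMap K Ω x = algebraMap M Ω (algebraMap K M x)
      rw [← IsScalarTower.algebraMap_apply]
    exact (Pt.integral_const R a).algebraMap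
  let P : Pt (f.map (algebraMap k Ω)) := ⟨algebraMap K Ω x, algebraMap K Ω y, by
    rw [← map_pow, hxy, eval_map, IsScalarTower.algebraMap_eq k K Ω, ← hom_eval₂]
    rfl⟩
  have hPe : P.y ^ 2 = aeval P.x f := by
    rw [P.eqn, eval_map, ← aeval_def]
  have hPx : ∀ (σ : Gal(AlgebraicClosure k/k)) (γ : Gal(Ω/K)), Lft s σ γ → γ P.x = P.x :=
    fun σ γ _ => γ.commutes (x : K)
  have hPy : ∀ (σ : Gal(AlgebraicClosure k/k)) (γ : Gal(Ω/K)), Lft s σ γ → γ P.y = P.y :=
    fun σ γ _ => γ.commutes (y : K)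
  have hxΩ : Transcendental k P.x := (transcendental_algebraMap_iff (algebraMap K Ω).injective).2 hx
  have hxc : ∀ c : AlgebraicClosure k, P.x ≠ algebraMap _ Ω c := by
    intro c hc
    apply hxΩ
    rw [hc]
    exact (Algebra.IsAlgebraic.isAlgebraic (R := k) c).algebraMap
  have hy0 : P.y ≠ 0 := by
    intro h0
    have h := P.eqn
    rw [h0, zero_pow two_ne_zero] at h
    obtain ⟨c, hc⟩ := root_const hf.ne_zero h.symm
    exact hxc c hc.symm
  have hxi : IsIntegral R P.x := by
    change IsIntegral R (algebraMap R Ω x)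
    exact isIntegral_algebraMap
  have hyi' : IsIntegral R (P.y)⁻¹ := by
    have htK : IsScalarTower R K Ω := IsScalarTower.of_algebraMap_eq fun x => rfl
    change IsIntegral R (algebraMap K Ω y)⁻¹
    rw [← map_inv₀]
    exact hy.algebraMap
  have hunr : ∀ (n : ℕ) (E' : J (f.map (algebraMap k Ω))), 2 ^ n • E' ∈ lfix f s →
      ∀ δ : Gal(Ω/K), (∀ m : M, δ (algebraMap M Ω m) = algebraMap M Ω m) →
        sact f δ E' = E' := by
    intro n E' hE' δ hδ
    refine fixed_of_inertia (kb := AlgebraicClosure k) (R := R) (good_of hfs hfd _)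
      (fun z hz => (hM z).2 hz) (fun g hg => ?_) δ hδ
    refine inertia_half R htrΩ x hx hBk hf hfs hfd hg (n := n) ?_
    exact hE' 1 g (lft_one fun m => (hM _).1 ⟨m, rfl⟩ g hg)
  -- it suffices that `y` is a unit
  suffices main : ∃ hyA : P.y ∈ A, P.x ∈ A ∧ π ⟨P.y, hyA⟩ ≠ 0 by
    obtain ⟨h1, h2, h3⟩ := main
    refine ⟨h2, ?_⟩
    rw [map_inv₀]
    exact h.loc ⟨P.y, h1⟩ h3
  have hx₀' : P.x ∈ A₀ := hx₀
  have hy₀m : P.y ∈ A₀ := (plc_of_const (f := f) hf h₀.const h₀.loc).y_mem hx₀'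
  have hy₀' : π₀ ⟨P.y, hy₀m⟩ ≠ 0 := by
    intro h0
    have h1 : (⟨P.y, hy₀m⟩ : A₀) * ⟨algebraMap K Ω (y : K)⁻¹, hy₀⟩ = 1 := by
      apply Subtype.ext
      change algebraMap K Ω (y : K) * algebraMap K Ω (y : K)⁻¹ = 1
      rw [map_inv₀]
      exact mul_inv_cancel₀ hy0
    have h2 := congrArg π₀ h1
    rw [map_mul, h0, zero_mul, map_one] at h2
    exact zero_ne_one h2
  obtain ⟨t, ht, ⟨m, htm⟩, z, z0, zs, z2⟩ :=
    exists_chain_lft s hs hsec hfin hreal hunr hf hfs hfd hS hPx hPy
  have hinj := jconst_injective (Ω := Ω) f (good_of hfs hfd (algebraMap k (AlgebraicClosure k)))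
  have hfin' : ∀ v : HeightOneSpectrum (𝓞 k),
      ∃ (ι : AlgebraicClosure k →ₐ[k] AlgebraicClosure (v.adicCompletion k))
        (A : ValuationSubring Ω) (π : A →+* AlgebraicClosure (v.adicCompletion k)),
        PlaceOver s (v.adicCompletion k)
          (ι : AlgebraicClosure k →+* AlgebraicClosure (v.adicCompletion k)) A π := by
    intro v
    obtain ⟨A, π, h1⟩ := hfin v (IsAlgClosed.lift)
    exact ⟨_, A, π, h1⟩
  by_cases ht0 : t = 0
  · rw [ht0, map_zero, sub_zero] at z0
    exact near_of_chain hinf htr R hmax hs hsec hfin' hf hfs hg hfd hPx hPy hxc hxi hyi' z0 zs z2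
      h₀ hx₀ h
  by_cases htW : ∃ W : Pt (f.map (algebraMap k (AlgebraicClosure k))), W.y = 0 ∧ t = cl W
  · obtain ⟨W, hW, rfl⟩ := htW
    have hΩ : Good g (f.map (algebraMap k Ω)) := good_of hfs hfd _
    -- the ramification point is rational
    obtain ⟨a₀, ha₀⟩ := mem_of_fixed (k := k) (a := W.x) fun σ => by
      have h2 := ht σ
      rw [gact, J.map_cl] at h2
      exact congrArg Pt.x (cl_injective (good_of hfs hfd _) hg h2)
    have h0 : f.eval a₀ = 0 := by
      have h3 : (f.map (algebraMap k (AlgebraicClosure k))).eval W.x = 0 := by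
        rw [← W.eqn, hW]; ring
      rw [← ha₀, eval_map, eval₂_at_apply] at h3
      exact (map_eq_zero _).mp h3
    rw [jconst, J.map_cl] at z0
    have hWx : (W.map (algebraMap (AlgebraicClosure k) Ω) (map_const f)).x = algebraMap k Ω a₀ := by
      change algebraMap (AlgebraicClosure k) Ω W.x = _
      rw [← ha₀, ← IsScalarTower.algebraMap_apply]
    have ha : (f.map (algebraMap k Ω)).eval (algebraMap k Ω a₀) = 0 := by
      rw [eval_map, eval₂_at_apply, h0, map_zero]
    have hgk : Good g f := ⟨two_ne_zero, hfs, hfd⟩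
    have hgk' : Good g (f.map (algebraMap k (AlgebraicClosure k))) := good_of hfs hfd _
    have hak : (f.map (algebraMap k (AlgebraicClosure k))).eval
        (algebraMap k (AlgebraicClosure k) a₀) = 0 := by
      rw [eval_map, eval₂_at_apply, h0, map_zero]
    -- the second model over `k`
    obtain ⟨hm2, hd2⟩ := mod2_monic hgk h0
    have hs2 : (mod2 g a₀ f).Separable := by
      have h2 := (mod2_good hgk' hak).sep
      rw [← mod2_map] at h2
      exact (separable_map _).mp h2
    have he : (mod2 g (algebraMap k Ω a₀) (f.map (algebraMap k Ω))).map (RingHom.id Ω) =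
        (mod2 g a₀ f).map (algebraMap k Ω) := by
      rw [Polynomial.map_id, mod2_map]
    have hPa : P.x ≠ algebraMap k Ω a₀ := by
      intro h
      exact hxc (algebraMap k _ a₀) (by rw [← IsScalarTower.algebraMap_apply]; exact h)
    have hsk : ∀ (γ : Gal(Ω/K)) (b : k), γ (algebraMap k Ω b) = algebraMap k Ω b := by
      intro γ b
      rw [IsScalarTower.algebraMap_apply k K Ω, γ.commutes]
    have hB : (f.map (algebraMap k Ω)).derivative.eval (algebraMap k Ω a₀) =
        algebraMap k Ω (f.derivative.eval a₀) := by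
      rw [derivative_map, eval_map, eval₂_at_apply]
    have hb := deriv_ne_zero hΩ ha
    have hb' : f.derivative.eval a₀ ≠ 0 := by
      intro h5
      rw [hB, h5, map_zero] at hb
      exact hb rfl
    have hkR : ∀ b : k, IsIntegral R (algebraMap k Ω b) := by
      intro b
      rw [IsScalarTower.algebraMap_apply k (AlgebraicClosure k) Ω]
      exact hBk _
    have hinv : IsIntegral R (P.x - algebraMap k Ω a₀)⁻¹ := by
      refine inv_sub_integral (hf.map _) (IsAlgClosed.splits _) (fun a ha => ?_) hxi hyi' hy0 ha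
      obtain ⟨c, rfl⟩ := root_const hf.ne_zero ha
      exact hBk c
    have hPa' : P.x - algebraMap k Ω a₀ ≠ 0 := sub_ne_zero.mpr hPa
    have hx2₀ : ((P.two hΩ ha hPa).map (RingHom.id Ω) he).x ∈ A₀ := by
      change (f.map (algebraMap k Ω)).derivative.eval (algebraMap k Ω a₀) /
        (P.x - algebraMap k Ω a₀) ∈ A₀
      rw [hB, div_eq_mul_inv]
      exact mul_mem (hk h₀ _) (h₀.loc ⟨P.x - algebraMap k Ω a₀, sub_mem hx₀' (hk h₀ a₀)⟩
        (val_sub_ne_zero (hk h₀) h0 hx₀' hy₀m hPe hy₀'))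
    obtain ⟨h1, h2, h3⟩ := near_of_chain hinf htr R hmax hs hsec hfin' hm2 hs2 hg hd2
      (P := (P.two hΩ ha hPa).map (RingHom.id Ω) he)
      (z := fun n => J.map (RingHom.id Ω) he (rho hΩ ha (z n)))
      (by
        intro σ γ hγ
        change γ ((f.map (algebraMap k Ω)).derivative.eval (algebraMap k Ω a₀) /
          (P.x - algebraMap k Ω a₀)) = _
        rw [hB, map_div₀, map_sub, hsk, hsk, hPx σ γ hγ, ← hB]
        rfl)
      (by
        intro σ γ hγ
        change γ ((f.map (algebraMap k Ω)).derivative.eval (algebraMap k Ω a₀) ^ g * P.y /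
          (P.x - algebraMap k Ω a₀) ^ (g + 1)) = _
        rw [hB, map_div₀, map_mul, map_pow, map_pow, map_sub, hsk, hsk, hPx σ γ hγ, hPy σ γ hγ,
          ← hB]
        rfl)
      (by
        intro c hc
        have h2 : (f.map (algebraMap k Ω)).derivative.eval (algebraMap k Ω a₀) /
          (P.x - algebraMap k Ω a₀) = algebraMap (AlgebraicClosure k) Ω c := hc
        have hc0 : algebraMap (AlgebraicClosure k) Ω c ≠ 0 := by
          rw [← h2]
          exact div_ne_zero hb hPa'
        apply hxc (algebraMap k _ a₀ + algebraMap k _ (f.derivative.eval a₀) / c)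
        rw [map_add, map_div₀, ← IsScalarTower.algebraMap_apply, ← IsScalarTower.algebraMap_apply,
          ← hB, ← h2, div_div_cancel₀ hb]
        ring)
      (by
        change IsIntegral R ((f.map (algebraMap k Ω)).derivative.eval (algebraMap k Ω a₀) /
          (P.x - algebraMap k Ω a₀))
        rw [hB, div_eq_mul_inv]
        exact (hkR _).mul hinv)
      (by
        change IsIntegral R ((f.map (algebraMap k Ω)).derivative.eval (algebraMap k Ω a₀) ^ g *
          P.y / (P.x - algebraMap k Ω a₀) ^ (g + 1))⁻¹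
        rw [inv_div, div_eq_mul_inv, mul_inv, hB, ← map_pow, ← map_inv₀]
        exact ((hxi.sub (hkR _)).pow _).mul ((hkR _).mul hyi'))
      (by
        change J.map (RingHom.id Ω) he (rho hΩ ha (z 0)) = _
        rw [z0, rho_sub hΩ ha hPa hWx, J.map_cl])
      (by
        intro n σ γ hγ
        have hj2 : (mod2 g (algebraMap k Ω a₀) (f.map (algebraMap k Ω))).map
            (γ : Ω →+* Ω) = mod2 g (algebraMap k Ω a₀) (f.map (algebraMap k Ω)) := by
          rw [mod2_map, map_fixΩ f γ]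
          congr 1
          exact hsk γ a₀
        have h2 := rho_map hΩ ha hΩ ha (γ : Ω →+* Ω) (map_fixΩ f γ) (hsk γ a₀) hj2
          (z n)
        have h3 : J.map (γ : Ω →+* Ω) (map_fixΩ f γ) (z n) = z n := zs n σ γ hγ
        rw [h3] at h2
        conv_rhs => rw [h2]
        rw [sact]
        have hc1 : (mod2 g (algebraMap k Ω a₀) (f.map (algebraMap k Ω))).map
            ((γ : Ω →+* Ω).comp (RingHom.id Ω)) =
            (mod2 g a₀ f).map (algebraMap k Ω) := by
          rw [← Polynomial.map_map, he, map_fixΩ]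
        have hc2 : (mod2 g (algebraMap k Ω a₀) (f.map (algebraMap k Ω))).map
            ((RingHom.id Ω).comp (γ : Ω →+* Ω)) =
            (mod2 g a₀ f).map (algebraMap k Ω) := by
          rw [← Polynomial.map_map, hj2, he]
        rw [J.map_map _ _ _ _ hc1, J.map_map _ _ _ _ hc2]
        rfl)
      (by
        intro n
        change 2 • J.map (RingHom.id Ω) he (rho hΩ ha (z (n + 1))) = _
        rw [← map_nsmul, ← map_nsmul, z2])
      h₀ hx2₀ h
    -- back to the first model
    have hP2 : ((P.two hΩ ha hPa).map (RingHom.id Ω) he).y ^ 2 =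
        aeval ((P.two hΩ ha hPa).map (RingHom.id Ω) he).x (mod2 g a₀ f) := by
      rw [((P.two hΩ ha hPa).map (RingHom.id Ω) he).eqn, eval_map, ← aeval_def]
    have h4 := val_sub_ne_zero (hk h) (mod2_eval_zero hgk (a := a₀)) h2 h1 hP2 h3
    have hxe : ((P.two hΩ ha hPa).map (RingHom.id Ω) he).x =
        algebraMap k Ω (f.derivative.eval a₀) / (P.x - algebraMap k Ω a₀) := by
      rw [← hB]; rfl
    have hye : ((P.two hΩ ha hPa).map (RingHom.id Ω) he).y =
        algebraMap k Ω (f.derivative.eval a₀) ^ g * P.y / (P.x - algebraMap k Ω a₀) ^ (g + 1) := by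
      rw [← hB]; rfl
    refine val_of_second (g := g) hb' hPa' hy0 h.loc (hk h) (hxe ▸ h2) ?_ (hye ▸ h1) ?_
    · intro h5
      apply h4
      rw [← h5]
      congr 1
      apply Subtype.ext
      change ((P.two hΩ ha hPa).map (RingHom.id Ω) he).x - algebraMap k Ω 0 = _
      refine Eq.trans ?_ hxe
      rw [map_zero, sub_zero]
    · intro h5
      apply h3
      rw [← h5]
      congr 1
      exact Subtype.ext hye
  · obtain ⟨ψ, hp, h1, h2, hch⟩ := chain_place (s := s) hf hfs hfd h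
    let Gs : Set (Ω →+* Ω) := {h | ∃ (σ : Gal(AlgebraicClosure k/k)) (γ : Gal(Ω/K)), Lft s σ γ ∧
      h = (γ : Ω →+* Ω)}
    have hGs : ∀ h ∈ Gs, (f.map (algebraMap k Ω)).map h = f.map (algebraMap k Ω) := by
      rintro _ ⟨σ, γ, -, rfl⟩
      exact map_fixΩ f γ
    obtain ⟨h3, h4⟩ := y_unit hp h1 h2 (P := P) (t := jconst f t) (m := m)
      (by rw [← map_nsmul, htm, map_zero]) (fun h => ht0 (hinj (h.trans (map_zero _).symm)))
      (by
        intro W hW h
        obtain ⟨c, hc⟩ := root_const hf.ne_zero (a := W.x) (by rw [← W.eqn, hW]; ring)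
        apply htW
        have h3 : (f.map (algebraMap k (AlgebraicClosure k))).eval c = 0 := by
          apply (algebraMap (AlgebraicClosure k) Ω).injective
          rw [map_zero, ← eval₂_at_apply, ← eval_map, Polynomial.map_map,
            ← IsScalarTower.algebraMap_eq, hc, ← W.eqn, hW]
          ring
        refine ⟨⟨c, 0, by rw [h3]; ring⟩, rfl, ?_⟩
        apply hinj
        rw [h, jconst, J.map_cl]
        congr 1
        ext
        · exact hc.symm
        · rw [hW]
          exact (map_zero _).symm)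
      (fun j hj => by
        rw [← z0] at hj ⊢
        refine chain_pow_zero hp h1 h2 hGs z2 (by
          rintro _ ⟨σ, γ, hγ, rfl⟩ n
          exact zs n σ γ hγ) (fun T hT hTfix n => hch T hT (fun n σ γ hγ => ?_) n) j hj
        exact hTfix _ ⟨σ, γ, hγ, rfl⟩ n)
    exact ⟨h3, x_mem_of_y_mem (hk h) hf (by omega) h3 hPe, h4⟩

end Pool.Agent.Lib.MP_2f3286_ag.HYP
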