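import Pool.Agent.Lib.MP_2f3286_ag.HYP.AFUnit

/-!
# The ratios of the square roots are integral over the ring generated by the unit and its inverse
-/

open Polynomial

noncomputable section

namespace Pool.Agent.Lib.MP_2f3286_ag.HYP

/-- the ratios of the square roots are in the valuation rings in which the unit is invertible -/
theorem ratio_mem {Ω : Type*} [Field Ω] {ι : Type*} [Fintype ι] [DecidableEq ι]
    (V : ValuationSubring Ω) {α r : ι → Ω} {x : Ω} (hα : ∀ i, α i ∈ V)
    (hαα : ∀ i j, i ≠ j → (α i - α j)⁻¹ ∈ V) (hαi : Function.Injective α)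
    (hr : ∀ i, r i ^ 2 = x - α i) (hr0 : ∀ i, r i ≠ 0)
    (hT : (∏ i, ∏ j ∈ Finset.univ.erase i, r i / (r i + r j))⁻¹ ∈ V) (i j : ι) :
    r i / r j ∈ V := by
  classical
  set v := V.valuation with hv
  have hmem : ∀ z : Ω, v z ≤ 1 ↔ z ∈ V := fun z => V.valuation_le_one_iff z
  rw [← hmem, map_div₀]
  by_cases hij : i = j
  · rw [hij, div_self]
    rw [_root_.map_ne_zero]
    exact hr0 j
  -- the differences are units
  have hd : ∀ i j, i ≠ j → v (α i - α j) = 1 := by
    intro i j hij
    refine le_antisymm ((hmem _).2 (sub_mem (hα i) (hα j))) ?_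
    have h1 := (hmem _).2 (hαα i j hij)
    rw [map_inv₀] at h1
    have h2 : v (α i - α j) ≠ 0 := by
      rw [_root_.map_ne_zero, sub_ne_zero]
      exact fun h => hij (hαi h)
    exact (inv_le_one₀ (zero_lt_iff.mpr h2)).mp h1
  have hsq : ∀ i, v (r i) ^ 2 = v (x - α i) := fun i => by rw [← map_pow, hr]
  by_cases hx : x ∈ V
  · have hle : ∀ i, v (r i) ≤ 1 := by
      intro i
      have h1 : v (r i) ^ 2 ≤ 1 := by
        rw [hsq]
        exact (hmem _).2 (sub_mem hx (hα i))
      exact (pow_le_one_iff_of_nonneg zero_le two_ne_zero).mp h1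
    -- the sums are units
    have hadd : ∀ i j, i ≠ j → v (r i + r j) = 1 := by
      intro i j hij
      have h1 : (r i + r j) * (r i - r j) = α j - α i := by
        linear_combination hr i - hr j
      have h2 := congrArg v h1
      rw [map_mul, hd j i hij.symm] at h2
      have h3 : v (r i + r j) ≤ 1 := (v.map_add_le (hle i) (hle j))
      have h4 : v (r i - r j) ≤ 1 := (v.map_sub_le (hle i) (hle j))
      refine le_antisymm h3 ?_
      rw [← h2]
      exact mul_le_of_le_one_right' h4
    -- all the square roots are units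
    have hT' : ∏ i, v (r i) ^ (Fintype.card ι - 1) = v (∏ i, ∏ j ∈ Finset.univ.erase i, r i / (r i + r j)) := by
      rw [map_prod]
      refine Finset.prod_congr rfl fun i _ => ?_
      rw [map_prod]
      rw [Finset.prod_congr rfl fun j hj => (by
        rw [map_div₀, hadd i j (Finset.ne_of_mem_erase hj).symm, div_one] :
          v (r i / (r i + r j)) = v (r i))]
      rw [Finset.prod_const, Finset.card_erase_of_mem (Finset.mem_univ i), Finset.card_univ]
    have hT1 : v (∏ i, ∏ j ∈ Finset.univ.erase i, r i / (r i + r j)) = 1 := by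
      refine le_antisymm ?_ ?_
      · rw [← hT']
        exact Finset.prod_le_one' fun i _ => pow_le_one' (hle i) _
      · have h1 := (hmem _).2 hT
        rw [map_inv₀] at h1
        refine (inv_le_one₀ (zero_lt_iff.mpr ?_)).mp h1
        rw [← hT', Finset.prod_ne_zero_iff]
        intro i _
        exact pow_ne_zero _ (by rw [_root_.map_ne_zero]; exact hr0 i)
    have hcard : Fintype.card ι - 1 ≠ 0 := by
      have h1 : 1 < Fintype.card ι := Fintype.one_lt_card_iff.mpr ⟨i, j, hij⟩
      omega
    have hone : ∀ i, v (r i) = 1 := by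
      intro i
      refine le_antisymm (hle i) ?_
      have h1 : ∏ i, v (r i) ^ (Fintype.card ι - 1) = 1 := hT'.trans hT1
      by_contra hlt
      rw [not_le] at hlt
      have h2 : v (r i) ^ (Fintype.card ι - 1) < 1 := pow_lt_one' hlt hcard
      rw [← Finset.mul_prod_erase Finset.univ _ (Finset.mem_univ i)] at h1
      have h3 : ∏ j ∈ Finset.univ.erase i, v (r j) ^ (Fintype.card ι - 1) ≤ 1 :=
        Finset.prod_le_one' fun j _ => pow_le_one' (hle j) _
      have h4 : v (r i) ^ (Fintype.card ι - 1) *
          ∏ j ∈ Finset.univ.erase i, v (r j) ^ (Fintype.card ι - 1) < 1 :=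
        mul_lt_one_of_lt_of_le h2 h3
      exact h4.ne h1
    rw [hone, hone, div_one]
  · have h1 : ∀ i, v (x - α i) = v x := by
      intro i
      have h2 : v (α i) < v x := by
        refine lt_of_le_of_lt ((hmem _).2 (hα i)) ?_
        rw [← not_le]
        exact fun h => hx ((hmem _).1 h)
      exact Valuation.map_sub_eq_of_lt_left v h2
    have h2 : v (r i) = v (r j) := by
      have h3 : v (r i) ^ 2 = v (r j) ^ 2 := by rw [hsq, hsq, h1, h1]
      exact (pow_left_inj₀ zero_le zero_le two_ne_zero).mp h3
    rw [h2, div_self]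
    rw [_root_.map_ne_zero]
    exact hr0 j

end Pool.Agent.Lib.MP_2f3286_ag.HYP
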