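import Mathlib

/-!
# Places of the function field of a curve `y ^ 2 = f(x)` with given values of `x` and `y`
-/

open Polynomial IntermediateField

namespace Pool.Agent.Lib.MP_2f3286_ag.HYP

section

variable {M Ω : Type*} [Field M] [Field Ω] {A₀ A₁ : ValuationSubring M}

/-- the value of `z` at the two places is the same -/
def Ag (ψ₀ : A₀ →+* Ω) (ψ₁ : A₁ →+* Ω) (z : M) : Prop :=
  ∃ (h₀ : z ∈ A₀) (h₁ : z ∈ A₁), ψ₁ ⟨z, h₁⟩ = ψ₀ ⟨z, h₀⟩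

variable {ψ₀ : A₀ →+* Ω} {ψ₁ : A₁ →+* Ω}

theorem Ag.add {z w : M} (hz : Ag ψ₀ ψ₁ z) (hw : Ag ψ₀ ψ₁ w) : Ag ψ₀ ψ₁ (z + w) := by
  obtain ⟨h1, h2, h3⟩ := hz
  obtain ⟨h4, h5, h6⟩ := hw
  refine ⟨add_mem h1 h4, add_mem h2 h5, ?_⟩
  have e1 : (⟨z + w, add_mem h2 h5⟩ : A₁) = ⟨z, h2⟩ + ⟨w, h5⟩ := rfl
  have e0 : (⟨z + w, add_mem h1 h4⟩ : A₀) = ⟨z, h1⟩ + ⟨w, h4⟩ := rfl
  rw [e0, e1, map_add, map_add, h3, h6]

theorem Ag.mul {z w : M} (hz : Ag ψ₀ ψ₁ z) (hw : Ag ψ₀ ψ₁ w) : Ag ψ₀ ψ₁ (z * w) := by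
  obtain ⟨h1, h2, h3⟩ := hz
  obtain ⟨h4, h5, h6⟩ := hw
  refine ⟨mul_mem h1 h4, mul_mem h2 h5, ?_⟩
  have e1 : (⟨z * w, mul_mem h2 h5⟩ : A₁) = ⟨z, h2⟩ * ⟨w, h5⟩ := rfl
  have e0 : (⟨z * w, mul_mem h1 h4⟩ : A₀) = ⟨z, h1⟩ * ⟨w, h4⟩ := rfl
  rw [e0, e1, map_mul, map_mul, h3, h6]

theorem Ag.neg {z : M} (hz : Ag ψ₀ ψ₁ z) : Ag ψ₀ ψ₁ (-z) := by
  obtain ⟨h1, h2, h3⟩ := hz
  refine ⟨neg_mem h1, neg_mem h2, ?_⟩
  have e1 : (⟨-z, neg_mem h2⟩ : A₁) = -⟨z, h2⟩ := rfl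
  have e0 : (⟨-z, neg_mem h1⟩ : A₀) = -⟨z, h1⟩ := rfl
  rw [e0, e1, map_neg, map_neg, h3]

theorem Ag.zero : Ag ψ₀ ψ₁ (0 : M) :=
  ⟨zero_mem _, zero_mem _, (map_zero ψ₁).trans (map_zero ψ₀).symm⟩

theorem Ag.inv (hk₀ : ∀ z : A₀, ψ₀ z ≠ 0 → (z : M)⁻¹ ∈ A₀)
    (hk₁ : ∀ z : A₁, ψ₁ z ≠ 0 → (z : M)⁻¹ ∈ A₁) {z : M} (hz : Ag ψ₀ ψ₁ z)
    (hne : ∀ h₀ : z ∈ A₀, ψ₀ ⟨z, h₀⟩ ≠ 0) : Ag ψ₀ ψ₁ z⁻¹ := by
  obtain ⟨h1, h2, h3⟩ := hz
  have h4 := hne h1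
  have h5 : ψ₁ ⟨z, h2⟩ ≠ 0 := by rw [h3]; exact h4
  refine ⟨hk₀ _ h4, hk₁ _ h5, ?_⟩
  have hz0 : z ≠ 0 := by
    rintro rfl
    exact h4 (map_zero ψ₀)
  have e1 : ψ₁ ⟨z⁻¹, hk₁ _ h5⟩ * ψ₁ ⟨z, h2⟩ = 1 := by
    rw [← map_mul, ← map_one ψ₁]
    congr 1
    exact Subtype.ext (inv_mul_cancel₀ hz0)
  have e0 : ψ₀ ⟨z⁻¹, hk₀ _ h4⟩ * ψ₀ ⟨z, h1⟩ = 1 := by
    rw [← map_mul, ← map_one ψ₀]
    congr 1
    exact Subtype.ext (inv_mul_cancel₀ hz0)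
  rw [h3] at e1
  exact mul_right_cancel₀ h4 (e1.trans e0.symm)

variable {F : Type*} [Field F] [Algebra F M]

theorem Ag.aeval (hF : ∀ c : F, Ag ψ₀ ψ₁ (algebraMap F M c)) {x : M} (hx : Ag ψ₀ ψ₁ x) (p : F[X]) :
    Ag ψ₀ ψ₁ (Polynomial.aeval x p) := by
  induction p using Polynomial.induction_on with
  | C a => rw [aeval_C]; exact hF a
  | add p q hp hq => rw [map_add]; exact hp.add hq
  | monomial n a h =>
    rw [pow_succ, ← mul_assoc, map_mul, aeval_X]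
    exact h.mul hx

/-- the places of `F(x)` with the same value of `x` -/
theorem ag_simple (hk₀ : ∀ z : A₀, ψ₀ z ≠ 0 → (z : M)⁻¹ ∈ A₀)
    (hk₁ : ∀ z : A₁, ψ₁ z ≠ 0 → (z : M)⁻¹ ∈ A₁)
    (hF : ∀ c : F, Ag ψ₀ ψ₁ (algebraMap F M c)) {x : M} (hx : Ag ψ₀ ψ₁ x) {p : M} (hp : p ∈ F⟮x⟯)
    (hpA : p ∈ A₀) : Ag ψ₀ ψ₁ p := by
  classical
  obtain ⟨r, s, rfl⟩ := (mem_adjoin_simple_iff F p).1 hp
  by_cases hs : Polynomial.aeval x s = 0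
  · rw [hs, div_zero]
    exact Ag.zero
  have hs0 : s ≠ 0 := by
    rintro rfl
    exact hs (map_zero _)
  -- a coprime representation
  have hd0 : gcd r s ≠ 0 := fun h => hs0 (zero_dvd_iff.1 (h ▸ gcd_dvd_right r s))
  obtain ⟨r₁, hr₁⟩ := gcd_dvd_left r s
  obtain ⟨s₁, hs₁⟩ := gcd_dvd_right r s
  have hcop : IsCoprime r₁ s₁ := by
    rw [← gcd_isUnit_iff]
    have h1 : gcd r s * gcd r₁ s₁ ∣ gcd r s := by
      refine dvd_gcd ?_ ?_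
      · rw [hr₁]
        conv_lhs => rw [← hr₁]
        exact mul_dvd_mul_left _ (gcd_dvd_left _ _)
      · rw [hs₁]
        conv_lhs => rw [← hs₁]
        exact mul_dvd_mul_left _ (gcd_dvd_right _ _)
    obtain ⟨c, hc⟩ := h1
    have h2 : gcd r₁ s₁ * c = 1 := by
      apply mul_left_cancel₀ hd0
      rw [← mul_assoc, ← hc, mul_one]
    exact IsUnit.of_mul_eq_one _ h2
  have hxd : Polynomial.aeval x (gcd r s) ≠ 0 := by
    intro h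
    apply hs
    rw [hs₁, map_mul, h, zero_mul]
  have hxs : Polynomial.aeval x s₁ ≠ 0 := by
    intro h
    apply hs
    rw [hs₁, map_mul, h, mul_zero]
  have heq : Polynomial.aeval x r / Polynomial.aeval x s =
      Polynomial.aeval x r₁ * (Polynomial.aeval x s₁)⁻¹ := by
    have e1 : Polynomial.aeval x r = Polynomial.aeval x (gcd r s) * Polynomial.aeval x r₁ := by
      rw [← map_mul, ← hr₁]
    have e2 : Polynomial.aeval x s = Polynomial.aeval x (gcd r s) * Polynomial.aeval x s₁ := by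
      rw [← map_mul, ← hs₁]
    rw [e1, e2, mul_div_mul_left _ _ hxd, div_eq_mul_inv]
  rw [heq] at hpA ⊢
  have hP := Ag.aeval hF hx r₁
  have hQ := Ag.aeval hF hx s₁
  refine hP.mul (hQ.inv hk₀ hk₁ fun h₀ h => ?_)
  obtain ⟨u, v, huv⟩ := hcop
  obtain ⟨hP₀, -, -⟩ := hP
  have hu₀ : Polynomial.aeval x u ∈ A₀ := (Ag.aeval hF hx u).1
  have hv₀ : Polynomial.aeval x v ∈ A₀ := (Ag.aeval hF hx v).1
  have h1 : ψ₀ (⟨_, hu₀⟩ * ⟨_, hP₀⟩ + ⟨_, hv₀⟩ * ⟨_, h₀⟩) = 1 := by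
    rw [← map_one ψ₀]
    congr 1
    apply Subtype.ext
    change Polynomial.aeval x u * Polynomial.aeval x r₁ +
      Polynomial.aeval x v * Polynomial.aeval x s₁ = 1
    rw [← map_mul, ← map_mul, ← map_add, huv, map_one]
  rw [map_add, map_mul, map_mul, h, mul_zero, add_zero] at h1
  have h2 : ψ₀ ⟨_, hpA⟩ * ψ₀ ⟨_, h₀⟩ = ψ₀ ⟨_, hP₀⟩ := by
    rw [← map_mul]
    congr 1
    exact Subtype.ext (inv_mul_cancel_right₀ hxs _)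
  rw [h, mul_zero] at h2
  rw [← h2, mul_zero] at h1
  exact zero_ne_one h1

omit [Field Ω] in
/-- the functions on the curve -/
theorem exists_decomp {f : F[X]} {x y : M} (hxy : y ^ 2 = Polynomial.aeval x f) {h : M}
    (hh : h ∈ adjoin F {x, y}) : ∃ p ∈ F⟮x⟯, ∃ q ∈ F⟮x⟯, h = p + q * y := by
  classical
  rw [← adjoin_simple_adjoin_simple] at hh
  replace hh : h ∈ F⟮x⟯⟮y⟯ := hh
  let fx : F⟮x⟯ := Polynomial.aeval (AdjoinSimple.gen F x) f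
  have hfx : (fx : M) = Polynomial.aeval x f := by
    change algebraMap F⟮x⟯ M (Polynomial.aeval (AdjoinSimple.gen F x) f) = _
    rw [← aeval_algebraMap_apply, AdjoinSimple.algebraMap_gen]
  let m : F⟮x⟯[X] := X ^ 2 - C fx
  have hm : m.Monic := monic_X_pow_sub_C _ two_ne_zero
  have hmd : m.natDegree = 2 := natDegree_X_pow_sub_C
  have hm0 : Polynomial.aeval y m = 0 := by
    change Polynomial.aeval y (X ^ 2 - C fx) = 0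
    rw [map_sub, map_pow, aeval_X, aeval_C, hxy, ← hfx]
    exact sub_self _
  have hint : IsIntegral F⟮x⟯ y := ⟨m, hm, hm0⟩
  have h1 : h ∈ Algebra.adjoin F⟮x⟯ {y} := by
    rw [← adjoin_simple_toSubalgebra_of_isAlgebraic hint.isAlgebraic]
    exact hh
  rw [Algebra.adjoin_singleton_eq_range_aeval] at h1
  obtain ⟨r, hr⟩ := h1
  replace hr : Polynomial.aeval y r = h := hr
  have h2 : Polynomial.aeval y (r %ₘ m) = h := by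
    rw [← hr]
    conv_rhs => rw [← modByMonic_add_div r m]
    rw [map_add, map_mul, hm0, zero_mul, add_zero]
  have h3 : (r %ₘ m).natDegree < 2 := by
    have h4 := natDegree_modByMonic_lt r hm (fun h => by rw [h, natDegree_one] at hmd; omega)
    rwa [hmd] at h4
  refine ⟨(r %ₘ m).coeff 0, Subtype.mem _, (r %ₘ m).coeff 1, Subtype.mem _, ?_⟩
  rw [← h2, aeval_eq_sum_range' h3, Finset.sum_range_succ, Finset.sum_range_one, pow_zero, pow_one,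
    Algebra.smul_def, Algebra.smul_def, mul_one]
  rfl

/-- **Two places at which `x` and `y` have the same values, `y` a value different from `0`, are the
same on `F(x, y)`.** -/
theorem val_agree (h2 : (2 : Ω) ≠ 0) {f : F[X]} {x y : M} (hxy : y ^ 2 = Polynomial.aeval x f)
    (hk₀ : ∀ z : A₀, ψ₀ z ≠ 0 → (z : M)⁻¹ ∈ A₀)
    (hk₁ : ∀ z : A₁, ψ₁ z ≠ 0 → (z : M)⁻¹ ∈ A₁)
    (hF : ∀ c : F, Ag ψ₀ ψ₁ (algebraMap F M c)) (hx : Ag ψ₀ ψ₁ x) (hy : Ag ψ₀ ψ₁ y)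
    (hy0 : ∀ h₀ : y ∈ A₀, ψ₀ ⟨y, h₀⟩ ≠ 0) {h : M} (hh : h ∈ adjoin F {x, y}) (hA : h ∈ A₀) :
    Ag ψ₀ ψ₁ h := by
  classical
  obtain ⟨p, hp, q, hq, rfl⟩ := exists_decomp hxy hh
  have hs : ∀ {z : M}, z ∈ F⟮x⟯ → z ∈ A₀ → Ag ψ₀ ψ₁ z := fun hz hzA =>
    ag_simple hk₀ hk₁ hF hx hz hzA
  by_cases hpq : p ∈ A₀ ∧ q ∈ A₀
  · exact (hs hp hpq.1).add ((hs hq hpq.2).mul hy)
  -- a multiplier
  obtain ⟨D, hD, hD0, hDA, hDp, hDq, hDv, hDpq⟩ : ∃ D ∈ F⟮x⟯, D ≠ 0 ∧ ∃ hDA : D ∈ A₀, ∃ hDp : D * p ∈ A₀,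
      ∃ hDq : D * q ∈ A₀, ψ₀ ⟨D, hDA⟩ = 0 ∧ (D * p = 1 ∨ D * q = 1) := by
    have hv : ∀ z : M, z ≠ 0 → z ∉ A₀ → ∃ hz : z⁻¹ ∈ A₀, ψ₀ ⟨z⁻¹, hz⟩ = 0 := by
      intro z hz hzA
      have h1 : z⁻¹ ∈ A₀ := (A₀.mem_or_inv_mem z).resolve_left hzA
      refine ⟨h1, ?_⟩
      by_contra h3
      have h4 := hk₀ _ h3
      rw [inv_inv] at h4
      exact hzA h4
    have main : ∀ a b : M, a ∈ F⟮x⟯ → b ∈ F⟮x⟯ → (a ∉ A₀ ∨ b ∉ A₀) → a ≠ 0 → b / a ∈ A₀ →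
        ∃ D ∈ F⟮x⟯, D ≠ 0 ∧ ∃ hDA : D ∈ A₀, D * a = 1 ∧ D * b ∈ A₀ ∧ ψ₀ ⟨D, hDA⟩ = 0 := by
      intro a b ha hb hab ha0 hba
      have haA : a ∉ A₀ := by
        intro h
        rcases hab with h1 | h1
        · exact h1 h
        · apply h1
          rw [← div_mul_cancel₀ b ha0]
          exact mul_mem hba h
      obtain ⟨h3, h4⟩ := hv a ha0 haA
      refine ⟨a⁻¹, inv_mem ha, inv_ne_zero ha0, h3, inv_mul_cancel₀ ha0, ?_, h4⟩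
      rw [mul_comm, ← div_eq_mul_inv]
      exact hba
    rw [not_and_or] at hpq
    by_cases hp0 : p = 0
    · have hq0 : q ≠ 0 := by
        rintro rfl
        rcases hpq with h1 | h1
        · rw [hp0] at h1
          exact h1 (zero_mem _)
        · exact h1 (zero_mem _)
      obtain ⟨D, h3, h4, h5, h6, h7, h8⟩ := main q p hq hp hpq.symm hq0
        (by rw [hp0, zero_div]; exact zero_mem _)
      exact ⟨D, h3, h4, h5, h7, by rw [h6]; exact one_mem _, h8, Or.inr h6⟩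
    · rcases A₀.mem_or_inv_mem (q / p) with h1 | h1
      · obtain ⟨D, h3, h4, h5, h6, h7, h8⟩ := main p q hp hq hpq hp0 h1
        exact ⟨D, h3, h4, h5, by rw [h6]; exact one_mem _, h7, h8, Or.inl h6⟩
      · by_cases hq0 : q = 0
        · obtain ⟨D, h3, h4, h5, h6, h7, h8⟩ := main p q hp hq hpq hp0
            (by rw [hq0, zero_div]; exact zero_mem _)
          exact ⟨D, h3, h4, h5, by rw [h6]; exact one_mem _, h7, h8, Or.inl h6⟩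
        · rw [inv_div] at h1
          obtain ⟨D, h3, h4, h5, h6, h7, h8⟩ := main q p hq hp hpq.symm hq0 h1
          exact ⟨D, h3, h4, h5, h7, by rw [h6]; exact one_mem _, h8, Or.inr h6⟩
  have hDp' := hs (mul_mem hD hp) hDp
  have hDq' := hs (mul_mem hD hq) hDq
  -- the conjugate
  have hw : Ag ψ₀ ψ₁ (D * p + -(D * q * y)) := hDp'.add (hDq'.mul hy).neg
  obtain ⟨hy₀, hy₁, hyv⟩ := hy
  have hw' : D * p + D * q * y ∈ A₀ := add_mem hDp (mul_mem hDq hy₀)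
  have hw'0 : ψ₀ ⟨_, hw'⟩ = 0 := by
    have e1 : (⟨_, hw'⟩ : A₀) = ⟨D, hDA⟩ * ⟨_, hA⟩ := by
      apply Subtype.ext
      change D * p + D * q * y = D * (p + q * y)
      ring
    rw [e1, map_mul, hDv, zero_mul]
  have e2 : ψ₀ ⟨_, hw'⟩ = ψ₀ ⟨_, hDp⟩ + ψ₀ ⟨_, hDq⟩ * ψ₀ ⟨y, hy₀⟩ := by
    rw [← map_mul, ← map_add]
    rfl
  have hwne : ∀ h₀ : D * p + -(D * q * y) ∈ A₀, ψ₀ ⟨_, h₀⟩ ≠ 0 := by
    intro h₀ h3
    have e3 : ψ₀ ⟨_, h₀⟩ = ψ₀ ⟨_, hDp⟩ - ψ₀ ⟨_, hDq⟩ * ψ₀ ⟨y, hy₀⟩ := by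
      rw [← map_mul, ← map_sub]
      congr 1
      apply Subtype.ext
      exact (sub_eq_add_neg _ _).symm
    rw [hw'0] at e2
    rw [h3] at e3
    have e4 : 2 * ψ₀ ⟨_, hDp⟩ = 0 := by linear_combination -e2 - e3
    have e5 : 2 * (ψ₀ ⟨_, hDq⟩ * ψ₀ ⟨y, hy₀⟩) = 0 := by linear_combination -e2 + e3
    rcases hDpq with h4 | h4
    · have e6 : ψ₀ ⟨_, hDp⟩ = 1 := by
        rw [← map_one ψ₀]
        congr 1
        exact Subtype.ext h4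
      rw [e6, mul_one] at e4
      exact h2 e4
    · have e6 : ψ₀ ⟨_, hDq⟩ = 1 := by
        rw [← map_one ψ₀]
        congr 1
        exact Subtype.ext h4
      rw [e6, one_mul] at e5
      exact mul_ne_zero h2 (hy0 hy₀) e5
  have hwi := hw.inv hk₀ hk₁ hwne
  have hr : (p + q * y) * (D * p + -(D * q * y)) ∈ F⟮x⟯ := by
    have e3 : (p + q * y) * (D * p + -(D * q * y)) = D * (p ^ 2 - q ^ 2 * Polynomial.aeval x f) := by
      rw [← hxy]; ring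
    rw [e3]
    refine mul_mem hD (sub_mem (pow_mem hp 2) (mul_mem (pow_mem hq 2) ?_))
    rw [← AdjoinSimple.algebraMap_gen F x, aeval_algebraMap_apply]
    exact Subtype.mem _
  have hrA := hs hr (mul_mem hA hw.1)
  have hwn0 : D * p + -(D * q * y) ≠ 0 := by
    intro h3
    apply hwne hw.1
    rw [← map_zero ψ₀]
    congr 1
    exact Subtype.ext h3
  have h3 := hrA.mul hwi
  rwa [mul_inv_cancel_right₀ hwn0] at h3

end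

end Pool.Agent.Lib.MP_2f3286_ag.HYP
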