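import Pool.Agent.Lib.MP_2f3286_ag.HYP.CuOn

/-!
# The local points are all on the curve, or all above the same point where `y` is `0` or infinite
-/

open Polynomial IsDedekindDomain NumberField
open scoped WithZero

noncomputable section

namespace Pool.Agent.Lib.MP_2f3286_ag.HYP

/-- `(x₂, y₂)` are coordinates of another model of the curve `y ^ 2 = f(x)` with a pole of `y₂` only at one of
the points where `y` is `0` or infinite. -/
def IsModel {k K : Type*} [Field k] [Field K] [Algebra k K] (R : Subalgebra k K) (g : ℕ)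
    (x y : K) (f₂ : k[X]) (x₂ y₂ : K) : Prop :=
  f₂.Monic ∧ f₂.Separable ∧ f₂.natDegree = 2 * g + 1 ∧ y₂ ^ 2 = aeval x₂ f₂ ∧
    Transcendental k x₂ ∧ IsIntegral R x₂ ∧ IsIntegral R y₂ ∧ IsIntegral R y₂⁻¹ ∧
    x ∈ IntermediateField.adjoin k {x₂, y₂} ∧ y ∈ IntermediateField.adjoin k {x₂, y₂} ∧
    ∀ A : ValuationSubring K, (∀ c : k, algebraMap k K c ∈ A) → x ∈ A → y⁻¹ ∈ A → y₂ ∈ A

section

variable {k : Type*} [Field k] [CharZero k] {K : Type*} [Field K] [Algebra k K]

omit [CharZero k] in
theorem isModel_self (R : Subalgebra k K) {g : ℕ} {f : k[X]} (hf : f.Monic) (hfs : f.Separable)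
    (hfd : f.natDegree = 2 * g + 1) {x y : K} (hx : Transcendental k x) (hxy : y ^ 2 = aeval x f)
    (hxR : IsIntegral R x) (hyR : IsIntegral R y) (hyR' : IsIntegral R y⁻¹) :
    IsModel R g x y f x y := by
  refine ⟨hf, hfs, hfd, hxy, hx, hxR, hyR, hyR', IntermediateField.subset_adjoin _ _ (by simp),
    IntermediateField.subset_adjoin _ _ (by simp), fun A hA hxA _ => ?_⟩
  have h1 : y ^ 2 ∈ A := by
    rw [hxy]
    exact aeval_mem_val hA hxA f
  rcases A.mem_or_inv_mem y with h | h
  · exact h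
  by_cases hy0 : y = 0
  · rw [hy0]; exact zero_mem _
  have h2 : y = y ^ 2 * y⁻¹ := by
    rw [pow_two, mul_inv_cancel_right₀ hy0]
  rw [h2]
  exact mul_mem h1 h

theorem second_model (R : Subalgebra k K) {g : ℕ} {f : k[X]} (hf : f.Monic)
    (hfs : f.Separable) (hfd : f.natDegree = 2 * g + 1) {x y : K} (hx : Transcendental k x)
    (hxy : y ^ 2 = aeval x f) (hxR : IsIntegral R x) (hyR : IsIntegral R y)
    (hyR' : IsIntegral R y⁻¹) {a₀ : k} (h0 : f.eval a₀ = 0) :
    f.derivative.eval a₀ ≠ 0 ∧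
    IsModel R g x y (mod2 g a₀ f)
      (algebraMap k K (f.derivative.eval a₀) / (x - algebraMap k K a₀))
      (algebraMap k K (f.derivative.eval a₀) ^ g * y / (x - algebraMap k K a₀) ^ (g + 1)) := by
  have hgk : Good g f := ⟨two_ne_zero, hfs, hfd⟩
  have hb : f.derivative.eval a₀ ≠ 0 := deriv_ne_zero hgk h0
  refine ⟨hb, ?_⟩
  obtain ⟨hm2, hd2⟩ := mod2_monic hgk h0
  have hgK : Good g (f.map (algebraMap k K)) := good_of hfs hfd _
  have hgk' : Good g (f.map (algebraMap k (AlgebraicClosure k))) := good_of hfs hfd _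
  have hak : (f.map (algebraMap k (AlgebraicClosure k))).eval
      (algebraMap k (AlgebraicClosure k) a₀) = 0 := by
    rw [eval_map, eval₂_at_apply, h0, map_zero]
  have hs2 : (mod2 g a₀ f).Separable := by
    have h2 := (mod2_good hgk' hak).sep
    rw [← mod2_map] at h2
    exact (separable_map _).mp h2
  have ha : (f.map (algebraMap k K)).eval (algebraMap k K a₀) = 0 := by
    rw [eval_map, eval₂_at_apply, h0, map_zero]
  let P : Pt (f.map (algebraMap k K)) := ⟨x, y, by rw [hxy, eval_map, aeval_def]⟩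
  have hPa : P.x ≠ algebraMap k K a₀ := by
    intro h
    apply hx
    change x = _ at h
    rw [h]
    exact isAlgebraic_algebraMap a₀
  have hPa' : x - algebraMap k K a₀ ≠ 0 := sub_ne_zero.mpr hPa
  have hB : (f.map (algebraMap k K)).derivative.eval (algebraMap k K a₀) =
      algebraMap k K (f.derivative.eval a₀) := by
    rw [derivative_map, eval_map, eval₂_at_apply]
  have hb' : algebraMap k K (f.derivative.eval a₀) ≠ 0 := by
    rw [_root_.map_ne_zero]; exact hb
  have heq : (algebraMap k K (f.derivative.eval a₀) ^ g * y / (x - algebraMap k K a₀) ^ (g + 1)) ^ 2 =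
      aeval (algebraMap k K (f.derivative.eval a₀) / (x - algebraMap k K a₀)) (mod2 g a₀ f) := by
    have h1 : ((f.map (algebraMap k K)).derivative.eval (algebraMap k K a₀) ^ g * y /
      (x - algebraMap k K a₀) ^ (g + 1)) ^ 2 = (mod2 g (algebraMap k K a₀)
        (f.map (algebraMap k K))).eval ((f.map (algebraMap k K)).derivative.eval
        (algebraMap k K a₀) / (x - algebraMap k K a₀)) := (P.two hgK ha hPa).eqn
    rw [← mod2_map, eval_map, ← aeval_def, hB] at h1
    exact h1
  have hkR : ∀ c : k, IsIntegral R (algebraMap k K c) := fun c =>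
    isIntegral_algebraMap (R := R) (A := K) (x := algebraMap k R c)
  obtain ⟨q, hq⟩ := dvd_iff_isRoot.mpr (show f.IsRoot a₀ from h0)
  have hfq : y ^ 2 = (x - algebraMap k K a₀) * aeval x q := by
    rw [hxy]
    conv_lhs => rw [hq]
    rw [map_mul, map_sub, aeval_X, aeval_C]
  have hy0 : y ≠ 0 := by
    intro h
    rw [h, zero_pow two_ne_zero] at hxy
    exact hx ⟨f, hf.ne_zero, hxy.symm⟩
  have hinv : (x - algebraMap k K a₀)⁻¹ = aeval x q * y⁻¹ ^ 2 := by
    apply inv_eq_of_mul_eq_one_right
    rw [← mul_assoc, ← hfq, ← mul_pow, mul_inv_cancel₀ hy0, one_pow]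
  have hqR : IsIntegral R (aeval x q) := by
    rw [aeval_eq_sum_range]
    refine IsIntegral.sum _ fun i _ => ?_
    rw [Algebra.smul_def]
    exact (hkR _).mul (hxR.pow i)
  have hinvR : IsIntegral R (x - algebraMap k K a₀)⁻¹ := by
    rw [hinv]
    exact hqR.mul (hyR'.pow 2)
  set b := algebraMap k K (f.derivative.eval a₀) with hbdef
  set x₂ := b / (x - algebraMap k K a₀) with hx₂
  have hx₂0 : x₂ ≠ 0 := div_ne_zero hb' hPa'
  have hxe : x = algebraMap k K a₀ + b / x₂ := by
    rw [hx₂, div_div_cancel₀ hb']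
    ring
  have hye : y = (b ^ g * y / (x - algebraMap k K a₀) ^ (g + 1)) *
      (x - algebraMap k K a₀) ^ (g + 1) / b ^ g := by
    field_simp
  have hxm : x ∈ IntermediateField.adjoin k {x₂, b ^ g * y / (x - algebraMap k K a₀) ^ (g + 1)} := by
    have h3 := add_mem (IntermediateField.algebraMap_mem (IntermediateField.adjoin k
      {x₂, b ^ g * y / (x - algebraMap k K a₀) ^ (g + 1)}) a₀)
      (div_mem (IntermediateField.algebraMap_mem (IntermediateField.adjoin k
      {x₂, b ^ g * y / (x - algebraMap k K a₀) ^ (g + 1)}) (f.derivative.eval a₀))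
      (IntermediateField.subset_adjoin k
        {x₂, b ^ g * y / (x - algebraMap k K a₀) ^ (g + 1)} (Set.mem_insert _ _)))
    rw [← hbdef, ← hxe] at h3
    exact h3
  refine ⟨hm2, hs2, hd2, heq, ?_, ?_, ?_, ?_, hxm, ?_, ?_⟩
  · intro h
    apply hx
    rw [hxe]
    exact (isAlgebraic_algebraMap a₀).add ((isAlgebraic_algebraMap _).mul h.inv |> fun h => by
      rw [div_eq_mul_inv]; exact h)
  · rw [hx₂, div_eq_mul_inv]
    exact (hkR _).mul hinvR
  · rw [div_eq_mul_inv, ← inv_pow]
    exact (((hkR _).pow g).mul hyR).mul (hinvR.pow _)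
  · rw [inv_div, div_eq_mul_inv, mul_inv, hbdef, ← map_pow, ← map_inv₀]
    exact ((hxR.sub (hkR _)).pow _).mul ((hkR _).mul hyR')
  · have h3 : (b ^ g * y / (x - algebraMap k K a₀) ^ (g + 1)) *
        (x - algebraMap k K a₀) ^ (g + 1) / b ^ g ∈ IntermediateField.adjoin k
          {x₂, b ^ g * y / (x - algebraMap k K a₀) ^ (g + 1)} := by
      refine div_mem (mul_mem (IntermediateField.subset_adjoin _ _ (by simp)) (pow_mem (sub_mem hxm
        (IntermediateField.algebraMap_mem _ a₀)) _)) (pow_mem (IntermediateField.algebraMap_mem _ _) _)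
    rw [← hye] at h3
    exact h3
  · intro A hA hxA hyA
    have h1 : y ^ 2 ∈ A := by
      rw [hxy]
      exact aeval_mem_val hA hxA f
    have hyA' : y ∈ A := by
      have h2 : y = y ^ 2 * y⁻¹ := by
        rw [pow_two, mul_inv_cancel_right₀ hy0]
      rw [h2]
      exact mul_mem h1 hyA
    have h3 : (x - algebraMap k K a₀)⁻¹ ∈ A := by
      rw [hinv]
      exact mul_mem (aeval_mem_val hA hxA q) (pow_mem hyA 2)
    rw [div_eq_mul_inv, ← inv_pow]
    exact mul_mem (mul_mem (pow_mem (hA _) _) hyA') (pow_mem h3 _)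

end

universe u

variable {k : Type u} [Field k] [NumberField k] {K : Type*} [Field K] [Algebra k K]
  {Ω : Type*} [Field Ω] [Algebra K Ω] [IsAlgClosed Ω] [IsGalois K Ω]
  [Algebra (AlgebraicClosure k) Ω] [Algebra k Ω]
  [IsScalarTower k K Ω] [IsScalarTower k (AlgebraicClosure k) Ω]
  {M : Type*} [Field M] [Algebra K M] [Normal K M] [Algebra M Ω] [IsGalois M Ω]
  [Algebra (AlgebraicClosure k) M] [Algebra k M]
  [IsScalarTower k K M] [IsScalarTower k (AlgebraicClosure k) M]
  [IsScalarTower K M Ω] [IsScalarTower (AlgebraicClosure k) M Ω]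

/-- **All local points are on the curve, or above the same point where `y` is `0` or infinite.** -/
theorem cusp_alt (hinf : Fintype.card (InfinitePlace k) = 1)
    (R : Subalgebra k K) (htr : Algebra.trdeg k K = 1)
    (hmax : Pt.IsRadClosed R M (AlgebraicClosure k))
    (hM : ∀ x : Ω, (∃ m : M, algebraMap M Ω m = x) ↔
      ∀ g ∈ Pt.inertia R K Ω (AlgebraicClosure k), g x = x)
    (s : Gal(AlgebraicClosure k/k) →* Gal(M/K)) (hs : Continuous s)
    (hsec : ∀ σ a, s σ (algebraMap (AlgebraicClosure k) M a) =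
      algebraMap (AlgebraicClosure k) M (σ a))
    (hfin : ∀ (v : HeightOneSpectrum (𝓞 k))
      (ι : AlgebraicClosure k →ₐ[k] AlgebraicClosure (v.adicCompletion k)),
      ∃ (A : ValuationSubring Ω) (π : A →+* AlgebraicClosure (v.adicCompletion k)),
        PlaceOver s (v.adicCompletion k)
          (ι : AlgebraicClosure k →+* AlgebraicClosure (v.adicCompletion k)) A π)
    {Q : Prop} (hreal : Q → ∀ ι : AlgebraicClosure k →+* ℂ,
      (∃ σ₀ : Gal(AlgebraicClosure k/k), ∀ a, ι (σ₀ a) = starRingEnd ℂ (ι a)) →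
      ∃ (A : ValuationSubring Ω) (π : A →+* ℂ), PlaceOver s ℝ ι A π)
    {f : k[X]} (hf : f.Monic) (hfs : f.Separable) {g : ℕ} (hg : 1 ≤ g)
    (hfd : f.natDegree = 2 * g + 1) (hS : SelTorR k f Q)
    {x y : R} (hx : Transcendental k (x : K)) (hxy : (y : K) ^ 2 = aeval (x : K) f)
    (hy : IsIntegral R ((y : K)⁻¹)) :
    (∀ (v : HeightOneSpectrum (𝓞 k))
      (ι : AlgebraicClosure k →ₐ[k] AlgebraicClosure (v.adicCompletion k))
      (A : ValuationSubring Ω) (π : A →+* AlgebraicClosure (v.adicCompletion k)),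
      PlaceOver s (v.adicCompletion k)
        (ι : AlgebraicClosure k →+* AlgebraicClosure (v.adicCompletion k)) A π →
      algebraMap K Ω x ∈ A ∧ algebraMap K Ω (y : K)⁻¹ ∈ A) ∨
    ∃ (f₂ : k[X]) (x₂ y₂ : K), IsModel R g (x : K) (y : K) f₂ x₂ y₂ ∧
      ∀ (v : HeightOneSpectrum (𝓞 k))
        (ι : AlgebraicClosure k →ₐ[k] AlgebraicClosure (v.adicCompletion k))
        (A : ValuationSubring Ω) (π : A →+* AlgebraicClosure (v.adicCompletion k)),
        PlaceOver s (v.adicCompletion k)
          (ι : AlgebraicClosure k →+* AlgebraicClosure (v.adicCompletion k)) A π →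
        algebraMap K Ω y₂ ∉ A := by
  classical
  have htrΩ : Algebra.trdeg k Ω = 1 := trdeg_top (K := K) htr
  have hk : ∀ {v : HeightOneSpectrum (𝓞 k)}
      {ι : AlgebraicClosure k →ₐ[k] AlgebraicClosure (v.adicCompletion k)}
      {A : ValuationSubring Ω} {π : A →+* AlgebraicClosure (v.adicCompletion k)},
      PlaceOver s (v.adicCompletion k)
        (ι : AlgebraicClosure k →+* AlgebraicClosure (v.adicCompletion k)) A π →
      ∀ c : k, algebraMap k Ω c ∈ A := by
    intro v ι A π h c
    rw [IsScalarTower.algebraMap_apply k (AlgebraicClosure k) Ω]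
    exact (h.const _).1
  have hBk : ∀ a : AlgebraicClosure k, IsIntegral R (algebraMap (AlgebraicClosure k) Ω a) := by
    intro a
    rw [IsScalarTower.algebraMap_apply (AlgebraicClosure k) M Ω]
    have htM : IsScalarTower R M Ω := IsScalarTower.of_algebraMap_eq fun x => by
      change algebraMap K Ω x = algebraMap M Ω (algebraMap K M x)
      rw [← IsScalarTower.algebraMap_apply]
    exact (Pt.integral_const R a).algebraMap
  let P : Pt (f.map (algebraMap k Ω)) := ⟨algebraMap K Ω x, algebraMap K Ω y, by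
    rw [← map_pow, hxy, eval_map, IsScalarTower.algebraMap_eq k K Ω, ← hom_eval₂]
    rfl⟩
  have hPe : P.y ^ 2 = aeval P.x f := by
    rw [P.eqn, eval_map, ← aeval_def]
  have hPx : ∀ (σ : Gal(AlgebraicClosure k/k)) (γ : Gal(Ω/K)), Lft s σ γ → γ P.x = P.x :=
    fun σ γ _ => γ.commutes (x : K)
  have hPy : ∀ (σ : Gal(AlgebraicClosure k/k)) (γ : Gal(Ω/K)), Lft s σ γ → γ P.y = P.y :=
    fun σ γ _ => γ.commutes (y : K)
  have hxΩ : Transcendental k P.x := (transcendental_algebraMap_iff (algebraMap K Ω).injective).2 hx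
  have hxc : ∀ c : AlgebraicClosure k, P.x ≠ algebraMap _ Ω c := by
    intro c hc
    apply hxΩ
    rw [hc]
    exact (Algebra.IsAlgebraic.isAlgebraic (R := k) c).algebraMap
  have hy0 : P.y ≠ 0 := by
    intro h0
    have h := P.eqn
    rw [h0, zero_pow two_ne_zero] at h
    obtain ⟨c, hc⟩ := root_const hf.ne_zero h.symm
    exact hxc c hc.symm
  have hxi : IsIntegral R P.x := by
    change IsIntegral R (algebraMap R Ω x)
    exact isIntegral_algebraMap
  have hyi' : IsIntegral R (P.y)⁻¹ := by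
    have htK : IsScalarTower R K Ω := IsScalarTower.of_algebraMap_eq fun x => rfl
    change IsIntegral R (algebraMap K Ω y)⁻¹
    rw [← map_inv₀]
    exact hy.algebraMap
  have hunr : ∀ (n : ℕ) (E' : J (f.map (algebraMap k Ω))), 2 ^ n • E' ∈ lfix f s →
      ∀ δ : Gal(Ω/K), (∀ m : M, δ (algebraMap M Ω m) = algebraMap M Ω m) →
        sact f δ E' = E' := by
    intro n E' hE' δ hδ
    refine fixed_of_inertia (kb := AlgebraicClosure k) (R := R) (good_of hfs hfd _)
      (fun z hz => (hM z).2 hz) (fun g hg => ?_) δ hδ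
    refine inertia_half R htrΩ x hx hBk hf hfs hfd hg (n := n) ?_
    exact hE' 1 g (lft_one fun m => (hM _).1 ⟨m, rfl⟩ g hg)
  by_cases hall : ∀ (v : HeightOneSpectrum (𝓞 k))
      (ι : AlgebraicClosure k →ₐ[k] AlgebraicClosure (v.adicCompletion k))
      (A : ValuationSubring Ω) (π : A →+* AlgebraicClosure (v.adicCompletion k)),
      PlaceOver s (v.adicCompletion k)
        (ι : AlgebraicClosure k →+* AlgebraicClosure (v.adicCompletion k)) A π →
      algebraMap K Ω x ∈ A ∧ algebraMap K Ω (y : K)⁻¹ ∈ A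
  · exact Or.inl hall
  right
  obtain ⟨v₁, ι₁, A₁, π₁, h₁, hbad⟩ : ∃ (v : HeightOneSpectrum (𝓞 k))
      (ι : AlgebraicClosure k →ₐ[k] AlgebraicClosure (v.adicCompletion k))
      (A : ValuationSubring Ω) (π : A →+* AlgebraicClosure (v.adicCompletion k)),
      PlaceOver s (v.adicCompletion k)
        (ι : AlgebraicClosure k →+* AlgebraicClosure (v.adicCompletion k)) A π ∧
      ¬ (algebraMap K Ω x ∈ A ∧ algebraMap K Ω (y : K)⁻¹ ∈ A) := by
    by_contra hcon
    apply hall
    intro v ι A π h
    by_contra h'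
    exact hcon ⟨v, ι, A, π, h, h'⟩
  have hbad' : ¬ ∃ hyA : P.y ∈ A₁, P.x ∈ A₁ ∧ π₁ ⟨P.y, hyA⟩ ≠ 0 := by
    rintro ⟨a1, a2, a3⟩
    refine hbad ⟨a2, ?_⟩
    rw [map_inv₀]
    exact h₁.loc ⟨P.y, a1⟩ a3
  clear hall hbad
  obtain ⟨t, ht, ⟨m, htm⟩, z, z0, zs, z2⟩ :=
    exists_chain_lft s hs hsec hfin hreal hunr hf hfs hfd hS hPx hPy
  have hinj := jconst_injective (Ω := Ω) f (good_of hfs hfd (algebraMap k (AlgebraicClosure k)))
  have hfin' : ∀ v : HeightOneSpectrum (𝓞 k),
      ∃ (ι : AlgebraicClosure k →ₐ[k] AlgebraicClosure (v.adicCompletion k))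
        (A : ValuationSubring Ω) (π : A →+* AlgebraicClosure (v.adicCompletion k)),
        PlaceOver s (v.adicCompletion k)
          (ι : AlgebraicClosure k →+* AlgebraicClosure (v.adicCompletion k)) A π := by
    intro v
    obtain ⟨A, π, h1⟩ := hfin v (IsAlgClosed.lift)
    exact ⟨_, A, π, h1⟩
  by_cases ht0 : t = 0
  · rw [ht0, map_zero, sub_zero] at z0
    refine ⟨f, x, y, isModel_self R hf hfs hfd hx hxy (isIntegral_algebraMap (x := x))
      (isIntegral_algebraMap (x := y)) hy, fun v ι A π h hyA => hbad' ?_⟩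
    have hxA : P.x ∈ A := x_mem_of_y_mem (hk h) hf (by omega) hyA hPe
    exact near_of_chain hinf htr R hmax hs hsec hfin' hf hfs hg hfd hPx hPy hxc hxi hyi' z0 zs z2
      h hxA h₁
  by_cases htW : ∃ W : Pt (f.map (algebraMap k (AlgebraicClosure k))), W.y = 0 ∧ t = cl W
  · obtain ⟨W, hW, rfl⟩ := htW
    have hΩ : Good g (f.map (algebraMap k Ω)) := good_of hfs hfd _
    -- the ramification point is rational
    obtain ⟨a₀, ha₀⟩ := mem_of_fixed (k := k) (a := W.x) fun σ => by
      have h2 := ht σ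
      rw [gact, J.map_cl] at h2
      exact congrArg Pt.x (cl_injective (good_of hfs hfd _) hg h2)
    have h0 : f.eval a₀ = 0 := by
      have h3 : (f.map (algebraMap k (AlgebraicClosure k))).eval W.x = 0 := by
        rw [← W.eqn, hW]; ring
      rw [← ha₀, eval_map, eval₂_at_apply] at h3
      exact (map_eq_zero _).mp h3
    rw [jconst, J.map_cl] at z0
    have hWx : (W.map (algebraMap (AlgebraicClosure k) Ω) (map_const f)).x = algebraMap k Ω a₀ := by
      change algebraMap (AlgebraicClosure k) Ω W.x = _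
      rw [← ha₀, ← IsScalarTower.algebraMap_apply]
    have ha : (f.map (algebraMap k Ω)).eval (algebraMap k Ω a₀) = 0 := by
      rw [eval_map, eval₂_at_apply, h0, map_zero]
    have hgk : Good g f := ⟨two_ne_zero, hfs, hfd⟩
    have hgk' : Good g (f.map (algebraMap k (AlgebraicClosure k))) := good_of hfs hfd _
    have hak : (f.map (algebraMap k (AlgebraicClosure k))).eval
        (algebraMap k (AlgebraicClosure k) a₀) = 0 := by
      rw [eval_map, eval₂_at_apply, h0, map_zero]
    -- the second model over `k`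
    obtain ⟨hm2, hd2⟩ := mod2_monic hgk h0
    have hs2 : (mod2 g a₀ f).Separable := by
      have h2 := (mod2_good hgk' hak).sep
      rw [← mod2_map] at h2
      exact (separable_map _).mp h2
    have he : (mod2 g (algebraMap k Ω a₀) (f.map (algebraMap k Ω))).map (RingHom.id Ω) =
        (mod2 g a₀ f).map (algebraMap k Ω) := by
      rw [Polynomial.map_id, mod2_map]
    have hPa : P.x ≠ algebraMap k Ω a₀ := by
      intro h
      exact hxc (algebraMap k _ a₀) (by rw [← IsScalarTower.algebraMap_apply]; exact h)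
    have hsk : ∀ (γ : Gal(Ω/K)) (b : k), γ (algebraMap k Ω b) = algebraMap k Ω b := by
      intro γ b
      rw [IsScalarTower.algebraMap_apply k K Ω, γ.commutes]
    have hB : (f.map (algebraMap k Ω)).derivative.eval (algebraMap k Ω a₀) =
        algebraMap k Ω (f.derivative.eval a₀) := by
      rw [derivative_map, eval_map, eval₂_at_apply]
    have hb := deriv_ne_zero hΩ ha
    have hb' : f.derivative.eval a₀ ≠ 0 := by
      intro h5
      rw [hB, h5, map_zero] at hb
      exact hb rfl
    have hkR : ∀ b : k, IsIntegral R (algebraMap k Ω b) := by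
      intro b
      rw [IsScalarTower.algebraMap_apply k (AlgebraicClosure k) Ω]
      exact hBk _
    have hinv : IsIntegral R (P.x - algebraMap k Ω a₀)⁻¹ := by
      refine inv_sub_integral (hf.map _) (IsAlgClosed.splits _) (fun a ha => ?_) hxi hyi' hy0 ha
      obtain ⟨c, rfl⟩ := root_const hf.ne_zero ha
      exact hBk c
    have hPa' : P.x - algebraMap k Ω a₀ ≠ 0 := sub_ne_zero.mpr hPa
    have hP2 : ((P.two hΩ ha hPa).map (RingHom.id Ω) he).y ^ 2 =
        aeval ((P.two hΩ ha hPa).map (RingHom.id Ω) he).x (mod2 g a₀ f) := by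
      rw [((P.two hΩ ha hPa).map (RingHom.id Ω) he).eqn, eval_map, ← aeval_def]
    have hxe : ((P.two hΩ ha hPa).map (RingHom.id Ω) he).x =
        algebraMap k Ω (f.derivative.eval a₀) / (P.x - algebraMap k Ω a₀) := by
      rw [← hB]; rfl
    have hye : ((P.two hΩ ha hPa).map (RingHom.id Ω) he).y =
        algebraMap k Ω (f.derivative.eval a₀) ^ g * P.y / (P.x - algebraMap k Ω a₀) ^ (g + 1) := by
      rw [← hB]; rfl
    refine ⟨mod2 g a₀ f, _, _, (second_model R hf hfs hfd hx hxy (isIntegral_algebraMap (x := x))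
      (isIntegral_algebraMap (x := y)) hy h0).2, fun v ι A π h hyA => hbad' ?_⟩
    have hyA' : ((P.two hΩ ha hPa).map (RingHom.id Ω) he).y ∈ A := by
      rw [map_div₀, map_mul, map_pow, map_pow, map_sub, ← IsScalarTower.algebraMap_apply,
        ← IsScalarTower.algebraMap_apply] at hyA
      rw [hye]
      exact hyA
    have hx2A : ((P.two hΩ ha hPa).map (RingHom.id Ω) he).x ∈ A :=
      x_mem_of_y_mem (hk h) hm2 (by omega) hyA' hP2
    obtain ⟨h1, h2, h3⟩ := near_of_chain hinf htr R hmax hs hsec hfin' hm2 hs2 hg hd2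
      (P := (P.two hΩ ha hPa).map (RingHom.id Ω) he)
      (z := fun n => J.map (RingHom.id Ω) he (rho hΩ ha (z n)))
      (by
        intro σ γ hγ
        change γ ((f.map (algebraMap k Ω)).derivative.eval (algebraMap k Ω a₀) /
          (P.x - algebraMap k Ω a₀)) = _
        rw [hB, map_div₀, map_sub, hsk, hsk, hPx σ γ hγ, ← hB]
        rfl)
      (by
        intro σ γ hγ
        change γ ((f.map (algebraMap k Ω)).derivative.eval (algebraMap k Ω a₀) ^ g * P.y /
          (P.x - algebraMap k Ω a₀) ^ (g + 1)) = _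
        rw [hB, map_div₀, map_mul, map_pow, map_pow, map_sub, hsk, hsk, hPx σ γ hγ, hPy σ γ hγ,
          ← hB]
        rfl)
      (by
        intro c hc
        have h2 : (f.map (algebraMap k Ω)).derivative.eval (algebraMap k Ω a₀) /
          (P.x - algebraMap k Ω a₀) = algebraMap (AlgebraicClosure k) Ω c := hc
        have hc0 : algebraMap (AlgebraicClosure k) Ω c ≠ 0 := by
          rw [← h2]
          exact div_ne_zero hb hPa'
        apply hxc (algebraMap k _ a₀ + algebraMap k _ (f.derivative.eval a₀) / c)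
        rw [map_add, map_div₀, ← IsScalarTower.algebraMap_apply, ← IsScalarTower.algebraMap_apply,
          ← hB, ← h2, div_div_cancel₀ hb]
        ring)
      (by
        change IsIntegral R ((f.map (algebraMap k Ω)).derivative.eval (algebraMap k Ω a₀) /
          (P.x - algebraMap k Ω a₀))
        rw [hB, div_eq_mul_inv]
        exact (hkR _).mul hinv)
      (by
        change IsIntegral R ((f.map (algebraMap k Ω)).derivative.eval (algebraMap k Ω a₀) ^ g *
          P.y / (P.x - algebraMap k Ω a₀) ^ (g + 1))⁻¹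
        rw [inv_div, div_eq_mul_inv, mul_inv, hB, ← map_pow, ← map_inv₀]
        exact ((hxi.sub (hkR _)).pow _).mul ((hkR _).mul hyi'))
      (by
        rw [z0, rho_sub hΩ ha hPa hWx, J.map_cl])
      (by
        intro n σ γ hγ
        have hj2 : (mod2 g (algebraMap k Ω a₀) (f.map (algebraMap k Ω))).map
            (γ : Ω →+* Ω) = mod2 g (algebraMap k Ω a₀) (f.map (algebraMap k Ω)) := by
          rw [mod2_map, map_fixΩ f γ]
          congr 1
          exact hsk γ a₀
        have h2 := rho_map hΩ ha hΩ ha (γ : Ω →+* Ω) (map_fixΩ f γ) (hsk γ a₀) hj2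
          (z n)
        have h3 : J.map (γ : Ω →+* Ω) (map_fixΩ f γ) (z n) = z n := zs n σ γ hγ
        rw [h3] at h2
        conv_rhs => rw [h2]
        rw [sact]
        have hc1 : (mod2 g (algebraMap k Ω a₀) (f.map (algebraMap k Ω))).map
            ((γ : Ω →+* Ω).comp (RingHom.id Ω)) =
            (mod2 g a₀ f).map (algebraMap k Ω) := by
          rw [← Polynomial.map_map, he, map_fixΩ]
        have hc2 : (mod2 g (algebraMap k Ω a₀) (f.map (algebraMap k Ω))).map
            ((RingHom.id Ω).comp (γ : Ω →+* Ω)) =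
            (mod2 g a₀ f).map (algebraMap k Ω) := by
          rw [← Polynomial.map_map, hj2, he]
        rw [J.map_map _ _ _ _ hc1, J.map_map _ _ _ _ hc2]
        rfl)
      (by
        intro n
        rw [← map_nsmul, ← map_nsmul, z2])
      h hx2A h₁
    -- back to the first model
    have h4 := val_sub_ne_zero (hk h₁) (mod2_eval_zero hgk (a := a₀)) h2 h1 hP2 h3
    refine val_of_second (g := g) hb' hPa' hy0 h₁.loc (hk h₁) (hxe ▸ h2) ?_ (hye ▸ h1) ?_
    · intro h5
      apply h4
      rw [← h5]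
      congr 1
      apply Subtype.ext
      change ((P.two hΩ ha hPa).map (RingHom.id Ω) he).x - algebraMap k Ω 0 = _
      refine Eq.trans ?_ hxe
      rw [map_zero, sub_zero]
    · intro h5
      apply h3
      rw [← h5]
      congr 1
      exact Subtype.ext hye
  · exfalso
    apply hbad'
    obtain ⟨ψ, hp, h1, h2, hch⟩ := chain_place (s := s) hf hfs hfd h₁
    let Gs : Set (Ω →+* Ω) := {h | ∃ (σ : Gal(AlgebraicClosure k/k)) (γ : Gal(Ω/K)), Lft s σ γ ∧
      h = (γ : Ω →+* Ω)}
    have hGs : ∀ h ∈ Gs, (f.map (algebraMap k Ω)).map h = f.map (algebraMap k Ω) := by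
      rintro _ ⟨σ, γ, -, rfl⟩
      exact map_fixΩ f γ
    obtain ⟨h3, h4⟩ := y_unit hp h1 h2 (P := P) (t := jconst f t) (m := m)
      (by rw [← map_nsmul, htm, map_zero]) (fun h => ht0 (hinj (h.trans (map_zero _).symm)))
      (by
        intro W hW h
        obtain ⟨c, hc⟩ := root_const hf.ne_zero (a := W.x) (by rw [← W.eqn, hW]; ring)
        apply htW
        have h3 : (f.map (algebraMap k (AlgebraicClosure k))).eval c = 0 := by
          apply (algebraMap (AlgebraicClosure k) Ω).injective
          rw [map_zero, ← eval₂_at_apply, ← eval_map, Polynomial.map_map,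
            ← IsScalarTower.algebraMap_eq, hc, ← W.eqn, hW]
          ring
        refine ⟨⟨c, 0, by rw [h3]; ring⟩, rfl, ?_⟩
        apply hinj
        rw [h, jconst, J.map_cl]
        congr 1
        ext
        · exact hc.symm
        · rw [hW]
          exact (map_zero _).symm)
      (fun j hj => by
        rw [← z0] at hj ⊢
        refine chain_pow_zero hp h1 h2 hGs z2 (by
          rintro _ ⟨σ, γ, hγ, rfl⟩ n
          exact zs n σ γ hγ) (fun T hT hTfix n => hch T hT (fun n σ γ hγ => ?_) n) j hj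
        exact hTfix _ ⟨σ, γ, hγ, rfl⟩ n)
    exact ⟨h3, x_mem_of_y_mem (hk h₁) hf (by omega) h3 hPe, h4⟩

end Pool.Agent.Lib.MP_2f3286_ag.HYP
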