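import Pool.Agent.Lib.MP_2f3286_ag.Full.GMainAlt

/-!
# Fixed points of a section on a set with finitely many orbits of a group acting freely
-/

namespace Pool.Agent.Lib.MP_2f3286_ag.HYP

open Pool.Agent.Lib.MP_2f3286_ag.Full
open scoped Pointwise

section

variable {G Γ X : Type*} [Group G] [TopologicalSpace G] [IsTopologicalGroup G] [CompactSpace G]
  [T2Space G] [Group Γ] [TopologicalSpace Γ] [IsTopologicalGroup Γ] [MulAction G X]

/-- the section into the stabilizer of a point -/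
theorem exists_stab_section (hcl : ∀ x y : X, IsClosed {g : G | g • x = y})
    (U : Subgroup G) (hU : IsClosed (U : Set G)) (s : Γ →* G) (hs : Continuous s)
    (hsU : ∀ γ, ∀ u ∈ U, s γ * u * (s γ)⁻¹ ∈ U) (Δ : Subgroup Γ) (x : X)
    (hfree : ∀ u ∈ U, u • x = x → u = 1) (hΔ : ∀ γ ∈ Δ, ∃ u ∈ U, s γ • x = u • x) :
    ∃ s' : Δ →* G, Continuous s' ∧ (∀ γ : Δ, s γ * (s' γ)⁻¹ ∈ U) ∧ ∀ γ : Δ, s' γ • x = x := by
  classical
  have hex : ∀ γ : Δ, ∃ g : G, s γ * g⁻¹ ∈ U ∧ g • x = x := by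
    intro γ
    obtain ⟨u, hu, h⟩ := hΔ γ γ.2
    refine ⟨u⁻¹ * s γ, ?_, ?_⟩
    · have h1 : s γ * (u⁻¹ * s γ)⁻¹ = u := by group
      rw [h1]
      exact hu
    · rw [mul_smul, h, inv_smul_smul]
  choose c hcU hcx using hex
  have huniq : ∀ (γ : Δ) (g : G), s γ * g⁻¹ ∈ U → g • x = x → g = c γ := by
    intro γ g hg hgx
    have h1 : c γ * g⁻¹ = 1 := by
      refine hfree _ ?_ ?_
      · have h2 : c γ * g⁻¹ = (s γ * (c γ)⁻¹)⁻¹ * (s γ * g⁻¹) := by group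
        rw [h2]
        exact mul_mem (inv_mem (hcU γ)) hg
      · rw [mul_smul, inv_smul_eq_iff.mpr hgx.symm, hcx]
    exact (mul_inv_eq_one.mp h1).symm
  have hmul : ∀ γ δ : Δ, c (γ * δ) = c γ * c δ := by
    intro γ δ
    refine (huniq _ _ ?_ ?_).symm
    · have h2 : s (γ * δ : Δ) * (c γ * c δ)⁻¹ =
          (s γ * (s δ * (c δ)⁻¹) * (s γ)⁻¹) * (s γ * (c γ)⁻¹) := by
        rw [Subgroup.coe_mul, map_mul]; group
      rw [h2]
      exact mul_mem (hsU _ _ (hcU δ)) (hcU γ)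
    · rw [mul_smul, hcx, hcx]
  let s' : Δ →* G := MonoidHom.mk' c hmul
  refine ⟨s', ?_, hcU, hcx⟩
  rw [continuous_iff_isClosed]
  intro C hC
  have h1 : s' ⁻¹' C = Prod.fst '' {p : Δ × G | p.2 ∈ C ∧ s p.1 * p.2⁻¹ ∈ U ∧ p.2 • x = x} := by
    ext γ
    constructor
    · intro h
      exact ⟨(γ, s' γ), ⟨h, hcU γ, hcx γ⟩, rfl⟩
    · rintro ⟨⟨γ', g⟩, ⟨h1, h2, h3⟩, rfl⟩
      change c γ' ∈ C
      rw [← huniq γ' g h2 h3]
      exact h1
  rw [h1]
  refine isClosedMap_fst_of_compactSpace _ ?_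
  refine IsClosed.inter (hC.preimage continuous_snd) (IsClosed.inter ?_ ?_)
  · refine hU.preimage ?_
    have h2 : Continuous fun p : Δ × G => s (p.1 : Γ) :=
      hs.comp (continuous_subtype_val.comp continuous_fst)
    exact h2.mul continuous_snd.inv
  · exact (hcl x x).preimage continuous_snd

variable [TotallyDisconnectedSpace G]

/-- **Fixed points.** -/
theorem exists_fixed (hcl : ∀ x y : X, IsClosed {g : G | g • x = y})
    (N U : Subgroup G) [N.Normal] (hN : IsClosed (N : Set G)) (hU : IsClosed (U : Set G))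
    (hUN : U ≤ N) (s : Γ →* G) (hs : Continuous s)
    (hsU : ∀ γ, ∀ u ∈ U, s γ * u * (s γ)⁻¹ ∈ U)
    (hfree : ∀ u ∈ U, ∀ x : X, u • x = x → u = 1)
    (Y : Set X) (hY : Y.Finite) (horb : ∀ x : X, ∃ y ∈ Y, ∃ u ∈ U, x = u • y)
    (hdense : ∀ γ : Γ, ∀ V ∈ nhds γ, ∃ γ' ∈ V, ∃ x : X, s γ' • x = x)
    (hfin : ∀ A ≤ N, OpenIn N A → ∀ (ℓ : ℕ) [Fact ℓ.Prime],
      Finite (A →ₜ* Multiplicative (ZMod ℓ)) ∧
      ∀ f : A →ₜ* Multiplicative (ZMod ℓ), ∃ F : A →ₜ* Multiplicative ℤ_[ℓ], ∀ a,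
        PadicInt.toZMod (F a).toAdd = (f a).toAdd)
    (hW : ∀ Δ : Subgroup Γ, IsOpen (Δ : Set Γ) → ∀ (H H' : Subgroup G) [H.Normal] [H'.Normal],
      H ≤ N → H' ≤ H → OpenIn N H' →
      ∀ L : Finset ℕ, (∀ ℓ ∈ L, ℓ.Prime) →
      (∀ (ℓ : ℕ) [Fact ℓ.Prime], ℓ ∈ L → ∀ f : H →ₜ* Multiplicative (ZMod ℓ), ∀ h : H,
        (h : G) ∈ H' → f h = 1) →
      ∃ γ : Δ, ∀ (ℓ : ℕ) [Fact ℓ.Prime], ℓ ∈ L → ∀ j, 1 ≤ j →
        ∀ χ : H →ₜ* Multiplicative ℤ_[ℓ],
          (∀ h, χ (MulAut.conjNormal ((s.comp Δ.subtype) γ ^ j) h) = χ h) → ∀ h, χ h = 1) :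
    ∃ Δ : Subgroup Γ, IsOpen (Δ : Set Γ) ∧ ∃ x : X, ∀ γ ∈ Δ, s γ • x = x := by
  classical
  -- the orbits
  let Q := MulAction.orbitRel.Quotient U X
  have hmk : ∀ x y : X, (Quotient.mk (MulAction.orbitRel U X) x : Q) =
      Quotient.mk (MulAction.orbitRel U X) y ↔ ∃ u ∈ U, x = u • y := by
    intro x y
    rw [Quotient.eq (r := MulAction.orbitRel U X), MulAction.orbitRel_apply, MulAction.mem_orbit_iff]
    constructor
    · rintro ⟨u, hu⟩
      exact ⟨u, u.2, hu.symm⟩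
    · rintro ⟨u, hu, h⟩
      exact ⟨⟨u, hu⟩, h.symm⟩
  have hQ : Finite Q := by
    have : Finite Y := hY
    refine Finite.of_surjective (fun y : Y => (Quotient.mk (MulAction.orbitRel U X) (y : X) : Q)) ?_
    intro q
    obtain ⟨x, rfl⟩ := Quotient.exists_rep q
    obtain ⟨y, hy, u, hu, h⟩ := horb x
    exact ⟨⟨y, hy⟩, ((hmk _ _).2 ⟨u, hu, h⟩).symm⟩
  let act : MulAction Γ Q :=
    { smul := fun γ => Quotient.map (fun x => s γ • x) (by
        intro x y hxy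
        have h1 := (hmk x y).1 (Quotient.sound hxy)
        obtain ⟨u, hu, rfl⟩ := h1
        refine Quotient.exact ((hmk _ _).2 ⟨s γ * u * (s γ)⁻¹, hsU γ u hu, ?_⟩)
        rw [mul_smul, inv_smul_smul, mul_smul])
      one_smul := by
        rintro ⟨x⟩
        change (Quotient.mk (MulAction.orbitRel U X) (s 1 • x) : Q) = Quotient.mk _ x
        rw [map_one, one_smul]
      mul_smul := by
        rintro γ δ ⟨x⟩
        change (Quotient.mk (MulAction.orbitRel U X) (s (γ * δ) • x) : Q) =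
          Quotient.mk _ (s γ • s δ • x)
        rw [map_mul, mul_smul] }
  have hsmul : ∀ (γ : Γ) (x : X), γ • (Quotient.mk (MulAction.orbitRel U X) x : Q) =
      (Quotient.mk (MulAction.orbitRel U X) (s γ • x) : Q) := fun γ x => rfl
  let Δ : Subgroup Γ := (MulAction.toPermHom Γ Q).ker
  have hΔmem : ∀ γ, γ ∈ Δ ↔ ∀ x : X, ∃ u ∈ U, s γ • x = u • x := by
    intro γ
    constructor
    · intro h x
      rw [← hmk, ← hsmul]
      have h1 := congrFun (congrArg (fun e : Equiv.Perm Q => (e : Q → Q)) (MonoidHom.mem_ker.mp h))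
        (Quotient.mk (MulAction.orbitRel U X) x)
      exact h1
    · intro h
      refine MonoidHom.mem_ker.mpr ?_
      ext1 q
      obtain ⟨x, rfl⟩ := Quotient.exists_rep q
      exact (hmk _ _).2 (h x)
  have hΔcl : IsClosed (Δ : Set Γ) := by
    have h1 : (Δ : Set Γ) = ⋂ x : X, s ⁻¹' ((U : Set G) * {g : G | g • x = x}) := by
      ext γ
      simp only [Set.mem_iInter, Set.mem_preimage, SetLike.mem_coe, hΔmem]
      refine forall_congr' fun x => ?_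
      rw [Set.mem_mul]
      constructor
      · rintro ⟨u, hu, h⟩
        refine ⟨u, hu, u⁻¹ * s γ, ?_, by group⟩
        change (u⁻¹ * s γ) • x = x
        rw [mul_smul, h, inv_smul_smul]
      · rintro ⟨u, hu, g, hg, h⟩
        refine ⟨u, hu, ?_⟩
        rw [← h, mul_smul]
        congr 1
    rw [h1]
    refine isClosed_iInter fun x => IsClosed.preimage hs ?_
    exact (hU.isCompact.mul (hcl x x).isCompact).isClosed
  have hΔf : Δ.FiniteIndex := by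
    have : Finite (Equiv.Perm Q) := inferInstance
    exact Subgroup.finiteIndex_ker _
  have hΔo : IsOpen (Δ : Set Γ) := Subgroup.isOpen_of_isClosed_of_finiteIndex Δ hΔcl
  -- the sections in the stabilizers
  let r : Q → X := Quotient.out
  choose s' hs'c hs'U hs'x using fun q : Q => exists_stab_section hcl U hU s hs hsU Δ (r q)
    (fun u hu h => hfree u hu _ h) (fun γ hγ => (hΔmem γ).1 hγ (r q))
  -- sections with a fixed point
  have hE1 : ∀ γ : Δ, (∃ x : X, s γ • x = x) → ∃ q : Q, ∃ n ∈ U, s γ = n * s' q γ * n⁻¹ := by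
    rintro γ ⟨x, hx⟩
    let q : Q := Quotient.mk _ x
    have h1 : (Quotient.mk (MulAction.orbitRel U X) x : Q) =
        Quotient.mk (MulAction.orbitRel U X) (r q) := (Quotient.out_eq q).symm
    obtain ⟨u, hu, hxu⟩ := (hmk _ _).1 h1
    refine ⟨q, u, hu, ?_⟩
    have h2 : (s' q γ)⁻¹ * (u⁻¹ * s γ * u) = 1 := by
      refine hfree _ ?_ (r q) ?_
      · have h3 : (s' q γ)⁻¹ * (u⁻¹ * s γ * u) =
            (s' q γ)⁻¹ * (u⁻¹ * (s γ * u * (s γ)⁻¹) * (s γ * (s' q γ)⁻¹)) * ((s' q γ)⁻¹)⁻¹ := by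
          group
        have h4 : ∀ w ∈ U, (s' q γ)⁻¹ * w * ((s' q γ)⁻¹)⁻¹ ∈ U := by
          intro w hw
          have h5 : (s' q γ)⁻¹ = s ((γ : Γ)⁻¹) * (s γ * (s' q γ)⁻¹) := by
            rw [map_inv]; group
          rw [h5]
          have h6 := hsU ((γ : Γ)⁻¹) _ (mul_mem (mul_mem (hs'U q γ) hw) (inv_mem (hs'U q γ)))
          have h7 : s ((γ : Γ)⁻¹) * (s γ * (s' q γ)⁻¹) * w * (s ((γ : Γ)⁻¹) *
              (s γ * (s' q γ)⁻¹))⁻¹ = s ((γ : Γ)⁻¹) * (s γ * (s' q γ)⁻¹ * w *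
                (s γ * (s' q γ)⁻¹)⁻¹) * (s ((γ : Γ)⁻¹))⁻¹ := by group
          rw [h7]
          exact h6
        rw [h3]
        exact h4 _ (mul_mem (mul_mem (inv_mem hu) (hsU _ _ hu)) (hs'U q γ))
      · have h3 : (u⁻¹ * s γ * u) • r q = r q := by
          rw [mul_smul, mul_smul, ← hxu, hx, hxu, inv_smul_smul]
        rw [mul_smul, h3, inv_smul_eq_iff, hs'x]
    have h3 : s' q γ = u⁻¹ * s γ * u := (inv_mul_eq_one.mp h2)
    rw [h3]
    group
  have hE2 : ∀ γ : Δ, ∃ q : Q, ∃ n ∈ U, s γ = n * s' q γ * n⁻¹ := by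
    have hcl' : IsClosed {γ : Δ | ∃ q : Q, ∃ n ∈ U, s γ = n * s' q γ * n⁻¹} := by
      have h1 : {γ : Δ | ∃ q : Q, ∃ n ∈ U, s γ = n * s' q γ * n⁻¹} =
          ⋃ q : Q, Prod.fst '' {p : Δ × G | p.2 ∈ U ∧ s p.1 = p.2 * s' q p.1 * p.2⁻¹} := by
        ext γ
        simp only [Set.mem_setOf_eq, Set.mem_iUnion, Set.mem_image]
        refine exists_congr fun q => ?_
        constructor
        · rintro ⟨n, hn, h⟩
          exact ⟨(γ, n), ⟨hn, h⟩, rfl⟩
        · rintro ⟨⟨γ', n⟩, ⟨hn, h⟩, rfl⟩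
          exact ⟨n, hn, h⟩
      rw [h1]
      refine isClosed_iUnion_of_finite fun q => isClosedMap_fst_of_compactSpace _ ?_
      refine (hU.preimage continuous_snd).inter (isClosed_eq ?_ ?_)
      · exact hs.comp (continuous_subtype_val.comp continuous_fst)
      · exact (continuous_snd.mul ((hs'c q).comp continuous_fst)).mul continuous_snd.inv
    have hd : Dense {γ : Δ | ∃ q : Q, ∃ n ∈ U, s γ = n * s' q γ * n⁻¹} := by
      intro γ
      rw [mem_closure_iff_nhds]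
      intro V hV
      have h1 : Subtype.val '' V ∈ nhds (γ : Γ) := hΔo.isOpenEmbedding_subtypeVal.isOpenMap.image_mem_nhds hV
      obtain ⟨_, ⟨γ', hγ', rfl⟩, hx⟩ := hdense (γ : Γ) _ h1
      exact ⟨γ', hγ', hE1 γ' hx⟩
    intro γ
    have h1 := hd γ
    rw [hcl'.closure_eq] at h1
    exact h1
  obtain ⟨q, n, hn, h⟩ := G_main_alt N hN (s.comp Δ.subtype) s'
    (fun q γ => hUN (hs'U q γ)) (fun γ => by
      obtain ⟨q, n, hn, h⟩ := hE2 γ
      exact ⟨q, n, hUN hn, h⟩) hfin (fun H H' _ _ => hW Δ hΔo H H')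
  refine ⟨Δ, hΔo, n • r q, fun γ hγ => ?_⟩
  have h1 : s γ = n * s' q ⟨γ, hγ⟩ * n⁻¹ := h ⟨γ, hγ⟩
  rw [h1, mul_smul, inv_smul_smul, mul_smul, hs'x]

end

end Pool.Agent.Lib.MP_2f3286_ag.HYP
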