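import Pool.Agent.Lib.MP_2f3286_ag.HYP.CvOrb
import Pool.Agent.Lib.MP_2f3286_ag.HYP.CvFix
import Pool.Agent.Lib.MP_2f3286_ag.Full.FullCoreAlt

/-!
# Sections whose local places all have a pole of one unit are cuspidal
-/

open Polynomial IntermediateField IsDedekindDomain NumberField
open scoped Pointwise

namespace Pool.Agent.Lib.MP_2f3286_ag.HYP

open Pool.Agent.Lib.MP_2f3286_ag.Full

universe u

/-- the automorphisms of a place -/
theorem place_stable {k kb K M F Fb : Type*} [Field k] [Field kb] [Algebra k kb] [Field K] [Field M]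
    [Algebra K M] [Algebra kb M] {s : Gal(kb/k) →* Gal(M/K)} [Field F]
    [Field Fb] [Algebra F Fb] {ι : kb →+* Fb} {A : ValuationSubring M} {φ : A →+* Fb}
    (h : Sel.IsPlaceOf s F ι A φ) {σ : Gal(kb/k)} {τ : Gal(Fb/F)} (hστ : ∀ a, ι (σ a) = τ (ι a))
    (z : M) : z ∈ A ↔ s σ z ∈ A := by
  refine ⟨fun hz => (h.2.2 σ τ hστ ⟨z, hz⟩).1, fun hz => ?_⟩
  have h1 : ∀ a, ι (σ⁻¹ a) = τ⁻¹ (ι a) := by
    intro a
    have h2 := hστ (σ⁻¹ a)
    rw [show σ (σ⁻¹ a) = a from σ.apply_symm_apply a] at h2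
    rw [h2]
    exact (τ.symm_apply_apply _).symm
  have h2 := (h.2.2 σ⁻¹ τ⁻¹ h1 ⟨_, hz⟩).1
  rw [map_inv] at h2
  have h3 : (s σ)⁻¹ (s σ z) = z := (s σ).symm_apply_apply z
  rw [h3] at h2
  exact h2

/-- **Sections whose local places all have a pole of a unit.** -/
theorem cusp_core {k : Type u} [Field k] [NumberField k]
    {K : Type*} [Field K] [Algebra k K] (t : K) (ht : Transcendental k t)
    [FiniteDimensional (adjoin k {t}) K]
    {M : Type*} [Field M] [Algebra K M] [IsGalois K M]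
    [Algebra (AlgebraicClosure k) M] [Algebra k M]
    [IsScalarTower k K M] [IsScalarTower k (AlgebraicClosure k) M]
    (hroot : ∀ n : ℕ, 0 < n → ∃ β : M, β ^ n = algebraMap K M t)
    (hfree : ∀ A ≤ geomGroup K M (AlgebraicClosure k),
      OpenIn (geomGroup K M (AlgebraicClosure k)) A → ∀ (ℓ : ℕ) [Fact ℓ.Prime],
      Finite (A →ₜ* Multiplicative (ZMod ℓ)) ∧
      ∀ f : A →ₜ* Multiplicative (ZMod ℓ), ∃ F : A →ₜ* Multiplicative ℤ_[ℓ], ∀ a,
        PadicInt.toZMod (F a).toAdd = (f a).toAdd)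
    (s : Gal(AlgebraicClosure k/k) →* Gal(M/K)) (hs : Continuous s)
    (hsec : ∀ σ a, s σ (algebraMap (AlgebraicClosure k) M a) =
      algebraMap (AlgebraicClosure k) M (σ a))
    (S : Finset (HeightOneSpectrum (𝓞 k)))
    (hloc : ∀ v ∉ S, ∃ (ι : AlgebraicClosure k →ₐ[k] AlgebraicClosure (v.adicCompletion k))
      (A : ValuationSubring M) (φ : A →+* AlgebraicClosure (v.adicCompletion k)),
      Sel.IsPlaceOf s (v.adicCompletion k)
        (ι : _ →+* AlgebraicClosure (v.adicCompletion k)) A φ ∧ algebraMap K M t ∉ A) :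
    ∃ (Δ : Subgroup Gal(AlgebraicClosure k/k)) (W : ValuationSubring M),
      IsOpen (Δ : Set Gal(AlgebraicClosure k/k)) ∧
      (∀ a, algebraMap (AlgebraicClosure k) M a ∈ W) ∧ algebraMap K M t ∉ W ∧
      ∀ σ ∈ Δ, ∀ z : M, z ∈ W ↔ s σ z ∈ W := by
  classical
  have hK0 : CharZero K := charZero_of_injective_algebraMap (algebraMap k K).injective
  have hM0 : CharZero M := charZero_of_injective_algebraMap (algebraMap K M).injective
  have hΩ0 : CharZero (AlgebraicClosure M) :=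
    charZero_of_injective_algebraMap (algebraMap M _).injective
  have halg : Algebra.IsAlgebraic K (AlgebraicClosure M) := Algebra.IsAlgebraic.trans K M _
  have htr : Algebra.trdeg k (AlgebraicClosure M) = 1 :=
    trdeg_top (K := K) (Full.trdeg_of_finite ht)
  have htr' : Algebra.trdeg (AlgebraicClosure k) (AlgebraicClosure M) = 1 := by
    have h1 := lift_trdeg_add_eq k (AlgebraicClosure k) (AlgebraicClosure M)
    rw [htr, trdeg_eq_zero (R := k) (A := AlgebraicClosure k)] at h1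
    simp only [Cardinal.lift_one, Cardinal.lift_zero, zero_add] at h1
    exact Cardinal.lift_eq_one.mp h1
  have hkb : Algebra.IsAlgebraic k (AlgebraicClosure k) := inferInstance
  have htM : Transcendental (AlgebraicClosure k) (algebraMap K M t) :=
    Pt.PTAux.transc (k := k) t ht
  have halgM : ∀ z : M, IsAlgebraic
      (adjoin (AlgebraicClosure k) {algebraMap K M t}) z := Full.isAlgebraic_M (k := k) t
  set N := geomGroup K M (AlgebraicClosure k) with hN
  have hNn : N.Normal := geomGroup_normal k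
  have hNcl : IsClosed (N : Set Gal(M/K)) := isClosed_geomGroup K M (AlgebraicClosure k)
  obtain ⟨Y, hY, horb⟩ := finite_orbits (k := k) (kb := AlgebraicClosure k) (M := M)
    (Ω := AlgebraicClosure M) htr' ht
  let act : MulAction Gal(M/K) (PlX K M (AlgebraicClosure k) t) := plAct k t
  have hact : ∀ (g : Gal(M/K)) (W W' : PlX K M (AlgebraicClosure k) t), g • W = W' ↔
      ∀ z : M, z ∈ W.1 ↔ g z ∈ W'.1 := fun g W W' => plAct_iff (k := k) g W W'
  have hfr : ∀ u ∈ rootGroup K M (AlgebraicClosure k) t, ∀ W : PlX K M (AlgebraicClosure k) t,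
      u • W = W → u = 1 := by
    intro u hu W hWu
    refine eq_one_of_fix W.1 W.2.1 W.2.2 halgM (fun z hz => ?_) hroot u hu.1 hu.2
      (fun z => ((hact _ _ _).1 hWu z).symm)
    exact Pt.MaxOver.residue_const _ htM halgM W.1 W.2.1 (fun h => W.2.2 (by
      rw [h]; exact ValuationSubring.mem_top _)) z hz
  have hdense : ∀ γ : Gal(AlgebraicClosure k/k), ∀ V ∈ nhds γ, ∃ γ' ∈ V,
      ∃ W : PlX K M (AlgebraicClosure k) t, s γ' • W = W := by
    intro γ V hV
    have h1 : {δ | γ * δ ∈ V} ∈ nhds (1 : Gal(AlgebraicClosure k/k)) := by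
      have h2 : Continuous fun δ : Gal(AlgebraicClosure k/k) => γ * δ := continuous_const_mul γ
      exact h2.continuousAt (by rw [mul_one]; exact hV)
    obtain ⟨L, hL, hLU⟩ := (krullTopology_mem_nhds_one_iff k _ _).mp h1
    obtain ⟨v, hv, hcheb⟩ := cheb S L γ
    obtain ⟨ι, A, φ, hA, htA⟩ := hloc v hv
    obtain ⟨g, σ', hσ', τ, hτ⟩ := hcheb ι
    have hδ : γ⁻¹ * σ' ∈ L.fixingSubgroup := by
      rw [IntermediateField.mem_fixingSubgroup_iff]
      intro x hx
      rw [AlgEquiv.mul_apply, hσ' x hx]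
      exact γ.symm_apply_apply x
    refine ⟨σ', ?_, ?_⟩
    · have h2 : γ * (γ⁻¹ * σ') ∈ V := hLU hδ
      rwa [mul_inv_cancel_left] at h2
    · let W : PlX K M (AlgebraicClosure k) t := ⟨A, fun a => (hA.1 a).1, htA⟩
      have h2 : s (g * σ' * g⁻¹) • W = W := (hact _ _ _).2 fun z => place_stable hA hτ z
      refine ⟨(s g)⁻¹ • W, ?_⟩
      rw [← mul_smul, eq_inv_smul_iff, ← mul_smul]
      have h3 : s g * (s σ' * (s g)⁻¹) = s (g * σ' * g⁻¹) := by
        rw [map_mul, map_mul, map_inv, mul_assoc]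
      rw [h3, h2]
  obtain ⟨Δ, hΔ, W, hW⟩ := exists_fixed (X := PlX K M (AlgebraicClosure k) t)
    (fun W W' => isClosed_plAct (k := k) W W') N (rootGroup K M (AlgebraicClosure k) t) hNcl
    (isClosed_rootGroup t) (rootGroup_le t) s hs (fun γ u hu => rootGroup_conj k (s γ) hu)
    hfr Y hY horb hdense hfree
    (fun Δ hΔ H H' _ _ hHN hH'H hH'o L hL hH'L =>
      W_sub t ht s hsec Δ hΔ H H' hHN hH'H hH'o L hL hH'L)
  exact ⟨Δ, W.1, hΔ, W.2.1, W.2.2, fun σ hσ => (hact _ _ _).1 (hW σ hσ)⟩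

end Pool.Agent.Lib.MP_2f3286_ag.HYP
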