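import Pool.Agent.Lib.MP_2f3286_ag.HYP.CvUniq

/-!
# Sections above an odd hyperelliptic curve, cusps allowed: the alternative
-/

open Polynomial IntermediateField IsDedekindDomain NumberField
open scoped Pointwise

namespace Pool.Agent.Lib.MP_2f3286_ag.HYP

open Pool.Agent.Lib.MP_2f3286_ag.Full

universe u

/-- a function on a curve with a section which is not in `k` is transcendental -/
theorem transc_of_sec {k : Type*} [Field k] [NumberField k] {K : Type*} [Field K] [Algebra k K]
    {M : Type*} [Field M] [Algebra K M]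
    [Algebra (AlgebraicClosure k) M] [Algebra k M]
    [IsScalarTower k K M] [IsScalarTower k (AlgebraicClosure k) M]
    {s : Gal(AlgebraicClosure k/k) →* Gal(M/K)}
    (hsec : ∀ σ a, s σ (algebraMap (AlgebraicClosure k) M a) =
      algebraMap (AlgebraicClosure k) M (σ a)) {x : K} (hx : ∀ c : k, x ≠ algebraMap k K c) :
    Transcendental k x := by
  rintro ⟨p, hp, hp'⟩
  have h1 : (p.map (algebraMap k (AlgebraicClosure k))).eval₂
      (algebraMap (AlgebraicClosure k) M) (algebraMap K M x) = 0 := by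
    rw [eval₂_map, ← IsScalarTower.algebraMap_eq, ← aeval_def, aeval_algebraMap_apply, hp', map_zero]
  obtain ⟨c, -, hc⟩ := root_mem (algebraMap (AlgebraicClosure k) M)
    (Polynomial.map_ne_zero hp) h1
  obtain ⟨c₀, hc₀⟩ := mem_of_fixed (k := k) (a := c) fun σ => by
    apply (algebraMap (AlgebraicClosure k) M).injective
    rw [← hsec, hc, (s σ).commutes]
  apply hx c₀
  apply (algebraMap K M).injective
  rw [← IsScalarTower.algebraMap_apply, IsScalarTower.algebraMap_apply k (AlgebraicClosure k) M,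
    hc₀]
  exact hc.symm

/-- there is a prime of a number field -/
theorem nonempty_primes (k : Type*) [Field k] [NumberField k] :
    Nonempty (HeightOneSpectrum (𝓞 k)) := by
  obtain ⟨m, hm⟩ := Ideal.exists_maximal (𝓞 k)
  exact ⟨⟨m, hm.isPrime, Ring.ne_bot_of_isMaximal_of_not_isField hm
    (NumberField.RingOfIntegers.not_isField k)⟩⟩

/-- a place of a section is a place over the completions -/
theorem isPlaceOf_of_on {k : Type*} [Field k] [NumberField k] {K : Type*} [Field K]
    {M : Type*} [Field M] [Algebra K M] [Algebra (AlgebraicClosure k) M]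
    {s : Gal(AlgebraicClosure k/k) →* Gal(M/K)} {A : ValuationSubring M}
    {ψ : A →+* AlgebraicClosure k} (h : SNeigh.IsOver A ψ) (hr : SNeigh.ResOn s A ψ ⊤)
    (v : HeightOneSpectrum (𝓞 k))
    (ι : AlgebraicClosure k →ₐ[k] AlgebraicClosure (v.adicCompletion k)) :
    Sel.IsPlaceOf s (v.adicCompletion k)
      (ι : _ →+* AlgebraicClosure (v.adicCompletion k)) A
      ((ι : _ →+* AlgebraicClosure (v.adicCompletion k)).comp ψ) := by
  refine ⟨fun b => ?_, fun x hx => h.2 x fun h0 => hx ?_, fun σ τ hστ x => ?_⟩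
  · obtain ⟨h1, h2⟩ := h.1 b
    exact ⟨h1, congrArg ι h2⟩
  · change ι (ψ x) = 0
    rw [h0, map_zero]
  · obtain ⟨h1, h2⟩ := hr σ (Subgroup.mem_top σ) x
    refine ⟨h1, ?_⟩
    change ι (ψ ⟨s σ x, h1⟩) = τ (ι (ψ x))
    rw [h2]
    exact hστ _

/-- **The local places are all over the complement of the points where `y` is `0` or infinite, or the
section is cuspidal.** -/
theorem affine_dich {k : Type u} [Field k] [NumberField k]
    (hinf : Fintype.card (InfinitePlace k) = 1)
    {f : k[X]} (hf : f.Monic) (hfs : f.Separable) {g : ℕ} (hg : 1 ≤ g)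
    (hfd : f.natDegree = 2 * g + 1) {Q : Prop} (hS : SelTorR k f Q)
    {K : Type*} [Field K] [Algebra k K] (htr : Algebra.trdeg k K = 1)
    {x y : K} (hx : ∀ c : k, x ≠ algebraMap k K c) (hxy : y ^ 2 = aeval x f)
    (R : Subalgebra k K)
    {M : Type*} [Field M] [Algebra K M] [IsGalois K M]
    [Algebra (AlgebraicClosure k) M] [Algebra k M]
    [IsScalarTower k K M] [IsScalarTower k (AlgebraicClosure k) M]
    (s : Gal(AlgebraicClosure k/k) →* Gal(M/K)) (hs : Continuous s)
    (hsec : ∀ σ a, s σ (algebraMap (AlgebraicClosure k) M a) =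
      algebraMap (AlgebraicClosure k) M (σ a))
    (hfg : R.FG) (hRn : ∀ h : K, IsIntegral R h → h ∈ R) (hxR : x ∈ R) (hyR : y ∈ R)
    (hyR' : y⁻¹ ∈ R) (hM : Pt.IsMaxUnramOver R K M (AlgebraicClosure k))
    (hloc : ∀ v : HeightOneSpectrum (𝓞 k),
      ∃ (ι : AlgebraicClosure k →ₐ[k] AlgebraicClosure (v.adicCompletion k))
        (A : ValuationSubring M) (φ : A →+* AlgebraicClosure (v.adicCompletion k)),
        Sel.IsPlaceOf s (v.adicCompletion k)
          (ι : _ →+* AlgebraicClosure (v.adicCompletion k)) A φ)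
    (hre : Q → ∀ τ : AlgebraicClosure k →+* ℂ,
      (∀ a : k, starRingEnd ℂ (τ (algebraMap k _ a)) = τ (algebraMap k _ a)) →
      ∃ (A : ValuationSubring M) (φ : A →+* ℂ), Sel.IsPlaceOf s ℝ τ A φ) :
    (∀ (v : HeightOneSpectrum (𝓞 k))
      (ι : AlgebraicClosure k →ₐ[k] AlgebraicClosure (v.adicCompletion k))
      (A : ValuationSubring M) (φ : A →+* AlgebraicClosure (v.adicCompletion k)),
      Sel.IsPlaceOf s (v.adicCompletion k)
        (ι : _ →+* AlgebraicClosure (v.adicCompletion k)) A φ →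
      algebraMap K M x ∈ A ∧ algebraMap K M y⁻¹ ∈ A) ∨
    ((∀ (v : HeightOneSpectrum (𝓞 k))
      (ι : AlgebraicClosure k →ₐ[k] AlgebraicClosure (v.adicCompletion k))
      (A : ValuationSubring M) (φ : A →+* AlgebraicClosure (v.adicCompletion k)),
      Sel.IsPlaceOf s (v.adicCompletion k)
        (ι : _ →+* AlgebraicClosure (v.adicCompletion k)) A φ →
      ¬ (algebraMap K M x ∈ A ∧ algebraMap K M y⁻¹ ∈ A)) ∧
    ∃ (Δ : Subgroup Gal(AlgebraicClosure k/k)) (A₀ : ValuationSubring M)
      (ψ₀ : A₀ →+* AlgebraicClosure k), IsOpen (Δ : Set Gal(AlgebraicClosure k/k)) ∧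
      SNeigh.IsOver A₀ ψ₀ ∧ SNeigh.ResOn s A₀ ψ₀ Δ ∧
      ¬ (algebraMap K M x ∈ A₀ ∧ algebraMap K M y⁻¹ ∈ A₀) ∧
      (adjoin k {x, y} = ⊤ → Δ = ⊤ ∧
        ∀ (A₁ : ValuationSubring M) (ψ₁ : A₁ →+* AlgebraicClosure k), SNeigh.IsOver A₁ ψ₁ →
          SNeigh.ResOn s A₁ ψ₁ ⊤ → A₁ = A₀)) := by
  classical
  have hxk : Transcendental k x := transc_of_sec hsec hx
  have hfdim := finite_of_fg htr R hRn hfg hxR hxk
  have hK0 : CharZero K := charZero_of_injective_algebraMap (algebraMap k K).injective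
  have hM0 : CharZero M := charZero_of_injective_algebraMap (algebraMap K M).injective
  have hΩ0 : CharZero (AlgebraicClosure M) :=
    charZero_of_injective_algebraMap (algebraMap M _).injective
  have hKM : Algebra.IsAlgebraic K M := inferInstance
  have halg : Algebra.IsAlgebraic K (AlgebraicClosure M) := Algebra.IsAlgebraic.trans K M _
  have hcl : IsAlgClosure K (AlgebraicClosure M) := ⟨inferInstance, halg⟩
  have hnorm : Normal K (AlgebraicClosure M) := IsAlgClosure.normal K _
  have hΩg : IsGalois K (AlgebraicClosure M) := ⟨⟩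
  have hΩM : IsGalois M (AlgebraicClosure M) := IsGalois.tower_top_of_isGalois K M _
  have htrM : Algebra.trdeg k M = 1 := trdeg_top (K := K) htr
  have htrΩ : Algebra.trdeg k (AlgebraicClosure M) = 1 := trdeg_top (K := K) htr
  have hMp := maxUnram_of_over R htrΩ x hxR hxk hM
  have hmax := Pt.radClosed_of_max R hMp
  have hIsG : IsGalois k (AlgebraicClosure k) := {}
  -- the places of the algebraic closure
  have hup : ∀ {E Eb : Type _} [Field E] [Field Eb] [Algebra E Eb] [IsAlgClosed Eb] [CharZero Eb]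
      {ι : AlgebraicClosure k →+* Eb} {A : ValuationSubring M} {φ : A →+* Eb},
      Sel.IsPlaceOf s E ι A φ →
      ∃ (A' : ValuationSubring (AlgebraicClosure M)) (π : A' →+* Eb), PlaceOver s E ι A' π ∧
        (∀ z : M, algebraMap M _ z ∈ A' ↔ z ∈ A) := by
    intro E Eb _ _ _ _ _ ι A φ h
    obtain ⟨A', π, h1, h2, -⟩ := exists_placeOver (Ω := AlgebraicClosure M) htrΩ htrM hxk h
    exact ⟨A', π, h1, h2⟩
  have hloc0 : ∀ (v : HeightOneSpectrum (𝓞 k)), CharZero (AlgebraicClosure (v.adicCompletion k)) := by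
    intro v
    have : CharZero (v.adicCompletion k) :=
      charZero_of_injective_algebraMap (algebraMap k (v.adicCompletion k)).injective
    exact charZero_of_injective_algebraMap (algebraMap (v.adicCompletion k) _).injective
  have hfin : ∀ (v : HeightOneSpectrum (𝓞 k))
      (ι' : AlgebraicClosure k →ₐ[k] AlgebraicClosure (v.adicCompletion k)),
      ∃ (A : ValuationSubring (AlgebraicClosure M))
        (π : A →+* AlgebraicClosure (v.adicCompletion k)),
        PlaceOver s (v.adicCompletion k)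
          (ι' : AlgebraicClosure k →+* AlgebraicClosure (v.adicCompletion k)) A π := by
    intro v ι'
    have := hloc0 v
    obtain ⟨ι, A, φ, h⟩ := hloc v
    obtain ⟨ρ, hρ⟩ := exists_aut_of_embeddings (k := k) (kb := AlgebraicClosure k)
      (ι : AlgebraicClosure k →+* AlgebraicClosure (v.adicCompletion k))
      (ι' : AlgebraicClosure k →+* AlgebraicClosure (v.adicCompletion k))
      (fun a => (ι.commutes a).trans (ι'.commutes a).symm)
    obtain ⟨A', φ', h', -⟩ := place_change hsec hρ h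
    obtain ⟨A₂, π, h2, -⟩ := hup h'
    exact ⟨A₂, π, h2⟩
  have hre' : Q → ∀ ι' : AlgebraicClosure k →+* ℂ,
      (∃ σ₀ : Gal(AlgebraicClosure k/k), ∀ a, ι' (σ₀ a) = starRingEnd ℂ (ι' a)) →
      ∃ (A : ValuationSubring (AlgebraicClosure M)) (π : A →+* ℂ), PlaceOver s ℝ ι' A π := by
    rintro hQ ι' ⟨σ₀, hσ₀⟩
    obtain ⟨A₁, φ', h'⟩ := hre hQ ι' fun a => by rw [← hσ₀, AlgEquiv.commutes]
    obtain ⟨A₂, π, h2, -, -⟩ := exists_placeOver (Ω := AlgebraicClosure M) htrΩ htrM hxk h'
    exact ⟨A₂, π, h2⟩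
  -- the coordinates
  let xR : R := ⟨x, hxR⟩
  let yR : R := ⟨y, hyR⟩
  have hyi' : IsIntegral R ((yR : K)⁻¹) :=
    isIntegral_algebraMap (R := R) (A := K) (x := ⟨y⁻¹, hyR'⟩)
  have key := cusp_alt (Ω := AlgebraicClosure M) hinf R htr hmax hMp s hs hsec hfin hre' hf hfs hg hfd
    hS (x := xR) (y := yR) hxk hxy hyi'
  rcases key with key | ⟨f₂, x₂, y₂, ⟨hf₂, hfs₂, hfd₂, hxy₂, hxt₂, hx₂R, hy₂R, hy₂R', hxm, hym, hA₂⟩,
    key⟩
  · left
    intro v ι A φ h
    have := hloc0 v
    obtain ⟨A', π, h1, h2⟩ := hup h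
    obtain ⟨h3, h4⟩ := key v ι A' π h1
    rw [IsScalarTower.algebraMap_apply K M (AlgebraicClosure M), h2] at h3 h4
    exact ⟨h3, h4⟩
  · right
    have hno : ∀ A : ValuationSubring M, (∀ c : k, algebraMap k M c ∈ A) →
        algebraMap K M y₂ ∉ A → ¬ (algebraMap K M x ∈ A ∧ algebraMap K M y⁻¹ ∈ A) := by
      rintro A hA hyA ⟨h3, h4⟩
      apply hyA
      refine hA₂ (A.comap (algebraMap K M)) (fun c => ?_) h3 h4
      change algebraMap K M (algebraMap k K c) ∈ A
      rw [← IsScalarTower.algebraMap_apply]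
      exact hA c
    have hlocy : ∀ (v : HeightOneSpectrum (𝓞 k))
        (ι : AlgebraicClosure k →ₐ[k] AlgebraicClosure (v.adicCompletion k))
        (A : ValuationSubring M) (φ : A →+* AlgebraicClosure (v.adicCompletion k)),
        Sel.IsPlaceOf s (v.adicCompletion k)
          (ι : _ →+* AlgebraicClosure (v.adicCompletion k)) A φ → algebraMap K M y₂ ∉ A := by
      intro v ι A φ h hyA
      have := hloc0 v
      obtain ⟨A', π, h1, h2⟩ := hup h
      apply key v ι A' π h1
      rw [IsScalarTower.algebraMap_apply K M (AlgebraicClosure M), h2]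
      exact hyA
    refine ⟨fun v ι A φ h => hno A (fun c => ?_) (hlocy v ι A φ h), ?_⟩
    · rw [IsScalarTower.algebraMap_apply k (AlgebraicClosure k) M]
      exact (h.1 _).1
    -- the function `y₂`
    have hy₂t : Transcendental k y₂ := by
      intro h
      apply hxt₂
      obtain ⟨c, hc, hc'⟩ : IsAlgebraic k (y₂ ^ 2) := h.pow 2
      rw [hxy₂, ← aeval_comp] at hc'
      refine ⟨c.comp f₂, fun h0 => hc ?_, hc'⟩
      rcases comp_eq_zero_iff.1 h0 with h1 | ⟨-, h1⟩
      · exact h1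
      · exfalso
        have h2 : f₂.natDegree = 0 := by rw [h1, natDegree_C]
        omega
    have hy₂0 : y₂ ≠ 0 := by
      rintro rfl
      exact hy₂t (isAlgebraic_zero)
    have hfdim₂ : FiniteDimensional (adjoin k {y₂}) K := by
      exact finite_of_fg htr R hRn hfg (hRn _ hy₂R) hy₂t
    have hfdimx₂ : FiniteDimensional (adjoin k {x₂}) K := by
      exact finite_of_fg htr R hRn hfg (hRn _ hx₂R) hxt₂
    have hun : ∀ Ψ : integralClosure R M →+* AlgebraicClosure k, Pt.IsPt R M (AlgebraicClosure k) Ψ →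
        ∀ g : Gal(M/K), (∀ b b' : integralClosure R M, (b' : M) = g b → Ψ b' = Ψ b) → g = 1 :=
      fun Ψ hΨ g hg => Pt.unram_of_max R hMp Ψ hΨ g hg
    have hfree : ∀ A ≤ geomGroup K M (AlgebraicClosure k),
        OpenIn (geomGroup K M (AlgebraicClosure k)) A → ∀ (ℓ : ℕ) [Fact ℓ.Prime],
        Finite (A →ₜ* Multiplicative (ZMod ℓ)) ∧
        ∀ f : A →ₜ* Multiplicative (ZMod ℓ), ∃ F : A →ₜ* Multiplicative ℤ_[ℓ], ∀ a,
          PadicInt.toZMod (F a).toAdd = (f a).toAdd := by
      intro B hBN hBo ℓ hℓ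
      obtain ⟨O, hO, hON⟩ := hBo
      exact Pt.fin_lift (k := k) y₂ hy₂t R (hRn _ hy₂R) hfg (fun Ψ hΨ g _ h => hun Ψ hΨ g h) hmax _
        (fun g => Iff.rfl) B hBN O hO hON ℓ
    have hint : ∀ z : K, IsIntegral R z → IsIntegral R (algebraMap K M z) := by
      intro z hz
      have htow : IsScalarTower R K M := IsScalarTower.of_algebraMap_eq fun r => rfl
      exact hz.algebraMap
    have hroot : ∀ n : ℕ, 0 < n → ∃ β : M, β ^ n = algebraMap K M y₂ := fun n hn =>
      Full.root_of_unit hmax _ (hint _ hy₂R) (by rw [← map_inv₀]; exact hint _ hy₂R') n hn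
    obtain ⟨Δ, W, hΔ, hW, hyW, hst⟩ := cusp_core y₂ hy₂t hroot hfree s hs hsec ∅ fun v _ => by
      obtain ⟨ι, A, φ, h⟩ := hloc v
      exact ⟨ι, A, φ, h, hlocy v ι A φ h⟩
    have hy₂M : Transcendental (AlgebraicClosure k) (algebraMap K M y₂) :=
      Pt.PTAux.transc (k := k) y₂ hy₂t
    have halgM : ∀ z : M, IsAlgebraic
        (adjoin (AlgebraicClosure k) {algebraMap K M y₂}) z := Full.isAlgebraic_M (k := k) y₂
    have hres : ∀ z ∈ W, ∃ c : AlgebraicClosure k,
        W.valuation (z - algebraMap (AlgebraicClosure k) M c) < 1 := fun z hz =>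
      Pt.MaxOver.residue_const _ hy₂M halgM W hW (fun h => hyW (by
        rw [h]; exact ValuationSubring.mem_top _)) z hz
    have hnoW := hno W (fun c => by
      rw [IsScalarTower.algebraMap_apply k (AlgebraicClosure k) M]
      exact hW _) hyW
    by_cases htop : adjoin k {x, y} = ⊤
    · -- the place is rational
      have htop₂ : adjoin k {x₂, y₂} = ⊤ := by
        rw [eq_top_iff, ← htop, adjoin_le_iff]
        rintro z (rfl | hz)
        · exact hxm
        · rw [Set.mem_singleton_iff] at hz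
          rw [hz]
          exact hym
      have hall : ∀ σ ∈ (⊤ : Subgroup Gal(AlgebraicClosure k/k)), ∀ z : M, z ∈ W ↔ s σ z ∈ W := by
        intro σ _
        let W' : ValuationSubring M := W.comap (s σ : M →+* M)
        have hW' : ∀ z, z ∈ W' ↔ s σ z ∈ W := fun z => Iff.rfl
        let Δ' : Subgroup Gal(AlgebraicClosure k/k) := Δ.comap (MulAut.conj σ).toMonoidHom
        have hΔ' : IsOpen (Δ' : Set Gal(AlgebraicClosure k/k)) := by
          refine hΔ.preimage ?_
          change Continuous fun x => σ * x * σ⁻¹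
          fun_prop
        have h1 : W' = W := by
          refine cusp_unique hf₂ hfd₂ hxt₂ hxy₂ htop₂ R hx₂R hy₂R hy₂R' hmax hfree hs hsec
            (Δ := Δ ⊓ Δ') (hΔ.inter hΔ') hW (fun a => ?_) hyW (fun h => hyW ?_)
            (fun τ hτ => hst τ hτ.1) fun τ hτ z => ?_
          · rw [hW', hsec]
            exact hW _
          · rw [hW', (s σ).commutes] at h
            exact h
          · rw [hW', hW']
            have h2 : σ * τ * σ⁻¹ ∈ Δ := hτ.2
            rw [hst _ h2]
            have h3 : s (σ * τ * σ⁻¹) (s σ z) = s σ (s τ z) := by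
              rw [← AlgEquiv.mul_apply, ← AlgEquiv.mul_apply, ← map_mul, ← map_mul,
                inv_mul_cancel_right]
            rw [h3]
        intro z
        rw [← hW', h1]
      obtain ⟨ψ, hO, hR, -⟩ := exists_res W hW hres hsec hall
      refine ⟨⊤, W, ψ, isOpen_univ, hO, hR, hnoW, fun _ => ⟨rfl, fun A₁ ψ₁ hO₁ hR₁ => ?_⟩⟩
      obtain ⟨v⟩ := nonempty_primes k
      obtain ⟨ι, -, -, -⟩ := hloc v
      refine cusp_unique hf₂ hfd₂ hxt₂ hxy₂ htop₂ R hx₂R hy₂R hy₂R' hmax hfree hs hsec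
        (Δ := ⊤) isOpen_univ hW (fun a => (hO₁.1 a).1) hyW
        (hlocy v ι A₁ _ (isPlaceOf_of_on hO₁ hR₁ v ι)) hall fun σ hσ z => ⟨fun h => ?_, fun h => ?_⟩
      · exact (hR₁ σ hσ ⟨z, h⟩).1
      · have h3 := (hR₁ σ⁻¹ (inv_mem hσ) ⟨_, h⟩).1
        have h4 : s σ⁻¹ (s σ z) = z := by
          rw [← AlgEquiv.mul_apply, ← map_mul, inv_mul_cancel, map_one, AlgEquiv.one_apply]
        rw [← h4]
        exact h3
    · obtain ⟨ψ, hO, hR, -⟩ := exists_res W hW hres hsec hst
      exact ⟨Δ, W, ψ, hΔ, hO, hR, hnoW, fun h => absurd h htop⟩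

end Pool.Agent.Lib.MP_2f3286_ag.HYP
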