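import Pool.Agent.Lib.MP_2f3286_ag.HYP.AFNei
import Pool.Agent.Lib.MP_2f3286_ag.HYP.CvUni
import Pool.Agent.Lib.MP_2f3286_ag.HYP.CvAgr

/-!
# Places of a section over a number field and a quadratic extension
-/

open Polynomial IsDedekindDomain NumberField
open scoped WithZero

noncomputable section

namespace Pool.Agent.Lib.MP_2f3286_ag.HYP

open Pool.Agent.Lib.MP_2f3286_ag.Pt Pool.Agent.Lib.MP_2f3286_ag.SNeigh
  Pool.Agent.Lib.MP_2f3286_ag.SFull Pool.Agent.Lib.MP_2f3286_ag.Koe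

universe u v

/-- the residue map over `kb` is unique -/
theorem isOver_unique {M kb : Type*} [Field M] [Field kb] [Algebra kb M] {A : ValuationSubring M}
    {ψ ψ' : A →+* kb} (h : IsOver A ψ) (h' : IsOver A ψ') (z : A) : ψ' z = ψ z := by
  obtain ⟨h1, h2⟩ := h.1 (ψ z)
  obtain ⟨h3, h4⟩ := h'.1 (ψ z)
  by_contra hne
  have h5 : ψ' (z - ⟨_, h3⟩) ≠ 0 := by
    rw [map_sub, h4]
    exact sub_ne_zero.2 hne
  have h6 := h'.2 _ h5
  have h7 : ψ (z - ⟨_, h1⟩) = 0 := by rw [map_sub, h2, sub_self]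
  have h8 : ψ ((z - ⟨_, h1⟩) * ⟨_, h6⟩) = 1 := by
    rw [← map_one ψ]
    congr 1
    apply Subtype.ext
    refine mul_inv_cancel₀ fun h0 => h5 ?_
    rw [show (z - ⟨_, h3⟩ : A) = 0 from Subtype.ext h0, map_zero]
  rw [map_mul, h7, zero_mul] at h8
  exact zero_ne_one h8

section

variable {k kb K M : Type*} [Field k] [Field kb] [Algebra k kb] [Field K] [Field M]
  [Algebra K M] [Algebra kb M] {s : Gal(kb/k) →* Gal(M/K)}

omit [Algebra kb M] in
theorem inv_apply_self (σ : Gal(kb/k)) (z : M) : s σ⁻¹ (s σ z) = z := by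
  rw [← AlgEquiv.mul_apply, ← map_mul, inv_mul_cancel, map_one, AlgEquiv.one_apply]

omit [Algebra kb M] in
theorem self_apply_inv (σ : Gal(kb/k)) (z : M) : s σ (s σ⁻¹ z) = z := by
  rw [← AlgEquiv.mul_apply, ← map_mul, mul_inv_cancel, map_one, AlgEquiv.one_apply]

/-- a place which is preserved by the section -/
theorem resOn_of_stab (hsec : ∀ σ a, s σ (algebraMap kb M a) = algebraMap kb M (σ a))
    {A : ValuationSubring M} {ψ : A →+* kb} (h : IsOver A ψ) {Δ : Subgroup Gal(kb/k)}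
    (hst : ∀ σ ∈ Δ, ∀ z ∈ A, s σ z ∈ A) : ResOn s A ψ Δ := by
  intro σ hσ z
  refine ⟨hst σ hσ z z.2, ?_⟩
  let g : A →+* A := ((s σ : M →+* M).comp A.subtype).codRestrict A (fun z => hst σ hσ z z.2)
  have hO : IsOver A (((σ⁻¹ : Gal(kb/k)) : kb →+* kb).comp (ψ.comp g)) := by
    refine ⟨fun a => ?_, fun x hx => ?_⟩
    · obtain ⟨h1, -⟩ := h.1 a
      obtain ⟨h3, h4⟩ := h.1 (σ a)
      refine ⟨h1, ?_⟩
      have h5 : g ⟨_, h1⟩ = ⟨_, h3⟩ := Subtype.ext (hsec σ a)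
      change σ⁻¹ (ψ (g ⟨_, h1⟩)) = a
      rw [h5, h4]
      exact σ.symm_apply_apply a
    · have h1 : ψ (g x) ≠ 0 := by
        intro h0
        apply hx
        change σ⁻¹ (ψ (g x)) = 0
        rw [h0, map_zero]
      have h2 := h.2 _ h1
      have h3 := hst σ⁻¹ (inv_mem hσ) _ h2
      have h4 : s σ⁻¹ ((s σ (x : M))⁻¹) = (x : M)⁻¹ := by
        rw [map_inv₀, inv_apply_self]
      rw [← h4]
      exact h3
  have h1 := isOver_unique h hO z
  change σ⁻¹ (ψ (g z)) = ψ z at h1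
  rw [← h1]
  exact (σ.apply_symm_apply _).symm

/-- the place over `k` -/
theorem isPlaceOf_of_resOn {A : ValuationSubring M} {ψ : A →+* kb} (h : IsOver A ψ)
    (hr : ResOn s A ψ ⊤) : Sel.IsPlaceOf s k (RingHom.id _) A ψ := by
  refine ⟨h.1, h.2, fun σ τ hστ z => ?_⟩
  obtain ⟨h1, h2⟩ := hr σ (Subgroup.mem_top σ) z
  exact ⟨h1, h2.trans (hστ _)⟩

theorem resOn_of_isPlaceOf {A : ValuationSubring M} {ψ : A →+* kb}
    (h : Sel.IsPlaceOf s k (RingHom.id _) A ψ) : IsOver A ψ ∧ ResOn s A ψ ⊤ :=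
  ⟨⟨h.1, h.2.1⟩, fun σ _ z => h.2.2 σ σ (fun _ => rfl) z⟩

end

/-- a number field with one infinite place is stable under the automorphisms over a subfield -/
theorem exists_base {k : Type u} [Field k] [NumberField k]
    {F : Type v} [Field F] [NumberField F] [Algebra k F]
    [Algebra F (AlgebraicClosure k)] [IsScalarTower k F (AlgebraicClosure k)]
    (hinf : Fintype.card (InfinitePlace F) = 1) (τ : Gal(AlgebraicClosure k/k)) (a : F) :
    ∃ b : F, τ (algebraMap F _ a) = algebraMap F _ b := by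
  classical
  have hfin : FiniteDimensional k F := FiniteDimensional.right ℚ k F
  have h1 := InfinitePlace.card_eq_nrRealPlaces_add_nrComplexPlaces (K := F)
  have h2 := InfinitePlace.card_add_two_mul_card_eq_rank (K := F)
  have h3 : Module.finrank ℚ k * Module.finrank k F = Module.finrank ℚ F :=
    Module.finrank_mul_finrank ℚ k F
  have h4 : 0 < Module.finrank ℚ k := Module.finrank_pos
  have h5 : 0 < Module.finrank k F := Module.finrank_pos
  have h6 : Module.finrank k F ≤ 2 := by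
    have h7 : Module.finrank ℚ F ≤ 2 := by omega
    nlinarith
  by_cases h7 : Module.finrank k F = 1
  · have h8 : Function.Surjective (algebraMap k F) := by
      have h9 : (⊥ : Subalgebra k F) = ⊤ := Subalgebra.bot_eq_top_of_finrank_eq_one h7
      intro b
      have h10 : b ∈ (⊥ : Subalgebra k F) := by rw [h9]; exact Algebra.mem_top
      exact Algebra.mem_bot.1 h10
    obtain ⟨c, rfl⟩ := h8 a
    refine ⟨algebraMap k F c, ?_⟩
    rw [← IsScalarTower.algebraMap_apply, AlgEquiv.commutes]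
  · have h8 : Module.finrank k F = 2 := by omega
    have hq : Algebra.IsQuadraticExtension k F := { finrank_eq_two' := h8 }
    have hn : Normal k F := inferInstance
    exact ⟨AlgEquiv.restrictNormal τ F a, (AlgEquiv.restrictNormal_commutes τ F a).symm⟩

/-- a place which the section respects over `F` -/
theorem down_on {k kb K M F Fb : Type*} [Field k] [Field kb] [Algebra k kb] [Field K]
    [Field M] [Algebra K M] [Algebra kb M] [Field F] [Algebra k F] [Algebra F kb]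
    [IsScalarTower k F kb] [Field Fb] [Algebra F Fb] [Algebra Fb M] (e : Fb ≃ₐ[F] kb)
    (he : ∀ a, algebraMap Fb M a = algebraMap kb M (e a)) (s : Gal(kb/k) →* Gal(M/K))
    {L : Type*} [Field L] [Algebra L M]
    (hL : ∀ σ : Gal(kb/k), (∀ a : F, σ (algebraMap F _ a) = algebraMap F _ a) →
      ∀ x : L, s σ (algebraMap L M x) = algebraMap L M x)
    {A : ValuationSubring M} {ψ : A →+* kb} (h : IsOver A ψ) {Δ : Subgroup Gal(kb/k)}
    (hr : ResOn s A ψ Δ)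
    (hΔ : ∀ σ : Gal(kb/k), (∀ a : F, σ (algebraMap F _ a) = algebraMap F _ a) → σ ∈ Δ) :
    IsOver A ((e.symm : kb →+* Fb).comp ψ) ∧
      ResOn (resS s e hL) A ((e.symm : kb →+* Fb).comp ψ) ⊤ := by
  refine ⟨⟨fun b => ?_, fun z hz => h.2 z fun h0 => hz ?_⟩, fun τ _ z => ?_⟩
  · obtain ⟨h1, h2⟩ := h.1 (e b)
    have h3 : algebraMap Fb M b ∈ A := by rw [he]; exact h1
    refine ⟨h3, ?_⟩
    have h4 : (⟨algebraMap Fb M b, h3⟩ : A) = ⟨_, h1⟩ := Subtype.ext (he b)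
    rw [h4]
    change e.symm (ψ ⟨_, h1⟩) = b
    rw [h2, e.symm_apply_apply]
  · change e.symm (ψ z) = 0
    rw [h0, map_zero]
  · obtain ⟨h1, h2⟩ := hr (resG e τ) (hΔ _ (resG_fix e τ)) z
    refine ⟨h1, ?_⟩
    change e.symm (ψ ⟨s (resG e τ) z, h1⟩) = τ (e.symm (ψ z))
    rw [h2, resG_apply, e.symm_apply_apply]

/-- a conjugate of a place is respected on the conjugate subgroup -/
theorem resOn_conj {k kb K M : Type*} [Field k] [Field kb] [Algebra k kb] [Field K] [Field M]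
    [Algebra K M] [Algebra kb M] {s : Gal(kb/k) →* Gal(M/K)} {A₀ A₁ : ValuationSubring M}
    {ψ₀ : A₀ →+* kb} {ψ₁ : A₁ →+* kb} {σ : Gal(kb/k)} (p2 : ∀ x, x ∈ A₁ ↔ (s σ)⁻¹ x ∈ A₀)
    (p3 : ∀ (x : M) (h₁ : x ∈ A₁) (h₂ : (s σ)⁻¹ x ∈ A₀), ψ₁ ⟨x, h₁⟩ = σ (ψ₀ ⟨_, h₂⟩))
    {Δ Δ' : Subgroup Gal(kb/k)} (hr : ResOn s A₀ ψ₀ Δ) (hΔ : ∀ τ ∈ Δ', σ⁻¹ * τ * σ ∈ Δ) :
    ResOn s A₁ ψ₁ Δ' := by
  intro τ hτ y
  have hy : (s σ)⁻¹ (y : M) ∈ A₀ := (p2 _).mp y.2
  obtain ⟨h3, h4⟩ := hr _ (hΔ τ hτ) ⟨_, hy⟩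
  have h5 : (s σ)⁻¹ (s τ y) = s (σ⁻¹ * τ * σ) ((s σ)⁻¹ (y : M)) := by
    rw [← AlgEquiv.mul_apply, ← AlgEquiv.mul_apply, map_mul, map_mul, map_inv]
    congr 1
    group
  have h6 : (s σ)⁻¹ (s τ y) ∈ A₀ := by rw [h5]; exact h3
  have h7 : s τ y ∈ A₁ := (p2 _).mpr h6
  refine ⟨h7, ?_⟩
  rw [p3 _ h7 h6, p3 _ y.2 hy]
  have h8 : (⟨(s σ)⁻¹ (s τ y), h6⟩ : A₀) = ⟨_, h3⟩ := Subtype.ext h5
  rw [h8, h4, ← AlgEquiv.mul_apply, ← AlgEquiv.mul_apply]
  congr 1
  group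

end Pool.Agent.Lib.MP_2f3286_ag.HYP
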