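import Pool.Agent.Lib.MP_2f3286_ag.HYP.CvNei
import Pool.Agent.Lib.MP_2f3286_ag.HYP.CvGeo

/-!
# Sections above an odd hyperelliptic curve are geometric or cuspidal if they are so locally
-/

open Polynomial IsDedekindDomain NumberField
open scoped WithZero

noncomputable section

namespace Pool.Agent.Lib.MP_2f3286_ag.HYP

open Pool.Agent.Lib.MP_2f3286_ag.Pt Pool.Agent.Lib.MP_2f3286_ag.SNeigh
  Pool.Agent.Lib.MP_2f3286_ag.SFull Pool.Agent.Lib.MP_2f3286_ag.Koe

universe u v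

/-- a place over `k` is a place over the completions of `F` -/
theorem isPlaceOf_comp {k kb K M E Eb : Type*} [Field k] [Field kb] [Algebra k kb] [Field K]
    [Field M] [Algebra K M] [Algebra kb M] [Field E] [Field Eb] [Algebra E Eb]
    {s : Gal(kb/k) →* Gal(M/K)} {A : ValuationSubring M} {ψ : A →+* kb}
    (h : Sel.IsPlaceOf s k (RingHom.id _) A ψ) (ι : kb →+* Eb) :
    Sel.IsPlaceOf s E ι A (ι.comp ψ) := by
  refine ⟨fun b => ?_, fun x hx => h.2.1 x fun h0 => hx ?_, fun σ τ hστ x => ?_⟩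
  · obtain ⟨h1, h2⟩ := h.1 b
    exact ⟨h1, congrArg ι h2⟩
  · change ι (ψ x) = 0
    rw [h0, map_zero]
  · obtain ⟨h1, h2⟩ := h.2.2 σ σ (fun _ => rfl) x
    refine ⟨h1, ?_⟩
    change ι (ψ ⟨s σ x, h1⟩) = τ (ι (ψ x))
    rw [h2]
    exact hστ _

/-- a place which the section respects on an open subgroup is a place over a finite extension -/
theorem exists_field {k kb K M : Type*} [Field k] [Field kb] [Algebra k kb] [Field K]
    [Field M] [Algebra K M] [Algebra kb M] {s : Gal(kb/k) →* Gal(M/K)} {A : ValuationSubring M}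
    {ψ : A →+* kb} (h : IsOver A ψ) {Δ : Subgroup Gal(kb/k)} (hΔ : IsOpen (Δ : Set Gal(kb/k)))
    (hr : ResOn s A ψ Δ) :
    ∃ E : IntermediateField k kb, FiniteDimensional k E ∧
      Sel.IsPlaceOf s E (RingHom.id _) A ψ := by
  obtain ⟨L, hLfin, hL⟩ := (krullTopology_mem_nhds_one_iff k _ _).mp (hΔ.mem_nhds (one_mem Δ))
  refine ⟨L, hLfin, h.1, h.2, fun σ τ hστ z => ?_⟩
  have h1 : σ ∈ L.fixingSubgroup := by
    rw [IntermediateField.mem_fixingSubgroup_iff]
    intro a ha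
    exact (hστ a).trans (τ.commutes ⟨a, ha⟩)
  obtain ⟨h2, h3⟩ := hr σ (hL h1) z
  exact ⟨h2, h3.trans (hστ _)⟩

/-- there is a transcendental function on `U` -/
theorem exists_transc {k : Type u} [Field k] [NumberField k]
    {F : Type v} [Field F] [NumberField F] [Algebra k F]
    [Algebra F (AlgebraicClosure k)] [IsScalarTower k F (AlgebraicClosure k)]
    {K : Type*} [Field K] [Algebra k K] (R : Subalgebra k K)
    {M : Type*} [Field M] [Algebra K M]
    [Algebra (AlgebraicClosure k) M] [Algebra k M]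
    [IsScalarTower k K M] [IsScalarTower k (AlgebraicClosure k) M]
    [Algebra F M] [IsScalarTower F (AlgebraicClosure k) M]
    (s : Gal(AlgebraicClosure k/k) →* Gal(M/K))
    (hsec : ∀ σ a, s σ (algebraMap (AlgebraicClosure k) M a) =
      algebraMap (AlgebraicClosure k) M (σ a))
    {x : M} (hxs : x ∈ fixF s F) (hx : ∀ c : F, x ≠ algebraMap F M c) (hxR : IsIntegral R x) :
    ∃ t : K, t ∈ R ∧ Transcendental k t := by
  have hfin : FiniteDimensional k F := FiniteDimensional.right ℚ k F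
  have hFk : Algebra.IsAlgebraic F (AlgebraicClosure k) :=
    Algebra.IsAlgebraic.tower_top (K := k) F
  have : IsAlgClosure F (AlgebraicClosure k) := ⟨inferInstance, inferInstance⟩
  let e : AlgebraicClosure F ≃ₐ[F] AlgebraicClosure k :=
    IsAlgClosure.equiv F (AlgebraicClosure F) (AlgebraicClosure k)
  have t3 : IsScalarTower k F M := IsScalarTower.of_algebraMap_eq fun a => by
    rw [IsScalarTower.algebraMap_apply F (AlgebraicClosure k) M,
      ← IsScalarTower.algebraMap_apply k F (AlgebraicClosure k),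
      ← IsScalarTower.algebraMap_apply k (AlgebraicClosure k) M]
  have hxt : Transcendental F x := const_of_fixF s hsec e hxs hx
  have hxtk : Transcendental k x := fun h => hxt (h.tower_top F)
  by_contra hcon
  push Not at hcon
  apply hxtk
  have h1 : Algebra.IsAlgebraic k R := ⟨fun r => by
    have h2 := hcon r r.2
    rw [Transcendental, not_not] at h2
    exact (isAlgebraic_algebraMap_iff (R := k) (S := R) (A := K) Subtype.val_injective).1 h2⟩
  have h3 : IsScalarTower k R M := IsScalarTower.of_algebraMap_eq fun a => by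
    rw [IsScalarTower.algebraMap_apply k K M]; rfl
  exact IsAlgebraic.restrictScalars k (hxR.isAlgebraic)

/-- **The theorem**: with a neighbourhood over `F` mapping to the curve, a section that is everywhere
locally geometric or cuspidal is geometric or cuspidal. -/
theorem geo_or_cusp {k : Type u} [Field k] [NumberField k]
    {F : Type v} [Field F] [NumberField F] [Algebra k F]
    [Algebra F (AlgebraicClosure k)] [IsScalarTower k F (AlgebraicClosure k)]
    (hinf : Fintype.card (InfinitePlace F) = 1)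
    {f : F[X]} (hf : f.Monic) (hfs : f.Separable) {g : ℕ} (hg : 1 ≤ g)
    (hfd : f.natDegree = 2 * g + 1) {Q : Prop} (hS : SelTorR F f Q)
    {K : Type*} [Field K] [Algebra k K] (htr : Algebra.trdeg k K = 1)
    (R : Subalgebra k K)
    {M : Type*} [Field M] [Algebra K M] [IsGalois K M]
    [Algebra (AlgebraicClosure k) M] [Algebra k M]
    [IsScalarTower k K M] [IsScalarTower k (AlgebraicClosure k) M]
    [Algebra F M] [IsScalarTower F (AlgebraicClosure k) M]
    (s : Gal(AlgebraicClosure k/k) →* Gal(M/K)) (hs : Continuous s)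
    (hsec : ∀ σ a, s σ (algebraMap (AlgebraicClosure k) M a) =
      algebraMap (AlgebraicClosure k) M (σ a))
    {x y : M} (hfix : ∀ σ : Gal(AlgebraicClosure k/k),
      (∀ a : F, σ (algebraMap F _ a) = algebraMap F _ a) → s σ x = x ∧ s σ y = y)
    (hx : ∀ c : F, x ≠ algebraMap F M c) (hxy : y ^ 2 = aeval x f)
    (hM : (IsAlgClosed M ∧ R = ⊥) ∨
      (R.FG ∧ (∀ h : K, IsIntegral R h → h ∈ R) ∧ IsIntegral R x ∧ IsIntegral R y ∧
        IsIntegral R y⁻¹ ∧ IsMaxUnramOver R K M (AlgebraicClosure k) ∧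
        (∀ w : HeightOneSpectrum (𝓞 F),
          ∃ (ι : AlgebraicClosure k →ₐ[F] AlgebraicClosure (w.adicCompletion F))
            (A : ValuationSubring M) (φ : A →+* AlgebraicClosure (w.adicCompletion F)),
            Sel.IsPlaceOf s (w.adicCompletion F)
              (ι : _ →+* AlgebraicClosure (w.adicCompletion F)) A φ ∧
            (x ∈ A → y⁻¹ ∈ A → ∀ r : R, algebraMap K M r ∈ A)) ∧
        (Q → ∀ τ : AlgebraicClosure k →+* ℂ,
          (∀ a : F, starRingEnd ℂ (τ (algebraMap F _ a)) = τ (algebraMap F _ a)) →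
          ∃ (A : ValuationSubring M) (φ : A →+* ℂ), Sel.IsPlaceOf s ℝ τ A φ))) :
    ∃ (A₀ : ValuationSubring M) (ψ₀ : A₀ →+* AlgebraicClosure k),
      (((∀ r : R, algebraMap K M r ∈ A₀) ∧ Sel.IsSectionAt s A₀ ψ₀ ∧
        (∀ (A₁ : ValuationSubring M) (ψ₁ : A₁ →+* AlgebraicClosure k), Sel.IsSectionAt s A₁ ψ₁ →
          (∀ (r : R) (h₀ : algebraMap K M r ∈ A₀), ∃ h₁ : algebraMap K M r ∈ A₁,
            InD R F x y r ∨ ψ₁ ⟨_, h₁⟩ = ψ₀ ⟨_, h₀⟩) →
          A₁ = A₀ ∧ ∀ (a : A₁) (b : A₀), (a : M) = b → ψ₁ a = ψ₀ b) ∧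
        (∀ h : K, algebraMap K M h ∈ A₀ → InD R F x y h → HasValOver s R F A₀ ψ₀ h) ∧
        ((∀ r : R, InD R F x y r) → Sel.IsPlaceOf s k (RingHom.id _) A₀ ψ₀)) ∨
      (R ≠ ⊥ ∧ ¬ (x ∈ A₀ ∧ y⁻¹ ∈ A₀) ∧
        ∃ E : IntermediateField k (AlgebraicClosure k), FiniteDimensional k E ∧
          Sel.IsPlaceOf s E (RingHom.id _) A₀ ψ₀)) ∧
      (∀ (w : HeightOneSpectrum (𝓞 F))
        (ι : AlgebraicClosure k →ₐ[F] AlgebraicClosure (w.adicCompletion F))
        (A : ValuationSubring M) (φ : A →+* AlgebraicClosure (w.adicCompletion F)),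
        Sel.IsPlaceOf s (w.adicCompletion F)
          (ι : _ →+* AlgebraicClosure (w.adicCompletion F)) A φ →
        (x ∈ A ∧ y⁻¹ ∈ A ↔ x ∈ A₀ ∧ y⁻¹ ∈ A₀)) ∧
      ((IsAlgClosed M ∧ R = ⊥ ∨
          ∀ z : K, algebraMap K M z ∈ IntermediateField.adjoin F {x, y}) →
        Sel.IsPlaceOf s k (RingHom.id _) A₀ ψ₀ ∧
        ∀ (A₁ : ValuationSubring M) (ψ₁ : A₁ →+* AlgebraicClosure k),
          Sel.IsPlaceOf s k (RingHom.id _) A₁ ψ₁ →
          A₁ = A₀ ∧ ∀ (a : A₁) (b : A₀), (a : M) = b → ψ₁ a = ψ₀ b) := by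
  classical
  have hxs : x ∈ fixF s F := fun σ hσ => (hfix σ hσ).1
  have hys : y ∈ fixF s F := fun σ hσ => (hfix σ hσ).2
  rcases hM with ⟨hcl, rfl⟩ | ⟨hfg, hRn, hxR, hyR, hyR', hM, hloc, hre⟩
  · -- function fields
    obtain ⟨A₀, ψ₀, h1, h2, h3, h4, h5⟩ := nbhd_of_selTor hinf hf hfs hg hfd hS htr ⊥ s hs hsec hfix
      hx hxy (Or.inl ⟨hcl, rfl⟩)
    have h6 : Sel.IsPlaceOf s k (RingHom.id _) A₀ ψ₀ := h5 fun _ => Or.inl hcl
    refine ⟨A₀, ψ₀, Or.inl ⟨h1, h2, h3, h4, h5⟩, fun w ι A φ hφ => ?_, fun _ => ⟨h6,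
      fun A₁ ψ₁ h => MP_2f3286_bir.place_unique s hs h6 h⟩⟩
    obtain ⟨h7, -⟩ := local_unique_over htr s hs hsec hxs hx h6 w ι A φ hφ
    rw [h7]
  -- affine curves
  obtain ⟨t, htR, ht⟩ := exists_transc (F := F) R s hsec hxs hx hxR
  have hRbot : R ≠ ⊥ := by
    rintro rfl
    obtain ⟨c, rfl⟩ := Algebra.mem_bot.1 htR
    exact ht (isAlgebraic_algebraMap c)
  rcases over_dich hinf hf hfs hg hfd hS htr R hfg hRn hM s hs hsec hxs hys hx hxy hxR hyR hyR'
    (fun w => by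
      obtain ⟨ι, A, φ, h, -⟩ := hloc w
      exact ⟨ι, A, φ, h⟩) hre with key | ⟨key, A₀, ψ₀, Δ, hO, hΔ, hr, hno, hK⟩
  · have hloc' : ∀ w : HeightOneSpectrum (𝓞 F),
        ∃ (ι : AlgebraicClosure k →ₐ[F] AlgebraicClosure (w.adicCompletion F))
          (A : ValuationSubring M) (φ : A →+* AlgebraicClosure (w.adicCompletion F)),
          IsPointOn s R (w.adicCompletion F)
            (ι : _ →+* AlgebraicClosure (w.adicCompletion F)) A φ := by
      intro w
      obtain ⟨ι, A, φ, h, h'⟩ := hloc w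
      obtain ⟨h3, h4⟩ := key w ι A φ h
      exact ⟨ι, A, φ, h, h' h3 h4⟩
    obtain ⟨A₀, ψ₀, h1, h2, h3, h4, h5⟩ := nbhd_of_selTor hinf hf hfs hg hfd hS htr R s hs hsec hfix
      hx hxy (Or.inr ⟨hfg, hRn, hxR, hyR, hyR', hM, hloc', hre⟩)
    have hy0 : y ≠ 0 := by
      rintro rfl
      have hfin : FiniteDimensional k F := FiniteDimensional.right ℚ k F
      have hFk : Algebra.IsAlgebraic F (AlgebraicClosure k) :=
        Algebra.IsAlgebraic.tower_top (K := k) F
      have : IsAlgClosure F (AlgebraicClosure k) := ⟨inferInstance, inferInstance⟩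
      let e : AlgebraicClosure F ≃ₐ[F] AlgebraicClosure k :=
        IsAlgClosure.equiv F (AlgebraicClosure F) (AlgebraicClosure k)
      rw [zero_pow two_ne_zero] at hxy
      exact const_of_fixF s hsec e hxs hx ⟨f, hf.ne_zero, hxy.symm⟩
    have hu : ∀ (A₁ : ValuationSubring M) (ψ₁ : A₁ →+* AlgebraicClosure k),
        Sel.IsSectionAt s A₁ ψ₁ →
        (∀ (r : R) (h₀ : algebraMap K M r ∈ A₀), ∃ h₁ : algebraMap K M r ∈ A₁,
          algebraMap K M r ∈ unitRing R M ∨ ψ₁ ⟨_, h₁⟩ = ψ₀ ⟨_, h₀⟩) →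
        A₁ = A₀ ∧ ∀ (a : A₁) (b : A₀), (a : M) = b → ψ₁ a = ψ₀ b := fun A₁ ψ₁ h h' =>
      h3 A₁ ψ₁ h fun r h₀ => (h' r h₀).imp fun h₁ => Or.imp_left fun h => Or.inr (Or.inr h)
    have htow : IsScalarTower R K M := IsScalarTower.of_algebraMap_eq fun r => rfl
    have hB : ∀ z : M, IsIntegral R z → z ∈ A₀ := fun z hz =>
      PTAux.mem_of_isIntegral (R := R) h1 hz
    refine ⟨A₀, ψ₀, Or.inl ⟨h1, h2, h3, h4, h5⟩, fun w ι A φ hφ =>
      ⟨fun _ => ⟨hB _ hxR, hB _ hyR'⟩, fun _ => key w ι A φ hφ⟩, fun hK => ?_⟩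
    replace hK := hK.resolve_left fun h => hRbot h.2
    have hd : f.natDegree ≠ 0 := by omega
    refine ⟨geo_rational hd htr R hfg hRn t htR ht hM s hs hsec hxy hy0 hxR hyR hyR' hK h1 h2 hu,
      fun A₁ ψ₁ h => ?_⟩
    obtain ⟨q1, q2⟩ := resOn_of_isPlaceOf h
    obtain ⟨w⟩ := nonempty_primes F
    obtain ⟨ι, -, -, -⟩ := hloc w
    obtain ⟨q3, q4⟩ := key w ι A₁ _ (isPlaceOf_comp h (ι : _ →+* AlgebraicClosure (w.adicCompletion F)))
    exact geo_unique hd htr R hfg hRn t htR ht hM s hs hsec hxy hy0 hxR hyR hyR' hK h1 h2 hu q1 ⊤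
      isOpen_univ q2 q3 q4
  · refine ⟨A₀, ψ₀, Or.inr ⟨hRbot, hno, exists_field hO hΔ hr⟩, fun w ι A φ hφ =>
      ⟨fun h => absurd h (key w ι A φ hφ), fun h => absurd h hno⟩, fun h => hK ?_⟩
    exact h.resolve_left fun h => hRbot h.2

end Pool.Agent.Lib.MP_2f3286_ag.HYP
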