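import Pool.Agent.Lib.MP_2f3286_ag.HYP.CvDesc

/-!
# Sections with a neighbourhood above an odd hyperelliptic curve, cusps allowed
-/

open Polynomial IsDedekindDomain NumberField
open scoped WithZero

noncomputable section

namespace Pool.Agent.Lib.MP_2f3286_ag.HYP

open Pool.Agent.Lib.MP_2f3286_ag.Pt Pool.Agent.Lib.MP_2f3286_ag.SNeigh
  Pool.Agent.Lib.MP_2f3286_ag.SFull Pool.Agent.Lib.MP_2f3286_ag.Koe

universe u v

/-- A finite extension of `K` in `M` generated by a finite extension `F` of `k` and finitely many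
elements. -/
theorem exists_gen {k K M F : Type*} [Field k] [Field K] [Field M] [Field F] [Algebra k K]
    [Algebra K M] [Algebra k M] [IsScalarTower k K M] [Algebra k F] [Algebra F M]
    [IsScalarTower k F M] [FiniteDimensional k F] [Algebra.IsAlgebraic K M]
    (L : IntermediateField K M) (hF : ∀ a : F, algebraMap F M a ∈ L) (x y : M) (hx : x ∈ L)
    (hy : y ∈ L) :
    ∃ L₁ : IntermediateField K M, L₁ ≤ L ∧ x ∈ L₁ ∧ y ∈ L₁ ∧ (∀ a : F, algebraMap F M a ∈ L₁) ∧
      FiniteDimensional K L₁ ∧ ((∀ z : K, algebraMap K M z ∈ IntermediateField.adjoin F {x, y}) →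
        ∀ z ∈ L₁, z ∈ IntermediateField.adjoin F {x, y}) := by
  classical
  let b := Module.finBasis k F
  let Z : Set M := Set.range (fun i => algebraMap F M (b i)) ∪ {x, y}
  have hZ : Z.Finite := (Set.finite_range _).union ((Set.finite_singleton _).insert _)
  refine ⟨IntermediateField.adjoin K Z, ?_, ?_, ?_, ?_, ?_, fun h z hz => ?_⟩
  · rw [IntermediateField.adjoin_le_iff]
    rintro w (⟨i, rfl⟩ | rfl | hw)
    · exact hF _
    · exact hx
    · rw [Set.mem_singleton_iff] at hw
      rw [hw]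
      exact hy
  · exact IntermediateField.subset_adjoin K Z (Or.inr (Or.inl rfl))
  · exact IntermediateField.subset_adjoin K Z (Or.inr (Or.inr rfl))
  · intro a
    rw [← b.sum_repr a, map_sum]
    refine sum_mem fun i _ => ?_
    rw [Algebra.smul_def, map_mul, ← IsScalarTower.algebraMap_apply,
      IsScalarTower.algebraMap_apply k K M]
    exact mul_mem (IntermediateField.algebraMap_mem _ _)
      (IntermediateField.subset_adjoin K Z (Or.inl ⟨i, rfl⟩))
  · have : Finite Z := hZ
    exact IntermediateField.finiteDimensional_adjoin fun x _ =>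
      (Algebra.IsAlgebraic.isAlgebraic x).isIntegral
  · have h1 : IntermediateField.adjoin K Z ≤
        (IntermediateField.adjoin F ({x, y} : Set M)).toSubfield.toIntermediateField h := by
      rw [IntermediateField.adjoin_le_iff]
      rintro w (⟨i, rfl⟩ | hw)
      · exact (IntermediateField.adjoin F ({x, y} : Set M)).algebraMap_mem (b i)
      · exact IntermediateField.subset_adjoin F _ hw
    exact h1 hz

/-- a place which the section over `F` respects on an open subgroup -/
theorem up_on {k : Type u} [Field k] [NumberField k] {K : Type*} [Field K]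
    {M : Type*} [Field M] [Algebra K M] [Algebra (AlgebraicClosure k) M]
    (s : Gal(AlgebraicClosure k/k) →* Gal(M/K))
    {F : Type v} [Field F] [NumberField F] [Algebra k F]
    [Algebra F (AlgebraicClosure k)] [IsScalarTower k F (AlgebraicClosure k)]
    (e : AlgebraicClosure F ≃ₐ[F] AlgebraicClosure k) [Algebra (AlgebraicClosure F) M]
    (he : ∀ a, algebraMap (AlgebraicClosure F) M a = algebraMap (AlgebraicClosure k) M (e a))
    {L : IntermediateField K M}
    (hL : ∀ σ : Gal(AlgebraicClosure k/k),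
      (∀ a : F, σ (algebraMap F _ a) = algebraMap F _ a) →
      ∀ x : L, s σ (algebraMap L M x) = algebraMap L M x)
    {A₀ : ValuationSubring M} {ψ : A₀ →+* AlgebraicClosure F} (h : IsOver A₀ ψ)
    (B : Subgroup Gal(AlgebraicClosure F/F)) (hB : IsOpen (B : Set Gal(AlgebraicClosure F/F)))
    (hres : ResOn (resS s e hL) A₀ ψ B) :
    IsOver A₀ ((e : _ →+* AlgebraicClosure k).comp ψ) ∧
      ∃ Δ : Subgroup Gal(AlgebraicClosure k/k), IsOpen (Δ : Set Gal(AlgebraicClosure k/k)) ∧
        ResOn s A₀ ((e : _ →+* AlgebraicClosure k).comp ψ) Δ ∧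
        (B = ⊤ → ∀ σ : Gal(AlgebraicClosure k/k),
          (∀ a : F, σ (algebraMap F _ a) = algebraMap F _ a) → σ ∈ Δ) := by
  have hfin : FiniteDimensional k F := FiniteDimensional.right ℚ k F
  obtain ⟨q1, q2⟩ := h
  have hgal : IsGalois F (AlgebraicClosure F) := IsAlgClosure.isGalois F _
  let E' : IntermediateField F (AlgebraicClosure F) := IntermediateField.fixedField B
  have hfix : E'.fixingSubgroup = B :=
    InfiniteGalois.fixingSubgroup_fixedField ⟨B, Subgroup.isClosed_of_isOpen B hB⟩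
  have hE' : FiniteDimensional F E' := by
    rw [← InfiniteGalois.isOpen_iff_finite, hfix]
    exact hB
  let E₁ : IntermediateField F (AlgebraicClosure k) := E'.map (e : _ →ₐ[F] AlgebraicClosure k)
  have hE₁ : FiniteDimensional F E₁ := LinearEquiv.finiteDimensional
    (E'.equivMap (e : _ →ₐ[F] AlgebraicClosure k)).toLinearEquiv
  let E₂ : IntermediateField k (AlgebraicClosure k) := E₁.restrictScalars k
  have hE₂ : FiniteDimensional k E₂ := by
    have h1 : FiniteDimensional k E₁ := FiniteDimensional.trans k F E₁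
    exact h1
  have hmem : ∀ x, x ∈ E₂ ↔ e.symm x ∈ E' := by
    intro x
    constructor
    · rintro ⟨y, hy, rfl⟩
      change e.symm (e y) ∈ E'
      rw [e.symm_apply_apply]
      exact hy
    · intro h
      exact ⟨e.symm x, h, e.apply_symm_apply x⟩
  refine ⟨⟨fun b => ?_, fun x hx => ?_⟩, E₂.fixingSubgroup,
    IntermediateField.fixingSubgroup_isOpen E₂, fun σ hσ x => ?_, fun hBt σ hσ => ?_⟩
  · obtain ⟨h1, h2⟩ := q1 (e.symm b)
    have h3 : algebraMap (AlgebraicClosure F) M (e.symm b) =
        algebraMap (AlgebraicClosure k) M b := by rw [he, e.apply_symm_apply]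
    refine ⟨h3 ▸ h1, ?_⟩
    have h4 : (⟨algebraMap (AlgebraicClosure k) M b, h3 ▸ h1⟩ : A₀) = ⟨_, h1⟩ :=
      Subtype.ext h3.symm
    rw [h4]
    change e (ψ ⟨_, h1⟩) = b
    rw [h2, e.apply_symm_apply]
  · refine q2 x fun h0 => hx ?_
    change e (ψ x) = 0
    rw [h0, _root_.map_zero]
  · rw [IntermediateField.mem_fixingSubgroup_iff] at hσ
    have hσF : ∀ a : F, σ (algebraMap F _ a) = algebraMap F _ a := by
      intro a
      apply hσ
      rw [hmem, AlgEquiv.commutes]
      exact E'.algebraMap_mem a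
    obtain ⟨τ, hτ, hτ'⟩ := resG_surj e σ hσF
    have h1 : τ ∈ B := by
      rw [← hfix, IntermediateField.mem_fixingSubgroup_iff]
      intro x hx
      rw [hτ', hσ (e x) (by rw [hmem, e.symm_apply_apply]; exact hx), e.symm_apply_apply]
    obtain ⟨h2, h3⟩ := hres τ h1 x
    have h4 : resS s e hL τ (x : M) = s σ x := by rw [resS_apply, hτ]
    refine ⟨h4 ▸ h2, ?_⟩
    have h5 : (⟨s σ x, h4 ▸ h2⟩ : A₀) = ⟨_, h2⟩ := Subtype.ext h4.symm
    rw [h5]
    change e (ψ ⟨_, h2⟩) = σ (e (ψ x))
    rw [h3, hτ', e.apply_symm_apply]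
  · rw [IntermediateField.mem_fixingSubgroup_iff]
    intro z hz
    rw [hmem] at hz
    have h1 : E' = ⊥ := by
      change IntermediateField.fixedField B = ⊥
      rw [hBt, ← IntermediateField.fixingSubgroup_bot]
      exact InfiniteGalois.fixedField_fixingSubgroup ⊥
    rw [h1, IntermediateField.mem_bot] at hz
    obtain ⟨a, ha⟩ := hz
    have h2 : z = algebraMap F _ a := by
      rw [← e.apply_symm_apply z, ← ha, AlgEquiv.commutes]
    rw [h2, hσ]

/-- **Affine curves with a neighbourhood over `F` mapping to the curve: the local places are all over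
the complement of the points where `y` is `0` or infinite, or the section is cuspidal.** -/
theorem over_dich {k : Type u} [Field k] [NumberField k]
    {F : Type v} [Field F] [NumberField F] [Algebra k F]
    [Algebra F (AlgebraicClosure k)] [IsScalarTower k F (AlgebraicClosure k)]
    (hinf : Fintype.card (InfinitePlace F) = 1)
    {f : F[X]} (hf : f.Monic) (hfs : f.Separable) {g : ℕ} (hg : 1 ≤ g)
    (hfd : f.natDegree = 2 * g + 1) {Q : Prop} (hS : SelTorR F f Q)
    {K : Type*} [Field K] [Algebra k K] (htr : Algebra.trdeg k K = 1)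
    (R : Subalgebra k K) (hfg : R.FG) (hRn : ∀ y : K, IsIntegral R y → y ∈ R)
    {M : Type*} [Field M] [Algebra K M] [IsGalois K M]
    [Algebra (AlgebraicClosure k) M] [Algebra k M]
    [IsScalarTower k K M] [IsScalarTower k (AlgebraicClosure k) M]
    [Algebra F M] [IsScalarTower F (AlgebraicClosure k) M]
    (hM : IsMaxUnramOver R K M (AlgebraicClosure k))
    (s : Gal(AlgebraicClosure k/k) →* Gal(M/K)) (hs : Continuous s)
    (hsec : ∀ σ a, s σ (algebraMap (AlgebraicClosure k) M a) =
      algebraMap (AlgebraicClosure k) M (σ a))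
    {x y : M} (hxs : x ∈ fixF s F) (hys : y ∈ fixF s F)
    (hx : ∀ c : F, x ≠ algebraMap F M c) (hxy : y ^ 2 = aeval x f)
    (hxR : IsIntegral R x) (hyR : IsIntegral R y) (hyR' : IsIntegral R y⁻¹)
    (hloc : ∀ w : HeightOneSpectrum (𝓞 F),
      ∃ (ι : AlgebraicClosure k →ₐ[F] AlgebraicClosure (w.adicCompletion F))
        (A : ValuationSubring M) (φ : A →+* AlgebraicClosure (w.adicCompletion F)),
        Sel.IsPlaceOf s (w.adicCompletion F)
          (ι : _ →+* AlgebraicClosure (w.adicCompletion F)) A φ)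
    (hre : Q → ∀ τ : AlgebraicClosure k →+* ℂ,
      (∀ a : F, starRingEnd ℂ (τ (algebraMap F _ a)) = τ (algebraMap F _ a)) →
      ∃ (A : ValuationSubring M) (φ : A →+* ℂ), Sel.IsPlaceOf s ℝ τ A φ) :
    (∀ (w : HeightOneSpectrum (𝓞 F))
      (ι : AlgebraicClosure k →ₐ[F] AlgebraicClosure (w.adicCompletion F))
      (A : ValuationSubring M) (φ : A →+* AlgebraicClosure (w.adicCompletion F)),
      Sel.IsPlaceOf s (w.adicCompletion F)
        (ι : _ →+* AlgebraicClosure (w.adicCompletion F)) A φ → x ∈ A ∧ y⁻¹ ∈ A) ∨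
    ((∀ (w : HeightOneSpectrum (𝓞 F))
      (ι : AlgebraicClosure k →ₐ[F] AlgebraicClosure (w.adicCompletion F))
      (A : ValuationSubring M) (φ : A →+* AlgebraicClosure (w.adicCompletion F)),
      Sel.IsPlaceOf s (w.adicCompletion F)
        (ι : _ →+* AlgebraicClosure (w.adicCompletion F)) A φ → ¬ (x ∈ A ∧ y⁻¹ ∈ A)) ∧
    ∃ (A₀ : ValuationSubring M) (ψ₀ : A₀ →+* AlgebraicClosure k)
      (Δ : Subgroup Gal(AlgebraicClosure k/k)),
      IsOver A₀ ψ₀ ∧ IsOpen (Δ : Set Gal(AlgebraicClosure k/k)) ∧ ResOn s A₀ ψ₀ Δ ∧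
      ¬ (x ∈ A₀ ∧ y⁻¹ ∈ A₀) ∧
      ((∀ z : K, algebraMap K M z ∈ IntermediateField.adjoin F {x, y}) →
        Sel.IsPlaceOf s k (RingHom.id _) A₀ ψ₀ ∧
        ∀ (A₁ : ValuationSubring M) (ψ₁ : A₁ →+* AlgebraicClosure k),
          Sel.IsPlaceOf s k (RingHom.id _) A₁ ψ₁ →
          A₁ = A₀ ∧ ∀ (a : A₁) (b : A₀), (a : M) = b → ψ₁ a = ψ₀ b)) := by
  classical
  have hfin : FiniteDimensional k F := FiniteDimensional.right ℚ k F
  have hFk : Algebra.IsAlgebraic F (AlgebraicClosure k) :=
    Algebra.IsAlgebraic.tower_top (K := k) F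
  have : IsAlgClosure F (AlgebraicClosure k) := ⟨inferInstance, inferInstance⟩
  let e : AlgebraicClosure F ≃ₐ[F] AlgebraicClosure k :=
    IsAlgClosure.equiv F (AlgebraicClosure F) (AlgebraicClosure k)
  let iFb : Algebra (AlgebraicClosure F) M :=
    ((algebraMap (AlgebraicClosure k) M).comp (e : _ →+* AlgebraicClosure k)).toAlgebra
  have he : ∀ a : AlgebraicClosure F, algebraMap (AlgebraicClosure F) M a =
      algebraMap (AlgebraicClosure k) M (e a) := fun _ => rfl
  have t3 : IsScalarTower k F M := IsScalarTower.of_algebraMap_eq fun a => by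
    rw [IsScalarTower.algebraMap_apply F (AlgebraicClosure k) M,
      ← IsScalarTower.algebraMap_apply k F (AlgebraicClosure k),
      ← IsScalarTower.algebraMap_apply k (AlgebraicClosure k) M]
  have t4 : IsScalarTower F (AlgebraicClosure F) M := IsScalarTower.of_algebraMap_eq fun a => by
    rw [he, AlgEquiv.commutes, ← IsScalarTower.algebraMap_apply]
  have hK0 : CharZero K := charZero_of_injective_algebraMap (algebraMap k K).injective
  have hKM : Algebra.IsAlgebraic K M := inferInstance
  -- transcendental functions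
  have hxt : Transcendental F x := const_of_fixF s hsec e hxs hx
  have hxtk : Transcendental k x := fun h => hxt (h.tower_top F)
  obtain ⟨t, htR, ht⟩ : ∃ t : K, t ∈ R ∧ Transcendental k t := by
    by_contra hcon
    push Not at hcon
    apply hxtk
    have h1 : Algebra.IsAlgebraic k R := ⟨fun r => by
      have h2 := hcon r r.2
      rw [Transcendental, not_not] at h2
      exact (isAlgebraic_algebraMap_iff (R := k) (S := R) (A := K) Subtype.val_injective).1 h2⟩
    have h3 : IsScalarTower k R M := IsScalarTower.of_algebraMap_eq fun a => by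
      rw [IsScalarTower.algebraMap_apply k K M]; rfl
    exact IsAlgebraic.restrictScalars k (hxR.isAlgebraic)
  have hfrac : ∀ z : K, ∃ a b : R, (b : K) ≠ 0 ∧ z * b = a := by
    intro z
    obtain ⟨a, b, hab, hab'⟩ := frac_of_hom (Ω := K) R htr ⟨t, htR⟩ ht
      (algebraMap (integralClosure R K) K) z
    refine ⟨⟨a, hRn _ a.2⟩, ⟨b, hRn _ b.2⟩, ?_, hab⟩
    rcases hab' with ha | hb
    · intro hb
      apply ha
      change (a : K) = 0
      rw [← hab, show (b : K) = 0 from hb, mul_zero]
    · exact hb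
  -- the field `L₁`
  have hFL : ∀ a : F, algebraMap F M a ∈ fixF s F := by
    intro a σ hσ
    rw [IsScalarTower.algebraMap_apply F (AlgebraicClosure k) M, hsec, hσ]
  obtain ⟨L₁, hL₁L, hxL, hyL, hFL₁, hfd₁, hgen⟩ :=
    exists_gen (k := k) (F := F) (fixF s F) hFL x y hxs hys
  let iFL : Algebra F L₁ := ((algebraMap F M).codRestrict L₁.toSubfield hFL₁).toAlgebra
  have t7 : IsScalarTower k L₁ M := IsScalarTower.of_algebraMap_eq fun a => rfl
  have t5 : IsScalarTower F L₁ M := IsScalarTower.of_algebraMap_eq fun a => rfl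
  have t6 : IsScalarTower k F L₁ := IsScalarTower.of_algebraMap_eq fun a => by
    apply (algebraMap L₁ M).injective
    rw [← IsScalarTower.algebraMap_apply k L₁ M, ← IsScalarTower.algebraMap_apply F L₁ M,
      ← IsScalarTower.algebraMap_apply k F M]
  have t8 : IsScalarTower R L₁ M := IsScalarTower.of_algebraMap_eq fun a => rfl
  have hL₁ : ∀ σ : Gal(AlgebraicClosure k/k),
      (∀ a : F, σ (algebraMap F _ a) = algebraMap F _ a) →
      ∀ x : L₁, s σ (algebraMap L₁ M x) = algebraMap L₁ M x :=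
    fun σ hσ x => hL₁L x.2 σ hσ
  have htr' : Algebra.trdeg F L₁ = 1 := trdeg_fix (k := k) (K := K) (Ω := M) htr
  -- the ring
  let R₁ : Subalgebra F L₁ :=
    { (integralClosure R L₁).toSubsemiring with
      algebraMap_mem' := fun a => by
        have h1 : IsIntegral k a := Algebra.IsIntegral.isIntegral a
        have h2 : IsIntegral k (algebraMap F L₁ a) := h1.algebraMap
        have h3 : IsScalarTower k R L₁ := IsScalarTower.of_algebraMap_eq fun a => by
          rw [IsScalarTower.algebraMap_apply k K L₁]; rfl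
        exact h2.tower_top }
  have hmem₁ : ∀ z : L₁, z ∈ R₁ ↔ IsIntegral R z := fun z => Iff.rfl
  let iRR : Algebra R R₁ := ((algebraMap R L₁).codRestrict R₁.toSubring fun r => by
    change IsIntegral R (algebraMap R L₁ r)
    exact isIntegral_algebraMap).toAlgebra
  have t9 : IsScalarTower R R₁ L₁ := IsScalarTower.of_algebraMap_eq fun r => rfl
  have t10 : IsScalarTower R R₁ M := IsScalarTower.of_algebraMap_eq fun r => rfl
  have hint₁ : Algebra.IsIntegral R R₁ := ⟨fun z => by
    have h1 : IsIntegral R (z : L₁) := (hmem₁ _).1 z.2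
    exact (isIntegral_algebraMap_iff (R := R) (A := R₁) (B := L₁) Subtype.val_injective).1 h1⟩
  have hRR : ∀ z : M, IsIntegral R₁ z ↔ IsIntegral R z := fun z =>
    ⟨fun h => isIntegral_trans z h, fun h => h.tower_top⟩
  have hunit : unitRing R₁ M = unitRing R M := by
    rw [unitRing, unitRing]
    congr 1
    ext z
    exact and_congr (hRR z) (hRR z⁻¹)
  have hR₁fg : R₁.FG := fg_closure (k := k) R hfg hRn hfrac R₁ hmem₁
  have hR₁n : ∀ z : L₁, IsIntegral R₁ z → z ∈ R₁ := fun z hz => isIntegral_trans z hz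
  have hLM : ∀ z : L₁, IsIntegral R (z : M) → z ∈ R₁ := fun z hz =>
    (isIntegral_algebraMap_iff (algebraMap L₁ M).injective).1 hz
  -- the maximal unramified extension
  have hKL : ∀ x : K, ∃ y : L₁, algebraMap L₁ M y = algebraMap K M x :=
    fun x => ⟨algebraMap K L₁ x, rfl⟩
  have hM₁' : IsMaxUnramOver (upR F L₁ M R) L₁ M (AlgebraicClosure F) :=
    maxUnram_trans (e : AlgebraicClosure F ≃+* AlgebraicClosure k) he hKL R hM
  have hM₁ : IsMaxUnramOver R₁ L₁ M (AlgebraicClosure F) := by
    intro z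
    rw [hM₁' z]
    refine forall_congr' fun V => imp_congr ⟨fun h => ⟨h.1, fun r => ?_⟩,
      fun h => ⟨h.1, fun r => ?_⟩⟩ Iff.rfl
    · -- the integral closure is in `V`
      have h3 : ∀ r : R, algebraMap R M r ∈ V.comap (algebraMap M (AlgebraicClosure M)) := by
        intro r
        have h4 := h.2 ⟨algebraMap K L₁ r, Algebra.subset_adjoin ⟨r, rfl⟩⟩
        rw [alg_gen] at h4
        exact h4
      rw [alg_gen]
      have h5 : IsIntegral R ((r : L₁) : M) := ((hmem₁ _).1 r.2).algebraMap
      exact PTAux.mem_of_isIntegral (R := R) h3 h5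
    · rw [alg_gen]
      refine upR_mem (V.toSubring.comap (algebraMap M (AlgebraicClosure M))) (fun a => ?_)
        (fun r => ?_) r
      · change algebraMap M (AlgebraicClosure M) (algebraMap F M a) ∈ V
        have h3 := h.1.1 (algebraMap F (AlgebraicClosure F) a)
        rw [IsScalarTower.algebraMap_apply (AlgebraicClosure F) M (AlgebraicClosure M),
          ← IsScalarTower.algebraMap_apply F (AlgebraicClosure F) M] at h3
        exact h3
      · change algebraMap M (AlgebraicClosure M) (algebraMap K M r) ∈ V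
        have h3 := h.2 (algebraMap R R₁ r)
        rw [alg_gen] at h3
        exact h3
  -- the section over `F`
  have hs₁ := resS_continuous s e hL₁ hs
  have hsec₁ : ∀ (σ : Gal(AlgebraicClosure F/F)) (a : AlgebraicClosure F),
      resS s e hL₁ σ (algebraMap (AlgebraicClosure F) M a) =
        algebraMap (AlgebraicClosure F) M (σ a) := by
    intro σ a
    rw [resS_apply, he, hsec, resG_apply, e.symm_apply_apply, he]
  have hupp : ∀ (w : HeightOneSpectrum (𝓞 F))
      (ι : AlgebraicClosure k →ₐ[F] AlgebraicClosure (w.adicCompletion F))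
      (A : ValuationSubring M) (φ : A →+* AlgebraicClosure (w.adicCompletion F)),
      Sel.IsPlaceOf s (w.adicCompletion F)
        (ι : _ →+* AlgebraicClosure (w.adicCompletion F)) A φ →
      Sel.IsPlaceOf (resS s e hL₁) (w.adicCompletion F)
        ((ι.comp (e : AlgebraicClosure F →ₐ[F] AlgebraicClosure k) :
          AlgebraicClosure F →ₐ[F] AlgebraicClosure (w.adicCompletion F)) :
          _ →+* AlgebraicClosure (w.adicCompletion F)) A φ :=
    fun w ι A φ h => placeOf_res e he s hL₁ h
  have key := affine_dich hinf hf hfs hg hfd hS htr' (x := ⟨x, hxL⟩)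
    (y := ⟨y, hyL⟩) (fun c hc => hx c (congrArg (algebraMap L₁ M) hc))
    (by
      apply (algebraMap L₁ M).injective
      rw [map_pow, ← aeval_algebraMap_apply]
      exact hxy) R₁ (resS s e hL₁) hs₁ hsec₁ hR₁fg hR₁n (hLM _ hxR) (hLM _ hyR) (hLM _ hyR') hM₁
    (fun w => by
      obtain ⟨ι, A, φ, h⟩ := hloc w
      exact ⟨_, A, φ, hupp w ι A φ h⟩) (fun hQ τ hτ => by
      obtain ⟨A, φ, h⟩ := hre hQ (τ.comp (e.symm : AlgebraicClosure k →+* AlgebraicClosure F))
        (fun a => by
          change starRingEnd ℂ (τ (e.symm (algebraMap F _ a))) = τ (e.symm (algebraMap F _ a))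
          rw [AlgEquiv.commutes]
          exact hτ a)
      have h' : Sel.IsPlaceOf (resS s e hL₁) ℝ
          ((τ.comp (e.symm : AlgebraicClosure k →+* AlgebraicClosure F)).comp
            (e : AlgebraicClosure F →+* AlgebraicClosure k)) A φ :=
        placeOf_res e he s hL₁ h
      have h5 : ((τ.comp (e.symm : AlgebraicClosure k →+* AlgebraicClosure F)).comp
          (e : AlgebraicClosure F →+* AlgebraicClosure k)) = τ := by
        ext a
        change τ (e.symm (e a)) = τ a
        rw [e.symm_apply_apply]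
      rw [h5] at h'
      exact ⟨A, φ, h'⟩)
  rcases key with key | ⟨key, Δ₁, A₀, ψ, hΔ₁, hO, hres, hno, htop⟩
  · exact Or.inl fun w ι A φ h => key w _ A φ (hupp w ι A φ h)
  · obtain ⟨h5, Δ, h6, h7, h8⟩ := up_on s e he hL₁ hO Δ₁ hΔ₁ hres
    refine Or.inr ⟨fun w ι A φ h => key w _ A φ (hupp w ι A φ h), A₀, _, Δ, h5, h6, h7, hno,
      fun hK => ?_⟩
    have h12 : IntermediateField.adjoin F ({⟨x, hxL⟩, ⟨y, hyL⟩} : Set L₁) = ⊤ := by
      rw [eq_top_iff]
      rintro z -
      have h9 := hgen hK z z.2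
      have h10 : (IntermediateField.adjoin F ({⟨x, hxL⟩, ⟨y, hyL⟩} : Set L₁)).map
          (IsScalarTower.toAlgHom F L₁ M) = IntermediateField.adjoin F ({x, y} : Set M) := by
        rw [IntermediateField.adjoin_map, Set.image_pair]
        rfl
      rw [← h10] at h9
      obtain ⟨w, hw, hwz⟩ := h9
      have h11 : w = z := Subtype.ext hwz
      rw [← h11]
      exact hw
    obtain ⟨h13, h14⟩ := htop h12
    have hGF := h8 h13
    have huniq : ∀ (A₁ : ValuationSubring M) (ψ₁ : A₁ →+* AlgebraicClosure k), IsOver A₁ ψ₁ →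
        ∀ Δ' : Subgroup Gal(AlgebraicClosure k/k), ResOn s A₁ ψ₁ Δ' →
        (∀ σ : Gal(AlgebraicClosure k/k),
          (∀ a : F, σ (algebraMap F _ a) = algebraMap F _ a) → σ ∈ Δ') → A₁ = A₀ := by
      intro A₁ ψ₁ h₁ Δ' hr₁ hΔ'
      obtain ⟨q1, q2⟩ := down_on e he s hL₁ h₁ hr₁ hΔ'
      exact h14 A₁ _ q1 q2
    have hst : ∀ τ ∈ (⊤ : Subgroup Gal(AlgebraicClosure k/k)), ∀ z ∈ A₀, s τ z ∈ A₀ := by
      intro τ _ z hz
      obtain ⟨A₁, ψ₁, p1, p2, p3⟩ := exists_conj hsec h5 τ
      let Δ' : Subgroup Gal(AlgebraicClosure k/k) := Δ.comap (MulAut.conj τ⁻¹).toMonoidHom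
      have hΔ' : ∀ σ ∈ Δ', τ⁻¹ * σ * τ ∈ Δ := by
        intro σ hσ
        have h15 : τ⁻¹ * σ * τ⁻¹⁻¹ ∈ Δ := hσ
        rwa [inv_inv] at h15
      have h16 : A₁ = A₀ := by
        refine huniq A₁ ψ₁ p1 Δ' (resOn_conj p2 p3 h7 hΔ') fun σ hσ => ?_
        change τ⁻¹ * σ * τ⁻¹⁻¹ ∈ Δ
        rw [inv_inv]
        refine hGF _ fun a => ?_
        obtain ⟨b, hb⟩ := exists_base hinf τ a
        rw [AlgEquiv.mul_apply, AlgEquiv.mul_apply, hb, hσ, ← hb]
        exact τ.symm_apply_apply _
      have h17 : s τ z ∈ A₁ := (p2 _).2 (by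
        have h18 : (s τ)⁻¹ (s τ z) = z := (s τ).symm_apply_apply z
        rw [h18]
        exact hz)
      rw [← h16]
      exact h17
    refine ⟨isPlaceOf_of_resOn h5 (resOn_of_stab hsec h5 hst), fun A₁ ψ₁ h₁ => ?_⟩
    obtain ⟨q1, q2⟩ := resOn_of_isPlaceOf h₁
    have h19 := huniq A₁ ψ₁ q1 ⊤ q2 fun _ _ => Subgroup.mem_top _
    subst h19
    refine ⟨rfl, fun a b hab => ?_⟩
    rw [isOver_unique h5 q1 a, Subtype.ext hab]

end Pool.Agent.Lib.MP_2f3286_ag.HYP
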