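import Pool.Agent.Lib.MP_2f3286_ag.HYP.CvTr

/-!
# The places of `M` at which a function has a pole: finitely many orbits
-/

open Polynomial IntermediateField
open scoped Pointwise

namespace Pool.Agent.Lib.MP_2f3286_ag.HYP

open Pool.Agent.Lib.MP_2f3286_ag.Full

section

/-- the places of `M` over `kb` at which `t` has a pole -/
abbrev PlX (K M kb : Type*) [Field K] [Field M] [Field kb] [Algebra K M] [Algebra kb M] (t : K) :
    Type _ :=
  {W : ValuationSubring M // (∀ a : kb, algebraMap kb M a ∈ W) ∧ algebraMap K M t ∉ W}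

/-- the automorphisms over `kb` which fix all roots of `t` -/
def rootGroup (K M kb : Type*) [Field K] [Field M] [Field kb] [Algebra K M] [Algebra kb M] (t : K) :
    Subgroup Gal(M/K) where
  carrier := {g | (∀ a : kb, g (algebraMap kb M a) = algebraMap kb M a) ∧
    ∀ (n : ℕ) (β : M), 0 < n → β ^ n = algebraMap K M t → g β = β}
  one_mem' := ⟨fun _ => rfl, fun _ _ _ _ => rfl⟩
  mul_mem' {g h} hg hh := ⟨fun a => by rw [AlgEquiv.mul_apply, hh.1, hg.1], fun n β hn hβ => by
    rw [AlgEquiv.mul_apply, hh.2 n β hn hβ, hg.2 n β hn hβ]⟩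
  inv_mem' {g} hg := ⟨fun a => by
      have h1 : g⁻¹ (g (algebraMap kb M a)) = algebraMap kb M a := g.symm_apply_apply _
      rwa [hg.1 a] at h1, fun n β hn hβ => by
      have h1 : g⁻¹ (g β) = β := g.symm_apply_apply _
      rwa [hg.2 n β hn hβ] at h1⟩

variable {k kb K M : Type*} [Field k] [Field kb] [Algebra k kb] [Field K] [Algebra k K]
  [Field M] [Algebra K M] [Algebra kb M] [Algebra k M] [IsScalarTower k K M] [IsScalarTower k kb M]

theorem mem_rootGroup {t : K} {g : Gal(M/K)} : g ∈ rootGroup K M kb t ↔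
    (∀ a : kb, g (algebraMap kb M a) = algebraMap kb M a) ∧
    ∀ (n : ℕ) (β : M), 0 < n → β ^ n = algebraMap K M t → g β = β := Iff.rfl

theorem rootGroup_le (t : K) : rootGroup K M kb t ≤ geomGroup K M kb := fun _ hg => hg.1

theorem isClosed_rootGroup [Algebra.IsAlgebraic K M] (t : K) :
    IsClosed (rootGroup K M kb t : Set Gal(M/K)) := by
  have h1 : (rootGroup K M kb t : Set Gal(M/K)) = (geomGroup K M kb : Set Gal(M/K)) ∩
      ⋂ β : {β : M // ∃ n : ℕ, 0 < n ∧ β ^ n = algebraMap K M t},
        (MulAction.stabilizer Gal(M/K) (β : M) : Set Gal(M/K)) := by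
    ext g
    rw [Set.mem_inter_iff, Set.mem_iInter]
    constructor
    · intro hg
      exact ⟨hg.1, fun ⟨β, n, hn, hβ⟩ => hg.2 n β hn hβ⟩
    · rintro ⟨h1, h2⟩
      exact ⟨h1, fun n β hn hβ => h2 ⟨β, n, hn, hβ⟩⟩
  rw [h1]
  refine (isClosed_geomGroup K M kb).inter (isClosed_iInter fun β => ?_)
  exact Subgroup.isClosed_of_isOpen _ (stabilizer_isOpen_of_isIntegral (K := K) _)

/-- the group is normal -/
theorem rootGroup_conj (k : Type*) {kb K M : Type*} [Field k] [Field kb] [Algebra k kb] [Field K]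
    [Algebra k K] [Field M] [Algebra K M] [Algebra kb M] [Algebra k M] [IsScalarTower k K M]
    [IsScalarTower k kb M] [Algebra.IsAlgebraic k kb] [IsAlgClosed kb] {t : K} (g : Gal(M/K))
    {u : Gal(M/K)} (hu : u ∈ rootGroup K M kb t) : g * u * g⁻¹ ∈ rootGroup K M kb t := by
  have hn := geomGroup_normal k (K := K) (M := M) (kb := kb)
  refine ⟨hn.conj_mem u hu.1 g, fun n β hn hβ => ?_⟩
  rw [AlgEquiv.mul_apply, AlgEquiv.mul_apply, hu.2 n (g⁻¹ β) hn ?_]
  · exact g.apply_symm_apply β
  · rw [← map_pow, hβ]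
    exact g⁻¹.commutes t

/-- the action on the places -/
@[reducible] def plAct (k : Type*) {kb K M : Type*} [Field k] [Field kb] [Algebra k kb] [Field K]
    [Algebra k K] [Field M] [Algebra K M] [Algebra kb M] [Algebra k M] [IsScalarTower k K M]
    [IsScalarTower k kb M] [Algebra.IsAlgebraic k kb] [IsAlgClosed kb] (t : K) :
    MulAction Gal(M/K) (PlX K M kb t) where
  smul g W := ⟨g • W.1, fun a => by
    rw [ValuationSubring.mem_pointwise_smul_iff_inv_smul_mem]
    obtain ⟨a', ha'⟩ := exists_apply_alg k g⁻¹ a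
    change g⁻¹ (algebraMap kb M a) ∈ W.1
    rw [ha']
    exact W.2.1 a', fun h => by
    rw [ValuationSubring.mem_pointwise_smul_iff_inv_smul_mem] at h
    apply W.2.2
    have h1 : g⁻¹ • algebraMap K M t = algebraMap K M t := g⁻¹.commutes t
    rwa [h1] at h⟩
  one_smul W := Subtype.ext (one_smul _ W.1)
  mul_smul g h W := Subtype.ext (mul_smul g h W.1)

variable [Algebra.IsAlgebraic k kb] [IsAlgClosed kb]

theorem plAct_iff {t : K} (g : Gal(M/K)) (W W' : PlX K M kb t) :
    (plAct k t).toSMul.smul g W = W' ↔ ∀ z : M, z ∈ W.1 ↔ g z ∈ W'.1 := by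
  have h0 : ((plAct k t).toSMul.smul g W).1 = g • W.1 := rfl
  rw [Subtype.ext_iff, h0]
  constructor
  · intro h z
    rw [← h, ValuationSubring.mem_pointwise_smul_iff_inv_smul_mem]
    have h1 : g⁻¹ • g z = z := g.symm_apply_apply z
    rw [h1]
  · intro h
    ext z
    rw [ValuationSubring.mem_pointwise_smul_iff_inv_smul_mem, h]
    have h1 : g (g⁻¹ • z) = z := g.apply_symm_apply z
    rw [h1]

theorem isClosed_plAct [Algebra.IsAlgebraic K M] {t : K} (W W' : PlX K M kb t) :
    IsClosed {g : Gal(M/K) | (plAct k t).toSMul.smul g W = W'} := by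
  have h1 : {g : Gal(M/K) | (plAct k t).toSMul.smul g W = W'} =
      ⋂ z : M, {g : Gal(M/K) | z ∈ W.1 ↔ g z ∈ W'.1} := by
    ext g
    rw [Set.mem_iInter]
    exact plAct_iff g W W'
  rw [h1]
  refine isClosed_iInter fun z => ?_
  rw [← isOpen_compl_iff, isOpen_iff_mem_nhds]
  intro g hg
  have h3 : IsOpen (MulAction.stabilizer Gal(M/K) z : Set Gal(M/K)) :=
    stabilizer_isOpen_of_isIntegral (K := K) _
  have h4 : Continuous fun g' : Gal(M/K) => (g : Gal(M/K))⁻¹ * g' := by fun_prop
  have h5 := (h3.preimage h4).mem_nhds (x := g) (by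
    change g⁻¹ * g ∈ MulAction.stabilizer Gal(M/K) z
    rw [inv_mul_cancel]; exact one_mem _)
  refine Filter.mem_of_superset h5 fun g' hg' => ?_
  have h6 : (g⁻¹ * g') z = z := hg'
  have h7 : g' z = g z := by
    have h8 := congrArg g h6
    rw [← AlgEquiv.mul_apply, mul_inv_cancel_left] at h8
    exact h8
  change ¬ (z ∈ W.1 ↔ g' z ∈ W'.1)
  rw [h7]
  exact hg

end

section

variable {k kb K M Ω : Type*} [Field k] [Field kb] [Algebra k kb] [Field K] [Algebra k K]
  [Field M] [Algebra K M] [Algebra kb M] [Algebra k M] [IsScalarTower k K M] [IsScalarTower k kb M]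
  [Algebra.IsAlgebraic k kb] [IsAlgClosed kb] [CharZero k] [Normal K M]
  [Field Ω] [IsAlgClosed Ω] [Algebra M Ω] [Algebra K Ω] [Algebra kb Ω] [Algebra k Ω]
  [IsScalarTower K M Ω] [IsScalarTower kb M Ω] [IsScalarTower k K Ω] [IsScalarTower k kb Ω]

include Ω in
/-- **Finitely many orbits.** -/
theorem finite_orbits (htr : Algebra.trdeg kb Ω = 1) {t : K} (ht : Transcendental k t)
    [FiniteDimensional (adjoin k {t}) K] [Algebra.IsAlgebraic K Ω] :
    ∃ Y : Set (PlX K M kb t), Y.Finite ∧ ∀ x : PlX K M kb t, ∃ y ∈ Y, ∃ u ∈ rootGroup K M kb t,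
      x = (plAct k t).toSMul.smul u y := by
  classical
  have hk0 : CharZero kb := charZero_of_injective_algebraMap (algebraMap k kb).injective
  by_cases hX : Nonempty (PlX K M kb t)
  swap
  · exact ⟨∅, Set.finite_empty, fun x => absurd ⟨x⟩ hX⟩
  let u : Ω := algebraMap K Ω t
  have hut : Transcendental kb u := by
    intro h
    apply ht
    have h1 : IsAlgebraic k u := by
      exact IsAlgebraic.restrictScalars k h
    exact (isAlgebraic_algebraMap_iff (algebraMap K Ω).injective).1 h1
  -- extensions of the places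
  have hext : ∀ x : PlX K M kb t, ∃ W : ValuationSubring Ω, W.comap (algebraMap M Ω) = x.1 :=
    fun x => Pt.MaxOver.exists_ext_val x.1
  choose W hW using hext
  have hWmem : ∀ x (z : M), z ∈ x.1 ↔ algebraMap M Ω z ∈ W x := fun x z => by
    rw [← hW x]; rfl
  have hWk : ∀ x (a : kb), algebraMap kb Ω a ∈ W x := fun x a => by
    rw [IsScalarTower.algebraMap_apply kb M Ω, ← hWmem]
    exact x.2.1 a
  have hWt : ∀ x, u ∉ W x := fun x h => by
    apply x.2.2
    rw [hWmem, ← IsScalarTower.algebraMap_apply K M Ω]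
    exact h
  obtain ⟨x₀⟩ := hX
  have htrans : ∀ x, ∃ g : Gal(Ω/(rootField kb u)), ∀ z, z ∈ W x ↔ g z ∈ W x₀ := fun x =>
    plc_trans htr hut (hWk x₀) (hWk x) (hWt x₀) (hWt x)
  choose g hg using htrans
  -- the primitive element
  have hE0 : CharZero (adjoin k {t}) := charZero_of_injective_algebraMap
    (algebraMap k (adjoin k {t})).injective
  obtain ⟨θ, hθ⟩ := Field.exists_primitive_element (adjoin k {t}) K
  have hθi : IsIntegral (adjoin k {t}) θ := Algebra.IsIntegral.isIntegral θ
  let p : Polynomial Ω := (minpoly (adjoin k {t}) θ).map (algebraMap (adjoin k {t}) Ω)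
  have hp0 : p ≠ 0 := by
    rw [Ne, Polynomial.map_eq_zero_iff (algebraMap (adjoin k {t}) Ω).injective]
    exact minpoly.ne_zero hθi
  -- automorphisms over the field of roots fix `k(t)`
  have hfix : ∀ (h : Gal(Ω/(rootField kb u))) (e : adjoin k {t}),
      h (algebraMap (adjoin k {t}) Ω e) = algebraMap (adjoin k {t}) Ω e := by
    rintro h ⟨e, he⟩
    change h (algebraMap K Ω e) = algebraMap K Ω e
    induction he using adjoin_induction with
    | mem e he =>
      rw [Set.mem_singleton_iff] at he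
      subst he
      exact h.commutes ⟨u, subset_adjoin _ _ ⟨1, one_pos, pow_one u⟩⟩
    | algebraMap c =>
      rw [← IsScalarTower.algebraMap_apply k K Ω, IsScalarTower.algebraMap_apply k kb Ω]
      exact h.commutes ⟨_, IntermediateField.algebraMap_mem (rootField kb u) (algebraMap k kb c)⟩
    | add a b _ _ ha hb => rw [map_add, map_add, ha, hb]
    | inv a _ ha => rw [map_inv₀, map_inv₀, ha]
    | mul a b _ _ ha hb => rw [map_mul, map_mul, ha, hb]
  have hroot : ∀ h : Gal(Ω/(rootField kb u)), h (algebraMap K Ω θ) ∈ p.roots.toFinset := by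
    intro h
    rw [Multiset.mem_toFinset, mem_roots hp0, IsRoot, eval_map]
    have h1 : (minpoly (adjoin k {t}) θ).eval₂ (algebraMap (adjoin k {t}) Ω)
        (h (algebraMap K Ω θ)) = h ((minpoly (adjoin k {t}) θ).eval₂
          (algebraMap (adjoin k {t}) Ω) (algebraMap K Ω θ)) := by
      rw [← AlgEquiv.coe_ringEquiv, ← RingEquiv.coe_toRingHom, hom_eval₂]
      congr 1
      ext e
      exact (hfix h e).symm
    rw [h1]
    have h2 : (minpoly (adjoin k {t}) θ).eval₂ (algebraMap (adjoin k {t}) Ω)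
        (algebraMap K Ω θ) = 0 := by
      have h3 : algebraMap (adjoin k {t}) Ω = (algebraMap K Ω).comp (algebraMap (adjoin k {t}) K) :=
        rfl
      rw [h3, ← hom_eval₂, ← aeval_def, minpoly.aeval, map_zero]
    rw [h2, map_zero]
  -- places with the same image of `θ` are conjugate
  have key : ∀ x y : PlX K M kb t, g x (algebraMap K Ω θ) = g y (algebraMap K Ω θ) →
      ∃ v ∈ rootGroup K M kb t, x = (plAct k t).toSMul.smul v y := by
    intro x y hxy
    have hK : ∀ a : K, g x (algebraMap K Ω a) = g y (algebraMap K Ω a) := by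
      intro a
      have ha : a ∈ adjoin (adjoin k {t}) {θ} := by rw [hθ]; exact mem_top
      induction ha using adjoin_induction with
      | mem a ha =>
        rw [Set.mem_singleton_iff] at ha
        rw [ha]
        exact hxy
      | algebraMap c =>
        exact (hfix (g x) c).trans (hfix (g y) c).symm
      | add a b _ _ ha hb => rw [map_add, map_add, map_add, ha, hb]
      | inv a _ ha => rw [map_inv₀, map_inv₀, map_inv₀, ha]
      | mul a b _ _ ha hb => rw [map_mul, map_mul, map_mul, ha, hb]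
    -- the automorphism over `K`
    let h : Gal(Ω/(rootField kb u)) := (g x)⁻¹ * g y
    have hh : ∀ a : K, h (algebraMap K Ω a) = algebraMap K Ω a := by
      intro a
      change (g x)⁻¹ (g y (algebraMap K Ω a)) = _
      rw [← hK]
      exact (g x).symm_apply_apply _
    let h' : Gal(Ω/K) := AlgEquiv.ofRingEquiv (f := (h : Ω ≃+* Ω)) hh
    have hh' : ∀ z, h' z = h z := fun z => rfl
    let v : Gal(M/K) := AlgEquiv.restrictNormal h' M
    have hv : ∀ z : M, algebraMap M Ω (v z) = h (algebraMap M Ω z) := fun z =>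
      AlgEquiv.restrictNormal_commutes h' M z
    refine ⟨v, ⟨fun a => ?_, fun n β hn hβ => ?_⟩, ((plAct_iff (k := k) v y x).2 fun z => ?_).symm⟩
    · apply (algebraMap M Ω).injective
      rw [hv, ← IsScalarTower.algebraMap_apply kb M Ω]
      exact h.commutes ⟨_, IntermediateField.algebraMap_mem (rootField kb u) a⟩
    · apply (algebraMap M Ω).injective
      rw [hv]
      have h5 : algebraMap M Ω β ∈ rootField kb u := by
        refine subset_adjoin _ _ ⟨n, hn, ?_⟩
        rw [← map_pow, hβ, ← IsScalarTower.algebraMap_apply K M Ω]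
      exact h.commutes ⟨_, h5⟩
    · rw [hWmem y, hWmem x, hv, hg y, hg x]
      have h9 : g x (h (algebraMap M Ω z)) = g y (algebraMap M Ω z) := by
        change g x ((g x)⁻¹ (g y (algebraMap M Ω z))) = _
        exact (g x).apply_symm_apply _
      rw [h9]
  -- representatives
  let e : PlX K M kb t → p.roots.toFinset := fun x => ⟨g x (algebraMap K Ω θ), hroot (g x)⟩
  have hinv : ∀ q : Set.range e, ∃ x, e x = q := fun q => q.2
  choose r hr using hinv
  refine ⟨Set.range r, Set.finite_range r, fun x => ⟨r ⟨e x, x, rfl⟩, ⟨_, rfl⟩, ?_⟩⟩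
  refine key x _ ?_
  have h1 := hr ⟨e x, x, rfl⟩
  exact (congrArg Subtype.val h1).symm

end

end Pool.Agent.Lib.MP_2f3286_ag.HYP
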