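import Pool.Agent.Lib.MP_2f3286_ag.HYP.CvVal
import Pool.Agent.Lib.MP_2f3286_ag.HYP.AFUni

/-!
# The places of an algebraic closure at which a function has a pole
-/

open Polynomial IntermediateField

namespace Pool.Agent.Lib.MP_2f3286_ag.HYP

open Pool.Agent.Lib.MP_2f3286_ag.Full

section

variable {kb Ω : Type*} [Field kb] [IsAlgClosed kb] [Field Ω] [Algebra kb Ω]

/-- the field generated by all roots of `u` -/
def rootField (kb : Type*) {Ω : Type*} [Field kb] [Field Ω] [Algebra kb Ω] (u : Ω) :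
    IntermediateField kb Ω :=
  adjoin kb {β : Ω | ∃ n : ℕ, 0 < n ∧ β ^ n = u}

/-- a root is in the field generated by a root of higher order -/
theorem root_mem_adjoin {u δ β : Ω} {n m : ℕ} (hn : 0 < n) (hm : 0 < m) (hu : u ≠ 0)
    (hδ : δ ^ (m * n) = u) (hβ : β ^ n = u) : β ∈ adjoin kb {δ} := by
  have hδ0 : δ ≠ 0 := by
    rintro rfl
    rw [zero_pow (Nat.mul_pos hm hn).ne'] at hδ
    exact hu hδ.symm
  have h1 : (β / δ ^ m) ^ n = 1 := by
    rw [div_pow, hβ, ← pow_mul, hδ, div_self hu]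
  obtain ⟨ζ, hζ⟩ := root_of_unity_mem kb Ω hn h1
  have h2 : β = algebraMap kb Ω ζ * δ ^ m := by
    rw [hζ, div_mul_cancel₀ _ (pow_ne_zero _ hδ0)]
  rw [h2]
  exact mul_mem (IntermediateField.algebraMap_mem _ ζ) (pow_mem (mem_adjoin_simple_self kb δ) m)

/-- every element of the field of roots is in the field generated by one root -/
theorem mem_rootField [IsAlgClosed Ω] {u : Ω} (hu : u ≠ 0) {z : Ω} (hz : z ∈ rootField kb u) :
    ∃ (δ : Ω) (n : ℕ), 0 < n ∧ δ ^ n = u ∧ z ∈ adjoin kb {δ} := by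
  have two : ∀ (δ δ' : Ω) (n n' : ℕ), 0 < n → 0 < n' → δ ^ n = u → δ' ^ n' = u →
      ∃ (ε : Ω) (N : ℕ), 0 < N ∧ ε ^ N = u ∧ adjoin kb {δ} ≤ adjoin kb {ε} ∧
        adjoin kb {δ'} ≤ adjoin kb {ε} := by
    intro δ δ' n n' hn hn' h h'
    obtain ⟨ε, hε⟩ := IsAlgClosed.exists_pow_nat_eq u (Nat.mul_pos hn' hn)
    refine ⟨ε, n' * n, Nat.mul_pos hn' hn, hε, ?_, ?_⟩
    · rw [adjoin_simple_le_iff]
      exact root_mem_adjoin hn hn' hu hε h
    · rw [adjoin_simple_le_iff]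
      exact root_mem_adjoin hn' hn hu (by rw [mul_comm]; exact hε) h'
  induction hz using adjoin_induction with
  | mem z hz =>
    obtain ⟨n, hn, h⟩ := hz
    exact ⟨z, n, hn, h, mem_adjoin_simple_self kb z⟩
  | algebraMap c => exact ⟨u, 1, one_pos, pow_one u, IntermediateField.algebraMap_mem _ c⟩
  | add a b _ _ ha hb =>
    obtain ⟨δ, n, hn, h, hz⟩ := ha
    obtain ⟨δ', n', hn', h', hz'⟩ := hb
    obtain ⟨ε, N, hN, hε, h1, h2⟩ := two δ δ' n n' hn hn' h h'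
    exact ⟨ε, N, hN, hε, add_mem (h1 hz) (h2 hz')⟩
  | inv a _ ha =>
    obtain ⟨δ, n, hn, h, hz⟩ := ha
    exact ⟨δ, n, hn, h, inv_mem hz⟩
  | mul a b _ _ ha hb =>
    obtain ⟨δ, n, hn, h, hz⟩ := ha
    obtain ⟨δ', n', hn', h', hz'⟩ := hb
    obtain ⟨ε, N, hN, hε, h1, h2⟩ := two δ δ' n n' hn hn' h h'
    exact ⟨ε, N, hN, hε, mul_mem (h1 hz) (h2 hz')⟩

/-- on the field of roots there is only one place at which `u` has a pole -/
theorem rootField_unique [IsAlgClosed Ω] {u : Ω} {W₁ W₂ : ValuationSubring Ω}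
    (h₁ : ∀ c : kb, algebraMap kb Ω c ∈ W₁) (h₂ : ∀ c : kb, algebraMap kb Ω c ∈ W₂)
    (hu₁ : u ∉ W₁) (hu₂ : u ∉ W₂) {z : Ω} (hz : z ∈ rootField kb u) : z ∈ W₁ ↔ z ∈ W₂ := by
  have hu : u ≠ 0 := by
    rintro rfl
    exact hu₁ (zero_mem _)
  obtain ⟨δ, n, hn, h, hz⟩ := mem_rootField hu hz
  have key : ∀ (W : ValuationSubring Ω), (∀ c : kb, algebraMap kb Ω c ∈ W) → u ∉ W →
      ∀ r s : kb[X], r ≠ 0 → s ≠ 0 → (aeval δ r / aeval δ s ∈ W ↔ r.natDegree ≤ s.natDegree) := by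
    intro W hW huW r s hr hs
    have hδ : δ ∉ W := fun hδ => huW (by rw [← h]; exact pow_mem hδ n)
    have hδ1 : 1 < W.valuation δ := by
      rw [← not_le, W.valuation_le_one_iff]; exact hδ
    rw [← W.valuation_le_one_iff, map_div₀, val_aeval_eq W hW hr hδ, val_aeval_eq W hW hs hδ,
      div_le_one₀ (pow_pos (zero_lt_one.trans hδ1) _)]
    exact pow_le_pow_iff_right₀ hδ1
  obtain ⟨r, s, rfl⟩ := (mem_adjoin_simple_iff kb _).1 hz
  by_cases hr : r = 0
  · rw [hr, map_zero, zero_div]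
    exact iff_of_true (zero_mem _) (zero_mem _)
  by_cases hs : s = 0
  · rw [hs, map_zero, div_zero]
    exact iff_of_true (zero_mem _) (zero_mem _)
  rw [key W₁ h₁ hu₁ r s hr hs, key W₂ h₂ hu₂ r s hr hs]

/-- the places at which `u` has a pole are conjugate over the field of roots -/
theorem plc_trans [IsAlgClosed Ω] [CharZero kb] (htr : Algebra.trdeg kb Ω = 1) {u : Ω}
    (hut : Transcendental kb u) {W₁ W₂ : ValuationSubring Ω}
    (h₁ : ∀ c : kb, algebraMap kb Ω c ∈ W₁) (h₂ : ∀ c : kb, algebraMap kb Ω c ∈ W₂)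
    (hu₁ : u ∉ W₁) (hu₂ : u ∉ W₂) :
    ∃ g : Gal(Ω/(rootField kb u)), ∀ z, z ∈ W₂ ↔ g z ∈ W₁ := by
  classical
  have hu0 : u ≠ 0 := by
    rintro rfl
    exact hu₁ (zero_mem _)
  have halg : ∀ z : Ω, IsAlgebraic (adjoin kb {u}) z := fun z =>
    Top.isAlgebraic_of_trdeg htr hut z
  have hneg : ∀ {W : ValuationSubring Ω}, u ∉ W → W ≠ ⊤ := by
    rintro W hW rfl
    exact hW (ValuationSubring.mem_top _)
  obtain ⟨ρ₁, hρ₁, hρ₁'⟩ := exists_residue W₁ h₁ fun y hy =>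
    Pt.MaxOver.residue_const _ hut halg W₁ h₁ (hneg hu₁) y hy
  obtain ⟨ρ₂, hρ₂, hρ₂'⟩ := exists_residue W₂ h₂ fun y hy =>
    Pt.MaxOver.residue_const _ hut halg W₂ h₂ (hneg hu₂) y hy
  have hρk₁ : ∀ c : kb, ρ₁ ⟨_, h₁ c⟩ = c := fun c => hρ₁' _ c (by
    rw [sub_self, map_zero]; exact zero_lt_one)
  have hρk₂ : ∀ c : kb, ρ₂ ⟨_, h₂ c⟩ = c := fun c => hρ₂' _ c (by
    rw [sub_self, map_zero]; exact zero_lt_one)
  let L := rootField kb u
  have huL : u ∈ L := subset_adjoin _ _ ⟨1, one_pos, pow_one u⟩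
  let R : Subalgebra kb L :=
    { (W₁.comap (algebraMap L Ω)).toSubring.toSubsemiring with
      algebraMap_mem' := fun c => h₁ c }
  have hR : ∀ z : L, z ∈ R ↔ (z : Ω) ∈ W₁ := fun z => Iff.rfl
  have hR₂ : ∀ z : L, z ∈ R ↔ (z : Ω) ∈ W₂ := fun z =>
    (hR z).trans (rootField_unique h₁ h₂ hu₁ hu₂ z.2)
  have htow : IsScalarTower R L Ω := IsScalarTower.of_algebraMap_eq fun r => rfl
  have hB₁ : ∀ b : integralClosure R Ω, (b : Ω) ∈ W₁ := fun b =>
    Pt.PTAux.mem_of_isIntegral (R := R) (fun r => (hR _).1 r.2) b.2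
  have hB₂ : ∀ b : integralClosure R Ω, (b : Ω) ∈ W₂ := fun b =>
    Pt.PTAux.mem_of_isIntegral (R := R) (fun r => (hR₂ _).1 r.2) b.2
  let Ψ₁ : integralClosure R Ω →+* kb :=
    ρ₁.comp ((algebraMap (integralClosure R Ω) Ω).codRestrict W₁ hB₁)
  let Ψ₂ : integralClosure R Ω →+* kb :=
    ρ₂.comp ((algebraMap (integralClosure R Ω) Ω).codRestrict W₂ hB₂)
  have e₁ : ∀ b, Ψ₁ b = ρ₁ ⟨b, hB₁ b⟩ := fun b => rfl
  have e₂ : ∀ b, Ψ₂ b = ρ₂ ⟨b, hB₂ b⟩ := fun b => rfl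
  have hRn : ∀ x : L, IsIntegral R x → ∃ r : R, algebraMap R L r = x := by
    intro x hx
    refine ⟨⟨x, (hR x).2 ?_⟩, rfl⟩
    have h3 : IsIntegral R (algebraMap L Ω x) := hx.algebraMap
    exact Pt.PTAux.mem_of_isIntegral (R := R) (fun r => (hR _).1 r.2) h3
  have hBk : ∀ a : kb, IsIntegral R (algebraMap kb Ω a) := fun a =>
    isIntegral_algebraMap (R := R) (A := Ω) (x := algebraMap kb R a)
  have hag : ∀ r : R, Ψ₂ (algebraMap R _ r) = Ψ₁ (algebraMap R _ r) := by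
    intro r
    rw [e₁, e₂]
    refine hρ₂' _ _ ?_
    have h3 := hρ₁ ⟨_, hB₁ (algebraMap R (integralClosure R Ω) r)⟩
    set c := ρ₁ ⟨_, hB₁ (algebraMap R (integralClosure R Ω) r)⟩ with hc
    rw [Full.val_lt_one_iff] at h3 ⊢
    refine h3.imp id fun h4 h5 => h4 ?_
    have h6 : (((r : L) : Ω) - algebraMap kb Ω c)⁻¹ ∈ W₂ := h5
    have h7 : (((r : L) : Ω) - algebraMap kb Ω c)⁻¹ ∈ L := inv_mem (sub_mem (r : L).2
      (IntermediateField.algebraMap_mem L c))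
    exact (rootField_unique h₁ h₂ hu₁ hu₂ h7).2 h6
  have hΩ0 : CharZero Ω := charZero_of_injective_algebraMap (algebraMap kb Ω).injective
  have hL0 : CharZero L := charZero_of_injective_algebraMap (algebraMap kb L).injective
  have hLalg : Algebra.IsAlgebraic L Ω := ⟨fun z => by
    have h3 : adjoin kb {u} ≤ L := by
      rw [adjoin_simple_le_iff]
      exact huL
    let _ : Algebra (adjoin kb {u}) L := (inclusion h3).toAlgebra
    have : IsScalarTower (adjoin kb {u}) L Ω := IsScalarTower.of_algebraMap_eq fun _ => rfl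
    exact (show IsAlgebraic (adjoin kb {u}) z from halg z).tower_top L⟩
  have hgal : IsGalois L Ω := by
    have hcl : IsAlgClosure L Ω := ⟨inferInstance, hLalg⟩
    have hn : Normal L Ω := IsAlgClosure.normal L Ω
    exact ⟨⟩
  obtain ⟨g, -, hg⟩ := points_trans' (k := kb) (kb := kb) (R := R) (K := L) (M := Ω) hRn hBk Ψ₁ Ψ₂
    (fun a => hρk₁ a) (fun a => hρk₂ a) hag (fun a => ⟨algebraMap kb R a, rfl⟩)
  have huR : (⟨u⁻¹, inv_mem huL⟩ : L) ∈ R := (hR _).2 ((W₁.mem_or_inv_mem u).resolve_left hu₁)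
  have hut' : Transcendental kb (((⟨⟨u⁻¹, inv_mem huL⟩, huR⟩ : R) : L)) := by
    intro h3
    apply hut
    have h4 : IsAlgebraic kb (u⁻¹) := h3.algebraMap (A := Ω)
    have h5 := h4.inv
    rwa [inv_inv] at h5
  have hval₁ : ∀ (b : integralClosure R Ω), Ψ₁ b ≠ 0 → ((b : Ω))⁻¹ ∈ W₁ := by
    intro b hb
    by_contra hcon
    apply hb
    rw [e₁]
    refine hρ₁' _ _ ?_
    rw [map_zero, sub_zero, Full.val_lt_one_iff]
    exact Or.inr hcon
  have hval₂ : ∀ (b : integralClosure R Ω), Ψ₂ b ≠ 0 → ((b : Ω))⁻¹ ∈ W₂ := by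
    intro b hb
    by_contra hcon
    apply hb
    rw [e₂]
    refine hρ₂' _ _ ?_
    rw [map_zero, sub_zero, Full.val_lt_one_iff]
    exact Or.inr hcon
  refine ⟨g, fun z => ?_⟩
  obtain ⟨a, b, hab, hab'⟩ := frac_of_hom R htr ⟨⟨u⁻¹, inv_mem huL⟩, huR⟩ hut' Ψ₂ z
  have hgab : g z * (actHom R g b : integralClosure R Ω) = (actHom R g a : integralClosure R Ω) := by
    change g z * g b = g a
    rw [← map_mul, hab]
  constructor
  · intro hz
    have hb : Ψ₂ b ≠ 0 := by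
      rcases hab' with ha | hb
      · intro hb
        apply ha
        rw [e₂] at hb ⊢
        have h3 : (⟨a, hB₂ a⟩ : W₂) = ⟨z, hz⟩ * ⟨b, hB₂ b⟩ := Subtype.ext hab.symm
        rw [h3, map_mul, hb, mul_zero]
      · exact hb
    have hb0 : (b : Ω) ≠ 0 := by
      intro h0
      apply hb
      rw [show b = 0 from Subtype.ext h0, map_zero]
    rw [hg] at hb
    have h3 := hval₁ _ hb
    have h4 : g z = (actHom R g a : integralClosure R Ω) *
        ((actHom R g b : integralClosure R Ω) : Ω)⁻¹ := by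
      rw [← hgab, mul_inv_cancel_right₀]
      exact (map_ne_zero g).2 hb0
    rw [h4]
    exact mul_mem (hB₁ _) h3
  · intro hz
    have hb : Ψ₂ b ≠ 0 := by
      rcases hab' with ha | hb
      · intro hb
        apply ha
        rw [hg, e₁] at hb ⊢
        have h3 : (⟨(actHom R g a : integralClosure R Ω), hB₁ (actHom R g a)⟩ : W₁) =
            ⟨g z, hz⟩ * ⟨(actHom R g b : integralClosure R Ω), hB₁ (actHom R g b)⟩ :=
          Subtype.ext hgab.symm
        rw [h3, map_mul, hb, mul_zero]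
      · exact hb
    have hb0 : (b : Ω) ≠ 0 := by
      intro h0
      apply hb
      rw [show b = 0 from Subtype.ext h0, map_zero]
    have h3 := hval₂ _ hb
    have h4 : z = a * (b : Ω)⁻¹ := by
      rw [← hab, mul_inv_cancel_right₀ hb0]
    rw [h4]
    exact mul_mem (hB₂ _) h3

end

end Pool.Agent.Lib.MP_2f3286_ag.HYP
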