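import Pool.Agent.Lib.MP_2f3286_ag.HYP.CvCore
import Pool.Agent.Lib.MP_2f3286_ag.HYP.CvAlt
import Pool.Agent.Lib.MP_2f3286_ag.SNeigh.Uniq

/-!
# A section is the section of at most one place above a point where `y` is infinite
-/

open Polynomial IntermediateField IsDedekindDomain NumberField
open scoped Pointwise

namespace Pool.Agent.Lib.MP_2f3286_ag.HYP

open Pool.Agent.Lib.MP_2f3286_ag.Full

universe u

section

variable {k kb K M : Type*} [Field k] [Field kb] [Algebra k kb] [Field K] [Algebra k K]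
  [Field M] [Algebra K M] [Algebra kb M]

omit [Algebra k K] in
/-- the residue map of a place stable under the section -/
theorem exists_res (W : ValuationSubring M) (hW : ∀ a : kb, algebraMap kb M a ∈ W)
    (hres : ∀ z ∈ W, ∃ a : kb, W.valuation (z - algebraMap kb M a) < 1)
    {s : Gal(kb/k) →* Gal(M/K)} (hsec : ∀ σ a, s σ (algebraMap kb M a) = algebraMap kb M (σ a))
    {Δ : Subgroup Gal(kb/k)} (hΔ : ∀ σ ∈ Δ, ∀ z : M, z ∈ W ↔ s σ z ∈ W) :
    ∃ ψ : W →+* kb, SNeigh.IsOver W ψ ∧ SNeigh.ResOn s W ψ Δ ∧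
      ∀ z : W, W.valuation ((z : M) - algebraMap kb M (ψ z)) < 1 := by
  obtain ⟨ψ, hψ, hψ'⟩ := exists_residue W hW hres
  refine ⟨ψ, ⟨fun a => ⟨hW a, hψ' _ _ ?_⟩, fun z hz => ?_⟩, fun σ hσ z => ?_, hψ⟩
  · rw [sub_self, map_zero]
    exact zero_lt_one
  · by_contra hcon
    apply hz
    refine hψ' _ _ ?_
    rw [map_zero, sub_zero, Full.val_lt_one_iff]
    exact Or.inr hcon
  · refine ⟨(hΔ σ hσ _).1 z.2, hψ' _ _ ?_⟩
    have h1 := hψ z
    have h2 : s σ z - algebraMap kb M (σ (ψ z)) = s σ ((z : M) - algebraMap kb M (ψ z)) := by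
      rw [map_sub, hsec]
    change W.valuation (s σ z - algebraMap kb M (σ (ψ z))) < 1
    rw [h2]
    rw [Full.val_lt_one_iff] at h1 ⊢
    refine h1.imp (fun h => by rw [h, map_zero]) fun h h3 => h ?_
    rw [hΔ σ hσ, map_inv₀]
    exact h3

omit [Algebra k K] in
/-- change of the embedding -/
theorem place_change {s : Gal(kb/k) →* Gal(M/K)}
    (hsec : ∀ σ a, s σ (algebraMap kb M a) = algebraMap kb M (σ a))
    {F Fb : Type*} [Field F] [Field Fb] [Algebra F Fb] {ι ι' : kb →+* Fb} {ρ : Gal(kb/k)}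
    (hρ : ∀ x, ι (ρ x) = ι' x) {A : ValuationSubring M} {φ : A →+* Fb}
    (h : Sel.IsPlaceOf s F ι A φ) :
    ∃ (A' : ValuationSubring M) (φ' : A' →+* Fb), Sel.IsPlaceOf s F ι' A' φ' ∧
      ∀ z : M, z ∈ A' ↔ s ρ z ∈ A := by
  let A' : ValuationSubring M := A.comap (s ρ : M →+* M)
  let φ' : A' →+* Fb := φ.comp (((s ρ : M →+* M).comp A'.subtype).codRestrict A fun z => z.2)
  have hφ' : ∀ z : A', φ' z = φ ⟨s ρ z, z.2⟩ := fun z => rfl
  refine ⟨A', φ', ⟨fun a => ?_, fun z hz => ?_, fun σ τ hστ z => ?_⟩, fun z => Iff.rfl⟩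
  · obtain ⟨h1, h2⟩ := h.1 (ρ a)
    have h3 : s ρ (algebraMap kb M a) ∈ A := by rw [hsec]; exact h1
    refine ⟨h3, ?_⟩
    rw [hφ', ← hρ, ← h2]
    congr 1
    exact Subtype.ext (hsec ρ a)
  · have h1 := h.2.1 ⟨s ρ z, z.2⟩ (by rw [← hφ']; exact hz)
    change s ρ (z : M)⁻¹ ∈ A
    rw [map_inv₀]
    exact h1
  · have h1 : ∀ a, ι ((ρ * σ * ρ⁻¹) a) = τ (ι a) := by
      intro a
      have h2 := hστ (ρ⁻¹ a)
      rw [← hρ, ← hρ] at h2
      rw [AlgEquiv.mul_apply, AlgEquiv.mul_apply, h2]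
      congr 2
      exact ρ.apply_symm_apply a
    obtain ⟨h2, h3⟩ := h.2.2 _ τ h1 ⟨s ρ z, z.2⟩
    have h4 : s (ρ * σ * ρ⁻¹) (s ρ z) = s ρ (s σ z) := by
      rw [← AlgEquiv.mul_apply, ← AlgEquiv.mul_apply, ← map_mul, ← map_mul, inv_mul_cancel_right]
    have h5 : s ρ (s σ z) ∈ A := by rw [← h4]; exact h2
    refine ⟨h5, ?_⟩
    rw [hφ', hφ', ← h3]
    congr 1
    exact Subtype.ext h4.symm

end

/-- two places of the section over an open subgroup take the same values on units with all their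
roots -/
theorem unit_agree {k : Type u} [Field k] [NumberField k]
    {K : Type*} [Field K] [Algebra k K]
    {M : Type*} [Field M] [Algebra K M] [Algebra.IsAlgebraic K M]
    [Algebra (AlgebraicClosure k) M]
    {s : Gal(AlgebraicClosure k/k) →* Gal(M/K)} (hs : Continuous s)
    {Δ : Subgroup Gal(AlgebraicClosure k/k)} (hΔ : IsOpen (Δ : Set Gal(AlgebraicClosure k/k)))
    {W₀ W₁ : ValuationSubring M} {ψ₀ : W₀ →+* AlgebraicClosure k} {ψ₁ : W₁ →+* AlgebraicClosure k}
    (h₀ : SNeigh.IsOver W₀ ψ₀) (h₁ : SNeigh.IsOver W₁ ψ₁) (hr₀ : SNeigh.ResOn s W₀ ψ₀ Δ)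
    (hr₁ : SNeigh.ResOn s W₁ ψ₁ Δ) {T : M} (hT0 : T ≠ 0)
    (hroot : ∀ n : ℕ, 0 < n → ∃ β : M, β ^ n = T)
    (hT₀ : T ∈ W₀) (hT₀' : T⁻¹ ∈ W₀) (hT₁ : T ∈ W₁) (hT₁' : T⁻¹ ∈ W₁) :
    ψ₁ ⟨T, hT₁⟩ = ψ₀ ⟨T, hT₀⟩ := by
  classical
  have hopen : {σ : Gal(AlgebraicClosure k/k) | s σ T = T} ∈ nhds 1 := by
    have hTalg : IsIntegral K T := (Algebra.IsAlgebraic.isAlgebraic (R := K) T).isIntegral
    have hfin : FiniteDimensional K K⟮T⟯ := adjoin.finiteDimensional hTalg
    have ho := IntermediateField.fixingSubgroup_isOpen (K⟮T⟯ : IntermediateField K M)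
    have hmem : ((K⟮T⟯ : IntermediateField K M).fixingSubgroup : Set Gal(M/K)) ∈ nhds (s 1) := by
      rw [map_one]
      exact ho.mem_nhds (one_mem _)
    refine Filter.mem_of_superset (hs.continuousAt hmem) fun σ hσ => ?_
    have h7 : s σ ∈ (K⟮T⟯ : IntermediateField K M).fixingSubgroup := hσ
    rw [IntermediateField.mem_fixingSubgroup_iff] at h7
    exact h7 T (IntermediateField.mem_adjoin_simple_self _ _)
  obtain ⟨L, hLfin, hLs⟩ := (krullTopology_mem_nhds_one_iff k _ _).mp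
    (Filter.inter_mem hopen (hΔ.mem_nhds (one_mem Δ)))
  have hLnf : NumberField L := NumberField.of_module_finite k L
  have hfix : ∀ σ ∈ L.fixingSubgroup, s σ T = T := fun σ hσ => (hLs hσ).1
  have hLΔ : ∀ σ ∈ L.fixingSubgroup, σ ∈ Δ := fun σ hσ => (hLs hσ).2
  have hunit : ∀ (W : ValuationSubring M) (ψ : W →+* AlgebraicClosure k) (β : M) (hβ : β ∈ W),
      β⁻¹ ∈ W → β ≠ 0 → ψ ⟨β, hβ⟩ ≠ 0 := by
    intro W ψ β hβ hβ' hβ0 h0
    have h6 : ψ (⟨β, hβ⟩ * ⟨β⁻¹, hβ'⟩) = 1 := by
      have h7 : ((⟨β, hβ⟩ : W) * ⟨β⁻¹, hβ'⟩) = 1 := Subtype.ext (mul_inv_cancel₀ hβ0)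
      rw [h7, map_one]
    rw [map_mul, h0, zero_mul] at h6
    exact zero_ne_one h6
  have hmem : ∀ (W : ValuationSubring M) {β : M} {n : ℕ}, 0 < n → β ^ n ∈ W → β ∈ W := by
    intro W β n hn h
    rcases W.mem_or_inv_mem β with h1 | h1
    · exact h1
    rw [← W.valuation_le_one_iff] at h ⊢
    rw [map_pow] at h
    by_contra h2
    exact absurd h (not_le.2 (one_lt_pow₀ (not_le.1 h2) hn.ne'))
  have hquot : ∀ n : ℕ, 1 ≤ n → ∃ w : L, (w : AlgebraicClosure k) ^ n =
      ψ₁ ⟨T, hT₁⟩ / ψ₀ ⟨T, hT₀⟩ := by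
    intro n hn
    obtain ⟨β, hβ⟩ := hroot n hn
    have hβ0 : β ≠ 0 := by
      rintro rfl
      rw [zero_pow (by omega)] at hβ
      exact hT0 hβ.symm
    have hβ₀ : β ∈ W₀ := hmem W₀ hn (by rw [hβ]; exact hT₀)
    have hβ₁ : β ∈ W₁ := hmem W₁ hn (by rw [hβ]; exact hT₁)
    have hβ₀' : β⁻¹ ∈ W₀ := hmem W₀ hn (by rw [inv_pow, hβ]; exact hT₀')
    have hβ₁' : β⁻¹ ∈ W₁ := hmem W₁ hn (by rw [inv_pow, hβ]; exact hT₁')
    have hqL : ψ₁ ⟨β, hβ₁⟩ / ψ₀ ⟨β, hβ₀⟩ ∈ L := by
      apply mem_of_fixed_L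
      intro σ hσ
      have h6 : (s σ β / β) ^ n = 1 := by
        rw [div_pow, ← map_pow, hβ, hfix σ hσ, div_self hT0]
      obtain ⟨ζ, hζ⟩ := root_of_unity_mem (AlgebraicClosure k) M hn h6
      have hζ' : s σ β = algebraMap (AlgebraicClosure k) M ζ * β := by
        rw [hζ, div_mul_cancel₀ _ hβ0]
      have hζ0 : ζ ≠ 0 := by
        rintro rfl
        rw [map_zero, zero_mul, _root_.map_eq_zero] at hζ'
        exact hβ0 hζ'
      have e0 : ∀ (W : ValuationSubring M) (ψ : W →+* AlgebraicClosure k), SNeigh.IsOver W ψ →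
          SNeigh.ResOn s W ψ Δ → ∀ (hβ : β ∈ W), ζ * ψ ⟨β, hβ⟩ = σ (ψ ⟨β, hβ⟩) := by
        intro W ψ hW hr hβW
        obtain ⟨h7, h8⟩ := hr σ (hLΔ σ hσ) ⟨β, hβW⟩
        obtain ⟨h9, h10⟩ := hW.1 ζ
        rw [← h8]
        have h11 : (⟨s σ β, h7⟩ : W) = ⟨_, h9⟩ * ⟨β, hβW⟩ := Subtype.ext hζ'
        rw [h11, map_mul, h10]
      rw [map_div₀, ← e0 W₁ ψ₁ h₁ hr₁, ← e0 W₀ ψ₀ h₀ hr₀, mul_div_mul_left _ _ hζ0]
    refine ⟨⟨_, hqL⟩, ?_⟩
    change (ψ₁ ⟨β, hβ₁⟩ / ψ₀ ⟨β, hβ₀⟩) ^ n = _
    rw [div_pow, ← map_pow, ← map_pow]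
    congr 2
    · exact Subtype.ext hβ
    · exact Subtype.ext hβ
  choose! w hw using hquot
  have hne₀ := hunit W₀ ψ₀ T hT₀ hT₀' hT0
  have hne₁ := hunit W₁ ψ₁ T hT₁ hT₁' hT0
  have hw1 : w 1 = 1 := by
    refine GU.eq_one_of_divisible_nf ?_ fun n hn => ⟨w n, ?_⟩
    · intro h0
      have h6 := hw 1 le_rfl
      rw [h0, ZeroMemClass.coe_zero, zero_pow one_ne_zero] at h6
      exact div_ne_zero hne₁ hne₀ h6.symm
    · apply Subtype.ext
      have h6 := hw 1 le_rfl
      rw [pow_one] at h6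
      rw [h6]
      exact hw n hn
  have h6 := hw 1 le_rfl
  rw [hw1, OneMemClass.coe_one, one_pow] at h6
  exact (div_eq_one_iff_eq hne₀).mp h6.symm

/-- **A section is the section of at most one place at which `y` has a pole.** -/
theorem cusp_unique {k : Type u} [Field k] [NumberField k]
    {K : Type*} [Field K] [Algebra k K] {f : k[X]} (hf : f.Monic) {g : ℕ}
    (hfd : f.natDegree = 2 * g + 1) {x y : K} (hx : Transcendental k x)
    (hxy : y ^ 2 = aeval x f) (hK : adjoin k {x, y} = ⊤) [FiniteDimensional (adjoin k {x}) K]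
    (R : Subalgebra k K) (hxR : IsIntegral R x) (hyR : IsIntegral R y) (hyR' : IsIntegral R y⁻¹)
    {M : Type*} [Field M] [Algebra K M] [IsGalois K M]
    [Algebra (AlgebraicClosure k) M] [Algebra k M]
    [IsScalarTower k K M] [IsScalarTower k (AlgebraicClosure k) M]
    (hmax : Pt.IsRadClosed R M (AlgebraicClosure k))
    (hfree : ∀ A ≤ geomGroup K M (AlgebraicClosure k),
      OpenIn (geomGroup K M (AlgebraicClosure k)) A → ∀ (ℓ : ℕ) [Fact ℓ.Prime],
      Finite (A →ₜ* Multiplicative (ZMod ℓ)) ∧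
      ∀ f : A →ₜ* Multiplicative (ZMod ℓ), ∃ F : A →ₜ* Multiplicative ℤ_[ℓ], ∀ a,
        PadicInt.toZMod (F a).toAdd = (f a).toAdd)
    {s : Gal(AlgebraicClosure k/k) →* Gal(M/K)} (hs : Continuous s)
    (hsec : ∀ σ a, s σ (algebraMap (AlgebraicClosure k) M a) =
      algebraMap (AlgebraicClosure k) M (σ a))
    {Δ : Subgroup Gal(AlgebraicClosure k/k)} (hΔ : IsOpen (Δ : Set Gal(AlgebraicClosure k/k)))
    {W₀ W₁ : ValuationSubring M} (h₀ : ∀ a, algebraMap (AlgebraicClosure k) M a ∈ W₀)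
    (h₁ : ∀ a, algebraMap (AlgebraicClosure k) M a ∈ W₁)
    (hy₀ : algebraMap K M y ∉ W₀) (hy₁ : algebraMap K M y ∉ W₁)
    (hΔ₀ : ∀ σ ∈ Δ, ∀ z : M, z ∈ W₀ ↔ s σ z ∈ W₀) (hΔ₁ : ∀ σ ∈ Δ, ∀ z : M, z ∈ W₁ ↔ s σ z ∈ W₁) :
    W₁ = W₀ := by
  classical
  have hK0 : CharZero K := charZero_of_injective_algebraMap (algebraMap k K).injective
  have hM0 : CharZero M := charZero_of_injective_algebraMap (algebraMap K M).injective
  have hΩ0 : CharZero (AlgebraicClosure M) :=
    charZero_of_injective_algebraMap (algebraMap M _).injective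
  have halg : Algebra.IsAlgebraic K (AlgebraicClosure M) := Algebra.IsAlgebraic.trans K M _
  have htr : Algebra.trdeg k (AlgebraicClosure M) = 1 :=
    trdeg_top (K := K) (Full.trdeg_of_finite hx)
  have htr' : Algebra.trdeg (AlgebraicClosure k) (AlgebraicClosure M) = 1 := by
    have h1 := lift_trdeg_add_eq k (AlgebraicClosure k) (AlgebraicClosure M)
    rw [htr, trdeg_eq_zero (R := k) (A := AlgebraicClosure k)] at h1
    simp only [Cardinal.lift_one, Cardinal.lift_zero, zero_add] at h1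
    exact Cardinal.lift_eq_one.mp h1
  have htow : IsScalarTower R K M := IsScalarTower.of_algebraMap_eq fun r => rfl
  have hxM : Transcendental (AlgebraicClosure k) (algebraMap K M x) :=
    Pt.PTAux.transc (k := k) x hx
  have halgM : ∀ z : M, IsAlgebraic
      (adjoin (AlgebraicClosure k) {algebraMap K M x}) z := Full.isAlgebraic_M (k := k) x
  -- the root
  obtain ⟨a₁, ha₁⟩ := IsAlgClosed.exists_root (f.map (algebraMap k (AlgebraicClosure k))) (by
    rw [degree_map, degree_eq_natDegree hf.ne_zero, hfd]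
    exact_mod_cast (by omega : 2 * g + 1 ≠ 0))
  obtain ⟨q, hq⟩ := dvd_iff_isRoot.mpr ha₁
  set a : M := algebraMap (AlgebraicClosure k) M a₁ with ha
  set u : M := algebraMap K M x - a with hu
  have hyM : (algebraMap K M y) ^ 2 = u * aeval (algebraMap K M x) q := by
    rw [← map_pow, hxy, ← aeval_algebraMap_apply]
    have h1 : aeval (algebraMap K M x) f =
        aeval (algebraMap K M x) (f.map (algebraMap k (AlgebraicClosure k))) := by
      rw [aeval_map_algebraMap]
    rw [h1, hq, map_mul, map_sub, aeval_X, aeval_C]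
  have hyx : (algebraMap K M y) ^ 2 = aeval (algebraMap K M x) f := by
    rw [← map_pow, hxy, ← aeval_algebraMap_apply]
  have hy0 : algebraMap K M y ≠ 0 := by
    intro h
    rw [_root_.map_eq_zero] at h
    rw [h, zero_pow two_ne_zero] at hxy
    exact hx ⟨f, hf.ne_zero, hxy.symm⟩
  have hu0 : u ≠ 0 := by
    intro h
    rw [h, zero_mul] at hyM
    exact hy0 (pow_eq_zero_iff two_ne_zero |>.1 hyM)
  have hBk : ∀ c : AlgebraicClosure k, IsIntegral R (algebraMap (AlgebraicClosure k) M c) :=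
    Pt.integral_const R
  have hui : IsIntegral R u := hxR.algebraMap.sub (hBk a₁)
  have hui' : IsIntegral R u⁻¹ := by
    have h1 : u⁻¹ = aeval (algebraMap K M x) q * (algebraMap K M y)⁻¹ ^ 2 := by
      apply inv_eq_of_mul_eq_one_right
      rw [← mul_assoc, ← hyM, ← mul_pow, mul_inv_cancel₀ hy0, one_pow]
    rw [h1]
    refine IsIntegral.mul ?_ (IsIntegral.pow ?_ 2)
    · rw [aeval_eq_sum_range]
      refine IsIntegral.sum _ fun i _ => ?_
      rw [Algebra.smul_def]
      exact (hBk _).mul (hxR.algebraMap.pow i)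
    · rw [← map_inv₀]
      exact hyR'.algebraMap
  -- the root of order two
  obtain ⟨β, hβ⟩ := Full.root_of_unit hmax u hui hui' 2 one_le_two
  have hβ0 : β ≠ 0 := by
    rintro rfl
    rw [zero_pow two_ne_zero] at hβ
    exact hu0 hβ.symm
  have hβi : IsIntegral R β := IsIntegral.of_pow two_pos (by rw [hβ]; exact hui)
  have hβi' : IsIntegral R β⁻¹ := IsIntegral.of_pow two_pos (by rw [inv_pow, hβ]; exact hui')
  set T : M := algebraMap K M y / β ^ (2 * g + 1) with hT
  have hT0 : T ≠ 0 := div_ne_zero hy0 (pow_ne_zero _ hβ0)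
  have hTi : IsIntegral R T := by
    rw [hT, div_eq_mul_inv, ← inv_pow]
    exact hyR.algebraMap.mul (hβi'.pow _)
  have hTi' : IsIntegral R T⁻¹ := by
    rw [hT, inv_div, div_eq_mul_inv, ← map_inv₀]
    exact (hβi.pow _).mul hyR'.algebraMap
  -- the function `x` has a pole
  have hneg : ∀ W : ValuationSubring M, (∀ a, algebraMap (AlgebraicClosure k) M a ∈ W) →
      algebraMap K M y ∉ W → algebraMap K M x ∉ W := by
    intro W hW hyW hxW
    apply hyW
    have h1 : (algebraMap K M y) ^ 2 ∈ W := by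
      rw [hyx]
      refine aeval_mem_val (fun c => ?_) hxW f
      rw [IsScalarTower.algebraMap_apply k (AlgebraicClosure k) M]
      exact hW _
    rcases W.mem_or_inv_mem (algebraMap K M y) with h | h
    · exact h
    have h2 : algebraMap K M y = (algebraMap K M y) ^ 2 * (algebraMap K M y)⁻¹ := by
      rw [pow_two, mul_inv_cancel_right₀ hy0]
    rw [h2]
    exact mul_mem h1 h
  have hval : ∀ W : ValuationSubring M, (∀ a, algebraMap (AlgebraicClosure k) M a ∈ W) →
      algebraMap K M y ∉ W → W.valuation T = 1 := by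
    intro W hW hyW
    have hxW := hneg W hW hyW
    have hkW : ∀ c : k, algebraMap k M c ∈ W := fun c => by
      rw [IsScalarTower.algebraMap_apply k (AlgebraicClosure k) M]
      exact hW _
    have hx1 : 1 < W.valuation (algebraMap K M x) := by
      rw [← not_le, W.valuation_le_one_iff]; exact hxW
    have h1 : W.valuation (algebraMap K M y) ^ 2 = W.valuation (algebraMap K M x) ^ (2 * g + 1) := by
      rw [← map_pow, hyx, val_aeval_eq W hkW hf.ne_zero hxW, hfd]
    have h2 : W.valuation u = W.valuation (algebraMap K M x) := by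
      rw [hu]
      refine W.valuation.map_sub_eq_of_lt_left ?_
      exact lt_of_le_of_lt ((W.valuation_le_one_iff _).2 (hW a₁)) hx1
    have h3 : W.valuation β ^ 2 = W.valuation (algebraMap K M x) := by
      rw [← map_pow, hβ, h2]
    have h4 : W.valuation T ^ 2 = 1 := by
      rw [hT, map_div₀, map_pow, div_pow, h1, ← pow_mul, mul_comm (2 * g + 1) 2, pow_mul, h3,
        div_self (pow_ne_zero _ (zero_lt_one.trans hx1).ne')]
    exact (pow_left_inj₀ zero_le zero_le two_ne_zero).1 (h4.trans (one_pow 2).symm)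
  have hmemT : ∀ W : ValuationSubring M, W.valuation T = 1 → T ∈ W ∧ T⁻¹ ∈ W := by
    intro W h
    refine ⟨(W.valuation_le_one_iff _).1 h.le, (W.valuation_le_one_iff _).1 ?_⟩
    rw [map_inv₀, h, inv_one]
  have hT₀ := hmemT W₀ (hval W₀ h₀ hy₀)
  have hT₁ := hmemT W₁ (hval W₁ h₁ hy₁)
  -- the residue maps
  have hres : ∀ W : ValuationSubring M, (∀ a, algebraMap (AlgebraicClosure k) M a ∈ W) →
      algebraMap K M y ∉ W → ∀ z ∈ W, ∃ c : AlgebraicClosure k,
        W.valuation (z - algebraMap (AlgebraicClosure k) M c) < 1 := by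
    intro W hW hyW z hz
    exact Pt.MaxOver.residue_const _ hxM halgM W hW (fun h => hyW (by
      rw [h]; exact ValuationSubring.mem_top _)) z hz
  obtain ⟨ψ₀, hO₀, hR₀, hψ₀⟩ := exists_res W₀ h₀ (hres W₀ h₀ hy₀) hsec hΔ₀
  obtain ⟨ψ₁, hO₁, hR₁, hψ₁⟩ := exists_res W₁ h₁ (hres W₁ h₁ hy₁) hsec hΔ₁
  have hagree := unit_agree hs hΔ hO₀ hO₁ hR₀ hR₁ hT0
    (fun n hn => Full.root_of_unit hmax T hTi hTi' n hn) hT₀.1 hT₀.2 hT₁.1 hT₁.2
  -- the automorphism of the algebraic closure
  obtain ⟨V₀, hV₀⟩ := Pt.MaxOver.exists_ext_val (Ω := AlgebraicClosure M) W₀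
  obtain ⟨V₁, hV₁⟩ := Pt.MaxOver.exists_ext_val (Ω := AlgebraicClosure M) W₁
  have hm₀ : ∀ z : M, z ∈ W₀ ↔ algebraMap M (AlgebraicClosure M) z ∈ V₀ := fun z => by
    rw [← hV₀]; rfl
  have hm₁ : ∀ z : M, z ∈ W₁ ↔ algebraMap M (AlgebraicClosure M) z ∈ V₁ := fun z => by
    rw [← hV₁]; rfl
  have huW : ∀ W : ValuationSubring M, (∀ a, algebraMap (AlgebraicClosure k) M a ∈ W) →
      algebraMap K M y ∉ W → u ∉ W := by
    intro W hW hyW huW
    apply hneg W hW hyW
    have h1 : algebraMap K M x = u + a := by rw [hu]; ring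
    rw [h1]
    exact add_mem huW (hW a₁)
  have hut : Transcendental (AlgebraicClosure k) (algebraMap M (AlgebraicClosure M) u) := by
    intro h
    apply hxM
    have h1 : IsAlgebraic (AlgebraicClosure k) u :=
      (isAlgebraic_algebraMap_iff (algebraMap M (AlgebraicClosure M)).injective).1 h
    have h2 : algebraMap K M x = u + a := by rw [hu]; ring
    rw [h2]
    exact h1.add (isAlgebraic_algebraMap a₁)
  obtain ⟨γ, hγ⟩ := plc_trans htr' hut (W₁ := V₀) (W₂ := V₁)
    (fun c => by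
      rw [IsScalarTower.algebraMap_apply (AlgebraicClosure k) M (AlgebraicClosure M), ← hm₀]
      exact h₀ c)
    (fun c => by
      rw [IsScalarTower.algebraMap_apply (AlgebraicClosure k) M (AlgebraicClosure M), ← hm₁]
      exact h₁ c)
    (fun h => huW W₀ h₀ hy₀ ((hm₀ _).2 h)) (fun h => huW W₁ h₁ hy₁ ((hm₁ _).2 h))
  have hγk : ∀ c : AlgebraicClosure k, γ (algebraMap _ (AlgebraicClosure M) c) =
      algebraMap _ (AlgebraicClosure M) c := fun c => γ.commutes ⟨_,
        IntermediateField.algebraMap_mem (rootField (AlgebraicClosure k)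
          (algebraMap M (AlgebraicClosure M) u)) c⟩
  have hγr : ∀ (n : ℕ) (δ : M), 0 < n → δ ^ n = u → γ (algebraMap M (AlgebraicClosure M) δ) =
      algebraMap M (AlgebraicClosure M) δ := by
    intro n δ hn hδ
    have h5 : algebraMap M (AlgebraicClosure M) δ ∈ rootField (AlgebraicClosure k)
        (algebraMap M (AlgebraicClosure M) u) := by
      refine subset_adjoin _ _ ⟨n, hn, ?_⟩
      rw [← map_pow, hδ]
    exact γ.commutes ⟨_, h5⟩
  have hγx : γ (algebraMap K (AlgebraicClosure M) x) = algebraMap K (AlgebraicClosure M) x := by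
    have h2 : algebraMap K (AlgebraicClosure M) x = algebraMap M (AlgebraicClosure M) u +
        algebraMap (AlgebraicClosure k) (AlgebraicClosure M) a₁ := by
      rw [hu, map_sub, ha, ← IsScalarTower.algebraMap_apply, ← IsScalarTower.algebraMap_apply]
      ring
    rw [h2, map_add, hγr 1 u one_pos (pow_one u), hγk]
  have hkfix : ∀ c : k, γ (algebraMap k (AlgebraicClosure M) c) =
      algebraMap k (AlgebraicClosure M) c := by
    intro c
    rw [IsScalarTower.algebraMap_apply k (AlgebraicClosure k) (AlgebraicClosure M), hγk]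
  have hγy : γ (algebraMap K (AlgebraicClosure M) y) = algebraMap K (AlgebraicClosure M) y := by
    have h1 : (γ (algebraMap K (AlgebraicClosure M) y)) ^ 2 =
        (algebraMap K (AlgebraicClosure M) y) ^ 2 := by
      have h2 : (algebraMap K (AlgebraicClosure M) y) ^ 2 =
          aeval (algebraMap K (AlgebraicClosure M) x) f := by
        rw [← map_pow, hxy, ← aeval_algebraMap_apply]
      rw [← map_pow, h2, aeval_def, ← AlgEquiv.coe_ringEquiv, ← RingEquiv.coe_toRingHom, hom_eval₂]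
      have h3 : ((γ : AlgebraicClosure M ≃+* AlgebraicClosure M) :
          AlgebraicClosure M →+* AlgebraicClosure M).comp (algebraMap k (AlgebraicClosure M)) =
          algebraMap k (AlgebraicClosure M) := RingHom.ext hkfix
      rw [h3]
      congr 1
    rcases eq_or_eq_neg_of_sq_eq_sq _ _ h1 with h2 | h2
    · exact h2
    exfalso
    -- the value of `T` changes the sign
    have hγT : γ (algebraMap M (AlgebraicClosure M) T) = -algebraMap M (AlgebraicClosure M) T := by
      rw [hT, map_div₀, map_div₀, map_pow, map_pow, hγr 2 β two_pos hβ,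
        ← IsScalarTower.algebraMap_apply, h2, neg_div]
    set c₀ := ψ₀ ⟨T, hT₀.1⟩ with hc₀
    have e₀ : (T - algebraMap (AlgebraicClosure k) M c₀)⁻¹ ∉ W₀ ∨
        T - algebraMap (AlgebraicClosure k) M c₀ = 0 := by
      have h3 := hψ₀ ⟨T, hT₀.1⟩
      rw [Full.val_lt_one_iff] at h3
      exact h3.symm
    have e₁ : (T - algebraMap (AlgebraicClosure k) M c₀)⁻¹ ∉ W₁ ∨
        T - algebraMap (AlgebraicClosure k) M c₀ = 0 := by
      have h3 := hψ₁ ⟨T, hT₁.1⟩
      rw [hagree, Full.val_lt_one_iff] at h3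
      exact h3.symm
    have hTc : γ (algebraMap M (AlgebraicClosure M) (T - algebraMap (AlgebraicClosure k) M c₀)) =
        algebraMap M (AlgebraicClosure M) (-T - algebraMap (AlgebraicClosure k) M c₀) := by
      have e5 : algebraMap M (AlgebraicClosure M) (T - algebraMap (AlgebraicClosure k) M c₀) =
          algebraMap M (AlgebraicClosure M) T -
            algebraMap (AlgebraicClosure k) (AlgebraicClosure M) c₀ := by
        rw [map_sub, ← IsScalarTower.algebraMap_apply]
      have e6 : algebraMap M (AlgebraicClosure M) (-T - algebraMap (AlgebraicClosure k) M c₀) =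
          -algebraMap M (AlgebraicClosure M) T -
            algebraMap (AlgebraicClosure k) (AlgebraicClosure M) c₀ := by
        rw [map_sub, map_neg, ← IsScalarTower.algebraMap_apply]
      rw [e5, e6]
      refine (map_sub γ _ _).trans ?_
      rw [hγT, hγk]
    have e₂ : W₀.valuation (-T - algebraMap (AlgebraicClosure k) M c₀) < 1 := by
      rw [Full.val_lt_one_iff]
      rcases e₁ with h3 | h3
      · right
        intro h4
        apply h3
        rw [hm₁, hγ]
        have h5 : γ (algebraMap M (AlgebraicClosure M)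
            (T - algebraMap (AlgebraicClosure k) M c₀)⁻¹) = algebraMap M (AlgebraicClosure M)
              (-T - algebraMap (AlgebraicClosure k) M c₀)⁻¹ := by
          rw [map_inv₀ (algebraMap M (AlgebraicClosure M)), map_inv₀ γ, hTc,
            map_inv₀ (algebraMap M (AlgebraicClosure M))]
        rw [h5, ← hm₀]
        exact h4
      · left
        apply (algebraMap M (AlgebraicClosure M)).injective
        rw [← hTc, h3, map_zero (algebraMap M (AlgebraicClosure M)), map_zero γ]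
    have e₃ : W₀.valuation (T - algebraMap (AlgebraicClosure k) M c₀) < 1 := hψ₀ ⟨T, hT₀.1⟩
    have e₄ : W₀.valuation (algebraMap (AlgebraicClosure k) M 2 * T) < 1 := by
      have h3 : algebraMap (AlgebraicClosure k) M 2 * T =
          (T - algebraMap (AlgebraicClosure k) M c₀) -
            (-T - algebraMap (AlgebraicClosure k) M c₀) := by
        rw [map_ofNat]; ring
      rw [h3]
      exact W₀.valuation.map_sub_lt e₃ e₂
    rw [map_mul, Gen.val_const W₀ h₀ two_ne_zero, one_mul, hval W₀ h₀ hy₀] at e₄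
    exact lt_irrefl _ e₄
  have hγK : ∀ z : K, γ (algebraMap K (AlgebraicClosure M) z) =
      algebraMap K (AlgebraicClosure M) z := by
    intro z
    have hz : z ∈ adjoin k {x, y} := by rw [hK]; exact mem_top
    induction hz using adjoin_induction with
    | mem z hz =>
      rcases hz with rfl | hz
      · exact hγx
      · rw [Set.mem_singleton_iff] at hz
        rw [hz]
        exact hγy
    | algebraMap c =>
      rw [← IsScalarTower.algebraMap_apply k K (AlgebraicClosure M)]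
      exact hkfix c
    | add a b _ _ ha hb => rw [map_add, map_add, ha, hb]
    | inv a _ ha => rw [map_inv₀, map_inv₀, ha]
    | mul a b _ _ ha hb => rw [map_mul, map_mul, ha, hb]
  let γ' : Gal(AlgebraicClosure M/K) :=
    AlgEquiv.ofRingEquiv (f := (γ : AlgebraicClosure M ≃+* AlgebraicClosure M)) hγK
  let v : Gal(M/K) := AlgEquiv.restrictNormal γ' M
  have hv : ∀ z : M, algebraMap M (AlgebraicClosure M) (v z) =
      γ (algebraMap M (AlgebraicClosure M) z) := fun z =>
    AlgEquiv.restrictNormal_commutes γ' M z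
  have hvk : ∀ c : AlgebraicClosure k, v (algebraMap _ M c) = algebraMap _ M c := by
    intro c
    apply (algebraMap M (AlgebraicClosure M)).injective
    rw [hv, ← IsScalarTower.algebraMap_apply, hγk]
  have hvr : ∀ (n : ℕ) (δ : M), 0 < n → δ ^ n = u → v δ = δ := by
    intro n δ hn hδ
    apply (algebraMap M (AlgebraicClosure M)).injective
    rw [hv, hγr n δ hn hδ]
  have hvW : ∀ z : M, z ∈ W₁ ↔ v z ∈ W₀ := by
    intro z
    rw [hm₁, hγ, ← hv, ← hm₀]
  have halgu : ∀ z : M, IsAlgebraic (adjoin (AlgebraicClosure k) {u}) z := by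
    intro z
    have h1 : adjoin (AlgebraicClosure k) {algebraMap K M x} ≤ adjoin (AlgebraicClosure k) {u} := by
      rw [adjoin_simple_le_iff]
      have h2 : algebraMap K M x = u + a := by rw [hu]; ring
      rw [h2]
      exact add_mem (mem_adjoin_simple_self _ u) (IntermediateField.algebraMap_mem _ a₁)
    let _ : Algebra (adjoin (AlgebraicClosure k) {algebraMap K M x})
      (adjoin (AlgebraicClosure k) {u}) := (inclusion h1).toAlgebra
    have : IsScalarTower (adjoin (AlgebraicClosure k) {algebraMap K M x})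
      (adjoin (AlgebraicClosure k) {u}) M := IsScalarTower.of_algebraMap_eq fun _ => rfl
    exact (show IsAlgebraic (adjoin (AlgebraicClosure k) {algebraMap K M x}) z from halgM z).tower_top _
  -- `v` commutes with the section on an open subgroup
  let St : Subgroup Gal(AlgebraicClosure k/k) := MulAction.stabilizer _ a₁
  have hSt : IsOpen (St : Set Gal(AlgebraicClosure k/k)) :=
    stabilizer_isOpen_of_isIntegral (K := k) _
  have hcomm : ∀ σ ∈ Δ ⊓ St, v * s σ = s σ * v := by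
    rintro σ ⟨hσ, hσa⟩
    have hσa' : σ a₁ = a₁ := hσa
    have hsu : s σ u = u := by
      rw [hu, map_sub, ha, hsec, hσa', (s σ).commutes]
    have key := eq_one_of_fix W₀ h₀ (huW W₀ h₀ hy₀) halgu (hres W₀ h₀ hy₀)
      (fun n hn => Full.root_of_unit hmax u hui hui' n hn) (v * s σ * v⁻¹ * (s σ)⁻¹)
      (fun c => by
        rw [AlgEquiv.mul_apply, AlgEquiv.mul_apply, AlgEquiv.mul_apply]
        have h1 : (s σ)⁻¹ (algebraMap _ M c) = algebraMap _ M (σ⁻¹ c) := by
          rw [← map_inv]; exact hsec σ⁻¹ c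
        have h2 : v⁻¹ (algebraMap _ M (σ⁻¹ c)) = algebraMap _ M (σ⁻¹ c) := by
          have h3 : v⁻¹ (v (algebraMap _ M (σ⁻¹ c))) = algebraMap _ M (σ⁻¹ c) :=
            v.symm_apply_apply _
          rwa [hvk] at h3
        rw [h1, h2, hsec, hvk]
        congr 1
        exact σ.apply_symm_apply c)
      (fun n δ hn hδ => by
        rw [AlgEquiv.mul_apply, AlgEquiv.mul_apply, AlgEquiv.mul_apply]
        have h1 : ((s σ)⁻¹ δ) ^ n = u := by
          have h4 : (s σ)⁻¹ u = u := by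
            have h5 : (s σ)⁻¹ (s σ u) = u := (s σ).symm_apply_apply u
            rwa [hsu] at h5
          rw [← map_pow, hδ, h4]
        have h2 : v⁻¹ ((s σ)⁻¹ δ) = (s σ)⁻¹ δ := by
          have h3 : v⁻¹ (v ((s σ)⁻¹ δ)) = (s σ)⁻¹ δ := v.symm_apply_apply _
          rwa [hvr n _ hn h1] at h3
        have h6 : s σ ((s σ)⁻¹ δ) = δ := (s σ).apply_symm_apply δ
        rw [h2, h6, hvr n δ hn hδ])
      (fun z => by
        rw [AlgEquiv.mul_apply, AlgEquiv.mul_apply, AlgEquiv.mul_apply, ← hvW, ← hΔ₁ σ hσ, hvW]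
        have h3 : v (v⁻¹ ((s σ)⁻¹ z)) = (s σ)⁻¹ z := v.apply_symm_apply _
        rw [h3, hΔ₀ σ hσ]
        have h6 : s σ ((s σ)⁻¹ z) = z := (s σ).apply_symm_apply z
        rw [h6])
    have h1 : v * s σ * v⁻¹ = s σ := mul_inv_eq_one.mp key
    exact mul_inv_eq_iff_eq_mul.mp h1
  have hv1 : v = 1 := cent_sub x hx hfree s hsec (Δ ⊓ St) (hΔ.inter hSt) v hvk hcomm
  ext z
  rw [hvW, hv1, AlgEquiv.one_apply]

end Pool.Agent.Lib.MP_2f3286_ag.HYP
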