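import Mathlib
import Pool.Agent.Lib.MP_2f3286_ag.Gen.Val
import Pool.Agent.Lib.MP_2f3286_ag.Full.FullCore

/-!
# Automorphisms fixing a place at which a function, all of whose roots they fix, has a pole
-/

open Polynomial

namespace Pool.Agent.Lib.MP_2f3286_ag.HYP

section

variable {E L : Type*} [Field E] [Field L] [Algebra E L]

/-- the value of a polynomial in a function with a pole -/
theorem val_aeval_eq (V : ValuationSubring L) (hV : ∀ c : E, algebraMap E L c ∈ V) {p : E[X]}
    (hp0 : p ≠ 0) {x : L} (hx : x ∉ V) :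
    V.valuation (aeval x p) = V.valuation x ^ p.natDegree := by
  have hx1 : 1 < V.valuation x := by
    rw [← not_le, V.valuation_le_one_iff]; exact hx
  have hlead : V.valuation (p.coeff p.natDegree • x ^ p.natDegree) = V.valuation x ^ p.natDegree := by
    rw [Algebra.smul_def, map_mul, map_pow, Gen.val_const V hV, one_mul]
    rw [coeff_natDegree]
    exact leadingCoeff_ne_zero.mpr hp0
  have hlow : V.valuation (∑ k ∈ Finset.range p.natDegree, p.coeff k • x ^ k) <
      V.valuation (p.coeff p.natDegree • x ^ p.natDegree) := by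
    rw [hlead]
    refine Valuation.map_sum_lt _ ?_ fun k hk => ?_
    · exact (pow_ne_zero _ (zero_lt_one.trans hx1).ne')
    · rw [Algebra.smul_def, map_mul, map_pow]
      have h1 := (V.valuation_le_one_iff _).mpr (hV (p.coeff k))
      calc V.valuation (algebraMap E L (p.coeff k)) * V.valuation x ^ k ≤ 1 * V.valuation x ^ k :=
            mul_le_mul_left h1 _
        _ = V.valuation x ^ k := one_mul _
        _ < V.valuation x ^ p.natDegree := pow_lt_pow_right₀ hx1 (Finset.mem_range.mp hk)
  rw [aeval_eq_sum_range, Finset.sum_range_succ, Valuation.map_add_eq_of_lt_right _ hlow, hlead]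

/-- the fractions of polynomials in a function with a pole -/
theorem val_adjoin_eq (V : ValuationSubring L) (hV : ∀ c : E, algebraMap E L c ∈ V) {x : L}
    (hx : x ∉ V) {z : L} (hz : z ∈ IntermediateField.adjoin E {x}) (hz0 : z ≠ 0) :
    ∃ m : ℤ, V.valuation z = V.valuation x ^ m := by
  have hx1 : 1 < V.valuation x := by
    rw [← not_le, V.valuation_le_one_iff]; exact hx
  obtain ⟨r, s, rfl⟩ := (IntermediateField.mem_adjoin_simple_iff E _).1 hz
  have hr : r ≠ 0 := by
    rintro rfl
    rw [map_zero, zero_div] at hz0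
    exact hz0 rfl
  have hs : s ≠ 0 := by
    rintro rfl
    rw [map_zero, div_zero] at hz0
    exact hz0 rfl
  refine ⟨(r.natDegree : ℤ) - s.natDegree, ?_⟩
  rw [map_div₀, val_aeval_eq V hV hr hx, val_aeval_eq V hV hs hx,
    zpow_sub₀ (zero_lt_one.trans hx1).ne', zpow_natCast, zpow_natCast]

/-- in a vanishing sum two terms have the same value -/
theorem exists_val_eq (V : ValuationSubring L) {ι : Type*} (s : Finset ι) (a : ι → L)
    (h : ∑ i ∈ s, a i = 0) (h0 : ∃ i ∈ s, a i ≠ 0) :
    ∃ i ∈ s, ∃ j ∈ s, i ≠ j ∧ a i ≠ 0 ∧ V.valuation (a i) = V.valuation (a j) := by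
  classical
  obtain ⟨i₀, hi₀, h0⟩ := h0
  obtain ⟨i, hi, hmax⟩ := s.exists_max_image (fun i => V.valuation (a i)) ⟨i₀, hi₀⟩
  have hi0 : V.valuation (a i) ≠ 0 := by
    have h1 := hmax i₀ hi₀
    intro h2
    rw [h2] at h1
    have h3 := le_antisymm h1 zero_le
    exact h0 ((V.valuation.zero_iff).1 h3)
  by_contra hcon
  push Not at hcon
  have h1 : V.valuation (∑ j ∈ s.erase i, a j) < V.valuation (a i) := by
    refine Valuation.map_sum_lt _ hi0 fun j hj => ?_
    rw [Finset.mem_erase] at hj
    refine lt_of_le_of_ne (hmax j hj.2) fun h2 => ?_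
    exact hcon i hi j hj.2 hj.1.symm (fun h => hi0 (by rw [h, map_zero])) h2.symm
  rw [← Finset.add_sum_erase s a hi] at h
  have h2 : a i = -∑ j ∈ s.erase i, a j := eq_neg_of_add_eq_zero_left h
  have h3 := congrArg V.valuation h2
  rw [Valuation.map_neg] at h3
  rw [← h3] at h1
  exact lt_irrefl _ h1

/-- the value group has rational rank one -/
theorem rank_one (V : ValuationSubring L) (hV : ∀ c : E, algebraMap E L c ∈ V) {x : L}
    (hx : x ∉ V) {b : L} (hb : b ≠ 0) (halg : IsAlgebraic (IntermediateField.adjoin E {x}) b) :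
    ∃ i : ℕ, 0 < i ∧ ∃ j : ℤ, V.valuation b ^ i = V.valuation x ^ j := by
  have hx1 : 1 < V.valuation x := by
    rw [← not_le, V.valuation_le_one_iff]; exact hx
  have hx0 : V.valuation x ≠ 0 := (zero_lt_one.trans hx1).ne'
  have hb0 : V.valuation b ≠ 0 := (V.valuation.ne_zero_iff).2 hb
  obtain ⟨p, hp, hpb⟩ := halg
  rw [aeval_eq_sum_range] at hpb
  obtain ⟨i, -, j, -, hij, hi0, hv⟩ := exists_val_eq V _ _ hpb ⟨p.natDegree, by simp, by
    intro h
    rw [Algebra.smul_def, mul_eq_zero] at h
    rcases h with h | h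
    · rw [coeff_natDegree] at h
      have h1 : p.leadingCoeff = 0 := (algebraMap _ L).injective (h.trans (map_zero _).symm)
      exact hp (leadingCoeff_eq_zero.1 h1)
    · exact hb (eq_zero_of_pow_eq_zero h)⟩
  have hc : ∀ l, p.coeff l ≠ 0 → ∃ m : ℤ, V.valuation (p.coeff l • b ^ l) =
      V.valuation x ^ m * V.valuation b ^ (l : ℤ) := by
    intro l hl
    obtain ⟨m, hm⟩ := val_adjoin_eq V hV hx (p.coeff l).2 (fun h => hl (Subtype.ext h))
    refine ⟨m, ?_⟩
    rw [Algebra.smul_def, map_mul, map_pow, zpow_natCast, ← hm]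
    rfl
  have hi1 : p.coeff i ≠ 0 := fun h => hi0 (by rw [h, zero_smul])
  have hj1 : p.coeff j ≠ 0 := fun h => by
    rw [h, zero_smul, map_zero] at hv
    exact hi0 ((V.valuation.zero_iff).1 hv)
  obtain ⟨m, hm⟩ := hc i hi1
  obtain ⟨m', hm'⟩ := hc j hj1
  rw [hm, hm'] at hv
  have key : V.valuation b ^ ((i : ℤ) - j) = V.valuation x ^ (m' - m) := by
    rw [zpow_sub₀ hb0, zpow_sub₀ hx0, div_eq_div_iff (zpow_ne_zero _ hb0) (zpow_ne_zero _ hx0)]
    rw [mul_comm, hv]
  rcases lt_or_gt_of_ne hij with h | h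
  · refine ⟨j - i, by omega, -(m' - m), ?_⟩
    rw [zpow_neg, ← key, ← zpow_neg, ← zpow_natCast]
    congr 1
    omega
  · refine ⟨i - j, by omega, m' - m, ?_⟩
    rw [← key, ← zpow_natCast]
    congr 1
    omega

end

/-- a root of an automorphism of finite order -/
theorem exists_iterate {K M : Type*} [Field K] [Field M] [Algebra K M] [Algebra.IsAlgebraic K M]
    (g : Gal(M/K)) (b : M) : ∃ r : ℕ, 0 < r ∧ (g ^ r) b = b := by
  classical
  have hfin : Finite ((minpoly K b).rootSet M) := inferInstance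
  have hint : IsIntegral K b := Algebra.IsIntegral.isIntegral b
  let f : ℕ → (minpoly K b).rootSet M := fun i => ⟨(g ^ i) b, by
    rw [mem_rootSet]
    refine ⟨minpoly.ne_zero hint, ?_⟩
    have h1 : aeval ((g ^ i) b) (minpoly K b) = (g ^ i) (aeval b (minpoly K b)) :=
      (aeval_algHom_apply ((g ^ i : Gal(M/K)) : M →ₐ[K] M) b _)
    rw [h1, minpoly.aeval, map_zero]⟩
  obtain ⟨i, j, hij, h⟩ := Finite.exists_ne_map_eq_of_infinite f
  have h1 : (g ^ i) b = (g ^ j) b := congrArg Subtype.val h
  rcases lt_or_gt_of_ne hij with h2 | h2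
  · refine ⟨j - i, by omega, ?_⟩
    have h3 : g ^ j = g ^ i * g ^ (j - i) := by rw [← pow_add]; congr 1; omega
    rw [h3, AlgEquiv.mul_apply] at h1
    exact ((g ^ i).injective h1).symm
  · refine ⟨i - j, by omega, ?_⟩
    have h3 : g ^ i = g ^ j * g ^ (i - j) := by rw [← pow_add]; congr 1; omega
    rw [h3, AlgEquiv.mul_apply] at h1
    exact (g ^ j).injective h1

/-- **An automorphism over the constants which fixes a place and all roots of a function with a pole there
is trivial.** -/
theorem eq_one_of_fix {K M C : Type*} [Field K] [Field M] [Algebra K M] [Algebra.IsAlgebraic K M]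
    [Field C] [Algebra C M] [CharZero C] (V : ValuationSubring M) (hV : ∀ c : C, algebraMap C M c ∈ V)
    {x : M} (hx : x ∉ V) (halg : ∀ z : M, IsAlgebraic (IntermediateField.adjoin C {x}) z)
    (hres : ∀ z ∈ V, ∃ c : C, V.valuation (z - algebraMap C M c) < 1)
    (hroot : ∀ n : ℕ, 0 < n → ∃ β : M, β ^ n = x)
    (g : Gal(M/K)) (hgC : ∀ c : C, g (algebraMap C M c) = algebraMap C M c)
    (hgx : ∀ (n : ℕ) (β : M), 0 < n → β ^ n = x → g β = β)
    (hgV : ∀ z : M, g z ∈ V ↔ z ∈ V) : g = 1 := by
  classical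
  have hx1 : 1 < V.valuation x := by
    rw [← not_le, V.valuation_le_one_iff]; exact hx
  have hx0 : V.valuation x ≠ 0 := (zero_lt_one.trans hx1).ne'
  have hxx : x ≠ 0 := (V.valuation.ne_zero_iff).1 hx0
  have hg1 : g x = x := hgx 1 x one_pos (pow_one x)
  -- automorphisms of this kind
  have hle : ∀ z w : M, V.valuation z ≤ V.valuation w ↔ V.valuation (g z) ≤ V.valuation (g w) := by
    intro z w
    by_cases hw : w = 0
    · rw [hw, map_zero, map_zero, map_zero, le_zero_iff, le_zero_iff, V.valuation.zero_iff,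
        V.valuation.zero_iff, map_eq_zero]
    have h1 : ∀ z w : M, w ≠ 0 → (V.valuation z ≤ V.valuation w ↔ z / w ∈ V) := by
      intro z w hw
      rw [← V.valuation_le_one_iff, map_div₀, div_le_one₀ (zero_lt_iff.2 ((V.valuation.ne_zero_iff).2 hw))]
    rw [h1 z w hw, h1 (g z) (g w) ((map_ne_zero g).2 hw), ← map_div₀, hgV]
  have hlt : ∀ z w : M, V.valuation z < V.valuation w ↔ V.valuation (g z) < V.valuation (g w) := by
    intro z w
    rw [← not_le, ← not_le, hle]
  -- `g z / z` is near `1`
  have key : ∀ z : M, z ≠ 0 → V.valuation (g z - z) < V.valuation z := by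
    intro z hz
    obtain ⟨i, hi, j, hij⟩ := rank_one V hV hx hz (halg z)
    obtain ⟨β, hβ⟩ := hroot i hi
    have hβ0 : β ≠ 0 := by
      rintro rfl
      rw [zero_pow hi.ne'] at hβ
      exact hxx hβ.symm
    have hgβ : g β = β := hgx i β hi hβ
    have hzβ : V.valuation z = V.valuation (β ^ j) := by
      have h1 : V.valuation z ^ i = V.valuation (β ^ j) ^ i := by
        rw [hij, ← hβ, map_pow, map_zpow₀, ← zpow_natCast, ← zpow_natCast, ← zpow_mul, ← zpow_mul,
          mul_comm]
      exact (pow_left_inj₀ zero_le zero_le hi.ne').1 h1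
    set ε := z / β ^ j with hε
    have hβj : β ^ j ≠ 0 := zpow_ne_zero _ hβ0
    have hzε : z = ε * β ^ j := by rw [hε, div_mul_cancel₀ _ hβj]
    have hε1 : V.valuation ε = 1 := by
      rw [hε, map_div₀, hzβ, div_self ((V.valuation.ne_zero_iff).2 hβj)]
    obtain ⟨c, hc⟩ := hres ε ((V.valuation_le_one_iff _).1 hε1.le)
    have hc' : V.valuation (g ε - algebraMap C M c) < 1 := by
      have h1 := (hlt (ε - algebraMap C M c) 1).1 (by rw [map_one]; exact hc)
      rw [map_one, map_one, map_sub, hgC] at h1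
      exact h1
    have h2 : V.valuation (g ε - ε) < 1 := by
      have h3 : g ε - ε = (g ε - algebraMap C M c) - (ε - algebraMap C M c) := by ring
      rw [h3]
      exact V.valuation.map_sub_lt hc' hc
    have h3 : g z - z = (g ε - ε) * β ^ j := by
      conv_lhs => rw [hzε]
      rw [map_mul, map_zpow₀, hgβ]
      ring
    rw [h3, map_mul, ← hzβ]
    calc V.valuation (g ε - ε) * V.valuation z < 1 * V.valuation z :=
          mul_lt_mul_of_pos_right h2 (zero_lt_iff.2 ((V.valuation.ne_zero_iff).2 hz))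
      _ = V.valuation z := one_mul _
  have hpow : ∀ (i : ℕ) (z : M), z ≠ 0 → V.valuation ((g ^ i) z - z) < V.valuation z := by
    intro i
    induction i with
    | zero =>
      intro z hz
      rw [pow_zero, AlgEquiv.one_apply, sub_self, map_zero]
      exact zero_lt_iff.2 ((V.valuation.ne_zero_iff).2 hz)
    | succ i ih =>
      intro z hz
      have h1 : (g ^ (i + 1)) z - z = ((g ^ i) (g z) - g z) + (g z - z) := by
        rw [pow_succ, AlgEquiv.mul_apply]; ring
      have h2 : V.valuation (g z) = V.valuation z := by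
        have h3 : g z = z + (g z - z) := by ring
        rw [h3]
        exact Valuation.map_add_eq_of_lt_left _ (key z hz)
      rw [h1]
      refine V.valuation.map_add_lt ?_ (key z hz)
      rw [← h2]
      exact ih _ ((map_ne_zero g).2 hz)
  -- the automorphism is trivial
  apply AlgEquiv.ext
  intro b
  rw [AlgEquiv.one_apply]
  by_contra hb
  set d := g b - b with hd
  have hd0 : d ≠ 0 := sub_ne_zero.2 hb
  obtain ⟨r, hr, hrb⟩ := exists_iterate g b
  have hsum : ∑ i ∈ Finset.range r, (g ^ i) d = 0 := by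
    have h1 : ∀ i, (g ^ i) d = (g ^ (i + 1)) b - (g ^ i) b := by
      intro i
      rw [hd, map_sub, pow_succ, AlgEquiv.mul_apply]
    simp only [h1]
    rw [Finset.sum_range_sub (fun i => (g ^ i) b), hrb, pow_zero, AlgEquiv.one_apply, sub_self]
  have h1 : ∑ i ∈ Finset.range r, ((g ^ i) d - d) = -((r : M) * d) := by
    rw [Finset.sum_sub_distrib, hsum, Finset.sum_const, Finset.card_range, nsmul_eq_mul, zero_sub]
  have h2 : V.valuation (∑ i ∈ Finset.range r, ((g ^ i) d - d)) < V.valuation d :=
    Valuation.map_sum_lt _ ((V.valuation.ne_zero_iff).2 hd0) fun i _ => hpow i d hd0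
  have hr1 : V.valuation (r : M) = 1 := by
    have h3 : (r : M) = algebraMap C M (r : C) := (map_natCast _ _).symm
    rw [h3]
    exact Gen.val_const V hV (Nat.cast_ne_zero.2 hr.ne')
  rw [h1, Valuation.map_neg, map_mul, hr1, one_mul] at h2
  exact lt_irrefl _ h2

end Pool.Agent.Lib.MP_2f3286_ag.HYP
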