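import Pool.Agent.Lib.MP_2f3286_ag.HYP.Rng

/-!
# The ring of functions is a Dedekind domain   (module Ded, 75 minutes)

PROOF. `CR φ` is finite and free over `E[X]` (Mathlib, `QuadraticAlgebra`), so it is noetherian and integral over `E[X]`, hence of dimension `≤ 1`
(a nonzero prime ideal meets `E[X]` in a nonzero prime: the norm of an element; `Ideal.isMaximal_of_isIntegral_of_isMaximal_comap`).
Integrally closed: an element of the fraction field is `(a + b y) / d` with `d` in `E[X]` (multiply by the conjugate of the denominator). If it is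
integral over `CR φ` then over `E[X]`, and so is its conjugate; the sum `2 a / d` and the product `(a ^ 2 - φ b ^ 2) / d ^ 2` are in `E(X)` and
integral over `E[X]`, so in `E[X]`: `d ∣ a` (`2` is invertible), then `d ^ 2 ∣ φ b ^ 2`, so `d ∣ b` because `φ` is squarefree
(`Polynomial.Separable.squarefree`; divide `d`, `b` by their greatest common divisor). One can avoid the fraction field: show
that an element `z` of the fraction field which is integral satisfies `z ^ 2 - s z + n = 0` with `s`, `n` in `E[X]` ...; or use
`IsIntegralClosure` of `E[X]` in the fraction field of `CR φ` (`IsIntegralClosure.isDedekindDomain`); the builder chooses.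
Another way: a noetherian domain in which all maximal ideals are invertible is Dedekind; but the present statement is over an arbitrary field.
If you prefer: assume `[IsAlgClosed E]` (all applications are over algebraically closed fields) and show that every maximal ideal is the
ideal of a point (proof in the module `Max`) and invertible (`P.idl * P.inv.idl = (X - x_P)`, proof in the module `Nrm`).
-/

open Polynomial

noncomputable section

namespace Pool.Agent.Lib.MP_2f3286_ag.HYP

variable {E : Type*} [Field E] {g : ℕ} {φ : E[X]}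

/-- squarefree cancellation -/
theorem dvd_of_sq_dvd {d b : E[X]} (hφ : Squarefree φ) (h : d ^ 2 ∣ φ * b ^ 2) : d ∣ b := by
  by_cases hb : b = 0
  · rw [hb]
    exact dvd_zero d
  obtain ⟨b', d', c, hrel, hcb, hcd⟩ := UniqueFactorizationMonoid.exists_reduced_factors b hb d
  have hc : c ≠ 0 := by
    rintro rfl
    exact hb (by rw [← hcb, zero_mul])
  have h1 : c ^ 2 * d' ^ 2 ∣ c ^ 2 * (φ * b' ^ 2) := by
    rw [← hcb, ← hcd] at h
    convert h using 1 <;> ring
  have h2 : d' ^ 2 ∣ φ * b' ^ 2 := (mul_dvd_mul_iff_left (pow_ne_zero 2 hc)).mp h1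
  have h3 : IsCoprime (d' ^ 2) (b' ^ 2) := (isRelPrime_iff_isCoprime.mp hrel).symm.pow
  have h4 : d' ^ 2 ∣ φ := h3.dvd_of_dvd_mul_right h2
  have h5 : IsUnit d' := hφ d' (by rw [← pow_two]; exact h4)
  rw [← hcd, ← hcb]
  exact mul_dvd_mul_left c h5.dvd

/-- integral fractions are polynomials -/
private theorem ded_int {K : Type*} [Field K] [Algebra E[X] K] [FaithfulSMul E[X] K]
    {d a : E[X]} (hd : d ≠ 0) {t : K} (ht : IsIntegral E[X] t)
    (h : algebraMap E[X] K d * t = algebraMap E[X] K a) : d ∣ a := by
  let _ := FractionRing.liftAlgebra E[X] K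
  have hd1 : algebraMap E[X] (FractionRing E[X]) d ≠ 0 := by
    rw [Ne, IsFractionRing.to_map_eq_zero_iff]
    exact hd
  have hd2 : algebraMap E[X] K d ≠ 0 := by
    rw [Ne, FaithfulSMul.algebraMap_eq_zero_iff]
    exact hd
  have h1 : t = algebraMap (FractionRing E[X]) K
      (algebraMap E[X] (FractionRing E[X]) a / algebraMap E[X] (FractionRing E[X]) d) := by
    rw [map_div₀, ← IsScalarTower.algebraMap_apply, ← IsScalarTower.algebraMap_apply, ← h]
    field_simp
  rw [h1, isIntegral_algebraMap_iff (algebraMap (FractionRing E[X]) K).injective] at ht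
  obtain ⟨y, hy⟩ := IsIntegrallyClosed.algebraMap_eq_of_integral ht
  refine ⟨y, ?_⟩
  apply IsFractionRing.injective E[X] (FractionRing E[X])
  rw [map_mul, hy]
  field_simp

/-- conjugation -/
private def dedStar (φ : E[X]) : CR φ ≃ₐ[E[X]] CR φ where
  toFun := star
  invFun := star
  left_inv := star_star
  right_inv := star_star
  map_mul' a b := by rw [StarMul.star_mul, mul_comm]
  map_add' := star_add
  commutes' r := by
    ext
    · simp
    · simp

theorem isDedekind [IsAlgClosed E] (hφ : Good g φ) : IsDedekindDomain (CR φ) := by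
  have hdom := isDomain hφ
  have hint : Algebra.IsIntegral E[X] (CR φ) := inferInstance
  have hnoe : IsNoetherianRing (CR φ) := IsNoetherianRing.of_finite E[X] (CR φ)
  have hdim : Ring.DimensionLEOne (CR φ) := Ring.DimensionLEOne.of_isIntegral E[X] (CR φ)
  have hcl : IsIntegrallyClosed (CR φ) := by
    rw [isIntegrallyClosed_iff (FractionRing (CR φ))]
    intro z hz
    have hz' : IsIntegral E[X] z := isIntegral_trans (R := E[X]) z hz
    have hinj : Function.Injective (algebraMap E[X] (FractionRing (CR φ))) := by
      rw [IsScalarTower.algebraMap_eq E[X] (CR φ) (FractionRing (CR φ))]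
      exact (IsFractionRing.injective (CR φ) _).comp QuadraticAlgebra.algebraMap_injective
    have hfaith : FaithfulSMul E[X] (FractionRing (CR φ)) :=
      (faithfulSMul_iff_algebraMap_injective _ _).mpr hinj
    let σ : FractionRing (CR φ) ≃ₐ[E[X]] FractionRing (CR φ) :=
      IsFractionRing.algEquivOfAlgEquiv (dedStar φ)
    have hσ : ∀ r : CR φ, σ (algebraMap (CR φ) (FractionRing (CR φ)) r) =
        algebraMap (CR φ) (FractionRing (CR φ)) (star r) := fun r =>
      IsFractionRing.algEquivOfAlgEquiv_algebraMap (dedStar φ) r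
    obtain ⟨x, v, hv, hxv⟩ := IsFractionRing.div_surjective (A := CR φ) z
    have hv0 : v ≠ 0 := nonZeroDivisors.ne_zero hv
    have hvK : algebraMap (CR φ) (FractionRing (CR φ)) v ≠ 0 := by
      rw [Ne, IsFractionRing.to_map_eq_zero_iff]
      exact hv0
    obtain ⟨a, b, hw⟩ : ∃ a b : E[X], x * star v = ⟨a, b⟩ := ⟨_, _, rfl⟩
    obtain ⟨d, hdd⟩ : ∃ d : E[X], d = v.norm := ⟨_, rfl⟩
    have hd : d ≠ 0 := by
      rw [hdd]
      exact norm_ne_zero hφ hv0
    have hdv : algebraMap E[X] (CR φ) d = v * star v := by
      rw [hdd]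
      exact QuadraticAlgebra.algebraMap_norm_eq_mul_star v
    have e1 : algebraMap E[X] (FractionRing (CR φ)) d * z =
        algebraMap (CR φ) (FractionRing (CR φ)) ⟨a, b⟩ := by
      rw [← hw, IsScalarTower.algebraMap_apply E[X] (CR φ) (FractionRing (CR φ)), hdv, ← hxv,
        map_mul, map_mul]
      field_simp
    have e2 : algebraMap E[X] (FractionRing (CR φ)) d * σ z =
        algebraMap (CR φ) (FractionRing (CR φ)) ⟨a, -b⟩ := by
      have h1 := congrArg σ e1
      rw [map_mul, AlgEquiv.commutes, hσ] at h1
      rw [h1]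
      congr 1
      ext
      · simp
      · simp
    have i1 : IsIntegral E[X] (z + σ z) := hz'.add (hz'.map σ)
    have i2 : IsIntegral E[X] (z * σ z) := hz'.mul (hz'.map σ)
    have d1 : d ∣ 2 * a := ded_int hd i1 (by
      rw [mul_add, e1, e2, ← map_add,
        IsScalarTower.algebraMap_apply E[X] (CR φ) (FractionRing (CR φ))]
      congr 1
      refine QuadraticAlgebra.ext ?_ ?_
      · rw [QuadraticAlgebra.algebraMap_re, QuadraticAlgebra.re_add]
        ring
      · rw [QuadraticAlgebra.algebraMap_im, QuadraticAlgebra.im_add]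
        ring)
    have d2 : d ^ 2 ∣ a ^ 2 - φ * b ^ 2 := ded_int (pow_ne_zero 2 hd) i2 (by
      have h1 : algebraMap E[X] (FractionRing (CR φ)) (d ^ 2) * (z * σ z) =
          (algebraMap E[X] (FractionRing (CR φ)) d * z) *
            (algebraMap E[X] (FractionRing (CR φ)) d * σ z) := by
        rw [map_pow]
        ring
      rw [h1, e1, e2, ← map_mul,
        IsScalarTower.algebraMap_apply E[X] (CR φ) (FractionRing (CR φ))]
      congr 1
      refine QuadraticAlgebra.ext ?_ ?_
      · rw [QuadraticAlgebra.algebraMap_re, QuadraticAlgebra.re_mul]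
        ring
      · rw [QuadraticAlgebra.algebraMap_im, QuadraticAlgebra.im_mul]
        ring)
    have d3 : d ∣ a := by
      have h2 : IsUnit (2 : E[X]) := by
        have h3 : IsUnit (C (2 : E)) := Polynomial.isUnit_C.mpr (isUnit_iff_ne_zero.mpr hφ.two)
        rwa [show (C (2 : E)) = (2 : E[X]) from map_ofNat C 2] at h3
      exact (h2.dvd_mul_left).mp d1
    have d4 : d ∣ b := by
      refine dvd_of_sq_dvd hφ.sep.squarefree ?_
      have h3 : d ^ 2 ∣ a ^ 2 := pow_dvd_pow_of_dvd d3 2
      have h4 := dvd_sub h3 d2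
      rwa [sub_sub_cancel] at h4
    obtain ⟨a', ha'⟩ := d3
    obtain ⟨b', hb'⟩ := d4
    refine ⟨⟨a', b'⟩, ?_⟩
    have hd0 : algebraMap E[X] (FractionRing (CR φ)) d ≠ 0 := by
      rw [Ne, map_eq_zero_iff _ hinj]
      exact hd
    apply mul_left_cancel₀ hd0
    rw [e1, IsScalarTower.algebraMap_apply E[X] (CR φ) (FractionRing (CR φ)), ← map_mul]
    congr 1
    ext
    · simp [ha']
    · simp [hb']
  exact { hnoe, hdim, hcl, hdom with }

end Pool.Agent.Lib.MP_2f3286_ag.HYP
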