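import Mathlib

/-!
# The Jacobian of an odd hyperelliptic curve over a field

`φ` is a polynomial over a field `E` (separable, of odd degree, `E` algebraically closed in the applications).
`Pt φ` is the set of affine points of `y ^ 2 = φ(x)`, `CR φ` the ring of functions `a(x) + b(x) y`,
`J φ` the group of divisors on `Pt φ` modulo divisors of functions, the Picard group of the affine curve,
which is the Jacobian since there is exactly one point at infinity.
-/

open Polynomial

noncomputable section

namespace Pool.Agent.Lib.MP_2f3286_ag.HYP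

variable {E : Type*} [Field E]

/-- the affine points of `y ^ 2 = φ(x)` -/
@[ext] structure Pt (φ : E[X]) where
  x : E
  y : E
  eqn : y ^ 2 = φ.eval x

/-- the ring of functions `a(x) + b(x) y`, `y ^ 2 = φ(x)` -/
abbrev CR (φ : E[X]) := QuadraticAlgebra E[X] φ 0

/-- the value of a function at a point -/
def Pt.ev {φ : E[X]} (P : Pt φ) : CR φ →+* E where
  toFun h := h.re.eval P.x + h.im.eval P.x * P.y
  map_one' := by
    rw [QuadraticAlgebra.re_one, QuadraticAlgebra.im_one]
    simp
  map_zero' := by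
    rw [QuadraticAlgebra.re_zero, QuadraticAlgebra.im_zero]
    simp
  map_add' a b := by
    rw [QuadraticAlgebra.re_add, QuadraticAlgebra.im_add, eval_add, eval_add]
    ring
  map_mul' a b := by
    rw [QuadraticAlgebra.re_mul, QuadraticAlgebra.im_mul]
    simp only [eval_add, eval_mul, eval_zero]
    have := P.eqn
    linear_combination (-(eval P.x a.im) * (eval P.x b.im)) * this

theorem Pt.ev_apply {φ : E[X]} (P : Pt φ) (h : CR φ) :
    P.ev h = h.re.eval P.x + h.im.eval P.x * P.y := rfl

/-- the ideal of functions which vanish at `P` -/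
def Pt.idl {φ : E[X]} (P : Pt φ) : Ideal (CR φ) := RingHom.ker P.ev

theorem Pt.mem_idl {φ : E[X]} {P : Pt φ} {h : CR φ} :
    h ∈ P.idl ↔ h.re.eval P.x + h.im.eval P.x * P.y = 0 := RingHom.mem_ker

/-- the product of the ideals of the points of a multiset -/
def idm {φ : E[X]} (m : Multiset (Pt φ)) : Ideal (CR φ) := (m.map Pt.idl).prod

/-- the divisors of functions: generated by the effective divisors `m` with `(h) = ∏ (ideal of P)`,
`P` in `m`, for a function `h ≠ 0` -/
def Prin (φ : E[X]) : AddSubgroup (Pt φ →₀ ℤ) :=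
  AddSubgroup.closure {D | ∃ (h : CR φ) (m : Multiset (Pt φ)), h ≠ 0 ∧ Ideal.span {h} = idm m ∧
    D = (m.map fun P => Finsupp.single P (1 : ℤ)).sum}

/-- divisors modulo divisors of functions -/
def J (φ : E[X]) := (Pt φ →₀ ℤ) ⧸ Prin φ

instance J.instAddCommGroup (φ : E[X]) : AddCommGroup (J φ) :=
  QuotientAddGroup.Quotient.addCommGroup (Prin φ)

/-- the class of a divisor -/
def J.mk (φ : E[X]) : (Pt φ →₀ ℤ) →+ J φ := QuotientAddGroup.mk' (Prin φ)

/-- the class of a point -/
def cl {φ : E[X]} (P : Pt φ) : J φ := J.mk φ (Finsupp.single P 1)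

/-- the class of an effective divisor -/
def clm {φ : E[X]} (m : Multiset (Pt φ)) : J φ := (m.map cl).sum

/-- the conjugate point -/
def Pt.inv {φ : E[X]} (P : Pt φ) : Pt φ := ⟨P.x, -P.y, by rw [neg_sq, P.eqn]⟩

/-- the function `X - a` -/
def lin {φ : E[X]} (a : E) : CR φ := ⟨X - C a, 0⟩

theorem clm_zero {φ : E[X]} : clm (0 : Multiset (Pt φ)) = 0 := by
  rw [clm, Multiset.map_zero, Multiset.sum_zero]

theorem clm_add {φ : E[X]} (m m' : Multiset (Pt φ)) : clm (m + m') = clm m + clm m' := by
  rw [clm, Multiset.map_add, Multiset.sum_add, clm, clm]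

theorem clm_singleton {φ : E[X]} (P : Pt φ) : clm {P} = cl P := by
  rw [clm, Multiset.map_singleton, Multiset.sum_singleton]

theorem clm_cons {φ : E[X]} (P : Pt φ) (m : Multiset (Pt φ)) : clm (P ::ₘ m) = cl P + clm m := by
  rw [clm, Multiset.map_cons, Multiset.sum_cons, clm]

theorem idm_zero {φ : E[X]} : idm (0 : Multiset (Pt φ)) = 1 := by
  rw [idm, Multiset.map_zero, Multiset.prod_zero]

theorem idm_add {φ : E[X]} (m m' : Multiset (Pt φ)) : idm (m + m') = idm m * idm m' := by
  rw [idm, Multiset.map_add, Multiset.prod_add, idm, idm]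

theorem idm_singleton {φ : E[X]} (P : Pt φ) : idm {P} = P.idl := by
  rw [idm, Multiset.map_singleton, Multiset.prod_singleton]

theorem idm_cons {φ : E[X]} (P : Pt φ) (m : Multiset (Pt φ)) : idm (P ::ₘ m) = P.idl * idm m := by
  rw [idm, Multiset.map_cons, Multiset.prod_cons, idm]

theorem J.mk_eq_zero {φ : E[X]} {D : Pt φ →₀ ℤ} : J.mk φ D = 0 ↔ D ∈ Prin φ :=
  QuotientAddGroup.eq_zero_iff D

theorem J.mk_surjective {φ : E[X]} : Function.Surjective (J.mk φ) :=
  QuotientAddGroup.mk'_surjective (Prin φ)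

/-- the class of a multiset, in the group of divisors -/
theorem clm_eq_mk {φ : E[X]} (m : Multiset (Pt φ)) :
    clm m = J.mk φ (m.map fun P => Finsupp.single P (1 : ℤ)).sum := by
  induction m using Multiset.induction_on with
  | empty => rw [clm_zero, Multiset.map_zero, Multiset.sum_zero]; rfl
  | cons P m ih => rw [clm_cons, ih, Multiset.map_cons, Multiset.sum_cons]; rfl

/-- the divisor of a function has class zero -/
theorem clm_of_span {φ : E[X]} {m : Multiset (Pt φ)} {h : CR φ} (h0 : h ≠ 0)
    (hm : Ideal.span {h} = idm m) : clm m = 0 := by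
  rw [clm_eq_mk]
  exact J.mk_eq_zero.mpr (AddSubgroup.subset_closure ⟨h, m, h0, hm, rfl⟩)

/-- homomorphisms from `J φ` are given by the images of the points -/
def J.lift {φ : E[X]} {G : Type*} [AddCommGroup G] (p : Pt φ → G)
    (hp : ∀ (h : CR φ) (m : Multiset (Pt φ)), h ≠ 0 → Ideal.span {h} = idm m →
      (m.map p).sum = 0) : J φ →+ G :=
  QuotientAddGroup.lift (Prin φ) (Finsupp.liftAddHom fun P => (zmultiplesHom G (p P))) (by
    rw [Prin, AddSubgroup.closure_le]
    rintro D ⟨h, m, h0, hm, rfl⟩
    rw [SetLike.mem_coe, AddMonoidHom.mem_ker, map_multiset_sum, Multiset.map_map, ← hp h m h0 hm]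
    congr 1
    apply Multiset.map_congr rfl
    intro P _
    simp)

theorem J.lift_cl {φ : E[X]} {G : Type*} [AddCommGroup G] (p : Pt φ → G)
    (hp : ∀ (h : CR φ) (m : Multiset (Pt φ)), h ≠ 0 → Ideal.span {h} = idm m →
      (m.map p).sum = 0) (P : Pt φ) : J.lift p hp (cl P) = p P := by
  change Finsupp.liftAddHom (fun P => (zmultiplesHom G (p P))) (Finsupp.single P 1) = p P
  simp

theorem J.hom_ext {φ : E[X]} {G : Type*} [AddCommGroup G] {u v : J φ →+ G}
    (h : ∀ P, u (cl P) = v (cl P)) : u = v := by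
  apply QuotientAddGroup.addMonoidHom_ext
  apply Finsupp.addHom_ext'
  intro P
  apply AddMonoidHom.ext_int
  exact h P

theorem J.map_clm {φ : E[X]} {G : Type*} [AddCommGroup G] (u : J φ →+ G) (m : Multiset (Pt φ)) :
    u (clm m) = (m.map fun P => u (cl P)).sum := by
  rw [clm, map_multiset_sum, Multiset.map_map]
  rfl

end Pool.Agent.Lib.MP_2f3286_ag.HYP
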