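import Pool.Agent.Lib.MP_2f3286_ag.GU.Geo
import Pool.Agent.Lib.MP_2f3286_ag.Koe.LocalPlace
import Pool.Agent.Lib.MP_2f3286_ag.Koe.Converse
import Pool.Agent.Lib.MP_2f3286_ag.Koe.Main
import Pool.Agent.Lib.MP_2f3286_ag.PD.Loc

/-!
# The end of the proof: a function fixed by the section with unit values at almost all places
-/

open IsDedekindDomain NumberField Polynomial
open scoped WithZero
open Pool.Agent.Lib.MP_2f3286_bir (IsPlaceOf)

namespace Pool.Agent.Lib.MP_2f3286_ag.HYP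

universe u

/-- One point of the line is sufficient over a field with one infinite place. -/
theorem enough_one (k : Type u) [Field k] [NumberField k]
    (hinf : Fintype.card (InfinitePlace k) ≤ 1) :
    GU.EnoughPoints.{u, u} k ∅ (fun _ : Fin 1 => (X : k[X])) := by
  refine ⟨k, inferInstance, inferInstance, inferInstance, Or.inl ⟨k, inferInstance,
    inferInstance, inferInstance, ∅, 1, fun _ : Fin 1 => (X : k[X]), ?_, ?_, ?_, ?_, ?_⟩⟩
  · rintro w ⟨v, hv, -⟩
    simp at hv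
  · intro i
    refine ⟨?_, i, ?_⟩
    · change 0 < (X : k[X]).natDegree
      rw [natDegree_X]
      exact one_pos
    · rw [Polynomial.map_X]
  · intro i i' hii
    exact absurd (Subsingleton.elim i i') hii
  · rw [Finset.card_empty, add_zero]
    omega
  · rw [Finset.card_empty, add_zero, Module.finrank_self, mul_one]
    exact hinf

variable {k : Type u} [Field k] [NumberField k] {K : Type*} [Field K] [Algebra k K]
  {Ω : Type*} [Field Ω] [Algebra K Ω] [IsAlgClosure K Ω]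
  [Algebra (AlgebraicClosure k) Ω] [Algebra k Ω]
  [IsScalarTower k K Ω] [IsScalarTower k (AlgebraicClosure k) Ω]

theorem finish (hinf : Fintype.card (InfinitePlace k) = 1) (htr : Algebra.trdeg k K = 1)
    (s : Gal(AlgebraicClosure k/k) →* Gal(Ω/K)) (hs : Continuous s)
    (hsec : ∀ σ a, s σ (algebraMap (AlgebraicClosure k) Ω a) =
      algebraMap (AlgebraicClosure k) Ω (σ a))
    (T : Ω) (hT : ∀ σ, s σ T = T) (hTc : ∀ c : AlgebraicClosure k, T ≠ algebraMap _ Ω c)
    (B : Finset (HeightOneSpectrum (𝓞 k)))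
    (hval : ∀ (v : HeightOneSpectrum (𝓞 k))
      (ι : AlgebraicClosure k →ₐ[k] AlgebraicClosure (v.adicCompletion k))
      (A : ValuationSubring Ω) (φ : A →+* AlgebraicClosure (v.adicCompletion k)),
      IsPlaceOf s (v.adicCompletion k)
        (ι : _ →+* AlgebraicClosure (v.adicCompletion k)) A φ →
      ∃ h : T ∈ A, φ ⟨T, h⟩ ≠ 0 ∧ (v ∉ B → ∀ y : v.adicCompletion k,
        φ ⟨T, h⟩ = algebraMap _ _ y → Valued.v y = (1 : ℤᵐ⁰))) :
    ∃ (A₀ : ValuationSubring Ω) (ψ₀ : A₀ →+* AlgebraicClosure k),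
      IsPlaceOf s k (RingHom.id _) A₀ ψ₀ ∧
      (∀ (f : K) (h : algebraMap K Ω f ∈ A₀),
        ∃ a : k, ψ₀ ⟨algebraMap K Ω f, h⟩ = algebraMap k (AlgebraicClosure k) a) ∧
      ∀ (A₁ : ValuationSubring Ω) (ψ₁ : A₁ →+* AlgebraicClosure k),
        IsPlaceOf s k (RingHom.id _) A₁ ψ₁ →
        A₁ = A₀ ∧ ∀ (a : A₁) (b : A₀), (a : Ω) = b → ψ₁ a = ψ₀ b := by
  classical
  have hcl : IsAlgClosed Ω := IsAlgClosure.isAlgClosed K
  have halg : Algebra.IsAlgebraic K Ω := IsAlgClosure.isAlgebraic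
  -- the fixed field of `s`
  let L : IntermediateField K Ω :=
    { carrier := {x | ∀ σ, s σ x = x}
      mul_mem' := fun ha hb σ => by rw [map_mul, ha σ, hb σ]
      add_mem' := fun ha hb σ => by rw [map_add, ha σ, hb σ]
      algebraMap_mem' := fun a σ => (s σ).commutes a
      inv_mem' := fun a ha σ => by rw [map_inv₀, ha σ] }
  let iL : Algebra k L := ((algebraMap K L).comp (algebraMap k K)).toAlgebra
  have t1 : IsScalarTower k L Ω := IsScalarTower.of_algebraMap_eq fun a => by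
    rw [IsScalarTower.algebraMap_apply k K Ω]; rfl
  have hLΩ : Algebra.IsAlgebraic L Ω := Algebra.IsAlgebraic.tower_top (K := K) L
  have hcL : IsAlgClosure L Ω := ⟨hcl, hLΩ⟩
  have htr' : Algebra.trdeg k L = 1 := Koe.trdeg_fix (k := k) (F := k) (K := K) (Ω := Ω) htr
  have hL : ∀ σ : Gal(AlgebraicClosure k/k),
      (∀ a : k, σ (algebraMap k _ a) = algebraMap k _ a) →
      ∀ x : L, s σ (algebraMap L Ω x) = algebraMap L Ω x := fun σ _ x => x.2 σ
  let e : AlgebraicClosure k ≃ₐ[k] AlgebraicClosure k := AlgEquiv.refl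
  let s' : Gal(AlgebraicClosure k/k) →* Gal(Ω/L) := Koe.resS s e hL
  have hs's : ∀ σ x, s' σ x = s σ x := by
    intro σ x
    have h1 : Koe.resG (k := k) e σ = σ := AlgEquiv.ext fun _ => rfl
    change s (Koe.resG (k := k) e σ) x = s σ x
    rw [h1]
  have hs' : Continuous s' := Koe.resS_continuous s e hL hs
  have hsec' : ∀ σ a, s' σ (algebraMap (AlgebraicClosure k) Ω a) =
      algebraMap (AlgebraicClosure k) Ω (σ a) := fun σ a => by rw [hs's, hsec]
  -- the local places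
  choose ι _ using fun w : HeightOneSpectrum (𝓞 k) =>
    (⟨(IsAlgClosed.lift : AlgebraicClosure k →ₐ[k] AlgebraicClosure (w.adicCompletion k)),
      trivial⟩ : ∃ _ : AlgebraicClosure k →ₐ[k] AlgebraicClosure (w.adicCompletion k), True)
  choose A φ hφ using fun w => Koe.local_place s hs hsec w (ι w)
  have hφ' : ∀ w, IsPlaceOf s' (w.adicCompletion k)
      (ι w : _ →+* AlgebraicClosure (w.adicCompletion k)) (A w) (φ w) := by
    intro w
    obtain ⟨h1, h2, h3⟩ := hφ w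
    refine ⟨h1, h2, fun σ τ h x => ?_⟩
    obtain ⟨h4, h5⟩ := h3 σ τ h x
    have h6 : s' σ (x : Ω) ∈ A w := by rw [hs's]; exact h4
    refine ⟨h6, ?_⟩
    have h7 : (⟨s' σ (x : Ω), h6⟩ : A w) = ⟨_, h4⟩ := Subtype.ext (hs's σ x)
    rw [h7, h5]
  have hfixed : ∀ w, ∃ (y : w.adicCompletion k) (h : T ∈ A w),
      φ w ⟨T, h⟩ = algebraMap _ _ y ∧ y ≠ 0 ∧ (w ∉ B → Valued.v y = (1 : ℤᵐ⁰)) := by
    intro w
    have : CharZero (w.adicCompletion k) := charZero_of_injective_algebraMap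
      (algebraMap k (w.adicCompletion k)).injective
    obtain ⟨h, h1, h2⟩ := hval w (ι w) (A w) (φ w) (hφ w)
    obtain ⟨y, hy⟩ := PD.fixed_value (hφ w) hT h
    refine ⟨y, h, hy, ?_, fun hB => h2 hB y hy⟩
    rintro rfl
    exact h1 (by rw [hy, map_zero])
  choose y hTA hy hy0 hy1 using hfixed
  let t : L := ⟨T, hT⟩
  have ht : ∀ c : k, t ≠ algebraMap k L c := by
    intro c hc
    apply hTc (algebraMap k (AlgebraicClosure k) c)
    rw [← IsScalarTower.algebraMap_apply k (AlgebraicClosure k) Ω,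
      IsScalarTower.algebraMap_apply k L Ω, ← hc]
    rfl
  obtain ⟨A₀, ψ₀, h1, -, -, -⟩ := GU.bir_of_enough.{u, u} htr' t ht ∅
    (fun _ : Fin 1 => (X : k[X]))
    (fun h0 => GU.enough_of_points.{u, u} ∅ t _ h0 (enough_one k hinf.le)) s' hs' hsec'
    (fun v => ι v.1) (fun v => A v.1) (fun v => φ v.1) (fun v => hφ' v.1) (fun v => y v.1)
    (fun v => ⟨hTA v.1, hy v.1⟩)
    (fun v _ => by rw [aeval_X]; exact hy0 v.1) B 1 le_rfl
    (fun v hv _ z _ => by rw [aeval_X]; exact hy1 v.1 hv)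
  have h2 : IsPlaceOf s k (RingHom.id _) A₀ ψ₀ := by
    obtain ⟨h1, h2, h3⟩ := h1
    refine ⟨h1, h2, fun σ τ h x => ?_⟩
    obtain ⟨h4, h5⟩ := h3 σ τ h x
    have h6 : s σ (x : Ω) ∈ A₀ := by rw [← hs's]; exact h4
    refine ⟨h6, ?_⟩
    have h7 : (⟨s σ (x : Ω), h6⟩ : A₀) = ⟨_, h4⟩ := Subtype.ext (hs's σ x).symm
    rw [h7, h5]
  exact ⟨A₀, ψ₀, h2, fun f hf => Koe.value_rational h2 f hf,
    fun A₁ ψ₁ h₁ => MP_2f3286_bir.place_unique s hs h2 h₁⟩

end Pool.Agent.Lib.MP_2f3286_ag.HYP
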