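import Pool.Agent.Lib.MP_2f3286_ag.HYP.Mum

/-!
# The form of a half of a point   (module Frh, 60 minutes)

PROOF. `half_form`: `m` reduced with `z = clm m` (`exists_reduced`), `clm (m + m + {P.inv}) = 0`, `(h) = idm (..)` (`clm_eq_zero_iff`), the norm has degree `2 #m + 1 ≤ 2 g + 1` (`norm_deg`), odd, so
`h.im ≠ 0` (`norm_natDegree_re` is even) and `2 #m + 1 = max (2 deg h.re) (2 deg h.im + 2 g + 1)`: `h.im` is a nonzero constant `b`, `#m = g`, `deg h.re ≤ g`. `F = - h.re / b`: `(y - F) = idm (m + m + {P.inv})` (`h = b (y - F)`).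
The norm `F ^ 2 - φ = c (X - x_P) (upol m) ^ 2` (`norm_fac`); leading coefficients (`deg F ^ 2 < 2 g + 1`, `φ` monic): `c = - 1`. `y - F` is in `P.inv.idl`: `- y_P - F(x_P) = 0`.
`half_unique`: `m` is unique (`Reduced.unique`), `F ^ 2 = F' ^ 2`, `F = F'` or `F = - F'`, the second is excluded by the value at `x_P` (`2 y_P ≠ 0`).
-/

open Polynomial

noncomputable section

namespace Pool.Agent.Lib.MP_2f3286_ag.HYP

variable {E : Type*} [Field E] {g : ℕ} {φ : E[X]}

private theorem Frh_mem {m : Multiset (Pt φ)} {P : Pt φ} {h : CR φ}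
    (hh : Ideal.span {h} = idm (m + {P})) : h ∈ P.idl := by
  have h1 : h ∈ idm (m + {P}) := by
    rw [← hh]
    exact Ideal.mem_span_singleton_self h
  rw [idm_add, idm_singleton] at h1
  exact Ideal.mul_le_right h1

theorem half_form [IsAlgClosed E] (hφ : Good g φ) (hm : φ.Monic) {P : Pt φ} {z : J φ}
    (hz : (2 : ℕ) • z = cl P) :
    ∃ (m : Multiset (Pt φ)) (F : E[X]), Reduced g m ∧ z = clm m ∧ m.card = g ∧
      φ = F ^ 2 + (X - C P.x) * upol m ^ 2 ∧ F.eval P.x = -P.y ∧ F.natDegree ≤ g := by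
  obtain ⟨m, hmr, rfl⟩ := exists_reduced hφ z
  have h1 : clm (m + m + {P.inv}) = 0 := by
    rw [clm_add, clm_add, clm_singleton, cl_inv hφ, ← two_nsmul, hz, add_neg_cancel]
  obtain ⟨h, h0, hh⟩ := (clm_eq_zero_iff hφ _).1 h1
  have hdeg := norm_deg hφ h0 hh
  rw [Multiset.card_add, Multiset.card_add, Multiset.card_singleton] at hdeg
  have hcard := hmr.1
  have him : h.im ≠ 0 := by
    intro him
    rw [norm_natDegree_re h him] at hdeg
    omega
  rw [norm_natDegree hφ h him] at hdeg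
  have hl := le_max_left (2 * h.re.natDegree) (2 * h.im.natDegree + (2 * g + 1))
  have hr := le_max_right (2 * h.re.natDegree) (2 * h.im.natDegree + (2 * g + 1))
  have hd0 : h.im.natDegree = 0 := by omega
  have hmg : m.card = g := by omega
  have hre : h.re.natDegree ≤ g := by omega
  obtain ⟨b, hb⟩ : ∃ b : E, h.im = C b := ⟨_, eq_C_of_natDegree_eq_zero hd0⟩
  have hb0 : b ≠ 0 := by
    intro hb1
    apply him
    rw [hb, hb1, C_0]
  obtain ⟨c, hc0, hc⟩ := norm_fac hφ h0 hh
  have hU : (Multiset.map (fun Q : Pt φ => (X - C Q.x : E[X])) (m + m + {P.inv})).prod =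
      (X - C P.x) * upol m ^ 2 := by
    rw [Multiset.map_add, Multiset.map_add, Multiset.prod_add, Multiset.prod_add,
      Multiset.map_singleton, Multiset.prod_singleton]
    change upol m * upol m * (X - C P.x) = _
    ring
  rw [hU, norm_eq, hb] at hc
  -- leading coefficients
  have hW : ((X - C P.x) * upol m ^ 2).Monic := (monic_X_sub_C P.x).mul ((upol_monic m).pow 2)
  have hWd : ((X - C P.x) * upol m ^ 2).natDegree = 2 * g + 1 := by
    rw [(monic_X_sub_C P.x).natDegree_mul ((upol_monic m).pow 2), natDegree_X_sub_C,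
      (upol_monic m).natDegree_pow, upol_natDegree, hmg]
    ring
  have hc1 : b ^ 2 = -c := by
    have h2 : (h.re ^ 2 - φ * C b ^ 2).coeff (2 * g + 1) =
        (C c * ((X - C P.x) * upol m ^ 2)).coeff (2 * g + 1) := by rw [hc]
    have h3 : (h.re ^ 2).coeff (2 * g + 1) = 0 := by
      apply coeff_eq_zero_of_natDegree_lt
      rw [natDegree_pow]
      omega
    have h4 : (φ * C b ^ 2).coeff (2 * g + 1) = b ^ 2 := by
      rw [← C_pow, coeff_mul_C]
      have h5 : φ.coeff (2 * g + 1) = 1 := by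
        rw [← hφ.deg]
        exact hm.coeff_natDegree
      rw [h5, one_mul]
    have h6 : (C c * ((X - C P.x) * upol m ^ 2)).coeff (2 * g + 1) = c := by
      rw [coeff_C_mul]
      have h7 : ((X - C P.x) * upol m ^ 2).coeff (2 * g + 1) = 1 := by
        rw [← hWd]
        exact hW.coeff_natDegree
      rw [h7, mul_one]
    rw [coeff_sub, h3, h4, h6, zero_sub] at h2
    rw [← h2, neg_neg]
  refine ⟨m, C (-b⁻¹) * h.re, hmr, rfl, hmg, ?_, ?_, (natDegree_C_mul_le _ _).trans hre⟩
  · have h8 : (C (b⁻¹) : E[X]) ^ 2 * C b ^ 2 = 1 := by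
      rw [← mul_pow, ← C_mul, inv_mul_cancel₀ hb0, C_1, one_pow]
    have h9 : (C c : E[X]) = -C b ^ 2 := by
      rw [← C_pow, hc1, C_neg, neg_neg]
    rw [h9] at hc
    have h10 : (C (-b⁻¹) * h.re) ^ 2 = C (b⁻¹) ^ 2 * h.re ^ 2 := by
      rw [C_neg]
      ring
    rw [h10]
    linear_combination -(C (b⁻¹) : E[X]) ^ 2 * hc -
      (φ - (X - C P.x) * upol m ^ 2) * h8
  · have h11 := Pt.mem_idl.1 (Frh_mem hh)
    change h.re.eval P.x + h.im.eval P.x * -P.y = 0 at h11
    rw [hb, eval_C] at h11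
    rw [eval_mul, eval_C]
    have h12 : h.re.eval P.x = b * P.y := by linear_combination h11
    rw [h12]
    field_simp

theorem half_unique [IsAlgClosed E] (hφ : Good g φ) {P : Pt φ} (hP : P.y ≠ 0)
    {m m' : Multiset (Pt φ)} {F F' : E[X]} (hm : Reduced g m) (hm' : Reduced g m')
    (h : clm m = clm m') (hF : φ = F ^ 2 + (X - C P.x) * upol m ^ 2)
    (hF' : φ = F' ^ 2 + (X - C P.x) * upol m' ^ 2) (h1 : F.eval P.x = -P.y)
    (h1' : F'.eval P.x = -P.y) : m = m' ∧ F = F' := by
  have h2 : m = m' := Reduced.unique hφ hm hm' h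
  subst h2
  refine ⟨rfl, ?_⟩
  have h3 : F ^ 2 = F' ^ 2 := by linear_combination hF' - hF
  rcases sq_eq_sq_iff_eq_or_eq_neg.1 h3 with h4 | h4
  · exact h4
  · exfalso
    rw [h4, eval_neg, h1', neg_neg] at h1
    have h5 : (2 : E) * P.y = 0 := by linear_combination h1
    rcases mul_eq_zero.1 h5 with h6 | h6
    · exact hφ.two h6
    · exact hP h6

end Pool.Agent.Lib.MP_2f3286_ag.HYP
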