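import Mathlib

/-!
# Formal identities of ideals   (module Frm, 40 minutes)

PROOF. `span_mul_span`: `O₁ O₂`, `z = z ⋅ 1`: `1 = a O₁ + b O₂ + c z + d z'` (membership in the span), `z z'` is a multiple of `O₁ O₂`; so `z` is in the product of the ideals
`(O₁, z) (O₂, z) = (O₁ O₂, O₁ z, z O₂, z z)` (`Ideal.span_pair_mul_span_pair`). `span_half`: the ideal `(a, z) (b, z) ^ 2` is contained in `(z)` because
`a b ^ 2 = z z'`; and it contains `z ⋅ (z', b ^ 2, b z, z ^ 2)` and `(z') + (b, z) ^ 2 = 1`.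
-/

namespace Pool.Agent.Lib.MP_2f3286_ag.HYP

variable {R : Type*} [CommRing R]

private theorem frm_four {x y u v : R} (h : Ideal.span {x, y, u, v} = ⊤) :
    ∃ a b c d : R, 1 = a * x + b * y + c * u + d * v := by
  have h1 : (1 : R) ∈ Ideal.span {x, y, u, v} := by rw [h]; trivial
  obtain ⟨a, w, hw, ha⟩ := Ideal.mem_span_insert.mp h1
  obtain ⟨b, w', hw', hb⟩ := Ideal.mem_span_insert.mp hw
  obtain ⟨c, d, hd⟩ := Ideal.mem_span_pair.mp hw'
  exact ⟨a, b, c, d, by rw [ha, hb, ← hd]; ring⟩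

private theorem frm_three {x u v : R} (h : Ideal.span {x, u, v} = ⊤) :
    ∃ a c d : R, 1 = a * x + c * u + d * v := by
  have h1 : (1 : R) ∈ Ideal.span {x, u, v} := by rw [h]; trivial
  obtain ⟨a, w, hw, ha⟩ := Ideal.mem_span_insert.mp h1
  obtain ⟨c, d, hd⟩ := Ideal.mem_span_pair.mp hw
  exact ⟨a, c, d, by rw [ha, ← hd]; ring⟩

private theorem frm_left {x y : R} : x ∈ Ideal.span {x, y} :=
  Ideal.subset_span (by simp)

private theorem frm_right {x y : R} : y ∈ Ideal.span {x, y} :=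
  Ideal.subset_span (by simp)

theorem span_mul_span {o₁ o₂ z z' : R} (h : o₁ * o₂ ∣ z * z')
    (h1 : Ideal.span {o₁, o₂, z, z'} = ⊤) :
    Ideal.span {o₁ * o₂, z} = Ideal.span {o₁, z} * Ideal.span {o₂, z} := by
  obtain ⟨k, hk⟩ := h
  obtain ⟨a, b, c, d, hd⟩ := frm_four h1
  have m1 : o₁ * o₂ ∈ Ideal.span {o₁, z} * Ideal.span {o₂, z} :=
    Ideal.mul_mem_mul frm_left frm_left
  have m2 : o₁ * z ∈ Ideal.span {o₁, z} * Ideal.span {o₂, z} :=
    Ideal.mul_mem_mul frm_left frm_right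
  have m3 : z * o₂ ∈ Ideal.span {o₁, z} * Ideal.span {o₂, z} :=
    Ideal.mul_mem_mul frm_right frm_left
  have m4 : z * z ∈ Ideal.span {o₁, z} * Ideal.span {o₂, z} :=
    Ideal.mul_mem_mul frm_right frm_right
  apply le_antisymm
  · rw [Ideal.span_le]
    intro w hw
    rw [Set.mem_insert_iff, Set.mem_singleton_iff] at hw
    rw [SetLike.mem_coe]
    rcases hw with rfl | rfl
    · exact m1
    · have h2 : w = a * (o₁ * w) + b * (w * o₂) + c * (w * w) + d * k * (o₁ * o₂) := by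
        linear_combination w * hd + d * hk
      have h3 : a * (o₁ * w) + b * (w * o₂) + c * (w * w) + d * k * (o₁ * o₂) ∈
          Ideal.span {o₁, w} * Ideal.span {o₂, w} := Ideal.add_mem _ (Ideal.add_mem _ (Ideal.add_mem _ (Ideal.mul_mem_left _ _ m2)
        (Ideal.mul_mem_left _ _ m3)) (Ideal.mul_mem_left _ _ m4)) (Ideal.mul_mem_left _ _ m1)
      rwa [← h2] at h3
  · rw [Ideal.mul_le]
    intro r hr s hs
    obtain ⟨r1, r2, rfl⟩ := Ideal.mem_span_pair.mp hr
    obtain ⟨s1, s2, rfl⟩ := Ideal.mem_span_pair.mp hs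
    exact Ideal.mem_span_pair.mpr ⟨r1 * s1, r1 * o₁ * s2 + r2 * s1 * o₂ + r2 * s2 * z, by ring⟩

theorem span_half {a b z z' : R} (h : z * z' = a * b ^ 2)
    (h1 : Ideal.span {b, z, z'} = ⊤) :
    Ideal.span {z} = Ideal.span {a, z} * Ideal.span {b, z} ^ 2 := by
  obtain ⟨p, q, r, hr⟩ := frm_three h1
  rw [pow_two]
  apply le_antisymm
  · rw [Ideal.span_singleton_le_iff_mem]
    have n1 : b * b ∈ Ideal.span {b, z} * Ideal.span {b, z} := Ideal.mul_mem_mul frm_left frm_left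
    have n2 : b * z ∈ Ideal.span {b, z} * Ideal.span {b, z} :=
      Ideal.mul_mem_mul frm_left frm_right
    have n3 : z * z ∈ Ideal.span {b, z} * Ideal.span {b, z} :=
      Ideal.mul_mem_mul frm_right frm_right
    have m0 : a * (b * b) ∈ Ideal.span {a, z} * (Ideal.span {b, z} * Ideal.span {b, z}) :=
      Ideal.mul_mem_mul frm_left n1
    have m1 : z * (b * b) ∈ Ideal.span {a, z} * (Ideal.span {b, z} * Ideal.span {b, z}) :=
      Ideal.mul_mem_mul frm_right n1
    have m2 : z * (b * z) ∈ Ideal.span {a, z} * (Ideal.span {b, z} * Ideal.span {b, z}) :=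
      Ideal.mul_mem_mul frm_right n2
    have m3 : z * (z * z) ∈ Ideal.span {a, z} * (Ideal.span {b, z} * Ideal.span {b, z}) :=
      Ideal.mul_mem_mul frm_right n3
    have h2 : z = p ^ 2 * (z * (b * b)) + 2 * p * q * (z * (b * z)) + q ^ 2 * (z * (z * z)) +
        (r * (1 + p * b + q * z)) * (a * (b * b)) := by
      linear_combination z * (1 + p * b + q * z) * hr + r * (1 + p * b + q * z) * h
    have h4 : p ^ 2 * (z * (b * b)) + 2 * p * q * (z * (b * z)) + q ^ 2 * (z * (z * z)) +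
        (r * (1 + p * b + q * z)) * (a * (b * b)) ∈
        Ideal.span {a, z} * (Ideal.span {b, z} * Ideal.span {b, z}) :=
      Ideal.add_mem _ (Ideal.add_mem _ (Ideal.add_mem _ (Ideal.mul_mem_left _ _ m1)
        (Ideal.mul_mem_left _ _ m2)) (Ideal.mul_mem_left _ _ m3)) (Ideal.mul_mem_left _ _ m0)
    rwa [← h2] at h4
  · rw [Ideal.mul_le]
    intro u hu v hv
    obtain ⟨u1, u2, rfl⟩ := Ideal.mem_span_pair.mp hu
    have hv2 : v ∈ Ideal.span {b ^ 2, z} := by
      have h3 : Ideal.span {b, z} * Ideal.span {b, z} ≤ Ideal.span {b ^ 2, z} := by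
        rw [Ideal.mul_le]
        intro x hx y hy
        obtain ⟨x1, x2, rfl⟩ := Ideal.mem_span_pair.mp hx
        obtain ⟨y1, y2, rfl⟩ := Ideal.mem_span_pair.mp hy
        exact Ideal.mem_span_pair.mpr ⟨x1 * y1, x1 * b * y2 + x2 * y1 * b + x2 * y2 * z, by ring⟩
      exact h3 hv
    obtain ⟨v1, v2, rfl⟩ := Ideal.mem_span_pair.mp hv2
    rw [Ideal.mem_span_singleton]
    refine ⟨u1 * v1 * z' + u1 * a * v2 + u2 * v1 * b ^ 2 + u2 * v2 * z, ?_⟩
    linear_combination (-u1 * v1) * h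

end Pool.Agent.Lib.MP_2f3286_ag.HYP
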