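import Pool.Agent.Lib.MP_2f3286_ag.HYP.Defs

/-!
# Generators of the ideals, maps between the groups `J`   (module Gens, 45 minutes)

PROOF. `idl_eq`: `⊇` clear. If `h = a + b y` vanishes at `P`: `a = a(x_P) + (X - x_P) a'` (`X - C a ∣ p - C (p.eval a)`: `Polynomial.X_sub_C_dvd_sub_C_eval`),
the same for `b`, `h = (X - x_P)(a' + b' y) + b(x_P) (y - y_P)` because `a(x_P) = - b(x_P) y_P`.
`crmap` (ring homomorphism `a + b y ↦ a^j + b^j y`). `map_idl`: `Ideal.map_span` with `idl_eq`. `map_idm`: `Ideal.map_mul`, induction.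
`span_map`: `Ideal.map_span`, `Set.image_singleton`.
-/

open Polynomial

noncomputable section

namespace Pool.Agent.Lib.MP_2f3286_ag.HYP

variable {E E' E'' : Type*} [Field E] [Field E'] [Field E'']

/-- the function `y - V` -/
def ymin {φ : E[X]} (V : E[X]) : CR φ := ⟨-V, 1⟩

theorem Pt.idl_eq {φ : E[X]} (P : Pt φ) :
    P.idl = Ideal.span {(lin P.x : CR φ), ymin (C P.y)} := by
  apply le_antisymm
  · intro h hh
    rw [Pt.mem_idl] at hh
    obtain ⟨a', ha⟩ := X_sub_C_dvd_sub_C_eval (a := P.x) (p := h.re)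
    obtain ⟨b', hb⟩ := X_sub_C_dvd_sub_C_eval (a := P.x) (p := h.im)
    rw [Ideal.mem_span_pair]
    refine ⟨⟨a', b'⟩, ⟨C (h.im.eval P.x), 0⟩, ?_⟩
    have hC : C (h.re.eval P.x) = - (C (h.im.eval P.x) * C P.y) := by
      rw [← C_mul, ← C_neg]
      congr 1
      linear_combination hh
    apply QuadraticAlgebra.ext
    · simp only [lin, ymin, QuadraticAlgebra.re_add, QuadraticAlgebra.re_mul]
      linear_combination (-1 : E[X]) * ha + (-1 : E[X]) * hC
    · simp only [lin, ymin, QuadraticAlgebra.im_add, QuadraticAlgebra.im_mul]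
      linear_combination (-1 : E[X]) * hb
  · rw [Ideal.span_le]
    rintro h (rfl | rfl)
    · rw [SetLike.mem_coe, Pt.mem_idl]
      simp [lin]
    · rw [SetLike.mem_coe, Pt.mem_idl]
      simp [ymin]

/-- the ring homomorphism induced by a homomorphism of fields -/
def crmap {φ : E[X]} {ψ : E'[X]} (j : E →+* E') (hj : φ.map j = ψ) : CR φ →+* CR ψ where
  toFun h := ⟨h.re.map j, h.im.map j⟩
  map_one' := by
    apply QuadraticAlgebra.ext
    · simp only [QuadraticAlgebra.re_one, Polynomial.map_one]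
    · simp only [QuadraticAlgebra.im_one, Polynomial.map_zero]
  map_zero' := by
    apply QuadraticAlgebra.ext
    · simp only [QuadraticAlgebra.re_zero, Polynomial.map_zero]
    · simp only [QuadraticAlgebra.im_zero, Polynomial.map_zero]
  map_add' a b := by
    apply QuadraticAlgebra.ext
    · simp only [QuadraticAlgebra.re_add, Polynomial.map_add]
    · simp only [QuadraticAlgebra.im_add, Polynomial.map_add]
  map_mul' a b := by
    apply QuadraticAlgebra.ext
    · simp only [QuadraticAlgebra.re_mul, Polynomial.map_add, Polynomial.map_mul, hj]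
    · simp only [QuadraticAlgebra.im_mul, Polynomial.map_add, Polynomial.map_mul,
        Polynomial.map_zero]

theorem crmap_re {φ : E[X]} {ψ : E'[X]} (j : E →+* E') (hj : φ.map j = ψ) (h : CR φ) :
    (crmap j hj h).re = h.re.map j := rfl

theorem crmap_im {φ : E[X]} {ψ : E'[X]} (j : E →+* E') (hj : φ.map j = ψ) (h : CR φ) :
    (crmap j hj h).im = h.im.map j := rfl

theorem crmap_injective {φ : E[X]} {ψ : E'[X]} (j : E →+* E') (hj : φ.map j = ψ) :
    Function.Injective (crmap j hj) := by
  intro a b hab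
  have h1 : (crmap j hj a).re = (crmap j hj b).re := by rw [hab]
  have h2 : (crmap j hj a).im = (crmap j hj b).im := by rw [hab]
  rw [crmap_re, crmap_re] at h1
  rw [crmap_im, crmap_im] at h2
  exact QuadraticAlgebra.ext (Polynomial.map_injective j j.injective h1)
    (Polynomial.map_injective j j.injective h2)

/-- the image of a point -/
def Pt.map {φ : E[X]} {ψ : E'[X]} (j : E →+* E') (hj : φ.map j = ψ) (P : Pt φ) : Pt ψ :=
  ⟨j P.x, j P.y, by rw [← map_pow, P.eqn, ← hj, eval_map, eval₂_at_apply]⟩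

theorem map_idl {φ : E[X]} {ψ : E'[X]} (j : E →+* E') (hj : φ.map j = ψ) (P : Pt φ) :
    (P.map j hj).idl = P.idl.map (crmap j hj) := by
  rw [Pt.idl_eq, Pt.idl_eq P, Ideal.map_span, Set.image_pair]
  congr 2
  · apply QuadraticAlgebra.ext
    · rw [crmap_re]
      simp [lin, Pt.map]
    · rw [crmap_im]
      simp [lin]
  · congr 1
    apply QuadraticAlgebra.ext
    · rw [crmap_re]
      simp [ymin, Pt.map]
    · rw [crmap_im]
      simp [ymin]

theorem map_idm {φ : E[X]} {ψ : E'[X]} (j : E →+* E') (hj : φ.map j = ψ)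
    (m : Multiset (Pt φ)) : idm (m.map (Pt.map j hj)) = (idm m).map (crmap j hj) := by
  induction m using Multiset.induction_on with
  | empty => rw [Multiset.map_zero, idm_zero, idm_zero, Ideal.one_eq_top, Ideal.one_eq_top,
      Ideal.map_top]
  | cons P m ih => rw [Multiset.map_cons, idm_cons, idm_cons, Ideal.map_mul, ih, map_idl]

theorem map_prin {φ : E[X]} {ψ : E'[X]} (j : E →+* E') (hj : φ.map j = ψ)
    (h : CR φ) (m : Multiset (Pt φ)) (h0 : h ≠ 0) (hm : Ideal.span {h} = idm m) :
    (m.map fun P => cl (P.map j hj)).sum = 0 := by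
  have h1 : clm (m.map (Pt.map j hj)) = 0 := by
    apply clm_of_span (h := crmap j hj h)
    · intro h2
      apply h0
      apply crmap_injective j hj
      rw [h2, map_zero]
    · rw [map_idm, ← hm, Ideal.map_span, Set.image_singleton]
  rw [clm, Multiset.map_map] at h1
  exact h1

/-- the homomorphism induced by a homomorphism of fields -/
def J.map {φ : E[X]} {ψ : E'[X]} (j : E →+* E') (hj : φ.map j = ψ) : J φ →+ J ψ :=
  J.lift (fun P => cl (P.map j hj)) (map_prin j hj)

theorem J.map_cl {φ : E[X]} {ψ : E'[X]} (j : E →+* E') (hj : φ.map j = ψ) (P : Pt φ) :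
    J.map j hj (cl P) = cl (P.map j hj) := J.lift_cl _ _ P

theorem J.map_clm' {φ : E[X]} {ψ : E'[X]} (j : E →+* E') (hj : φ.map j = ψ)
    (m : Multiset (Pt φ)) : J.map j hj (clm m) = clm (m.map (Pt.map j hj)) := by
  rw [J.map_clm, clm, Multiset.map_map]
  apply congrArg
  apply Multiset.map_congr rfl
  intro P _
  rw [J.map_cl]
  rfl

theorem J.map_map {φ : E[X]} {ψ : E'[X]} {χ : E''[X]} (j : E →+* E') (hj : φ.map j = ψ)
    (i : E' →+* E'') (hi : ψ.map i = χ) (hij : φ.map (i.comp j) = χ) (z : J φ) :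
    J.map i hi (J.map j hj z) = J.map (i.comp j) hij z := by
  have h : (J.map i hi).comp (J.map j hj) = J.map (i.comp j) hij := by
    apply J.hom_ext
    intro P
    rw [AddMonoidHom.comp_apply, J.map_cl, J.map_cl, J.map_cl]
    rfl
  rw [← h, AddMonoidHom.comp_apply]

theorem J.map_id {φ : E[X]} (h : φ.map (RingHom.id E) = φ) (z : J φ) :
    J.map (RingHom.id E) h z = z := by
  have h1 : J.map (RingHom.id E) h = AddMonoidHom.id (J φ) := by
    apply J.hom_ext
    intro P
    rw [J.map_cl]
    rfl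
  rw [h1, AddMonoidHom.id_apply]

end Pool.Agent.Lib.MP_2f3286_ag.HYP
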