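import Pool.Agent.Lib.MP_2f3286_ag.HYP.Aut

/-!
# Places and polynomials   (module Plc, 75 minutes)

`A` is a valuation ring of `M`, `π` a homomorphism from `A` to a field `F` which is not zero on units only (`loc`: its kernel is the maximal ideal).

PROOF. `mem_of_root`, `y_mem`: `A` is integrally closed. `red_roots`: induction on `s`, for all `p`: `s = a ::ₘ s'`. If `a` is in `A`: `X - a` divides `p` over `M`, so `p(a) = 0` and
`p = (X - a) q` over `A` (`Polynomial.dvd_iff_isRoot`), `q` over `M` is `C c * ..`; reduce. If `a` is not in `A`, `b = a⁻¹` is in `A` and `π b = 0`. `p = (X - a) q` over `M`, `q = C c * ∏ s'`; put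
`q' = - a q`, `p = (1 - b X) q'` (`C c' * ∏ s'`, `c' = - a c`); `q'` has coefficients in `A` (recursion from below: `q'_i = p_i + b q'_{i-1}`); reduce: `p mod = q' mod`, as `π b = 0`.
`exists_prim`: choose the coefficient of largest valuation (`A.valuation`; finite set of coefficients) and divide by it.
`unit_iff`: `π a = 0` iff `a` is not a unit iff `a⁻¹ ∉ A` or `a = 0`.
-/

open Polynomial

noncomputable section

namespace Pool.Agent.Lib.MP_2f3286_ag.HYP

variable {M F : Type*} [Field M] [Field F]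

/-- a place `(A, π)` of `M` with values in `F`, at which the polynomial `φ` reduces to `ψ` -/
structure Plc (A : ValuationSubring M) (π : A →+* F) (φ : M[X]) (ψ : F[X]) : Prop where
  loc : ∀ a : A, π a ≠ 0 → (a : M)⁻¹ ∈ A
  lift : ∃ p : A[X], p.Monic ∧ p.map A.subtype = φ ∧ p.map π = ψ

variable {A : ValuationSubring M} {π : A →+* F} {φ : M[X]} {ψ : F[X]}

theorem Plc.monic (h : Plc A π φ ψ) : φ.Monic ∧ ψ.Monic ∧ ψ.natDegree = φ.natDegree := by
  obtain ⟨p, hp, h1, h2⟩ := h.lift
  subst h1 h2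
  refine ⟨hp.map _, hp.map _, ?_⟩
  rw [hp.natDegree_map, hp.natDegree_map]

/-- an element outside `A` has an inverse in `A` which reduces to `0` -/
theorem Plc.inv_of_notMem (h : Plc A π φ ψ) {a : M} (ha : a ∉ A) :
    ∃ hb : a⁻¹ ∈ A, π ⟨a⁻¹, hb⟩ = 0 := by
  rcases A.mem_or_inv_mem a with h1 | h1
  · exact absurd h1 ha
  · refine ⟨h1, ?_⟩
    by_contra h2
    have h3 := h.loc ⟨a⁻¹, h1⟩ h2
    rw [show (((⟨a⁻¹, h1⟩ : A) : M)) = a⁻¹ from rfl, inv_inv] at h3
    exact ha h3

/-- the value of a polynomial over `A` -/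
private theorem Plc_eval (p : A[X]) (a : A) : (p.map A.subtype).eval (a : M) = (p.eval a : A) := by
  rw [eval_map, show (a : M) = A.subtype a from rfl, eval₂_at_apply]
  rfl

private theorem Plc_integral {p : A[X]} (hp : p.Monic) {a : M}
    (h : (p.map A.subtype).eval a = 0) : a ∈ A := by
  have h1 : IsIntegral A a := ⟨p, hp, by rw [← h, eval_map]; rfl⟩
  obtain ⟨b, hb⟩ := (IsIntegrallyClosed.isIntegral_iff (R := A) (K := M)).1 h1
  rw [← hb]
  exact b.2

theorem Plc.y_mem (h : Plc A π φ ψ) {P : Pt φ} (hx : P.x ∈ A) : P.y ∈ A := by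
  obtain ⟨p, hp, h1, h2⟩ := h.lift
  have h3 : P.y ^ 2 ∈ A := by
    have h4 : φ.eval P.x = (p.eval ⟨P.x, hx⟩ : A) := by
      rw [← Plc_eval p ⟨P.x, hx⟩]
      exact congrArg (eval P.x) h1.symm
    rw [P.eqn, h4]
    exact (p.eval ⟨P.x, hx⟩ : A).2
  by_contra hy
  obtain ⟨hb, -⟩ := h.inv_of_notMem hy
  refine hy ?_
  have h0 : P.y ≠ 0 := fun h5 => hy (h5 ▸ A.zero_mem)
  have h5 : P.y = P.y ^ 2 * (P.y)⁻¹ := by field_simp
  rw [h5]
  exact A.mul_mem _ _ h3 hb

theorem Plc.x_mem (h : Plc A π φ ψ) (h0 : 0 < φ.natDegree) {P : Pt φ} (hy : P.y ∈ A) : P.x ∈ A := by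
  obtain ⟨p, hp, h1, h2⟩ := h.lift
  have h3 : 0 < p.degree := by
    rw [← natDegree_pos_iff_degree_pos, ← hp.natDegree_map A.subtype, h1]
    exact h0
  have h4 : (p - C ((⟨P.y, hy⟩ : A) ^ 2)).Monic :=
    hp.sub_of_left (lt_of_le_of_lt degree_C_le h3)
  refine Plc_integral h4 ?_
  rw [Polynomial.map_sub, map_C, eval_sub, eval_C, map_pow]
  have h5 : (p.map A.subtype).eval P.x = φ.eval P.x := congrArg (eval P.x) h1
  rw [h5, ← P.eqn]
  exact sub_self _

/-- the roots of `φ` are in `A` -/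
theorem Plc.root_mem (h : Plc A π φ ψ) {a : M} (ha : φ.eval a = 0) : a ∈ A := by
  obtain ⟨p, hp, h1, h2⟩ := h.lift
  exact Plc_integral hp (by rw [h1, ha])

theorem Plc.root_red (h : Plc A π φ ψ) {a : M} (ha : φ.eval a = 0) :
    ψ.eval (π ⟨a, h.root_mem ha⟩) = 0 := by
  obtain ⟨p, hp, h1, h2⟩ := h.lift
  have h3 : p.eval ⟨a, h.root_mem ha⟩ = 0 := by
    apply Subtype.ext
    rw [← Plc_eval, h1, ha]
    rfl
  have h4 : ψ.eval (π ⟨a, h.root_mem ha⟩) = (p.map π).eval (π ⟨a, h.root_mem ha⟩) :=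
    congrArg (eval (π ⟨a, h.root_mem ha⟩)) h2.symm
  rw [h4, eval_map, eval₂_at_apply, h3, map_zero]

/-- the reduction of a multiset of elements -/
def redm (π : A →+* F) (s : Multiset M) : Multiset F :=
  open scoped Classical in s.filterMap fun a => if h : a ∈ A then some (π ⟨a, h⟩) else none

theorem redm_cons_mem (s : Multiset M) {a : M} (ha : a ∈ A) :
    redm π (a ::ₘ s) = π ⟨a, ha⟩ ::ₘ redm π s := by
  rw [redm, Multiset.filterMap_cons_some _ _ _ (dif_pos ha), redm]

theorem redm_cons_notMem (s : Multiset M) {a : M} (ha : a ∉ A) :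
    redm π (a ::ₘ s) = redm π s := by
  rw [redm, Multiset.filterMap_cons_none _ _ (dif_neg ha), redm]

/-- the roots of the reduction of a polynomial -/
theorem red_roots (h : Plc A π φ ψ) (s : Multiset M) {p : A[X]} {c : M}
    (hp : p.map A.subtype = C c * (s.map fun a => X - C a).prod) (h0 : p.map π ≠ 0) :
    ∃ c' : F, c' ≠ 0 ∧ p.map π = C c' * ((redm π s).map fun a => X - C a).prod := by
  have hinj : Function.Injective A.subtype := A.subtype_injective
  induction s using Multiset.induction_on generalizing p c with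
  | empty =>
    rw [Multiset.map_zero, Multiset.prod_zero, mul_one] at hp
    have h1 : p = C (p.coeff 0) := by
      apply eq_C_of_natDegree_eq_zero
      rw [← natDegree_map_eq_of_injective hinj, hp, natDegree_C]
    refine ⟨π (p.coeff 0), ?_, ?_⟩
    · intro h2
      apply h0
      rw [h1, map_C, h2, C_0]
    · rw [redm, Multiset.filterMap_zero, Multiset.map_zero, Multiset.prod_zero, mul_one]
      conv_lhs => rw [h1, map_C]
  | cons a s ih =>
    rw [Multiset.map_cons, Multiset.prod_cons] at hp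
    by_cases ha : a ∈ A
    · have h1 : p.eval ⟨a, ha⟩ = 0 := by
        apply Subtype.ext
        rw [← Plc_eval, hp]
        simp
      obtain ⟨q, hq⟩ := dvd_iff_isRoot.2 h1
      have h2 : (X - C a) * q.map A.subtype = (X - C a) * (C c * (s.map fun a => X - C a).prod) := by
        have h3 : p.map A.subtype = (X - C a) * q.map A.subtype := by
          rw [hq, Polynomial.map_mul, Polynomial.map_sub, map_X, map_C]
          rfl
        rw [← h3, hp]
        ring
      have h3 : q.map A.subtype = C c * (s.map fun a => X - C a).prod :=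
        mul_left_cancel₀ (X_sub_C_ne_zero a) h2
      have h4 : p.map π = (X - C (π ⟨a, ha⟩)) * q.map π := by
        rw [hq, Polynomial.map_mul, Polynomial.map_sub, map_X, map_C]
      obtain ⟨c', hc', h5⟩ := ih h3 (fun h6 => h0 (by rw [h4, h6, mul_zero]))
      refine ⟨c', hc', ?_⟩
      rw [h4, h5, redm_cons_mem s ha, Multiset.map_cons, Multiset.prod_cons]
      ring
    · obtain ⟨hb, hb0⟩ := h.inv_of_notMem ha
      have ha0 : a ≠ 0 := fun h5 => ha (h5 ▸ A.zero_mem)
      set Q : M[X] := C (-a * c) * (s.map fun a => X - C a).prod with hQ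
      have h1 : p.map A.subtype = (1 - C a⁻¹ * X) * Q := by
        rw [hp, hQ, C_mul, C_neg]
        have h2 : (C a : M[X]) * C a⁻¹ = 1 := by
          rw [← C_mul, mul_inv_cancel₀ ha0, C_1]
        linear_combination (-(X : M[X]) * C c * (s.map fun a => X - C a).prod) * h2
      have h2 : ∀ i, Q.coeff i ∈ A := by
        intro i
        have h3 : Q = p.map A.subtype + C a⁻¹ * (Q * X) := by
          rw [h1]; ring
        induction i with
        | zero =>
          rw [h3, coeff_add, coeff_C_mul, coeff_mul_X_zero, mul_zero, add_zero, coeff_map]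
          exact (p.coeff 0).2
        | succ i ihi =>
          rw [h3, coeff_add, coeff_C_mul, coeff_mul_X, coeff_map]
          exact A.add_mem _ _ (p.coeff (i + 1)).2 (A.mul_mem _ _ hb ihi)
      obtain ⟨q, hq⟩ : ∃ q : A[X], q.map A.subtype = Q := by
        have h3 : Q ∈ lifts A.subtype := by
          rw [lifts_iff_coeff_lifts]
          exact fun i => ⟨⟨Q.coeff i, h2 i⟩, rfl⟩
        exact (mem_lifts Q).1 h3
      have h3 : p = (1 - C (⟨a⁻¹, hb⟩ : A) * X) * q := by
        apply map_injective A.subtype hinj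
        rw [h1, Polynomial.map_mul, hq, Polynomial.map_sub, Polynomial.map_one, Polynomial.map_mul,
          map_C, map_X]
        rfl
      have h4 : p.map π = q.map π := by
        rw [h3, Polynomial.map_mul, Polynomial.map_sub, Polynomial.map_one, Polynomial.map_mul,
          map_C, map_X, hb0, C_0, zero_mul, sub_zero, one_mul]
      obtain ⟨c', hc', h5⟩ := ih (p := q) (c := -a * c) hq (by rw [← h4]; exact h0)
      exact ⟨c', hc', by rw [h4, h5, redm_cons_notMem s ha]⟩

/-- primitive multiples -/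
theorem exists_prim (h : Plc A π φ ψ) {a b : M[X]} (h0 : a ≠ 0 ∨ b ≠ 0) :
    ∃ (c : M) (a' b' : A[X]), c ≠ 0 ∧ a'.map A.subtype = C c * a ∧ b'.map A.subtype = C c * b ∧
      (a'.map π ≠ 0 ∨ b'.map π ≠ 0) := by
  classical
  have hne : (a.coeffs ∪ b.coeffs).Nonempty := by
    rcases h0 with h1 | h1
    · exact ⟨a.leadingCoeff, Finset.mem_union_left _
        (mem_coeffs_iff.2 ⟨a.natDegree, natDegree_mem_support_of_nonzero h1, rfl⟩)⟩
    · exact ⟨b.leadingCoeff, Finset.mem_union_right _
        (mem_coeffs_iff.2 ⟨b.natDegree, natDegree_mem_support_of_nonzero h1, rfl⟩)⟩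
  obtain ⟨x, hx, hmax⟩ := Finset.exists_max_image (a.coeffs ∪ b.coeffs) A.valuation hne
  have hx0 : x ≠ 0 := by
    rcases Finset.mem_union.1 hx with h1 | h1
    · obtain ⟨n, hn, rfl⟩ := mem_coeffs_iff.1 h1
      exact mem_support_iff.1 hn
    · obtain ⟨n, hn, rfl⟩ := mem_coeffs_iff.1 h1
      exact mem_support_iff.1 hn
  have hmem : ∀ y, y = 0 ∨ y ∈ a.coeffs ∪ b.coeffs → x⁻¹ * y ∈ A := by
    rintro y (rfl | hy)
    · rw [mul_zero]
      exact A.zero_mem
    · rw [← A.valuation_le_one_iff, map_mul, map_inv₀]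
      have h1 := hmax y hy
      have h2 : A.valuation x ≠ 0 := (A.valuation.ne_zero_iff).2 hx0
      calc (A.valuation x)⁻¹ * A.valuation y ≤ (A.valuation x)⁻¹ * A.valuation x := by gcongr
        _ = 1 := inv_mul_cancel₀ h2
  have hlift : ∀ u : M[X], (∀ i, u.coeff i = 0 ∨ u.coeff i ∈ a.coeffs ∪ b.coeffs) →
      ∃ u' : A[X], u'.map A.subtype = C x⁻¹ * u := by
    intro u hu
    have h3 : C x⁻¹ * u ∈ lifts A.subtype := by
      rw [lifts_iff_coeff_lifts]
      intro i
      rw [coeff_C_mul]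
      exact ⟨⟨x⁻¹ * u.coeff i, hmem _ (hu i)⟩, rfl⟩
    exact (mem_lifts _).1 h3
  have hco : ∀ (u : M[X]) (i : ℕ), u.coeff i = 0 ∨ u.coeff i ∈ u.coeffs := by
    intro u i
    by_cases h1 : u.coeff i = 0
    · exact Or.inl h1
    · exact Or.inr (mem_coeffs_iff.2 ⟨i, mem_support_iff.2 h1, rfl⟩)
  obtain ⟨a', ha'⟩ := hlift a fun i => (hco a i).imp_right (Finset.mem_union_left _)
  obtain ⟨b', hb'⟩ := hlift b fun i => (hco b i).imp_right (Finset.mem_union_right _)
  have hone : ∀ (u : M[X]) (u' : A[X]), u'.map A.subtype = C x⁻¹ * u → x ∈ u.coeffs →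
      u'.map π ≠ 0 := by
    intro u u' hu hxu h2
    obtain ⟨n, -, hn⟩ := mem_coeffs_iff.1 hxu
    have h3 : u'.coeff n = 1 := by
      apply Subtype.ext
      have h4 : (u'.map A.subtype).coeff n = 1 := by
        rw [hu, coeff_C_mul, ← hn, inv_mul_cancel₀ hx0]
      rw [coeff_map] at h4
      exact h4
    have h4 : (u'.map π).coeff n = 1 := by rw [coeff_map, h3, map_one]
    rw [h2, coeff_zero] at h4
    exact zero_ne_one h4
  refine ⟨x⁻¹, a', b', inv_ne_zero hx0, ha', hb', ?_⟩
  rcases Finset.mem_union.1 hx with h1 | h1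
  · exact Or.inl (hone a a' ha' h1)
  · exact Or.inr (hone b b' hb' h1)

/-- division by a monic polynomial -/
theorem dvd_lift {p q : A[X]} (hq : q.Monic) (h : q.map A.subtype ∣ p.map A.subtype) : q ∣ p :=
  (map_dvd_map A.subtype A.subtype_injective hq).1 h

end Pool.Agent.Lib.MP_2f3286_ag.HYP
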