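import Pool.Agent.Lib.MP_2f3286_ag.HYP.CPlace
import Pool.Agent.Lib.MP_2f3286_ag.HYP.Plc

/-!
# Good places: almost all places of a number field
-/

open IsDedekindDomain NumberField Polynomial
open scoped WithZero
open Pool.Agent.Lib.MP_2f3286_bir (IsPlaceOf)

noncomputable section

namespace Pool.Agent.Lib.MP_2f3286_ag.HYP

/-- at almost all places a separable monic polynomial of degree `2 g + 1` has good reduction -/
theorem exists_good {k : Type*} [Field k] [NumberField k] {f : k[X]} (hf : f.Monic)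
    (hfs : f.Separable) {g : ℕ} (hfd : f.natDegree = 2 * g + 1) :
    ∃ B : Finset (HeightOneSpectrum (𝓞 k)), ∀ v ∉ B, ∀ {Ω E : Type*} [Field Ω] [Field E]
      (j : k →+* Ω) (A : ValuationSubring Ω) (π : A →+* E),
      (∀ a : A, π a ≠ 0 → (a : Ω)⁻¹ ∈ A) → (∀ c : k, v.valuation k c ≤ 1 → j c ∈ A) →
      ∃ ψ : E[X], Plc A π (f.map j) ψ ∧ Good g ψ := by
  classical
  obtain ⟨a, b, hab⟩ := hfs
  let U : Finset k := f.coeffs ∪ a.coeffs ∪ b.coeffs ∪ {2⁻¹}
  refine ⟨U.biUnion fun c => (HeightOneSpectrum.Support.finite (𝓞 k) c).toFinset, fun v hv => ?_⟩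
  intro Ω E _ _ j A π hloc hint
  have hU : ∀ c ∈ U, v.valuation k c ≤ 1 := by
    intro c hc
    by_contra hlt
    rw [not_le] at hlt
    apply hv
    rw [Finset.mem_biUnion]
    exact ⟨c, hc, (Set.Finite.mem_toFinset _).2 hlt⟩
  let V : ValuationSubring k := (v.valuation k).valuationSubring
  have hV : ∀ c : k, c ∈ V ↔ v.valuation k c ≤ 1 := fun c => Iff.rfl
  have hlift : ∀ q : k[X], (∀ c ∈ q.coeffs, c ∈ U) → q ∈ lifts (V.subtype : V →+* k) := by
    intro q hq
    rw [lifts_iff_coeff_lifts]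
    intro n
    by_cases h0 : q.coeff n = 0
    · exact ⟨0, by rw [map_zero, h0]⟩
    · exact ⟨⟨q.coeff n, (hV _).2 (hU _ (hq _ (coeff_mem_coeffs h0)))⟩, rfl⟩
  have hfl := hlift f fun c hc => by
    simp only [U, Finset.mem_union]
    exact Or.inl (Or.inl (Or.inl hc))
  have hal := hlift a fun c hc => by
    simp only [U, Finset.mem_union]
    exact Or.inl (Or.inl (Or.inr hc))
  have hbl := hlift b fun c hc => by
    simp only [U, Finset.mem_union]
    exact Or.inl (Or.inr hc)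
  have h2 : v.valuation k (2⁻¹ : k) ≤ 1 := hU _ (by
    simp only [U, Finset.mem_union, Finset.mem_singleton]
    exact Or.inr trivial)
  obtain ⟨f₀, hf₀, hf₀d, hf₀m⟩ := lifts_and_natDegree_eq_and_monic hfl hf
  obtain ⟨a₀, ha₀⟩ := (mem_lifts a).1 hal
  obtain ⟨b₀, hb₀⟩ := (mem_lifts b).1 hbl
  have hsep : f₀.Separable := by
    refine ⟨a₀, b₀, ?_⟩
    apply Polynomial.map_injective V.subtype Subtype.val_injective
    rw [Polynomial.map_add, Polynomial.map_mul, Polynomial.map_mul, ← derivative_map, hf₀, ha₀,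
      hb₀, Polynomial.map_one]
    exact hab
  let jV : V →+* A := (j.comp V.subtype).codRestrict A.toSubring fun c => hint c ((hV c).1 c.2)
  have hj : A.subtype.comp jV = j.comp V.subtype := RingHom.ext fun c => rfl
  refine ⟨(f₀.map jV).map π, ⟨hloc, f₀.map jV, hf₀m.map _, ?_, rfl⟩, ⟨?_, ?_, ?_⟩⟩
  · rw [Polynomial.map_map, hj, ← Polynomial.map_map, hf₀]
  · intro h0
    have h3 : jV ⟨2⁻¹, (hV _).2 h2⟩ * 2 = 1 := by
      apply Subtype.ext
      change j 2⁻¹ * 2 = 1
      rw [← map_ofNat j 2, ← map_mul, inv_mul_cancel₀ two_ne_zero, map_one]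
    have h4 := congrArg π h3
    rw [map_mul, map_ofNat, h0, mul_zero, map_one] at h4
    exact zero_ne_one h4
  · exact hsep.map.map
  · rw [(hf₀m.map jV).natDegree_map, hf₀m.natDegree_map, hf₀d, hfd]

universe u

/-- **Good places.** At almost all `v` a place of the section over `k_v` can be reduced. -/
theorem good_place {k : Type u} [Field k] [NumberField k] {K : Type*} [Field K] [Algebra k K]
    {Ω : Type*} [Field Ω] [Algebra K Ω] [Algebra (AlgebraicClosure k) Ω] [Algebra k Ω]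
    [IsScalarTower k K Ω] [IsScalarTower k (AlgebraicClosure k) Ω]
    (s : Gal(AlgebraicClosure k/k) →* Gal(Ω/K)) {f : k[X]} (hf : f.Monic) (hfs : f.Separable) {g : ℕ} (hfd : f.natDegree = 2 * g + 1) :
    ∃ B : Finset (HeightOneSpectrum (𝓞 k)), ∀ v ∉ B,
      ∀ (ι : AlgebraicClosure k →ₐ[k] AlgebraicClosure (v.adicCompletion k))
        (A : ValuationSubring Ω) (φ : A →+* AlgebraicClosure (v.adicCompletion k)),
        IsPlaceOf s (v.adicCompletion k)
          (ι : _ →+* AlgebraicClosure (v.adicCompletion k)) A φ →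
        ∃ (E : Type u) (_ : Field E) (_ : IsAlgClosed E) (A' : ValuationSubring Ω) (π : A' →+* E)
          (ψ : E[X]) (S : Set E), Plc A' π (f.map (algebraMap k Ω)) ψ ∧ Good g ψ ∧ S.Finite ∧
          (∀ a : A', (∀ σ, s σ (a : Ω) = a) → π a ∈ S) ∧
          ∀ a : A', π a ≠ 0 → (∀ σ, s σ (a : Ω) = a) → ∃ (h : (a : Ω) ∈ A)
            (y : v.adicCompletion k), φ ⟨a, h⟩ = algebraMap _ _ y ∧ Valued.v y = (1 : ℤᵐ⁰) := by
  obtain ⟨B, hB⟩ := exists_good hf hfs hfd
  refine ⟨B, fun v hv ι A φ hφ => ?_⟩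
  have : CharZero (v.adicCompletion k) := charZero_of_injective_algebraMap
    (algebraMap k (v.adicCompletion k)).injective
  obtain ⟨E, iE, iE', A', π, S, hS, hloc, hAA, hA'⟩ := exists_cplace v φ hφ.2.1
  have hc : ∀ c : k, ∃ h : algebraMap k Ω c ∈ A, φ ⟨_, h⟩ =
      algebraMap _ _ (algebraMap k (v.adicCompletion k) c) := fun c => PD.const_value hφ c
  obtain ⟨ψ, h1, h2⟩ := hB v hv (algebraMap k Ω) A' π hloc (fun c hc1 => by
    obtain ⟨h, h'⟩ := hc c
    refine ((hA' _ h _ h').1).2 ?_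
    rw [val_alg]
    exact hc1)
  refine ⟨E, iE, iE', A', π, ψ, S, h1, h2, hS, fun a ha => ?_, fun a ha0 ha => ?_⟩
  · have h := hAA a a.2
    obtain ⟨y, hy⟩ := PD.fixed_value hφ ha h
    exact ((hA' a h y hy).2 a.2).1
  · have h := hAA a a.2
    obtain ⟨y, hy⟩ := PD.fixed_value hφ ha h
    exact ⟨h, y, hy, ((hA' a h y hy).2 a.2).2.1 ha0⟩

end Pool.Agent.Lib.MP_2f3286_ag.HYP
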