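import Pool.Agent.Lib.MP_2f3286_ag.HYP.HSel

/-!
# The stronger hypothesis about the 2-adic Selmer group
-/

open Polynomial IsDedekindDomain NumberField

noncomputable section

namespace Pool.Agent.Lib.MP_2f3286_ag.HYP

/-- Every element `c` of the 2-adic Selmer group of `J` over `k` (the inverse limit of the Selmer groups
for `2 ^ n`) which is, at every place of `k`, the class of a point of the curve, is zero. -/
def SelZero (k : Type*) [Field k] [NumberField k] (f : k[X]) : Prop :=
  ∀ c : ℕ → Gal(AlgebraicClosure k/k) → J (f.map (algebraMap k (AlgebraicClosure k))),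
    (∀ n, IsLocallyConstant (c n)) → (∀ n σ, 2 ^ n • c n σ = 0) →
    (∀ n σ τ, c n (σ * τ) = c n σ + gact f σ (c n τ)) → (∀ n σ, 2 • c (n + 1) σ = c n σ) →
    (∀ (v : HeightOneSpectrum (𝓞 k))
      (ι : AlgebraicClosure k →ₐ[k] AlgebraicClosure (v.adicCompletion k)),
      LocPt f c (v.adicCompletion k)
        (ι : AlgebraicClosure k →+* AlgebraicClosure (v.adicCompletion k))) →
    (∀ ι : AlgebraicClosure k →+* ℂ, LocPt f c ℝ ι) →
    ∀ n, ∃ t : J (f.map (algebraMap k (AlgebraicClosure k))), 2 ^ n • t = 0 ∧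
      ∀ σ, c n σ = gact f σ t - t

theorem selTor_of_selZero {k : Type*} [Field k] [NumberField k] {f : k[X]} (h : SelZero k f) :
    SelTor k f := by
  intro c c1 c2 c3 c4 hfin hreal n
  obtain ⟨t, ht, htc⟩ := h c c1 c2 c3 c4 hfin hreal n
  exact ⟨t, ⟨n, ht⟩, htc⟩

end Pool.Agent.Lib.MP_2f3286_ag.HYP
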