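import Pool.Agent.Lib.MP_2f3286_ag.HYP.Sel
import Pool.Agent.Lib.MP_2f3286_ag.HYP.HT2
import Pool.Agent.Lib.MP_2f3286_ag.HYP.HZero

/-!
# The hypothesis `SelTriv` implies `SelTor`   (module HImp)
-/

open Polynomial IsDedekindDomain NumberField

noncomputable section

namespace Pool.Agent.Lib.MP_2f3286_ag.HYP

theorem gact_isLocallyConstant {k kb : Type*} [Field k] [Field kb] [Algebra k kb] [IsAlgClosed kb]
    [Algebra.IsAlgebraic k kb] {f : k[X]} {g : ℕ} (h : Good g (f.map (algebraMap k kb)))
    (hf : f.Monic) {n : ℕ} {u : J (f.map (algebraMap k kb))} (hu : 2 ^ n • u = 0) :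
    IsLocallyConstant fun σ : Gal(kb/k) => gact f σ u - u := by
  obtain ⟨c, hc, -, -, hcj⟩ := exists_cocycle_pow (k := k) (kb := kb) (K := k) (Ω := kb) f
    (MonoidHom.id _) h hf continuous_id (fun _ _ => rfl) n u (by
      intro σ
      rw [hu, map_zero])
  have : (fun σ : Gal(kb/k) => gact f σ u - u) = c := by
    funext σ
    have h1 := hcj σ
    have h2 : jconst f (kb := kb) (Ω := kb) (c σ) = c σ := J.map_id _ _
    rw [h2] at h1
    exact h1.symm
  rw [this]
  exact hc

theorem locSol_of_locPt {k kb : Type*} [Field k] [Field kb] [Algebra k kb] {f : k[X]}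
    {c : ℕ → Gal(kb/k) → J (f.map (algebraMap k kb))} {F Fb : Type*} [Field F] [Field Fb]
    [Algebra F Fb] {ι : kb →+* Fb} (h : LocPt f c F ι) (n : ℕ) {u : J (f.map (algebraMap k kb))}
    (hu : 2 ^ (n + 1) • u = 0) :
    LocSol f n (fun σ => c (n + 1) σ - (gact f σ u - u)) F ι := by
  obtain ⟨e, he0, he2, hec⟩ := h
  have hen : ∀ m, 2 ^ m • e m = e 0 := by
    intro m
    induction m with
    | zero => rw [pow_zero, one_smul]
    | succ m ih => rw [pow_succ, mul_smul, he2, ih]
  have h1 : 2 ^ (n + 1) • (e (n + 1) - J.map ι (Polynomial.map_map _ _ _) u) = e 0 := by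
    rw [nsmul_sub, hen, ← map_nsmul, hu, map_zero, sub_zero]
  refine ⟨e (n + 1) - J.map ι (Polynomial.map_map _ _ _) u, ?_, ?_⟩
  · rw [h1]
    exact he0
  · intro σ τ hστ
    have h2 : J.map (τ : Fb →+* Fb) (map_fix' f hστ) (J.map ι (Polynomial.map_map _ _ _) u) =
        J.map ι (Polynomial.map_map _ _ _) (gact f σ u) := by
      rw [gact]
      have hc : (f.map (algebraMap k kb)).map (ι.comp (σ : kb →+* kb)) =
          f.map (ι.comp (algebraMap k kb)) := by
        rw [← Polynomial.map_map, map_fix, Polynomial.map_map]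
      have hc' : (f.map (algebraMap k kb)).map ((τ : Fb →+* Fb).comp ι) =
          f.map (ι.comp (algebraMap k kb)) := by
        rw [Polynomial.map_map, RingHom.comp_assoc, ← Polynomial.map_map]
        exact map_fix' f hστ
      rw [J.map_map _ _ _ _ hc', J.map_map _ _ _ _ hc]
      congr 2
      ext a
      exact (hστ a).symm
    have h3 := hec (n + 1) σ τ hστ
    rw [map_sub, h2, map_sub, ← h3, map_sub]
    abel

/-- `SelTriv` implies `SelZero` -/
theorem selZero_of_selTriv {k : Type*} [Field k] [NumberField k] {f : k[X]} {g : ℕ} (hf : f.Monic)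
    (hfs : f.Separable) (hfd : f.natDegree = 2 * g + 1) (h : SelTriv k f) : SelZero k f := by
  intro c c1 c2 c3 c4 hfin hreal
  have hg := good_of hfs hfd (algebraMap k (AlgebraicClosure k))
  have hfm : (f.map (algebraMap k (AlgebraicClosure k))).Monic := hf.map _
  intro n
  induction n with
  | zero =>
    refine ⟨0, smul_zero _, fun σ => ?_⟩
    have := c2 0 σ
    rw [pow_zero, one_smul] at this
    rw [this, map_zero, sub_zero]
  | succ n ih =>
    obtain ⟨t, ht, htc⟩ := ih
    obtain ⟨u, hu⟩ := exists_half hg hfm t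
    have hu' : 2 ^ (n + 1) • u = 0 := by
      rw [pow_succ, mul_smul, hu, ht]
    have hgc : ∀ σ τ, gact f (σ * τ) u = gact f σ (gact f τ u) := fun σ τ =>
      sact_mul (K := k) (Ω := AlgebraicClosure k) f σ τ u
    obtain ⟨t', ht', htc'⟩ := h n (fun σ => c (n + 1) σ - (gact f σ u - u))
      ((c1 (n + 1)).sub (gact_isLocallyConstant hg hf hu'))
      (by
        intro σ
        rw [nsmul_sub, c4, nsmul_sub, ← map_nsmul, hu, htc, sub_self])
      (by
        intro σ τ
        simp only [c3, hgc, map_sub]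
        abel)
      (fun v ι => locSol_of_locPt (hfin v ι) n hu')
      (fun ι => locSol_of_locPt (hreal ι) n hu')
    refine ⟨u + t', ?_, fun σ => ?_⟩
    · rw [nsmul_add, hu', pow_succ, mul_smul, ht', smul_zero, add_zero]
    · have h3 := htc' σ
      rw [map_add]
      rw [sub_eq_iff_eq_add] at h3
      rw [h3]
      abel

/-- `SelTriv` implies `SelTor` -/
theorem selTor_of_selTriv {k : Type*} [Field k] [NumberField k] {f : k[X]} {g : ℕ} (hf : f.Monic)
    (hfs : f.Separable) (hfd : f.natDegree = 2 * g + 1) (h : SelTriv k f) : SelTor k f :=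
  selTor_of_selZero (selZero_of_selTriv hf hfs hfd h)

end Pool.Agent.Lib.MP_2f3286_ag.HYP
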