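import Pool.Agent.Lib.MP_2f3286_ag.HYP.Nrm

/-!
# The second model of an odd hyperelliptic curve: a ramification point is moved to infinity

`a` is a root of `f`, `b = f'(a)`. The second model is `y ^ 2 = f₂(x)` with `x₂ = b / (x - a)`, `y₂ = b ^ g y / (x - a) ^ (g + 1)`.
-/

open Polynomial

noncomputable section

namespace Pool.Agent.Lib.MP_2f3286_ag.HYP

variable {E : Type*} [Field E]

/-- `X ^ N p(a + b / X)` -/
def trf (a b : E) (N : ℕ) (p : E[X]) : E[X] := reflect N (p.comp (C b * X + C a))

theorem natDegree_comp_le' (a b : E) (p : E[X]) :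
    (p.comp (C b * X + C a)).natDegree ≤ p.natDegree := by
  refine natDegree_comp_le.trans ?_
  have : (C b * X + C a : E[X]).natDegree ≤ 1 := natDegree_linear_le
  calc p.natDegree * (C b * X + C a : E[X]).natDegree ≤ p.natDegree * 1 :=
        Nat.mul_le_mul_left _ this
    _ = p.natDegree := mul_one _

theorem trf_add (a b : E) (N : ℕ) (p q : E[X]) : trf a b N (p + q) = trf a b N p + trf a b N q := by
  rw [trf, add_comp, reflect_add, trf, trf]

theorem trf_sub (a b : E) (N : ℕ) (p q : E[X]) : trf a b N (p - q) = trf a b N p - trf a b N q := by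
  rw [trf, sub_comp, reflect_sub, trf, trf]

theorem trf_C_mul (a b : E) (N : ℕ) (c : E) (p : E[X]) :
    trf a b N (C c * p) = C c * trf a b N p := by
  rw [trf, mul_comp, C_comp, reflect_C_mul, trf]

theorem trf_one (a b : E) (N : ℕ) : trf a b N 1 = X ^ N := by
  rw [trf, one_comp, reflect_one]

theorem trf_zero (a b : E) (N : ℕ) : trf a b N 0 = 0 := by
  rw [trf, zero_comp, reflect_zero]

theorem trf_mul (a b : E) {N N' : ℕ} {p q : E[X]} (hp : p.natDegree ≤ N) (hq : q.natDegree ≤ N') :
    trf a b (N + N') (p * q) = trf a b N p * trf a b N' q := by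
  rw [trf, mul_comp, reflect_mul _ _ ((natDegree_comp_le' a b p).trans hp)
    ((natDegree_comp_le' a b q).trans hq), trf, trf]

theorem trf_add_pow (a b : E) {N : ℕ} (k : ℕ) {p : E[X]} (hp : p.natDegree ≤ N) :
    trf a b (N + k) p = trf a b N p * X ^ k := by
  conv_lhs => rw [← mul_one p]
  rw [trf_mul a b hp (by rw [natDegree_one]; exact Nat.zero_le _), trf_one]

theorem trf_X_sub_C (a b x : E) : trf a b 1 (X - C x) = C b + C (a - x) * X := by
  have h : (X - C x : E[X]).comp (C b * X + C a) = C b * X + C (a - x) := by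
    rw [sub_comp, X_comp, C_comp, C_sub]
    ring
  rw [trf, h, reflect_add, reflect_C_mul, reflect_one_X, mul_one, reflect_C, pow_one]

theorem trf_eval (a b : E) {N : ℕ} {p : E[X]} (hp : p.natDegree ≤ N) {x : E} (hx : x ≠ 0) :
    (trf a b N p).eval x = x ^ N * p.eval (a + b / x) := by
  let _ : Invertible x⁻¹ := invertibleOfNonzero (inv_ne_zero hx)
  have h := eval₂_reflect_mul_pow (RingHom.id E) x⁻¹ N (p.comp (C b * X + C a))
    ((natDegree_comp_le' a b p).trans hp)
  have h1 : (⅟(x⁻¹) : E) = x := by rw [invOf_eq_inv, inv_inv]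
  rw [h1] at h
  have h2 : (p.comp (C b * X + C a)).eval x⁻¹ = p.eval (a + b / x) := by
    rw [eval_comp]
    congr 1
    simp only [eval_add, eval_mul, eval_C, eval_X]
    rw [div_eq_mul_inv]
    ring
  have h3 : (trf a b N p).eval x * x⁻¹ ^ N = p.eval (a + b / x) := by
    rw [← h2]
    exact h
  rw [← h3, mul_left_comm, ← mul_pow, mul_inv_cancel₀ hx, one_pow, mul_one]

theorem trf_coeff (a b : E) (N : ℕ) (p : E[X]) (i : ℕ) :
    (trf a b N p).coeff i = (p.comp (C b * X + C a)).coeff (revAt N i) := by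
  rw [trf, coeff_reflect]

theorem comp_coeff_zero (a b : E) (p : E[X]) : (p.comp (C b * X + C a)).coeff 0 = p.eval a := by
  rw [coeff_zero_eq_eval_zero, eval_comp]
  simp

theorem comp_coeff_one (a b : E) (p : E[X]) :
    (p.comp (C b * X + C a)).coeff 1 = b * p.derivative.eval a := by
  have h : ((p.comp (C b * X + C a)).derivative).coeff 0 = (p.comp (C b * X + C a)).coeff 1 := by
    rw [coeff_derivative]
    simp
  rw [← h, derivative_comp, coeff_zero_eq_eval_zero, eval_mul, eval_comp]
  simp

/-- the second model -/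
def mod2 (g : ℕ) (a : E) (f : E[X]) : E[X] :=
  C ((f.derivative.eval a)⁻¹ ^ 2) * trf a (f.derivative.eval a) (2 * g + 2) f

variable {g : ℕ} {a : E} {f : E[X]}

theorem deriv_ne_zero (hf : Good g f) (ha : f.eval a = 0) : f.derivative.eval a ≠ 0 := by
  intro h
  obtain ⟨u, v, huv⟩ := hf.sep
  have := congrArg (Polynomial.eval a) huv
  rw [eval_add, eval_mul, eval_mul, ha, h, mul_zero, mul_zero, add_zero, eval_one] at this
  exact zero_ne_one this

theorem mod2_eval (hf : Good g f) {x : E} (hx : x ≠ 0) :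
    (mod2 g a f).eval x =
      (f.derivative.eval a)⁻¹ ^ 2 * (x ^ (2 * g + 2) * f.eval (a + f.derivative.eval a / x)) := by
  rw [mod2, eval_mul, eval_C, trf_eval _ _ (by rw [hf.deg]; omega) hx]

theorem mod2_coeff (i : ℕ) : (mod2 g a f).coeff i = (f.derivative.eval a)⁻¹ ^ 2 *
    (f.comp (C (f.derivative.eval a) * X + C a)).coeff (revAt (2 * g + 2) i) := by
  rw [mod2, coeff_C_mul, trf_coeff]

theorem mod2_eval_zero (hf : Good g f) : (mod2 g a f).eval 0 = 0 := by
  rw [← coeff_zero_eq_eval_zero, mod2_coeff, revAt_le (Nat.zero_le _), coeff_eq_zero_of_natDegree_lt,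
    mul_zero]
  refine (natDegree_comp_le' a _ f).trans_lt ?_
  rw [hf.deg]
  omega

theorem mod2_monic (hf : Good g f) (ha : f.eval a = 0) :
    (mod2 g a f).Monic ∧ (mod2 g a f).natDegree = 2 * g + 1 := by
  have hb := deriv_ne_zero hf ha
  have h1 : (mod2 g a f).coeff (2 * g + 1) = 1 := by
    rw [mod2_coeff, revAt_le (by omega), show 2 * g + 2 - (2 * g + 1) = 1 by omega, comp_coeff_one]
    field_simp
  have h2 : (mod2 g a f).natDegree ≤ 2 * g + 1 := by
    rw [natDegree_le_iff_coeff_eq_zero]
    intro i hi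
    rw [mod2_coeff]
    rcases eq_or_lt_of_le (show 2 * g + 2 ≤ i by omega) with h | h
    · rw [← h, revAt_le le_rfl, Nat.sub_self, comp_coeff_zero, ha, mul_zero]
    · have : revAt (2 * g + 2) i = i := revAt_eq_self_of_lt h
      rw [this, coeff_eq_zero_of_natDegree_lt, mul_zero]
      refine (natDegree_comp_le' a _ f).trans_lt ?_
      rw [hf.deg]
      omega
  have h3 : (mod2 g a f).natDegree = 2 * g + 1 :=
    le_antisymm h2 (le_natDegree_of_ne_zero (by rw [h1]; exact one_ne_zero))
  refine ⟨?_, h3⟩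
  rw [Monic, leadingCoeff, h3, h1]

theorem mod2_map {E' : Type*} [Field E'] (j : E →+* E') (g : ℕ) (a : E) (f : E[X]) :
    (mod2 g a f).map j = mod2 g (j a) (f.map j) := by
  rw [mod2, mod2, Polynomial.map_mul, map_C, trf, trf, ← reflect_map, map_comp, Polynomial.map_add,
    Polynomial.map_mul, map_C, map_C, map_X, derivative_map, eval_map, eval₂_at_apply, map_pow,
    map_inv₀]

theorem mod2_good [IsAlgClosed E] (hf : Good g f) (ha : f.eval a = 0) : Good g (mod2 g a f) := by
  classical
  refine ⟨hf.two, ?_, (mod2_monic hf ha).2⟩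
  have hb := deriv_ne_zero hf ha
  have h0 : mod2 g a f ≠ 0 := (mod2_monic hf ha).1.ne_zero
  rw [← nodup_roots_iff_of_splits h0 (IsAlgClosed.splits _), ← Multiset.toFinset_card_eq_card_iff_nodup]
  apply le_antisymm (Multiset.toFinset_card_le _)
  refine (card_roots' _).trans ?_
  rw [(mod2_monic hf ha).2, ← hf.deg]
  -- the roots of the second model
  have hf0 : f ≠ 0 := by
    intro h
    have := hf.deg
    rw [h, natDegree_zero] at this
    omega
  have h1 : f.roots.toFinset.card = f.natDegree := by
    rw [Multiset.toFinset_card_of_nodup (nodup_roots hf.sep)]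
    exact (splits_iff_card_roots.mp (IsAlgClosed.splits f))
  rw [← h1]
  refine Finset.card_le_card_of_injOn
    (fun x => f.derivative.eval a / (x - a)) ?_ ?_
  · intro x hx
    rw [Finset.mem_coe, Multiset.mem_toFinset, mem_roots hf0] at hx
    rw [Finset.mem_coe, Multiset.mem_toFinset, mem_roots h0, IsRoot]
    change (mod2 g a f).eval (f.derivative.eval a / (x - a)) = 0
    by_cases hxa : x = a
    · rw [hxa, sub_self, div_zero]
      exact mod2_eval_zero hf
    · have h2 : x - a ≠ 0 := sub_ne_zero.mpr hxa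
      rw [mod2_eval hf (div_ne_zero hb h2), div_div_cancel₀ hb, add_sub_cancel]
      have : f.eval x = 0 := hx
      rw [this, mul_zero, mul_zero]
  · intro x _ y _ hxy
    have h2 : f.derivative.eval a / (x - a) = f.derivative.eval a / (y - a) := hxy
    by_cases hx : x = a
    · rw [hx, sub_self, div_zero] at h2
      rcases div_eq_zero_iff.mp h2.symm with h3 | h3
      · exact absurd h3 hb
      · rw [hx, sub_eq_zero.mp h3]
    · have hxa : x - a ≠ 0 := sub_ne_zero.mpr hx
      by_cases hy : y = a
      · rw [hy, sub_self, div_zero] at h2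
        rcases div_eq_zero_iff.mp h2 with h3 | h3
        · exact absurd h3 hb
        · exact absurd h3 hxa
      · have hya : y - a ≠ 0 := sub_ne_zero.mpr hy
        rw [div_eq_div_iff hxa hya] at h2
        have := mul_left_cancel₀ hb h2
        linear_combination -this

end Pool.Agent.Lib.MP_2f3286_ag.HYP
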