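import Pool.Agent.Lib.MP_2f3286_ag.HYP.Mum

/-!
# Two-torsion   (module Two, 45 minutes)

PROOF. `two_torsion`: `z = clm m`, `m` reduced (`exists_reduced`), `clm (m + m) = 0`, `(h) = idm (m + m)` (`clm_eq_zero_iff`), the norm has degree `2 #m ≤ 2 g`
(`norm_deg`), so `h.im = 0` (`norm_natDegree`), `(m + m).map inv = m + m` (`even_count`), so `m.map inv = m` (counts). `P` in `m` with `P.inv ≠ P`: `P.inv` is in `m`, contradiction to `Semi`.
So `y_P = 0` (`2 ≠ 0`) for all `P` in `m`; `Nodup` by `Semi` (`P ::ₘ {P.inv} = {P, P}`).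
`two_torsion_finite`: by `two_torsion` such a `z` is `clm m` for `m` without duplicates whose points have `y = 0` and `x` a root of `φ`: finitely many.
-/

open Polynomial

noncomputable section

namespace Pool.Agent.Lib.MP_2f3286_ag.HYP

variable {E : Type*} [Field E] {g : ℕ} {φ : E[X]}

private theorem Two_inv_eq {P : Pt φ} (h : P.y = 0) : P.inv = P := by
  ext
  · rfl
  · show -P.y = P.y
    rw [h, neg_zero]

private theorem Two_reduced (hg : 1 ≤ g) (P : Pt φ) : Reduced g {P} := by
  refine ⟨by rw [Multiset.card_singleton]; exact hg, fun Q hQ => ?_⟩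
  have := Multiset.card_le_card hQ
  rw [Multiset.card_cons, Multiset.card_singleton, Multiset.card_singleton] at this
  omega

theorem two_torsion [IsAlgClosed E] (hφ : Good g φ) {z : J φ} (hz : (2 : ℕ) • z = 0) :
    ∃ m : Multiset (Pt φ), Reduced g m ∧ m.Nodup ∧ (∀ P ∈ m, P.y = 0) ∧ z = clm m := by
  classical
  obtain ⟨m, hm, rfl⟩ := exists_reduced hφ z
  have h1 : clm (m + m) = 0 := by
    rw [clm_add, ← two_nsmul]
    exact hz
  obtain ⟨h, h0, hh⟩ := (clm_eq_zero_iff hφ (m + m)).1 h1
  have hdeg := norm_deg hφ h0 hh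
  rw [Multiset.card_add] at hdeg
  have hcard := hm.1
  have him : h.im = 0 := by
    by_contra hne
    rw [norm_natDegree hφ h hne] at hdeg
    have := le_max_right (2 * h.re.natDegree) (2 * h.im.natDegree + (2 * g + 1))
    omega
  have hinv : m.map Pt.inv = m := by
    have h2 := (even_count hφ h0 hh him).1
    rw [Multiset.map_add] at h2
    ext P
    have h3 := congrArg (Multiset.count P) h2
    rw [Multiset.count_add, Multiset.count_add] at h3
    omega
  have hy : ∀ P ∈ m, P.y = 0 := by
    intro P hP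
    by_contra hne
    have h2 : P.inv ∈ m := by
      rw [← hinv]
      exact Multiset.mem_map_of_mem _ hP
    have h3 : P ≠ P.inv := by
      intro h4
      have h5 : P.y = -P.y := congrArg Pt.y h4
      have h6 : (2 : E) * P.y = 0 := by linear_combination h5
      rcases mul_eq_zero.1 h6 with h7 | h7
      · exact hφ.two h7
      · exact hne h7
    refine hm.2 P ((Multiset.le_iff_subset ?_).2 ?_)
    · rw [Multiset.nodup_cons]
      exact ⟨by rw [Multiset.mem_singleton]; exact h3, Multiset.nodup_singleton _⟩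
    · intro Q hQ
      rw [Multiset.mem_cons, Multiset.mem_singleton] at hQ
      rcases hQ with rfl | rfl
      · exact hP
      · exact h2
  refine ⟨m, hm, ?_, hy, rfl⟩
  rw [Multiset.nodup_iff_le]
  intro P hP
  have h2 : P ∈ m := Multiset.mem_of_le hP (Multiset.mem_cons_self _ _)
  refine hm.2 P ?_
  rw [Two_inv_eq (hy P h2)]
  exact hP

theorem two_torsion_finite [IsAlgClosed E] (hφ : Good g φ) :
    {z : J φ | (2 : ℕ) • z = 0}.Finite := by
  classical
  have hφ0 : φ ≠ 0 := by
    intro h
    have := hφ.deg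
    rw [h, natDegree_zero] at this
    omega
  have hT : {P : Pt φ | P.y = 0}.Finite := by
    refine Set.Finite.of_finite_image (f := fun P : Pt φ => P.x)
      ((φ.roots.toFinset : Set E).toFinite.subset ?_) ?_
    · rintro x ⟨P, hP, rfl⟩
      have h1 : P.y = 0 := hP
      have h2 := P.eqn
      rw [h1, zero_pow two_ne_zero] at h2
      rw [Finset.mem_coe, Multiset.mem_toFinset, mem_roots hφ0]
      exact h2.symm
    · intro P hP Q hQ h
      have h1 : P.y = 0 := hP
      have h2 : Q.y = 0 := hQ
      ext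
      · exact h
      · rw [h1, h2]
  refine ((hT.toFinset.powerset : Set (Finset (Pt φ))).toFinite.image
    (fun s => clm s.val)).subset ?_
  intro z hz
  obtain ⟨m, _, hm2, hm3, rfl⟩ := two_torsion hφ hz
  refine ⟨⟨m, hm2⟩, ?_, rfl⟩
  rw [Finset.mem_coe, Finset.mem_powerset]
  intro P hP
  rw [Set.Finite.mem_toFinset]
  exact hm3 P hP

theorem two_cl (hφ : Good g φ) {P : Pt φ} (h : P.y = 0) : (2 : ℕ) • (cl P : J φ) = 0 := by
  have h1 := cl_inv hφ P
  rw [Two_inv_eq h] at h1
  rw [two_nsmul]
  nth_rewrite 1 [h1]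
  exact neg_add_cancel _

theorem cl_ne_zero [IsAlgClosed E] (hφ : Good g φ) (hg : 1 ≤ g) (P : Pt φ) :
    (cl P : J φ) ≠ 0 := by
  intro h
  have h1 : ({P} : Multiset (Pt φ)) = 0 := by
    refine Reduced.unique hφ (Two_reduced hg P) ⟨Nat.zero_le _, fun Q hQ => ?_⟩ ?_
    · have := Multiset.card_le_card hQ
      rw [Multiset.card_cons, Multiset.card_singleton, Multiset.card_zero] at this
      omega
    · rw [clm_singleton, clm_zero, h]
  exact Multiset.singleton_ne_zero P h1

theorem cl_injective [IsAlgClosed E] (hφ : Good g φ) (hg : 1 ≤ g) {P Q : Pt φ}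
    (h : (cl P : J φ) = cl Q) : P = Q := by
  have h1 : ({P} : Multiset (Pt φ)) = {Q} := by
    refine Reduced.unique hφ (Two_reduced hg P) (Two_reduced hg Q) ?_
    rw [clm_singleton, clm_singleton, h]
  exact Multiset.singleton_inj.1 h1

end Pool.Agent.Lib.MP_2f3286_ag.HYP
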