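import Pool.Agent.Lib.MP_2f3286_ag.HYP.HM1
import Pool.Agent.Lib.MP_2f3286_ag.HYP.Two

/-!
# The homomorphism from the Jacobian to the Jacobian of the second model
-/

open Polynomial

noncomputable section

namespace Pool.Agent.Lib.MP_2f3286_ag.HYP

variable {E : Type*} [Field E] {g : ℕ} {a : E} {f : E[X]}

/-- the image of a point in the second model -/
def Pt.two (hf : Good g f) (ha : f.eval a = 0) (P : Pt f) (hP : P.x ≠ a) : Pt (mod2 g a f) :=
  ⟨f.derivative.eval a / (P.x - a), f.derivative.eval a ^ g * P.y / (P.x - a) ^ (g + 1), by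
    have hb := deriv_ne_zero hf ha
    have h2 : P.x - a ≠ 0 := sub_ne_zero.mpr hP
    rw [mod2_eval hf (div_ne_zero hb h2), div_div_cancel₀ hb, add_sub_cancel, ← P.eqn, div_pow,
      div_pow, mul_pow, ← pow_mul, ← pow_mul, show (g + 1) * 2 = 2 * g + 2 by ring]
    field_simp
    ring⟩

theorem Pt.two_x_ne (hf : Good g f) (ha : f.eval a = 0) (P : Pt f) (hP : P.x ≠ a) :
    (P.two hf ha hP).x ≠ 0 := div_ne_zero (deriv_ne_zero hf ha) (sub_ne_zero.mpr hP)

/-- the point with `x = 0` in the second model -/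
def zpt (hf : Good g f) : Pt (mod2 g a f) := ⟨0, 0, by rw [mod2_eval_zero hf]; ring⟩

/-- bounds for the degree -/
def Bd (g M : ℕ) (h : CR f) : Prop := h.re.natDegree ≤ M ∧ h.im.natDegree + (g + 1) ≤ M

/-- the transform of a function, multiplied by `x ^ M` -/
def th (g : ℕ) (a : E) (M : ℕ) (h : CR f) : CR (mod2 g a f) :=
  ⟨trf a (f.derivative.eval a) M h.re,
    C (f.derivative.eval a) * trf a (f.derivative.eval a) (M - (g + 1)) h.im⟩

theorem Bd.mono {M M' : ℕ} {h : CR f} (hM : Bd g M h) (hMM : M ≤ M') : Bd g M' h :=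
  ⟨hM.1.trans hMM, hM.2.trans hMM⟩

theorem exists_bd (g : ℕ) (h : CR f) : ∃ M, Bd g M h :=
  ⟨h.re.natDegree + (h.im.natDegree + (g + 1)), Nat.le_add_right _ _, Nat.le_add_left _ _⟩

theorem th_add {M : ℕ} (h h' : CR f) : th g a M (h + h') = th g a M h + th g a M h' := by
  ext1
  · rw [th, QuadraticAlgebra.re_add, trf_add, QuadraticAlgebra.re_add, th, th]
  · rw [th, QuadraticAlgebra.im_add, trf_add, QuadraticAlgebra.im_add, th, th, mul_add]

theorem Bd.mul (hf : Good g f) {M M' : ℕ} {h h' : CR f} (hM : Bd g M h) (hM' : Bd g M' h') :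
    Bd g (M + M') (h * h') := by
  obtain ⟨h1, h2⟩ := hM
  obtain ⟨h3, h4⟩ := hM'
  constructor
  · rw [QuadraticAlgebra.re_mul]
    refine (natDegree_add_le _ _).trans (max_le ?_ ?_)
    · exact natDegree_mul_le.trans (add_le_add h1 h3)
    · have : (f * h.im * h'.im).natDegree ≤ (2 * g + 1) + h.im.natDegree + h'.im.natDegree := by
        refine natDegree_mul_le.trans (add_le_add (natDegree_mul_le.trans ?_) le_rfl)
        rw [hf.deg]
      omega
  · rw [QuadraticAlgebra.im_mul]
    have e1 : (h.re * h'.im).natDegree ≤ h.re.natDegree + h'.im.natDegree := natDegree_mul_le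
    have e2 : (h.im * h'.re).natDegree ≤ h.im.natDegree + h'.re.natDegree := natDegree_mul_le
    have e3 : (h.re * h'.im + h.im * h'.re + 0 * h.im * h'.im).natDegree ≤
        max (h.re.natDegree + h'.im.natDegree) (h.im.natDegree + h'.re.natDegree) := by
      rw [zero_mul, zero_mul, add_zero]
      exact (natDegree_add_le _ _).trans (max_le_max e1 e2)
    rcases le_max_iff.mp e3 with e | e <;> omega

theorem th_mul (hf : Good g f) (ha : f.eval a = 0) {M M' : ℕ} {h h' : CR f} (hM : Bd g M h)
    (hM' : Bd g M' h') : th g a (M + M') (h * h') = th g a M h * th g a M' h' := by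
  have hb := deriv_ne_zero hf ha
  obtain ⟨h1, h2⟩ := hM
  obtain ⟨h3, h4⟩ := hM'
  have k1 : h.im.natDegree ≤ M - (g + 1) := by omega
  have k2 : h'.im.natDegree ≤ M' - (g + 1) := by omega
  ext1
  · rw [QuadraticAlgebra.re_mul]
    simp only [th]
    rw [QuadraticAlgebra.re_mul, trf_add, trf_mul _ _ h1 h3]
    congr 1
    have e1 : M + M' = (2 * g + 2) + (M - (g + 1)) + (M' - (g + 1)) := by omega
    rw [e1, trf_mul _ _ (natDegree_mul_le.trans (add_le_add (by rw [hf.deg]; omega) k1)) k2,
      trf_mul _ _ (by rw [hf.deg]; omega) k1, mod2]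
    have e2 : (C ((f.derivative.eval a)⁻¹ ^ 2) : E[X]) * (C (f.derivative.eval a) *
        C (f.derivative.eval a)) = 1 := by
      rw [← C_mul, ← C_mul, ← C_1]
      congr 1
      field_simp
    linear_combination (-(trf a (f.derivative.eval a) (2 * g + 2) f) *
      trf a (f.derivative.eval a) (M - (g + 1)) h.im *
      trf a (f.derivative.eval a) (M' - (g + 1)) h'.im) * e2
  · rw [QuadraticAlgebra.im_mul]
    simp only [th]
    rw [QuadraticAlgebra.im_mul, zero_mul, zero_mul, add_zero, zero_mul, zero_mul, add_zero, trf_add]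
    have e1 : M + M' - (g + 1) = M + (M' - (g + 1)) := by omega
    have e2 : M + M' - (g + 1) = (M - (g + 1)) + M' := by omega
    have e3 : trf a (f.derivative.eval a) (M + M' - (g + 1)) (h.re * h'.im) =
        trf a (f.derivative.eval a) M h.re * trf a (f.derivative.eval a) (M' - (g + 1)) h'.im := by
      rw [e1, trf_mul _ _ h1 k2]
    have e4 : trf a (f.derivative.eval a) (M + M' - (g + 1)) (h.im * h'.re) =
        trf a (f.derivative.eval a) (M - (g + 1)) h.im * trf a (f.derivative.eval a) M' h'.re := by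
      rw [e2, trf_mul _ _ k1 h3]
    rw [e3, e4]
    ring

theorem th_ev (hf : Good g f) (ha : f.eval a = 0) {M : ℕ} {h : CR f} (hM : Bd g M h) (P : Pt f)
    (hP : P.x ≠ a) :
    (P.two hf ha hP).ev (th g a M h) = (P.two hf ha hP).x ^ M * P.ev h := by
  have hb := deriv_ne_zero hf ha
  obtain ⟨h1, h2⟩ := hM
  have hx := P.two_x_ne hf ha hP
  have h3 : P.x - a ≠ 0 := sub_ne_zero.mpr hP
  have hxx : a + f.derivative.eval a / (P.two hf ha hP).x = P.x := by
    change a + f.derivative.eval a / (f.derivative.eval a / (P.x - a)) = P.x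
    rw [div_div_cancel₀ hb, add_sub_cancel]
  rw [Pt.ev_apply, Pt.ev_apply, th]
  simp only
  rw [eval_mul, eval_C, trf_eval _ _ h1 hx, trf_eval _ _ (by omega) hx, hxx]
  have h4 : f.derivative.eval a * (P.two hf ha hP).y =
      (P.two hf ha hP).x ^ (g + 1) * P.y := by
    change f.derivative.eval a * (f.derivative.eval a ^ g * P.y / (P.x - a) ^ (g + 1)) =
      (f.derivative.eval a / (P.x - a)) ^ (g + 1) * P.y
    rw [div_pow, pow_succ (f.derivative.eval a)]
    ring
  have h5 : (P.two hf ha hP).x ^ M =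
      (P.two hf ha hP).x ^ (M - (g + 1)) * (P.two hf ha hP).x ^ (g + 1) := by
    rw [← pow_add]
    congr 1
    omega
  rw [mul_add]
  congr 1
  rw [h5]
  linear_combination ((P.two hf ha hP).x ^ (M - (g + 1)) * h.im.eval P.x) * h4

theorem th_norm (hf : Good g f) (ha : f.eval a = 0) {M : ℕ} {h : CR f} (hM : Bd g M h) :
    (th g a M h).norm = trf a (f.derivative.eval a) (2 * M) h.norm := by
  have hb := deriv_ne_zero hf ha
  obtain ⟨h1, h2⟩ := hM
  have k1 : h.im.natDegree ≤ M - (g + 1) := by omega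
  rw [norm_eq, norm_eq, trf_sub, th]
  simp only
  have e1 : trf a (f.derivative.eval a) (2 * M) (h.re ^ 2) =
      trf a (f.derivative.eval a) M h.re ^ 2 := by
    rw [pow_two, two_mul, trf_mul _ _ h1 h1, pow_two]
  have e2 : trf a (f.derivative.eval a) (2 * M) (f * h.im ^ 2) =
      trf a (f.derivative.eval a) (2 * g + 2) f *
        trf a (f.derivative.eval a) (M - (g + 1)) h.im ^ 2 := by
    have e3 : 2 * M = (2 * g + 2) + ((M - (g + 1)) + (M - (g + 1))) := by omega
    rw [e3, pow_two, trf_mul _ _ (by rw [hf.deg]; omega) (natDegree_mul_le.trans (add_le_add k1 k1)),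
      trf_mul _ _ k1 k1, pow_two]
  rw [e1, e2, mod2]
  have e2 : (C ((f.derivative.eval a)⁻¹ ^ 2) : E[X]) * (C (f.derivative.eval a) *
      C (f.derivative.eval a)) = 1 := by
    rw [← C_mul, ← C_mul, ← C_1]
    congr 1
    field_simp
  linear_combination (-(trf a (f.derivative.eval a) (2 * g + 2) f) *
    trf a (f.derivative.eval a) (M - (g + 1)) h.im ^ 2) * e2

/-- the image of a divisor -/
def two (hf : Good g f) (ha : f.eval a = 0) (m : Multiset (Pt f)) : Multiset (Pt (mod2 g a f)) :=
  open scoped Classical in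
    m.filterMap fun P => if hP : P.x ≠ a then some (P.two hf ha hP) else none

theorem two_zero (hf : Good g f) (ha : f.eval a = 0) : two hf ha 0 = 0 := by
  rw [two, Multiset.filterMap_zero]

theorem two_cons_ne (hf : Good g f) (ha : f.eval a = 0) (m : Multiset (Pt f)) {P : Pt f}
    (hP : P.x ≠ a) : two hf ha (P ::ₘ m) = P.two hf ha hP ::ₘ two hf ha m := by
  rw [two, Multiset.filterMap_cons_some _ _ _ (dif_pos hP), two]

theorem two_cons_eq (hf : Good g f) (ha : f.eval a = 0) (m : Multiset (Pt f)) {P : Pt f}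
    (hP : P.x = a) : two hf ha (P ::ₘ m) = two hf ha m := by
  rw [two, Multiset.filterMap_cons_none _ _ (dif_neg (not_not.mpr hP)), two]

/-- a function in the ideal of a divisor is transformed into a function in the ideal of the image -/
theorem th_mem (hf : Good g f) (ha : f.eval a = 0) (m : Multiset (Pt f)) {h : CR f}
    (hm : h ∈ idm m) : ∃ M₀, ∀ M, M₀ ≤ M → Bd g M h ∧ th g a M h ∈ idm (two hf ha m) := by
  induction m using Multiset.induction_on generalizing h with
  | empty =>
    obtain ⟨M₀, hM⟩ := exists_bd g h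
    refine ⟨M₀, fun M hMM => ⟨hM.mono hMM, ?_⟩⟩
    rw [two_zero, idm_zero, Ideal.one_eq_top]
    exact Submodule.mem_top
  | cons P m ih =>
    rw [idm_cons] at hm
    refine Submodule.mul_induction_on hm ?_ ?_
    · intro u hu v hv
      obtain ⟨M₁, hM₁⟩ := exists_bd g u
      obtain ⟨M₂, hM₂⟩ := ih hv
      refine ⟨M₁ + M₂, fun M hM => ?_⟩
      have h1 : M = M₁ + (M - M₁) := by omega
      obtain ⟨h2, h3⟩ := hM₂ (M - M₁) (by omega)
      rw [h1, th_mul hf ha hM₁ h2]
      refine ⟨hM₁.mul hf h2, ?_⟩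
      by_cases hP : P.x = a
      · rw [two_cons_eq hf ha m hP]
        exact Ideal.mul_mem_left _ _ h3
      · rw [two_cons_ne hf ha m hP, idm_cons]
        refine Ideal.mul_mem_mul ?_ h3
        rw [Pt.idl, RingHom.mem_ker, th_ev hf ha hM₁ P hP]
        have : P.ev u = 0 := RingHom.mem_ker.mp hu
        rw [this, mul_zero]
    · rintro u v ⟨M₁, h1⟩ ⟨M₂, h2⟩
      refine ⟨max M₁ M₂, fun M hM => ?_⟩
      obtain ⟨h3, h4⟩ := h1 M ((le_max_left _ _).trans hM)
      obtain ⟨h5, h6⟩ := h2 M ((le_max_right _ _).trans hM)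
      rw [th_add]
      refine ⟨⟨?_, ?_⟩, Ideal.add_mem _ h4 h6⟩
      · rw [QuadraticAlgebra.re_add]
        exact (natDegree_add_le _ _).trans (max_le h3.1 h5.1)
      · rw [QuadraticAlgebra.im_add]
        have e1 := natDegree_add_le u.im v.im
        have e2 := h3.2
        have e3 := h5.2
        rcases le_max_iff.mp e1 with e | e <;> omega

end Pool.Agent.Lib.MP_2f3286_ag.HYP
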