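import Pool.Agent.Lib.MP_2f3286_ag.HYP.Act

/-!
# The hypothesis about the 2-adic Selmer group
-/

open Polynomial IsDedekindDomain NumberField

noncomputable section

namespace Pool.Agent.Lib.MP_2f3286_ag.HYP

/-- The restriction of the sequence of cocycles `c n` with values in the `2 ^ n`-torsion of `J` to the field
`F` is the Kummer class of `0` or of the class of a point of the curve with coordinates in `F`: `e n` is a
compatible sequence of its `2 ^ n`-th parts. -/
def LocPt {k kb : Type*} [Field k] [Field kb] [Algebra k kb] (f : k[X])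
    (c : ℕ → Gal(kb/k) → J (f.map (algebraMap k kb))) (F : Type*) {Fb : Type*} [Field F] [Field Fb]
    [Algebra F Fb] (ι : kb →+* Fb) : Prop :=
  ∃ e : ℕ → J (f.map (ι.comp (algebraMap k kb))),
    (e 0 = 0 ∨ ∃ P : Pt (f.map (ι.comp (algebraMap k kb))),
      (∃ a b : F, algebraMap F Fb a = P.x ∧ algebraMap F Fb b = P.y) ∧ e 0 = cl P) ∧
    (∀ n, 2 • e (n + 1) = e n) ∧
    ∀ (n : ℕ) (σ : Gal(kb/k)) (τ : Gal(Fb/F)) (h : ∀ a, ι (σ a) = τ (ι a)),
      J.map (τ : Fb →+* Fb) (map_fix' f h) (e n) - e n =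
        J.map ι (Polynomial.map_map _ _ _) (c n σ)

/-- **The hypothesis.** Every element `c` of the 2-adic Selmer group of `J` over `k` (the inverse limit of the
Selmer groups for `2 ^ n`) which is, at every place of `k`, the class of a point of the curve, is a torsion
element: the cocycles `c n` are coboundaries of elements of 2-power order. -/
def SelTor (k : Type*) [Field k] [NumberField k] (f : k[X]) : Prop :=
  ∀ c : ℕ → Gal(AlgebraicClosure k/k) → J (f.map (algebraMap k (AlgebraicClosure k))),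
    (∀ n, IsLocallyConstant (c n)) → (∀ n σ, 2 ^ n • c n σ = 0) →
    (∀ n σ τ, c n (σ * τ) = c n σ + gact f σ (c n τ)) → (∀ n σ, 2 • c (n + 1) σ = c n σ) →
    (∀ (v : HeightOneSpectrum (𝓞 k))
      (ι : AlgebraicClosure k →ₐ[k] AlgebraicClosure (v.adicCompletion k)),
      LocPt f c (v.adicCompletion k)
        (ι : AlgebraicClosure k →+* AlgebraicClosure (v.adicCompletion k))) →
    (∀ ι : AlgebraicClosure k →+* ℂ, LocPt f c ℝ ι) →
    ∀ n, ∃ t : J (f.map (algebraMap k (AlgebraicClosure k))), (∃ m : ℕ, 2 ^ m • t = 0) ∧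
      ∀ σ, c n σ = gact f σ t - t

end Pool.Agent.Lib.MP_2f3286_ag.HYP
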