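import Mathlib

/-!
# Values at a place

`Hv A π z w`: the element `z` of the field is in the valuation ring `A` and has the value `w`.
-/

open Polynomial

namespace Pool.Agent.Lib.MP_2f3286_ag.HYP

variable {M F : Type*} [Field M] [Field F] {A : ValuationSubring M} {π : A →+* F}

/-- `z` is in `A` and has the value `w` -/
def Hv (A : ValuationSubring M) (π : A →+* F) (z : M) (w : F) : Prop := ∃ h : z ∈ A, π ⟨z, h⟩ = w

theorem Hv.unique {z : M} {w w' : F} (h : Hv A π z w) (h' : Hv A π z w') : w = w' := by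
  obtain ⟨_, rfl⟩ := h
  obtain ⟨_, rfl⟩ := h'
  rfl

theorem hv_zero : Hv A π 0 0 := ⟨zero_mem A, map_zero π⟩

theorem hv_one : Hv A π 1 1 := ⟨one_mem A, map_one π⟩

theorem hv_two : Hv A π 2 2 := by
  refine ⟨?_, ?_⟩
  · exact ofNat_mem A 2
  · exact map_ofNat π 2

theorem Hv.add {z z' : M} {w w' : F} (h : Hv A π z w) (h' : Hv A π z' w') :
    Hv A π (z + z') (w + w') := by
  obtain ⟨h, rfl⟩ := h
  obtain ⟨h', rfl⟩ := h'
  exact ⟨add_mem h h', map_add π ⟨z, h⟩ ⟨z', h'⟩⟩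

theorem Hv.mul {z z' : M} {w w' : F} (h : Hv A π z w) (h' : Hv A π z' w') :
    Hv A π (z * z') (w * w') := by
  obtain ⟨h, rfl⟩ := h
  obtain ⟨h', rfl⟩ := h'
  exact ⟨mul_mem h h', map_mul π ⟨z, h⟩ ⟨z', h'⟩⟩

theorem Hv.neg {z : M} {w : F} (h : Hv A π z w) : Hv A π (-z) (-w) := by
  obtain ⟨h, rfl⟩ := h
  exact ⟨neg_mem h, map_neg π ⟨z, h⟩⟩

theorem Hv.sub {z z' : M} {w w' : F} (h : Hv A π z w) (h' : Hv A π z' w') :
    Hv A π (z - z') (w - w') := by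
  rw [sub_eq_add_neg, sub_eq_add_neg]
  exact h.add h'.neg

theorem Hv.pow {z : M} {w : F} (h : Hv A π z w) (n : ℕ) : Hv A π (z ^ n) (w ^ n) := by
  obtain ⟨h, rfl⟩ := h
  exact ⟨pow_mem h n, map_pow π ⟨z, h⟩ n⟩

theorem Hv.prod {ι : Type*} (s : Finset ι) {z : ι → M} {w : ι → F}
    (h : ∀ i ∈ s, Hv A π (z i) (w i)) : Hv A π (∏ i ∈ s, z i) (∏ i ∈ s, w i) := by
  classical
  induction s using Finset.induction_on with
  | empty => rw [Finset.prod_empty, Finset.prod_empty]; exact hv_one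
  | insert i s his ih =>
    rw [Finset.prod_insert his, Finset.prod_insert his]
    exact (h i (Finset.mem_insert_self _ _)).mul
      (ih fun j hj => h j (Finset.mem_insert_of_mem hj))

theorem Hv.inv (hloc : ∀ a : A, π a ≠ 0 → (a : M)⁻¹ ∈ A) {z : M} {w : F} (h : Hv A π z w)
    (hw : w ≠ 0) : Hv A π z⁻¹ w⁻¹ := by
  obtain ⟨h, rfl⟩ := h
  have h1 := hloc ⟨z, h⟩ hw
  have hz : z ≠ 0 := by
    rintro rfl
    exact hw (map_zero π)
  refine ⟨h1, ?_⟩
  apply eq_inv_of_mul_eq_one_left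
  rw [← map_mul, ← map_one π]
  apply congrArg π
  apply Subtype.ext
  exact inv_mul_cancel₀ hz

theorem Hv.div (hloc : ∀ a : A, π a ≠ 0 → (a : M)⁻¹ ∈ A) {z z' : M} {w w' : F} (h : Hv A π z w)
    (h' : Hv A π z' w') (hw' : w' ≠ 0) : Hv A π (z / z') (w / w') := by
  rw [div_eq_mul_inv, div_eq_mul_inv]
  exact h.mul (h'.inv hloc hw')

theorem Hv.ne_zero {z : M} {w : F} (h : Hv A π z w) (hw : w ≠ 0) : z ≠ 0 := by
  rintro rfl
  exact hw (h.unique hv_zero)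

/-- an element outside `A` has an inverse with the value zero -/
theorem hv_inv_of_notMem (hloc : ∀ a : A, π a ≠ 0 → (a : M)⁻¹ ∈ A) {z : M} (h : z ∉ A) :
    Hv A π z⁻¹ 0 := by
  have h1 : z⁻¹ ∈ A := (A.mem_or_inv_mem z).resolve_left h
  refine ⟨h1, ?_⟩
  by_contra h2
  have h3 := hloc ⟨_, h1⟩ h2
  rw [inv_inv] at h3
  exact h h3

theorem notMem_of_hv_inv {z : M} (hz : z ≠ 0) (h : Hv A π z⁻¹ 0) : z ∉ A := by
  intro h'
  have h1 := h.mul ⟨h', rfl⟩
  rw [inv_mul_cancel₀ hz, zero_mul] at h1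
  exact one_ne_zero (hv_one.unique h1)

/-- an element whose square has a value has a value -/
theorem Hv.of_sq (hloc : ∀ a : A, π a ≠ 0 → (a : M)⁻¹ ∈ A) {z : M} {w : F}
    (h : Hv A π (z ^ 2) w) : ∃ v, Hv A π z v ∧ v ^ 2 = w := by
  by_cases hz : z ∈ A
  · exact ⟨π ⟨z, hz⟩, ⟨hz, rfl⟩, (Hv.pow ⟨hz, rfl⟩ 2).unique h⟩
  · exfalso
    have h1 := (hv_inv_of_notMem hloc hz).pow 2
    rw [zero_pow two_ne_zero, inv_pow] at h1
    have hz0 : z ≠ 0 := by
      rintro rfl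
      exact hz (zero_mem A)
    exact notMem_of_hv_inv (pow_ne_zero 2 hz0) h1 h.1

/-- values of a polynomial with coefficients in `A` -/
theorem hv_eval {p : A[X]} {z : M} {w : F} (h : Hv A π z w) :
    Hv A π ((p.map A.subtype).eval z) ((p.map π).eval w) := by
  obtain ⟨hz, rfl⟩ := h
  have h1 : (p.map A.subtype).eval z = ((p.eval ⟨z, hz⟩ : A) : M) := by
    rw [eval_map]
    exact eval₂_at_apply (f := A.subtype) (p := p) (⟨z, hz⟩ : A)
  rw [h1]
  refine ⟨(p.eval ⟨z, hz⟩).2, ?_⟩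
  rw [eval_map_apply]

end Pool.Agent.Lib.MP_2f3286_ag.HYP
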