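import Pool.Agent.Lib.MP_2f3286_ag.HYP.UAlg
import Pool.Agent.Lib.MP_2f3286_ag.HYP.UHas
import Pool.Agent.Lib.MP_2f3286_ag.HYP.Plc

/-!
# The unit at a place where `x` is finite
-/

open Polynomial

namespace Pool.Agent.Lib.MP_2f3286_ag.HYP

variable {M F : Type*} [Field M] [Field F] {A : ValuationSubring M} {π : A →+* F}
  {φ : M[X]} {ψ : F[X]} {ι : Type*} [Fintype ι] {α : ι → M} {a : ι → F}

/-- the reductions of the roots are the roots of the reduction -/
theorem Plc.red_prod (h : Plc A π φ ψ) (hα : φ = ∏ i, (X - C (α i))) :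
    ∃ a : ι → F, (∀ i, Hv A π (α i) (a i)) ∧ ψ = ∏ i, (X - C (a i)) := by
  have h0 : ∀ i, φ.eval (α i) = 0 := by
    intro i
    rw [hα, eval_prod]
    apply Finset.prod_eq_zero (Finset.mem_univ i)
    rw [eval_sub, eval_X, eval_C, sub_self]
  obtain ⟨p, hp, h1, h2⟩ := h.lift
  have hmem : ∀ i, α i ∈ A := fun i => h.root_mem (h0 i)
  refine ⟨fun i => π ⟨α i, hmem i⟩, fun i => ⟨hmem i, rfl⟩, ?_⟩
  have h3 : p = ∏ i, (X - C (⟨α i, hmem i⟩ : A)) := by
    apply Polynomial.map_injective A.subtype Subtype.val_injective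
    rw [Polynomial.map_prod]
    refine (h1.trans hα).trans ?_
    apply Finset.prod_congr rfl
    intro i _
    rw [Polynomial.map_sub, map_X, map_C]
    rfl
  refine h2.symm.trans ?_
  rw [h3, Polynomial.map_prod]
  apply Finset.prod_congr rfl
  intro i _
  rw [Polynomial.map_sub, map_X, map_C]

variable [DecidableEq ι]

/-- **the value of the unit at a place where `x` is finite and not a root** -/
theorem unit_near (hloc : ∀ a : A, π a ≠ 0 → (a : M)⁻¹ ∈ A) (hα : ∀ i, Hv A π (α i) (a i))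
    (ha : Function.Injective a) {x : M} {ξ : F} (hx : Hv A π x ξ) (hξ : ∀ i, ξ ≠ a i) {r : ι → M}
    (hr : ∀ i, r i ^ 2 = x - α i) :
    ∃ w, w ≠ 0 ∧ Hv A π (∏ i, ∏ j ∈ Finset.univ.erase i, r i / (r i + r j)) w := by
  have h1 : ∀ i, ∃ v, Hv A π (r i) v ∧ v ^ 2 = ξ - a i := by
    intro i
    apply Hv.of_sq hloc
    rw [hr]
    exact hx.sub (hα i)
  choose v hv hv2 using h1
  have hv0 : ∀ i, v i ≠ 0 := by
    intro i h
    have h2 := hv2 i
    rw [h, zero_pow two_ne_zero] at h2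
    exact hξ i (sub_eq_zero.mp h2.symm)
  have hadd : ∀ i j, i ≠ j → v i + v j ≠ 0 := by
    intro i j hij h
    have h2 : a j - a i = 0 := by linear_combination (v i - v j) * h - hv2 i + hv2 j
    exact hij (ha (sub_eq_zero.mp h2)).symm
  refine ⟨∏ i, ∏ j ∈ Finset.univ.erase i, v i / (v i + v j), ?_, ?_⟩
  · rw [Finset.prod_ne_zero_iff]
    intro i _
    rw [Finset.prod_ne_zero_iff]
    intro j hj
    exact div_ne_zero (hv0 i) (hadd i j (Finset.ne_of_mem_erase hj).symm)
  · apply Hv.prod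
    intro i _
    apply Hv.prod
    intro j hj
    exact (hv i).div hloc ((hv i).add (hv j)) (hadd i j (Finset.ne_of_mem_erase hj).symm)

end Pool.Agent.Lib.MP_2f3286_ag.HYP
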