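import Pool.Agent.Lib.MP_2f3286_ag.HYP.Main
import Pool.Agent.Lib.MP_2f3286_ag.HYP.HT2
import Pool.Agent.Lib.MP_2f3286_ag.HYP.UNear

/-!
# Sections whose point is infinitely divisible by two up to a torsion class which is not a ramification point

Then `y` itself is a unit.
-/

open Polynomial IsDedekindDomain NumberField
open Pool.Agent.Lib.MP_2f3286_bir (IsPlaceOf)

noncomputable section

namespace Pool.Agent.Lib.MP_2f3286_ag.HYP

/-- ramification points lift to ramification points -/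
theorem Plc.exists_lift {M F : Type*} [Field M] [Field F] [IsAlgClosed M] {A : ValuationSubring M}
    {π : A →+* F} {φ : M[X]} {ψ : F[X]} (h : Plc A π φ ψ) {W : Pt ψ} (hW : W.y = 0) :
    ∃ (W' : Pt φ) (_ : W'.y = 0) (hx : W'.x ∈ A), h.redPt W' hx = W := by
  classical
  have hφ : φ.Monic := h.monic.1
  have h1 : φ = ∏ i : Fin φ.roots.toList.length, (X - C (φ.roots.toList.get i)) := by
    have h2 := (IsAlgClosed.splits φ).eq_prod_roots
    rw [hφ.leadingCoeff, C_1, one_mul] at h2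
    conv_lhs => rw [h2]
    rw [← Multiset.coe_toList φ.roots, Multiset.map_coe, Multiset.prod_coe, Multiset.coe_toList,
      ← List.prod_ofFn]
    congr 1
    rw [List.ofFn_comp' (fun i => φ.roots.toList.get i) (fun a => X - C a), List.ofFn_get]
  obtain ⟨a, ha, hψ⟩ := h.red_prod h1
  have h3 : ψ.eval W.x = 0 := by rw [← W.eqn, hW]; ring
  have h5 : ∀ u : F, ψ.eval u = 0 → ∃ i, u = a i := by
    intro u hu
    rw [hψ, eval_prod, Finset.prod_eq_zero_iff] at hu
    obtain ⟨i, -, hi⟩ := hu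
    rw [eval_sub, eval_X, eval_C, sub_eq_zero] at hi
    exact ⟨i, hi⟩
  obtain ⟨i, hi⟩ := h5 _ h3
  have h4 : φ.eval (φ.roots.toList.get i) = 0 := by
    have : φ.roots.toList.get i ∈ φ.roots := Multiset.mem_toList.mp (List.get_mem _ _)
    exact (mem_roots'.mp this).2
  obtain ⟨hA, hAi⟩ := ha i
  refine ⟨⟨φ.roots.toList.get i, 0, by rw [h4]; ring⟩, rfl, hA, ?_⟩
  ext
  · change π ⟨φ.roots.toList.get i, hA⟩ = W.x
    rw [hAi, hi]
  · change π ⟨0, _⟩ = W.y
    rw [hW]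
    exact map_zero π

/-- the extended chain -/
def ext {G : Type*} [AddCommGroup G] (z : ℕ → G) (N : ℕ) : ℕ → G :=
  fun n => if n < N then 2 ^ (N - n) • z 0 else z (n - N)

theorem ext_step {G : Type*} [AddCommGroup G] {z : ℕ → G} (hz : ∀ n, (2 : ℕ) • z (n + 1) = z n)
    (N n : ℕ) : (2 : ℕ) • ext z N (n + 1) = ext z N n := by
  rw [ext, ext]
  rcases lt_trichotomy (n + 1) N with h | h | h
  · rw [if_pos h, if_pos (by omega), ← mul_smul, ← pow_succ',
      show N - (n + 1) + 1 = N - n by omega]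
  · rw [if_neg (by omega), if_pos (by omega), h, Nat.sub_self, ← h,
      show n + 1 - n = 1 by omega, pow_one]
  · rw [if_neg (by omega), if_neg (by omega), show n + 1 - N = n - N + 1 by omega, hz]

theorem ext_zero {G : Type*} [AddCommGroup G] (z : ℕ → G) (N : ℕ) :
    ext z N 0 = 2 ^ N • z 0 := by
  rw [ext]
  by_cases h : 0 < N
  · rw [if_pos h, Nat.sub_zero]
  · rw [if_neg h, Nat.sub_eq_zero_of_le (by omega)]
    have : N = 0 := by omega
    rw [this, pow_zero, one_smul]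

/-- the value at a place -/
theorem y_unit {M κ : Type*} [Field M] [Field κ] [IsAlgClosed M] [IsAlgClosed κ] {g : ℕ}
    {A : ValuationSubring M} {π : A →+* κ} {φ : M[X]} {ψ : κ[X]} (h : Plc A π φ ψ)
    (hφ : Good g φ) (hψ : Good g ψ) {P : Pt φ} {t : J φ} {m : ℕ} (htm : 2 ^ m • t = 0)
    (ht0 : t ≠ 0) (htW : ∀ W : Pt φ, W.y = 0 → t ≠ cl W)
    (hch : ∀ j : ℕ, 2 ^ j • h.sp hφ hψ (cl P - t) = 0 → h.sp hφ hψ (cl P - t) = 0) :
    ∃ hA : P.y ∈ A, π ⟨P.y, hA⟩ ≠ 0 := by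
  have hst : 2 ^ m • h.sp hφ hψ t = 0 := by rw [← map_nsmul, htm, map_zero]
  have hx : P.x ∈ A := by
    by_contra hx
    have h1 := hch m (by
      rw [map_sub, h.sp_cl' hφ hψ P hx, zero_sub, neg_nsmul, hst, neg_zero])
    rw [map_sub, h.sp_cl' hφ hψ P hx, zero_sub, neg_eq_zero] at h1
    exact ht0 (h.sp_torsion_inj hφ hψ m htm h1)
  refine ⟨h.y_mem hx, fun h0 => ?_⟩
  have hW : (h.redPt P hx).y = 0 := h0
  obtain ⟨W', hW', hx', hWW⟩ := h.exists_lift hW
  have h2 : (2 : ℕ) • h.sp hφ hψ (cl P) = 0 := by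
    rw [h.sp_cl hφ hψ P hx]
    exact two_cl hψ hW
  have h1 := hch (m + 1) (by
    rw [map_sub, nsmul_sub, pow_succ, mul_smul, h2, nsmul_zero, mul_comm, mul_smul, hst, nsmul_zero,
      sub_zero])
  rw [map_sub, sub_eq_zero, h.sp_cl hφ hψ P hx, ← hWW, ← h.sp_cl hφ hψ W' hx'] at h1
  apply htW W' hW'
  rw [eq_comm, ← sub_eq_zero]
  refine h.sp_torsion_inj hφ hψ (m + 1) ?_ (by rw [map_sub, h1, sub_self])
  rw [nsmul_sub, pow_succ, mul_smul, two_cl hφ hW', nsmul_zero, mul_comm, mul_smul, htm, nsmul_zero,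
    sub_zero]

/-- in a chain no element is of 2-power order at a place, unless it is zero -/
theorem chain_pow_zero {M κ : Type*} [Field M] [Field κ] [IsAlgClosed M] [IsAlgClosed κ] {g : ℕ}
    {A : ValuationSubring M} {π : A →+* κ} {φ : M[X]} {ψ : κ[X]} (h : Plc A π φ ψ)
    (hφ : Good g φ) (hψ : Good g ψ) {G : Set (M →+* M)} (hG : ∀ σ ∈ G, φ.map σ = φ)
    {z : ℕ → J φ} (hz : ∀ n, (2 : ℕ) • z (n + 1) = z n)
    (hfix : ∀ (σ : M →+* M) (hσ : σ ∈ G) (n : ℕ), J.map σ (hG σ hσ) (z n) = z n)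
    (hch : ∀ T : ℕ → J φ, (∀ n, (2 : ℕ) • T (n + 1) = T n) →
      (∀ (σ : M →+* M) (hσ : σ ∈ G) (n : ℕ), J.map σ (hG σ hσ) (T n) = T n) →
      ∀ n, (2 : ℕ) • h.sp hφ hψ (T n) = 0 → h.sp hφ hψ (T n) = 0) (j : ℕ)
    (hj : 2 ^ j • h.sp hφ hψ (z 0) = 0) : h.sp hφ hψ (z 0) = 0 := by
  induction j with
  | zero => rwa [pow_zero, one_smul] at hj
  | succ j ih =>
    apply ih
    have h1 := hch (ext z j) (ext_step hz j) (fun σ hσ n => by
      rw [ext]
      split_ifs
      · rw [map_nsmul, hfix σ hσ]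
      · exact hfix σ hσ _) 0
    rw [ext_zero, map_nsmul, ← mul_smul, ← pow_succ'] at h1
    exact h1 hj

section

universe u

variable {k : Type u} [Field k] [NumberField k] {K : Type*} [Field K] [Algebra k K]
  {Ω : Type*} [Field Ω] [Algebra K Ω] [IsAlgClosure K Ω]
  [Algebra (AlgebraicClosure k) Ω] [Algebra k Ω]
  [IsScalarTower k K Ω] [IsScalarTower k (AlgebraicClosure k) Ω]

/-- the automorphisms of the section -/
abbrev autos (s : Gal(AlgebraicClosure k/k) →* Gal(Ω/K)) : Set (Ω →+* Ω) :=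
  Set.range fun σ : Gal(AlgebraicClosure k/k) => ((s σ : Ω ≃ₐ[K] Ω) : Ω →+* Ω)

/-- **A section with a point which is infinitely divisible by two, up to a torsion class which is not `0`
and not the class of a ramification point.** -/
theorem of_chain_tor (h1 : Fintype.card (InfinitePlace k) = 1) (htr : Algebra.trdeg k K = 1)
    (s : Gal(AlgebraicClosure k/k) →* Gal(Ω/K)) (hs : Continuous s)
    (hsec : ∀ σ a, s σ (algebraMap (AlgebraicClosure k) Ω a) =
      algebraMap (AlgebraicClosure k) Ω (σ a))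
    {f : k[X]} (hf : f.Monic) (hfs : f.Separable) {g : ℕ}
    (hfd : f.natDegree = 2 * g + 1)
    {P : Pt (f.map (algebraMap k Ω))} (hy : ∀ σ, s σ P.y = P.y)
    (hxc : ∀ c : AlgebraicClosure k, P.x ≠ algebraMap _ Ω c)
    {t : J (f.map (algebraMap k Ω))} {m : ℕ} (htm : 2 ^ m • t = 0) (ht0 : t ≠ 0)
    (htW : ∀ W : Pt (f.map (algebraMap k Ω)), W.y = 0 → t ≠ cl W)
    {z : ℕ → J (f.map (algebraMap k Ω))} (z0 : z 0 = cl P - t)
    (zs : ∀ n σ, sact f (s σ) (z n) = z n) (z2 : ∀ n, 2 • z (n + 1) = z n) :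
    ∃ (A₀ : ValuationSubring Ω) (ψ₀ : A₀ →+* AlgebraicClosure k),
      IsPlaceOf s k (RingHom.id _) A₀ ψ₀ ∧
      (∀ (f : K) (h : algebraMap K Ω f ∈ A₀),
        ∃ a : k, ψ₀ ⟨algebraMap K Ω f, h⟩ = algebraMap k (AlgebraicClosure k) a) ∧
      ∀ (A₁ : ValuationSubring Ω) (ψ₁ : A₁ →+* AlgebraicClosure k),
        IsPlaceOf s k (RingHom.id _) A₁ ψ₁ →
        A₁ = A₀ ∧ ∀ (a : A₁) (b : A₀), (a : Ω) = b → ψ₁ a = ψ₀ b := by
  classical
  have hcl : IsAlgClosed Ω := IsAlgClosure.isAlgClosed K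
  have halg : Algebra.IsAlgebraic K Ω := IsAlgClosure.isAlgebraic
  have hφ : Good g (f.map (algebraMap k Ω)) := good_of hfs hfd _
  have hyc : ∀ c : AlgebraicClosure k, P.y ≠ algebraMap _ Ω c := by
    intro c hc
    -- `x` is a root of `f - c ^ 2`
    have hne : (f.map (algebraMap k (AlgebraicClosure k)) - C (c ^ 2)) ≠ 0 := by
      intro h
      have h2 := congrArg Polynomial.natDegree (sub_eq_zero.mp h)
      rw [natDegree_map, natDegree_C, hfd] at h2
      omega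
    have h3 : P.x ∈ ((f.map (algebraMap k (AlgebraicClosure k)) - C (c ^ 2)).map
        (algebraMap (AlgebraicClosure k) Ω)).roots := by
      rw [mem_roots (Polynomial.map_ne_zero hne), IsRoot, Polynomial.map_sub, Polynomial.map_map,
        ← IsScalarTower.algebraMap_eq, eval_sub, ← P.eqn, map_C, eval_C, hc, map_pow, sub_self]
    rw [(IsAlgClosed.splits _).roots_map, Multiset.mem_map] at h3
    obtain ⟨d, -, hd⟩ := h3
    exact hxc d hd.symm
  -- the automorphisms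
  have hGs : ∀ σ ∈ autos s, (f.map (algebraMap k Ω)).map σ = f.map (algebraMap k Ω) := by
    rintro _ ⟨σ, rfl⟩
    exact map_fixΩ f (s σ)
  have zfix : ∀ (σ : Ω →+* Ω) (hσ : σ ∈ autos s) (n : ℕ),
      J.map σ (hGs σ hσ) (z n) = z n := by
    rintro _ ⟨σ, rfl⟩ n
    exact zs n σ
  obtain ⟨S, hS⟩ := good_place s hf hfs hfd
  refine finish h1 htr s hs hsec P.y hy hyc S ?_
  intro v ι A φ hpl
  have hC : CharZero (v.adicCompletion k) :=
    charZero_of_injective_algebraMap (algebraMap k (v.adicCompletion k)).injective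
  have hGal : IsGalois (v.adicCompletion k) (AlgebraicClosure (v.adicCompletion k)) :=
    IsAlgClosure.isGalois _ _
  have hψ : Good g (f.map ((ι : AlgebraicClosure k →+*
      AlgebraicClosure (v.adicCompletion k)).comp (algebraMap k (AlgebraicClosure k)))) :=
    good_of hfs hfd _
  obtain ⟨hA, hA0⟩ := y_unit (plc_of hf hpl) hφ hψ htm ht0 htW (P := P) (fun j hj => by
    rw [← z0] at hj ⊢
    exact chain_pow_zero (plc_of hf hpl) hφ hψ hGs z2 zfix (fun T hT hTfix n =>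
      chain_local v (plc_of hf hpl) hφ hψ hGs (fun a ha => by
        obtain ⟨c, hc⟩ := value_mem hpl (hres_fin v ι) a.2 (fun σ => ha _ ⟨σ, rfl⟩)
        exact ⟨c, hc.symm⟩) hT hTfix n) j hj)
  refine ⟨hA, hA0, fun hv x hxv => ?_⟩
  obtain ⟨κ, _, _, A', π', ψ, Sf, hP', hψ', hSf, hSv, hval⟩ := hS v hv ι A φ hpl
  obtain ⟨hA', hA0'⟩ := y_unit hP' hφ hψ' htm ht0 htW (P := P) (fun j hj => by
    rw [← z0] at hj ⊢
    exact chain_pow_zero hP' hφ hψ' hGs z2 zfix (fun T hT hTfix n =>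
      chain_good hP' hφ hψ' hGs hSf (fun a ha => hSv a fun σ => ha _ ⟨σ, rfl⟩) hT hTfix n) j hj)
  obtain ⟨h3, x', h4, h5⟩ := hval ⟨P.y, hA'⟩ hA0' hy
  have h6 : algebraMap (v.adicCompletion k) (AlgebraicClosure (v.adicCompletion k)) x' =
      algebraMap _ _ x := by
    rw [← h4, ← hxv]
  rw [← (algebraMap (v.adicCompletion k) (AlgebraicClosure (v.adicCompletion k))).injective h6]
  exact h5

end

end Pool.Agent.Lib.MP_2f3286_ag.HYP
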