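import Pool.Agent.Lib.MP_2f3286_ag.HYP.PComp
import Pool.Agent.Lib.MP_2f3286_ag.Local

/-!
# No chains of halves over a local field   (module PLoc, 75 minutes)

PROOF. `C = v.adicCompletion k`, `C₀` = its ring of integers (`v.adicCompletionIntegers k` is a `ValuationSubring` of `C`), `E = AlgebraicClosure C`.
(1) `C₀` is compact: Mathlib `Valued.integer.compactSpace_iff_completeSpace_and_isDiscreteValuationRing_and_finite_residueField` (instances: `CompleteSpace`,
`IsDiscreteValuationRing (v.adicCompletionIntegers k)` in Mathlib.NumberTheory.NumberField.Completion.FinitePlace; the residue field is finite: `Lib/MP_2f3286_ag/Fer/CPl.lean`, line 114; if a rank one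
structure is asked for see how `Fer/CPl.lean` or Mathlib do it). T2 is an instance.
(2) A valuation ring `O` of `E` which dominates `C₀`: `LocalSubring.exists_le_valuationSubring`/ `exists_factor_valuationRing` or Zorn (search `LocalSubring`, `ValuationSubring`), applied to the image of
`C₀` in `E` (a local ring): `algebraMap C E x ∈ O` for `x ∈ C₀`, and `O.valuation (algebraMap C E x) < 1` if `Valued.v x < 1`. (Or: `O` = the integral closure of `C₀` in `E`, with the spectral norm.)
(3) `bound`: for every `y` in `E` there is `c ∈ C`, `c ≠ 0`, with `O.valuation (algebraMap C E c * y) < 1`: `y` is a root of a monic polynomial over `C`, `y ^ n = ∑_{i < n} a_i y ^ i`; if `Valued.v c < 1`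
and `Valued.v (c ^ (n - i) * a_i) ≤ 1` for all `i` then `c y` is integral over `C₀`, so in `O` (valuation rings are integrally closed); multiply by one more uniformizer to have `< 1`.
(4) `hO`: a uniformizer. `hnhd`: for `ε ≠ 0` take `c` of (3) for `y = ε⁻¹`: `|c| ≤ |ε|`; the set contains `c * C₀`, a neighbourhood of `0` (`Valued.mem_nhds`/`C₀` is open, multiplication by `c ≠ 0` is a homeomorphism).
(5) `r`: the product of elements as in (3) for the finitely many roots `e` of `φ`, all with value `≤ 1` (replace `c` by a product with small value): one `c` with `|c e| < 1` for all roots: take the one of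
smallest value. (6) `H = HR φ O r`: `HR_two`, `rat_finite_mod`.
-/

open Polynomial IsDedekindDomain NumberField
open scoped WithZero

noncomputable section

namespace Pool.Agent.Lib.MP_2f3286_ag.HYP

private theorem ploc_zero {F : Type*} [Field F] [NumberField F] (w : HeightOneSpectrum (𝓞 F))
    (x : w.adicCompletionIntegers F) :
    IsLocalRing.residue (w.adicCompletionIntegers F) x = 0 ↔
      Valued.v (x : w.adicCompletion F) < (1 : ℤᵐ⁰) := by
  rw [IsLocalRing.residue_eq_zero_iff, IsLocalRing.mem_maximalIdeal, mem_nonunits_iff,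
    HeightOneSpectrum.adicCompletionIntegers.isUnit_iff_valued_eq_one]
  have h : Valued.v (x : w.adicCompletion F) ≤ (1 : ℤᵐ⁰) :=
    (HeightOneSpectrum.mem_adicCompletionIntegers (𝓞 F) F w).1 x.2
  exact ⟨fun h' => lt_of_le_of_ne h h', fun h' => h'.ne⟩

private theorem ploc_fin {F : Type*} [Field F] [NumberField F] (w : HeightOneSpectrum (𝓞 F)) :
    Finite (IsLocalRing.ResidueField (w.adicCompletionIntegers F)) := by
  have hfin : Finite (𝓞 F ⧸ w.asIdeal) := w.asIdeal.finiteQuotientOfFreeOfNeBot w.ne_bot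
  have hval : ∀ a : 𝓞 F, (((algebraMap (𝓞 F) (w.adicCompletionIntegers F) a :
      w.adicCompletionIntegers F)) : w.adicCompletion F) =
      algebraMap F (w.adicCompletion F) (algebraMap (𝓞 F) F a) := fun a => rfl
  have h0 : ∀ a ∈ w.asIdeal, ((IsLocalRing.residue (w.adicCompletionIntegers F)).comp
      (algebraMap (𝓞 F) (w.adicCompletionIntegers F))) a = 0 := by
    intro a ha
    rw [RingHom.comp_apply, ploc_zero, hval, val_alg]
    exact (HeightOneSpectrum.valuation_lt_one_iff_mem w a).2 ha
  refine Finite.of_surjective (Ideal.Quotient.lift w.asIdeal _ h0) ?_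
  intro e
  obtain ⟨x, rfl⟩ := IsLocalRing.residue_surjective e
  have hx : Valued.v (x : w.adicCompletion F) ≤ (1 : ℤᵐ⁰) :=
    (HeightOneSpectrum.mem_adicCompletionIntegers (𝓞 F) F w).1 x.2
  obtain ⟨y, hy⟩ := exists_approx w (x : w.adicCompletion F) 1
  have hlt : WithZero.exp (-((1 : ℕ) : ℤ)) < (1 : ℤᵐ⁰) := by
    rw [← WithZero.exp_zero]
    exact WithZero.exp_lt_exp.mpr (by norm_num)
  have hy1 : w.valuation F y ≤ 1 := by
    rw [← val_alg]
    have e : algebraMap F (w.adicCompletion F) y =
        (x : w.adicCompletion F) - ((x : w.adicCompletion F) - algebraMap F (w.adicCompletion F) y) := by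
      ring
    rw [e]
    exact (Valued.v.map_sub _ _).trans (max_le hx (hy.trans hlt.le))
  obtain ⟨a, ha⟩ := HeightOneSpectrum.exists_valuation_sub_lt_of_integer w hy1 1
  simp only [Units.val_one] at ha
  refine ⟨Ideal.Quotient.mk _ a, ?_⟩
  rw [Ideal.Quotient.lift_mk, RingHom.comp_apply, ← sub_eq_zero, ← map_sub, ploc_zero]
  have e : ((algebraMap (𝓞 F) (w.adicCompletionIntegers F) a - x :
      w.adicCompletionIntegers F) : w.adicCompletion F) =
      algebraMap F (w.adicCompletion F) (algebraMap (𝓞 F) F a - y) -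
      ((x : w.adicCompletion F) - algebraMap F (w.adicCompletion F) y) := by
    rw [map_sub, AddSubgroupClass.coe_sub, hval]
    ring
  rw [e]
  refine lt_of_le_of_lt (Valued.v.map_sub _ _) (max_lt ?_ (lt_of_le_of_lt hy hlt))
  rw [val_alg]
  exact ha

section comp
open scoped Valued

private theorem ploc_compact {k : Type*} [Field k] [NumberField k] (v : HeightOneSpectrum (𝓞 k)) :
    IsCompact ((v.adicCompletionIntegers k : ValuationSubring (v.adicCompletion k)) :
      Set (v.adicCompletion k)) := by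
  have h1 : IsDiscreteValuationRing 𝒪[v.adicCompletion k] :=
    inferInstanceAs (IsDiscreteValuationRing (v.adicCompletionIntegers k))
  have h2 : Finite 𝓀[v.adicCompletion k] := ploc_fin v
  have h3 : CompleteSpace 𝒪[v.adicCompletion k] :=
    (Valued.isClosed_integer (v.adicCompletion k)).completeSpace_coe
  have h : CompactSpace 𝒪[v.adicCompletion k] :=
    Valued.integer.compactSpace_iff_completeSpace_and_isDiscreteValuationRing_and_finite_residueField.mpr
      ⟨h3, h1, h2⟩
  exact isCompact_iff_compactSpace.mpr h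

end comp

/-- a valuation ring of the algebraic closure which dominates the integers -/
private theorem ploc_dom {k : Type*} [Field k] [NumberField k] (v : HeightOneSpectrum (𝓞 k)) :
    ∃ O : ValuationSubring (AlgebraicClosure (v.adicCompletion k)),
      (∀ x : v.adicCompletion k, Valued.v x ≤ (1 : ℤᵐ⁰) →
        O.valuation (algebraMap _ (AlgebraicClosure (v.adicCompletion k)) x) ≤ 1) ∧
      ∀ x : v.adicCompletion k, Valued.v x < (1 : ℤᵐ⁰) →
        O.valuation (algebraMap _ (AlgebraicClosure (v.adicCompletion k)) x) < 1 := by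
  obtain ⟨O, h, hloc⟩ := IsLocalRing.exists_factor_valuationRing
    ((algebraMap (v.adicCompletion k) (AlgebraicClosure (v.adicCompletion k))).comp
      (v.adicCompletionIntegers k).subtype)
  have h1 : ∀ x : v.adicCompletion k, Valued.v x ≤ (1 : ℤᵐ⁰) →
      O.valuation (algebraMap _ (AlgebraicClosure (v.adicCompletion k)) x) ≤ 1 := by
    intro x hx
    rw [O.valuation_le_one_iff]
    exact h ⟨x, (HeightOneSpectrum.mem_adicCompletionIntegers (𝓞 k) k v).2 hx⟩
  refine ⟨O, h1, fun x hx => ?_⟩
  refine lt_of_le_of_ne (h1 x hx.le) fun hne => ?_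
  have hx1 : x ∈ v.adicCompletionIntegers k :=
    (HeightOneSpectrum.mem_adicCompletionIntegers (𝓞 k) k v).2 hx.le
  have hu : IsUnit ((((algebraMap (v.adicCompletion k)
      (AlgebraicClosure (v.adicCompletion k))).comp
      (v.adicCompletionIntegers k).subtype).codRestrict O.toSubring h) ⟨x, hx1⟩) := by
    have := (ValuationSubring.valuation_eq_one_iff O
      (⟨algebraMap _ (AlgebraicClosure (v.adicCompletion k)) x, h ⟨x, hx1⟩⟩ : O)).2 hne
    exact this
  have hu2 := hloc.map_nonunit _ hu
  rw [HeightOneSpectrum.adicCompletionIntegers.isUnit_iff_valued_eq_one] at hu2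
  exact hx.ne hu2

private theorem ploc_arch {γ a : ℤᵐ⁰} (hγ : γ < 1) : ∃ M : ℕ, ∀ m ≥ M, γ ^ m * a ≤ 1 := by
  by_cases hγ0 : γ = 0
  · refine ⟨1, fun m hm => ?_⟩
    rw [hγ0, zero_pow (by omega), zero_mul]
    exact zero_le'
  · obtain ⟨M, hM⟩ := MulArchimedean.arch a ((one_lt_inv₀ (zero_lt_iff.2 hγ0)).2 hγ)
    refine ⟨M, fun m hm => ?_⟩
    have h1 : γ ^ M * a ≤ 1 := by
      calc γ ^ M * a ≤ γ ^ M * (γ⁻¹) ^ M := mul_le_mul' le_rfl hM
        _ = 1 := by rw [← mul_pow, mul_inv_cancel₀ hγ0, one_pow]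
    refine le_trans (mul_le_mul' ?_ le_rfl) h1
    exact pow_le_pow_right_of_le_one' hγ.le hm

/-- elements of the algebraic closure are bounded by elements of the field -/
private theorem ploc_bound {k : Type*} [Field k] [NumberField k] (v : HeightOneSpectrum (𝓞 k))
    {O : ValuationSubring (AlgebraicClosure (v.adicCompletion k))}
    (h1 : ∀ x : v.adicCompletion k, Valued.v x ≤ (1 : ℤᵐ⁰) →
        O.valuation (algebraMap _ (AlgebraicClosure (v.adicCompletion k)) x) ≤ 1)
    (h2 : ∀ x : v.adicCompletion k, Valued.v x < (1 : ℤᵐ⁰) →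
        O.valuation (algebraMap _ (AlgebraicClosure (v.adicCompletion k)) x) < 1)
    {ϖ : v.adicCompletion k} (hϖ0 : ϖ ≠ 0) (hϖ : Valued.v ϖ < (1 : ℤᵐ⁰))
    (y : AlgebraicClosure (v.adicCompletion k)) :
    ∃ c : v.adicCompletion k, c ≠ 0 ∧
      O.valuation (algebraMap _ (AlgebraicClosure (v.adicCompletion k)) c * y) < 1 := by
  set p := minpoly (v.adicCompletion k) y with hp
  have hint : IsIntegral (v.adicCompletion k) y := Algebra.IsIntegral.isIntegral y
  have hmon : p.Monic := minpoly.monic hint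
  have hroot : aeval y p = 0 := minpoly.aeval _ _
  -- a power of the uniformizer which bounds all coefficients
  have hM : ∀ n : ℕ, ∃ M : ℕ, ∀ i < n, ∀ m ≥ M, Valued.v (ϖ ^ m * p.coeff i) ≤ (1 : ℤᵐ⁰) := by
    intro n
    induction n with
    | zero => exact ⟨0, fun i hi => absurd hi (Nat.not_lt_zero i)⟩
    | succ n ih =>
      obtain ⟨M, hM⟩ := ih
      obtain ⟨M', hM'⟩ := ploc_arch (a := Valued.v (p.coeff n)) hϖ
      refine ⟨max M M', fun i hi m hm => ?_⟩
      rcases Nat.lt_succ_iff_lt_or_eq.1 hi with h | h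
      · exact hM i h m ((le_max_left _ _).trans hm)
      · rw [h, map_mul, map_pow]
        exact hM' m ((le_max_right _ _).trans hm)
  obtain ⟨M, hM⟩ := hM p.natDegree
  obtain ⟨c, hc⟩ : ∃ c : v.adicCompletion k, c = ϖ ^ (M + 1) := ⟨_, rfl⟩
  have hc0 : c ≠ 0 := by rw [hc]; exact pow_ne_zero _ hϖ0
  have hcle : Valued.v c ≤ (1 : ℤᵐ⁰) := by
    rw [hc, map_pow]
    exact pow_le_one₀ zero_le' hϖ.le
  set f := algebraMap (v.adicCompletion k) (AlgebraicClosure (v.adicCompletion k)) with hf
  have hle : O.valuation (f c * y) ≤ 1 := by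
    by_contra hcon
    rw [not_le] at hcon
    have hsum : (f c * y) ^ p.natDegree =
        -∑ i ∈ Finset.range p.natDegree, f (c ^ (p.natDegree - i) * p.coeff i) * (f c * y) ^ i := by
      have e1 : aeval y p = y ^ p.natDegree + ∑ i ∈ Finset.range p.natDegree, f (p.coeff i) * y ^ i := by
        rw [aeval_eq_sum_range, Finset.sum_range_succ, hmon.coeff_natDegree, one_smul, add_comm]
        congr 1
        refine Finset.sum_congr rfl fun i _ => ?_
        rw [Algebra.smul_def]
      rw [hroot] at e1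
      have e2 : (f c * y) ^ p.natDegree = f c ^ p.natDegree * y ^ p.natDegree := mul_pow _ _ _
      have e3 : y ^ p.natDegree = -∑ i ∈ Finset.range p.natDegree, f (p.coeff i) * y ^ i :=
        eq_neg_of_add_eq_zero_left e1.symm
      rw [e2, e3, mul_neg, Finset.mul_sum]
      congr 1
      refine Finset.sum_congr rfl fun i hi => ?_
      rw [Finset.mem_range] at hi
      have e4 : f c ^ p.natDegree = f c ^ (p.natDegree - i) * f c ^ i := by
        rw [← pow_add, Nat.sub_add_cancel hi.le]
      have e5 : f (c ^ (p.natDegree - i) * p.coeff i) = f c ^ (p.natDegree - i) * f (p.coeff i) := by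
        rw [map_mul, map_pow]
      rw [e4, e5, mul_pow]
      ring
    have hdeg : 0 < p.natDegree := minpoly.natDegree_pos hint
    have hb : O.valuation ((f c * y) ^ p.natDegree) ≤ O.valuation (f c * y) ^ (p.natDegree - 1) := by
      rw [hsum, Valuation.map_neg]
      refine Valuation.map_sum_le _ fun i hi => ?_
      rw [Finset.mem_range] at hi
      rw [map_mul, map_pow]
      have e1 : O.valuation (f (c ^ (p.natDegree - i) * p.coeff i)) ≤ 1 := by
        apply h1
        rw [hc, ← pow_mul]
        apply hM i hi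
        have : 1 ≤ p.natDegree - i := by omega
        nlinarith
      calc O.valuation (f (c ^ (p.natDegree - i) * p.coeff i)) * O.valuation (f c * y) ^ i
          ≤ 1 * O.valuation (f c * y) ^ (p.natDegree - 1) :=
            mul_le_mul' e1 (pow_le_pow_right' hcon.le (by omega))
        _ = _ := one_mul _
    rw [map_pow] at hb
    have e5 : O.valuation (f c * y) ^ p.natDegree =
        O.valuation (f c * y) ^ (p.natDegree - 1) * O.valuation (f c * y) := by
      rw [← pow_succ, Nat.sub_add_cancel hdeg]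
    rw [e5] at hb
    have hpos : 0 < O.valuation (f c * y) ^ (p.natDegree - 1) :=
      pow_pos (lt_trans zero_lt_one hcon) _
    have e6 : O.valuation (f c * y) ^ (p.natDegree - 1) * 1 <
        O.valuation (f c * y) ^ (p.natDegree - 1) * O.valuation (f c * y) :=
      mul_lt_mul_of_pos_left hcon hpos
    rw [mul_one] at e6
    exact absurd hb (not_le.2 e6)
  refine ⟨ϖ * c, mul_ne_zero hϖ0 hc0, ?_⟩
  have e7 : f (ϖ * c) * y = f ϖ * (f c * y) := by rw [map_mul, mul_assoc]
  rw [e7, map_mul]
  calc O.valuation (f ϖ) * O.valuation (f c * y) ≤ O.valuation (f ϖ) * 1 := mul_le_mul' le_rfl hle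
    _ < 1 := by rw [mul_one]; exact h2 ϖ hϖ

theorem exists_HR {k : Type*} [Field k] [NumberField k] (v : HeightOneSpectrum (𝓞 k)) {g : ℕ}
    {φ : (AlgebraicClosure (v.adicCompletion k))[X]} (hφ : Good g φ) (hm : φ.Monic) :
    ∃ H : AddSubgroup (J φ), (∀ t ∈ H, (2 : ℕ) • t = 0 → t = 0) ∧
      ∃ R : Set (J φ), R.Finite ∧ ∀ z ∈ Rat φ g (Set.range
        (algebraMap (v.adicCompletion k) (AlgebraicClosure (v.adicCompletion k)))),
        ∃ t ∈ R, z - t ∈ H := by
  classical
  obtain ⟨O, h1, h2⟩ := ploc_dom v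
  obtain ⟨ϖ₀, hϖ₀⟩ := v.valuation_exists_uniformizer k
  have hv : Valued.v (algebraMap k (v.adicCompletion k) ϖ₀) < (1 : ℤᵐ⁰) := by
    rw [val_alg, hϖ₀, ← WithZero.exp_zero]
    exact WithZero.exp_lt_exp.mpr (by norm_num)
  have hϖ0 : algebraMap k (v.adicCompletion k) ϖ₀ ≠ 0 := by
    intro h
    have e1 : Valued.v (algebraMap k (v.adicCompletion k) ϖ₀) = (0 : ℤᵐ⁰) := by rw [h, map_zero]
    rw [val_alg, hϖ₀] at e1
    exact WithZero.exp_ne_zero e1
  set ϖ := algebraMap k (v.adicCompletion k) ϖ₀ with hϖ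
  set f := algebraMap (v.adicCompletion k) (AlgebraicClosure (v.adicCompletion k)) with hf
  have hbd := ploc_bound v h1 h2 hϖ0 hv
  have hO : ∃ ϖ : AlgebraicClosure (v.adicCompletion k), ϖ ≠ 0 ∧ O.valuation ϖ < 1 :=
    ⟨f ϖ, by rw [hf, ne_eq, map_eq_zero]; exact hϖ0, h2 ϖ hv⟩
  have hnhd : ∀ ε : AlgebraicClosure (v.adicCompletion k), ε ≠ 0 →
      {x : v.adicCompletion k | O.valuation (f x) ≤ O.valuation ε} ∈ nhds 0 := by
    intro ε hε
    obtain ⟨c, hc0, hc⟩ := hbd ε⁻¹
    have hεv : O.valuation ε ≠ 0 := (O.valuation.ne_zero_iff).2 hε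
    have hcε : O.valuation (f c) ≤ O.valuation ε := by
      have e1 : f c = f c * ε⁻¹ * ε := by field_simp
      rw [e1, map_mul]
      calc O.valuation (f c * ε⁻¹) * O.valuation ε ≤ 1 * O.valuation ε :=
            mul_le_mul' hc.le le_rfl
        _ = O.valuation ε := one_mul _
    have hcont : Filter.Tendsto (fun x : v.adicCompletion k => x * c⁻¹) (nhds 0) (nhds 0) := by
      have := (continuous_mul_const (c⁻¹ : v.adicCompletion k)).tendsto 0
      rwa [zero_mul] at this
    have hopen : (v.adicCompletionIntegers k : Set (v.adicCompletion k)) ∈ nhds 0 :=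
      (Valued.isOpen_valuationSubring (v.adicCompletion k)).mem_nhds
        (v.adicCompletionIntegers k).zero_mem
    refine Filter.mem_of_superset (hcont hopen) fun x hx => ?_
    have hx' : Valued.v (x * c⁻¹) ≤ (1 : ℤᵐ⁰) :=
      (HeightOneSpectrum.mem_adicCompletionIntegers (𝓞 k) k v).1 hx
    show O.valuation (f x) ≤ O.valuation ε
    have e1 : f x = f (x * c⁻¹) * f c := by
      rw [← map_mul]
      congr 1
      field_simp
    rw [e1, map_mul]
    calc O.valuation (f (x * c⁻¹)) * O.valuation (f c) ≤ 1 * O.valuation ε :=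
          mul_le_mul' (h1 _ hx') hcε
      _ = O.valuation ε := one_mul _
  -- the bound for the roots
  have hroots : ∀ S : Finset (AlgebraicClosure (v.adicCompletion k)),
      ∃ K : AlgebraicClosure (v.adicCompletion k), K ≠ 0 ∧ ∀ e ∈ S, O.valuation e ≤ O.valuation K := by
    intro S
    classical
    induction S using Finset.induction_on with
    | empty => exact ⟨1, one_ne_zero, fun e he => absurd he (Finset.notMem_empty e)⟩
    | insert a S _ ih =>
      obtain ⟨K, hK0, hK⟩ := ih
      obtain ⟨c, hc0, c1, c2⟩ := pc_max O K a hK0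
      refine ⟨c, hc0, fun e he => ?_⟩
      rcases Finset.mem_insert.1 he with h | h
      · rw [h]; exact c2
      · exact (hK e h).trans c1
  have hφ0 : φ ≠ 0 := hm.ne_zero
  obtain ⟨K, hK0, hK⟩ := hroots φ.roots.toFinset
  obtain ⟨r, hr0, _, hr2⟩ := pc_small O hO hK0
  have hroot : ∀ e, φ.eval e = 0 → O.valuation (r * e) < 1 := by
    intro e he
    have he' : e ∈ φ.roots.toFinset := by
      rw [Multiset.mem_toFinset, mem_roots hφ0]
      exact he
    rw [map_mul]
    exact (mul_le_mul' le_rfl (hK e he')).trans_lt hr2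
  refine ⟨HR φ O r, HR_two hφ hm O hr0 hroot, ?_⟩
  exact rat_finite_mod (v.adicCompletionIntegers k) (ploc_compact v) hφ O hO hnhd hr0

/-- **all finite places** -/
theorem chain_local {k : Type*} [Field k] [NumberField k] (v : HeightOneSpectrum (𝓞 k))
    {M : Type*} [Field M] [IsAlgClosed M] {g : ℕ} {A : ValuationSubring M}
    {π : A →+* AlgebraicClosure (v.adicCompletion k)} {φ : M[X]}
    {ψ : (AlgebraicClosure (v.adicCompletion k))[X]} (h : Plc A π φ ψ) (hφ : Good g φ)
    (hψ : Good g ψ) {G : Set (M →+* M)} (hG : ∀ σ ∈ G, φ.map σ = φ)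
    (hval : ∀ a : A, (∀ σ ∈ G, σ a = a) → ∃ c : v.adicCompletion k, π a = algebraMap _ _ c)
    {T : ℕ → J φ} (hT : ∀ n, (2 : ℕ) • T (n + 1) = T n)
    (hfix : ∀ (σ : M →+* M) (hσ : σ ∈ G) (n : ℕ), J.map σ (hG σ hσ) (T n) = T n)
    (m : ℕ) (hm : (2 : ℕ) • h.sp hφ hψ (T m) = 0) : h.sp hφ hψ (T m) = 0 := by
  obtain ⟨H, hH, hR⟩ := exists_HR v hψ h.monic.2.1
  exact chain_rat h hφ hψ hG (fun a ha => by
    obtain ⟨c, hc⟩ := hval a ha
    exact ⟨c, hc.symm⟩) H hH hR hT hfix m hm

end Pool.Agent.Lib.MP_2f3286_ag.HYP
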