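import Pool.Agent.Lib.MP_2f3286_ag.HYP.UPhi

/-!
# The unit `PHI` is not constant
-/

open Polynomial

noncomputable section

namespace Pool.Agent.Lib.MP_2f3286_ag.HYP

variable {k₀ M : Type*} [Field k₀] [Field M] [Algebra k₀ M]

/-- an integral element `θ` with `f(x) ^ n θ` constant: `f` is constant -/
theorem no_inv {x : M} (hx : Transcendental k₀ x) {f : k₀[X]} (hf : 0 < f.natDegree) {n : ℕ}
    (hn : n ≠ 0) {θ : M} (hθ : IsIntegral (Algebra.adjoin k₀ {x}) θ) {c : k₀} (hc : c ≠ 0)
    (h : aeval x f ^ n * θ = algebraMap k₀ M c) : False := by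
  have hinj : Function.Injective (aeval x : k₀[X] →ₐ[k₀] M) := transcendental_iff_injective.mp hx
  -- the subring is a polynomial ring
  let e : k₀[X] ≃ₐ[k₀] Algebra.adjoin k₀ {x} := AlgEquiv.ofBijective
    ((aeval x : k₀[X] →ₐ[k₀] M).codRestrict (Algebra.adjoin k₀ {x}) (fun p => by
      rw [Algebra.adjoin_singleton_eq_range_aeval]; exact ⟨p, rfl⟩))
    ⟨fun a b hab => hinj (congrArg Subtype.val hab), fun y => by
      have hy : (y : M) ∈ (aeval x : k₀[X] →ₐ[k₀] M).range := by
        rw [← Algebra.adjoin_singleton_eq_range_aeval]; exact y.2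
      obtain ⟨p, hp⟩ := hy
      exact ⟨p, Subtype.ext hp⟩⟩
  have he : ∀ p, ((e p : Algebra.adjoin k₀ {x}) : M) = aeval x p := fun p => rfl
  -- `θ` is a fraction
  letI : Algebra k₀[X] M := (aeval x : k₀[X] →ₐ[k₀] M).toRingHom.toAlgebra
  have hmap : ∀ p, algebraMap k₀[X] M p = aeval x p := fun p => rfl
  have hint : IsIntegral k₀[X] θ := by
    obtain ⟨p, hp, hp0⟩ := hθ
    refine ⟨p.map (e.symm : Algebra.adjoin k₀ {x} →+* k₀[X]), hp.map _, ?_⟩
    rw [eval₂_map]
    have h1 : (algebraMap k₀[X] M).comp (e.symm : Algebra.adjoin k₀ {x} →+* k₀[X]) =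
        algebraMap (Algebra.adjoin k₀ {x}) M := by
      ext y
      change aeval x (e.symm y) = (y : M)
      rw [← he, AlgEquiv.apply_symm_apply]
    rw [h1]
    exact hp0
  have hfs : FaithfulSMul k₀[X] M := by
    rw [faithfulSMul_iff_algebraMap_injective]
    exact hinj
  have hf0 : f ≠ 0 := by
    rintro rfl
    simp at hf
  let K := FractionRing k₀[X]
  letI : Algebra K M := FractionRing.liftAlgebra k₀[X] M
  have : IsScalarTower k₀[X] K M := FractionRing.isScalarTower_liftAlgebra k₀[X] M
  have hθ' : θ = algebraMap K M (algebraMap k₀[X] K (C c) / algebraMap k₀[X] K (f ^ n)) := by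
    rw [map_div₀, ← IsScalarTower.algebraMap_apply, ← IsScalarTower.algebraMap_apply, hmap, hmap,
      aeval_C, map_pow]
    have h1 : aeval x f ≠ 0 := by
      intro h2
      exact hf0 (hinj (by rw [h2, map_zero]))
    rw [eq_div_iff (pow_ne_zero n h1), mul_comm]
    exact h
  rw [hθ', isIntegral_algebraMap_iff (algebraMap K M).injective,
    IsIntegrallyClosed.isIntegral_iff] at hint
  obtain ⟨q, hq⟩ := hint
  have h2 : algebraMap k₀[X] K (q * f ^ n) = algebraMap k₀[X] K (C c) := by
    rw [map_mul, hq, div_mul_cancel₀]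
    intro h3
    rw [map_eq_zero_iff _ (IsFractionRing.injective k₀[X] K)] at h3
    exact pow_ne_zero n hf0 h3
  have h3 := IsFractionRing.injective k₀[X] K h2
  have hq0 : q ≠ 0 := by
    rintro rfl
    rw [zero_mul] at h3
    exact hc (C_eq_zero.mp h3.symm)
  have h4 := congrArg natDegree h3
  rw [natDegree_mul hq0 (pow_ne_zero n hf0), natDegree_pow, natDegree_C] at h4
  have h5 : n * f.natDegree = 0 := by omega
  rcases Nat.mul_eq_zero.mp h5 with h6 | h6
  · exact hn h6
  · omega

/-- **`PHI` is not constant** -/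
theorem PHI_const {g : ℕ} (hg : 1 ≤ g) {f : k₀[X]} (hfm : f.Monic) (hf : f.Splits)
    (hgood : Good g (f.map (algebraMap k₀ M))) {x : M} (hx : Transcendental k₀ x) {F O : M[X]}
    (hF : f.map (algebraMap k₀ M) = F ^ 2 + (X - C x) * O ^ 2) (c : k₀) :
    PHI (f.map (algebraMap k₀ M)) F O ≠ algebraMap k₀ M c := by
  classical
  intro hc
  set φ := f.map (algebraMap k₀ M) with hφ
  have hf0 : f ≠ 0 := hfm.ne_zero
  have hφ0 : φ ≠ 0 := (hfm.map _).ne_zero
  have hsplit : φ.Splits := hf.map _
  have hroots : φ.roots = f.roots.map (algebraMap k₀ M) := hf.roots_map _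
  have hnd : φ.roots.Nodup := nodup_roots hgood.sep
  let S : Finset M := φ.roots.toFinset
  have hcard : Fintype.card S = 2 * g + 1 := by
    rw [Fintype.card_coe, Multiset.toFinset_card_of_nodup hnd, ← hsplit.natDegree_eq_card_roots,
      hgood.deg]
  have hprod : ∏ i : S, (X - C (i : M)) = F ^ 2 + (X - C x) * O ^ 2 := by
    rw [← hF, Finset.prod_coe_sort S fun a => X - C a]
    have h1 := hsplit.eq_prod_roots_of_monic (hfm.map _)
    conv_rhs => rw [h1]
    rw [Finset.prod_eq_multiset_prod, Multiset.toFinset_val, Multiset.dedup_eq_self.mpr hnd]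
  have hα : Function.Injective (fun i : S => (i : M)) := Subtype.val_injective
  -- the roots are in `k₀`
  have hS : ∀ i : S, ∃ b : k₀, algebraMap k₀ M b = i := by
    intro i
    have h1 := i.2
    rw [Multiset.mem_toFinset, hroots, Multiset.mem_map] at h1
    obtain ⟨b, -, hb⟩ := h1
    exact ⟨b, hb⟩
  choose β hβ using hS
  have hxα : ∀ i : S, x ≠ i := by
    intro i h
    apply hx
    rw [h, ← hβ i]
    exact isAlgebraic_algebraMap _
  set r : S → M := rt (fun i : S => (i : M)) F O with hr
  have hPhi : PHI φ F O = ∏ i : S, ∏ j ∈ Finset.univ.erase i, r i / (r i + r j) := by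
    unfold PHI
    exact Phi_eq _ _
  have hr0 : ∀ i, r i ≠ 0 := rt_ne_zero hα hprod hxα
  have hadd : ∀ i j, i ≠ j → r i + r j ≠ 0 := fun i j hij => rt_add_ne_zero hα hprod hij
  have hsq : ∀ i, r i ^ 2 = x - i := rt_sq hα hprod
  have hne : ∀ i j : S, i ≠ j → β j - β i ≠ 0 := by
    intro i j hij h
    apply hij
    apply Subtype.ext
    rw [← hβ i, ← hβ j, sub_eq_zero.mp h]
  -- the identity
  set D : M := ∏ i : S, ∏ j ∈ Finset.univ.erase i, (r i + r j) with hD
  set θ : M := ∏ i : S, ∏ j ∈ Finset.univ.erase i, (r i - r j) with hθ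
  set d : k₀ := ∏ i : S, ∏ j ∈ Finset.univ.erase i, (β j - β i) with hd
  have hcard' : ∀ i : S, (Finset.univ.erase i : Finset S).card = 2 * g := by
    intro i
    rw [Finset.card_erase_of_mem (Finset.mem_univ i), Finset.card_univ, hcard]
    rfl
  have hN : ∏ i : S, ∏ _j ∈ (Finset.univ.erase i : Finset S), r i = aeval x f ^ g := by
    have h1 : ∀ i : S, ∏ _j ∈ (Finset.univ.erase i : Finset S), r i = (x - i) ^ g := by
      intro i
      rw [Finset.prod_const, hcard', pow_mul, hsq]
    rw [Finset.prod_congr rfl fun i _ => h1 i, Finset.prod_pow]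
    congr 1
    have h2 : aeval x f = φ.eval x := by rw [hφ, eval_map_algebraMap]
    rw [h2, hF, ← hprod, eval_prod]
    apply Finset.prod_congr rfl
    intro i _
    rw [eval_sub, eval_X, eval_C]
  have hD0 : D ≠ 0 := by
    rw [hD, Finset.prod_ne_zero_iff]
    intro i _
    rw [Finset.prod_ne_zero_iff]
    intro j hj
    exact hadd i j (Finset.ne_of_mem_erase hj).symm
  have hDθ : D * θ = algebraMap k₀ M d := by
    rw [hD, hθ, hd, ← Finset.prod_mul_distrib, map_prod]
    apply Finset.prod_congr rfl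
    intro i _
    rw [← Finset.prod_mul_distrib, map_prod]
    apply Finset.prod_congr rfl
    intro j _
    rw [map_sub, hβ, hβ]
    exact rt_add_mul_sub hα hprod i j
  have hd0 : d ≠ 0 := by
    rw [hd, Finset.prod_ne_zero_iff]
    intro i _
    rw [Finset.prod_ne_zero_iff]
    intro j hj
    exact hne i j (Finset.ne_of_mem_erase hj).symm
  have hPD : PHI φ F O * D = aeval x f ^ g := by
    rw [hPhi, hD, ← hN, ← Finset.prod_mul_distrib]
    apply Finset.prod_congr rfl
    intro i _
    rw [← Finset.prod_mul_distrib]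
    apply Finset.prod_congr rfl
    intro j hj
    exact div_mul_cancel₀ _ (hadd i j (Finset.ne_of_mem_erase hj).symm)
  have hkey : aeval x f ^ g * θ = algebraMap k₀ M (c * d) := by
    rw [← hPD, hc, mul_assoc, hDθ, map_mul]
  have hc0 : c ≠ 0 := by
    rintro rfl
    rw [hc, map_zero, zero_mul] at hPD
    have h1 : aeval x f = 0 := pow_eq_zero_iff (by omega) |>.1 hPD.symm
    exact hx ⟨f, hf0, h1⟩
  have hfdeg : 0 < f.natDegree := by
    have h1 := hgood.deg
    rw [hφ, natDegree_map] at h1
    omega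
  -- integrality
  let B := Algebra.adjoin k₀ {x}
  have hxB : IsIntegral B x := isIntegral_algebraMap
    (x := (⟨x, Algebra.self_mem_adjoin_singleton k₀ x⟩ : B))
  have hrB : ∀ i, IsIntegral B (r i) := by
    intro i
    apply IsIntegral.of_pow (n := 2) (by norm_num : 0 < 2)
    rw [hsq, ← hβ i]
    apply hxB.sub
    exact isIntegral_algebraMap (x := algebraMap k₀ B (β i))
  have hθB : IsIntegral B θ := by
    rw [hθ]
    apply IsIntegral.prod
    intro i _
    apply IsIntegral.prod
    intro j _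
    exact (hrB i).sub (hrB j)
  exact no_inv hx hfdeg (by omega) hθB (mul_ne_zero hc0 hd0) hkey

end Pool.Agent.Lib.MP_2f3286_ag.HYP
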