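import Pool.Agent.Lib.MP_2f3286_ag.HYP.UHas

/-!
# The square roots at a place where `x` is infinite
-/

open Polynomial

namespace Pool.Agent.Lib.MP_2f3286_ag.HYP

variable {M F : Type*} [Field M] [Field F] {A : ValuationSubring M} {π : A →+* F}
  {ι : Type*} {α : ι → M} {a : ι → F} {x : M} {r : ι → M}

/-- the square roots are not zero -/
theorem far_ne_zero (hα : ∀ i, Hv A π (α i) (a i)) (hx : x ∉ A) (hr : ∀ i, r i ^ 2 = x - α i)
    (i : ι) : r i ≠ 0 := by
  intro h
  have h1 := hr i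
  rw [h, zero_pow two_ne_zero] at h1
  apply hx
  rw [sub_eq_zero.mp h1.symm]
  exact (hα i).1

/-- the ratio of two square roots is a sign -/
theorem far_ratio (hloc : ∀ a : A, π a ≠ 0 → (a : M)⁻¹ ∈ A) (hα : ∀ i, Hv A π (α i) (a i))
    (hx : x ∉ A) (hr : ∀ i, r i ^ 2 = x - α i) (i j : ι) :
    Hv A π (r i / r j) 1 ∨ Hv A π (r i / r j) (-1) := by
  have hx0 : x ≠ 0 := by
    rintro rfl
    exact hx (zero_mem A)
  have h1 : ∀ i, Hv A π (1 - α i * x⁻¹) 1 := by
    intro i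
    have h2 := hv_one.sub ((hα i).mul (hv_inv_of_notMem hloc hx))
    rw [mul_zero, sub_zero] at h2
    exact h2
  have h3 : Hv A π ((r i / r j) ^ 2) 1 := by
    have h4 := (h1 i).div hloc (h1 j) one_ne_zero
    rw [div_one] at h4
    have h5 : (r i / r j) ^ 2 = (1 - α i * x⁻¹) / (1 - α j * x⁻¹) := by
      have h6 : x - α j ≠ 0 := by
        rw [← hr j]
        exact pow_ne_zero 2 (far_ne_zero hα hx hr j)
      have h7 : 1 - α j * x⁻¹ ≠ 0 := (h1 j).ne_zero one_ne_zero
      rw [div_pow, hr, hr, div_eq_div_iff h6 h7]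
      field_simp
    rw [h5]
    exact h4
  obtain ⟨v, hv, hv2⟩ := h3.of_sq hloc
  have hv3 : v = 1 ∨ v = -1 := by
    apply sq_eq_sq_iff_eq_or_eq_neg.mp
    rw [hv2, one_pow]
  rcases hv3 with rfl | rfl
  · exact Or.inl hv
  · exact Or.inr hv

theorem far_trans (h0 : ∀ i, r i ≠ 0) {i j l : ι} {e e' : F} (h : Hv A π (r i / r j) e)
    (h' : Hv A π (r j / r l) e') : Hv A π (r i / r l) (e * e') := by
  have h1 := h.mul h'
  rw [div_mul_div_cancel₀ (h0 j)] at h1
  exact h1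

theorem far_symm (hloc : ∀ a : A, π a ≠ 0 → (a : M)⁻¹ ∈ A) {i j : ι} {e : F}
    (h : Hv A π (r i / r j) e) (he : e ≠ 0) : Hv A π (r j / r i) e⁻¹ := by
  have h1 := h.inv hloc he
  rw [inv_div] at h1
  exact h1

/-- same sign -/
theorem far_same (h0 : ∀ i, r i ≠ 0) {i j : ι} (h : Hv A π (r j / r i) 1) :
    Hv A π ((r i + r j) / r i) 2 := by
  have h1 := hv_one.add h
  rw [add_div, div_self (h0 i)]
  rw [one_add_one_eq_two] at h1
  exact h1

/-- different signs -/
theorem far_mixed (hloc : ∀ a : A, π a ≠ 0 → (a : M)⁻¹ ∈ A) (h2 : (2 : F) ≠ 0)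
    (hα : ∀ i, Hv A π (α i) (a i)) (hr : ∀ i, r i ^ 2 = x - α i) (h0 : ∀ i, r i ≠ 0) {i j : ι}
    (h : Hv A π (r j / r i) (-1)) : Hv A π (r i * (r i + r j)) ((a j - a i) / 2) := by
  have h1 : Hv A π (1 - r j / r i) 2 := by
    have h3 := hv_one.sub h
    rw [sub_neg_eq_add, one_add_one_eq_two] at h3
    exact h3
  have h3 := ((hα j).sub (hα i)).div hloc h1 h2
  have h4 : r i * (r i + r j) = (α j - α i) / (1 - r j / r i) := by
    rw [eq_div_iff (h1.ne_zero h2)]
    have h5 : r i * (1 - r j / r i) = r i - r j := by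
      rw [mul_sub, mul_one, mul_div_cancel₀ _ (h0 i)]
    linear_combination (r i + r j) * h5 + hr i - hr j
  rw [h4]
  exact h3

/-- a class with more than half of the elements -/
theorem far_class [Fintype ι] {g : ℕ} (hloc : ∀ a : A, π a ≠ 0 → (a : M)⁻¹ ∈ A)
    (hα : ∀ i, Hv A π (α i) (a i)) (hx : x ∉ A) (hr : ∀ i, r i ^ 2 = x - α i)
    (hcard : Fintype.card ι = 2 * g + 1) :
    ∃ (i₀ : ι) (S : Finset ι), i₀ ∉ S ∧ S.card ≤ g ∧ (∀ i, i ∉ S → Hv A π (r i / r i₀) 1) ∧
      ∀ i ∈ S, Hv A π (r i / r i₀) (-1) := by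
  classical
  have h0 := far_ne_zero hα hx hr
  have hne : Nonempty ι := by
    rw [← Fintype.card_pos_iff, hcard]
    omega
  obtain ⟨i₁⟩ := hne
  let T : Finset ι := Finset.univ.filter fun i => Hv A π (r i / r i₁) 1
  have hT : ∀ i, i ∈ T ↔ Hv A π (r i / r i₁) 1 := fun i => by
    simp only [T, Finset.mem_filter, Finset.mem_univ, true_and]
  have hTc : ∀ i, i ∉ T → Hv A π (r i / r i₁) (-1) := fun i hi =>
    (far_ratio hloc hα hx hr i i₁).resolve_left fun h => hi ((hT i).mpr h)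
  have hc : Tᶜ.card + T.card = 2 * g + 1 := by
    rw [← hcard]
    exact Finset.card_compl_add_card T
  by_cases hTg : g + 1 ≤ T.card
  · refine ⟨i₁, Tᶜ, ?_, by omega, ?_, ?_⟩
    · rw [Finset.mem_compl, not_not, hT]
      rw [div_self (h0 i₁)]
      exact hv_one
    · intro i hi
      rw [Finset.mem_compl, not_not] at hi
      exact (hT i).mp hi
    · intro i hi
      rw [Finset.mem_compl] at hi
      exact hTc i hi
  · have hne : Tᶜ.Nonempty := by
      rw [← Finset.card_pos]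
      omega
    obtain ⟨i₀, hi₀⟩ := hne
    rw [Finset.mem_compl] at hi₀
    have h1 := hTc i₀ hi₀
    have h2 : Hv A π (r i₁ / r i₀) (-1) := by
      have h3 := far_symm hloc h1 (neg_ne_zero.mpr one_ne_zero)
      rw [inv_neg, inv_one] at h3
      exact h3
    refine ⟨i₀, T, hi₀, by omega, ?_, ?_⟩
    · intro i hi
      have h3 := far_trans h0 (hTc i hi) h2
      rw [neg_mul_neg, one_mul] at h3
      exact h3
    · intro i hi
      have h3 := far_trans h0 ((hT i).mp hi) h2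
      rw [one_mul] at h3
      exact h3

/-- **the values of the products of sums of square roots** -/
theorem far_prod [Fintype ι] [DecidableEq ι] {g : ℕ}
    (hloc : ∀ a : A, π a ≠ 0 → (a : M)⁻¹ ∈ A) (h2 : (2 : F) ≠ 0)
    (hα : ∀ i, Hv A π (α i) (a i)) (hx : x ∉ A) (hr : ∀ i, r i ^ 2 = x - α i)
    (hcard : Fintype.card ι = 2 * g + 1) {i₀ : ι} {S : Finset ι} (hi₀ : i₀ ∉ S)
    (hSg : S.card ≤ g) (hT : ∀ i, i ∉ S → Hv A π (r i / r i₀) 1)
    (hS : ∀ i ∈ S, Hv A π (r i / r i₀) (-1)) :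
    ∃ (c₁ : M) (c₂ : F), c₁ ≠ 0 ∧ c₂ ≠ 0 ∧ ∀ i, i ∉ S →
      Hv A π (c₁ * ∏ j ∈ Finset.univ.erase i, (r i + r j)) (c₂ * ∏ j ∈ S, (a i - a j)) := by
  have h0 := far_ne_zero hα hx hr
  obtain ⟨n, hn⟩ : ∃ n, Sᶜ.card = n + 1 + S.card := by
    have hc : Sᶜ.card + S.card = 2 * g + 1 := by
      rw [← hcard]
      exact Finset.card_compl_add_card S
    exact ⟨2 * g - 2 * S.card, by omega⟩
  refine ⟨(r i₀ ^ n)⁻¹, 2 ^ (n + S.card) * ((-1) ^ S.card / 2 ^ S.card), inv_ne_zero
    (pow_ne_zero n (h0 i₀)), mul_ne_zero (pow_ne_zero _ h2) (div_ne_zero (pow_ne_zero _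
    (neg_ne_zero.mpr one_ne_zero)) (pow_ne_zero _ h2)), ?_⟩
  intro i hi
  have hi' := far_symm hloc (hT i hi) one_ne_zero
  rw [inv_one] at hi'
  -- split the product
  have hsplit : (Finset.univ.erase i : Finset ι) = (Sᶜ.erase i) ∪ S := by
    ext j
    simp only [Finset.mem_erase, Finset.mem_univ, and_true, Finset.mem_union, Finset.mem_compl]
    constructor
    · intro h
      by_cases hj : j ∈ S
      · exact Or.inr hj
      · exact Or.inl ⟨h, hj⟩
    · rintro (h | h)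
      · exact h.1
      · rintro rfl
        exact hi h
  have hdisj : Disjoint (Sᶜ.erase i) S := by
    rw [Finset.disjoint_left]
    intro j hj hj'
    rw [Finset.mem_erase, Finset.mem_compl] at hj
    exact hj.2 hj'
  have hcT : (Sᶜ.erase i).card = n + S.card := by
    rw [Finset.card_erase_of_mem (Finset.mem_compl.mpr hi), hn]
    omega
  have hA : Hv A π (∏ j ∈ Sᶜ.erase i, (r i + r j) / r i) (2 ^ (n + S.card)) := by
    rw [← hcT, ← Finset.prod_const]
    apply Hv.prod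
    intro j hj
    rw [Finset.mem_erase, Finset.mem_compl] at hj
    apply far_same h0
    have h3 := far_trans h0 (hT j hj.2) hi'
    rw [one_mul] at h3
    exact h3
  have hB : Hv A π (∏ j ∈ S, r i * (r i + r j)) ((-1) ^ S.card / 2 ^ S.card * ∏ j ∈ S, (a i - a j)) := by
    have h3 : (-1 : F) ^ S.card / 2 ^ S.card * ∏ j ∈ S, (a i - a j) =
        ∏ j ∈ S, (a j - a i) / 2 := by
      rw [← Finset.prod_const, ← Finset.prod_const, ← Finset.prod_div_distrib,
        ← Finset.prod_mul_distrib]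
      apply Finset.prod_congr rfl
      intro j _
      ring
    rw [h3]
    apply Hv.prod
    intro j hj
    apply far_mixed hloc h2 hα hr h0
    have h3 := far_trans h0 (hS j hj) hi'
    rw [mul_one] at h3
    exact h3
  have hC : Hv A π (r i ^ n * (r i₀ ^ n)⁻¹) 1 := by
    have h3 := (hT i hi).pow n
    rw [one_pow, div_pow, div_eq_mul_inv] at h3
    exact h3
  have hD : (r i₀ ^ n)⁻¹ * ∏ j ∈ Finset.univ.erase i, (r i + r j) =
      r i ^ n * (r i₀ ^ n)⁻¹ * ((∏ j ∈ Sᶜ.erase i, (r i + r j) / r i) *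
        ∏ j ∈ S, r i * (r i + r j)) := by
    rw [hsplit, Finset.prod_union hdisj, Finset.prod_div_distrib, Finset.prod_const,
      Finset.prod_mul_distrib, Finset.prod_const, hcT, pow_add]
    have h3 := pow_ne_zero n (h0 i)
    have h4 := pow_ne_zero S.card (h0 i)
    field_simp
  rw [hD]
  have hE := hC.mul (hA.mul hB)
  rw [one_mul] at hE
  rw [mul_assoc (2 ^ (n + S.card) : F)]
  exact hE

end Pool.Agent.Lib.MP_2f3286_ag.HYP
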