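import Pool.Agent.Lib.MP_2f3286_ag.HYP.Plc

/-!
# Specialisation of divisor classes at a place   (module Spc)

The reduction of an ideal `I` of `CR φ` is the ideal generated by the reductions of the elements of `I` with
coefficients in the valuation ring. It is multiplicative: for a principal ideal with primitive generator this is
Gauss' lemma (the ring over the residue field is a domain), for the ideal of a point which goes to infinity
`(X - a) / (- a)` reduces to `1`, and for the ideal of a point `P` with finite reduction one inclusion is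
trivial and the other one follows from it, for `P.inv`, and from the case of `X - x_P`.
-/

open Polynomial

noncomputable section

namespace Pool.Agent.Lib.MP_2f3286_ag.HYP

section rmap

variable {R S : Type*} [CommRing R] [CommRing S]

/-- the homomorphism of the rings `a + b y` induced by a homomorphism of rings -/
def rmap (j : R →+* S) (p : R[X]) {q : S[X]} (hq : p.map j = q) :
    QuadraticAlgebra R[X] p 0 →+* QuadraticAlgebra S[X] q 0 where
  toFun h := ⟨h.re.map j, h.im.map j⟩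
  map_one' := by
    ext1
    · rw [QuadraticAlgebra.re_one, QuadraticAlgebra.re_one, Polynomial.map_one]
    · rw [QuadraticAlgebra.im_one, QuadraticAlgebra.im_one, Polynomial.map_zero]
  map_zero' := by
    ext1
    · rw [QuadraticAlgebra.re_zero, QuadraticAlgebra.re_zero, Polynomial.map_zero]
    · rw [QuadraticAlgebra.im_zero, QuadraticAlgebra.im_zero, Polynomial.map_zero]
  map_add' a b := by
    ext1 <;> simp
  map_mul' a b := by
    subst hq
    ext1 <;> simp

theorem rmap_re (j : R →+* S) (p : R[X]) {q : S[X]} (hq : p.map j = q)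
    (h : QuadraticAlgebra R[X] p 0) : (rmap j p hq h).re = h.re.map j := rfl

theorem rmap_im (j : R →+* S) (p : R[X]) {q : S[X]} (hq : p.map j = q)
    (h : QuadraticAlgebra R[X] p 0) : (rmap j p hq h).im = h.im.map j := rfl

theorem rmap_injective {j : R →+* S} (hj : Function.Injective j) (p : R[X]) {q : S[X]}
    (hq : p.map j = q) : Function.Injective (rmap j p hq) := by
  intro a b h
  have h1 := congrArg QuadraticAlgebra.re h
  have h2 := congrArg QuadraticAlgebra.im h
  exact QuadraticAlgebra.ext (Polynomial.map_injective j hj h1) (Polynomial.map_injective j hj h2)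

end rmap

variable {M F : Type*} [Field M] [Field F] {g : ℕ} {A : ValuationSubring M} {π : A →+* F}
  {φ : M[X]} {ψ : F[X]}

/-- the reduction of a point with `x` in `A` -/
def Plc.redPt (h : Plc A π φ ψ) (P : Pt φ) (hx : P.x ∈ A) : Pt ψ :=
  ⟨π ⟨P.x, hx⟩, π ⟨P.y, h.y_mem hx⟩, by
    obtain ⟨p, -, h1, h2⟩ := h.lift
    have h5 : ψ.eval (π ⟨P.x, hx⟩) = π (p.eval ⟨P.x, hx⟩) := by
      rw [← h2, eval_map, eval₂_at_apply]
    rw [← map_pow, h5]
    congr 1
    apply Subtype.ext
    have h3 : P.y ^ 2 = A.subtype (p.eval ⟨P.x, hx⟩) := by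
      rw [P.eqn]
      have h4 := eval₂_at_apply (p := p) A.subtype ⟨P.x, hx⟩
      rw [← h4, ← eval_map, h1]
      rfl
    exact h3⟩

theorem Plc.redPt_x (h : Plc A π φ ψ) (P : Pt φ) (hx : P.x ∈ A) :
    (h.redPt P hx).x = π ⟨P.x, hx⟩ := rfl

/-- the reduction of a multiset of points -/
def Plc.redp (h : Plc A π φ ψ) (m : Multiset (Pt φ)) : Multiset (Pt ψ) :=
  open scoped Classical in
    m.filterMap fun P => if hx : P.x ∈ A then some (h.redPt P hx) else none

theorem Plc.redp_zero (h : Plc A π φ ψ) : h.redp 0 = 0 := by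
  rw [Plc.redp, Multiset.filterMap_zero]

theorem Plc.redp_cons_mem (h : Plc A π φ ψ) (m : Multiset (Pt φ)) {P : Pt φ} (hx : P.x ∈ A) :
    h.redp (P ::ₘ m) = h.redPt P hx ::ₘ h.redp m := by
  rw [Plc.redp, Multiset.filterMap_cons_some _ _ _ (dif_pos hx), Plc.redp]

theorem Plc.redp_cons_notMem (h : Plc A π φ ψ) (m : Multiset (Pt φ)) {P : Pt φ} (hx : P.x ∉ A) :
    h.redp (P ::ₘ m) = h.redp m := by
  rw [Plc.redp, Multiset.filterMap_cons_none _ _ (dif_neg hx), Plc.redp]

/-- a lift of the polynomials to the valuation ring -/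
def Plc.pol (h : Plc A π φ ψ) : A[X] := h.lift.choose

theorem Plc.pol_map (h : Plc A π φ ψ) : h.pol.map A.subtype = φ := h.lift.choose_spec.2.1

theorem Plc.pol_red (h : Plc A π φ ψ) : h.pol.map π = ψ := h.lift.choose_spec.2.2

/-- functions with coefficients in the valuation ring -/
abbrev Plc.R (h : Plc A π φ ψ) := QuadraticAlgebra A[X] h.pol 0

/-- inclusion -/
def Plc.toM (h : Plc A π φ ψ) : h.R →+* CR φ := rmap A.subtype h.pol h.pol_map

/-- reduction -/
def Plc.toF (h : Plc A π φ ψ) : h.R →+* CR ψ := rmap π h.pol h.pol_red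

theorem Plc.toM_injective (h : Plc A π φ ψ) : Function.Injective h.toM :=
  rmap_injective Subtype.val_injective _ _

/-- the reduction of an ideal -/
def Plc.red (h : Plc A π φ ψ) (I : Ideal (CR φ)) : Ideal (CR ψ) := (I.comap h.toM).map h.toF

theorem Plc.red_mono (h : Plc A π φ ψ) {I J : Ideal (CR φ)} (hIJ : I ≤ J) : h.red I ≤ h.red J :=
  Ideal.map_mono (Ideal.comap_mono hIJ)

theorem Plc.mem_red (h : Plc A π φ ψ) {I : Ideal (CR φ)} {v : h.R} (hv : h.toM v ∈ I) :
    h.toF v ∈ h.red I := Ideal.mem_map_of_mem _ hv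

theorem Plc.red_top (h : Plc A π φ ψ) : h.red 1 = 1 := by
  rw [Plc.red, Ideal.one_eq_top, Ideal.comap_top, Ideal.map_top, Ideal.one_eq_top]

theorem Plc.red_mul_le (h : Plc A π φ ψ) (I J : Ideal (CR φ)) :
    h.red I * h.red J ≤ h.red (I * J) := by
  rw [Plc.red, Plc.red, ← Ideal.map_mul]
  refine Ideal.map_mono ?_
  rw [Ideal.mul_le]
  intro r hr s hs
  rw [Ideal.mem_comap, map_mul]
  exact Ideal.mul_mem_mul hr hs

/-- constants -/
theorem Plc.toM_const (h : Plc A π φ ψ) (c : A) :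
    h.toM ⟨C c, 0⟩ = ⟨C (c : M), 0⟩ := by
  ext1
  · change (C c : A[X]).map A.subtype = _
    rw [map_C]; rfl
  · change (0 : A[X]).map A.subtype = _
    rw [Polynomial.map_zero]

theorem Plc.toF_const (h : Plc A π φ ψ) (c : A) :
    h.toF ⟨C c, 0⟩ = ⟨C (π c), 0⟩ := by
  ext1
  · change (C c : A[X]).map π = _
    rw [map_C]
  · change (0 : A[X]).map π = _
    rw [Polynomial.map_zero]

theorem const_mul {E : Type*} [Field E] {χ : E[X]} (c : E) (r : CR χ) :
    (⟨C c, 0⟩ : CR χ) * r = ⟨C c * r.re, C c * r.im⟩ := by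
  ext1 <;> simp

/-- Gauss: a multiple, over `M`, of a primitive function `u` is a multiple over `A`, or reduces to `0` -/
theorem Plc.gauss (h : Plc A π φ ψ) (hψ : Good g ψ) {u w : h.R} (hu : h.toF u ≠ 0) {r : CR φ}
    (hw : h.toM w = h.toM u * r) : (∃ v : h.R, w = u * v ∧ h.toM v = r) ∨ h.toF w = 0 := by
  have hdom := isDomain hψ
  by_cases hr : r = 0
  · right
    rw [hr, mul_zero] at hw
    have : w = 0 := h.toM_injective (by rw [hw, map_zero])
    rw [this, map_zero]
  have hr' : r.re ≠ 0 ∨ r.im ≠ 0 := by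
    by_contra h1
    push Not at h1
    exact hr (QuadraticAlgebra.ext h1.1 h1.2)
  obtain ⟨c, a', b', hc, ha, hb, hab⟩ := exists_prim h hr'
  -- the primitive multiple of `r`
  let v' : h.R := ⟨a', b'⟩
  have hv' : h.toM v' = ⟨C c, 0⟩ * r := by
    rw [const_mul]
    exact QuadraticAlgebra.ext ha hb
  have hv0 : h.toF v' ≠ 0 := by
    intro h1
    have h2 := congrArg QuadraticAlgebra.re h1
    have h3 := congrArg QuadraticAlgebra.im h1
    rcases hab with h4 | h4
    · exact h4 h2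
    · exact h4 h3
  have key : h.toM (u * v') = ⟨C c, 0⟩ * h.toM w := by
    rw [map_mul, hv', hw]; ring
  have hne : h.toF (u * v') ≠ 0 := by
    rw [map_mul]; exact mul_ne_zero hu hv0
  have hcc : (⟨C c⁻¹, 0⟩ : CR φ) * ⟨C c, 0⟩ = 1 := by
    rw [const_mul]
    ext1
    · rw [QuadraticAlgebra.re_one]
      simp [← C_mul, inv_mul_cancel₀ hc]
    · rw [QuadraticAlgebra.im_one]
      simp
  by_cases hcA : c ∈ A
  · by_cases hciA : c⁻¹ ∈ A
    · left
      refine ⟨⟨C ⟨c⁻¹, hciA⟩, 0⟩ * v', ?_, ?_⟩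
      · apply h.toM_injective
        rw [map_mul, map_mul, h.toM_const, hv', hw, ← mul_assoc (⟨C c⁻¹, 0⟩ : CR φ)]
        change h.toM u * r = h.toM u * ((⟨C c⁻¹, 0⟩ : CR φ) * ⟨C c, 0⟩ * r)
        rw [hcc, one_mul]
      · rw [map_mul, h.toM_const, hv', ← mul_assoc]
        change (⟨C c⁻¹, 0⟩ : CR φ) * ⟨C c, 0⟩ * r = r
        rw [hcc, one_mul]
    · exfalso
      have h1 : π ⟨c, hcA⟩ = 0 := by
        by_contra h2
        exact hciA (h.loc ⟨c, hcA⟩ h2)
      have h2 : u * v' = ⟨C ⟨c, hcA⟩, 0⟩ * w := by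
        apply h.toM_injective
        rw [key, map_mul, h.toM_const]
      apply hne
      rw [h2, map_mul, h.toF_const, h1, C_0]
      have : (⟨0, 0⟩ : CR ψ) = 0 := rfl
      rw [this, zero_mul]
  · right
    obtain ⟨hb', hb0⟩ := h.inv_of_notMem hcA
    have h2 : w = ⟨C ⟨c⁻¹, hb'⟩, 0⟩ * (u * v') := by
      apply h.toM_injective
      rw [map_mul, h.toM_const, key, ← mul_assoc]
      change h.toM w = (⟨C c⁻¹, 0⟩ : CR φ) * ⟨C c, 0⟩ * h.toM w
      rw [hcc, one_mul]
    rw [h2, map_mul, h.toF_const, hb0, C_0]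
    have : (⟨0, 0⟩ : CR ψ) = 0 := rfl
    rw [this, zero_mul]

theorem Plc.red_span_mul (h : Plc A π φ ψ) (hψ : Good g ψ) {u : h.R} (hu : h.toF u ≠ 0)
    (I : Ideal (CR φ)) :
    h.red (Ideal.span {h.toM u} * I) = Ideal.span {h.toF u} * h.red I := by
  apply le_antisymm
  · rw [Plc.red, Ideal.map_le_iff_le_comap]
    intro w hw
    rw [Ideal.mem_comap] at hw ⊢
    obtain ⟨r, hr, hw'⟩ := Ideal.mem_span_singleton_mul.1 hw
    rcases h.gauss hψ hu hw'.symm with ⟨v, rfl, hv⟩ | h0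
    · rw [map_mul]
      exact Ideal.mul_mem_mul (Ideal.mem_span_singleton_self _) (h.mem_red (hv ▸ hr))
    · rw [h0]; exact zero_mem _
  · refine le_trans (Ideal.mul_mono_left ?_) (h.red_mul_le _ _)
    rw [Ideal.span_singleton_le_iff_mem]
    exact h.mem_red (Ideal.mem_span_singleton_self _)

/-- a point which goes to infinity does not contribute -/
theorem Plc.red_far (h : Plc A π φ ψ) {P : Pt φ} (hx : P.x ∉ A) (I : Ideal (CR φ)) :
    h.red (P.idl * I) = h.red I := by
  refine le_antisymm (h.red_mono Ideal.mul_le_right) ?_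
  rw [Plc.red, Ideal.map_le_iff_le_comap]
  intro v hv
  rw [Ideal.mem_comap] at hv ⊢
  obtain ⟨hb, hb0⟩ := h.inv_of_notMem hx
  have hx0 : P.x ≠ 0 := fun h0 => hx (h0 ▸ zero_mem _)
  let w : h.R := ⟨1 - C ⟨P.x⁻¹, hb⟩ * X, 0⟩
  have hw : h.toM w ∈ P.idl := by
    rw [Pt.mem_idl]
    have h1 : (h.toM w).re = 1 - C P.x⁻¹ * X := by
      change (1 - C ⟨P.x⁻¹, hb⟩ * X : A[X]).map A.subtype = _
      simp only [Polynomial.map_sub, Polynomial.map_one, Polynomial.map_mul, map_C, map_X]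
      rfl
    have h2 : (h.toM w).im = 0 := Polynomial.map_zero _
    rw [h1, h2]
    simp [inv_mul_cancel₀ hx0]
  have hw' : h.toF w = 1 := by
    ext1
    · change (1 - C ⟨P.x⁻¹, hb⟩ * X : A[X]).map π = _
      simp only [Polynomial.map_sub, Polynomial.map_one, Polynomial.map_mul, map_C, map_X, hb0]
      rw [C_0, zero_mul, sub_zero, QuadraticAlgebra.re_one]
    · exact Polynomial.map_zero _
  have h3 : h.toF (w * v) ∈ h.red (P.idl * I) := by
    apply h.mem_red
    rw [map_mul]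
    exact Ideal.mul_mem_mul hw hv
  rwa [map_mul, hw', one_mul] at h3

/-- the function `X - x_P` over the valuation ring -/
theorem Plc.lin_red (h : Plc A π φ ψ) {a : M} (ha : a ∈ A) :
    h.toM ⟨X - C ⟨a, ha⟩, 0⟩ = lin a ∧ h.toF ⟨X - C ⟨a, ha⟩, 0⟩ = lin (π ⟨a, ha⟩) := by
  constructor
  · ext1
    · change (X - C ⟨a, ha⟩ : A[X]).map A.subtype = X - C a
      simp only [Polynomial.map_sub, map_C, map_X]
      rfl
    · exact Polynomial.map_zero _
  · ext1
    · change (X - C ⟨a, ha⟩ : A[X]).map π = X - C (π ⟨a, ha⟩)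
      simp only [Polynomial.map_sub, map_C, map_X]
    · exact Polynomial.map_zero _

theorem lin_ne_zero_aux {E : Type*} [Field E] {χ : E[X]} (a : E) : (lin a : CR χ) ≠ 0 := by
  intro h
  exact X_sub_C_ne_zero a (congrArg QuadraticAlgebra.re h)

theorem Plc.near_le (h : Plc A π φ ψ) {P : Pt φ} (hx : P.x ∈ A) (I : Ideal (CR φ)) :
    (h.redPt P hx).idl * h.red I ≤ h.red (P.idl * I) := by
  refine le_trans (Ideal.mul_mono_left ?_) (h.red_mul_le _ _)
  rw [Pt.idl_eq, Ideal.span_le]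
  rintro z (rfl | rfl)
  · have h1 := (h.lin_red hx).2
    change (lin (π ⟨P.x, hx⟩) : CR ψ) ∈ h.red P.idl
    rw [← h1]
    apply h.mem_red
    rw [(h.lin_red hx).1, Pt.idl_eq]
    exact Ideal.subset_span (Set.mem_insert _ _)
  · have h1 : h.toF ⟨-C ⟨P.y, h.y_mem hx⟩, 1⟩ = ymin (C (h.redPt P hx).y) := by
      ext1
      · change (-C ⟨P.y, h.y_mem hx⟩ : A[X]).map π = -C (π ⟨P.y, h.y_mem hx⟩)
        simp only [Polynomial.map_neg, map_C]
      · exact Polynomial.map_one _
    have h2 : h.toM ⟨-C ⟨P.y, h.y_mem hx⟩, 1⟩ = ymin (C P.y) := by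
      ext1
      · change (-C ⟨P.y, h.y_mem hx⟩ : A[X]).map A.subtype = -C P.y
        simp only [Polynomial.map_neg, map_C]
        rfl
      · exact Polynomial.map_one _
    rw [SetLike.mem_coe, ← h1]
    apply h.mem_red
    rw [h2, Pt.idl_eq]
    exact Ideal.subset_span (Set.mem_insert_of_mem _ rfl)

theorem Plc.redPt_inv (h : Plc A π φ ψ) {P : Pt φ} (hx : P.x ∈ A) :
    h.redPt P.inv hx = (h.redPt P hx).inv := by
  ext
  · rfl
  · change π ⟨-P.y, _⟩ = -π ⟨P.y, _⟩
    rw [← map_neg]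
    rfl

theorem Plc.red_near [IsAlgClosed F] (h : Plc A π φ ψ) (hφ : Good g φ) (hψ : Good g ψ) {P : Pt φ}
    (hx : P.x ∈ A) (I : Ideal (CR φ)) :
    h.red (P.idl * I) = (h.redPt P hx).idl * h.red I := by
  apply le_antisymm _ (h.near_le hx I)
  have h1 : (h.redPt P hx).inv.idl * h.red (P.idl * I) ≤
      (h.redPt P hx).inv.idl * ((h.redPt P hx).idl * h.red I) := by
    calc (h.redPt P hx).inv.idl * h.red (P.idl * I)
        = (h.redPt P.inv hx).idl * h.red (P.idl * I) := by rw [h.redPt_inv hx]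
      _ ≤ h.red (P.inv.idl * (P.idl * I)) := h.near_le (P := P.inv) hx _
      _ = h.red (Ideal.span {h.toM ⟨X - C ⟨P.x, hx⟩, 0⟩} * I) := by
          rw [← mul_assoc, mul_comm P.inv.idl, idl_mul_inv hφ, (h.lin_red hx).1]
      _ = Ideal.span {h.toF ⟨X - C ⟨P.x, hx⟩, 0⟩} * h.red I := by
          apply h.red_span_mul hψ
          rw [(h.lin_red hx).2]
          exact lin_ne_zero_aux _
      _ = (h.redPt P hx).inv.idl * ((h.redPt P hx).idl * h.red I) := by
          rw [(h.lin_red hx).2, ← mul_assoc, mul_comm (h.redPt P hx).inv.idl, idl_mul_inv hψ]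
          rfl
  have hdom := isDomain hψ
  have hded := isDedekind hψ
  have h2 : (h.redPt P hx).inv.idl ≠ ⊥ := idl_ne_bot _
  rw [← Ideal.dvd_iff_le] at h1 ⊢
  exact (mul_dvd_mul_iff_left h2).1 h1

theorem Plc.red_idm [IsAlgClosed F] (h : Plc A π φ ψ) (hφ : Good g φ) (hψ : Good g ψ)
    (m : Multiset (Pt φ)) : h.red (idm m) = idm (h.redp m) := by
  induction m using Multiset.induction_on with
  | empty => rw [h.redp_zero, idm_zero, idm_zero, h.red_top]
  | cons P m ih =>
    by_cases hx : P.x ∈ A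
    · rw [h.redp_cons_mem m hx, idm_cons, idm_cons, h.red_near hφ hψ hx, ih]
    · rw [h.redp_cons_notMem m hx, idm_cons, h.red_far hx, ih]

theorem Plc.red_div [IsAlgClosed M] [IsAlgClosed F] (h : Plc A π φ ψ) (hφ : Good g φ)
    (hψ : Good g ψ) {a b : A[X]} {m : Multiset (Pt φ)}
    (hm : Ideal.span {(⟨a.map A.subtype, b.map A.subtype⟩ : CR φ)} = idm m)
    (h0 : (⟨a.map π, b.map π⟩ : CR ψ) ≠ 0) :
    Ideal.span {(⟨a.map π, b.map π⟩ : CR ψ)} = idm (h.redp m) := by
  have h1 := h.red_span_mul hψ (u := ⟨a, b⟩) h0 1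
  rw [mul_one, h.red_top, mul_one] at h1
  rw [← h.red_idm hφ hψ, ← hm]
  exact h1.symm

/-- the class of the reduction of a point, zero if the point goes to infinity -/
def Plc.spPt (h : Plc A π φ ψ) (P : Pt φ) : J ψ :=
  open scoped Classical in if hx : P.x ∈ A then cl (h.redPt P hx) else 0

theorem Plc.sum_spPt (h : Plc A π φ ψ) (m : Multiset (Pt φ)) :
    (m.map h.spPt).sum = clm (h.redp m) := by
  induction m using Multiset.induction_on with
  | empty => rw [h.redp_zero, clm_zero, Multiset.map_zero, Multiset.sum_zero]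
  | cons P m ih =>
    rw [Multiset.map_cons, Multiset.sum_cons, ih]
    by_cases hx : P.x ∈ A
    · rw [h.redp_cons_mem m hx, clm_cons, Plc.spPt, dif_pos hx]
    · rw [h.redp_cons_notMem m hx, Plc.spPt, dif_neg hx, zero_add]

theorem Plc.sp_prin [IsAlgClosed M] [IsAlgClosed F] (h : Plc A π φ ψ) (hφ : Good g φ)
    (hψ : Good g ψ) (f : CR φ) (m : Multiset (Pt φ)) (h0 : f ≠ 0) (hm : Ideal.span {f} = idm m) :
    (m.map h.spPt).sum = 0 := by
  have hr' : f.re ≠ 0 ∨ f.im ≠ 0 := by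
    by_contra h1
    push Not at h1
    exact h0 (QuadraticAlgebra.ext h1.1 h1.2)
  obtain ⟨c, a', b', hc, ha, hb, hab⟩ := exists_prim h hr'
  have h2 : Ideal.span {(⟨a'.map A.subtype, b'.map A.subtype⟩ : CR φ)} = idm m := by
    rw [← hm, ha, hb, ← const_mul]
    apply Ideal.span_singleton_mul_left_unit
    rw [isUnit_iff hφ]
    exact ⟨c, hc, rfl⟩
  have h3 : (⟨a'.map π, b'.map π⟩ : CR ψ) ≠ 0 := by
    intro h4
    rcases hab with h5 | h5
    · exact h5 (congrArg QuadraticAlgebra.re h4)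
    · exact h5 (congrArg QuadraticAlgebra.im h4)
  rw [h.sum_spPt]
  exact clm_of_span h3 (h.red_div hφ hψ h2 h3)

/-- **specialisation of divisor classes** -/
def Plc.sp [IsAlgClosed M] [IsAlgClosed F] (h : Plc A π φ ψ) (hφ : Good g φ) (hψ : Good g ψ) :
    J φ →+ J ψ :=
  J.lift h.spPt (h.sp_prin hφ hψ)

theorem Plc.sp_cl [IsAlgClosed M] [IsAlgClosed F] (h : Plc A π φ ψ) (hφ : Good g φ)
    (hψ : Good g ψ) (P : Pt φ) (hx : P.x ∈ A) : h.sp hφ hψ (cl P) = cl (h.redPt P hx) := by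
  rw [Plc.sp, J.lift_cl, Plc.spPt, dif_pos hx]

theorem Plc.sp_cl' [IsAlgClosed M] [IsAlgClosed F] (h : Plc A π φ ψ) (hφ : Good g φ)
    (hψ : Good g ψ) (P : Pt φ) (hx : P.x ∉ A) : h.sp hφ hψ (cl P) = 0 := by
  rw [Plc.sp, J.lift_cl, Plc.spPt, dif_neg hx]

theorem Plc.sp_clm [IsAlgClosed M] [IsAlgClosed F] (h : Plc A π φ ψ) (hφ : Good g φ)
    (hψ : Good g ψ) (m : Multiset (Pt φ)) : h.sp hφ hψ (clm m) = clm (h.redp m) := by
  rw [J.map_clm, ← h.sum_spPt]
  congr 1
  apply Multiset.map_congr rfl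
  intro P _
  rw [Plc.sp, J.lift_cl]

end Pool.Agent.Lib.MP_2f3286_ag.HYP
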