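import Pool.Agent.Lib.MP_2f3286_ag.HYP.UHas
import Pool.Agent.Lib.MP_2f3286_ag.HYP.Spc

/-!
# The reduction of the norm polynomial at a place where `x` is infinite
-/

open Polynomial

namespace Pool.Agent.Lib.MP_2f3286_ag.HYP

variable {M F : Type*} [Field M] [Field F] {A : ValuationSubring M} {π : A →+* F}
  {ι : Type*} [Fintype ι] [DecidableEq ι] {α : ι → M} {a : ι → F} {g : ℕ}

/-- the reduction of a primitive multiple of `O` -/
theorem far_poly (hloc : ∀ a : A, π a ≠ 0 → (a : M)⁻¹ ∈ A) (hα : ∀ i, Hv A π (α i) (a i))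
    (ha : Function.Injective a) (hcard : Fintype.card ι = 2 * g + 1) {S : Finset ι}
    (hSg : S.card ≤ g) {O : M[X]} (hO : O.natDegree ≤ g) {c₁ : M} {c₂ : F} (hc₁ : c₁ ≠ 0)
    (hc₂ : c₂ ≠ 0) (hval : ∀ i, i ∉ S → Hv A π (c₁ * O.eval (α i)) (c₂ * ∏ j ∈ S, (a i - a j)))
    {c : M} (hc : c ≠ 0) {p : A[X]} (hp : p.map A.subtype = C c * O) (hp0 : p.map π ≠ 0) :
    ∃ c' : F, c' ≠ 0 ∧ p.map π = C c' * ∏ j ∈ S, (X - C (a j)) := by
  have hcT : g + 1 ≤ Sᶜ.card := by
    have h1 : Sᶜ.card + S.card = 2 * g + 1 := by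
      rw [← hcard]
      exact Finset.card_compl_add_card S
    omega
  have h1 : ∀ i, Hv A π (c * O.eval (α i)) ((p.map π).eval (a i)) := by
    intro i
    have h2 := hv_eval (p := p) (hα i)
    rw [hp, eval_mul, eval_C] at h2
    exact h2
  have hne : ∀ i, i ∉ S → ∏ j ∈ S, (a i - a j) ≠ 0 := by
    intro i hi
    rw [Finset.prod_ne_zero_iff]
    intro j hj h
    rw [sub_eq_zero] at h
    rw [ha h] at hi
    exact hi hj
  have hd : c / c₁ ∈ A := by
    by_contra h
    have h2 := hv_inv_of_notMem hloc h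
    obtain ⟨i, hi⟩ : Sᶜ.Nonempty := by
      rw [← Finset.card_pos]
      omega
    rw [Finset.mem_compl] at hi
    have h3 := h2.mul (h1 i)
    have h4 : (c / c₁)⁻¹ * (c * O.eval (α i)) = c₁ * O.eval (α i) := by
      field_simp
    rw [h4, zero_mul] at h3
    exact mul_ne_zero hc₂ (hne i hi) ((hval i hi).unique h3)
  have hdv : Hv A π (c / c₁) (π ⟨c / c₁, hd⟩) := ⟨hd, rfl⟩
  set w := π ⟨c / c₁, hd⟩ with hw
  have h2 : ∀ i, i ∉ S → (p.map π).eval (a i) = (C (w * c₂) * ∏ j ∈ S, (X - C (a j))).eval (a i) := by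
    intro i hi
    have h3 := hdv.mul (hval i hi)
    have h4 : c / c₁ * (c₁ * O.eval (α i)) = c * O.eval (α i) := by
      field_simp
    rw [h4] at h3
    rw [(h1 i).unique h3, eval_mul, eval_C, eval_prod, mul_assoc]
    congr 2
    apply Finset.prod_congr rfl
    intro j _
    rw [eval_sub, eval_X, eval_C]
  have hdeg1 : (p.map π).natDegree ≤ g := by
    refine natDegree_map_le.trans ?_
    have h3 : (p.map A.subtype).natDegree = p.natDegree :=
      natDegree_map_eq_of_injective Subtype.val_injective p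
    rw [← h3, hp]
    exact (natDegree_C_mul_le c O).trans hO
  have hdeg2 : (C (w * c₂) * ∏ j ∈ S, (X - C (a j))).natDegree ≤ g := by
    refine (natDegree_C_mul_le _ _).trans ?_
    rw [natDegree_finset_prod_X_sub_C_eq_card]
    exact hSg
  have h3 : p.map π = C (w * c₂) * ∏ j ∈ S, (X - C (a j)) := by
    apply eq_of_natDegree_lt_card_of_eval_eq' _ _ (Sᶜ.map ⟨a, ha⟩)
    · intro b hb
      rw [Finset.mem_map] at hb
      obtain ⟨i, hi, rfl⟩ := hb
      rw [Finset.mem_compl] at hi
      exact h2 i hi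
    · rw [Finset.card_map]
      exact lt_of_le_of_lt (max_le hdeg1 hdeg2) (by omega)
  refine ⟨w * c₂, ?_, h3⟩
  intro h4
  rw [h3, h4, C_0, zero_mul] at hp0
  exact hp0 rfl

/-- the roots determine the multiset -/
theorem multiset_eq_of_prod {s : Multiset F} {S : Finset ι} {c c' : F} (hc : c ≠ 0)
    (hc' : c' ≠ 0) (h : C c * (s.map fun b => X - C b).prod = C c' * ∏ j ∈ S, (X - C (a j))) :
    s = S.val.map a := by
  have h1 := congrArg roots h
  rw [roots_C_mul _ hc, roots_C_mul _ hc', roots_multiset_prod_X_sub_C] at h1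
  have h2 : ∏ j ∈ S, (X - C (a j)) = ((S.val.map a).map fun b => X - C b).prod := by
    rw [Multiset.map_map]
    rfl
  rw [h2, roots_multiset_prod_X_sub_C] at h1
  exact h1

theorem redp_x {φ : M[X]} {ψ : F[X]} (h : Plc A π φ ψ) (m : Multiset (Pt φ)) :
    (h.redp m).map Pt.x = redm π (m.map Pt.x) := by
  induction m using Multiset.induction_on with
  | empty => rw [h.redp_zero]; rfl
  | cons P m ih =>
    by_cases hx : P.x ∈ A
    · rw [h.redp_cons_mem m hx, Multiset.map_cons, Multiset.map_cons, redm_cons_mem _ hx, ih,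
        h.redPt_x]
    · rw [h.redp_cons_notMem m hx, Multiset.map_cons, redm_cons_notMem _ hx, ih]

/-- a multiset of ramification points without repetition is reduced -/
theorem reduced_of_x {ψ : F[X]} {n : Multiset (Pt ψ)} {S : Finset ι} (hS : S.card ≤ g)
    (ha : Function.Injective a) (hn : n.map Pt.x = S.val.map a) :
    Reduced g n := by
  constructor
  · rw [← Multiset.card_map Pt.x, hn, Multiset.card_map]
    exact hS
  · intro P hP
    have h1 : P ∈ n := Multiset.mem_of_le hP (Multiset.mem_cons_self _ _)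
    have h2 : P.x ∈ n.map Pt.x := Multiset.mem_map_of_mem _ h1
    rw [hn, Multiset.mem_map] at h2
    obtain ⟨j, -, hj⟩ := h2
    have h3 := Multiset.map_le_map hP (f := Pt.x)
    rw [hn, Multiset.map_cons, Multiset.map_singleton] at h3
    have h4 : (S.val.map a).Nodup := Multiset.Nodup.map ha S.nodup
    rw [Multiset.nodup_iff_le] at h4
    exact h4 P.x h3

end Pool.Agent.Lib.MP_2f3286_ag.HYP
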