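import Pool.Agent.Lib.MP_2f3286_ag.HYP.UNear
import Pool.Agent.Lib.MP_2f3286_ag.HYP.UFar1
import Pool.Agent.Lib.MP_2f3286_ag.HYP.UFar2
import Pool.Agent.Lib.MP_2f3286_ag.HYP.UConst

/-!
# The unit: Lemma UNIT
-/

open Polynomial

noncomputable section

namespace Pool.Agent.Lib.MP_2f3286_ag.HYP

variable {M F : Type*} [Field M] [Field F] {g : ℕ} {A : ValuationSubring M} {π : A →+* F}
  {φ : M[X]} {ψ : F[X]}

open scoped Classical in
/-- the roots of `φ` -/
theorem prod_roots_coe (hm : φ.Monic) (hs : φ.Splits) (hφ : Good g φ) :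
    ∏ i : φ.roots.toFinset, (X - C (i : M)) = φ ∧
      Fintype.card φ.roots.toFinset = 2 * g + 1 := by
  have hnd : φ.roots.Nodup := nodup_roots hφ.sep
  refine ⟨?_, ?_⟩
  · rw [Finset.prod_coe_sort φ.roots.toFinset fun a => X - C a]
    have h1 := hs.eq_prod_roots_of_monic hm
    conv_rhs => rw [h1]
    rw [Finset.prod_eq_multiset_prod, Multiset.toFinset_val, Multiset.dedup_eq_self.mpr hnd]
  · rw [Fintype.card_coe, Multiset.toFinset_card_of_nodup hnd, ← hs.natDegree_eq_card_roots,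
      hφ.deg]

/-- the value of the unit if `x` is finite and different from the roots, or if `x` is infinite and
the half of the point goes to zero -/
theorem PHI_unit_aux {ι : Type*} [Fintype ι] [DecidableEq ι] [IsAlgClosed M] [IsAlgClosed F]
    (h : Plc A π φ ψ) (hφ : Good g φ) (hψ : Good g ψ) {P : Pt φ} (hP : P.y ≠ 0)
    {m : Multiset (Pt φ)} {E : M[X]} (hmc : m.card = g)
    (hE : φ = E ^ 2 + (X - C P.x) * upol m ^ 2) (hEd : E.natDegree ≤ g)
    (h1 : ∀ W : Pt ψ, W.y = 0 → h.sp hφ hψ (cl P) ≠ cl W)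
    (h2 : h.sp hφ hψ (cl P) = 0 → h.sp hφ hψ (clm m) = 0) {α : ι → M}
    (hα : Function.Injective α) (hprod : φ = ∏ i, (X - C (α i)))
    (hcard : Fintype.card ι = 2 * g + 1) :
    ∃ w, w ≠ 0 ∧ Hv A π (∏ i, ∏ j ∈ Finset.univ.erase i,
      rt α E (upol m) i / (rt α E (upol m) i + rt α E (upol m) j)) w := by
  obtain ⟨a, ha, hψa⟩ := h.red_prod hprod
  have hinj : Function.Injective a := by
    have h3 := hψ.sep
    rw [hψa, separable_prod_X_sub_C_iff] at h3
    exact h3
  have hroot : ∀ i, ψ.eval (a i) = 0 := by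
    intro i
    rw [hψa, eval_prod]
    apply Finset.prod_eq_zero (Finset.mem_univ i)
    rw [eval_sub, eval_X, eval_C, sub_self]
  have hf : ∏ i, (X - C (α i)) = E ^ 2 + (X - C P.x) * upol m ^ 2 := by
    rw [← hprod]
    exact hE
  have hsq := rt_sq hα hf
  have hxα : ∀ i, P.x ≠ α i := by
    intro i hi
    apply hP
    have h3 := P.eqn
    have h4 : φ.eval (α i) = 0 := (congrArg (eval (α i)) hprod).trans (eval_prod_zero i)
    rw [hi, h4] at h3
    exact pow_eq_zero_iff two_ne_zero |>.1 h3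
  have hOd : (upol m).natDegree = g := by rw [upol_natDegree, hmc]
  have hO := O_eval hα hcard (upol_monic m) hOd hEd hf hφ.two hxα
  set r := rt α E (upol m) with hr
  by_cases hx : P.x ∈ A
  · apply unit_near h.loc ha hinj (x := P.x) (ξ := π ⟨P.x, hx⟩) ⟨hx, rfl⟩ _ hsq
    intro i hi
    have h3 : (h.redPt P hx).y = 0 := by
      have h4 := (h.redPt P hx).eqn
      rw [h.redPt_x, hi, hroot] at h4
      exact pow_eq_zero_iff two_ne_zero |>.1 h4
    exact h1 _ h3 (h.sp_cl hφ hψ P hx)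
  · -- the point goes to infinity
    have hz : clm (h.redp m) = clm (0 : Multiset (Pt ψ)) := by
      rw [clm_zero, ← h.sp_clm hφ hψ]
      exact h2 (h.sp_cl' hφ hψ P hx)
    obtain ⟨i₀, S, hi₀, hSg, hT, hS⟩ := far_class h.loc ha hx hsq hcard
    obtain ⟨c₁, c₂, hc₁, hc₂, hval⟩ := far_prod h.loc hψ.two ha hx hsq hcard hi₀ hSg hT hS
    have hval' : ∀ i, i ∉ S → Hv A π (c₁ * (-1) ^ g * (upol m).eval (α i))
        (c₂ * ∏ j ∈ S, (a i - a j)) := by
      intro i hi
      have h3 := hval i hi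
      rw [hO i, mul_assoc c₁, ← mul_assoc ((-1) ^ g), ← mul_pow, neg_one_mul, neg_neg, one_pow,
        one_mul]
      exact h3
    -- a primitive multiple
    obtain ⟨c, p, q, hc, hp, hq, hp0⟩ := exists_prim h (a := upol m) (b := upol m)
      (Or.inl (upol_monic m).ne_zero)
    have hpq : p.map π ≠ 0 := by
      rcases hp0 with h3 | h3
      · exact h3
      · have h4 : p = q := by
          apply Polynomial.map_injective A.subtype Subtype.val_injective
          rw [hp, hq]
        rw [h4]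
        exact h3
    obtain ⟨c', hc', h3⟩ := far_poly h.loc ha hinj hcard hSg hOd.le
      (mul_ne_zero hc₁ (pow_ne_zero g (neg_ne_zero.mpr one_ne_zero))) hc₂ hval' hc hp hpq
    have hp' : p.map A.subtype = C c * ((m.map Pt.x).map fun b => X - C b).prod := by
      rw [hp, upol, Multiset.map_map]
      rfl
    obtain ⟨c'', hc'', h4⟩ := red_roots h (m.map Pt.x) hp' hpq
    have h5 : redm π (m.map Pt.x) = S.val.map a :=
      multiset_eq_of_prod hc'' hc' (h4.symm.trans h3)
    have h6 : (h.redp m).map Pt.x = S.val.map a := by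
      rw [redp_x, h5]
    have h7 := reduced_of_x hSg hinj h6
    have h8 : Reduced g (0 : Multiset (Pt ψ)) := by
      refine ⟨Nat.zero_le g, ?_⟩
      intro Q hQ
      have h9 := Multiset.le_zero.mp hQ
      exact Multiset.cons_ne_zero h9
    have h9 := Reduced.unique hψ h7 h8 hz
    have hS0 : S = ∅ := by
      rw [h9, Multiset.map_zero] at h6
      rw [← Finset.val_eq_zero]
      exact Multiset.map_eq_zero.mp h6.symm
    -- all signs are equal
    have h0 := far_ne_zero ha hx hsq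
    have hall : ∀ i, Hv A π (r i / r i₀) 1 := by
      intro i
      apply hT
      rw [hS0]
      exact Finset.notMem_empty i
    have hall' : ∀ i j, Hv A π (r j / r i) 1 := by
      intro i j
      have h10 := far_symm h.loc (hall i) one_ne_zero
      have h11 := far_trans h0 (hall j) h10
      rw [inv_one, mul_one] at h11
      exact h11
    refine ⟨∏ i : ι, ∏ j ∈ Finset.univ.erase i, (2 : F)⁻¹, ?_, ?_⟩
    · rw [Finset.prod_ne_zero_iff]
      intro i _
      rw [Finset.prod_ne_zero_iff]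
      intro j _
      exact inv_ne_zero hψ.two
    · apply Hv.prod
      intro i _
      apply Hv.prod
      intro j _
      have h10 := (far_same h0 (hall' i j)).inv h.loc hψ.two
      rw [inv_div] at h10
      exact h10

/-- **Lemma UNIT**: `PHI` is a unit at every place at which the point does not specialise to a
ramification point, and the half specialises to zero if the point does. -/
theorem PHI_unit [IsAlgClosed M] [IsAlgClosed F] (h : Plc A π φ ψ) (hφ : Good g φ)
    (hψ : Good g ψ) {P : Pt φ} (hP : P.y ≠ 0) {m : Multiset (Pt φ)} {E : M[X]} (hmc : m.card = g)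
    (hE : φ = E ^ 2 + (X - C P.x) * upol m ^ 2) (hEd : E.natDegree ≤ g)
    (h1 : ∀ W : Pt ψ, W.y = 0 → h.sp hφ hψ (cl P) ≠ cl W)
    (h2 : h.sp hφ hψ (cl P) = 0 → h.sp hφ hψ (clm m) = 0) :
    ∃ hA : PHI φ E (upol m) ∈ A, π ⟨PHI φ E (upol m), hA⟩ ≠ 0 := by
  classical
  obtain ⟨hprod, hcard⟩ := prod_roots_coe h.monic.1 (IsAlgClosed.splits φ) hφ
  obtain ⟨w, hw, hA, hv⟩ := PHI_unit_aux h hφ hψ hP hmc hE hEd h1 h2
    (α := fun i : φ.roots.toFinset => (i : M)) Subtype.val_injective hprod.symm hcard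
  have h3 : PHI φ E (upol m) = ∏ i : φ.roots.toFinset, ∏ j ∈ Finset.univ.erase i,
      rt (fun i : φ.roots.toFinset => (i : M)) E (upol m) i /
        (rt (fun i : φ.roots.toFinset => (i : M)) E (upol m) i +
          rt (fun i : φ.roots.toFinset => (i : M)) E (upol m) j) := by
    unfold PHI
    exact Phi_eq _ _
  have h4 : Hv A π (PHI φ E (upol m)) w := by
    rw [h3]
    exact ⟨hA, hv⟩
  obtain ⟨h5, h6⟩ := h4
  refine ⟨h5, ?_⟩
  rw [h6]
  exact hw

/-- the unit, in the form used in the main part -/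
theorem unit_val [IsAlgClosed M] [IsAlgClosed F] (h : Plc A π φ ψ) (hφ : Good g φ) (hψ : Good g ψ)
    {P : Pt φ} (hy : P.y ≠ 0) {m : Multiset (Pt φ)} {G : M[X]} (_hm : Reduced g m)
    (hc : m.card = g) (_hz : (2 : ℕ) • clm m = cl P)
    (hG : φ = G ^ 2 + (X - C P.x) * upol m ^ 2) (_hGP : G.eval P.x = -P.y)
    (hGd : G.natDegree ≤ g)
    (h1 : ∀ W : Pt ψ, W.y = 0 → h.sp hφ hψ (cl P) ≠ cl W)
    (h2 : h.sp hφ hψ (cl P) = 0 → h.sp hφ hψ (clm m) = 0) :
    ∃ hA : PHI φ G (upol m) ∈ A, π ⟨PHI φ G (upol m), hA⟩ ≠ 0 :=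
  PHI_unit h hφ hψ hy hc hG hGd h1 h2

/-- the unit is not constant, in the form used in the main part -/
theorem phi_const {M kb : Type*} [Field M] [Field kb] [IsAlgClosed M] [IsAlgClosed kb]
    [Algebra kb M] {g : ℕ} (hg : 1 ≤ g) {φ : M[X]} (hφ : Good g φ) (hm0 : φ.Monic)
    (hconst : ∀ a, φ.eval a = 0 → ∃ c : kb, algebraMap kb M c = a)
    {P : Pt φ} (hx : ∀ c : kb, P.x ≠ algebraMap kb M c)
    {m : Multiset (Pt φ)} {G : M[X]} (_hm : Reduced g m) (_hc : m.card = g)
    (_hz : (2 : ℕ) • clm m = cl P)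
    (hG : φ = G ^ 2 + (X - C P.x) * upol m ^ 2) (_hGP : G.eval P.x = -P.y)
    (_hGd : G.natDegree ≤ g) (c : kb) : PHI φ G (upol m) ≠ algebraMap kb M c := by
  -- the polynomial comes from `kb`
  have h1 : φ ∈ lifts (algebraMap kb M) := by
    rw [(IsAlgClosed.splits φ).eq_prod_roots_of_monic hm0]
    apply Subsemiring.multiset_prod_mem
    intro q hq
    rw [Multiset.mem_map] at hq
    obtain ⟨a, ha, rfl⟩ := hq
    rw [mem_roots hm0.ne_zero] at ha
    obtain ⟨b, rfl⟩ := hconst a ha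
    rw [mem_lifts]
    exact ⟨X - C b, by rw [Polynomial.map_sub, map_X, map_C]⟩
  obtain ⟨f, hf, -, hfm⟩ := lifts_and_natDegree_eq_and_monic h1 hm0
  -- the coordinate is transcendental
  have h2 : Transcendental kb P.x := by
    intro h3
    have h4 : (minpoly kb P.x).degree = 1 :=
      IsAlgClosed.degree_eq_one_of_irreducible kb (minpoly.irreducible h3.isIntegral)
    obtain ⟨b, hb⟩ := minpoly.mem_range_of_degree_eq_one kb P.x h4
    exact hx b hb.symm
  have h3 := PHI_const (k₀ := kb) (M := M) hg hfm (IsAlgClosed.splits f)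
    (by rw [hf]; exact hφ) h2 (F := G) (O := upol m) (by rw [hf]; exact hG) c
  rw [hf] at h3
  exact h3

end Pool.Agent.Lib.MP_2f3286_ag.HYP
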