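import Pool.Agent.Lib.MP_2f3286_ag.HYP.Kst
import Pool.Agent.Lib.MP_2f3286_ag.HYP.PLoc
import Pool.Agent.Lib.MP_2f3286_ag.HYP.UMain
import Pool.Agent.Lib.MP_2f3286_ag.HYP.Fin
import Pool.Agent.Lib.MP_2f3286_ag.HYP.GoodP

/-!
# Sections with an infinitely divisible point come from a rational place
-/

open Polynomial IsDedekindDomain NumberField
open Pool.Agent.Lib.MP_2f3286_bir (IsPlaceOf)

noncomputable section

namespace Pool.Agent.Lib.MP_2f3286_ag.HYP

universe u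

variable {k : Type u} [Field k] [NumberField k] {K : Type*} [Field K] [Algebra k K]
  {Ω : Type*} [Field Ω] [Algebra K Ω] [IsAlgClosure K Ω]
  [Algebra (AlgebraicClosure k) Ω] [Algebra k Ω]
  [IsScalarTower k K Ω] [IsScalarTower k (AlgebraicClosure k) Ω]

omit [NumberField k] in
/-- the roots of a polynomial over `k` are constants -/
theorem root_const {f : k[X]} (hf : f ≠ 0) {a : Ω} (ha : (f.map (algebraMap k Ω)).eval a = 0) :
    ∃ c : AlgebraicClosure k, algebraMap (AlgebraicClosure k) Ω c = a := by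
  have h1 : f.map (algebraMap k Ω) =
      (f.map (algebraMap k (AlgebraicClosure k))).map (algebraMap (AlgebraicClosure k) Ω) := by
    rw [Polynomial.map_map, ← IsScalarTower.algebraMap_eq]
  have h2 : a ∈ (f.map (algebraMap k Ω)).roots := by
    rw [mem_roots (Polynomial.map_ne_zero hf)]
    exact ha
  rw [h1, (IsAlgClosed.splits _).roots_map, Multiset.mem_map] at h2
  obtain ⟨c, -, hc⟩ := h2
  exact ⟨c, hc⟩

/-- **A section with a point which is infinitely divisible by two.** -/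
theorem of_chain (h1 : Fintype.card (InfinitePlace k) = 1) (htr : Algebra.trdeg k K = 1)
    (s : Gal(AlgebraicClosure k/k) →* Gal(Ω/K)) (hs : Continuous s)
    (hsec : ∀ σ a, s σ (algebraMap (AlgebraicClosure k) Ω a) =
      algebraMap (AlgebraicClosure k) Ω (σ a))
    {f : k[X]} (hf : f.Monic) (hfs : f.Separable) {g : ℕ} (hg : 1 ≤ g)
    (hfd : f.natDegree = 2 * g + 1)
    {P : Pt (f.map (algebraMap k Ω))} (hx : ∀ σ, s σ P.x = P.x) (hy : ∀ σ, s σ P.y = P.y)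
    (hxc : ∀ c : AlgebraicClosure k, P.x ≠ algebraMap _ Ω c)
    {z : ℕ → J (f.map (algebraMap k Ω))} (z0 : z 0 = cl P)
    (zs : ∀ n σ, sact f (s σ) (z n) = z n) (z2 : ∀ n, 2 • z (n + 1) = z n) :
    ∃ (A₀ : ValuationSubring Ω) (ψ₀ : A₀ →+* AlgebraicClosure k),
      IsPlaceOf s k (RingHom.id _) A₀ ψ₀ ∧
      (∀ (f : K) (h : algebraMap K Ω f ∈ A₀),
        ∃ a : k, ψ₀ ⟨algebraMap K Ω f, h⟩ = algebraMap k (AlgebraicClosure k) a) ∧
      ∀ (A₁ : ValuationSubring Ω) (ψ₁ : A₁ →+* AlgebraicClosure k),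
        IsPlaceOf s k (RingHom.id _) A₁ ψ₁ →
        A₁ = A₀ ∧ ∀ (a : A₁) (b : A₀), (a : Ω) = b → ψ₁ a = ψ₀ b := by
  classical
  have hcl : IsAlgClosed Ω := IsAlgClosure.isAlgClosed K
  have halg : Algebra.IsAlgebraic K Ω := IsAlgClosure.isAlgebraic
  have hφ : Good g (f.map (algebraMap k Ω)) := good_of hfs hfd _
  have hy0 : P.y ≠ 0 := by
    intro h0
    have h := P.eqn
    rw [h0, zero_pow two_ne_zero] at h
    obtain ⟨c, hc⟩ := root_const hf.ne_zero h.symm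
    exact hxc c hc.symm
  have hz1 : (2 : ℕ) • z 1 = cl P := by rw [z2 0, z0]
  obtain ⟨m, G, hm, hzm, hc, hG, hGP, hGd⟩ := half_form hφ (hf.map _) hz1
  rw [hzm] at hz1
  -- the automorphisms
  let Gs : Set (Ω →+* Ω) := Set.range fun σ : Gal(AlgebraicClosure k/k) => ((s σ : Ω ≃ₐ[K] Ω) : Ω →+* Ω)
  have hGs : ∀ σ ∈ Gs, (f.map (algebraMap k Ω)).map σ = f.map (algebraMap k Ω) := by
    rintro _ ⟨σ, rfl⟩
    exact map_fixΩ f (s σ)
  have zfix : ∀ (σ : Ω →+* Ω) (hσ : σ ∈ Gs) (n : ℕ), J.map σ (hGs σ hσ) (z n) = z n := by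
    rintro _ ⟨σ, rfl⟩ n
    exact zs n σ
  have zfix' : ∀ (σ : Ω →+* Ω) (hσ : σ ∈ Gs) (n : ℕ),
      J.map σ (hGs σ hσ) (z (n + 1)) = z (n + 1) := fun σ hσ n => zfix σ hσ (n + 1)
  -- the unit
  set T := PHI (f.map (algebraMap k Ω)) G (upol m) with hTdef
  have hTs : ∀ σ, s σ T = T := by
    intro σ
    have h3 := fixed_reduced hφ ((s σ : Ω ≃ₐ[K] Ω) : Ω →+* Ω) (map_fixΩ f (s σ)) hm (by
      rw [← hzm]; exact zs 1 σ)
    have h4 : (upol m).map ((s σ : Ω ≃ₐ[K] Ω) : Ω →+* Ω) = upol m := by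
      conv_rhs => rw [← h3]
      rw [upol, upol, Polynomial.map_multiset_prod, Multiset.map_map, Multiset.map_map]
      congr 1
      apply Multiset.map_congr rfl
      intro Q _
      simp only [Function.comp_apply, Polynomial.map_sub, map_X, map_C]
      rfl
    have h5 : G.map ((s σ : Ω ≃ₐ[K] Ω) : Ω →+* Ω) = G := by
      refine (half_unique hφ hy0 hm hm rfl ?_ hG ?_ hGP).2
      · have h6 := congrArg (Polynomial.map ((s σ : Ω ≃ₐ[K] Ω) : Ω →+* Ω)) hG
        rw [map_fixΩ f (s σ), Polynomial.map_add, Polynomial.map_mul, Polynomial.map_pow,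
          Polynomial.map_pow, h4, Polynomial.map_sub, map_X, map_C] at h6
        have h7 : ((s σ : Ω ≃ₐ[K] Ω) : Ω →+* Ω) P.x = P.x := hx σ
        rw [h7] at h6
        exact h6
      · have h7 : ((s σ : Ω ≃ₐ[K] Ω) : Ω →+* Ω) P.x = P.x := hx σ
        have h8 : ((s σ : Ω ≃ₐ[K] Ω) : Ω →+* Ω) P.y = P.y := hy σ
        have h9 := congrArg ((s σ : Ω ≃ₐ[K] Ω) : Ω →+* Ω) hGP
        rw [map_neg, h8, ← eval_map_apply, h7] at h9
        exact h9
    exact PHI_map ((s σ : Ω ≃ₐ[K] Ω) : Ω →+* Ω) (Polynomial.map_ne_zero hf.ne_zero)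
      (map_fixΩ f (s σ)) h5 h4
  -- the value at a place
  have key : ∀ {κ : Type u} [Field κ] [IsAlgClosed κ] {A : ValuationSubring Ω} {π : A →+* κ}
      {ψ : κ[X]} (h : Plc A π (f.map (algebraMap k Ω)) ψ) (hψ : Good g ψ),
      (∀ n, (2 : ℕ) • h.sp hφ hψ (z n) = 0 → h.sp hφ hψ (z n) = 0) →
      ∃ hA : T ∈ A, π ⟨T, hA⟩ ≠ 0 := by
    intro κ _ _ A π ψ h hψ hch
    refine unit_val h hφ hψ hy0 hm hc hz1 hG hGP hGd ?_ ?_
    · intro W hW h3
      refine cl_ne_zero hψ hg W ?_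
      rw [← h3, ← z0]
      apply hch 0
      rw [z0, h3]
      exact two_cl hψ hW
    · intro h3
      rw [← hzm]
      apply hch 1
      rw [← map_nsmul, z2 0, z0, h3]
  obtain ⟨S, hS⟩ := good_place s hf hfs hfd
  refine finish h1 htr s hs hsec T hTs
    (phi_const hg hφ (hf.map _) (fun a ha => root_const hf.ne_zero ha) hxc hm hc hz1 hG hGP hGd) S ?_
  intro v ι A φ hpl
  have hC : CharZero (v.adicCompletion k) :=
    charZero_of_injective_algebraMap (algebraMap k (v.adicCompletion k)).injective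
  have hGal : IsGalois (v.adicCompletion k) (AlgebraicClosure (v.adicCompletion k)) :=
    IsAlgClosure.isGalois _ _
  have hψ : Good g (f.map ((ι : AlgebraicClosure k →+*
      AlgebraicClosure (v.adicCompletion k)).comp (algebraMap k (AlgebraicClosure k)))) :=
    good_of hfs hfd _
  obtain ⟨hA, hA0⟩ := key (plc_of hf hpl) hψ (fun n => chain_local v (plc_of hf hpl) hφ hψ hGs
    (fun a ha => by
      obtain ⟨c, hc⟩ := value_mem hpl (hres_fin v ι) a.2 (fun σ => ha _ ⟨σ, rfl⟩)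
      exact ⟨c, hc.symm⟩) z2 zfix n)
  refine ⟨hA, hA0, fun hv x hxv => ?_⟩
  obtain ⟨κ, _, _, A', π', ψ, Sf, hP', hψ', hSf, hSv, hval⟩ := hS v hv ι A φ hpl
  obtain ⟨hA', hA0'⟩ := key hP' hψ' (fun n => chain_good hP' hφ hψ' hGs hSf
    (fun a ha => hSv a fun σ => ha _ ⟨σ, rfl⟩) z2 zfix n)
  obtain ⟨h3, x', h4, h5⟩ := hval ⟨T, hA'⟩ hA0' hTs
  have h6 : algebraMap (v.adicCompletion k) (AlgebraicClosure (v.adicCompletion k)) x' =
      algebraMap _ _ x := by
    rw [← h4, ← hxv]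
  rw [← (algebraMap (v.adicCompletion k) (AlgebraicClosure (v.adicCompletion k))).injective h6]
  exact h5

end Pool.Agent.Lib.MP_2f3286_ag.HYP
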