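import Pool.Agent.Lib.MP_2f3286_ag.HYP.Ded

/-!
# Points and maximal ideals, factorisation of ideals into points   (module Max, 60 minutes)

PROOF. `idl` is the kernel of a surjective homomorphism onto a field: maximal, not zero (contains `X - x_P`). `idl_injective`: `X - x_P` in `Q.idl`
gives `x_P = x_Q`, `y - y_P` gives `y_P = y_Q`. `exists_idl`: let `I` be maximal (or a nonzero prime). It contains a nonzero
polynomial (the norm `h * star h` of a nonzero `h` in `I`), which is a product of linear factors: `X - a` in `I` for some `a`; then `φ(a) = φ - (..)(X - a)` ..: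
`y ^ 2 - φ(a)` is in `I`, `= (y - b)(y + b)`, `b ^ 2 = φ(a)`, so `y - b` or `y + b` is in `I`; `I` contains the ideal of the point
(`Pt.idl_eq`), which is maximal. `exists_idm`: in a Dedekind domain every nonzero ideal is the product of its normalised factors
(`UniqueFactorizationMonoid.normalizedFactors`, `Ideal.prod_normalizedFactors_eq_self` or induction `UniqueFactorizationMonoid.induction_on_prime`), the factors are nonzero primes.
`idm_injective`: uniqueness of factorisation (`UniqueFactorizationMonoid.factors_unique`, or: `normalizedFactors (m.map idl).prod = m.map idl`) and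
`Multiset.map_injective`. `mem_of_idm_le`: `P.idl` is prime: `Multiset.prod_le..`/`Ideal.IsPrime.multiset_prod_le`.
`pow_le_count`: unique factorisation (`P.idl ^ n ∣ idm m`, `Multiset.le_count_iff_replicate_le`).
-/

open Polynomial

noncomputable section

namespace Pool.Agent.Lib.MP_2f3286_ag.HYP

variable {E : Type*} [Field E] {g : ℕ} {φ : E[X]}

theorem idl_isMaximal (P : Pt φ) : P.idl.IsMaximal := by
  apply RingHom.ker_isMaximal_of_surjective
  intro c
  refine ⟨⟨C c, 0⟩, ?_⟩
  rw [Pt.ev_apply]
  simp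

private theorem max_lin_mem (P : Pt φ) : (lin P.x : CR φ) ∈ P.idl := by
  rw [Pt.mem_idl, lin]
  simp

private theorem max_lin_ne (a : E) : (lin a : CR φ) ≠ 0 := by
  intro h
  have := congrArg QuadraticAlgebra.re h
  rw [lin, QuadraticAlgebra.re_zero] at this
  exact X_sub_C_ne_zero a this

theorem idl_ne_bot (P : Pt φ) : P.idl ≠ ⊥ := by
  intro h
  have h1 := max_lin_mem P
  rw [h] at h1
  exact max_lin_ne P.x ((Submodule.mem_bot _).mp h1)

theorem idl_injective : Function.Injective (Pt.idl : Pt φ → Ideal (CR φ)) := by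
  intro P Q h
  have h1 : (lin P.x : CR φ) ∈ Q.idl := h ▸ max_lin_mem P
  have h2 : (ymin (C P.y) : CR φ) ∈ P.idl := by
    rw [Pt.mem_idl, ymin]
    simp
  rw [h, Pt.mem_idl, ymin] at h2
  rw [Pt.mem_idl, lin] at h1
  simp only [eval_sub, eval_X, eval_C, eval_zero, zero_mul, add_zero, eval_neg, eval_one, one_mul] at h1 h2
  ext
  · exact (sub_eq_zero.mp h1).symm
  · linear_combination -h2

private theorem max_root_mem [IsAlgClosed E] {J : Ideal E[X]} (hJ : J.IsPrime) {p : E[X]} (hp : p ≠ 0)
    (hpJ : p ∈ J) : ∃ a : E, X - C a ∈ J := by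
  have h1 : p = C p.leadingCoeff * (p.roots.map fun a => X - C a).prod :=
    (IsAlgClosed.splits p).eq_prod_roots
  rw [h1] at hpJ
  rcases hJ.mem_or_mem hpJ with h2 | h2
  · exfalso
    apply hJ.ne_top
    apply Ideal.eq_top_of_isUnit_mem J h2
    exact Polynomial.isUnit_C.mpr (isUnit_iff_ne_zero.mpr (leadingCoeff_ne_zero.mpr hp))
  · have h3 : ∀ s : Multiset E, (s.map fun a => X - C a).prod ∈ J → ∃ a : E, X - C a ∈ J := by
      intro s
      induction s using Multiset.induction_on with
      | empty =>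
        intro h
        rw [Multiset.map_zero, Multiset.prod_zero] at h
        exact absurd ((Ideal.eq_top_iff_one J).mpr h) hJ.ne_top
      | cons a s ih =>
        intro h
        rw [Multiset.map_cons, Multiset.prod_cons] at h
        rcases hJ.mem_or_mem h with h4 | h4
        · exact ⟨a, h4⟩
        · exact ih h4
    exact h3 _ h2

theorem exists_idl [IsAlgClosed E] (hφ : Good g φ) {I : Ideal (CR φ)} (hI : I.IsPrime)
    (h0 : I ≠ ⊥) : ∃ P : Pt φ, I = P.idl := by
  obtain ⟨h, hh, hne⟩ := Submodule.exists_mem_ne_zero_of_ne_bot h0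
  have hn : algebraMap E[X] (CR φ) h.norm ∈ I := by
    rw [QuadraticAlgebra.algebraMap_norm_eq_mul_star]
    exact I.mul_mem_right _ hh
  have hJ : (I.comap (algebraMap E[X] (CR φ))).IsPrime := hI.comap _
  obtain ⟨a, ha⟩ := max_root_mem hJ (norm_ne_zero hφ hne) (Ideal.mem_comap.mpr hn)
  have hlin : (lin a : CR φ) ∈ I := ha
  obtain ⟨b, hb⟩ := IsAlgClosed.exists_pow_nat_eq (φ.eval a) (n := 2) (by norm_num)
  have hprod : (ymin (C b) : CR φ) * ymin (C (-b)) ∈ I := by
    obtain ⟨q, hq⟩ := X_sub_C_dvd_sub_C_eval (a := a) (p := φ)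
    have : (ymin (C b) : CR φ) * ymin (C (-b)) = lin a * ⟨q, 0⟩ := by
      ext1
      · rw [QuadraticAlgebra.re_mul, QuadraticAlgebra.re_mul]
        simp only [ymin, lin, map_neg, neg_neg, mul_one, mul_zero, add_zero]
        rw [← hq, ← hb, C_pow]
        ring
      · rw [QuadraticAlgebra.im_mul, QuadraticAlgebra.im_mul]
        simp only [ymin, lin, map_neg, neg_neg, mul_one, one_mul, mul_zero, zero_mul, add_zero]
        ring
    rw [this]
    exact I.mul_mem_right _ hlin
  have key : ∀ c : E, c ^ 2 = φ.eval a → (ymin (C c) : CR φ) ∈ I → ∃ P : Pt φ, I = P.idl := by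
    intro c hc hm
    refine ⟨⟨a, c, hc⟩, ?_⟩
    have hle : (⟨a, c, hc⟩ : Pt φ).idl ≤ I := by
      rw [Pt.idl_eq, Ideal.span_le]
      intro z hz
      rcases hz with rfl | hz
      · exact hlin
      · rw [Set.mem_singleton_iff.mp hz]
        exact hm
    exact ((idl_isMaximal _).eq_of_le hI.ne_top hle).symm
  rcases hI.mem_or_mem hprod with h1 | h1
  · exact key b hb h1
  · exact key (-b) (by rw [neg_sq, hb]) h1

theorem idm_ne_bot (hφ : Good g φ) (m : Multiset (Pt φ)) : idm m ≠ ⊥ := by
  have := isDomain hφ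
  induction m using Multiset.induction_on with
  | empty =>
    rw [idm_zero]
    exact one_ne_zero
  | cons P m ih =>
    rw [idm_cons]
    exact mul_ne_zero (idl_ne_bot P) ih

theorem exists_idm [IsAlgClosed E] (hφ : Good g φ) {I : Ideal (CR φ)} (h0 : I ≠ ⊥) :
    ∃ m : Multiset (Pt φ), I = idm m := by
  have := isDedekind hφ
  revert h0
  refine UniqueFactorizationMonoid.induction_on_prime I ?_ ?_ ?_
  · intro h
    exact absurd rfl h
  · intro J hJ _
    refine ⟨0, ?_⟩
    rw [idm_zero, Ideal.one_eq_top]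
    exact Ideal.isUnit_iff.mp hJ
  · intro J p hJ hp ih _
    obtain ⟨m, hm⟩ := ih hJ
    obtain ⟨P, hP⟩ := exists_idl hφ (Ideal.isPrime_of_prime hp) hp.ne_zero
    exact ⟨P ::ₘ m, by rw [idm_cons, hm, hP]⟩

private theorem max_factors [IsDedekindDomain (CR φ)] (m : Multiset (Pt φ)) :
    UniqueFactorizationMonoid.normalizedFactors (idm m) = m.map Pt.idl := by
  apply UniqueFactorizationMonoid.normalizedFactors_prod_of_prime
  intro p hp
  obtain ⟨P, _, rfl⟩ := Multiset.mem_map.mp hp
  exact Ideal.prime_of_isPrime (idl_ne_bot P) (idl_isMaximal P).isPrime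

theorem idm_injective [IsAlgClosed E] (hφ : Good g φ) {m m' : Multiset (Pt φ)}
    (h : idm m = idm m') : m = m' := by
  have := isDedekind hφ
  apply Multiset.map_injective idl_injective
  rw [← max_factors m, ← max_factors m', h]

theorem idm_mul_left_cancel [IsAlgClosed E] (hφ : Good g φ) (m : Multiset (Pt φ))
    {I I' : Ideal (CR φ)} (h : idm m * I = idm m * I') : I = I' := by
  have := isDedekind hφ
  exact mul_left_cancel₀ (idm_ne_bot hφ m) h

/-- divisibility is inclusion -/
theorem idm_le_iff [IsAlgClosed E] (hφ : Good g φ) {m m' : Multiset (Pt φ)} :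
    idm m ≤ idm m' ↔ m' ≤ m := by
  have := isDedekind hφ
  constructor
  · intro h
    obtain ⟨K, hK⟩ := Ideal.dvd_iff_le.mpr h
    have hK0 : K ≠ ⊥ := by
      intro h1
      apply idm_ne_bot hφ m
      rw [hK, h1]
      exact mul_zero _
    obtain ⟨k, hk⟩ := exists_idm hφ hK0
    rw [hk, ← idm_add] at hK
    rw [idm_injective hφ hK]
    exact Multiset.le_add_right _ _
  · intro h
    obtain ⟨k, rfl⟩ := Multiset.le_iff_exists_add.mp h
    rw [idm_add]
    exact Ideal.mul_le_left (I := idm m') (J := idm k)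

open scoped Classical in
theorem le_count_iff [IsAlgClosed E] (hφ : Good g φ) {m : Multiset (Pt φ)} {h : CR φ}
    (hm : Ideal.span {h} = idm m) (P : Pt φ) (n : ℕ) : n ≤ m.count P ↔ h ∈ P.idl ^ n := by
  have h1 : P.idl ^ n = idm (Multiset.replicate n P) := by
    rw [idm, Multiset.map_replicate, Multiset.prod_replicate]
  rw [h1, Multiset.le_count_iff_replicate_le, ← idm_le_iff hφ, ← hm,
    Ideal.span_singleton_le_iff_mem]

/-- a function is in the ideal of a divisor if it is at each point, with multiplicity -/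
theorem mem_idm_iff [IsAlgClosed E] (hφ : Good g φ) {m : Multiset (Pt φ)} {h : CR φ} (h0 : h ≠ 0) :
    h ∈ idm m ↔ ∃ m', Ideal.span {h} = idm (m + m') := by
  constructor
  · intro h1
    have h2 : Ideal.span {h} ≠ ⊥ := by
      intro h3
      exact h0 (Ideal.span_singleton_eq_bot.mp h3)
    obtain ⟨k, hk⟩ := exists_idm hφ h2
    have h3 : m ≤ k := by
      rw [← idm_le_iff hφ, ← hk, Ideal.span_singleton_le_iff_mem]
      exact h1
    obtain ⟨m', rfl⟩ := Multiset.le_iff_exists_add.mp h3
    exact ⟨m', hk⟩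
  · rintro ⟨m', hm'⟩
    rw [← Ideal.span_singleton_le_iff_mem, hm', idm_add]
    exact Ideal.mul_le_left (I := idm m) (J := idm m')

end Pool.Agent.Lib.MP_2f3286_ag.HYP
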