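import Pool.Agent.Lib.MP_2f3286_ag.HYP.Red
import Pool.Agent.Lib.MP_2f3286_ag.HYP.Frm

/-!
# Mumford's representation, existence of reduced divisors   (module Mum, 90 minutes)

PROOF. `exists_mum` by induction on `m` (semi-reduced is inherited by submultisets, `Semi.mono`): given `V` for `m` and a new point `P = (x, y)`, `U = upol m`, `V ^ 2 - φ = U G`. If `U(x) ≠ 0`:
`V' = V + c U` with `c = (y - V(x)) / U(x)`; `V' ^ 2 - φ = U (G + 2 c V + c ^ 2 U)` vanishes at `x` and `U(x) ≠ 0`, so the second factor vanishes at `x`. If `U(x) = 0`: a point of `m` has the same `x`, it is `P`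
(`Semi.eq_of_x`), `V(x) = y`, `y ≠ 0` (`Semi.y_ne_zero`): `c = - G(x) / (2 y)`. The ideals: `(U (X - x), y - V') = (U, y - V') (X - x, y - V')` by `span_mul_span` (`z = y - V'`, `z' = y + V'`,
`z z' = φ - V' ^ 2` divisible by `U (X - x)`; if `U(x) ≠ 0`, `U` and `X - x` are coprime; otherwise `z' - z = 2 V'`, `V'(x) = y ≠ 0`, so `X - x`, `2 V'` are coprime); `(U, y - V') = (U, y - V)`
and `(X - x, y - V') = P.idl` (`Pt.idl_eq`).
`exists_reduced`: strong induction on the number of points of `m` (`exists_clm`, `exists_semi`): if `m` is semi-reduced with `d = #m > g` points: `y - V` is in `(U, y - V) = idm m`, so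
`(y - V) = idm (m + m'')` (`mem_idm_iff`), `#(m + m'') = deg (V ^ 2 - φ) = max (2 deg V) (2 g + 1)` (`norm_deg`, `norm_natDegree`), `deg V < d`, so `#m'' < d`, and `clm m = - clm m'' = clm (m''.map inv)`.
-/

open Polynomial

noncomputable section

namespace Pool.Agent.Lib.MP_2f3286_ag.HYP

variable {E : Type*} [Field E] {g : ℕ} {φ : E[X]}

/-- the polynomial of the `x`-coordinates -/
def upol (m : Multiset (Pt φ)) : E[X] := (m.map fun P => X - C P.x).prod

theorem upol_monic (m : Multiset (Pt φ)) : (upol m).Monic :=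
  monic_multiset_prod_of_monic _ _ fun P _ => monic_X_sub_C P.x

theorem upol_natDegree (m : Multiset (Pt φ)) : (upol m).natDegree = m.card := by
  have h : upol m = ((m.map Pt.x).map fun a => X - C a).prod := by
    rw [upol, Multiset.map_map]
    rfl
  rw [h, natDegree_multiset_prod_X_sub_C_eq_card, Multiset.card_map]

theorem upol_cons (P : Pt φ) (m : Multiset (Pt φ)) : upol (P ::ₘ m) = (X - C P.x) * upol m := by
  rw [upol, Multiset.map_cons, Multiset.prod_cons, upol]

theorem upol_eval (m : Multiset (Pt φ)) (a : E) : (upol m).eval a = 0 ↔ ∃ P ∈ m, P.x = a := by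
  induction m using Multiset.induction_on with
  | empty =>
    rw [upol, Multiset.map_zero, Multiset.prod_zero, eval_one]
    simp
  | cons P m ih =>
    rw [upol_cons, eval_mul, mul_eq_zero, ih, eval_sub, eval_X, eval_C, sub_eq_zero]
    constructor
    · rintro (h | ⟨Q, hQ, h⟩)
      · exact ⟨P, Multiset.mem_cons_self P m, h.symm⟩
      · exact ⟨Q, Multiset.mem_cons_of_mem hQ, h⟩
    · rintro ⟨Q, hQ, h⟩
      rcases Multiset.mem_cons.1 hQ with e | e
      · left
        rw [← h, e]
      · exact Or.inr ⟨Q, e, h⟩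

/-- the function `a(x)` -/
private def cst (a : E[X]) : CR φ := ⟨a, 0⟩

private theorem cst_mul (a b : E[X]) : (cst (a * b) : CR φ) = cst a * cst b := by
  ext1
  · rw [QuadraticAlgebra.re_mul]
    simp [cst]
  · rw [QuadraticAlgebra.im_mul]
    simp [cst]

private theorem cst_add (a b : E[X]) : (cst (a + b) : CR φ) = cst a + cst b := by
  ext1
  · rw [QuadraticAlgebra.re_add]
    simp [cst]
  · rw [QuadraticAlgebra.im_add]
    simp [cst]

private theorem cst_one : (cst 1 : CR φ) = 1 := by
  ext1
  · rw [QuadraticAlgebra.re_one]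
    rfl
  · rw [QuadraticAlgebra.im_one]
    rfl

/-- `(y - V)(y + V) = φ - V ^ 2` -/
private theorem mum_mul (V : E[X]) : (ymin V : CR φ) * ymin (-V) = cst (φ - V ^ 2) := by
  ext1
  · rw [QuadraticAlgebra.re_mul]
    simp only [ymin, cst]
    ring
  · rw [QuadraticAlgebra.im_mul]
    simp only [ymin, cst]
    ring

private theorem mum_ymin (V W : E[X]) : (ymin V : CR φ) = ymin (V + W) + cst W := by
  ext1
  · rw [QuadraticAlgebra.re_add]
    simp only [ymin, cst]
    ring
  · rw [QuadraticAlgebra.im_add]
    simp only [ymin, cst]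
    ring

private theorem mum_diff (V : E[X]) : (ymin (-V) : CR φ) - ymin V = cst (2 * V) := by
  ext1
  · rw [QuadraticAlgebra.re_sub]
    simp only [ymin, cst]
    ring
  · rw [QuadraticAlgebra.im_sub]
    simp only [ymin, cst]
    ring

private theorem mum_span (U V W : E[X]) (h : U ∣ W) :
    Ideal.span {(cst U : CR φ), ymin V} = Ideal.span {(cst U : CR φ), ymin (V + W)} := by
  obtain ⟨T, rfl⟩ := h
  rw [mum_ymin V (U * T), cst_mul, mul_comm (cst U) (cst T), Ideal.span_pair_comm,
    Ideal.span_pair_add_mul_right, Ideal.span_pair_comm]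

/-- choice of the coefficient -/
private theorem mum_coef (hφ : Good g φ) {m : Multiset (Pt φ)} {P : Pt φ} (hm : Semi (P ::ₘ m))
    {V G : E[X]} (hG : V ^ 2 - φ = upol m * G) (hV : ∀ Q ∈ m, V.eval Q.x = Q.y) :
    ∃ c : E, (V + C c * upol m).eval P.x = P.y ∧
      (G + 2 * C c * V + C c ^ 2 * upol m).eval P.x = 0 ∧
      ((upol m).eval P.x ≠ 0 ∨ P.y ≠ 0) := by
  by_cases hU : (upol m).eval P.x = 0
  · obtain ⟨Q, hQ, hx⟩ := (upol_eval m P.x).1 hU
    have hQP : Q = P := hm.eq_of_x (Multiset.mem_cons_of_mem hQ) (Multiset.mem_cons_self P m) hx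
    rw [hQP] at hQ
    have hy : P.y ≠ 0 := by
      apply hm.y_ne_zero
      exact (Multiset.cons_le_cons_iff P).2 (Multiset.singleton_le.2 hQ)
    have h2 := hφ.two
    refine ⟨-G.eval P.x / (2 * P.y), ?_, ?_, Or.inr hy⟩
    · rw [eval_add, eval_mul, hU, mul_zero, add_zero, hV P hQ]
    · simp only [eval_add, eval_mul, eval_pow, eval_C, hU, hV P hQ, mul_zero, add_zero, eval_ofNat]
      field_simp
      ring
  · refine ⟨(P.y - V.eval P.x) / (upol m).eval P.x, ?_, ?_, Or.inl hU⟩
    · rw [eval_add, eval_mul, eval_C, div_mul_cancel₀ _ hU]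
      ring
    · set c := (P.y - V.eval P.x) / (upol m).eval P.x with hc
      have h1 : V.eval P.x + c * (upol m).eval P.x = P.y := by
        rw [hc, div_mul_cancel₀ _ hU]
        ring
      have h3 := congrArg (eval P.x) hG
      simp only [eval_sub, eval_pow, eval_mul] at h3
      have h4 := P.eqn
      apply mul_left_cancel₀ hU
      simp only [eval_add, eval_mul, eval_pow, eval_C, eval_ofNat, mul_zero]
      rw [← h1] at h4
      linear_combination h4 - h3

/-- the stronger statement for the induction -/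
private theorem mum_ind (hφ : Good g φ) {m : Multiset (Pt φ)} (hm : Semi m) :
    ∃ V : E[X], V.natDegree ≤ m.card - 1 ∧ upol m ∣ V ^ 2 - φ ∧ (∀ P ∈ m, V.eval P.x = P.y) ∧
      idm m = Ideal.span {(cst (upol m) : CR φ), ymin V} := by
  induction m using Multiset.induction_on with
  | empty =>
    refine ⟨0, by simp, ?_, fun P hP => absurd hP (Multiset.notMem_zero P), ?_⟩
    · rw [upol, Multiset.map_zero, Multiset.prod_zero]
      exact one_dvd _
    · rw [upol, Multiset.map_zero, Multiset.prod_zero, idm_zero, cst_one, Ideal.one_eq_top]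
      symm
      rw [Ideal.eq_top_iff_one]
      exact Ideal.subset_span (Set.mem_insert _ _)
  | cons P m ih =>
    obtain ⟨V, hdeg, ⟨G, hG⟩, hV, hI⟩ := ih (hm.mono (Multiset.le_cons_self m P))
    obtain ⟨c, hc1, hc2, hc3⟩ := mum_coef hφ hm hG hV
    set U := upol m with hU
    set V' := V + C c * U with hV'
    have hdvd : (X - C P.x) ∣ G + 2 * C c * V + C c ^ 2 * U := dvd_iff_isRoot.2 hc2
    obtain ⟨T, hT⟩ := hdvd
    have hmain : V' ^ 2 - φ = (X - C P.x) * U * T := by
      rw [hV']
      linear_combination hG + U * hT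
    have hroot : (X - C P.x) ∣ V' - C P.y := by
      rw [dvd_iff_isRoot, IsRoot, eval_sub, eval_C, hc1, sub_self]
    refine ⟨V', ?_, ?_, ?_, ?_⟩
    · rw [Multiset.card_cons, Nat.add_sub_cancel, hV']
      refine (natDegree_add_le _ _).trans (max_le (hdeg.trans (Nat.sub_le _ _)) ?_)
      refine (natDegree_C_mul_le _ _).trans ?_
      rw [hU, upol_natDegree]
    · rw [upol_cons, ← hU, hmain]
      exact Dvd.intro _ rfl
    · intro Q hQ
      rcases Multiset.mem_cons.1 hQ with e | e
      · rw [e]
        exact hc1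
      · have h0 : U.eval Q.x = 0 := (upol_eval m Q.x).2 ⟨Q, e, rfl⟩
        rw [hV', eval_add, eval_mul, h0, mul_zero, add_zero, hV Q e]
    · rw [idm_cons, hI, upol_cons, ← hU, cst_mul]
      have e1 : Ideal.span {(cst U : CR φ), ymin V} = Ideal.span {(cst U : CR φ), ymin V'} :=
        mum_span U V _ (Dvd.intro_left _ rfl)
      have e2 : P.idl = Ideal.span {(cst (X - C P.x) : CR φ), ymin V'} := by
        rw [Pt.idl_eq]
        have h1 := mum_span (φ := φ) (X - C P.x) (C P.y) (V' - C P.y) hroot
        rw [add_sub_cancel] at h1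
        exact h1
      rw [e1, e2]
      symm
      apply span_mul_span (z' := ymin (-V'))
      · rw [← cst_mul, mum_mul]
        refine ⟨cst (-T), ?_⟩
        rw [← cst_mul]
        congr 1
        linear_combination -hmain
      · rw [Ideal.eq_top_iff_one]
        have hs1 : (cst (X - C P.x) : CR φ) ∈
            Ideal.span {(cst (X - C P.x) : CR φ), cst U, ymin V', ymin (-V')} :=
          Ideal.subset_span (by simp)
        have hs2 : (cst U : CR φ) ∈
            Ideal.span {(cst (X - C P.x) : CR φ), cst U, ymin V', ymin (-V')} :=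
          Ideal.subset_span (by simp)
        have hs3 : (ymin V' : CR φ) ∈
            Ideal.span {(cst (X - C P.x) : CR φ), cst U, ymin V', ymin (-V')} :=
          Ideal.subset_span (by simp)
        have hs4 : (ymin (-V') : CR φ) ∈
            Ideal.span {(cst (X - C P.x) : CR φ), cst U, ymin V', ymin (-V')} :=
          Ideal.subset_span (by simp)
        have hcop : ∀ Q : E[X], Q.eval P.x ≠ 0 → (cst Q : CR φ) ∈
            Ideal.span {(cst (X - C P.x) : CR φ), cst U, ymin V', ymin (-V')} →
            (1 : CR φ) ∈ Ideal.span {(cst (X - C P.x) : CR φ), cst U, ymin V', ymin (-V')} := by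
          intro Q hQ hQm
          have h1 : IsCoprime (X - C P.x) Q := by
            rw [(irreducible_X_sub_C P.x).coprime_iff_not_dvd, dvd_iff_isRoot]
            exact hQ
          obtain ⟨a, b, hab⟩ := h1
          have h3 : (1 : CR φ) = cst a * cst (X - C P.x) + cst b * cst Q := by
            rw [← cst_mul, ← cst_mul, ← cst_add, hab, cst_one]
          rw [h3]
          exact Ideal.add_mem _ (Ideal.mul_mem_left _ _ hs1) (Ideal.mul_mem_left _ _ hQm)
        rcases hc3 with h | h
        · exact hcop U h hs2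
        · apply hcop (2 * V')
          · rw [eval_mul, hc1, eval_ofNat]
            exact mul_ne_zero hφ.two h
          · rw [← mum_diff]
            exact Ideal.sub_mem _ hs4 hs3

theorem exists_mum [IsAlgClosed E] (hφ : Good g φ) {m : Multiset (Pt φ)} (hm : Semi m) :
    ∃ V : E[X], (m ≠ 0 → V.natDegree < m.card) ∧ upol m ∣ V ^ 2 - φ ∧ (∀ P ∈ m, V.eval P.x = P.y) ∧
      idm m = Ideal.span {(⟨upol m, 0⟩ : CR φ), ymin V} := by
  obtain ⟨V, h1, h2, h3, h4⟩ := mum_ind hφ hm
  refine ⟨V, fun hne => ?_, h2, h3, h4⟩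
  have : 0 < m.card := Multiset.card_pos.2 hne
  omega

private theorem mum_red [IsAlgClosed E] (hφ : Good g φ) (n : ℕ) : ∀ m : Multiset (Pt φ), Semi m →
    m.card = n → ∃ m' : Multiset (Pt φ), Reduced g m' ∧ clm m = clm m' := by
  induction n using Nat.strong_induction_on with
  | _ n ih =>
    intro m hm hn
    by_cases hg : m.card ≤ g
    · exact ⟨m, ⟨hg, hm⟩, rfl⟩
    · have hne : m ≠ 0 := by
        rintro rfl
        exact hg (by simp)
      obtain ⟨V, h1, -, -, h4⟩ := exists_mum hφ hm
      have h1' := h1 hne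
      have h0 : (ymin V : CR φ) ≠ 0 := by
        intro h
        have := congrArg QuadraticAlgebra.im h
        rw [QuadraticAlgebra.im_zero] at this
        exact one_ne_zero this
      have hmem : (ymin V : CR φ) ∈ idm m := by
        rw [h4]
        exact Ideal.subset_span (by simp)
      obtain ⟨m2, hm2⟩ := (mem_idm_iff hφ h0).1 hmem
      have hd := norm_deg hφ h0 hm2
      have him : (ymin V : CR φ).im = 1 := rfl
      have hre : (ymin V : CR φ).re = -V := rfl
      rw [norm_natDegree hφ _ (by rw [him]; exact one_ne_zero), him, hre, natDegree_neg,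
        natDegree_one, Multiset.card_add] at hd
      have hlt : m2.card < m.card := by
        rcases le_total (2 * V.natDegree) (2 * 0 + (2 * g + 1)) with h | h
        · rw [max_eq_right h] at hd
          omega
        · rw [max_eq_left h] at hd
          omega
      have hcl : clm m = clm (m2.map Pt.inv) := by
        have h5 := clm_of_span h0 hm2
        rw [clm_add] at h5
        rw [clm_inv hφ]
        exact eq_neg_of_add_eq_zero_left h5
      obtain ⟨m3, hs3, hc3, he3⟩ := exists_semi hφ (m2.map Pt.inv)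
      rw [Multiset.card_map] at hc3
      obtain ⟨m4, hr4, he4⟩ := ih m3.card (by omega) m3 hs3 rfl
      exact ⟨m4, hr4, by rw [hcl, he3, he4]⟩

/-- **existence of reduced divisors** -/
theorem exists_reduced [IsAlgClosed E] (hφ : Good g φ) (z : J φ) :
    ∃ m : Multiset (Pt φ), Reduced g m ∧ z = clm m := by
  obtain ⟨m, rfl⟩ := exists_clm hφ z
  obtain ⟨m1, h1, -, h2⟩ := exists_semi hφ m
  obtain ⟨m2, h3, h4⟩ := mum_red hφ m1.card m1 h1 rfl
  exact ⟨m2, h3, h2.trans h4⟩

end Pool.Agent.Lib.MP_2f3286_ag.HYP
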