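import Pool.Agent.Lib.MP_2f3286_ag.HYP.Max

/-!
# Conjugate points, the norm of a function, principal divisors   (module Nrm, 75 minutes)

PROOF. `idl_mul_inv`: `⊆`: `P.idl = (X - x, y - c)`, `P.inv.idl = (X - x, y + c)` (`Pt.idl_eq`, `c = y_P`); the products of generators are divisible by `X - x`
because `(y - c)(y + c) = φ - c ^ 2 = φ - φ(x)`. `⊇`: by factorisation into maximal ideals: `(X - x)` is a product of points `Q` with `x_Q = x`, so of `P`, `P.inv`;
or directly: if `c ≠ 0`, `(y + c) - (y - c) = 2 c` is a unit, so `(X - x) = ((X-x)(y + c) - (X-x)(y - c)) / (2c)` is in the product; if `c = 0`, `φ = (X - x) ψ` with `ψ(x) ≠ 0`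
(separable): `(X - x) ^ 2` and `y ^ 2 = (X - x) ψ` generate `X - x`. `star_idm`: the ideal of `m.map inv` is the image of the ideal of `m` under `star`
(a ring automorphism: `star_mem_idl`; ideals: `Ideal.map`/`comap`, or span argument with `idl_eq`).
`norm_fac`: `span {h} = idm m`, so `span {star h} = idm (m.map inv)`, `span {h * star h} = ∏ (X - x_P)`: `algebraMap (norm h)` and `algebraMap (∏ (X - C x_P))` generate the same ideal,
so they divide each other in `E[X]` (Mathlib `QuadraticAlgebra.algebraMap_dvd_iff_dvd`): associated, the unit is a constant.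
`cl_inv`: `clm_of_span` for `X - x_P`. `clm_eq_zero_iff`: `←` is `clm_of_span`. `→`: the set of `D` of the form `m₁ - m₂` (differences of sums of `single P 1`) with `(h₁) = idm m₁`,
`(h₂) = idm m₂`, `h₁, h₂ ≠ 0` is a subgroup, contains the generators; so `m = m₁ - m₂` in `Pt φ →₀ ℤ`, `m + m₂ = m₁` as multisets
(`Multiset.toFinsupp`, counts); `(h₁) = idm m * (h₂) ⊆ (h₂)`, `h₁ = h₂ h`, cancel `(h₂)` (`Ideal.span_singleton_mul_right_injective` / `idm_mul_left_cancel`).
-/

open Polynomial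

noncomputable section

namespace Pool.Agent.Lib.MP_2f3286_ag.HYP

variable {E : Type*} [Field E] {g : ℕ} {φ : E[X]}

theorem Pt.inv_inv (P : Pt φ) : P.inv.inv = P := by
  ext
  · rfl
  · exact neg_neg _

theorem algMap_lin (a : E) : algebraMap E[X] (CR φ) (X - C a) = lin a := rfl

theorem algMap_re (p : E[X]) : (algebraMap E[X] (CR φ) p).re = p := rfl

theorem algMap_im (p : E[X]) : (algebraMap E[X] (CR φ) p).im = 0 := rfl

theorem ymin_mul (b : E) (q : E[X]) (hq : φ - C (b ^ 2) = q) :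
    (ymin (C b) : CR φ) * ymin (C (-b)) = algebraMap E[X] (CR φ) q := by
  have h1 : C (b ^ 2) = C b * C b := by rw [← C_mul, sq]
  apply QuadraticAlgebra.ext
  · rw [QuadraticAlgebra.re_mul, algMap_re, ← hq, h1]
    simp only [ymin, C_neg]
    ring
  · rw [QuadraticAlgebra.im_mul, algMap_im]
    simp only [ymin, C_neg]
    ring

theorem lin_of_ne (P : Pt φ) (h2 : (2 : E) ≠ 0) (hy : P.y ≠ 0) :
    (lin P.x : CR φ) = algebraMap E[X] (CR φ) (C (2 * P.y)⁻¹) *
      (lin P.x * ymin (C (-P.y)) - ymin (C P.y) * lin P.x) := by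
  have h3 : C (2 * P.y)⁻¹ * C (2 * P.y) = (1 : E[X]) := by
    rw [← C_mul, inv_mul_cancel₀ (mul_ne_zero h2 hy), C_1]
  have h4 : C (2 * P.y) = 2 * C P.y := by rw [C_mul]; rfl
  rw [h4] at h3
  have h5 : (lin P.x * ymin (C (-P.y)) - ymin (C P.y) * lin P.x : CR φ) =
      algebraMap E[X] (CR φ) (2 * C P.y) * lin P.x := by
    apply QuadraticAlgebra.ext
    · rw [QuadraticAlgebra.re_sub, QuadraticAlgebra.re_mul, QuadraticAlgebra.re_mul,
        QuadraticAlgebra.re_mul, algMap_re, algMap_im]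
      simp only [ymin, lin, C_neg]
      ring
    · rw [QuadraticAlgebra.im_sub, QuadraticAlgebra.im_mul, QuadraticAlgebra.im_mul,
        QuadraticAlgebra.im_mul, algMap_re, algMap_im]
      simp only [ymin, lin, C_neg]
      ring
  rw [h5, ← mul_assoc, ← map_mul, h3, map_one, one_mul]

theorem lin_of_eq (hφ : Good g φ) (P : Pt φ) (hy : P.y = 0) :
    ∃ u v : CR φ, lin P.x = u * (ymin (C P.y) * ymin (C (-P.y))) + v * (lin P.x * lin P.x) := by
  have he : φ.eval P.x = 0 := by rw [← P.eqn, hy]; ring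
  obtain ⟨ψ, hψ⟩ := dvd_iff_isRoot.mpr he
  have hd : (derivative φ).eval P.x = ψ.eval P.x := by
    have h1 : derivative φ = derivative ((X - C P.x) * ψ) := congrArg derivative hψ
    rw [h1, derivative_mul, eval_add, eval_mul, eval_mul]
    simp
  have hn : ψ.eval P.x ≠ 0 := by
    intro h0
    obtain ⟨a, b, hab⟩ := hφ.sep
    have := congrArg (eval P.x) hab
    rw [eval_add, eval_mul, eval_mul, he, hd, h0, eval_one] at this
    simp at this
  obtain ⟨χ, hχ⟩ := X_sub_C_dvd_sub_C_eval (a := P.x) (p := ψ)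
  have h3 : C (ψ.eval P.x)⁻¹ * C (ψ.eval P.x) = (1 : E[X]) := by
    rw [← C_mul, inv_mul_cancel₀ hn, C_1]
  refine ⟨algebraMap E[X] (CR φ) (C (ψ.eval P.x)⁻¹),
    -(algebraMap E[X] (CR φ) (C (ψ.eval P.x)⁻¹ * χ)), ?_⟩
  rw [ymin_mul P.y φ (by rw [hy]; simp), ← algMap_lin, ← map_mul, ← map_mul, ← map_neg,
    ← map_mul, ← map_add]
  congr 1
  have h4 : ψ = C (ψ.eval P.x) + (X - C P.x) * χ := by rw [← hχ]; ring
  have h5 : φ = (X - C P.x) * (C (ψ.eval P.x) + (X - C P.x) * χ) := by rw [← h4, ← hψ]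
  linear_combination (-(X - C P.x)) * h3 - C (ψ.eval P.x)⁻¹ * h5

theorem idl_mul_inv (hφ : Good g φ) (P : Pt φ) :
    P.idl * P.inv.idl = Ideal.span {(lin P.x : CR φ)} := by
  have hx : P.inv.x = P.x := rfl
  have hy : P.inv.y = -P.y := rfl
  rw [P.idl_eq, P.inv.idl_eq, hx, hy, Ideal.span_pair_mul_span_pair]
  apply le_antisymm
  · rw [Ideal.span_le]
    rintro z hz
    simp only [Set.mem_insert_iff, Set.mem_singleton_iff] at hz
    rw [SetLike.mem_coe, Ideal.mem_span_singleton]
    rcases hz with rfl | rfl | rfl | rfl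
    · exact dvd_mul_right _ _
    · exact dvd_mul_right _ _
    · exact dvd_mul_left _ _
    · obtain ⟨q, hq⟩ := X_sub_C_dvd_sub_C_eval (a := P.x) (p := φ)
      rw [ymin_mul P.y ((X - C P.x) * q) (by rw [P.eqn]; exact hq), map_mul, algMap_lin]
      exact dvd_mul_right _ _
  · rw [Ideal.span_singleton_le_iff_mem]
    have m1 : (lin P.x * lin P.x : CR φ) ∈ Ideal.span {(lin P.x * lin P.x : CR φ),
        lin P.x * ymin (C (-P.y)), ymin (C P.y) * lin P.x, ymin (C P.y) * ymin (C (-P.y))} :=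
      Ideal.subset_span (by simp)
    have m2 : (lin P.x * ymin (C (-P.y)) : CR φ) ∈ Ideal.span {(lin P.x * lin P.x : CR φ),
        lin P.x * ymin (C (-P.y)), ymin (C P.y) * lin P.x, ymin (C P.y) * ymin (C (-P.y))} :=
      Ideal.subset_span (by simp)
    have m3 : (ymin (C P.y) * lin P.x : CR φ) ∈ Ideal.span {(lin P.x * lin P.x : CR φ),
        lin P.x * ymin (C (-P.y)), ymin (C P.y) * lin P.x, ymin (C P.y) * ymin (C (-P.y))} :=
      Ideal.subset_span (by simp)
    have m4 : (ymin (C P.y) * ymin (C (-P.y)) : CR φ) ∈ Ideal.span {(lin P.x * lin P.x : CR φ),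
        lin P.x * ymin (C (-P.y)), ymin (C P.y) * lin P.x, ymin (C P.y) * ymin (C (-P.y))} :=
      Ideal.subset_span (by simp)
    by_cases h0 : P.y = 0
    · obtain ⟨u, v, huv⟩ := lin_of_eq hφ P h0
      have key : u * (ymin (C P.y) * ymin (C (-P.y))) + v * (lin P.x * lin P.x) ∈
          Ideal.span {(lin P.x * lin P.x : CR φ),
        lin P.x * ymin (C (-P.y)), ymin (C P.y) * lin P.x, ymin (C P.y) * ymin (C (-P.y))} :=
        Ideal.add_mem _ (Ideal.mul_mem_left _ _ m4) (Ideal.mul_mem_left _ _ m1)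
      rwa [← huv] at key
    · have key : algebraMap E[X] (CR φ) (C (2 * P.y)⁻¹) *
          (lin P.x * ymin (C (-P.y)) - ymin (C P.y) * lin P.x) ∈
          Ideal.span {(lin P.x * lin P.x : CR φ),
        lin P.x * ymin (C (-P.y)), ymin (C P.y) * lin P.x, ymin (C P.y) * ymin (C (-P.y))} :=
        Ideal.mul_mem_left _ _ (Ideal.sub_mem _ m2 m3)
      rwa [← lin_of_ne P hφ.two h0] at key

theorem idl_map_star (P : Pt φ) : Ideal.map (starRingEnd (CR φ)) P.idl = P.inv.idl := by
  apply le_antisymm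
  · rw [Ideal.map_le_iff_le_comap]
    intro h hh
    rw [Ideal.mem_comap, starRingEnd_apply, star_mem_idl, Pt.inv_inv]
    exact hh
  · intro h hh
    have h1 : star h ∈ P.idl := star_mem_idl.mpr hh
    have h2 := Ideal.mem_map_of_mem (starRingEnd (CR φ)) h1
    rwa [starRingEnd_apply, star_star] at h2

theorem idm_map_inv (m : Multiset (Pt φ)) :
    idm (m.map Pt.inv) = Ideal.map (starRingEnd (CR φ)) (idm m) := by
  induction m using Multiset.induction_on with
  | empty => rw [Multiset.map_zero, idm_zero, Ideal.one_eq_top, Ideal.map_top]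
  | cons P m ih => rw [Multiset.map_cons, idm_cons, idm_cons, Ideal.map_mul, ih, idl_map_star]

theorem star_idm (hφ : Good g φ) {h : CR φ} {m : Multiset (Pt φ)}
    (hm : Ideal.span {h} = idm m) : Ideal.span {star h} = idm (m.map Pt.inv) := by
  rw [idm_map_inv, ← hm, Ideal.map_span, Set.image_singleton]
  rfl

theorem idm_mul_map_inv (hφ : Good g φ) (m : Multiset (Pt φ)) :
    idm m * idm (m.map Pt.inv) =
      Ideal.span {algebraMap E[X] (CR φ) (m.map fun P => X - C P.x).prod} := by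
  induction m using Multiset.induction_on with
  | empty =>
    rw [Multiset.map_zero, Multiset.map_zero, idm_zero, Multiset.prod_zero, map_one, mul_one,
      Ideal.span_singleton_one, Ideal.one_eq_top]
  | cons P m ih =>
    rw [Multiset.map_cons, Multiset.map_cons, Multiset.prod_cons, map_mul, idm_cons, idm_cons,
      mul_mul_mul_comm, ih, idl_mul_inv hφ, Ideal.span_singleton_mul_span_singleton, algMap_lin]

theorem norm_fac [IsAlgClosed E] (hφ : Good g φ) {h : CR φ} {m : Multiset (Pt φ)} (h0 : h ≠ 0)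
    (hm : Ideal.span {h} = idm m) :
    ∃ c : E, c ≠ 0 ∧ h.norm = C c * (m.map fun P => X - C P.x).prod := by
  have hs := star_idm hφ hm
  have h1 : Ideal.span {algebraMap E[X] (CR φ) h.norm} =
      Ideal.span {algebraMap E[X] (CR φ) (m.map fun P => X - C P.x).prod} := by
    rw [← idm_mul_map_inv hφ m, ← hm, ← hs, Ideal.span_singleton_mul_span_singleton,
      QuadraticAlgebra.algebraMap_norm_eq_mul_star]
  have h2 : h.norm ∣ (m.map fun P => X - C P.x).prod := by
    rw [← QuadraticAlgebra.algebraMap_dvd_iff_dvd (a := φ) (b := 0),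
      ← Ideal.span_singleton_le_span_singleton, h1]
  have h3 : (m.map fun P => X - C P.x).prod ∣ h.norm := by
    rw [← QuadraticAlgebra.algebraMap_dvd_iff_dvd (a := φ) (b := 0),
      ← Ideal.span_singleton_le_span_singleton, h1]
  obtain ⟨u, hu⟩ := associated_of_dvd_dvd h3 h2
  obtain ⟨c, hc, hcu⟩ := Polynomial.isUnit_iff.mp u.isUnit
  exact ⟨c, hc.ne_zero, by rw [hcu, ← hu, mul_comm]⟩

theorem norm_deg [IsAlgClosed E] (hφ : Good g φ) {h : CR φ} {m : Multiset (Pt φ)} (h0 : h ≠ 0)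
    (hm : Ideal.span {h} = idm m) : h.norm.natDegree = m.card := by
  obtain ⟨c, hc, h1⟩ := norm_fac hφ h0 hm
  rw [h1, natDegree_C_mul hc]
  have h2 : (m.map fun P => X - C P.x) = (m.map fun P => P.x).map fun a => X - C a := by
    rw [Multiset.map_map]
    rfl
  rw [h2, natDegree_multiset_prod_X_sub_C_eq_card, Multiset.card_map]

theorem lin_ne_zero (a : E) : (lin a : CR φ) ≠ 0 := by
  intro h
  have := congrArg QuadraticAlgebra.re h
  rw [QuadraticAlgebra.re_zero] at this
  exact X_sub_C_ne_zero a this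

theorem cl_inv (hφ : Good g φ) (P : Pt φ) : cl P.inv = -cl P := by
  have h1 : clm (P ::ₘ {P.inv}) = 0 := clm_of_span (lin_ne_zero P.x) (by
    rw [idm_cons, idm_singleton, idl_mul_inv hφ])
  rw [clm_cons, clm_singleton] at h1
  exact (neg_eq_of_add_eq_zero_right h1).symm

theorem clm_inv (hφ : Good g φ) (m : Multiset (Pt φ)) : clm (m.map Pt.inv) = -clm m := by
  induction m using Multiset.induction_on with
  | empty => rw [Multiset.map_zero, clm_zero, neg_zero]
  | cons P m ih => rw [Multiset.map_cons, clm_cons, clm_cons, ih, cl_inv hφ, neg_add]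

open scoped Classical in
theorem divisor_apply (m : Multiset (Pt φ)) (Q : Pt φ) :
    (m.map fun P => Finsupp.single P (1 : ℤ)).sum Q = (m.count Q : ℤ) := by
  induction m using Multiset.induction_on with
  | empty => simp
  | cons P m ih =>
    rw [Multiset.map_cons, Multiset.sum_cons, Finsupp.add_apply, ih, Multiset.count_cons,
      Finsupp.single_apply]
    by_cases h : P = Q
    · rw [if_pos h, if_pos h.symm]; push_cast; ring
    · rw [if_neg h, if_neg (fun e => h e.symm)]; push_cast; ring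

theorem divisor_injective {m m' : Multiset (Pt φ)}
    (h : (m.map fun P => Finsupp.single P (1 : ℤ)).sum =
      (m'.map fun P => Finsupp.single P (1 : ℤ)).sum) : m = m' := by
  classical
  ext Q
  have h1 := divisor_apply m Q
  rw [h, divisor_apply m' Q] at h1
  exact_mod_cast h1.symm

theorem mem_prin (hφ : Good g φ) {D : Pt φ →₀ ℤ} (hD : D ∈ Prin φ) :
    ∃ (h₁ h₂ : CR φ) (m₁ m₂ : Multiset (Pt φ)), h₁ ≠ 0 ∧ h₂ ≠ 0 ∧ Ideal.span {h₁} = idm m₁ ∧
      Ideal.span {h₂} = idm m₂ ∧
      D = (m₁.map fun P => Finsupp.single P (1 : ℤ)).sum -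
        (m₂.map fun P => Finsupp.single P (1 : ℤ)).sum := by
  have := isDomain hφ
  have hone : Ideal.span {(1 : CR φ)} = idm (0 : Multiset (Pt φ)) := by
    rw [idm_zero, Ideal.span_singleton_one, Ideal.one_eq_top]
  refine AddSubgroup.closure_induction (p := fun D _ =>
    ∃ (h₁ h₂ : CR φ) (m₁ m₂ : Multiset (Pt φ)), h₁ ≠ 0 ∧ h₂ ≠ 0 ∧ Ideal.span {h₁} = idm m₁ ∧
      Ideal.span {h₂} = idm m₂ ∧
      D = (m₁.map fun P => Finsupp.single P (1 : ℤ)).sum -
        (m₂.map fun P => Finsupp.single P (1 : ℤ)).sum) ?_ ?_ ?_ ?_ hD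
  · rintro D ⟨h, m, h0, hm, rfl⟩
    refine ⟨h, 1, m, 0, h0, one_ne_zero, hm, hone, ?_⟩
    rw [Multiset.map_zero, Multiset.sum_zero, sub_zero]
  · exact ⟨1, 1, 0, 0, one_ne_zero, one_ne_zero, hone, hone, by rw [sub_self]⟩
  · rintro D D' _ _ ⟨h₁, h₂, m₁, m₂, n1, n2, e1, e2, rfl⟩ ⟨k₁, k₂, l₁, l₂, n3, n4, e3, e4, rfl⟩
    refine ⟨h₁ * k₁, h₂ * k₂, m₁ + l₁, m₂ + l₂, mul_ne_zero n1 n3, mul_ne_zero n2 n4, ?_, ?_, ?_⟩
    · rw [idm_add, ← e1, ← e3, Ideal.span_singleton_mul_span_singleton]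
    · rw [idm_add, ← e2, ← e4, Ideal.span_singleton_mul_span_singleton]
    · rw [Multiset.map_add, Multiset.map_add, Multiset.sum_add, Multiset.sum_add]
      abel
  · rintro D _ ⟨h₁, h₂, m₁, m₂, n1, n2, e1, e2, rfl⟩
    exact ⟨h₂, h₁, m₂, m₁, n2, n1, e2, e1, by rw [neg_sub]⟩

theorem clm_eq_zero_iff [IsAlgClosed E] (hφ : Good g φ) (m : Multiset (Pt φ)) :
    clm m = 0 ↔ ∃ h : CR φ, h ≠ 0 ∧ Ideal.span {h} = idm m := by
  constructor
  · intro h0
    rw [clm_eq_mk] at h0
    obtain ⟨h₁, h₂, m₁, m₂, n1, n2, e1, e2, hD⟩ :=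
      mem_prin hφ (J.mk_eq_zero.mp h0)
    have h3 : m + m₂ = m₁ := by
      apply divisor_injective
      rw [Multiset.map_add, Multiset.sum_add, hD, sub_add_cancel]
    have h4 : h₂ ∣ h₁ := by
      rw [← Ideal.span_singleton_le_span_singleton, e1, e2, ← h3, idm_add]
      exact Ideal.mul_le_right
    obtain ⟨h, hh⟩ := h4
    refine ⟨h, ?_, ?_⟩
    · rintro rfl
      exact n1 (by rw [hh, mul_zero])
    · apply idm_mul_left_cancel hφ m₂
      rw [← e2, Ideal.span_singleton_mul_span_singleton, ← hh, e1, ← h3, idm_add, e2, mul_comm]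
  · rintro ⟨h, h0, hm⟩
    exact clm_of_span h0 hm

theorem clm_replicate (n : ℕ) (P : Pt φ) : clm (Multiset.replicate n P) = n • cl P := by
  rw [clm, Multiset.map_replicate, Multiset.sum_replicate]

/-- every class is the class of an effective divisor -/
theorem exists_clm (hφ : Good g φ) (z : J φ) : ∃ m : Multiset (Pt φ), z = clm m := by
  obtain ⟨D, rfl⟩ := J.mk_surjective z
  induction D using Finsupp.induction_linear with
  | zero => exact ⟨0, by rw [clm_zero, map_zero]⟩
  | add D D' h1 h2 =>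
    obtain ⟨m, hm⟩ := h1
    obtain ⟨m', hm'⟩ := h2
    exact ⟨m + m', by rw [clm_add, ← hm, ← hm', map_add]⟩
  | single P n =>
    have h1 : J.mk φ (Finsupp.single P n) = n • cl P := by
      have h2 : Finsupp.single P n = n • Finsupp.single P (1 : ℤ) := by
        rw [Finsupp.smul_single, smul_eq_mul, mul_one]
      rw [h2, map_zsmul, cl]
    obtain ⟨k, rfl | rfl⟩ := n.eq_nat_or_neg
    · exact ⟨Multiset.replicate k P, by rw [h1, clm_replicate, natCast_zsmul]⟩
    · exact ⟨Multiset.replicate k P.inv, by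
        rw [h1, clm_replicate, cl_inv hφ, neg_smul, natCast_zsmul, neg_nsmul]⟩

end Pool.Agent.Lib.MP_2f3286_ag.HYP
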