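import Pool.Agent.Lib.MP_2f3286_ag.HYP.PNear

/-!
# Two points which are close to each other   (module PClose, 75 minutes)

`O` is any valuation ring of `E`; write `|x|` for `O.valuation x`.

PROOF. `dq_bound`: `dq (dq φ q) u` evaluated at `z` is a polynomial in `q, u, z` with coefficients the coefficients of `φ`
(`dq (X ^ n) q = ∑_{i + j = n - 1} q ^ j X ^ i`: `Polynomial.X_pow_sub_C_pow..`/geometric sum; additive in `φ`). Easier: `|(dq p a)(z)| ≤ N'` whenever all coefficients of `p`, `a` and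
`z` are bounded: by induction on the degree or from the recursion for the coefficients of `divByMonic`. Claim: if `1 ≤ |K|`, `|a| ≤ |K|` and all coefficients of `p` are `≤ |L|` then all
coefficients of `dq p a` are `≤ |L| |K| ^ deg p` (`coeff_n (dq p a) = ∑_{k > n} coeff_k p * a ^ (k - n - 1)`: `Polynomial.coeff_divByMonic_X_sub_C` in Mathlib, the term `C (p.eval a)` only changes the
coefficient `0`). So `(dq (dq φ q) u)(z)` is bounded by `|B|` for a fixed `B ≠ 0` in `E` for all `q` with `|q - u| ≤ 1` and all `z` with `|r z| ≤ 1`.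
`near_exists`: let `u` be in `E`, `w ^ 2 = φ(u)`, `r ≠ 0`. Let `Q = (q, r₀)` be a point with `|q - u| ≤ |δ|`, `δ` to be chosen with `|δ| ≤ 1`. If `q = u`: `U = Q`. Let `q ≠ u`.
Case `w ≠ 0`: `(r₀ + w) - (r₀ - w) = 2 w`, so for one choice of the sign `w' = w` or `- w` we have `|2 w| ≤ |r₀ + w'|`; `U = (u, w')`; `|(q - u) / (r₀ + w')| ≤ |δ / (2 w)|`. By `near_key` it is
enough that `|δ / (2 w)| ^ 2 |B| < 1`; take `δ` with this property (`δ = 2 w e` with `e ^ 2 * B`, `e`, `δ` in the maximal ideal: e.g. `e` small enough; if `O = E` (trivial valuation) then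
choose `δ = 0`? not allowed: so we suppose that there is `ϖ ≠ 0` with `|ϖ| < 1`, and `|x| < 1` can be reached: hypothesis `hO : ∀ K : E, ∃ δ, δ ≠ 0 ∧ |δ * K| < 1` — this is true if `O ≠ E`:
`δ = ϖ / K`).
Case `w = 0` (`u` a root): `φ = (X - u) φ₁`, `φ₁ = dq φ u`, `φ₁(u) ≠ 0` (separable). For `|q - u| ≤ |δ|` with `δ` small `|φ₁(q) - φ₁(u)| < |φ₁(u)|` so `|φ₁(q)| = |φ₁(u)|`
(`φ₁(q) - φ₁(u) = (q - u) (dq φ₁ u)(q)` is small). `r₀ ^ 2 = (q - u) φ₁(q) ≠ 0`, `U = (u, 0)`: `((q - u) / r₀) ^ 2 = (q - u) / φ₁(q)`, of value `|q - u| / |φ₁(u)| ≤ |δ / φ₁(u)|`: small.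
-/

open Polynomial

noncomputable section

namespace Pool.Agent.Lib.MP_2f3286_ag.HYP

variable {E : Type*} [Field E] {g : ℕ} {φ : E[X]}

/-- the larger one of two elements -/
theorem pc_max (O : ValuationSubring E) (a b : E) (ha : a ≠ 0) :
    ∃ c : E, c ≠ 0 ∧ O.valuation a ≤ O.valuation c ∧ O.valuation b ≤ O.valuation c := by
  rcases le_total (O.valuation b) (O.valuation a) with h | h
  · exact ⟨a, ha, le_rfl, h⟩
  · refine ⟨b, ?_, h, le_rfl⟩
    rintro rfl
    rw [map_zero, le_zero_iff, map_eq_zero] at h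
    exact ha h

theorem pc_coeff (O : ValuationSubring E) {p : E[X]} {L K a : E}
    (hL : ∀ i, O.valuation (p.coeff i) ≤ O.valuation L) (hK : 1 ≤ O.valuation K)
    (ha : O.valuation a ≤ O.valuation K) (i : ℕ) :
    O.valuation ((dq p a).coeff i) ≤ O.valuation L * O.valuation K ^ p.natDegree := by
  unfold dq
  rw [coeff_divByMonic_X_sub_C]
  refine Valuation.map_sum_le _ fun j hj => ?_
  rw [Finset.mem_Icc, natDegree_sub_C] at hj
  rw [coeff_sub, coeff_C_ne_zero (by omega), sub_zero, map_mul, map_pow, mul_comm]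
  refine mul_le_mul' (hL j) ?_
  exact (pow_le_pow_left' ha _).trans (pow_le_pow_right' hK (by omega))

theorem pc_eval (O : ValuationSubring E) {p : E[X]} {z : E} {L K : O.ValueGroup} {N : ℕ}
    (hL : ∀ i, O.valuation (p.coeff i) ≤ L) (hK : 1 ≤ K) (hz : O.valuation z ≤ K)
    (hN : p.natDegree ≤ N) : O.valuation (p.eval z) ≤ L * K ^ N := by
  rw [eval_eq_sum_range]
  refine Valuation.map_sum_le _ fun j hj => ?_
  rw [Finset.mem_range] at hj
  rw [map_mul, map_pow]
  refine mul_le_mul' (hL j) ?_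
  exact (pow_le_pow_left' hz _).trans (pow_le_pow_right' hK (by omega))

theorem pc_coeff_bound (O : ValuationSubring E) (p : E[X]) :
    ∃ L : E, L ≠ 0 ∧ ∀ i, O.valuation (p.coeff i) ≤ O.valuation L := by
  have h : ∀ n : ℕ, ∃ L : E, L ≠ 0 ∧ ∀ i < n, O.valuation (p.coeff i) ≤ O.valuation L := by
    intro n
    induction n with
    | zero => exact ⟨1, one_ne_zero, fun i hi => absurd hi (Nat.not_lt_zero i)⟩
    | succ n ih =>
      obtain ⟨L, hL0, hL⟩ := ih
      obtain ⟨c, hc0, h1, h2⟩ := pc_max O L (p.coeff n) hL0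
      refine ⟨c, hc0, fun i hi => ?_⟩
      rcases Nat.lt_succ_iff_lt_or_eq.1 hi with h | h
      · exact (hL i h).trans h1
      · rw [h]; exact h2
  obtain ⟨L, hL0, hL⟩ := h (p.natDegree + 1)
  refine ⟨L, hL0, fun i => ?_⟩
  by_cases hi : i < p.natDegree + 1
  · exact hL i hi
  · rw [coeff_eq_zero_of_natDegree_lt (by omega), map_zero]
    exact zero_le'

theorem pc_natDegree (p : E[X]) (a : E) : (dq p a).natDegree ≤ p.natDegree := by
  unfold dq
  rw [natDegree_divByMonic _ (monic_X_sub_C a), natDegree_sub_C]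
  omega

theorem dq_bound (O : ValuationSubring E) (φ : E[X]) (u : E) {r : E} (hr : r ≠ 0) :
    ∃ K : E, K ≠ 0 ∧ ∀ q z : E, q - u ∈ O → r * z ∈ O →
      O.valuation ((dq (dq φ q) u).eval z) ≤ O.valuation K := by
  obtain ⟨L, hL0, hL⟩ := pc_coeff_bound O φ
  obtain ⟨K1, hK10, h1, hu⟩ := pc_max O 1 u one_ne_zero
  obtain ⟨K, hK0, h2, hr'⟩ := pc_max O K1 r⁻¹ hK10
  have hK1 : 1 ≤ O.valuation K := by
    rw [← map_one O.valuation]
    exact h1.trans h2
  have huK : O.valuation u ≤ O.valuation K := hu.trans h2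
  have hKp : K ^ φ.natDegree ≠ 0 := pow_ne_zero _ hK0
  refine ⟨L * K ^ φ.natDegree * K ^ φ.natDegree * K ^ φ.natDegree,
    mul_ne_zero (mul_ne_zero (mul_ne_zero hL0 hKp) hKp) hKp, ?_⟩
  intro q z hq hz
  have hq' : O.valuation q ≤ O.valuation K := by
    have e1 : q = (q - u) + u := by ring
    rw [e1]
    refine (Valuation.map_add _ _ _).trans (max_le ?_ huK)
    exact ((O.valuation_le_one_iff _).2 hq).trans hK1
  have hz' : O.valuation z ≤ O.valuation K := by
    have e1 : z = r * z * r⁻¹ := by field_simp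
    rw [e1, map_mul]
    calc O.valuation (r * z) * O.valuation r⁻¹ ≤ 1 * O.valuation r⁻¹ :=
          mul_le_mul_left ((O.valuation_le_one_iff _).2 hz) _
      _ ≤ O.valuation K := by rw [one_mul]; exact hr'
  have c1 : ∀ i, O.valuation ((dq φ q).coeff i) ≤ O.valuation (L * K ^ φ.natDegree) := by
    intro i
    rw [map_mul, map_pow]
    exact pc_coeff O hL hK1 hq' i
  have c2 : ∀ i, O.valuation ((dq (dq φ q) u).coeff i) ≤
      O.valuation (L * K ^ φ.natDegree * K ^ φ.natDegree) := by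
    intro i
    refine (pc_coeff O c1 hK1 huK i).trans ?_
    rw [map_mul _ (L * K ^ φ.natDegree), map_pow]
    exact mul_le_mul' le_rfl (pow_le_pow_right' hK1 (pc_natDegree φ q))
  rw [map_mul _ (L * K ^ φ.natDegree * K ^ φ.natDegree), map_pow]
  exact pc_eval O c2 hK1 hz' ((pc_natDegree _ _).trans (pc_natDegree _ _))

theorem pc_lt_one {Γ : Type*} [LinearOrderedCommGroupWithZero Γ] {a b : Γ} (ha : a < 1)
    (hb : b < 1) : a * b < 1 :=
  lt_of_le_of_lt (mul_le_mul' ha.le le_rfl) (by rwa [one_mul])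

/-- comparison of quotients -/
theorem pc_div (O : ValuationSubring E) {a b c d : E} (hb : b ≠ 0) (hd : d ≠ 0)
    (h1 : O.valuation a ≤ O.valuation c) (h2 : O.valuation d ≤ O.valuation b) :
    O.valuation (a / b) ≤ O.valuation (c / d) := by
  have hb' : O.valuation b ≠ 0 := (O.valuation.ne_zero_iff).2 hb
  by_contra hcon
  rw [not_le] at hcon
  have h3 : O.valuation (c / d) * O.valuation d < O.valuation (a / b) * O.valuation b :=
    lt_of_le_of_lt (mul_le_mul' le_rfl h2) (mul_lt_mul_of_pos_right hcon (zero_lt_iff.2 hb'))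
  rw [← map_mul, ← map_mul, div_mul_cancel₀ _ hd, div_mul_cancel₀ _ hb] at h3
  exact absurd h1 (not_le.2 h3)

/-- there are small elements -/
theorem pc_small (O : ValuationSubring E) (hO : ∃ ϖ : E, ϖ ≠ 0 ∧ O.valuation ϖ < 1) {K : E}
    (hK : K ≠ 0) : ∃ δ : E, δ ≠ 0 ∧ O.valuation δ < 1 ∧ O.valuation δ * O.valuation K < 1 := by
  obtain ⟨ϖ, h0, h1⟩ := hO
  obtain ⟨c, hc0, c1, c2⟩ := pc_max O 1 K one_ne_zero
  have hcv : O.valuation c ≠ 0 := (O.valuation.ne_zero_iff).2 hc0
  have h2 : O.valuation (ϖ / c) * O.valuation c < 1 := by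
    rw [← map_mul, div_mul_cancel₀ _ hc0]
    exact h1
  refine ⟨ϖ / c, div_ne_zero h0 hc0, ?_, ?_⟩
  · rw [map_one] at c1
    calc O.valuation (ϖ / c) = O.valuation (ϖ / c) * 1 := (mul_one _).symm
      _ ≤ O.valuation (ϖ / c) * O.valuation c := mul_le_mul' le_rfl c1
      _ < 1 := h2
  · exact (mul_le_mul' le_rfl c2).trans_lt h2

theorem near_exists [IsAlgClosed E] (hφ : Good g φ) (O : ValuationSubring E)
    (hO : ∃ ϖ : E, ϖ ≠ 0 ∧ O.valuation ϖ < 1) (u : E) {r : E} (hr : r ≠ 0) :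
    ∃ δ : E, δ ≠ 0 ∧ ∀ Q : Pt φ, O.valuation (Q.x - u) ≤ O.valuation δ →
      ∃ U : Pt φ, U.x = u ∧ cl Q - cl U ∈ HR φ O r := by
  obtain ⟨B, hB0, hB⟩ := dq_bound O φ u hr
  obtain ⟨w, hw⟩ := IsAlgClosed.exists_pow_nat_eq (φ.eval u) (n := 2) (by norm_num)
  -- the final step
  have key : ∀ Q U : Pt φ, U.x = u → Q.x ≠ u → O.valuation (Q.x - u) ≤ 1 → Q.y + U.y ≠ 0 →
      O.valuation (((Q.x - u) / (Q.y + U.y)) ^ 2) * O.valuation B < 1 →
      cl Q - cl U ∈ HR φ O r := by
    intro Q U hU hQ hle hy hlt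
    refine near_key hφ O r (by rw [hU]; exact hQ) hy fun z hz h1 => ?_
    rw [hU] at h1
    have h2 : O.valuation (((Q.x - u) / (Q.y + U.y)) ^ 2 * (dq (dq φ Q.x) u).eval z) < 1 := by
      rw [map_mul]
      refine lt_of_le_of_lt (mul_le_mul' le_rfl (hB Q.x z ?_ hz)) hlt
      exact (O.valuation_le_one_iff _).1 hle
    rw [h1, map_one] at h2
    exact lt_irrefl _ h2
  by_cases hw0 : w = 0
  · -- the point `u` is a root
    have hu0 : φ.eval u = 0 := by rw [← hw, hw0]; ring
    have hfac : φ = (X - C u) * dq φ u := by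
      have := dq_spec φ u
      rwa [hu0, C_0, zero_add] at this
    have h1u : (dq φ u).eval u ≠ 0 := by
      intro h
      have e1 : φ.derivative.eval u = 0 := by
        conv_lhs => rw [hfac]
        rw [derivative_mul, eval_add, eval_mul, eval_mul, h]
        simp
      exact (hφ.sep.eval₂_derivative_ne_zero (RingHom.id E) hu0) e1
    obtain ⟨K0, hK00, k1, k2⟩ := pc_max O 1 u one_ne_zero
    rw [map_one] at k1
    obtain ⟨B', hB'0, hB'⟩ := dq_bound O φ u (r := K0⁻¹) (inv_ne_zero hK00)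
    obtain ⟨K, hK0, K1, K2⟩ := pc_max O (B / (dq φ u).eval u) (B' / (dq φ u).eval u)
      (div_ne_zero hB0 h1u)
    obtain ⟨δ, hδ0, hδ1, hδ2⟩ := pc_small O hO hK0
    refine ⟨δ, hδ0, fun Q hQ => ?_⟩
    by_cases hQu : Q.x = u
    · refine ⟨Q, hQu, ?_⟩
      rw [sub_self]
      exact AddSubgroup.zero_mem _
    have hle1 : O.valuation (Q.x - u) ≤ 1 := hQ.trans hδ1.le
    have hd1 : O.valuation ((dq φ u).eval u) ≠ 0 := (O.valuation.ne_zero_iff).2 h1u
    -- the value of the cofactor at `Q.x`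
    have hdiff : O.valuation ((dq φ u).eval Q.x - (dq φ u).eval u) < O.valuation ((dq φ u).eval u) := by
      have e1 : (dq φ u).eval Q.x - (dq φ u).eval u = (Q.x - u) * (dq (dq φ u) u).eval Q.x := by
        have := congrArg (eval Q.x) (dq_spec (dq φ u) u)
        rw [eval_add, eval_C, eval_mul, eval_sub, eval_X, eval_C] at this
        rw [this]
        ring
      have e2 : O.valuation ((dq (dq φ u) u).eval Q.x) ≤ O.valuation B' := by
        refine hB' u Q.x (by rw [sub_self]; exact O.zero_mem) ?_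
        have e3 : O.valuation Q.x ≤ O.valuation K0 := by
          have e4 : Q.x = (Q.x - u) + u := by ring
          rw [e4]
          exact (Valuation.map_add _ _ _).trans (max_le (hle1.trans k1) k2)
        rw [← O.valuation_le_one_iff, map_mul, map_inv₀]
        refine (mul_le_mul' le_rfl e3).trans (le_of_eq ?_)
        exact inv_mul_cancel₀ ((O.valuation.ne_zero_iff).2 hK00)
      rw [e1, map_mul]
      have e5 : O.valuation (Q.x - u) * O.valuation ((dq (dq φ u) u).eval Q.x) ≤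
          O.valuation δ * O.valuation B' := mul_le_mul' hQ e2
      refine e5.trans_lt ?_
      have e6 : O.valuation δ * O.valuation (B' / (dq φ u).eval u) < 1 :=
        lt_of_le_of_lt (mul_le_mul' le_rfl K2) hδ2
      rw [map_div₀, ← mul_div_assoc, div_lt_one₀ (zero_lt_iff.2 hd1)] at e6
      exact e6
    have hval : O.valuation ((dq φ u).eval Q.x) = O.valuation ((dq φ u).eval u) := by
      have e1 : (dq φ u).eval Q.x = ((dq φ u).eval Q.x - (dq φ u).eval u) + (dq φ u).eval u := by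
        ring
      rw [e1]
      exact Valuation.map_add_eq_of_lt_right _ hdiff
    have hQ1 : (dq φ u).eval Q.x ≠ 0 := by
      intro h
      rw [h, map_zero] at hval
      exact hd1 hval.symm
    have hQy : Q.y ^ 2 = (Q.x - u) * (dq φ u).eval Q.x := by
      have := congrArg (eval Q.x) hfac
      rw [eval_mul, eval_sub, eval_X, eval_C] at this
      rw [Q.eqn, this]
    have hy : Q.y ≠ 0 := by
      intro h
      rw [h] at hQy
      have : (Q.x - u) * (dq φ u).eval Q.x = 0 := by rw [← hQy]; ring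
      rcases mul_eq_zero.1 this with h | h
      · exact hQu (sub_eq_zero.1 h)
      · exact hQ1 h
    refine ⟨⟨u, 0, by rw [hu0]; ring⟩, rfl, key Q ⟨u, 0, by rw [hu0]; ring⟩ rfl hQu hle1
      (by show Q.y + 0 ≠ 0; rw [add_zero]; exact hy) ?_⟩
    show O.valuation (((Q.x - u) / (Q.y + 0)) ^ 2) * O.valuation B < 1
    have e1 : ((Q.x - u) / (Q.y + 0)) ^ 2 = (Q.x - u) / (dq φ u).eval Q.x := by
      rw [add_zero, div_pow, hQy]
      have : Q.x - u ≠ 0 := sub_ne_zero.2 hQu
      field_simp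
    rw [e1, map_div₀, hval]
    calc O.valuation (Q.x - u) / O.valuation ((dq φ u).eval u) * O.valuation B
        = O.valuation (Q.x - u) * O.valuation (B / (dq φ u).eval u) := by
          rw [map_div₀, div_mul_eq_mul_div, mul_div_assoc]
      _ ≤ O.valuation δ * O.valuation K := mul_le_mul' hQ K1
      _ < 1 := hδ2
  · -- the point `u` is not a root
    have h2w : (2 * w) ≠ 0 := mul_ne_zero hφ.two hw0
    obtain ⟨δ, hδ0, hδ1, hδ2⟩ := pc_small O hO (K := B / (2 * w) ^ 2)
      (div_ne_zero hB0 (pow_ne_zero 2 h2w))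
    refine ⟨δ, hδ0, fun Q hQ => ?_⟩
    by_cases hQu : Q.x = u
    · refine ⟨Q, hQu, ?_⟩
      rw [sub_self]
      exact AddSubgroup.zero_mem _
    have hor : O.valuation (2 * w) ≤ O.valuation (Q.y + w) ∨
        O.valuation (2 * w) ≤ O.valuation (Q.y + -w) := by
      have e1 : 2 * w = (Q.y + w) - (Q.y + -w) := by ring
      have e2 := Valuation.map_sub O.valuation (Q.y + w) (Q.y + -w)
      rw [← e1] at e2
      exact le_max_iff.1 e2
    obtain ⟨w', hw', hle⟩ : ∃ w' : E, w' ^ 2 = φ.eval u ∧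
        O.valuation (2 * w) ≤ O.valuation (Q.y + w') := by
      rcases hor with h | h
      · exact ⟨w, hw, h⟩
      · exact ⟨-w, by rw [neg_sq, hw], h⟩
    have hy : Q.y + w' ≠ 0 := by
      intro h
      rw [h, map_zero, le_zero_iff, map_eq_zero] at hle
      exact h2w hle
    have hy' : O.valuation (Q.y + w') ≠ 0 := (O.valuation.ne_zero_iff).2 hy
    have h2w' : O.valuation (2 * w) ≠ 0 := (O.valuation.ne_zero_iff).2 h2w
    refine ⟨⟨u, w', hw'⟩, rfl, key Q ⟨u, w', hw'⟩ rfl hQu (hQ.trans hδ1.le) hy ?_⟩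
    show O.valuation (((Q.x - u) / (Q.y + w')) ^ 2) * O.valuation B < 1
    have h3 : O.valuation ((Q.x - u) / (Q.y + w')) ≤ O.valuation (δ / (2 * w)) :=
      pc_div O hy h2w hQ hle
    calc O.valuation (((Q.x - u) / (Q.y + w')) ^ 2) * O.valuation B
        ≤ O.valuation ((δ / (2 * w)) ^ 2) * O.valuation B := by
          rw [map_pow, map_pow]
          exact mul_le_mul' (pow_le_pow_left' h3 2) le_rfl
      _ = O.valuation δ * (O.valuation δ * O.valuation (B / (2 * w) ^ 2)) := by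
          rw [← map_mul, ← map_mul, ← map_mul]
          congr 1
          field_simp
      _ < 1 := pc_lt_one hδ1 hδ2

end Pool.Agent.Lib.MP_2f3286_ag.HYP
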