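import Mathlib

/-!
# Chains of halves in a group   (module PGrp, 20 minutes)

PROOF. `S` is finite, so there are `i < j` with `i ≥ m`, and `t ∈ S` with `T i - t`, `T j - t` in `H` (pigeonhole on infinitely many indices
`≥ m`: `Finite.exists_ne_map_eq_of_infinite` for a choice of `t` for each `n ≥ m`). So `T i - T j ∈ H`. `T i = 2 ^ (j - i) • T j`, so
`(2 ^ (j - i) - 1) • T j ∈ H` (an odd multiple, `j > i`). `2 ^ (j - m + 1) • T j = 2 • T m = 0`. An odd number and a power of two are coprime: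
`T j ∈ H` (Bezout with integers). So `T m = 2 ^ (j - m) • T j ∈ H`, and `2 • T m = 0`: `T m = 0`.
-/

namespace Pool.Agent.Lib.MP_2f3286_ag.HYP

private lemma chain_pow {G : Type*} [AddCommGroup G] (T : ℕ → G)
    (hT : ∀ n, (2 : ℕ) • T (n + 1) = T n) (k : ℕ) : ∀ n, (2 ^ k : ℕ) • T (n + k) = T n := by
  induction k with
  | zero => intro n; rw [pow_zero, one_smul, Nat.add_zero]
  | succ k ih =>
    intro n
    rw [pow_succ, mul_smul, ← Nat.add_assoc, hT (n + k), ih]

theorem chain_zero {G : Type*} [AddCommGroup G] (H : AddSubgroup G) (T : ℕ → G)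
    (hT : ∀ n, (2 : ℕ) • T (n + 1) = T n) {S : Set G} (hS : S.Finite)
    (hS' : ∀ n, ∃ t ∈ S, T n - t ∈ H) (hH : ∀ t ∈ H, (2 : ℕ) • t = 0 → t = 0) (m : ℕ)
    (hm : (2 : ℕ) • T m = 0) : T m = 0 := by
  classical
  choose f hf1 hf2 using hS'
  have : Finite S := hS.to_subtype
  obtain ⟨i, j, hij, hfij⟩ := Finite.exists_ne_map_eq_of_infinite
    (fun n : ℕ => (⟨f (m + n), hf1 _⟩ : S))
  have hfe : f (m + i) = f (m + j) := congrArg Subtype.val hfij
  have key : ∀ a b : ℕ, a < b → f (m + a) = f (m + b) → T m = 0 := by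
    intro a b hab hf
    obtain ⟨k, rfl⟩ := Nat.exists_eq_add_of_lt hab
    have h1 : T (m + a) - T (m + (a + k + 1)) ∈ H := by
      have h := H.sub_mem (hf2 (m + a)) (hf2 (m + (a + k + 1)))
      rw [hf] at h
      have e : T (m + a) - f (m + (a + k + 1)) - (T (m + (a + k + 1)) - f (m + (a + k + 1))) =
          T (m + a) - T (m + (a + k + 1)) := by abel
      rwa [e] at h
    have h2 : (2 ^ (k + 1) : ℕ) • T (m + (a + k + 1)) = T (m + a) := by
      have h := chain_pow T hT (k + 1) (m + a)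
      rwa [show m + a + (k + 1) = m + (a + k + 1) by omega] at h
    have h3 : (2 ^ (a + k + 1) : ℕ) • T (m + (a + k + 1)) = T m := chain_pow T hT (a + k + 1) m
    have h4 : ((2 : ℤ) ^ (k + 1) - 1) • T (m + (a + k + 1)) ∈ H := by
      rw [sub_smul, one_smul]
      have e : ((2 : ℤ) ^ (k + 1)) • T (m + (a + k + 1)) = T (m + a) := by
        rw [← h2, ← natCast_zsmul]
        push_cast
        rfl
      rw [e]
      exact h1
    have h5 : ((2 : ℤ) ^ (a + k + 2)) • T (m + (a + k + 1)) = 0 := by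
      rw [pow_succ, mul_comm, mul_smul]
      have e : ((2 : ℤ) ^ (a + k + 1)) • T (m + (a + k + 1)) = T m := by
        conv_rhs => rw [← h3]
        rw [← natCast_zsmul]
        push_cast
        rfl
      rw [e]
      have e2 : (2 : ℤ) • T m = (2 : ℕ) • T m := by
        rw [← natCast_zsmul]
        rfl
      rw [e2, hm]
    have hcop : IsCoprime ((2 : ℤ) ^ (k + 1) - 1) ((2 : ℤ) ^ (a + k + 2)) := by
      apply IsCoprime.pow_right
      refine ⟨-1, 2 ^ k, ?_⟩
      ring
    obtain ⟨u, v, huv⟩ := hcop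
    have h6 : T (m + (a + k + 1)) ∈ H := by
      have e : T (m + (a + k + 1)) = u • (((2 : ℤ) ^ (k + 1) - 1) • T (m + (a + k + 1))) +
          v • (((2 : ℤ) ^ (a + k + 2)) • T (m + (a + k + 1))) := by
        rw [← mul_smul, ← mul_smul, ← add_smul, huv, one_smul]
      rw [e, h5, smul_zero, add_zero]
      exact H.zsmul_mem h4 u
    have h7 : T m ∈ H := by
      rw [← h3]
      exact H.nsmul_mem h6 _
    exact hH _ h7 hm
  rcases lt_or_gt_of_ne hij with h | h
  · exact key i j h hfe
  · exact key j i h hfe.symm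

end Pool.Agent.Lib.MP_2f3286_ag.HYP
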