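import Pool.Agent.Lib.MP_2f3286_ag.HYP.Spc
import Pool.Agent.Lib.MP_2f3286_ag.HYP.PGrp

/-!
# Rational classes, their reductions   (module PRat, 60 minutes)

`Rat ψ g S`: classes of divisors of degree at most `g` whose polynomial of `x`-coordinates has, up to a constant, its coefficients in `S`.

PROOF. `rat_finite`: the polynomials of degree `≤ g` with coefficients in the finite set `S` form a finite set; the nonzero ones have
finitely many roots altogether, the points `P` with `P.x` in this finite set are finitely many (`P.y ^ 2 = ψ(P.x)`: at most two for each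
`x`), the multisets of at most `g` of them are finitely many (`Multiset` of a finite set with bounded cardinality: images of functions
`Fin n → points`, `n ≤ g`, or `Multiset.finite_...`). If `C c * upol m` has its coefficients in `S`, `c ≠ 0`, all points of `m` have `x` a
root of it.
`sp_mem_rat`: `T = clm m`, `m` reduced (`exists_reduced`), `m.card ≤ g`; `fixed_reduced`: `m.map (Pt.map σ) = m`, so `(upol m).map σ = upol m`
(`upol` is the product of the `X - C P.x`; `Polynomial.map_multiset_prod`), the coefficients of `upol m` are fixed by all `σ` in `G`. Let `c` be the coefficient of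
`upol m` with the largest value `A.valuation` (finitely many, `upol m ≠ 0`), so `c ≠ 0`; `U = C c⁻¹ * upol m` has its coefficients in `A`,
they are fixed by `G`, and one of them is `1`: `U = p.map A.subtype`, `p.map π ≠ 0`. `red_roots` (with `s = m.map Pt.x`,
`upol m = (s.map (X - C ·)).prod`): `p.map π = C c' * ∏ (X - C a)` over `redm π (m.map Pt.x)`, which is the multiset of the `x`-coordinates of
`h.redp m` (induction on `m`, `redp_cons_mem`, `redm_cons_mem`, `redPt_x`). So `C c' * upol (h.redp m) = p.map π` has coefficients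
`π (coefficient of U)`, in `S` by `hval`. `(h.redp m).card ≤ m.card` (`filterMap`). `h.sp (clm m) = clm (h.redp m)` (`sp_clm`).
`chain_rat`: `chain_zero` for `h.sp (T n)` (`h.sp` is additive: `map_nsmul`).
-/

open Polynomial

noncomputable section

namespace Pool.Agent.Lib.MP_2f3286_ag.HYP

/-- classes of divisors of degree at most `g` whose polynomial has, up to a constant factor, its
coefficients in `S` -/
def Rat {F : Type*} [Field F] (ψ : F[X]) (g : ℕ) (S : Set F) : Set (J ψ) :=
  {z | ∃ m : Multiset (Pt ψ), m.card ≤ g ∧ z = clm m ∧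
    ∃ c : F, c ≠ 0 ∧ ∀ n, (C c * upol m).coeff n ∈ S}

private theorem PRat_pol {F : Type*} [Field F] (g : ℕ) {S : Set F} (hS : S.Finite) :
    {p : F[X] | p.natDegree ≤ g ∧ ∀ n, p.coeff n ∈ S}.Finite := by
  have h1 : (Set.univ.pi fun _ : Fin (g + 1) => S).Finite := Set.Finite.pi fun _ => hS
  refine Set.Finite.of_finite_image (f := fun (p : F[X]) (i : Fin (g + 1)) => p.coeff i)
    (h1.subset ?_) ?_
  · rintro _ ⟨p, hp, rfl⟩ i _
    exact hp.2 i
  · intro p hp q hq hpq
    ext n
    by_cases hn : n < g + 1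
    · exact congrFun hpq ⟨n, hn⟩
    · rw [coeff_eq_zero_of_natDegree_lt (lt_of_le_of_lt hp.1 (by omega)),
        coeff_eq_zero_of_natDegree_lt (lt_of_le_of_lt hq.1 (by omega))]

private theorem PRat_pts {F : Type*} [Field F] (ψ : F[X]) {X0 : Set F} (hX : X0.Finite) :
    {P : Pt ψ | P.x ∈ X0}.Finite := by
  classical
  have h1 : (⋃ x ∈ X0, ({x} : Set F) ×ˢ {y : F | y ^ 2 = ψ.eval x}).Finite := by
    refine hX.biUnion fun x _ => (Set.finite_singleton x).prod ?_
    have h2 : (X ^ 2 - C (ψ.eval x) : F[X]) ≠ 0 := X_pow_sub_C_ne_zero (by norm_num) _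
    refine (((X ^ 2 - C (ψ.eval x) : F[X]).roots.toFinset).finite_toSet).subset ?_
    intro y hy
    have hy' : y ^ 2 = ψ.eval x := hy
    rw [Finset.mem_coe, Multiset.mem_toFinset, mem_roots h2, IsRoot.def]
    simp [hy']
  refine Set.Finite.of_finite_image (f := fun P : Pt ψ => (P.x, P.y)) (h1.subset ?_) ?_
  · rintro _ ⟨P, hP, rfl⟩
    simp only [Set.mem_iUnion]
    exact ⟨P.x, hP, rfl, P.eqn⟩
  · intro P _ Q _ h
    have h2 : (P.x, P.y) = (Q.x, Q.y) := h
    rw [Prod.mk.injEq] at h2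
    exact Pt.ext h2.1 h2.2

theorem rat_finite {F : Type*} [Field F] (ψ : F[X]) (g : ℕ) {S : Set F} (hS : S.Finite) :
    (Rat ψ g S).Finite := by
  classical
  have hX : (⋃ p ∈ {p : F[X] | p.natDegree ≤ g ∧ ∀ n, p.coeff n ∈ S},
      (p.roots.toFinset : Set F)).Finite :=
    (PRat_pol g hS).biUnion fun p _ => p.roots.toFinset.finite_toSet
  have hY := PRat_pts ψ hX
  have hM : (Set.Icc (0 : Multiset (Pt ψ)) (g • hY.toFinset.val)).Finite := Set.finite_Icc _ _
  refine (hM.image clm).subset ?_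
  rintro z ⟨m, hm, rfl, c, hc, hcS⟩
  refine ⟨m, ⟨Multiset.zero_le m, ?_⟩, rfl⟩
  rw [Multiset.le_iff_count]
  intro P
  by_cases hP : P ∈ m
  · have h0 : C c * upol m ≠ 0 := mul_ne_zero (C_ne_zero.2 hc) (upol_monic m).ne_zero
    have h1 : P ∈ hY.toFinset := by
      rw [Set.Finite.mem_toFinset]
      change P.x ∈ ⋃ p ∈ {p : F[X] | p.natDegree ≤ g ∧ ∀ n, p.coeff n ∈ S},
        (p.roots.toFinset : Set F)
      simp only [Set.mem_iUnion]
      refine ⟨C c * upol m, ⟨?_, hcS⟩, ?_⟩
      · refine (natDegree_C_mul_le _ _).trans ?_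
        rw [upol_natDegree]
        exact hm
      · rw [Finset.mem_coe, Multiset.mem_toFinset, mem_roots h0, IsRoot.def, eval_mul,
          (upol_eval m P.x).2 ⟨P, hP, rfl⟩, mul_zero]
    rw [Multiset.count_nsmul, Multiset.count_eq_one_of_mem hY.toFinset.nodup h1, mul_one]
    exact (Multiset.count_le_card P m).trans hm
  · rw [Multiset.count_eq_zero_of_notMem hP]
    exact Nat.zero_le _

variable {M F : Type*} [Field M] [Field F] {g : ℕ} {A : ValuationSubring M} {π : A →+* F}
  {φ : M[X]} {ψ : F[X]}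

private theorem PRat_upol_map {E E' : Type*} [Field E] [Field E'] {φ : E[X]} {ψ : E'[X]}
    (j : E →+* E') (hj : φ.map j = ψ) (m : Multiset (Pt φ)) :
    upol (m.map (Pt.map j hj)) = (upol m).map j := by
  induction m using Multiset.induction_on with
  | empty => simp [upol]
  | cons P m ih =>
    rw [Multiset.map_cons, upol_cons, upol_cons, ih, Polynomial.map_mul, Polynomial.map_sub,
      map_X, map_C]
    rfl

private theorem PRat_redm (h : Plc A π φ ψ) (m : Multiset (Pt φ)) :
    redm π (m.map Pt.x) = (h.redp m).map Pt.x := by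
  induction m using Multiset.induction_on with
  | empty => rw [h.redp_zero, Multiset.map_zero, Multiset.map_zero, redm, Multiset.filterMap_zero]
  | cons P m ih =>
    rw [Multiset.map_cons]
    by_cases hx : P.x ∈ A
    · rw [redm_cons_mem _ hx, h.redp_cons_mem m hx, Multiset.map_cons, h.redPt_x, ih]
    · rw [redm_cons_notMem _ hx, h.redp_cons_notMem m hx, ih]

private theorem PRat_card (h : Plc A π φ ψ) (m : Multiset (Pt φ)) :
    (h.redp m).card ≤ m.card := by
  induction m using Multiset.induction_on with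
  | empty => rw [h.redp_zero, Multiset.card_zero, Multiset.card_zero]
  | cons P m ih =>
    by_cases hx : P.x ∈ A
    · rw [h.redp_cons_mem m hx, Multiset.card_cons, Multiset.card_cons]
      exact Nat.succ_le_succ ih
    · rw [h.redp_cons_notMem m hx, Multiset.card_cons]
      exact ih.trans (Nat.le_succ _)

/-- the reduction of a class which is fixed by the automorphisms in `G` is rational -/
theorem sp_mem_rat [IsAlgClosed M] [IsAlgClosed F] (h : Plc A π φ ψ) (hφ : Good g φ)
    (hψ : Good g ψ) {G : Set (M →+* M)} (hG : ∀ σ ∈ G, φ.map σ = φ) {S : Set F}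
    (hval : ∀ a : A, (∀ σ ∈ G, σ a = a) → π a ∈ S) {T : J φ}
    (hT : ∀ (σ : M →+* M) (hσ : σ ∈ G), J.map σ (hG σ hσ) T = T) :
    h.sp hφ hψ T ∈ Rat ψ g S := by
  obtain ⟨m, hm, rfl⟩ := exists_reduced hφ T
  have hfix : ∀ σ ∈ G, ∀ n, σ ((upol m).coeff n) = (upol m).coeff n := by
    intro σ hσ n
    have h1 := fixed_reduced hφ σ (hG σ hσ) hm (hT σ hσ)
    have h2 := PRat_upol_map σ (hG σ hσ) m
    rw [h1] at h2
    rw [← coeff_map, ← h2]
  obtain ⟨c, a', b', hc, ha, hb, hab⟩ := exists_prim h (a := upol m) (b := 0)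
    (Or.inl (upol_monic m).ne_zero)
  have hb0 : b' = 0 := by
    apply Polynomial.map_injective A.subtype Subtype.val_injective
    rw [hb, mul_zero, Polynomial.map_zero]
  have ha0 : a'.map π ≠ 0 := by
    rcases hab with h1 | h1
    · exact h1
    · exact absurd (by rw [hb0, Polynomial.map_zero]) h1
  obtain ⟨n0, hn0⟩ : ∃ n0, π (a'.coeff n0) ≠ 0 := by
    by_contra h1
    push Not at h1
    apply ha0
    ext n
    rw [coeff_map, h1 n, coeff_zero]
  have hu := h.loc _ hn0
  set u : A := a'.coeff n0 with hu'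
  have hcoef : ∀ n, ((a'.coeff n : A) : M) = c * (upol m).coeff n := by
    intro n
    have h1 := congrArg (fun q => q.coeff n) ha
    simp only [coeff_map, coeff_C_mul] at h1
    exact h1
  have hu0 : (u : M) ≠ 0 := by
    intro h1
    apply hn0
    have h2 : u = 0 := Subtype.ext h1
    rw [h2, map_zero]
  have huu : (⟨(u : M)⁻¹, hu⟩ : A) * u = 1 := Subtype.ext (inv_mul_cancel₀ hu0)
  let v : A := ⟨(u : M)⁻¹, hu⟩
  have hpv : π v ≠ 0 := by
    intro h1
    have h2 := congrArg π huu
    rw [map_mul, map_one] at h2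
    change π v * π u = 1 at h2
    rw [h1, zero_mul] at h2
    exact zero_ne_one h2
  have hp0 : (C v * a').map π ≠ 0 := by
    rw [Polynomial.map_mul, map_C]
    exact mul_ne_zero (C_ne_zero.2 hpv) ha0
  have hpA : (C v * a').map A.subtype =
      C ((u : M)⁻¹ * c) * ((m.map Pt.x).map fun a => X - C a).prod := by
    rw [Polynomial.map_mul, map_C, ha, ← mul_assoc, Multiset.map_map]
    change C (u : M)⁻¹ * C c * upol m = C ((u : M)⁻¹ * c) * upol m
    rw [C_mul]
  obtain ⟨c', hc', hred⟩ := red_roots h (m.map Pt.x) hpA hp0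
  rw [PRat_redm h m, Multiset.map_map] at hred
  have hred' : (C v * a').map π = C c' * upol (h.redp m) := hred
  refine ⟨h.redp m, (PRat_card h m).trans hm.1, h.sp_clm hφ hψ m, c', hc', fun n => ?_⟩
  rw [← hred', coeff_map]
  apply hval
  intro σ hσ
  have h1 : (((C v * a').coeff n : A) : M) = (c * (upol m).coeff n0)⁻¹ * (c * (upol m).coeff n) := by
    rw [coeff_C_mul]
    change (u : M)⁻¹ * ((a'.coeff n : A) : M) = _
    rw [hcoef n, hu', hcoef n0]
  have h2 : (c * (upol m).coeff n0)⁻¹ * (c * (upol m).coeff n) =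
      ((upol m).coeff n0)⁻¹ * (upol m).coeff n := by
    rw [mul_inv, mul_comm c⁻¹, mul_assoc, ← mul_assoc c⁻¹, inv_mul_cancel₀ hc, one_mul]
  rw [h1, h2, map_mul, map_inv₀, hfix σ hσ, hfix σ hσ]

/-- chains of halves reduce to chains without two-torsion -/
theorem chain_rat [IsAlgClosed M] [IsAlgClosed F] (h : Plc A π φ ψ) (hφ : Good g φ)
    (hψ : Good g ψ) {G : Set (M →+* M)} (hG : ∀ σ ∈ G, φ.map σ = φ) {S : Set F}
    (hval : ∀ a : A, (∀ σ ∈ G, σ a = a) → π a ∈ S) (H : AddSubgroup (J ψ))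
    (hH : ∀ t ∈ H, (2 : ℕ) • t = 0 → t = 0)
    (hR : ∃ R : Set (J ψ), R.Finite ∧ ∀ z ∈ Rat ψ g S, ∃ t ∈ R, z - t ∈ H)
    {T : ℕ → J φ} (hT : ∀ n, (2 : ℕ) • T (n + 1) = T n)
    (hfix : ∀ (σ : M →+* M) (hσ : σ ∈ G) (n : ℕ), J.map σ (hG σ hσ) (T n) = T n)
    (m : ℕ) (hm : (2 : ℕ) • h.sp hφ hψ (T m) = 0) : h.sp hφ hψ (T m) = 0 := by
  obtain ⟨R, hR1, hR2⟩ := hR
  refine chain_zero H (fun n => h.sp hφ hψ (T n)) (fun n => ?_) hR1 (fun n => ?_) hH m hm
  · change (2 : ℕ) • h.sp hφ hψ (T (n + 1)) = h.sp hφ hψ (T n)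
    rw [← map_nsmul, hT]
  · exact hR2 _ (sp_mem_rat h hφ hψ hG hval fun σ hσ => hfix σ hσ n)

/-- **good places**: the values of the fixed elements form a finite set -/
theorem chain_good [IsAlgClosed M] [IsAlgClosed F] (h : Plc A π φ ψ) (hφ : Good g φ)
    (hψ : Good g ψ) {G : Set (M →+* M)} (hG : ∀ σ ∈ G, φ.map σ = φ) {S : Set F} (hS : S.Finite)
    (hval : ∀ a : A, (∀ σ ∈ G, σ a = a) → π a ∈ S)
    {T : ℕ → J φ} (hT : ∀ n, (2 : ℕ) • T (n + 1) = T n)
    (hfix : ∀ (σ : M →+* M) (hσ : σ ∈ G) (n : ℕ), J.map σ (hG σ hσ) (T n) = T n)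
    (m : ℕ) (hm : (2 : ℕ) • h.sp hφ hψ (T m) = 0) : h.sp hφ hψ (T m) = 0 := by
  refine chain_rat h hφ hψ hG hval ⊥ ?_ ⟨Rat ψ g S, rat_finite ψ g hS, fun z hz => ⟨z, hz, ?_⟩⟩
    hT hfix m hm
  · intro t ht _
    exact AddSubgroup.mem_bot.1 ht
  · rw [sub_self]; exact zero_mem _

end Pool.Agent.Lib.MP_2f3286_ag.HYP
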