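import Pool.Agent.Lib.MP_2f3286_ag.HYP.PRoot
import Pool.Agent.Lib.MP_2f3286_ag.HYP.PRat

/-!
# Compactness   (module PComp, 60 minutes)

PROOF. `K` is a topological field with a compact valuation ring `K₀`, `E` an algebraically closed field over `K` with a valuation ring `O` such that every `ε ≠ 0` in `E` bounds a neighbourhood of
`0` in `K` (`hnhd`). Let `𝒦` be the set of `a : Fin (g + 1) → K` with all `a i` in `K₀` and `a i = 1` for some `i`: compact (`isCompact_univ_pi` for `K₀`, intersected with a closed set; `K` is Hausdorff).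
For `a` in `𝒦` let `U_a = ∑ a_i X ^ i` over `E`, not zero, degree `≤ g`. `finite_close` gives `ε_a`, `S_a`; the `b` with `|b_i - a_i| ≤ |ε_a|` for all `i` form a neighbourhood of `a` (`hnhd`). By compactness
(`IsCompact.elim_nhds_subcover`) finitely many of them cover `𝒦`; `R` = union of the `S_a`, finite.
Let `z` be in `Rat φ g (range (algebraMap K E))`: `z = clm m`, `C c * upol m` has coefficients `algebraMap (b n)`, degree `≤ g`, `c ≠ 0`. Not all `b n` are `0` (`upol m` is monic). Let `b j` be of largest value for `K₀.valuation`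
among `b 0, ..., b g`, so `b j ≠ 0`, `a i = b i / b j` is in `K₀`, `a j = 1`: `a` is in `𝒦`, `C (c / b j) * upol m = U_a`. `a` is in the neighbourhood of some `a'` of the finite cover: the coefficients of
`C (c / b j) * upol m - U_{a'}` have values `≤ |ε_{a'}|`.
-/

open Polynomial

noncomputable section

namespace Pool.Agent.Lib.MP_2f3286_ag.HYP

/-- the polynomial over `E` with given coefficients in `K` -/
def upoly {K : Type*} [Field K] (E : Type*) [Field E] [Algebra K E] {g : ℕ}
    (a : Fin (g + 1) → K) : E[X] :=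
  ∑ i : Fin (g + 1), C (algebraMap K E (a i)) * X ^ (i : ℕ)

theorem upoly_coeff {K : Type*} [Field K] {E : Type*} [Field E] [Algebra K E] {g : ℕ}
    (a : Fin (g + 1) → K) (n : ℕ) :
    (upoly E a).coeff n = if h : n < g + 1 then algebraMap K E (a ⟨n, h⟩) else 0 := by
  rw [upoly, finsetSum_coeff]
  simp only [coeff_C_mul, coeff_X_pow, mul_ite, mul_one, mul_zero]
  split_ifs with h
  · rw [Finset.sum_eq_single (⟨n, h⟩ : Fin (g + 1))]
    · rw [if_pos rfl]
    · intro b _ hb
      rw [if_neg]
      intro hn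
      exact hb (Fin.ext hn.symm)
    · intro h'
      exact absurd (Finset.mem_univ _) h'
  · apply Finset.sum_eq_zero
    intro i _
    rw [if_neg]
    intro hn
    exact h (hn ▸ i.2)

theorem upoly_natDegree {K : Type*} [Field K] {E : Type*} [Field E] [Algebra K E] {g : ℕ}
    (a : Fin (g + 1) → K) : (upoly E a).natDegree ≤ g := by
  rw [natDegree_le_iff_coeff_eq_zero]
  intro n hn
  rw [upoly_coeff, dif_neg (by omega)]

theorem rat_finite_mod {K : Type*} [Field K] [TopologicalSpace K] [IsTopologicalRing K] [T2Space K]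
    {E : Type*} [Field E] [IsAlgClosed E] [Algebra K E] (K₀ : ValuationSubring K)
    (hK : IsCompact (K₀ : Set K)) {g : ℕ} {φ : E[X]} (hφ : Good g φ) (O : ValuationSubring E)
    (hO : ∃ ϖ : E, ϖ ≠ 0 ∧ O.valuation ϖ < 1)
    (hnhd : ∀ ε : E, ε ≠ 0 → {x : K | O.valuation (algebraMap K E x) ≤ O.valuation ε} ∈ nhds 0)
    {r : E} (hr : r ≠ 0) :
    ∃ R : Set (J φ), R.Finite ∧ ∀ z ∈ Rat φ g (Set.range (algebraMap K E)),
      ∃ t ∈ R, z - t ∈ HR φ O r := by
  classical
  -- the compact set of normalised coefficients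
  set 𝒦 : Set (Fin (g + 1) → K) := {a | (∀ i, a i ∈ K₀) ∧ ∃ i, a i = 1} with h𝒦
  have hcomp : IsCompact 𝒦 := by
    have h1 : IsCompact (Set.pi Set.univ fun _ : Fin (g + 1) => (K₀ : Set K)) :=
      isCompact_univ_pi fun _ => hK
    have h2 : IsClosed (⋃ i : Fin (g + 1), {a : Fin (g + 1) → K | a i = 1}) :=
      isClosed_iUnion_of_finite fun i => isClosed_eq (continuous_apply i) continuous_const
    have h3 : 𝒦 = (Set.pi Set.univ fun _ : Fin (g + 1) => (K₀ : Set K)) ∩
        ⋃ i : Fin (g + 1), {a : Fin (g + 1) → K | a i = 1} := by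
      ext a
      rw [h𝒦, Set.mem_inter_iff, Set.mem_univ_pi, Set.mem_iUnion]
      rfl
    rw [h3]
    exact h1.inter_right h2
  have hne : ∀ a ∈ 𝒦, (upoly E a) ≠ 0 := by
    rintro a ⟨-, i, hi⟩ h0
    have h1 := upoly_coeff (E := E) a (i : ℕ)
    rw [h0, coeff_zero, dif_pos i.2] at h1
    have h2 : (⟨(i : ℕ), i.2⟩ : Fin (g + 1)) = i := rfl
    rw [h2, hi, map_one] at h1
    exact zero_ne_one h1
  have key : ∀ a : 𝒦, ∃ ε : E, ε ≠ 0 ∧ ∃ S : Set (J φ), S.Finite ∧
      ∀ (m : Multiset (Pt φ)) (c : E), m.card ≤ g →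
      (∀ n, O.valuation ((C c * upol m - upoly E a.1).coeff n) ≤ O.valuation ε) →
        ∃ t ∈ S, clm m - t ∈ HR φ O r := fun a =>
    finite_close hφ O hO (hne a.1 a.2) (upoly_natDegree a.1) hr
  choose ε hε S hS hclose using key
  have hcov := hcomp.elim_nhds_subcover'
    (fun a ha => {b | ∀ i, O.valuation (algebraMap K E (b i - a i)) ≤
      O.valuation (ε ⟨a, ha⟩)}) (by
      intro a ha
      have h1 : ∀ i, ∀ᶠ b in nhds a, O.valuation (algebraMap K E (b i - a i)) ≤
          O.valuation (ε ⟨a, ha⟩) := by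
        intro i
        have h2 : Filter.Tendsto (fun b : Fin (g + 1) → K => b i - a i) (nhds a) (nhds 0) := by
          have h3 : Continuous fun b : Fin (g + 1) → K => b i - a i :=
            (continuous_apply i).sub continuous_const
          have h4 := h3.tendsto a
          rwa [sub_self] at h4
        exact h2 (hnhd _ (hε ⟨a, ha⟩))
      exact Filter.eventually_all.2 h1)
  obtain ⟨T, hT⟩ := hcov
  refine ⟨⋃ a ∈ T, S a, T.finite_toSet.biUnion fun a _ => hS a, ?_⟩
  rintro z ⟨m, hm, rfl, c, hc, hcoef⟩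
  choose b hb using hcoef
  have hp0 : C c * upol m ≠ 0 := mul_ne_zero (C_ne_zero.2 hc) (upol_monic m).ne_zero
  have hdeg : ∀ n, g < n → (C c * upol m).coeff n = 0 := by
    intro n hn
    apply coeff_eq_zero_of_natDegree_lt
    calc (C c * upol m).natDegree ≤ (upol m).natDegree := natDegree_C_mul_le _ _
      _ = m.card := upol_natDegree m
      _ ≤ g := hm
      _ < n := hn
  obtain ⟨j, -, hj⟩ := Finset.exists_max_image (Finset.univ : Finset (Fin (g + 1)))
    (fun i => K₀.valuation (b i)) ⟨0, Finset.mem_univ _⟩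
  have hbj : b j ≠ 0 := by
    intro h0
    apply hp0
    ext n
    rw [coeff_zero]
    by_cases hn : n < g + 1
    · have h1 := hj ⟨n, hn⟩ (Finset.mem_univ _)
      simp only [h0, map_zero] at h1
      have h2 : b n = 0 := (map_eq_zero K₀.valuation).1 (le_antisymm h1 zero_le)
      rw [← hb n, h2, map_zero]
    · exact hdeg n (by omega)
  set β : E := algebraMap K E (b j) with hβ
  have hβ0 : β ≠ 0 := by
    rw [hβ]
    exact (_root_.map_ne_zero _).2 hbj
  set a : Fin (g + 1) → K := fun i => b i / b j with ha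
  have haK : a ∈ 𝒦 := by
    refine ⟨fun i => ?_, j, div_self hbj⟩
    rw [← K₀.valuation_le_one_iff, ha]
    simp only [map_div₀]
    exact div_le_one_of_le₀ (hj i (Finset.mem_univ _)) zero_le
  have haU : C (c / β) * upol m = upoly E a := by
    ext n
    rw [upoly_coeff, coeff_C_mul]
    split_ifs with h
    · rw [ha]
      simp only [map_div₀]
      rw [hb n, coeff_C_mul, ← hβ]
      ring
    · have h1 := hdeg n (by omega)
      rw [coeff_C_mul] at h1
      rcases mul_eq_zero.1 h1 with h2 | h2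
      · exact absurd h2 hc
      · rw [h2, mul_zero]
  have hmem := hT haK
  rw [Set.mem_iUnion₂] at hmem
  obtain ⟨a', ha'T, ha'⟩ := hmem
  obtain ⟨t, ht, hzt⟩ := hclose a' m (c / β) hm (by
    intro n
    rw [haU, coeff_sub, upoly_coeff, upoly_coeff]
    split_ifs with h
    · rw [← map_sub]
      exact ha' ⟨n, h⟩
    · rw [sub_zero, map_zero]
      exact zero_le)
  exact ⟨t, Set.mem_iUnion₂.2 ⟨a', ha'T, ht⟩, hzt⟩

end Pool.Agent.Lib.MP_2f3286_ag.HYP
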