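import Pool.Agent.Lib.MP_2f3286_ag.HYP.PNoRel
import Pool.Agent.Lib.MP_2f3286_ag.HYP.Two

/-!
# The group generated by the points far away has no two-torsion   (module PFar, 60 minutes)

PROOF. `mem_HR`: the set `{clm t : all points of t far}` is a subgroup (`clm_add`, `clm_inv`, `P.inv.x = P.x`) and contains the generators.
`HR_two`: `z = clm t`, all points `P` of `t` with `r * P.x ∉ O`; `2 z = 0`: `z = clm m`, `m` without duplicates, all points of `m` of the form
`(e, 0)`, `m` reduced, `m.card ≤ g` (`two_torsion`). If `m = 0`, `z = 0`. Otherwise `clm (m + t) = 2 z = 0`, so `(h) = idm (m + t)`, `h ≠ 0`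
(`clm_eq_zero_iff`), `h = a + b y`, `a ^ 2 - φ b ^ 2 = c ∏_{m} (X - e) ∏_{t} (X - x)` (`norm_fac`, `norm_eq`). `φ = ∏_{m} (X - e) * P'`, `P' = ∏` over the other roots `s'`
(`φ` is monic, splits, separable: `φ = ∏ (X - e)` over `φ.roots`, and `m.map Pt.x ≤ φ.roots` since `m` has no duplicates and the points
`(e, 0)` are determined by `e`); `s' ≠ 0` because `m.card ≤ g < 2 g + 1`. At a root `e` of `∏_{m}`: `a(e) ^ 2 = 0`, so `∏_{m} (X - e)` divides `a`, `a = ∏_{m} (X - e) * a₁`. Cancel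
`∏_{m} (X - e)`: `∏_{m} (X - e) a₁ ^ 2 - P' b ^ 2 = c ∏_{t} (X - x)`. Substitute `X / r` for `X` (`Polynomial.comp (C r⁻¹ * X)`): `X / r - e = (X - r e) / r`, so this is a relation
`u ∏ (X - r e) a₂ ^ 2 - w ∏ (X - r e') b₂ ^ 2 = c' ∏ (X - r x)` with `u, w, c' ≠ 0`: contradiction to `no_rel`; the number of roots is `2 g + 1`, odd.
-/

open Polynomial

noncomputable section

namespace Pool.Agent.Lib.MP_2f3286_ag.HYP

variable {E : Type*} [Field E] {g : ℕ} {φ : E[X]}

/-- the subgroup generated by the classes of the points `P` with `r * P.x` not in `O` -/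
def HR (φ : E[X]) (O : ValuationSubring E) (r : E) : AddSubgroup (J φ) :=
  AddSubgroup.closure {z | ∃ P : Pt φ, r * P.x ∉ O ∧ z = cl P}

theorem mem_HR (hφ : Good g φ) (O : ValuationSubring E) (r : E) {z : J φ} :
    z ∈ HR φ O r ↔ ∃ t : Multiset (Pt φ), (∀ P ∈ t, r * P.x ∉ O) ∧ z = clm t := by
  constructor
  · intro hz
    refine AddSubgroup.closure_induction (p := fun z _ =>
      ∃ t : Multiset (Pt φ), (∀ P ∈ t, r * P.x ∉ O) ∧ z = clm t) ?_ ?_ ?_ ?_ hz
    · rintro z ⟨P, hP, rfl⟩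
      refine ⟨{P}, fun Q hQ => ?_, (clm_singleton P).symm⟩
      rw [Multiset.mem_singleton.1 hQ]
      exact hP
    · exact ⟨0, fun P hP => absurd hP (Multiset.notMem_zero P), clm_zero.symm⟩
    · rintro z z' _ _ ⟨t, ht, rfl⟩ ⟨t', ht', rfl⟩
      refine ⟨t + t', fun P hP => ?_, (clm_add t t').symm⟩
      rcases Multiset.mem_add.1 hP with h | h
      · exact ht P h
      · exact ht' P h
    · rintro z _ ⟨t, ht, rfl⟩
      refine ⟨t.map Pt.inv, fun P hP => ?_, (clm_inv hφ t).symm⟩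
      obtain ⟨Q, hQ, rfl⟩ := Multiset.mem_map.1 hP
      exact ht Q hQ
  · rintro ⟨t, ht, rfl⟩
    induction t using Multiset.induction_on with
    | empty =>
      rw [clm_zero]
      exact AddSubgroup.zero_mem _
    | cons P t ih =>
      rw [clm_cons]
      exact AddSubgroup.add_mem _
        (AddSubgroup.subset_closure ⟨P, ht P (Multiset.mem_cons_self P t), rfl⟩)
        (ih fun Q hQ => ht Q (Multiset.mem_cons_of_mem hQ))

private theorem far_comp (r : E) (hr : r ≠ 0) (s : Multiset E) :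
    ((s.map fun e => X - C e).prod).comp (C r⁻¹ * X) =
      C (r⁻¹ ^ s.card) * ((s.map fun e => r * e).map fun e => X - C e).prod := by
  induction s using Multiset.induction_on with
  | empty => simp
  | cons a s ih =>
    rw [Multiset.map_cons, Multiset.prod_cons, mul_comp, ih, Multiset.map_cons, Multiset.map_cons,
      Multiset.prod_cons, Multiset.card_cons, pow_succ, C_mul, sub_comp, X_comp, C_comp]
    have h1 : (C r⁻¹ * X - C a : E[X]) = C r⁻¹ * (X - C (r * a)) := by
      rw [mul_sub, ← C_mul, inv_mul_cancel_left₀ hr]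
    rw [h1]
    ring

private theorem far_map (m : Multiset (Pt φ)) :
    (m.map fun P => X - C P.x).prod = ((m.map Pt.x).map fun e => X - C e).prod := by
  rw [Multiset.map_map]
  rfl

theorem HR_two [IsAlgClosed E] (hφ : Good g φ) (hm : φ.Monic) (O : ValuationSubring E) {r : E}
    (hr : r ≠ 0) (hroot : ∀ e, φ.eval e = 0 → O.valuation (r * e) < 1) :
    ∀ z ∈ HR φ O r, (2 : ℕ) • z = 0 → z = 0 := by
  classical
  intro z hz h2
  obtain ⟨t, ht, hzt⟩ := (mem_HR hφ O r).1 hz
  obtain ⟨m, hm1, hm2, hm3, hzm⟩ := two_torsion hφ h2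
  by_cases hm0 : m = 0
  · rw [hzm, hm0, clm_zero]
  exfalso
  have h3 : clm (m + t) = 0 := by
    rw [clm_add, ← hzm, ← hzt, ← two_nsmul]
    exact h2
  obtain ⟨h, h0, hh⟩ := (clm_eq_zero_iff hφ (m + t)).1 h3
  obtain ⟨c, hc, hn⟩ := norm_fac hφ h0 hh
  have hφ0 : φ ≠ 0 := hm.ne_zero
  -- the roots
  have hnd : (m.map Pt.x).Nodup := by
    refine Multiset.Nodup.map_on ?_ hm2
    intro P hP Q hQ hPQ
    ext
    · exact hPQ
    · rw [hm3 P hP, hm3 Q hQ]
  have hroots : ∀ P ∈ m, φ.eval P.x = 0 := by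
    intro P hP
    rw [← P.eqn, hm3 P hP]
    ring
  have hle : m.map Pt.x ≤ φ.roots := by
    rw [Multiset.le_iff_subset hnd]
    intro a ha
    obtain ⟨P, hP, rfl⟩ := Multiset.mem_map.1 ha
    rw [mem_roots hφ0]
    exact hroots P hP
  obtain ⟨s', hs'⟩ := Multiset.le_iff_exists_add.1 hle
  have hsplit : (φ.roots.map fun a => X - C a).prod = φ := by
    have h5 := (IsAlgClosed.splits φ).eq_prod_roots
    rw [hm.leadingCoeff, C_1, one_mul] at h5
    exact h5.symm
  have hcard : φ.roots.card = 2 * g + 1 := by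
    rw [← hφ.deg]
    exact (IsAlgClosed.splits φ).natDegree_eq_card_roots.symm
  set A : E[X] := ((m.map Pt.x).map fun e => X - C e).prod with hA
  set P' : E[X] := (s'.map fun e => X - C e).prod with hP'
  set T : E[X] := ((t.map Pt.x).map fun e => X - C e).prod with hT
  have hfac : φ = A * P' := by
    rw [← hsplit, hs', Multiset.map_add, Multiset.prod_add]
  have hA0 : A ≠ 0 := by
    intro h5
    rw [h5, zero_mul] at hfac
    exact hφ0 hfac
  have hsq : Squarefree A := hφ.sep.squarefree.squarefree_of_dvd ⟨P', hfac⟩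
  have hnn : h.re ^ 2 - φ * h.im ^ 2 = C c * (A * T) := by
    rw [← norm_eq, hn, Multiset.map_add, Multiset.prod_add, far_map, far_map]
  have hdvd : A ∣ h.re ^ 2 := by
    refine ⟨P' * h.im ^ 2 + C c * T, ?_⟩
    linear_combination hnn + h.im ^ 2 * hfac
  obtain ⟨a₁, ha₁⟩ := (hsq.dvd_pow_iff_dvd two_ne_zero).1 hdvd
  have hcan : A * a₁ ^ 2 - P' * h.im ^ 2 = C c * T := by
    apply mul_left_cancel₀ hA0
    linear_combination hnn - (h.re + A * a₁) * ha₁ + h.im ^ 2 * hfac
  have hcomp := congrArg (fun p : E[X] => p.comp (C r⁻¹ * X)) hcan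
  simp only [sub_comp, mul_comp, pow_comp, C_comp] at hcomp
  rw [hA, hP', hT, far_comp r hr, far_comp r hr, far_comp r hr] at hcomp
  have hr' : r⁻¹ ≠ 0 := inv_ne_zero hr
  refine no_rel O (s := (m.map Pt.x).map fun e => r * e) (s' := s'.map fun e => r * e)
    (t := (t.map Pt.x).map fun e => r * e) ?_ ?_ ?_ ?_ ?_ ?_
    (a := a₁.comp (C r⁻¹ * X)) (b := h.im.comp (C r⁻¹ * X))
    (u := r⁻¹ ^ (m.map Pt.x).card) (w := r⁻¹ ^ s'.card)
    (c := c * r⁻¹ ^ (t.map Pt.x).card) (mul_ne_zero hc (pow_ne_zero _ hr')) ?_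
  · intro a ha
    obtain ⟨e, he, rfl⟩ := Multiset.mem_map.1 ha
    obtain ⟨P, hP, rfl⟩ := Multiset.mem_map.1 he
    exact hroot _ (hroots P hP)
  · intro a ha
    obtain ⟨e, he, rfl⟩ := Multiset.mem_map.1 ha
    refine hroot _ ?_
    have h7 : e ∈ φ.roots := by
      rw [hs']
      exact Multiset.mem_add.2 (Or.inr he)
    exact (mem_roots hφ0).1 h7
  · intro h7
    apply hm0
    rw [← Multiset.card_eq_zero] at h7 ⊢
    rw [Multiset.card_map, Multiset.card_map] at h7
    exact h7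
  · intro h7
    rw [← Multiset.card_eq_zero, Multiset.card_map] at h7
    rw [hs', Multiset.card_add, h7, Multiset.card_map] at hcard
    have := hm1.1
    omega
  · rw [hs', Multiset.card_add] at hcard
    simp only [Multiset.card_map] at hcard ⊢
    exact ⟨g, hcard⟩
  · intro x hx
    obtain ⟨e, he, rfl⟩ := Multiset.mem_map.1 hx
    obtain ⟨P, hP, rfl⟩ := Multiset.mem_map.1 he
    exact ht P hP
  · rw [C_mul]
    linear_combination hcomp

end Pool.Agent.Lib.MP_2f3286_ag.HYP
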