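import Pool.Agent.Lib.MP_2f3286_ag.HYP.PFar

/-!
# Two points which are close to each other, the identity   (module PNear, 60 minutes)

PROOF. `dq p a = (p - p(a)) / (X - a)`. `dq_spec`: `p - C (p(a)) = (X - C a) * dq p a` (`Polynomial.mul_divByMonic_eq_iff_isRoot`,
`mul_div_mod_by_monic_cancel_left`..). Let `Q = (q, r₀)`, `U = (u, w)`, `q ≠ u`, `r₀ + w ≠ 0`, `B = (q - u) / (r₀ + w) ≠ 0`, `D = dq (dq φ q) u`.
`near_norm`: `(X - q + B r₀) ^ 2 - B ^ 2 φ = (X - q) (X - u) (1 - B ^ 2 D)`. Proof: `r₀ ^ 2 = φ(q)`, `φ = φ(q) + (X - q) φ₁`, `φ₁ = dq φ q = φ₁(u) + (X - u) D`; `φ₁(u) = (φ(u) - φ(q)) / (u - q)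
= (w ^ 2 - r₀ ^ 2) / (u - q) = (r₀ - w) / B`, i.e. `B φ₁(u) = r₀ - w` and `B (r₀ + w) = q - u`. Then `linear_combination`.
`near_key`: `h = (X - q + B r₀) - B y ≠ 0` is in `Q.idl` (`q - q + B r₀ - B r₀ = 0`) and in `U.inv.idl` (`U.inv = (u, - w)`: `u - q + B r₀ + B w = 0`), these are different maximal
ideals (`q ≠ u`), so `(h) = idm m'` with `m' = Q ::ₘ U.inv ::ₘ t` (`mem_idm_iff` for the multiset `Q ::ₘ {U.inv}`; `h ∈ idm (Q ::ₘ {U.inv})` because the product of two different maximal ideals is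
their intersection: `Ideal.mul_eq_inf_of_coprime`/`Ideal.IsMaximal.coprime_of_ne`). `norm_fac` and `near_norm`: `(X - q)(X - u)(1 - B ^ 2 D) = c (X - q)(X - u) upol t`, cancel: `1 - B ^ 2 D = c upol t`. So for
`P ∈ t`: `B ^ 2 D(P.x) = 1`, by hypothesis `r * P.x ∉ O`. `clm_of_span`: `cl Q + cl U.inv + clm t = 0`, `cl U.inv = - cl U`: `cl Q - cl U = - clm t ∈ HR`.
-/

open Polynomial

noncomputable section

namespace Pool.Agent.Lib.MP_2f3286_ag.HYP

variable {E : Type*} [Field E] {g : ℕ} {φ : E[X]}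

/-- the divided difference `(p - p(a)) / (X - a)` -/
def dq (p : E[X]) (a : E) : E[X] := (p - C (p.eval a)) /ₘ (X - C a)

theorem dq_spec (p : E[X]) (a : E) : p = C (p.eval a) + (X - C a) * dq p a := by
  have h : (X - C a) * ((p - C (p.eval a)) /ₘ (X - C a)) = p - C (p.eval a) := by
    rw [mul_divByMonic_eq_iff_isRoot, IsRoot.def, eval_sub, eval_C, sub_self]
  rw [dq, h]
  ring

private theorem near_aux {Q U : Pt φ} (hx : Q.x ≠ U.x) (hy : Q.y + U.y ≠ 0) :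
    (Q.x - U.x) / (Q.y + U.y) * (dq φ Q.x).eval U.x = Q.y - U.y := by
  have h1 := congrArg (eval U.x) (dq_spec φ Q.x)
  rw [eval_add, eval_C, eval_mul, eval_sub, eval_X, eval_C, ← Q.eqn, ← U.eqn] at h1
  rw [div_mul_eq_mul_div, div_eq_iff hy]
  linear_combination h1

theorem near_norm {Q U : Pt φ} (hx : Q.x ≠ U.x) (hy : Q.y + U.y ≠ 0) :
    (X - C Q.x + C ((Q.x - U.x) / (Q.y + U.y) * Q.y)) ^ 2 -
        C ((Q.x - U.x) / (Q.y + U.y)) ^ 2 * φ =
      (X - C Q.x) * (X - C U.x) *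
        (1 - C ((Q.x - U.x) / (Q.y + U.y)) ^ 2 * dq (dq φ Q.x) U.x) := by
  have h1 := dq_spec φ Q.x
  have h2 := dq_spec (dq φ Q.x) U.x
  have h3 := near_aux hx hy
  have h4 : (Q.x - U.x) / (Q.y + U.y) * (Q.y + U.y) = Q.x - U.x := div_mul_cancel₀ _ hy
  rw [← Q.eqn] at h1
  generalize (Q.x - U.x) / (Q.y + U.y) = B at h3 h4 ⊢
  generalize hf : (dq φ Q.x).eval U.x = f at h2 h3
  generalize dq (dq φ Q.x) U.x = D at h2 ⊢
  have h5 : C B * C f = C Q.y - C U.y := by rw [← C_mul, h3, C_sub]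
  have h6 : C B * (C Q.y + C U.y) = C Q.x - C U.x := by rw [← C_add, ← C_mul, h4, C_sub]
  rw [C_pow] at h1
  rw [C_mul]
  linear_combination (-(C B) ^ 2) * h1 - (C B) ^ 2 * (X - C Q.x) * h2 + (X - C Q.x) * h6 -
    (X - C Q.x) * C B * h5

theorem near_key [IsAlgClosed E] (hφ : Good g φ) (O : ValuationSubring E) (r : E) {Q U : Pt φ}
    (hx : Q.x ≠ U.x) (hy : Q.y + U.y ≠ 0)
    (hfar : ∀ z : E, r * z ∈ O →
      ((Q.x - U.x) / (Q.y + U.y)) ^ 2 * (dq (dq φ Q.x) U.x).eval z ≠ 1) :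
    cl Q - cl U ∈ HR φ O r := by
  have hn := near_norm hx hy
  have h4 : (Q.x - U.x) / (Q.y + U.y) * (Q.y + U.y) = Q.x - U.x := div_mul_cancel₀ _ hy
  generalize (Q.x - U.x) / (Q.y + U.y) = B at hn h4 hfar
  generalize dq (dq φ Q.x) U.x = D at hn hfar
  have hB : B ≠ 0 := by
    rintro rfl
    rw [zero_mul] at h4
    exact hx (sub_eq_zero.mp h4.symm)
  obtain ⟨h, hh⟩ : ∃ h : CR φ, h = ⟨X - C Q.x + C (B * Q.y), -C B⟩ := ⟨_, rfl⟩
  have hre : h.re = X - C Q.x + C (B * Q.y) := by rw [hh]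
  have him : h.im = -C B := by rw [hh]
  have h0 : h ≠ 0 := by
    intro e
    have e1 := congrArg QuadraticAlgebra.im e
    rw [him, QuadraticAlgebra.im_zero, neg_eq_zero, C_eq_zero] at e1
    exact hB e1
  have hQ : h ∈ Q.idl := by
    rw [Pt.mem_idl, hre, him]
    simp only [eval_add, eval_sub, eval_X, eval_C, eval_neg]
    ring
  have hU : h ∈ U.inv.idl := by
    rw [Pt.mem_idl, hre, him]
    simp only [eval_add, eval_sub, eval_X, eval_C, eval_neg, Pt.inv]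
    linear_combination h4
  have hne : Q.idl ≠ U.inv.idl := by
    intro e
    have e1 := congrArg Pt.x (idl_injective e)
    exact hx e1
  have hcop : Q.idl ⊔ U.inv.idl = ⊤ :=
    (idl_isMaximal Q).coprime_of_ne (idl_isMaximal U.inv) hne
  have hmem : h ∈ idm (Q ::ₘ {U.inv}) := by
    rw [idm_cons, idm_singleton, Ideal.mul_eq_inf_of_coprime hcop]
    exact ⟨hQ, hU⟩
  obtain ⟨t, ht⟩ := (mem_idm_iff hφ h0).mp hmem
  obtain ⟨c, hc, hnorm⟩ := norm_fac hφ h0 ht
  have hpoly : 1 - C B ^ 2 * D = C c * upol t := by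
    have e1 : (X - C Q.x) * (X - C U.x) * (1 - C B ^ 2 * D) =
        (X - C Q.x) * (X - C U.x) * (C c * upol t) := by
      rw [← hn]
      rw [norm_eq, hre, him] at hnorm
      have e2 : (Multiset.map (fun P : Pt φ => X - C P.x) (Q ::ₘ {U.inv} + t)).prod =
          (X - C Q.x) * ((X - C U.x) * upol t) := by
        rw [Multiset.map_add, Multiset.prod_add, Multiset.map_cons, Multiset.prod_cons,
          Multiset.map_singleton, Multiset.prod_singleton, upol, mul_assoc]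
        rfl
      rw [e2] at hnorm
      linear_combination hnorm
    exact mul_left_cancel₀ (mul_ne_zero (X_sub_C_ne_zero _) (X_sub_C_ne_zero _)) e1
  have hcl : cl Q - cl U = -clm t := by
    have e1 := clm_of_span h0 ht
    rw [clm_add, clm_cons, clm_singleton, cl_inv hφ] at e1
    have e2 : cl Q - cl U + clm t = 0 := by rw [← e1]; abel
    exact eq_neg_of_add_eq_zero_left e2
  rw [hcl]
  apply neg_mem
  apply (mem_HR hφ O r).mpr
  refine ⟨t, ?_, rfl⟩
  intro P hP hO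
  apply hfar P.x hO
  have e1 := congrArg (eval P.x) hpoly
  rw [eval_mul, (upol_eval t P.x).mpr ⟨P, hP, rfl⟩, mul_zero, eval_sub, eval_one, eval_mul,
    eval_pow, eval_C] at e1
  exact (sub_eq_zero.mp e1).symm

end Pool.Agent.Lib.MP_2f3286_ag.HYP
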