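import Mathlib

/-!
# No relation with points far away   (module PNoRel, 60 minutes)

PROOF. `O` is a valuation ring of `E` with maximal ideal `𝔪`, residue field `κ`. `P = ∏_{a ∈ s} (X - a)`, `P' = ∏_{a ∈ s'} (X - a)` have coefficients in `O` and reduce to
`X ^ n`, `X ^ n'`, `n, n' ≥ 1`, `n + n'` odd. `∏_{x ∈ t} (X - x) = ∏ (- x) * ∏ (1 - X / x)`, and `1 - X / x` has coefficients in `O` and reduces to `1` (`1 / x ∈ 𝔪`
because `x ∉ O`). Suppose `u P a ^ 2 - w P' b ^ 2 = c ∏ (X - x)`, `c ≠ 0`. Write `a = α a₁` with `a₁` over `O`, not `0` mod `𝔪` (divide by the coefficient of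
largest value; if `a = 0` take `α = 0`, `a₁ = 1`), `b = β b₁` the same. So `(u α ^ 2) P a₁ ^ 2 - (w β ^ 2) P' b₁ ^ 2 = c' Π`, `c' ≠ 0`, `Π` over `O` reduces to `1`. Divide by
the one of the three constants `u α ^ 2`, `w β ^ 2`, `c'` with the largest value and reduce to `κ[X]`:
`A X ^ n ā ^ 2 - B X ^ n' b̄ ^ 2 = c̄` with `A, B, c̄` in `κ`, not all zero, `ā, b̄ ≠ 0`. At `X = 0`: `c̄ = 0`. So `A X ^ n ā ^ 2 = B X ^ n' b̄ ^ 2`,
`A` and `B` are not zero, the degrees are `n + 2 deg ā = n' + 2 deg b̄`: contradiction to the parity.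
(`O.valuation`, `ValuationSubring`; reduction: `IsLocalRing.residue O`; a polynomial over `E` with coefficients in `O` is `p.map O.subtype`:
`Polynomial.lifts`/`Polynomial.toSubring`/`Polynomial.map_...`.)
-/

open Polynomial

namespace Pool.Agent.Lib.MP_2f3286_ag.HYP

private theorem PNoRel_fin {κ : Type*} [Field κ] (A B D : κ) (n n' : ℕ) (hn : n ≠ 0)
    (hn' : n' ≠ 0) (hodd : Odd (n + n')) (a b : κ[X]) (ha : a ≠ 0) (hb : b ≠ 0)
    (h : C A * X ^ n * a ^ 2 - C B * X ^ n' * b ^ 2 = C D) : A = 0 ∧ B = 0 ∧ D = 0 := by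
  have hD : D = 0 := by
    have h1 := congrArg (Polynomial.eval 0) h
    simp only [eval_sub, eval_mul, eval_C, eval_pow, eval_X, zero_pow hn, zero_pow hn', mul_zero,
      zero_mul, sub_zero] at h1
    exact h1.symm
  rw [hD, C_0, sub_eq_zero] at h
  have ha2 : a ^ 2 ≠ 0 := pow_ne_zero 2 ha
  have hb2 : b ^ 2 ≠ 0 := pow_ne_zero 2 hb
  have hX : ∀ m : ℕ, (X : κ[X]) ^ m ≠ 0 := fun m => pow_ne_zero m X_ne_zero
  by_cases hA : A = 0
  · refine ⟨hA, ?_, hD⟩
    rw [hA, C_0, zero_mul, zero_mul] at h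
    rcases mul_eq_zero.1 h.symm with h1 | h1
    · rcases mul_eq_zero.1 h1 with h2 | h2
      · exact C_eq_zero.1 h2
      · exact absurd h2 (hX n')
    · exact absurd h1 hb2
  · exfalso
    have hB : B ≠ 0 := by
      rintro rfl
      rw [C_0, zero_mul, zero_mul] at h
      rcases mul_eq_zero.1 h with h1 | h1
      · rcases mul_eq_zero.1 h1 with h2 | h2
        · exact hA (C_eq_zero.1 h2)
        · exact absurd h2 (hX n)
      · exact absurd h1 ha2
    have h3 := congrArg natDegree h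
    rw [natDegree_mul (mul_ne_zero (fun h => hA (C_eq_zero.1 h)) (hX n)) ha2,
      natDegree_mul (mul_ne_zero (fun h => hB (C_eq_zero.1 h)) (hX n')) hb2,
      natDegree_C_mul_X_pow n A hA, natDegree_C_mul_X_pow n' B hB, natDegree_pow,
      natDegree_pow] at h3
    obtain ⟨k, hk⟩ := hodd
    omega

section

variable {E : Type*} [Field E] (O : ValuationSubring E)

private theorem PNoRel_near (s : Multiset E) (hs : ∀ a ∈ s, O.valuation a < 1) :
    ∃ P : O[X], P.map (algebraMap O E) = (s.map fun e => X - C e).prod ∧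
      P.map (IsLocalRing.residue O) = X ^ s.card := by
  induction s using Multiset.induction_on with
  | empty =>
    refine ⟨1, ?_, ?_⟩
    · simp
    · simp
  | cons a s ih =>
    obtain ⟨P, h1, h2⟩ := ih fun x hx => hs x (Multiset.mem_cons_of_mem hx)
    have ha := hs a (Multiset.mem_cons_self a s)
    have haO : a ∈ O := O.mem_of_valuation_le_one a ha.le
    refine ⟨(X - C ⟨a, haO⟩) * P, ?_, ?_⟩
    · rw [Polynomial.map_mul, h1, Multiset.map_cons, Multiset.prod_cons, Polynomial.map_sub,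
        map_X, map_C]
      rfl
    · rw [Polynomial.map_mul, h2, Polynomial.map_sub, map_X, map_C, Multiset.card_cons]
      have h3 : IsLocalRing.residue O ⟨a, haO⟩ = 0 := by
        rw [IsLocalRing.residue_eq_zero_iff, O.valuation_lt_one_iff]
        exact ha
      rw [h3, C_0, sub_zero, pow_succ']

private theorem PNoRel_far (t : Multiset E) (ht : ∀ x ∈ t, x ∉ O) :
    ∃ (c : E) (P : O[X]), c ≠ 0 ∧ C c * P.map (algebraMap O E) = (t.map fun e => X - C e).prod ∧
      P.map (IsLocalRing.residue O) = 1 := by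
  induction t using Multiset.induction_on with
  | empty =>
    refine ⟨1, 1, one_ne_zero, ?_, ?_⟩
    · simp
    · simp
  | cons a t ih =>
    obtain ⟨c, P, h0, h1, h2⟩ := ih fun x hx => ht x (Multiset.mem_cons_of_mem hx)
    have ha := ht a (Multiset.mem_cons_self a t)
    have ha0 : a ≠ 0 := by
      rintro rfl
      exact ha O.zero_mem
    have hv : O.valuation a⁻¹ < 1 := by
      have h3 : 1 < O.valuation a := by
        by_contra h4
        exact ha (O.mem_of_valuation_le_one a (not_lt.1 h4))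
      rw [map_inv₀]
      exact inv_lt_one_of_one_lt₀ h3
    have hiO : a⁻¹ ∈ O := O.mem_of_valuation_le_one _ hv.le
    refine ⟨-a * c, (1 - C ⟨a⁻¹, hiO⟩ * X) * P, mul_ne_zero (neg_ne_zero.2 ha0) h0, ?_, ?_⟩
    · rw [Polynomial.map_mul, Multiset.map_cons, Multiset.prod_cons, ← h1, Polynomial.map_sub,
        Polynomial.map_mul, map_X, map_C, Polynomial.map_one]
      have h3 : algebraMap O E ⟨a⁻¹, hiO⟩ = a⁻¹ := rfl
      have h4 : (C a * C a⁻¹ : E[X]) = 1 := by rw [← C_mul, mul_inv_cancel₀ ha0, C_1]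
      rw [h3, C_mul, C_neg]
      calc -C a * C c * ((1 - C a⁻¹ * X) * P.map (algebraMap O E)) =
          ((C a * C a⁻¹) * X - C a) * (C c * P.map (algebraMap O E)) := by ring
        _ = _ := by rw [h4, one_mul]
    · rw [Polynomial.map_mul, h2, Polynomial.map_sub, Polynomial.map_mul, map_X, map_C,
        Polynomial.map_one, mul_one]
      have h3 : IsLocalRing.residue O ⟨a⁻¹, hiO⟩ = 0 := by
        rw [IsLocalRing.residue_eq_zero_iff, O.valuation_lt_one_iff]
        exact hv
      rw [h3, C_0, zero_mul, sub_zero]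

private theorem PNoRel_norm (a : E[X]) :
    ∃ (α : E) (P : O[X]), a = C α * P.map (algebraMap O E) ∧
      P.map (IsLocalRing.residue O) ≠ 0 := by
  by_cases ha : a = 0
  · refine ⟨0, 1, ?_, ?_⟩
    · rw [ha, C_0, zero_mul]
    · rw [Polynomial.map_one]
      exact one_ne_zero
  · obtain ⟨i, hi, hmax⟩ := Finset.exists_max_image a.support (fun j => O.valuation (a.coeff j))
      (Polynomial.support_nonempty.2 ha)
    have hi0 : a.coeff i ≠ 0 := Polynomial.mem_support_iff.1 hi
    have hv0 : 0 < O.valuation (a.coeff i) := zero_lt_iff.2 ((Valuation.ne_zero_iff _).2 hi0)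
    have hlift : C (a.coeff i)⁻¹ * a ∈ Polynomial.lifts (algebraMap O E) := by
      rw [Polynomial.lifts_iff_coeff_lifts]
      intro j
      rw [coeff_C_mul]
      have h1 : (a.coeff i)⁻¹ * a.coeff j ∈ O := by
        refine O.mem_of_valuation_le_one _ ?_
        rw [map_mul, map_inv₀, ← div_eq_inv_mul]
        refine (div_le_one₀ hv0).2 ?_
        by_cases hj : j ∈ a.support
        · exact hmax j hj
        · rw [Polynomial.notMem_support_iff.1 hj, map_zero]
          exact zero_le'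
      exact ⟨⟨_, h1⟩, rfl⟩
    obtain ⟨P, hP⟩ := (Polynomial.mem_lifts _).1 hlift
    refine ⟨a.coeff i, P, ?_, ?_⟩
    · rw [hP, ← mul_assoc, ← C_mul, mul_inv_cancel₀ hi0, C_1, one_mul]
    · intro h
      have h1 := congrArg (fun p => coeff p i) hP
      simp only [coeff_map, coeff_C_mul, inv_mul_cancel₀ hi0] at h1
      have h2 : P.coeff i = 1 := by
        apply Subtype.ext
        exact h1
      have h3 := congrArg (fun p => coeff p i) h
      simp only [coeff_map, h2, map_one, coeff_zero] at h3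
      exact one_ne_zero h3

private theorem PNoRel_max (A B D : E) (hD : D ≠ 0) : ∃ m : E, m ≠ 0 ∧
    O.valuation A ≤ O.valuation m ∧ O.valuation B ≤ O.valuation m ∧
    O.valuation D ≤ O.valuation m ∧ (m = A ∨ m = B ∨ m = D) := by
  obtain ⟨m, h1, h2, h3, h4⟩ : ∃ m : E, O.valuation A ≤ O.valuation m ∧
      O.valuation B ≤ O.valuation m ∧ O.valuation D ≤ O.valuation m ∧
      (m = A ∨ m = B ∨ m = D) := by
    rcases le_total (O.valuation A) (O.valuation B) with h | h
    · rcases le_total (O.valuation B) (O.valuation D) with h' | h'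
      · exact ⟨D, h.trans h', h', le_rfl, Or.inr (Or.inr rfl)⟩
      · exact ⟨B, h, le_rfl, h', Or.inr (Or.inl rfl)⟩
    · rcases le_total (O.valuation A) (O.valuation D) with h' | h'
      · exact ⟨D, h', h.trans h', le_rfl, Or.inr (Or.inr rfl)⟩
      · exact ⟨A, le_rfl, h, h', Or.inl rfl⟩
  refine ⟨m, ?_, h1, h2, h3, h4⟩
  rintro rfl
  rw [map_zero] at h3
  exact hD ((Valuation.zero_iff _).1 (le_antisymm h3 zero_le'))

private theorem PNoRel_div {A m : E} (hm : m ≠ 0) (h : O.valuation A ≤ O.valuation m) :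
    A / m ∈ O := by
  refine O.mem_of_valuation_le_one _ ?_
  rw [map_div₀]
  exact (div_le_one₀ (zero_lt_iff.2 ((Valuation.ne_zero_iff _).2 hm))).2 h

end

theorem no_rel {E : Type*} [Field E] (O : ValuationSubring E) {s s' t : Multiset E}
    (hs : ∀ a ∈ s, O.valuation a < 1) (hs' : ∀ a ∈ s', O.valuation a < 1) (h0 : s ≠ 0)
    (h0' : s' ≠ 0) (hodd : Odd (s.card + s'.card)) (ht : ∀ x ∈ t, x ∉ O) {a b : E[X]} {u w c : E}
    (hc : c ≠ 0) :
    C u * (s.map fun e => X - C e).prod * a ^ 2 - C w * (s'.map fun e => X - C e).prod * b ^ 2 ≠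
      C c * (t.map fun e => X - C e).prod := by
  intro hrel
  obtain ⟨P, hP, hP'⟩ := PNoRel_near O s hs
  obtain ⟨Q, hQ, hQ'⟩ := PNoRel_near O s' hs'
  obtain ⟨c0, T, hc0, hT, hT'⟩ := PNoRel_far O t ht
  obtain ⟨α, a1, ha, ha'⟩ := PNoRel_norm O a
  obtain ⟨β, b1, hb, hb'⟩ := PNoRel_norm O b
  have hD : c * c0 ≠ 0 := mul_ne_zero hc hc0
  obtain ⟨m, hm, h1, h2, h3, h4⟩ := PNoRel_max O (u * α ^ 2) (w * β ^ 2) (c * c0) hD
  have k1 := PNoRel_div O hm h1
  have k2 := PNoRel_div O hm h2
  have k3 := PNoRel_div O hm h3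
  have key : C (⟨_, k1⟩ : O) * P * a1 ^ 2 - C (⟨_, k2⟩ : O) * Q * b1 ^ 2 =
      C (⟨_, k3⟩ : O) * T := by
    apply Polynomial.map_injective (algebraMap O E) (fun x y h => Subtype.ext h)
    rw [Polynomial.map_sub, Polynomial.map_mul, Polynomial.map_mul, Polynomial.map_mul,
      Polynomial.map_mul, Polynomial.map_mul, Polynomial.map_pow, Polynomial.map_pow, map_C, map_C,
      map_C, hP, hQ]
    have e1 : algebraMap O E ⟨_, k1⟩ = u * α ^ 2 / m := rfl
    have e2 : algebraMap O E ⟨_, k2⟩ = w * β ^ 2 / m := rfl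
    have e3 : algebraMap O E ⟨_, k3⟩ = c * c0 / m := rfl
    rw [e1, e2, e3]
    rw [ha, hb, ← hT] at hrel
    have e4 : (C m * C m⁻¹ : E[X]) = 1 := by rw [← C_mul, mul_inv_cancel₀ hm, C_1]
    simp only [div_eq_mul_inv, C_mul, C_pow]
    have h5 := congrArg (fun p => C m⁻¹ * p) hrel
    calc C u * C α ^ 2 * C m⁻¹ * (s.map fun e => X - C e).prod *
          Polynomial.map (algebraMap O E) a1 ^ 2 -
          C w * C β ^ 2 * C m⁻¹ * (s'.map fun e => X - C e).prod *
          Polynomial.map (algebraMap O E) b1 ^ 2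
        = C m⁻¹ * (C u * (s.map fun e => X - C e).prod *
          (C α * Polynomial.map (algebraMap O E) a1) ^ 2 -
          C w * (s'.map fun e => X - C e).prod *
          (C β * Polynomial.map (algebraMap O E) b1) ^ 2) := by ring
      _ = C m⁻¹ * (C c * (C c0 * Polynomial.map (algebraMap O E) T)) := h5
      _ = _ := by ring
  have key2 := congrArg (Polynomial.map (IsLocalRing.residue O)) key
  rw [Polynomial.map_sub, Polynomial.map_mul, Polynomial.map_mul, Polynomial.map_mul,
    Polynomial.map_mul, Polynomial.map_mul, Polynomial.map_pow, Polynomial.map_pow, map_C, map_C,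
    map_C, hP', hQ', hT', mul_one] at key2
  obtain ⟨r1, r2, r3⟩ := PNoRel_fin _ _ _ _ _ (fun h => h0 (Multiset.card_eq_zero.1 h))
    (fun h => h0' (Multiset.card_eq_zero.1 h)) hodd _ _ ha' hb' key2
  have hone : ∀ (A : E) (hA : A / m ∈ O), m = A →
      IsLocalRing.residue O ⟨A / m, hA⟩ ≠ 0 := by
    intro A hA hmA
    have : (⟨A / m, hA⟩ : O) = 1 := by
      apply Subtype.ext
      show A / m = 1
      rw [← hmA, div_self hm]
    rw [this, map_one]
    exact one_ne_zero
  rcases h4 with h4 | h4 | h4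
  · exact hone _ k1 h4 r1
  · exact hone _ k2 h4 r2
  · exact hone _ k3 h4 r3

end Pool.Agent.Lib.MP_2f3286_ag.HYP
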