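import Pool.Agent.Lib.MP_2f3286_ag.HYP.PClose

/-!
# Polynomials close to a given one   (module PRoot, 60 minutes)

PROOF. `root_close`: `U₀ ≠ 0`, `U₀ = c ∏ (X - u_j)` (`E` algebraically closed, `d'` roots). Let `U(q) = 0`, `|r q| ≤ 1`. `U₀(q) = (U₀ - U)(q)` has value
`≤ |ε| max(1, |r⁻¹|) ^ d`. If `|q - u_j| > |δ|` for all `j` then `|U₀(q)| = |c| ∏ |q - u_j| ≥ |c| |δ| ^ d'` (`>` if `d' > 0`; if `d' = 0` it is `|c| > 0`). So take `ε ≠ 0` with `|ε| max(1, |r⁻¹|) ^ d < |c| |δ| ^ d'`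
(`δ'` = `ϖ c δ ^ d' / K ^ d` with `|K| = max (1, |r⁻¹|)`).
`finite_close`: `r` and `U₀` given, `U₀ ≠ 0`. The roots `u_j` of `U₀` are finitely many; `near_exists` gives `δ_j` for each; let `δ` be the one of smallest value (`δ = 1` if there are no roots); `root_close` gives
`ε`. The set `S₀ = {0} ∪ {cl U : U.x = u_j for some j}` is finite (at most two points for each `x`), `S` = sums of at most `g` elements of `S₀` (finite). Let `m` be a multiset of at most `g`
points with `|coefficients of C c * upol m - U₀| ≤ |ε|`. Each point `Q` of `m` has `(C c * upol m)(Q.x) = 0`: either `r * Q.x ∉ O`: `cl Q ∈ HR`, near `0 ∈ S₀`; or it is near a root `u_j`: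
`cl Q - cl U ∈ HR` for a `U` with `U.x = u_j`. Add up: `clm m - t ∈ HR`, `t ∈ S` (induction on `m`).
-/

open Polynomial

noncomputable section

namespace Pool.Agent.Lib.MP_2f3286_ag.HYP

variable {E : Type*} [Field E] {g : ℕ} {φ : E[X]}

private theorem PRoot_prod (O : ValuationSubring E) {q δ : E} (s : Multiset E)
    (h : ∀ u ∈ s, O.valuation δ ≤ O.valuation (q - u)) :
    O.valuation δ ^ s.card ≤ O.valuation ((s.map fun a => q - a).prod) := by
  induction s using Multiset.induction_on with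
  | empty => rw [Multiset.card_zero, pow_zero, Multiset.map_zero, Multiset.prod_zero, map_one]
  | cons a s ih =>
    rw [Multiset.card_cons, Multiset.map_cons, Multiset.prod_cons, map_mul, pow_succ']
    exact mul_le_mul' (h a (Multiset.mem_cons_self _ _))
      (ih fun u hu => h u (Multiset.mem_cons_of_mem hu))

private theorem PRoot_eval (O : ValuationSubring E) {p : E[X]} {d : ℕ} (hd : p.natDegree ≤ d)
    {q K ε : E} (hK : 1 ≤ O.valuation K) (hq : O.valuation q ≤ O.valuation K)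
    (hp : ∀ n, O.valuation (p.coeff n) ≤ O.valuation ε) :
    O.valuation (p.eval q) ≤ O.valuation ε * O.valuation K ^ d := by
  rw [eval_eq_sum_range' (Nat.lt_succ_of_le hd)]
  refine Valuation.map_sum_le _ fun i hi => ?_
  rw [map_mul, map_pow]
  rw [Finset.mem_range] at hi
  exact mul_le_mul' (hp i) ((pow_le_pow_left' hq i).trans (pow_le_pow_right₀ hK (by omega)))

theorem root_close [IsAlgClosed E] (O : ValuationSubring E)
    (hO : ∃ ϖ : E, ϖ ≠ 0 ∧ O.valuation ϖ < 1) {U₀ : E[X]} (hU : U₀ ≠ 0) (d : ℕ)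
    (hd : U₀.natDegree ≤ d) {r δ : E} (hr : r ≠ 0) (hδ : δ ≠ 0) :
    ∃ ε : E, ε ≠ 0 ∧ ∀ U : E[X], U.natDegree ≤ d →
      (∀ n, O.valuation ((U - U₀).coeff n) ≤ O.valuation ε) → ∀ q : E, U.eval q = 0 → r * q ∈ O →
        ∃ u, U₀.eval u = 0 ∧ O.valuation (q - u) ≤ O.valuation δ := by
  obtain ⟨ϖ, hϖ0, hϖ⟩ := hO
  obtain ⟨K, hK0, hK1, hK2⟩ : ∃ K : E, K ≠ 0 ∧ 1 ≤ O.valuation K ∧
      O.valuation r⁻¹ ≤ O.valuation K := by
    rcases le_total (O.valuation r⁻¹) 1 with h | h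
    · exact ⟨1, one_ne_zero, by rw [map_one], by rw [map_one]; exact h⟩
    · exact ⟨r⁻¹, inv_ne_zero hr, h, le_rfl⟩
  have hc : U₀.leadingCoeff ≠ 0 := leadingCoeff_ne_zero.2 hU
  refine ⟨ϖ * (U₀.leadingCoeff * δ ^ U₀.roots.card) / K ^ d,
    div_ne_zero (mul_ne_zero hϖ0 (mul_ne_zero hc (pow_ne_zero _ hδ))) (pow_ne_zero _ hK0), ?_⟩
  intro U hUd hclose q hq hrq
  by_contra hcon
  push Not at hcon
  have hqK : O.valuation q ≤ O.valuation K := by
    have e : q = r⁻¹ * (r * q) := by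
      rw [← mul_assoc, inv_mul_cancel₀ hr, one_mul]
    rw [e, map_mul]
    calc O.valuation r⁻¹ * O.valuation (r * q) ≤ O.valuation K * 1 :=
          mul_le_mul' hK2 ((O.valuation_le_one_iff _).2 hrq)
      _ = O.valuation K := mul_one _
  have h1 : O.valuation ((U - U₀).eval q) ≤
      O.valuation (ϖ * (U₀.leadingCoeff * δ ^ U₀.roots.card) / K ^ d) * O.valuation K ^ d :=
    PRoot_eval O ((natDegree_sub_le _ _).trans (max_le hUd hd)) hK1 hqK hclose
  rw [← map_pow, ← map_mul, div_mul_cancel₀ _ (pow_ne_zero _ hK0), eval_sub, hq, zero_sub,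
    Valuation.map_neg] at h1
  have h2 : U₀.eval q = U₀.leadingCoeff * (U₀.roots.map fun a => q - a).prod := by
    conv_lhs => rw [(IsAlgClosed.splits U₀).eq_prod_roots]
    rw [eval_mul, eval_C, eval_multiset_prod, Multiset.map_map]
    congr 2
    refine Multiset.map_congr rfl fun a _ => ?_
    simp
  have h3 : O.valuation (U₀.leadingCoeff * δ ^ U₀.roots.card) ≤ O.valuation (U₀.eval q) := by
    rw [h2, map_mul, map_mul, map_pow]
    refine mul_le_mul' le_rfl (PRoot_prod O _ fun u hu => ?_)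
    exact (hcon u ((mem_roots hU).1 hu)).le
  have h4 : O.valuation (ϖ * (U₀.leadingCoeff * δ ^ U₀.roots.card)) <
      O.valuation (U₀.leadingCoeff * δ ^ U₀.roots.card) := by
    rw [map_mul]
    have h5 : 0 < O.valuation (U₀.leadingCoeff * δ ^ U₀.roots.card) :=
      zero_lt_iff.2 ((Valuation.ne_zero_iff _).2 (mul_ne_zero hc (pow_ne_zero _ hδ)))
    calc O.valuation ϖ * O.valuation (U₀.leadingCoeff * δ ^ U₀.roots.card) <
          1 * O.valuation (U₀.leadingCoeff * δ ^ U₀.roots.card) :=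
          mul_lt_mul_of_pos_right hϖ h5
      _ = _ := one_mul _
  exact absurd (h3.trans h1) (not_le.2 h4)

private theorem PRoot_min (O : ValuationSubring E) (δ : E → E) (hδ : ∀ u, δ u ≠ 0)
    (s : Multiset E) : ∃ δ₀ : E, δ₀ ≠ 0 ∧ ∀ u ∈ s, O.valuation δ₀ ≤ O.valuation (δ u) := by
  induction s using Multiset.induction_on with
  | empty => exact ⟨1, one_ne_zero, fun u hu => absurd hu (Multiset.notMem_zero u)⟩
  | cons a s ih =>
    obtain ⟨δ₀, h0, h1⟩ := ih
    rcases le_total (O.valuation δ₀) (O.valuation (δ a)) with h | h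
    · refine ⟨δ₀, h0, fun u hu => ?_⟩
      rcases Multiset.mem_cons.1 hu with rfl | hu
      · exact h
      · exact h1 u hu
    · refine ⟨δ a, hδ a, fun u hu => ?_⟩
      rcases Multiset.mem_cons.1 hu with rfl | hu
      · exact le_rfl
      · exact h.trans (h1 u hu)

private theorem PRoot_sum (H : AddSubgroup (J φ)) {S₀ : Set (J φ)} (hS : S₀.Finite) (n : ℕ) :
    ∃ T : Set (J φ), T.Finite ∧ ∀ m : Multiset (Pt φ), m.card ≤ n →
      (∀ Q ∈ m, ∃ t ∈ S₀, cl Q - t ∈ H) → ∃ t ∈ T, clm m - t ∈ H := by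
  induction n with
  | zero =>
    refine ⟨{0}, Set.finite_singleton _, fun m hm _ => ⟨0, rfl, ?_⟩⟩
    rw [Multiset.card_eq_zero.1 (Nat.le_zero.1 hm), clm_zero, sub_zero]
    exact H.zero_mem
  | succ n ih =>
    obtain ⟨T, hT, h1⟩ := ih
    refine ⟨{0} ∪ Set.image2 (fun a b => a + b) S₀ T,
      (Set.finite_singleton _).union (hS.image2 _ hT), fun m hm h2 => ?_⟩
    induction m using Multiset.induction_on with
    | empty =>
      refine ⟨0, Or.inl rfl, ?_⟩
      rw [clm_zero, sub_zero]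
      exact H.zero_mem
    | cons Q m _ =>
      rw [Multiset.card_cons] at hm
      obtain ⟨t, ht, h3⟩ := h2 Q (Multiset.mem_cons_self _ _)
      obtain ⟨t', ht', h4⟩ := h1 m (by omega) fun P hP => h2 P (Multiset.mem_cons_of_mem hP)
      refine ⟨t + t', Or.inr ⟨t, ht, t', ht', rfl⟩, ?_⟩
      rw [clm_cons, add_sub_add_comm]
      exact H.add_mem h3 h4

private theorem PRoot_fin {U₀ : E[X]} (hU : U₀ ≠ 0) : {P : Pt φ | U₀.eval P.x = 0}.Finite := by
  classical
  refine Set.Finite.of_finite_image (f := fun P : Pt φ => (P.x, P.y)) ?_ ?_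
  · refine (Set.Finite.biUnion (U₀.roots.toFinset.finite_toSet) (fun x _ =>
      (Set.finite_singleton x).prod ((X ^ 2 - C (φ.eval x)).roots.toFinset.finite_toSet))).subset ?_
    rintro _ ⟨P, hP, rfl⟩
    rw [Set.mem_iUnion₂]
    refine ⟨P.x, ?_, rfl, ?_⟩
    · rw [Finset.mem_coe, Multiset.mem_toFinset, mem_roots hU]
      exact hP
    · rw [Finset.mem_coe, Multiset.mem_toFinset, mem_roots (X_pow_sub_C_ne_zero (by norm_num) _)]
      show eval P.y (X ^ 2 - C (φ.eval P.x)) = 0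
      rw [eval_sub, eval_pow, eval_X, eval_C, P.eqn, sub_self]
  · intro P _ Q _ h
    rw [Prod.mk.injEq] at h
    ext
    · exact h.1
    · exact h.2

theorem finite_close [IsAlgClosed E] (hφ : Good g φ) (O : ValuationSubring E)
    (hO : ∃ ϖ : E, ϖ ≠ 0 ∧ O.valuation ϖ < 1) {U₀ : E[X]} (hU : U₀ ≠ 0)
    (hd : U₀.natDegree ≤ g) {r : E} (hr : r ≠ 0) :
    ∃ ε : E, ε ≠ 0 ∧ ∃ S : Set (J φ), S.Finite ∧ ∀ (m : Multiset (Pt φ)) (c : E), m.card ≤ g →
      (∀ n, O.valuation ((C c * upol m - U₀).coeff n) ≤ O.valuation ε) →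
        ∃ t ∈ S, clm m - t ∈ HR φ O r := by
  choose δ hδ hnear using fun u : E => near_exists hφ O hO u hr
  obtain ⟨δ₀, hδ₀, hmin⟩ := PRoot_min O δ hδ U₀.roots
  obtain ⟨ε, hε, hclose⟩ := root_close O hO hU g hd hr hδ₀
  have hS₀ : ({0} ∪ cl '' {P : Pt φ | U₀.eval P.x = 0} : Set (J φ)).Finite :=
    (Set.finite_singleton _).union ((PRoot_fin hU).image _)
  obtain ⟨T, hT, hsum⟩ := PRoot_sum (HR φ O r) hS₀ g
  refine ⟨ε, hε, T, hT, fun m c hm hc => hsum m hm fun Q hQ => ?_⟩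
  by_cases hfar : r * Q.x ∈ O
  · have hdeg : (C c * upol m).natDegree ≤ g := by
      refine (natDegree_C_mul_le _ _).trans ?_
      rw [upol_natDegree]
      exact hm
    have hroot : (C c * upol m).eval Q.x = 0 := by
      rw [eval_mul, (upol_eval m Q.x).2 ⟨Q, hQ, rfl⟩, mul_zero]
    obtain ⟨u, hu, h1⟩ := hclose _ hdeg hc Q.x hroot hfar
    obtain ⟨P, hP, h2⟩ := hnear u Q (h1.trans (hmin u ((mem_roots hU).2 hu)))
    refine ⟨cl P, Or.inr ⟨P, ?_, rfl⟩, h2⟩
    show U₀.eval P.x = 0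
    rw [hP]
    exact hu
  · refine ⟨0, Or.inl rfl, ?_⟩
    rw [sub_zero]
    exact AddSubgroup.subset_closure ⟨Q, hfar, rfl⟩

end Pool.Agent.Lib.MP_2f3286_ag.HYP
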