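import Pool.Agent.Lib.MP_2f3286_ag.HYP.Act
import Pool.Agent.Lib.MP_2f3286_bir.Place

/-!
# The hypothesis about the 2-Selmer group
-/

open Polynomial IsDedekindDomain NumberField

noncomputable section

namespace Pool.Agent.Lib.MP_2f3286_ag.HYP

/-- The restriction of the class of the cocycle `c` to the field `F` is the class of a half `e` of a
rational class, and `2 ^ (n + 1) e` is `0` or the class of a point with coordinates in `F`. -/
def LocSol {k kb : Type*} [Field k] [Field kb] [Algebra k kb] (f : k[X]) (n : ℕ)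
    (c : Gal(kb/k) → J (f.map (algebraMap k kb))) (F : Type*) {Fb : Type*} [Field F] [Field Fb]
    [Algebra F Fb] (ι : kb →+* Fb) : Prop :=
  ∃ e : J (f.map (ι.comp (algebraMap k kb))),
    (2 ^ (n + 1) • e = 0 ∨ ∃ P : Pt (f.map (ι.comp (algebraMap k kb))),
      (∃ a b : F, algebraMap F Fb a = P.x ∧ algebraMap F Fb b = P.y) ∧
        2 ^ (n + 1) • e = cl P) ∧
    ∀ (σ : Gal(kb/k)) (τ : Gal(Fb/F)) (h : ∀ a, ι (σ a) = τ (ι a)),
      J.map (τ : Fb →+* Fb) (map_fix' f h) e - e =
        J.map ι (Polynomial.map_map _ _ _) (c σ)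

/-- **The hypothesis.** Every cocycle `c` of the Galois group of `k` with values in the 2-torsion of `J`
which is, for some `n`, at all places of `k` the Kummer class modulo `2` of a rational class `R` with
`2 ^ n R` the class of a rational point of the curve, is a coboundary. -/
def SelTriv (k : Type*) [Field k] [NumberField k] (f : k[X]) : Prop :=
  ∀ (n : ℕ) (c : Gal(AlgebraicClosure k/k) → J (f.map (algebraMap k (AlgebraicClosure k)))),
    IsLocallyConstant c → (∀ σ, 2 • c σ = 0) →
    (∀ σ τ, c (σ * τ) = c σ + gact f σ (c τ)) →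
    (∀ (v : HeightOneSpectrum (𝓞 k))
      (ι : AlgebraicClosure k →ₐ[k] AlgebraicClosure (v.adicCompletion k)),
      LocSol f n c (v.adicCompletion k)
        (ι : AlgebraicClosure k →+* AlgebraicClosure (v.adicCompletion k))) →
    (∀ ι : AlgebraicClosure k →+* ℂ, LocSol f n c ℝ ι) →
    ∃ t : J (f.map (algebraMap k (AlgebraicClosure k))), 2 • t = 0 ∧ ∀ σ, c σ = gact f σ t - t

end Pool.Agent.Lib.MP_2f3286_ag.HYP
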