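import Pool.Agent.Lib.MP_2f3286_ag.HYP.Spc
import Pool.Agent.Lib.MP_2f3286_ag.HYP.Sel

/-!
# Places of a section and specialisation of classes   (module Pls, 75 minutes)

PROOF. `plc_of`: `kb → A` (`h.1`) is a ring homomorphism `j` with `A.subtype ∘ j = algebraMap kb Ω` and `φ ∘ j = ι`; `p = f.map (j ∘ algebraMap k kb)`. `sp_sact`: `J.hom_ext`, for a point `P`: `x_P` in `A`: `s σ x_P` in `A` and its value is `τ (φ x_P)`
(`h.2.2`), the same for `y`; `x_P` not in `A`: `x_P⁻¹` is in `A` with value `0` (`Plc.inv_of_notMem`), so `s σ x_P⁻¹` is in `A` with value `τ 0 = 0`, so `s σ x_P` is not in `A`. `sp_const`: `J.hom_ext`, `h.1`.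
`value_mem`: `φ x` is fixed by all `τ` (`hres`, `h.2.2`): `InfiniteGalois.mem_bot_iff_fixed`, `IntermediateField.mem_bot`, as in `Koe.value_rational`. `hres_fin`: restriction to the normal extension: see `exists_rho` in Koe/Dec.lean
or the lemmas on restrictions in `MP_2f3286_bir/Loc.lean`. `locSol_of_place`: `e = sp E'`; `2 ^ (n+1) e = sp (cl P)`, which is `0` or the class of the reduction of `P` (`Plc.sp_cl`, `Plc.sp_cl'`), with coordinates in `F` (`value_mem`);
`J.map τ e - e = sp (sact σ E' - E') = sp (J.map .. (c σ)) = J.map ι (c σ)`.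
-/

open Polynomial IsDedekindDomain NumberField
open Pool.Agent.Lib.MP_2f3286_bir (IsPlaceOf)

noncomputable section

namespace Pool.Agent.Lib.MP_2f3286_ag.HYP

section

variable {k kb K Ω : Type*} [Field k] [Field kb] [Algebra k kb] [Field K] [Field Ω] [Algebra K Ω]
  [Algebra kb Ω] [Algebra k Ω] [IsScalarTower k kb Ω] [Algebra k K] [IsScalarTower k K Ω]
  (f : k[X])

omit [Algebra kb Ω] [IsScalarTower k kb Ω] in
theorem map_fixΩ (σ : Gal(Ω/K)) :
    (f.map (algebraMap k Ω)).map (σ : Ω →+* Ω) = f.map (algebraMap k Ω) := by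
  rw [Polynomial.map_map]
  congr 1
  ext a
  change σ (algebraMap k Ω a) = algebraMap k Ω a
  rw [IsScalarTower.algebraMap_apply k K Ω, σ.commutes]

/-- the action of automorphisms of `Ω` over `K` on classes -/
def sact (σ : Gal(Ω/K)) : J (f.map (algebraMap k Ω)) →+ J (f.map (algebraMap k Ω)) :=
  J.map (σ : Ω →+* Ω) (map_fixΩ f σ)

theorem map_const : (f.map (algebraMap k kb)).map (algebraMap kb Ω) = f.map (algebraMap k Ω) := by
  rw [Polynomial.map_map, ← IsScalarTower.algebraMap_eq]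

/-- constant classes -/
def jconst : J (f.map (algebraMap k kb)) →+ J (f.map (algebraMap k Ω)) :=
  J.map (algebraMap kb Ω) (map_const f)

variable {f} {s : Gal(kb/k) →* Gal(Ω/K)} {F Fb : Type*} [Field F] [Field Fb] [Algebra F Fb]
  {ι : kb →+* Fb} {A : ValuationSubring Ω} {φ : A →+* Fb}

theorem plc_of (hf : f.Monic) (h : IsPlaceOf s F ι A φ) :
    Plc A φ (f.map (algebraMap k Ω)) (f.map (ι.comp (algebraMap k kb))) := by
  refine ⟨h.2.1, ?_⟩
  let j : kb →+* A := (algebraMap kb Ω).codRestrict A fun a => (h.1 a).1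
  refine ⟨f.map (j.comp (algebraMap k kb)), hf.map _, ?_, ?_⟩
  · rw [Polynomial.map_map]
    congr 1
    apply RingHom.ext
    intro a
    exact (IsScalarTower.algebraMap_apply k kb Ω a).symm
  · rw [Polynomial.map_map]
    congr 1
    apply RingHom.ext
    intro a
    exact (h.1 (algebraMap k kb a)).2

theorem sp_sact [IsAlgClosed Ω] [IsAlgClosed Fb] {g : ℕ} (hf : f.Monic) (h : IsPlaceOf s F ι A φ)
    (h1 : Good g (f.map (algebraMap k Ω))) (h2 : Good g (f.map (ι.comp (algebraMap k kb))))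
    {σ : Gal(kb/k)} {τ : Gal(Fb/F)} (hστ : ∀ a, ι (σ a) = τ (ι a))
    (z : J (f.map (algebraMap k Ω))) :
    (plc_of hf h).sp h1 h2 (sact f (s σ) z) =
      J.map (τ : Fb →+* Fb) (map_fix' f hστ) ((plc_of hf h).sp h1 h2 z) := by
  have key : ((plc_of hf h).sp h1 h2).comp (sact f (s σ)) =
      (J.map (τ : Fb →+* Fb) (map_fix' f hστ)).comp ((plc_of hf h).sp h1 h2) := by
    apply J.hom_ext
    intro P
    rw [AddMonoidHom.comp_apply, AddMonoidHom.comp_apply, sact, J.map_cl]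
    by_cases hx : P.x ∈ A
    · obtain ⟨hx', hx1⟩ := h.2.2 σ τ hστ ⟨P.x, hx⟩
      obtain ⟨hy', hy1⟩ := h.2.2 σ τ hστ ⟨P.y, (plc_of hf h).y_mem hx⟩
      rw [(plc_of hf h).sp_cl h1 h2 P hx, J.map_cl]
      refine ((plc_of hf h).sp_cl h1 h2 (P.map (s σ : Ω →+* Ω) (map_fixΩ f (s σ))) hx').trans ?_
      congr 1
      apply Pt.ext
      · exact hx1
      · exact hy1
    · rw [(plc_of hf h).sp_cl' h1 h2 P hx, map_zero]
      apply (plc_of hf h).sp_cl' h1 h2
      intro hx'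
      obtain ⟨hb, hb0⟩ := (plc_of hf h).inv_of_notMem hx
      obtain ⟨hb', hb1⟩ := h.2.2 σ τ hστ ⟨P.x⁻¹, hb⟩
      rw [hb0, map_zero] at hb1
      have hx0 : P.x ≠ 0 := fun h0 => hx (h0 ▸ zero_mem _)
      have h5 : (⟨s σ P.x, hx'⟩ : A) * ⟨s σ P.x⁻¹, hb'⟩ = 1 := by
        apply Subtype.ext
        change s σ P.x * s σ P.x⁻¹ = 1
        rw [← map_mul, mul_inv_cancel₀ hx0, map_one]
      have h6 := congrArg φ h5
      rw [map_mul, hb1, mul_zero, map_one] at h6
      exact zero_ne_one h6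
  exact DFunLike.congr_fun key z

theorem sp_const [IsAlgClosed Ω] [IsAlgClosed Fb] {g : ℕ} (hf : f.Monic) (h : IsPlaceOf s F ι A φ)
    (h1 : Good g (f.map (algebraMap k Ω))) (h2 : Good g (f.map (ι.comp (algebraMap k kb))))
    (z : J (f.map (algebraMap k kb))) :
    (plc_of hf h).sp h1 h2 (jconst f z) = J.map ι (Polynomial.map_map _ _ _) z := by
  have key : ((plc_of hf h).sp h1 h2).comp (jconst f) = J.map ι (Polynomial.map_map _ _ _) := by
    apply J.hom_ext
    intro P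
    rw [AddMonoidHom.comp_apply, jconst, J.map_cl, J.map_cl]
    obtain ⟨hx', hx1⟩ := h.1 P.x
    obtain ⟨hy', hy1⟩ := h.1 P.y
    rw [(plc_of hf h).sp_cl h1 h2 (P.map _ _) hx']
    congr 1
    apply Pt.ext
    · exact hx1
    · exact hy1
  exact DFunLike.congr_fun key z

theorem value_mem [IsGalois F Fb] (h : IsPlaceOf s F ι A φ)
    (hres : ∀ τ : Gal(Fb/F), ∃ σ : Gal(kb/k), ∀ a, ι (σ a) = τ (ι a)) {x : Ω} (hx : x ∈ A)
    (hs : ∀ σ, s σ x = x) : ∃ a : F, algebraMap F Fb a = φ ⟨x, hx⟩ := by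
  have h1 : ∀ τ : Gal(Fb/F), τ (φ ⟨x, hx⟩) = φ ⟨x, hx⟩ := by
    intro τ
    obtain ⟨σ, hσ⟩ := hres τ
    obtain ⟨h3, h4⟩ := h.2.2 σ τ hσ ⟨x, hx⟩
    rw [← h4]
    congr 1
    apply Subtype.ext
    exact hs σ
  have h2 : φ ⟨x, hx⟩ ∈ (⊥ : IntermediateField F Fb) := by
    rw [InfiniteGalois.mem_bot_iff_fixed]; exact h1
  exact IntermediateField.mem_bot.mp h2

theorem locSol_of_place [IsAlgClosed Ω] [IsAlgClosed Fb] [IsGalois F Fb] {g : ℕ} (hf : f.Monic)
    (h : IsPlaceOf s F ι A φ)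
    (h1 : Good g (f.map (algebraMap k Ω))) (h2 : Good g (f.map (ι.comp (algebraMap k kb))))
    (hres : ∀ τ : Gal(Fb/F), ∃ σ : Gal(kb/k), ∀ a, ι (σ a) = τ (ι a))
    {n : ℕ} {c : Gal(kb/k) → J (f.map (algebraMap k kb))} {E' : J (f.map (algebraMap k Ω))}
    (hc : ∀ σ, jconst f (c σ) = sact f (s σ) E' - E') {P : Pt (f.map (algebraMap k Ω))}
    (hP : 2 ^ (n + 1) • E' = cl P) (hx : ∀ σ, s σ P.x = P.x) (hy : ∀ σ, s σ P.y = P.y) :
    LocSol f n c F ι := by
  refine ⟨(plc_of hf h).sp h1 h2 E', ?_, ?_⟩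
  · rw [← map_nsmul, hP]
    by_cases hxA : P.x ∈ A
    · right
      rw [(plc_of hf h).sp_cl h1 h2 P hxA]
      obtain ⟨a, ha⟩ := value_mem h hres hxA hx
      obtain ⟨b, hb⟩ := value_mem h hres ((plc_of hf h).y_mem hxA) hy
      exact ⟨(plc_of hf h).redPt P hxA, ⟨a, b, ha, hb⟩, rfl⟩
    · left
      exact (plc_of hf h).sp_cl' h1 h2 P hxA
  · intro σ τ hστ
    rw [← sp_sact hf h h1 h2 hστ, ← map_sub, ← hc, sp_const hf h h1 h2]

end

/-- every automorphism over a finite place restricts to the algebraic closure of `k` -/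
theorem hres_fin {k : Type*} [Field k] [NumberField k] (v : HeightOneSpectrum (𝓞 k))
    (ι : AlgebraicClosure k →ₐ[k] AlgebraicClosure (v.adicCompletion k))
    (τ : Gal(AlgebraicClosure (v.adicCompletion k)/v.adicCompletion k)) :
    ∃ σ : Gal(AlgebraicClosure k/k), ∀ a, ι (σ a) = τ (ι a) := by
  let _ : Algebra (AlgebraicClosure k) (AlgebraicClosure (v.adicCompletion k)) :=
    ι.toRingHom.toAlgebra
  have _ : IsScalarTower k (AlgebraicClosure k) (AlgebraicClosure (v.adicCompletion k)) :=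
    IsScalarTower.of_algebraMap_eq fun x => (ι.commutes x).symm
  exact ⟨(τ.restrictScalars k).restrictNormal (AlgebraicClosure k),
    AlgEquiv.restrictNormal_commutes (τ.restrictScalars k) (AlgebraicClosure k)⟩

end Pool.Agent.Lib.MP_2f3286_ag.HYP
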