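import Mathlib

/-!
# Real places: the fixed field of an involution of an algebraically closed field
-/

noncomputable section

namespace Pool.Agent.Lib.MP_2f3286_ag.HYP

open ArchimedeanClass

section order

variable {Ω : Type*} [Field Ω] {c : Ω →+* Ω} {i : Ω}

/-- the fixed field of an involution -/
abbrev Fx (c : Ω →+* Ω) : Subfield Ω := c.eqLocusField (RingHom.id Ω)

theorem mem_Fx {a : Ω} : a ∈ Fx c ↔ c a = a := Iff.rfl

theorem fx_sq [IsAlgClosed Ω] (hi : i * i = -1) (hci : c i = -i) (a : Fx c) :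
    ∃ b : Fx c, a = b * b ∨ -a = b * b := by
  obtain ⟨z, hz⟩ := IsAlgClosed.exists_pow_nat_eq (a : Ω) (n := 2) (by norm_num)
  have h1 : c z * c z = z * z := by
    rw [← map_mul, ← pow_two, hz]
    exact a.2
  rcases mul_self_eq_mul_self_iff.mp h1 with h2 | h2
  · exact ⟨⟨z, h2⟩, Or.inl (Subtype.ext (by rw [← hz, pow_two]; rfl))⟩
  · refine ⟨⟨i * z, ?_⟩, Or.inr (Subtype.ext ?_)⟩
    · rw [mem_Fx, map_mul, hci, h2]; ring
    · change -(a : Ω) = i * z * (i * z)
      rw [← hz]; linear_combination (-z ^ 2) * hi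

theorem fx_neg_one [CharZero Ω] (hi : i * i = -1) (hci : c i = -i) (b : Fx c) : b * b ≠ -1 := by
  intro h
  have h1 : (b : Ω) * b = i * i := by
    rw [hi]
    exact congrArg Subtype.val h
  have hi0 : i ≠ 0 := by
    rintro rfl
    rw [mul_zero] at hi
    have : (1 : Ω) = 0 := by linear_combination hi
    exact one_ne_zero this
  have hne : c i ≠ i := by
    rw [hci]
    intro h2
    apply hi0
    have h3 : (2 : Ω) * i = 0 := by linear_combination -h2
    exact (mul_eq_zero.mp h3).resolve_left two_ne_zero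
  rcases mul_self_eq_mul_self_iff.mp h1 with h2 | h2
  · exact hne (h2 ▸ b.2)
  · apply hne
    have h3 : i = -(b : Ω) := by rw [h2, neg_neg]
    have h4 : c (b : Ω) = b := b.2
    rw [h3, map_neg, h4]

theorem fx_add [IsAlgClosed Ω] (hc : ∀ x, c (c x) = x) (hi : i * i = -1) (hci : c i = -i) (a b : Fx c) :
    ∃ d : Fx c, a * a + b * b = d * d := by
  obtain ⟨w, hw⟩ := IsAlgClosed.exists_pow_nat_eq ((a : Ω) + i * b) (n := 2) (by norm_num)
  refine ⟨⟨w * c w, ?_⟩, Subtype.ext ?_⟩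
  · rw [mem_Fx, map_mul, hc, mul_comm]
  · change (a : Ω) * a + b * b = w * c w * (w * c w)
    have h1 : c w ^ 2 = (a : Ω) - i * b := by
      rw [← map_pow, hw, map_add, map_mul, hci, show c (a : Ω) = a from a.2,
        show c (b : Ω) = b from b.2]
      ring
    have h2 : w * c w * (w * c w) = w ^ 2 * c w ^ 2 := by ring
    rw [h2, hw, h1]
    linear_combination ((b : Ω) * b) * hi

/-- the squares in the fixed field are the elements `≥ 0` of an ordering -/
def fxCone [IsAlgClosed Ω] [CharZero Ω] (hc : ∀ x, c (c x) = x) (hi : i * i = -1) (hci : c i = -i) :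
    RingCone (Fx c) where
  carrier := {a | ∃ b : Fx c, a = b * b}
  mul_mem' := by
    rintro _ _ ⟨a, rfl⟩ ⟨b, rfl⟩
    exact ⟨a * b, by ring⟩
  one_mem' := ⟨1, by ring⟩
  add_mem' := by
    rintro _ _ ⟨a, rfl⟩ ⟨b, rfl⟩
    exact fx_add hc hi hci a b
  zero_mem' := ⟨0, by ring⟩
  eq_zero_of_mem_of_neg_mem' := by
    rintro x ⟨b, hb⟩ ⟨d, hd⟩
    by_contra hx
    have hb0 : b ≠ 0 := by
      rintro rfl
      exact hx (by rw [hb, mul_zero])
    apply fx_neg_one hi hci (d * b⁻¹)
    have h1 : d * d = -(b * b) := by rw [← hd, hb]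
    field_simp
    linear_combination h1

theorem fx_order [IsAlgClosed Ω] [CharZero Ω] (hc : ∀ x, c (c x) = x) (hi : i * i = -1) (hci : c i = -i) :
    ∃ (_ : LinearOrder (Fx c)) (_ : IsStrictOrderedRing (Fx c)),
      ∀ a : Fx c, 0 ≤ a ↔ ∃ b : Fx c, a = b * b := by
  classical
  let C := fxCone hc hi hci
  have : HasMemOrNegMem C := ⟨fun a => by
    obtain ⟨b, h | h⟩ := fx_sq hi hci a
    · exact Or.inl ⟨b, h⟩
    · exact Or.inr ⟨b, h⟩⟩
  let _ : LinearOrder (Fx c) := .mkOfAddGroupCone C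
  have : IsOrderedRing (Fx c) := .mkOfCone C
  refine ⟨inferInstance, inferInstance, fun a => ?_⟩
  change a - 0 ∈ C ↔ _
  rw [sub_zero]
  rfl

end order

end Pool.Agent.Lib.MP_2f3286_ag.HYP
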