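import Pool.Agent.Lib.MP_2f3286_ag.HYP.RealOrd

/-!
# Real places: the standard part
-/

noncomputable section

namespace Pool.Agent.Lib.MP_2f3286_ag.HYP

open ArchimedeanClass ComplexConjugate

section

variable {Ω : Type*} [Field Ω] [CharZero Ω] {c : Ω →+* Ω} {i : Ω}

/-- the real part -/
def rr (hc : ∀ x, c (c x) = x) (z : Ω) : Fx c := ⟨(z + c z) / 2, by
  rw [mem_Fx, map_div₀, map_add, hc, map_ofNat, add_comm]⟩

/-- the imaginary part -/
def ii (hc : ∀ x, c (c x) = x) (hci : c i = -i) (z : Ω) : Fx c := ⟨(z - c z) / (2 * i), by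
  rw [mem_Fx, map_div₀, map_sub, hc, map_mul, map_ofNat, hci, ← neg_sub, mul_neg, neg_div_neg_eq]⟩

variable (hc : ∀ x, c (c x) = x) (hi : i * i = -1) (hci : c i = -i)

include hi in
theorem i_ne_zero : i ≠ 0 := by
  rintro rfl
  rw [mul_zero] at hi
  exact one_ne_zero (α := Ω) (by linear_combination hi)

include hi in
theorem rr_ii (z : Ω) : z = rr hc z + i * ii hc hci z := by
  have h0 := i_ne_zero hi
  change z = (z + c z) / 2 + i * ((z - c z) / (2 * i))
  field_simp
  ring

include hci in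
theorem rr_eq (a b : Fx c) : rr hc ((a : Ω) + i * b) = a := by
  apply Subtype.ext
  change ((a : Ω) + i * b + c ((a : Ω) + i * b)) / 2 = a
  rw [map_add, map_mul, hci, show c (a : Ω) = a from a.2, show c (b : Ω) = b from b.2]
  ring

include hi in
theorem ii_eq (a b : Fx c) : ii hc hci ((a : Ω) + i * b) = b := by
  have h0 := i_ne_zero hi
  apply Subtype.ext
  change ((a : Ω) + i * b - c ((a : Ω) + i * b)) / (2 * i) = b
  rw [map_add, map_mul, hci, show c (a : Ω) = a from a.2, show c (b : Ω) = b from b.2]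
  field_simp
  ring

variable [LinearOrder (Fx c)] [IsStrictOrderedRing (Fx c)]

theorem mk_le_of_abs {K : Type*} [LinearOrder K] [Field K] [IsOrderedRing K] {a b : K}
    (h : |a| ≤ |b|) : mk b ≤ mk a := mk_le_mk_of_abs h

theorem mk_nonneg_of_abs_le_one {K : Type*} [LinearOrder K] [Field K] [IsOrderedRing K] {a : K}
    (h : |a| ≤ 1) : 0 ≤ mk a := by
  rw [← mk_one (R := K)]
  exact mk_le_mk_of_abs (by rwa [abs_one])

theorem mk_add_nonneg {K : Type*} [LinearOrder K] [Field K] [IsOrderedRing K] {a b : K}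
    (ha : 0 ≤ mk a) (hb : 0 ≤ mk b) : 0 ≤ mk (a + b) :=
  (le_min ha hb).trans (min_le_mk_add a b)

theorem mk_sub_nonneg {K : Type*} [LinearOrder K] [Field K] [IsOrderedRing K] {a b : K}
    (ha : 0 ≤ mk a) (hb : 0 ≤ mk b) : 0 ≤ mk (a - b) := by
  rw [sub_eq_add_neg]
  exact mk_add_nonneg ha (by rwa [mk_neg])

theorem mk_mul_nonneg {K : Type*} [LinearOrder K] [Field K] [IsOrderedRing K] {a b : K}
    (ha : 0 ≤ mk a) (hb : 0 ≤ mk b) : 0 ≤ mk (a * b) := by
  rw [mk_mul]
  exact add_nonneg ha hb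

include hc hi hci in
theorem real_place_aux (Jc : ℂ) (hJ : Jc * Jc = -1) : ∃ (A : ValuationSubring Ω) (φ : A →+* ℂ),
    (∀ a b : Fx c, 0 ≤ mk a → 0 ≤ mk b → ∃ h : (a : Ω) + i * b ∈ A,
      φ ⟨(a : Ω) + i * b, h⟩ = stdPart a + Jc * stdPart b) ∧
    (∀ x : A, φ x ≠ 0 → (x : Ω)⁻¹ ∈ A) ∧
    ∀ x : A, ∃ h : c x ∈ A, φ ⟨c x, h⟩ = conj (φ x) := by
  have hJc : conj Jc = -Jc := by
    rcases mul_self_eq_mul_self_iff.mp (hJ.trans Complex.I_mul_I.symm) with h | h
    · rw [h, Complex.conj_I]
    · rw [h, map_neg, Complex.conj_I]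
  have hmul : ∀ a b a' b' : Fx c, ((a : Ω) + i * b) * (a' + i * b') =
      ((a * a' - b * b' : Fx c) : Ω) + i * ((a * b' + b * a' : Fx c) : Ω) := by
    intro a b a' b'
    push_cast
    linear_combination ((b : Ω) * b') * hi
  have hadd : ∀ a b a' b' : Fx c, ((a : Ω) + i * b) + (a' + i * b') =
      ((a + a' : Fx c) : Ω) + i * ((b + b' : Fx c) : Ω) := by
    intro a b a' b'
    push_cast
    ring
  have rr_mul : ∀ z w, rr hc (z * w) = rr hc z * rr hc w - ii hc hci z * ii hc hci w := by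
    intro z w
    conv_lhs => rw [rr_ii hc hi hci z, rr_ii hc hi hci w, hmul, rr_eq hc hci]
  have ii_mul : ∀ z w, ii hc hci (z * w) = rr hc z * ii hc hci w + ii hc hci z * rr hc w := by
    intro z w
    conv_lhs => rw [rr_ii hc hi hci z, rr_ii hc hi hci w, hmul, ii_eq hc hi hci]
  have rr_add : ∀ z w, rr hc (z + w) = rr hc z + rr hc w := by
    intro z w
    conv_lhs => rw [rr_ii hc hi hci z, rr_ii hc hi hci w, hadd, rr_eq hc hci]
  have ii_add : ∀ z w, ii hc hci (z + w) = ii hc hci z + ii hc hci w := by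
    intro z w
    conv_lhs => rw [rr_ii hc hi hci z, rr_ii hc hi hci w, hadd, ii_eq hc hi hci]
  have rr_one : rr hc 1 = 1 := by
    have := rr_eq hc hci 1 0
    simpa using this
  have ii_one : ii hc hci 1 = 0 := by
    have := ii_eq hc hi hci 1 0
    simpa using this
  have rr_zero : rr hc 0 = 0 := by
    have := rr_eq hc hci 0 0
    simpa using this
  have ii_zero : ii hc hci 0 = 0 := by
    have := ii_eq hc hi hci 0 0
    simpa using this
  have hneg : ∀ z, -z = ((-rr hc z : Fx c) : Ω) + i * ((-ii hc hci z : Fx c) : Ω) := by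
    intro z
    push_cast
    linear_combination -rr_ii hc hi hci z
  have rr_neg : ∀ z, rr hc (-z) = -rr hc z := by
    intro z
    rw [hneg z, rr_eq hc hci]
  have ii_neg : ∀ z, ii hc hci (-z) = -ii hc hci z := by
    intro z
    rw [hneg z, ii_eq hc hi hci]
  have hconj : ∀ z, c z = ((rr hc z : Fx c) : Ω) + i * ((-ii hc hci z : Fx c) : Ω) := by
    intro z
    conv_lhs => rw [rr_ii hc hi hci z]
    rw [map_add, map_mul, hci, show c (rr hc z : Ω) = rr hc z from (rr hc z).2,
      show c (ii hc hci z : Ω) = ii hc hci z from (ii hc hci z).2]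
    push_cast
    ring
  have rr_c : ∀ z, rr hc (c z) = rr hc z := by
    intro z
    rw [hconj z, rr_eq hc hci]
  have ii_c : ∀ z, ii hc hci (c z) = -ii hc hci z := by
    intro z
    rw [hconj z, ii_eq hc hi hci]
  -- the norm of an element
  have hN : ∀ z : Ω, z ≠ 0 → 0 < rr hc z * rr hc z + ii hc hci z * ii hc hci z := by
    intro z hz
    rcases (add_nonneg (mul_self_nonneg (rr hc z)) (mul_self_nonneg (ii hc hci z))).eq_or_lt with h | h
    · exfalso
      have h1 : rr hc z = 0 ∧ ii hc hci z = 0 :=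
        (mul_self_add_mul_self_eq_zero).mp h.symm
      apply hz
      rw [rr_ii hc hi hci z, h1.1, h1.2]
      simp
    · exact h
  have hinv : ∀ z : Ω, z⁻¹ = ((rr hc z / (rr hc z * rr hc z + ii hc hci z * ii hc hci z) : Fx c) : Ω) +
      i * ((-ii hc hci z / (rr hc z * rr hc z + ii hc hci z * ii hc hci z) : Fx c) : Ω) := by
    intro z
    by_cases hz : z = 0
    · rw [hz, rr_zero, ii_zero]
      simp
    · have h1 := (hN z hz).ne'
      have h2 : ((rr hc z * rr hc z + ii hc hci z * ii hc hci z : Fx c) : Ω) ≠ 0 := by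
        intro h
        exact h1 (Subtype.ext h)
      apply inv_eq_of_mul_eq_one_right
      have e := rr_ii hc hi hci z
      generalize rr hc z = a at h1 h2 e ⊢
      generalize ii hc hci z = b at h1 h2 e ⊢
      rw [e]
      push_cast at h2 ⊢
      have h3 : (a : Ω) * a + b * b ≠ 0 := h2
      have h4 : ((a : Ω) + i * b) * (a / (a * a + b * b) + i * (-b / (a * a + b * b))) =
          ((a : Ω) * a + b * b) / (a * a + b * b) := by
        linear_combination (-(b : Ω) * b / (a * a + b * b)) * hi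
      rw [h4, div_self h3]
  let A : ValuationSubring Ω :=
    { carrier := {z | 0 ≤ mk (rr hc z) ∧ 0 ≤ mk (ii hc hci z)}
      mul_mem' := by
        rintro z w ⟨h1, h2⟩ ⟨h3, h4⟩
        exact ⟨by rw [rr_mul]; exact mk_sub_nonneg (mk_mul_nonneg h1 h3) (mk_mul_nonneg h2 h4),
          by rw [ii_mul]; exact mk_add_nonneg (mk_mul_nonneg h1 h4) (mk_mul_nonneg h2 h3)⟩
      one_mem' := ⟨by rw [rr_one, mk_one], by rw [ii_one, mk_zero]; exact le_top⟩
      add_mem' := by
        rintro z w ⟨h1, h2⟩ ⟨h3, h4⟩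
        exact ⟨by rw [rr_add]; exact mk_add_nonneg h1 h3, by rw [ii_add]; exact mk_add_nonneg h2 h4⟩
      zero_mem' := ⟨by rw [rr_zero, mk_zero]; exact le_top, by rw [ii_zero, mk_zero]; exact le_top⟩
      neg_mem' := by
        rintro z ⟨h1, h2⟩
        exact ⟨by rw [rr_neg, mk_neg]; exact h1, by rw [ii_neg, mk_neg]; exact h2⟩
      mem_or_inv_mem' := by
        intro z
        by_cases hz : 1 ≤ rr hc z * rr hc z + ii hc hci z * ii hc hci z
        · right
          have h0 : 0 < rr hc z * rr hc z + ii hc hci z * ii hc hci z := one_pos.trans_le hz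
          have key : ∀ a b : Fx c, 1 ≤ a * a + b * b → |a| ≤ a * a + b * b := by
            intro a b hab
            rcases le_total |a| 1 with h | h
            · exact h.trans hab
            · calc |a| ≤ |a| * |a| := le_mul_of_one_le_left (abs_nonneg a) h
                _ = a * a := abs_mul_abs_self a
                _ ≤ a * a + b * b := le_add_of_nonneg_right (mul_self_nonneg b)
          constructor
          · rw [hinv z, rr_eq hc hci]
            apply mk_nonneg_of_abs_le_one
            rw [abs_div, abs_of_pos h0, div_le_one h0]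
            exact key _ _ hz
          · rw [hinv z, ii_eq hc hi hci]
            apply mk_nonneg_of_abs_le_one
            rw [abs_div, abs_of_pos h0, div_le_one h0, abs_neg, add_comm]
            exact key _ _ (by rwa [add_comm])
        · left
          push Not at hz
          have key : ∀ a b : Fx c, a * a + b * b < 1 → |a| ≤ 1 := by
            intro a b hab
            have h1 : a * a ≤ 1 := (le_add_of_nonneg_right (mul_self_nonneg b)).trans hab.le
            exact abs_le_one_iff_mul_self_le_one.mpr h1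
          exact ⟨mk_nonneg_of_abs_le_one (key _ _ hz),
            mk_nonneg_of_abs_le_one (key _ (rr hc z) (by rwa [add_comm]))⟩ }
  have hA : ∀ z : Ω, z ∈ A ↔ 0 ≤ mk (rr hc z) ∧ 0 ≤ mk (ii hc hci z) := fun z => Iff.rfl
  let φ : A →+* ℂ :=
    { toFun := fun z => (stdPart (rr hc (z : Ω)) : ℂ) + Jc * (stdPart (ii hc hci (z : Ω)) : ℂ)
      map_one' := by
        rw [OneMemClass.coe_one, rr_one, ii_one, stdPart_one, stdPart_zero]
        push_cast
        ring
      map_mul' := by
        rintro ⟨z, hz⟩ ⟨w, hw⟩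
        obtain ⟨h1, h2⟩ := (hA z).mp hz
        obtain ⟨h3, h4⟩ := (hA w).mp hw
        change (stdPart (rr hc (z * w)) : ℂ) + Jc * (stdPart (ii hc hci (z * w)) : ℂ) = _
        rw [rr_mul, ii_mul, stdPart_sub (mk_mul_nonneg h1 h3) (mk_mul_nonneg h2 h4),
          stdPart_add (mk_mul_nonneg h1 h4) (mk_mul_nonneg h2 h3), stdPart_mul h1 h3,
          stdPart_mul h2 h4, stdPart_mul h1 h4, stdPart_mul h2 h3]
        push_cast
        linear_combination (-(stdPart (ii hc hci z) : ℂ) * (stdPart (ii hc hci w) : ℂ)) * hJ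
      map_zero' := by
        rw [ZeroMemClass.coe_zero, rr_zero, ii_zero, stdPart_zero]
        push_cast
        ring
      map_add' := by
        rintro ⟨z, hz⟩ ⟨w, hw⟩
        obtain ⟨h1, h2⟩ := (hA z).mp hz
        obtain ⟨h3, h4⟩ := (hA w).mp hw
        change (stdPart (rr hc (z + w)) : ℂ) + Jc * (stdPart (ii hc hci (z + w)) : ℂ) = _
        rw [rr_add, ii_add, stdPart_add h1 h3, stdPart_add h2 h4]
        push_cast
        ring }
  have hφ : ∀ (z : Ω) (hz : z ∈ A), φ ⟨z, hz⟩ =
      (stdPart (rr hc z) : ℂ) + Jc * (stdPart (ii hc hci z) : ℂ) := fun z hz => rfl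
  refine ⟨A, φ, fun a b ha hb => ?_, ?_, ?_⟩
  · have h : (a : Ω) + i * b ∈ A := (hA _).mpr (by rw [rr_eq hc hci, ii_eq hc hi hci]; exact ⟨ha, hb⟩)
    refine ⟨h, ?_⟩
    rw [hφ, rr_eq hc hci, ii_eq hc hi hci]
  · rintro ⟨z, hz⟩ hne
    obtain ⟨h1, h2⟩ := (hA z).mp hz
    rw [hφ] at hne
    -- the norm of `z` is not infinitesimal
    have h3 : stdPart (rr hc z * rr hc z + ii hc hci z * ii hc hci z) ≠ 0 := by
      rw [stdPart_add (mk_mul_nonneg h1 h1) (mk_mul_nonneg h2 h2), stdPart_mul h1 h1,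
        stdPart_mul h2 h2]
      intro h
      obtain ⟨h4, h5⟩ := mul_self_add_mul_self_eq_zero.mp h
      apply hne
      rw [h4, h5]
      push_cast
      ring
    have h4 : mk (rr hc z * rr hc z + ii hc hci z * ii hc hci z) = 0 := by
      by_contra h
      exact h3 (stdPart_of_mk_ne_zero h)
    change z⁻¹ ∈ A
    rw [hA, hinv z, rr_eq hc hci, ii_eq hc hi hci, mk_div, mk_div, h4, mk_neg, sub_zero]
    exact ⟨h1, by rwa [sub_zero]⟩
  · rintro ⟨z, hz⟩
    obtain ⟨h1, h2⟩ := (hA z).mp hz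
    have h : c z ∈ A := (hA _).mpr (by rw [rr_c, ii_c, mk_neg]; exact ⟨h1, h2⟩)
    refine ⟨h, ?_⟩
    rw [hφ, hφ, rr_c, ii_c, stdPart_neg, map_add, map_mul, Complex.conj_ofReal,
      Complex.conj_ofReal, hJc]
    push_cast
    ring

end

end Pool.Agent.Lib.MP_2f3286_ag.HYP
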