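import Pool.Agent.Lib.MP_2f3286_ag.HYP.Nrm

/-!
# Reduced divisors: uniqueness   (module Red, 60 minutes)

PROOF. `m`, `m'` reduced in the same class: `clm (m + m'.map inv) = 0` (`clm_inv`), so `(h) = idm (m + m'.map inv)` (`clm_eq_zero_iff`), the norm of `h` has degree `≤ 2 g`
(`norm_deg`), so `h.im = 0` (`norm_natDegree`), `star h = h`, so `m + m'.map inv` is invariant under `inv` (`star_idm`, `idm_injective`): `count P (m + m'.map inv) = count P.inv (..)`.
For `P.inv ≠ P`: `d P + d' P.inv = d P.inv + d' P` where `d = count · m`, one of `d P`, `d P.inv` is zero and one of `d' P`, `d' P.inv` is zero (semi-reduced). So `d P = d' P`.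
For `P.inv = P` (`y_P = 0`): `d P, d' P ≤ 1` and `d P + d' P` is even: `h.re = a`, `(a) = idm (..)`: with `a = c ∏ (X - a_i)`, `(X - a_i) = P_i.idl * P_i.inv.idl`, so
the multiplicity at `P` is `2 * #{i : a_i = x_P}` (`even_count`). `semi` is preserved by submultisets. `not_semi`: remove a pair.
-/

open Polynomial

noncomputable section

namespace Pool.Agent.Lib.MP_2f3286_ag.HYP

variable {E : Type*} [Field E] {g : ℕ} {φ : E[X]}

/-- semi-reduced: no pair of conjugate points -/
def Semi (m : Multiset (Pt φ)) : Prop := ∀ (P : Pt φ), ¬ P ::ₘ {P.inv} ≤ m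

/-- reduced divisors -/
def Reduced (g : ℕ) (m : Multiset (Pt φ)) : Prop := m.card ≤ g ∧ Semi m

theorem Semi.mono {m m' : Multiset (Pt φ)} (h : Semi m) (hm : m' ≤ m) : Semi m' :=
  fun P hP => h P (hP.trans hm)

private theorem Red_pair_le {m : Multiset (Pt φ)} {P Q : Pt φ} (hP : P ∈ m) (hQ : Q ∈ m)
    (hne : P ≠ Q) : P ::ₘ {Q} ≤ m := by
  obtain ⟨t, rfl⟩ := Multiset.exists_cons_of_mem hP
  have hQt : Q ∈ t := by
    rcases Multiset.mem_cons.1 hQ with h | h
    · exact absurd h.symm hne
    · exact h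
  exact Multiset.cons_le_cons P (Multiset.singleton_le.2 hQt)

/-- two points of a semi-reduced divisor with the same `x` are equal -/
theorem Semi.eq_of_x {m : Multiset (Pt φ)} (h : Semi m) {P Q : Pt φ} (hP : P ∈ m) (hQ : Q ∈ m)
    (hx : P.x = Q.x) : P = Q := by
  by_contra hne
  have h1 : Q.y ^ 2 = P.y ^ 2 := by rw [P.eqn, Q.eqn, hx]
  rcases sq_eq_sq_iff_eq_or_eq_neg.1 h1 with h2 | h2
  · exact hne (Pt.ext hx h2.symm)
  · have h3 : Q = P.inv := Pt.ext hx.symm h2
    exact h P (h3 ▸ Red_pair_le hP hQ hne)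

private theorem Red_inv_eq {P : Pt φ} (h : P.y = 0) : P.inv = P :=
  Pt.ext rfl (show -P.y = P.y by rw [h, neg_zero])

/-- a point which occurs twice in a semi-reduced divisor is not a ramification point -/
theorem Semi.y_ne_zero {m : Multiset (Pt φ)} (h : Semi m) {P : Pt φ} (hP : P ::ₘ {P} ≤ m) :
    P.y ≠ 0 := by
  intro h0
  refine h P ?_
  rw [Red_inv_eq h0]
  exact hP

/-- points with `y ≠ 0` and different `x`, or equal: semi-reduced -/
theorem semi_of (h2 : (2 : E) ≠ 0) {m : Multiset (Pt φ)} (h0 : ∀ P ∈ m, P.y ≠ 0)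
    (h : ∀ P ∈ m, ∀ Q ∈ m, P.x = Q.x → P = Q) : Semi m := by
  intro P hP
  have hPm : P ∈ m := Multiset.mem_of_le hP (Multiset.mem_cons_self _ _)
  have hPi : P.inv ∈ m := Multiset.mem_of_le hP
    (Multiset.mem_cons_of_mem (Multiset.mem_singleton_self _))
  have h1 : P = P.inv := h P hPm P.inv hPi rfl
  have h3 : P.y = -P.y := congrArg Pt.y h1
  have h4 : (2 : E) * P.y = 0 := by linear_combination h3
  rcases mul_eq_zero.1 h4 with h5 | h5
  · exact h2 h5
  · exact h0 P hPm h5

private theorem Red_inv_inv_map (m : Multiset (Pt φ)) : (m.map Pt.inv).map Pt.inv = m := by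
  rw [Multiset.map_map]
  conv_rhs => rw [← Multiset.map_id m]
  exact Multiset.map_congr rfl fun P _ => Pt.inv_inv P

theorem semi_inv {m : Multiset (Pt φ)} (h : Semi m) : Semi (m.map Pt.inv) := by
  intro P hP
  refine h P.inv ?_
  have h1 := Multiset.map_le_map (f := Pt.inv) hP
  rw [Red_inv_inv_map, Multiset.map_cons, Multiset.map_singleton] at h1
  exact h1

/-- every effective divisor is equivalent to a semi-reduced one of smaller or equal degree -/
theorem exists_semi (hφ : Good g φ) (m : Multiset (Pt φ)) :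
    ∃ m', Semi m' ∧ m'.card ≤ m.card ∧ clm m = clm m' := by
  induction hn : m.card using Nat.strong_induction_on generalizing m with
  | _ n ih =>
    by_cases hs : Semi m
    · exact ⟨m, hs, hn.le, rfl⟩
    · rw [Semi] at hs
      push Not at hs
      obtain ⟨P, hP⟩ := hs
      obtain ⟨t, rfl⟩ := Multiset.le_iff_exists_add.1 hP
      rw [Multiset.card_add, Multiset.card_cons, Multiset.card_singleton] at hn
      obtain ⟨m', h1, h2, h3⟩ := ih t.card (by omega) t rfl
      refine ⟨m', h1, by omega, ?_⟩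
      rw [clm_add, clm_cons, clm_singleton, cl_inv hφ, add_neg_cancel, zero_add, h3]

private theorem Red_poly [IsAlgClosed E] (hφ : Good g φ) (s : Multiset E) :
    ∃ M : Multiset (Pt φ), Ideal.span {(⟨(s.map fun a => X - C a).prod, 0⟩ : CR φ)} = idm M ∧
      M.map Pt.inv = M ∧ ∀ [DecidableEq (Pt φ)] (P : Pt φ), P.y = 0 → Even (M.count P) := by
  induction s using Multiset.induction_on with
  | empty =>
    refine ⟨0, ?_, Multiset.map_zero _, fun P _ => by simp⟩
    rw [Multiset.map_zero, Multiset.prod_zero, idm_zero, Ideal.one_eq_top]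
    exact Ideal.span_singleton_one
  | cons a s ih =>
    obtain ⟨M, h1, h2, h3⟩ := ih
    obtain ⟨b, hb⟩ := IsAlgClosed.exists_pow_nat_eq (φ.eval a) (n := 2) (by norm_num)
    let Q : Pt φ := ⟨a, b, hb⟩
    refine ⟨Q ::ₘ Q.inv ::ₘ M, ?_, ?_, ?_⟩
    · have h4 : (⟨((a ::ₘ s).map fun a => X - C a).prod, 0⟩ : CR φ) =
          lin Q.x * ⟨(s.map fun a => X - C a).prod, 0⟩ := by
        rw [Multiset.map_cons, Multiset.prod_cons]
        ext1
        · rw [QuadraticAlgebra.re_mul]
          simp [lin, Q]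
        · rw [QuadraticAlgebra.im_mul]
          simp [lin]
      rw [h4, ← Ideal.span_singleton_mul_span_singleton, h1, ← idl_mul_inv hφ Q, idm_cons, idm_cons,
        mul_assoc]
    · rw [Multiset.map_cons, Multiset.map_cons, Pt.inv_inv, h2, Multiset.cons_swap]
    · intro _ P hP
      rw [Multiset.count_cons, Multiset.count_cons]
      by_cases hQ : P = Q
      · have : P = Q.inv := by rw [← hQ, Red_inv_eq hP]
        rw [if_pos hQ, if_pos this, add_assoc]
        exact (h3 P hP).add even_two
      · have : P ≠ Q.inv := by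
          intro h5
          apply hQ
          rw [← Red_inv_eq hP, h5, Pt.inv_inv]
        rw [if_neg hQ, if_neg this, add_zero, add_zero]
        exact h3 P hP

open scoped Classical in
/-- the divisor of a polynomial in `x` -/
theorem even_count [IsAlgClosed E] (hφ : Good g φ) {h : CR φ} {m : Multiset (Pt φ)} (h0 : h ≠ 0)
    (hm : Ideal.span {h} = idm m) (him : h.im = 0) :
    m.map Pt.inv = m ∧ ∀ P : Pt φ, P.y = 0 → Even (m.count P) := by
  obtain ⟨M, h1, h2, h3⟩ := Red_poly hφ h.re.roots
  have hre : h.re ≠ 0 := fun h4 => h0 (QuadraticAlgebra.ext h4 him)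
  have h4 : h.re = C h.re.leadingCoeff * (h.re.roots.map fun a => X - C a).prod :=
    (IsAlgClosed.splits h.re).eq_prod_roots
  have h5 : h = ⟨C h.re.leadingCoeff, 0⟩ * ⟨(h.re.roots.map fun a => X - C a).prod, 0⟩ := by
    ext1
    · rw [QuadraticAlgebra.re_mul]
      conv_lhs => rw [h4]
      simp
    · rw [QuadraticAlgebra.im_mul]
      simp [him]
  have h6 : IsUnit (⟨C h.re.leadingCoeff, 0⟩ : CR φ) :=
    (isUnit_iff hφ _).2 ⟨_, leadingCoeff_ne_zero.2 hre, rfl⟩
  have h7 : idm m = idm M := by
    rw [← hm, h5, Ideal.span_singleton_mul_left_unit h6, h1]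
  rw [idm_injective hφ h7]
  exact ⟨h2, fun P hP => h3 P hP⟩

/-- **uniqueness of reduced divisors** -/
theorem Reduced.unique [IsAlgClosed E] (hφ : Good g φ) {m m' : Multiset (Pt φ)} (h : Reduced g m)
    (h' : Reduced g m') (hm : clm m = clm m') : m = m' := by
  classical
  have h1 : clm (m + m'.map Pt.inv) = 0 := by
    rw [clm_add, clm_inv hφ, hm, add_neg_cancel]
  obtain ⟨f, hf0, hf⟩ := (clm_eq_zero_iff hφ _).1 h1
  have h2 := norm_deg hφ hf0 hf
  rw [Multiset.card_add, Multiset.card_map] at h2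
  have h3 : f.im = 0 := by
    by_contra him
    rw [norm_natDegree hφ f him] at h2
    have h4 := h.1
    have h5 := h'.1
    have h6 := le_max_right (2 * f.re.natDegree) (2 * f.im.natDegree + (2 * g + 1))
    omega
  obtain ⟨h4, h5⟩ := even_count hφ hf0 hf h3
  have hinj : Function.Injective (Pt.inv : Pt φ → Pt φ) := fun P Q hPQ => by
    rw [← Pt.inv_inv P, hPQ, Pt.inv_inv]
  have hcm : ∀ (n : Multiset (Pt φ)) (P : Pt φ), (n.map Pt.inv).count P = n.count P.inv := by
    intro n P
    have := Multiset.count_map_eq_count' Pt.inv n hinj P.inv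
    rwa [Pt.inv_inv] at this
  ext P
  have h6 : (m + m'.map Pt.inv).count P = (m + m'.map Pt.inv).count P.inv := by
    conv_lhs => rw [← h4]
    rw [hcm]
  rw [Multiset.count_add, Multiset.count_add, hcm, hcm, Pt.inv_inv] at h6
  by_cases hy : P.y = 0
  · have h7 : ∀ n : Multiset (Pt φ), Semi n → n.count P ≤ 1 := by
      intro n hn
      by_contra hc
      have h8 : 2 ≤ n.count P := by omega
      have h9 : P ::ₘ {P} ≤ n := by
        have := Multiset.le_count_iff_replicate_le.1 h8
        simpa [Multiset.replicate_succ] using this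
      exact hn.y_ne_zero h9 hy
    have h8 := h7 m h.2
    have h9 := h7 m' h'.2
    have h10 := h5 P hy
    rw [Multiset.count_add, hcm, Red_inv_eq hy] at h10
    obtain ⟨k, hk⟩ := h10
    omega
  · have h7 : ∀ n : Multiset (Pt φ), Semi n → n.count P = 0 ∨ n.count P.inv = 0 := by
      intro n hn
      by_contra hc
      push Not at hc
      have hP : P ∈ n := Multiset.count_ne_zero.1 hc.1
      have hPi : P.inv ∈ n := Multiset.count_ne_zero.1 hc.2
      refine hn P (Red_pair_le hP hPi ?_)
      intro h8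
      have h9 : P.y = -P.y := congrArg Pt.y h8
      have h10 : (2 : E) * P.y = 0 := by linear_combination h9
      rcases mul_eq_zero.1 h10 with h11 | h11
      · exact hφ.two h11
      · exact hy h11
    rcases h7 m h.2 with h8 | h8 <;> rcases h7 m' h'.2 with h9 | h9 <;> omega

end Pool.Agent.Lib.MP_2f3286_ag.HYP
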