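import Pool.Agent.Lib.MP_2f3286_ag.HYP.Gens

/-!
# The ring of functions is a domain   (module Rng, 45 minutes)

PROOF. `h.norm = h.re ^ 2 - φ * h.im ^ 2` (Mathlib `QuadraticAlgebra.norm_def`). The degree of `h.re ^ 2` is even, that of `φ * h.im ^ 2`
is odd and at least `2 g + 1` if `h.im ≠ 0`; so they do not cancel: `norm_natDegree`. `norm` is multiplicative
(`map_mul`), so `CR φ` is a domain. `mul_star`: Mathlib `QuadraticAlgebra.algebraMap_norm_eq_mul_star`.
-/

open Polynomial

noncomputable section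

namespace Pool.Agent.Lib.MP_2f3286_ag.HYP

variable {E : Type*} [Field E]

/-- `2 ≠ 0`, `φ` is separable of degree `2 g + 1` -/
structure Good (g : ℕ) (φ : E[X]) : Prop where
  two : (2 : E) ≠ 0
  sep : φ.Separable
  deg : φ.natDegree = 2 * g + 1

variable {g : ℕ} {φ : E[X]}

theorem norm_eq (h : CR φ) : h.norm = h.re ^ 2 - φ * h.im ^ 2 := by
  rw [QuadraticAlgebra.norm_def]; ring

theorem norm_natDegree (hφ : Good g φ) (h : CR φ) (him : h.im ≠ 0) :
    h.norm.natDegree = max (2 * h.re.natDegree) (2 * h.im.natDegree + (2 * g + 1)) := by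
  have hφ0 : φ ≠ 0 := by
    intro h0
    have := hφ.deg
    rw [h0, natDegree_zero] at this
    omega
  have h1 : (h.re ^ 2).natDegree = 2 * h.re.natDegree := natDegree_pow _ _
  have h2 : (φ * h.im ^ 2).natDegree = 2 * h.im.natDegree + (2 * g + 1) := by
    rw [natDegree_mul hφ0 (pow_ne_zero 2 him), natDegree_pow, hφ.deg]
    ring
  rw [norm_eq]
  rcases lt_trichotomy (h.re ^ 2).natDegree (φ * h.im ^ 2).natDegree with h3 | h3 | h3
  · rw [natDegree_sub_eq_right_of_natDegree_lt h3, h2, max_eq_right]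
    rw [h1, h2] at h3
    exact h3.le
  · exfalso
    rw [h1, h2] at h3
    omega
  · rw [natDegree_sub_eq_left_of_natDegree_lt h3, h1, max_eq_left]
    rw [h1, h2] at h3
    exact h3.le

theorem norm_natDegree_re (h : CR φ) (him : h.im = 0) :
    h.norm.natDegree = 2 * h.re.natDegree := by
  rw [norm_eq, him, zero_pow two_ne_zero, mul_zero, sub_zero, natDegree_pow]

theorem norm_ne_zero (hφ : Good g φ) {h : CR φ} (h0 : h ≠ 0) : h.norm ≠ 0 := by
  by_cases him : h.im = 0
  · rw [norm_eq, him, zero_pow two_ne_zero, mul_zero, sub_zero]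
    apply pow_ne_zero
    intro hre
    exact h0 (QuadraticAlgebra.ext hre him)
  · intro h1
    have h2 := norm_natDegree hφ h him
    rw [h1, natDegree_zero] at h2
    omega

theorem isDomain (hφ : Good g φ) : IsDomain (CR φ) := by
  haveI : Nontrivial (CR φ) := by
    refine ⟨⟨0, 1, fun h => ?_⟩⟩
    have h1 : (0 : CR φ).re = (1 : CR φ).re := by rw [h]
    rw [QuadraticAlgebra.re_zero, QuadraticAlgebra.re_one] at h1
    exact zero_ne_one h1
  haveI : NoZeroDivisors (CR φ) := by
    refine ⟨fun {a b} hab => ?_⟩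
    by_contra hcon
    rw [not_or] at hcon
    have h1 := mul_ne_zero (norm_ne_zero hφ hcon.1) (norm_ne_zero hφ hcon.2)
    rw [← map_mul, hab] at h1
    apply h1
    rw [norm_eq, QuadraticAlgebra.re_zero, QuadraticAlgebra.im_zero]
    ring
  exact NoZeroDivisors.to_isDomain _

/-- conjugation of functions is an automorphism which maps the ideal of `P` to the ideal of `P.inv` -/
theorem star_mem_idl {h : CR φ} {P : Pt φ} : star h ∈ P.idl ↔ h ∈ P.inv.idl := by
  rw [Pt.mem_idl, Pt.mem_idl]
  have h1 : (star h).re = h.re := by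
    rw [QuadraticAlgebra.re_star]
    ring
  have h2 : (star h).im = -h.im := by
    rw [QuadraticAlgebra.im_star]
  rw [h1, h2, eval_neg]
  have h3 : h.re.eval P.x + -h.im.eval P.x * P.y =
      h.re.eval P.inv.x + h.im.eval P.inv.x * P.inv.y := by
    rw [Pt.inv]
    ring
  rw [h3]

theorem isUnit_iff (hφ : Good g φ) (h : CR φ) : IsUnit h ↔ ∃ c : E, c ≠ 0 ∧ h = ⟨C c, 0⟩ := by
  constructor
  · intro hu
    have h1 : IsUnit h.norm := hu.map QuadraticAlgebra.norm
    have h2 : h.norm.natDegree = 0 := natDegree_eq_zero_of_isUnit h1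
    have him : h.im = 0 := by
      by_contra him
      have h3 := norm_natDegree hφ h him
      rw [h2] at h3
      omega
    have h4 := norm_natDegree_re h him
    rw [h2] at h4
    have h5 : h.re.natDegree = 0 := by omega
    obtain ⟨c, hc⟩ := natDegree_eq_zero.1 h5
    refine ⟨c, ?_, QuadraticAlgebra.ext hc.symm him⟩
    rintro rfl
    rw [C_0] at hc
    have h6 : h = 0 := QuadraticAlgebra.ext hc.symm him
    haveI := isDomain hφ
    exact hu.ne_zero h6
  · rintro ⟨c, hc, rfl⟩
    refine IsUnit.of_mul_eq_one ⟨C c⁻¹, 0⟩ ?_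
    apply QuadraticAlgebra.ext
    · rw [QuadraticAlgebra.re_mul, QuadraticAlgebra.re_one]
      rw [← C_mul, mul_inv_cancel₀ hc, C_1]
      ring
    · rw [QuadraticAlgebra.im_mul, QuadraticAlgebra.im_one]
      ring

end Pool.Agent.Lib.MP_2f3286_ag.HYP
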