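import Mathlib

/-!
# The square roots attached to a half of a point: identities
-/

open Polynomial

namespace Pool.Agent.Lib.MP_2f3286_ag.HYP

variable {M : Type*} [Field M] {ι : Type*} [Fintype ι] [DecidableEq ι] {α : ι → M} {g : ℕ} {x : M}
  {E O : M[X]}

theorem eval_prod_ne_zero (hα : Function.Injective α) (i : ι) :
    (derivative (∏ j, (X - C (α j)))).eval (α i) ≠ 0 := by
  rw [derivative_prod_finset, eval_finsetSum, Finset.sum_eq_single i]
  · rw [derivative_X_sub_C, mul_one, eval_prod, Finset.prod_ne_zero_iff]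
    intro j hj
    rw [eval_sub, eval_X, eval_C, sub_ne_zero]
    intro h
    exact (Finset.ne_of_mem_erase hj) (hα h).symm
  · intro j _ hj
    rw [eval_mul, eval_prod]
    have : ∏ l ∈ Finset.univ.erase j, eval (α i) (X - C (α l)) = 0 := by
      apply Finset.prod_eq_zero (i := i) (Finset.mem_erase.mpr ⟨hj.symm, Finset.mem_univ _⟩)
      rw [eval_sub, eval_X, eval_C, sub_self]
    rw [this, zero_mul]
  · intro h; exact absurd (Finset.mem_univ i) h

omit [DecidableEq ι] in
theorem eval_prod_zero (i : ι) : (∏ j, (X - C (α j))).eval (α i) = 0 := by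
  rw [eval_prod]
  apply Finset.prod_eq_zero (Finset.mem_univ i)
  rw [eval_sub, eval_X, eval_C, sub_self]

/-- `O` has no common root with the product. -/
theorem O_ne_zero (hα : Function.Injective α)
    (hf : ∏ i, (X - C (α i)) = E ^ 2 + (X - C x) * O ^ 2) (i : ι) : O.eval (α i) ≠ 0 := by
  intro h
  have h1 := congrArg (eval (α i)) hf
  rw [eval_prod_zero] at h1
  simp only [eval_add, eval_pow, eval_mul, h, zero_pow two_ne_zero, mul_zero, add_zero] at h1
  have h2 : E.eval (α i) = 0 := pow_eq_zero_iff (two_ne_zero) |>.1 h1.symm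
  apply eval_prod_ne_zero hα i
  have h4 : derivative (E ^ 2 + (X - C x) * O ^ 2) =
      2 * E * derivative E + O * (O + (X - C x) * 2 * derivative O) := by
    simp only [derivative_add, derivative_mul, derivative_pow, derivative_sub, derivative_X,
      derivative_C]
    simp only [Nat.cast_ofNat, C_ofNat]
    ring
  rw [hf, h4]
  simp only [eval_add, eval_mul, h, h2, mul_zero, zero_mul, add_zero]

/-- the square root of `x - α i` given by `E` and `O` -/
noncomputable def rt (α : ι → M) (E O : M[X]) (i : ι) : M := E.eval (α i) / O.eval (α i)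

theorem rt_mul (hα : Function.Injective α)
    (hf : ∏ i, (X - C (α i)) = E ^ 2 + (X - C x) * O ^ 2) (i : ι) :
    rt α E O i * O.eval (α i) = E.eval (α i) :=
  div_mul_cancel₀ _ (O_ne_zero hα hf i)

theorem rt_sq (hα : Function.Injective α)
    (hf : ∏ i, (X - C (α i)) = E ^ 2 + (X - C x) * O ^ 2) (i : ι) :
    rt α E O i ^ 2 = x - α i := by
  have h0 := O_ne_zero hα hf i
  have h1 := congrArg (eval (α i)) hf
  rw [eval_prod_zero] at h1
  simp only [eval_add, eval_pow, eval_mul, eval_sub, eval_X, eval_C] at h1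
  rw [rt, div_pow, div_eq_iff (pow_ne_zero 2 h0)]
  linear_combination -h1

theorem rt_add_mul_sub (hα : Function.Injective α)
    (hf : ∏ i, (X - C (α i)) = E ^ 2 + (X - C x) * O ^ 2) (i j : ι) :
    (rt α E O i + rt α E O j) * (rt α E O i - rt α E O j) = α j - α i := by
  have h1 := rt_sq hα hf i
  have h2 := rt_sq hα hf j
  linear_combination h1 - h2

theorem rt_add_ne_zero (hα : Function.Injective α)
    (hf : ∏ i, (X - C (α i)) = E ^ 2 + (X - C x) * O ^ 2) {i j : ι} (hij : i ≠ j) :
    rt α E O i + rt α E O j ≠ 0 := by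
  intro h
  have h1 := rt_add_mul_sub hα hf i j
  rw [h, zero_mul] at h1
  exact hij (hα (sub_eq_zero.mp h1.symm)).symm

theorem rt_injective (hα : Function.Injective α)
    (hf : ∏ i, (X - C (α i)) = E ^ 2 + (X - C x) * O ^ 2) : Function.Injective (rt α E O) := by
  intro i j h
  have h1 := rt_add_mul_sub hα hf i j
  rw [h, sub_self, mul_zero] at h1
  exact (hα (sub_eq_zero.mp h1.symm)).symm

theorem rt_ne_zero (hα : Function.Injective α)
    (hf : ∏ i, (X - C (α i)) = E ^ 2 + (X - C x) * O ^ 2) (hx : ∀ i, x ≠ α i) (i : ι) :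
    rt α E O i ≠ 0 := by
  intro h
  have h1 := rt_sq hα hf i
  rw [h, zero_pow two_ne_zero] at h1
  exact hx i (sub_eq_zero.mp h1.symm)

/-- the polynomial with the roots `- rt i` -/
noncomputable def Gp (x : M) (E O : M[X]) : M[X] :=
  E.comp (C x - X ^ 2) + X * O.comp (C x - X ^ 2)

theorem natDegree_sub_sq (x : M) : (C x - X ^ 2 : M[X]).natDegree = 2 := by
  compute_degree!

theorem leadingCoeff_sub_sq (x : M) : (C x - X ^ 2 : M[X]).leadingCoeff = -1 := by
  rw [leadingCoeff, natDegree_sub_sq]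
  simp

theorem Gp_natDegree_le (hO : O.natDegree = g) (hE : E.natDegree ≤ g) :
    (Gp x E O).natDegree ≤ 2 * g + 1 := by
  refine (natDegree_add_le _ _).trans (max_le ?_ ?_)
  · rw [natDegree_comp, natDegree_sub_sq]; omega
  · refine natDegree_mul_le.trans ?_
    rw [natDegree_comp, natDegree_sub_sq, natDegree_X, hO]; omega

theorem Gp_coeff (hOm : O.Monic) (hO : O.natDegree = g) (hE : E.natDegree ≤ g) :
    (Gp x E O).coeff (2 * g + 1) = (-1) ^ g := by
  rw [Gp, coeff_add, coeff_X_mul, coeff_eq_zero_of_natDegree_lt, zero_add]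
  · have h1 : (O.comp (C x - X ^ 2)).natDegree = 2 * g := by
      rw [natDegree_comp, natDegree_sub_sq, hO]; omega
    have h2 : (O.comp (C x - X ^ 2)).leadingCoeff = (-1) ^ g := by
      rw [leadingCoeff_comp (by rw [natDegree_sub_sq]; norm_num), hOm.leadingCoeff, one_mul,
        leadingCoeff_sub_sq, hO]
    rw [leadingCoeff, h1] at h2
    exact h2
  · rw [natDegree_comp, natDegree_sub_sq]; omega

theorem Gp_eq (hα : Function.Injective α) (hcard : Fintype.card ι = 2 * g + 1)
    (hOm : O.Monic) (hO : O.natDegree = g) (hE : E.natDegree ≤ g)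
    (hf : ∏ i, (X - C (α i)) = E ^ 2 + (X - C x) * O ^ 2) :
    Gp x E O = C ((-1) ^ g) * ∏ i, (X + C (rt α E O i)) := by
  classical
  have hinj := rt_injective hα hf
  have hroot : ∀ i, (Gp x E O).eval (-rt α E O i) = 0 := by
    intro i
    have h1 := rt_sq hα hf i
    have h2 := rt_mul hα hf i
    have h3 : x - (-rt α E O i) ^ 2 = α i := by rw [neg_sq, h1]; ring
    simp only [Gp, eval_add, eval_mul, eval_comp, eval_sub, eval_C, eval_pow, eval_X, h3]
    linear_combination -h2
  have hdvd : ∏ i, (X + C (rt α E O i)) ∣ Gp x E O := by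
    apply Finset.prod_dvd_of_coprime
    · intro i _ j _ hij
      change IsCoprime (X + C (rt α E O i)) (X + C (rt α E O j))
      have h1 : X + C (rt α E O i) = X - C (-rt α E O i) := by rw [C_neg, sub_neg_eq_add]
      have h2 : X + C (rt α E O j) = X - C (-rt α E O j) := by rw [C_neg, sub_neg_eq_add]
      rw [h1, h2]
      apply isCoprime_X_sub_C_of_isUnit_sub
      apply IsUnit.mk0
      rw [sub_ne_zero]
      intro h
      exact hij (hinj (neg_injective h))
    · intro i _
      have h1 : X + C (rt α E O i) = X - C (-rt α E O i) := by rw [C_neg, sub_neg_eq_add]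
      rw [h1, dvd_iff_isRoot]
      exact hroot i
  have hmon : (∏ i, (X + C (rt α E O i))).Monic := monic_prod_of_monic _ _ fun i _ => monic_X_add_C _
  have hdeg : (∏ i, (X + C (rt α E O i))).natDegree = 2 * g + 1 := by
    rw [natDegree_prod_of_monic _ _ fun i _ => monic_X_add_C _]
    simp [hcard]
  obtain ⟨q, hq⟩ := hdvd
  have hG0 : Gp x E O ≠ 0 := by
    intro h
    have h1 := Gp_coeff (x := x) hOm hO hE
    rw [h, coeff_zero] at h1
    exact pow_ne_zero g (neg_ne_zero.mpr one_ne_zero) h1.symm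
  have hq0 : q ≠ 0 := by
    rintro rfl
    exact hG0 (by rw [hq, mul_zero])
  have hqd : q.natDegree = 0 := by
    have h1 := Gp_natDegree_le (x := x) hO hE
    rw [hq, natDegree_mul hmon.ne_zero hq0, hdeg] at h1
    omega
  obtain ⟨c, rfl⟩ := natDegree_eq_zero.mp hqd
  have h2 := Gp_coeff (x := x) hOm hO hE
  rw [hq, coeff_mul_C] at h2
  have h3 : (∏ i, (X + C (rt α E O i))).coeff (2 * g + 1) = 1 := by
    rw [← hdeg]; exact hmon
  rw [h3, one_mul] at h2
  rw [hq, h2, mul_comm]

/-- `O(α i) = (-1)^g ∏ (rt i + rt j)`. -/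
theorem O_eval (hα : Function.Injective α) (hcard : Fintype.card ι = 2 * g + 1)
    (hOm : O.Monic) (hO : O.natDegree = g) (hE : E.natDegree ≤ g)
    (hf : ∏ i, (X - C (α i)) = E ^ 2 + (X - C x) * O ^ 2) (h2 : (2 : M) ≠ 0) (hx : ∀ i, x ≠ α i)
    (i : ι) : O.eval (α i) = (-1) ^ g * ∏ j ∈ Finset.univ.erase i, (rt α E O i + rt α E O j) := by
  have h1 := congrArg (eval (rt α E O i)) (Gp_eq hα hcard hOm hO hE hf)
  have h3 : x - (rt α E O i) ^ 2 = α i := by rw [rt_sq hα hf]; ring
  have h4 := rt_mul hα hf i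
  simp only [Gp, eval_add, eval_mul, eval_comp, eval_sub, eval_C, eval_pow, eval_X, h3,
    eval_prod] at h1
  rw [← Finset.mul_prod_erase Finset.univ _ (Finset.mem_univ i)] at h1
  have h5 : 2 * rt α E O i ≠ 0 := mul_ne_zero h2 (rt_ne_zero hα hf hx i)
  apply mul_left_cancel₀ h5
  linear_combination h1 + h4

end Pool.Agent.Lib.MP_2f3286_ag.HYP
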