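import Pool.Agent.Lib.MP_2f3286_ag.HYP.UAlg
import Pool.Agent.Lib.MP_2f3286_ag.HYP.Frh
import Pool.Agent.Lib.MP_2f3286_ag.HYP.Aut

/-!
# The unit `PHI`
-/

open Polynomial

noncomputable section

namespace Pool.Agent.Lib.MP_2f3286_ag.HYP

variable {M : Type*} [Field M]

/-- the product of `r a / (r a + r b)` over the ordered pairs of different elements of `S` -/
def Phi (S : Finset M) (r : M → M) : M :=
  open scoped Classical in ∏ a ∈ S, ∏ b ∈ S.erase a, r a / (r a + r b)

/-- the unit: product over the ordered pairs of roots of `φ` of `r a / (r a + r b)`, `r a = F(a) / O(a)` -/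
def PHI (φ F O : M[X]) : M :=
  open scoped Classical in Phi φ.roots.toFinset fun a => F.eval a / O.eval a

theorem Phi_eq [DecidableEq M] (S : Finset M) (r : M → M) :
    Phi S r = ∏ i : S, ∏ j ∈ Finset.univ.erase i, r i / (r i + r j) := by
  classical
  have h0 : Phi S r = ∏ a ∈ S, ∏ b ∈ S.erase a, r a / (r a + r b) := by
    unfold Phi
    apply Finset.prod_congr rfl
    intro a _
    apply Finset.prod_congr _ fun _ _ => rfl
    ext b
    simp only [Finset.mem_erase]
  rw [h0, ← Finset.prod_coe_sort S fun a => ∏ b ∈ S.erase a, r a / (r a + r b)]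
  apply Finset.prod_congr rfl
  intro i _
  symm
  apply Finset.prod_bij (fun (j : S) _ => (j : M))
  · intro j hj
    rw [Finset.mem_erase] at hj
    rw [Finset.mem_erase]
    exact ⟨fun h => hj.1 (Subtype.ext h), j.2⟩
  · intro j _ j' _ h
    exact Subtype.ext h
  · intro b hb
    rw [Finset.mem_erase] at hb
    exact ⟨⟨b, hb.2⟩, Finset.mem_erase.mpr ⟨fun h => hb.1 (congrArg Subtype.val h),
      Finset.mem_univ _⟩, rfl⟩
  · intro j _
    rfl

theorem Phi_map (σ : M →+* M) (S : Finset M) (r : M → M) (hS : ∀ a ∈ S, σ a ∈ S)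
    (hS' : ∀ a ∈ S, ∃ b ∈ S, σ b = a) (hr : ∀ a, σ (r a) = r (σ a)) : σ (Phi S r) = Phi S r := by
  classical
  unfold Phi
  rw [map_prod]
  refine Finset.prod_bij (fun a _ => σ a) (fun a ha => hS a ha) (fun a _ a' _ h => σ.injective h)
    (fun a ha => ?_) (fun a ha => ?_)
  · obtain ⟨b, hb, h⟩ := hS' a ha
    exact ⟨b, hb, h⟩
  · rw [map_prod]
    refine Finset.prod_bij (fun b _ => σ b) (fun b hb => ?_) (fun b _ b' _ h => σ.injective h)
      (fun b hb => ?_) (fun b hb => ?_)
    · rw [Finset.mem_erase] at hb ⊢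
      exact ⟨fun h => hb.1 (σ.injective h), hS b hb.2⟩
    · rw [Finset.mem_erase] at hb
      obtain ⟨c, hc, rfl⟩ := hS' b hb.2
      refine ⟨c, ?_, rfl⟩
      rw [Finset.mem_erase]
      exact ⟨fun h => hb.1 (congrArg σ h), hc⟩
    · rw [map_div₀, map_add, hr, hr]

theorem eval_map_fixed (σ : M →+* M) {p : M[X]} (hp : p.map σ = p) (a : M) :
    σ (p.eval a) = p.eval (σ a) := by
  conv_rhs => rw [← hp]
  rw [eval_map_apply]

/-- `PHI` is fixed by every endomorphism which fixes the three polynomials -/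
theorem PHI_map (σ : M →+* M) {φ F O : M[X]} (hφ0 : φ ≠ 0) (hφ : φ.map σ = φ) (hF : F.map σ = F)
    (hO : O.map σ = O) : σ (PHI φ F O) = PHI φ F O := by
  classical
  have hmem : ∀ a, a ∈ φ.roots.toFinset ↔ φ.eval a = 0 := by
    intro a
    rw [Multiset.mem_toFinset, mem_roots hφ0]
    rfl
  have hS : ∀ a ∈ φ.roots.toFinset, σ a ∈ φ.roots.toFinset := by
    intro a ha
    rw [hmem] at ha ⊢
    rw [← eval_map_fixed σ hφ, ha, map_zero]
  unfold PHI
  apply Phi_map σ _ _ hS
  · -- an injective map of a finite set into itself is surjective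
    intro a ha
    have h1 : Finset.image σ φ.roots.toFinset = φ.roots.toFinset := by
      apply Finset.eq_of_subset_of_card_le
      · intro b hb
        rw [Finset.mem_image] at hb
        obtain ⟨c, hc, rfl⟩ := hb
        exact hS c hc
      · rw [Finset.card_image_of_injective _ σ.injective]
    have h2 := ha
    rw [← h1, Finset.mem_image] at h2
    exact h2
  · intro a
    rw [map_div₀, eval_map_fixed σ hF, eval_map_fixed σ hO]

/-- the norm polynomial of the image of a divisor -/
theorem upol_map {E E' : Type*} [Field E] [Field E'] {φ : E[X]} {ψ : E'[X]} (j : E →+* E')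
    (hj : φ.map j = ψ) (m : Multiset (Pt φ)) : upol (m.map (Pt.map j hj)) = (upol m).map j := by
  rw [upol, upol, Multiset.map_map, Polynomial.map_multiset_prod, Multiset.map_map]
  congr 1
  apply Multiset.map_congr rfl
  intro P _
  simp [Pt.map]

/-- **`PHI` is fixed by the automorphisms which fix the point and its half** -/
theorem PHI_fixed [IsAlgClosed M] {g : ℕ} {φ : M[X]} (hφ : Good g φ) (σ : M →+* M)
    (hσ : φ.map σ = φ) {P : Pt φ} (hP : P.y ≠ 0) (hPσ : P.map σ hσ = P) {m : Multiset (Pt φ)}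
    {F : M[X]} (hm : Reduced g m) (hz : J.map σ hσ (clm m) = clm m)
    (hF : φ = F ^ 2 + (X - C P.x) * upol m ^ 2) (h1 : F.eval P.x = -P.y) :
    σ (PHI φ F (upol m)) = PHI φ F (upol m) := by
  have hx : σ P.x = P.x := congrArg Pt.x hPσ
  have hy : σ P.y = P.y := congrArg Pt.y hPσ
  have hφ0 : φ ≠ 0 := by
    intro h
    have := hφ.deg
    rw [h, natDegree_zero] at this
    omega
  have hu : (upol (m.map (Pt.map σ hσ))) = (upol m).map σ := upol_map σ hσ m
  have hm' : m.map (Pt.map σ hσ) = m := fixed_reduced hφ σ hσ hm hz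
  rw [hm'] at hu
  have hF' : φ = (F.map σ) ^ 2 + (X - C P.x) * upol m ^ 2 := by
    have h2 := congrArg (Polynomial.map σ) hF
    rw [hσ] at h2
    refine h2.trans ?_
    rw [Polynomial.map_add, Polynomial.map_mul, Polynomial.map_pow, Polynomial.map_pow,
      Polynomial.map_sub, map_X, map_C, hx, ← hu]
  have h1' : (F.map σ).eval P.x = -P.y := by
    have h2 : (F.map σ).eval (σ P.x) = σ (F.eval P.x) := eval_map_apply _ _
    rw [hx, h1, map_neg, hy] at h2
    exact h2
  have hFF := (half_unique hφ hP hm hm rfl hF hF' h1 h1').2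
  exact PHI_map σ hφ0 hσ hFF.symm hu.symm

end Pool.Agent.Lib.MP_2f3286_ag.HYP
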