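import Pool.Agent.Lib.MP_2f3286_ag.Pt.MaxUnrOver

/-!
# Extension of places with values in an algebraically closed field, conjugacy   (module XExt, 75 minutes)

PROOF. `exists_ext_place`: `Pt.MaxOver.exists_ext_val A` gives a valuation ring `B` of `Ω` with `B.comap = A`. The kernel of `φ` is the
maximal ideal of `A` (`hφ`: an element of the maximal ideal with `φ x ≠ 0` would be a unit), so `φ` factors through the residue field
`κ A` (`Ideal.Quotient.lift` or `IsLocalRing.ResidueField.lift`, needs `IsLocalHom φ`). `κ A → κ B` is algebraic (`Full.exists_integral_residue`,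
or: `x` in `B` satisfies a polynomial over `M`, scale it so that the coefficients are in `A` and one of them is a unit).
`IsAlgClosed.lift : κ B →ₐ[κ A] E`; `Φ = lift ∘ residue`.

`conj_place`: `Full.val_trans` (as in `Pt.unram_aux`) gives `h₀` with `x ∈ B₁ ↔ h₀ x ∈ B₂`; replace `(B₂, Φ₂)` by `(B₁, Φ₂ ∘ h₀)`: so
`B₁ = B₂ = B`. Both `Φ₁, Φ₂ : B → E` have the maximal ideal as kernel and agree on `A`. Let `C = integralClosure A Ω ⊆ B`. By
`Full.exists_integral_residue` every element of `B` is congruent to an element of `C` modulo the maximal ideal, so it is enough to find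
`g` in `Gal(Ω/M)` with `Φ₂ (g c) = Φ₁ c` for `c` in `C` and `g B = B`; the second follows from the first: `PP`, `Full.eq_of_PP_eq`.
Finite sets: for `c₁, .., c_n` in `C` there is `g` with `Φ₂ (g c_i) = Φ₁ c_i` for all `i`: otherwise choose for each of the finitely many
values of `g` (on a finite Galois subextension which contains the `c_i`) an element `c_g` with `Φ₂ (g c_g) ≠ Φ₁ c_g`; the polynomial
`∏_g (Z - ∑_h T_h g(c_h))` has coefficients in `A[T_h]`; apply `Φ₁`, `Φ₂` to the coefficients (the same result) and put `Z = ∑ T_h Φ₁(c_h)`: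
`∏_g (∑_h T_h (Φ₁ c_h - Φ₂ (g c_h))) = 0`, so one factor is zero: contradiction. Compactness of `Gal(Ω/M)`: the sets
`{g | Φ₂ (g c) = Φ₁ c for c in F}` are closed and non-empty, directed. Alternative for the last part: `points_aux` in
`MP_2f3286_ag/Points.lean` and the argument of `Full.points_trans'` with `kb` replaced by the image of `C` in `E`, which is algebraically
closed (`Ω` is) and Galois over the image of `A` (characteristic 0 of `E` may be assumed: `[CharZero E]`).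
-/

open Polynomial

open scoped Pointwise

namespace Pool.Agent.Lib.MP_2f3286_ag.HYP

/-- two homomorphisms with the same range which agree on the invariants are conjugate -/
private theorem XExt_lift {A C G E : Type*} [CommRing A] [CommRing C] [Algebra A C] [Group G]
    [MulSemiringAction G C] [SMulCommClass G A C] [TopologicalSpace G] [CompactSpace G]
    [TotallyDisconnectedSpace G] [IsTopologicalGroup G] [TopologicalSpace C] [DiscreteTopology C]
    [ContinuousSMul G C] [Algebra.IsInvariant A C G] [Field E] (Ψ₁ Ψ₂ : C →+* E)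
    (hA : ∀ a : A, Ψ₁ (algebraMap A C a) = Ψ₂ (algebraMap A C a))
    (hr1 : ∀ c, ∃ c', Ψ₁ c' = Ψ₂ c) (hr2 : ∀ c, ∃ c', Ψ₂ c' = Ψ₁ c) :
    ∃ g : G, ∀ c, Ψ₂ (g • c) = Ψ₁ c := by
  have p1 : (RingHom.ker Ψ₁).IsPrime := RingHom.ker_isPrime Ψ₁
  have p2 : (RingHom.ker Ψ₂).IsPrime := RingHom.ker_isPrime Ψ₂
  have hunder : (RingHom.ker Ψ₁).under A = (RingHom.ker Ψ₂).under A := by
    ext r
    change Ψ₁ (algebraMap A _ r) = 0 ↔ Ψ₂ (algebraMap A _ r) = 0
    rw [hA]
  obtain ⟨g, hg⟩ := Algebra.IsInvariant.exists_smul_of_under_eq_of_profinite (A := A) (G := G)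
    (RingHom.ker Ψ₁) (RingHom.ker Ψ₂) hunder
  have hk : ∀ c, Ψ₂ (g • c) = 0 ↔ Ψ₁ c = 0 := by
    intro c
    have h1 : g • c ∈ RingHom.ker Ψ₂ ↔ g • c ∈ g • RingHom.ker Ψ₁ := by rw [hg]
    rw [Ideal.smul_mem_pointwise_smul_iff, RingHom.mem_ker, RingHom.mem_ker] at h1
    exact h1
  let Q : Ideal C := RingHom.ker Ψ₁
  let P : Ideal A := Q.under A
  have _ : Q.LiesOver P := ⟨rfl⟩
  -- the two isomorphisms of `C/Q` with the image
  let f₂ : C →+* Ψ₁.range := (Ψ₂.comp (MulSemiringAction.toRingHom G C g)).codRestrict Ψ₁.range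
    (fun c => hr1 (g • c))
  have hf₂ : ∀ c, ((f₂ c : Ψ₁.range) : E) = Ψ₂ (g • c) := fun c => rfl
  let u : C ⧸ Q →+* Ψ₁.range := Ideal.Quotient.lift Q f₂ (fun c hc => by
    apply Subtype.ext
    rw [hf₂]
    exact (hk c).2 hc)
  have hu : ∀ c, ((u (Ideal.Quotient.mk Q c) : Ψ₁.range) : E) = Ψ₂ (g • c) := fun c => rfl
  have hub : Function.Bijective u := by
    constructor
    · rw [injective_iff_map_eq_zero]
      intro x hx
      obtain ⟨c, rfl⟩ := Ideal.Quotient.mk_surjective x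
      have h1 : Ψ₂ (g • c) = 0 := by rw [← hu, hx]; rfl
      exact Ideal.Quotient.eq_zero_iff_mem.2 ((hk c).1 h1)
    · rintro ⟨y, c, rfl⟩
      obtain ⟨c', hc'⟩ := hr2 c
      refine ⟨Ideal.Quotient.mk Q (g⁻¹ • c'), Subtype.ext ?_⟩
      rw [hu, smul_inv_smul]
      exact hc'
  let e₂ : C ⧸ Q ≃+* Ψ₁.range := RingEquiv.ofBijective u hub
  let e₁ : C ⧸ Q ≃+* Ψ₁.range := RingHom.quotientKerEquivRange Ψ₁
  have he₁ : ∀ c, ((e₁ (Ideal.Quotient.mk Q c) : Ψ₁.range) : E) = Ψ₁ c := fun c => rfl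
  have he₂ : ∀ c, ((e₂ (Ideal.Quotient.mk Q c) : Ψ₁.range) : E) = Ψ₂ (g • c) := fun c => rfl
  have hginv : ∀ a : A, g • (algebraMap A C a) = algebraMap A C a := by
    intro a
    rw [Algebra.algebraMap_eq_smul_one, smul_comm, smul_one]
  let σ : (C ⧸ Q) ≃ₐ[A ⧸ P] (C ⧸ Q) :=
    { e₁.trans e₂.symm with
      commutes' := by
        intro r
        obtain ⟨r, rfl⟩ := Ideal.Quotient.mk_surjective r
        change e₂.symm (e₁ (Ideal.Quotient.mk Q (algebraMap A C r))) =
          Ideal.Quotient.mk Q (algebraMap A C r)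
        rw [RingEquiv.symm_apply_eq]
        apply Subtype.ext
        rw [he₁, he₂, hginv, hA] }
  obtain ⟨g', hg'⟩ := Ideal.Quotient.stabilizerHom_surjective_of_profinite (G := G) P Q σ
  refine ⟨g * (g' : G), fun c => ?_⟩
  have h1 := congrArg (fun f => f (Ideal.Quotient.mk _ c)) hg'
  have h2 : (Ideal.Quotient.mk Q ((g' : G) • c)) = e₂.symm (e₁ (Ideal.Quotient.mk Q c)) := h1
  rw [RingEquiv.eq_symm_apply] at h2
  have h3 := congrArg (fun z : Ψ₁.range => (z : E)) h2
  rw [he₁, he₂] at h3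
  rw [mul_smul]
  exact h3

/-- the images of the integral closure in `E` are equal -/
private theorem XExt_range {A Ω E : Type*} [CommRing A] [Field Ω] [IsAlgClosed Ω] [Algebra A Ω]
    [Field E] (Ψ₁ Ψ₂ : integralClosure A Ω →+* E)
    (hA : ∀ a : A, Ψ₁ (algebraMap A _ a) = Ψ₂ (algebraMap A _ a)) (c : integralClosure A Ω) :
    ∃ c', Ψ₁ c' = Ψ₂ c := by
  classical
  obtain ⟨p, hp, hpc⟩ := c.2
  let j : integralClosure A Ω →+* Ω := (integralClosure A Ω).val.toRingHom
  have hj : Function.Injective j := Subtype.val_injective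
  let q : Polynomial Ω := p.map (algebraMap A Ω)
  have hq : q.Monic := hp.map _
  have hsp := (IsAlgClosed.splits q).eq_prod_roots_of_monic hq
  have hint : ∀ r ∈ q.roots, IsIntegral A r := by
    intro r hr
    refine ⟨p, hp, ?_⟩
    have h1 := Polynomial.isRoot_of_mem_roots hr
    rw [IsRoot.def, eval_map] at h1
    exact h1
  let ℓ : Ω → integralClosure A Ω := fun r => if h : IsIntegral A r then ⟨r, h⟩ else 0
  have hℓ : ∀ r ∈ q.roots, j (ℓ r) = r := by
    intro r hr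
    have : ℓ r = ⟨r, hint r hr⟩ := dif_pos (hint r hr)
    rw [this]
    rfl
  have hpC : p.map (algebraMap A (integralClosure A Ω)) =
      (q.roots.map fun r => X - C (ℓ r)).prod := by
    apply Polynomial.map_injective j hj
    rw [Polynomial.map_map, Polynomial.map_multiset_prod, Multiset.map_map]
    have h1 : j.comp (algebraMap A (integralClosure A Ω)) = algebraMap A Ω := rfl
    rw [h1]
    refine hsp.trans (congrArg Multiset.prod (Multiset.map_congr rfl fun r hr => ?_))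
    simp only [Function.comp_apply, Polynomial.map_sub, Polynomial.map_X, Polynomial.map_C]
    rw [hℓ r hr]
  have hroot : (p.map (Ψ₂.comp (algebraMap A (integralClosure A Ω)))).eval (Ψ₂ c) = 0 := by
    rw [eval_map]
    have h1 : eval₂ (algebraMap A (integralClosure A Ω)) c p = 0 := by
      apply hj
      rw [hom_eval₂, map_zero]
      exact hpc
    rw [← hom_eval₂, h1, map_zero]
  have hcomp : Ψ₂.comp (algebraMap A (integralClosure A Ω)) =
      Ψ₁.comp (algebraMap A (integralClosure A Ω)) := RingHom.ext fun a => (hA a).symm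
  rw [hcomp, ← Polynomial.map_map, hpC, Polynomial.map_multiset_prod, Multiset.map_map,
    eval_multiset_prod, Multiset.map_map, Multiset.prod_eq_zero_iff, Multiset.mem_map] at hroot
  obtain ⟨r, _, hr⟩ := hroot
  refine ⟨ℓ r, ?_⟩
  simp only [Function.comp_apply, Polynomial.map_sub, Polynomial.map_X, Polynomial.map_C, eval_sub,
    eval_X, eval_C] at hr
  exact (sub_eq_zero.1 hr).symm

variable {M Ω E : Type*} [Field M] [Field Ω] [Field E] [IsAlgClosed E] [Algebra M Ω]

/-- a place with values in an algebraically closed field extends to an algebraic extension -/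
theorem exists_ext_place [Algebra.IsAlgebraic M Ω] {A : ValuationSubring M} (φ : A →+* E)
    (hφ : ∀ x : A, φ x ≠ 0 → (x : M)⁻¹ ∈ A) :
    ∃ (B : ValuationSubring Ω) (Φ : B →+* E), (∀ x : B, Φ x ≠ 0 → (x : Ω)⁻¹ ∈ B) ∧
      ∀ x : A, ∃ h : algebraMap M Ω x ∈ B, Φ ⟨_, h⟩ = φ x := by
  obtain ⟨B, hB⟩ := Pt.MaxOver.exists_ext_val (Ω := Ω) A
  have hmem : ∀ x : A, algebraMap M Ω x ∈ B := by
    intro x
    rw [← ValuationSubring.mem_comap, hB]
    exact x.2
  let j : A →+* B := ((algebraMap M Ω).comp A.subtype).codRestrict B.toSubring (fun x => hmem x)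
  have hj : ∀ x : A, ((j x : B) : Ω) = algebraMap M Ω x := fun x => rfl
  have hjl : IsLocalHom j := by
    refine ⟨fun x hx => ?_⟩
    obtain ⟨b, hb⟩ := isUnit_iff_exists_inv.1 hx
    have h1 : algebraMap M Ω x * (b : Ω) = 1 := congrArg (fun z : B => (z : Ω)) hb
    have h2 : (x : M) ≠ 0 := by
      intro h0
      rw [h0, map_zero, zero_mul] at h1
      exact zero_ne_one h1
    have h3' : ∀ y : M, algebraMap M Ω y ∈ B → y ∈ A := fun y hy => by
      rw [← hB]
      exact hy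
    have h3 : (x : M)⁻¹ ∈ A := h3' _ (by
      rw [map_inv₀, ← eq_inv_of_mul_eq_one_right h1]
      exact b.2)
    exact isUnit_iff_exists_inv.2 ⟨⟨_, h3⟩, Subtype.ext (mul_inv_cancel₀ h2)⟩
  have hφl : IsLocalHom φ := by
    refine ⟨fun x hx => ?_⟩
    have h1 : φ x ≠ 0 := hx.ne_zero
    have h2 : (x : M) ≠ 0 := by
      intro h0
      apply h1
      have : x = 0 := Subtype.ext h0
      rw [this, map_zero]
    exact isUnit_iff_exists_inv.2 ⟨⟨_, hφ x h1⟩, Subtype.ext (mul_inv_cancel₀ h2)⟩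
  let f := IsLocalRing.ResidueField.map j
  let φ' := IsLocalRing.ResidueField.lift φ
  let _ : Algebra (IsLocalRing.ResidueField A) (IsLocalRing.ResidueField B) := f.toAlgebra
  let _ : Algebra (IsLocalRing.ResidueField A) E := φ'.toAlgebra
  have halg : Algebra.IsAlgebraic (IsLocalRing.ResidueField A) (IsLocalRing.ResidueField B) := by
    refine ⟨fun y => ?_⟩
    obtain ⟨x, rfl⟩ := IsLocalRing.residue_surjective y
    obtain ⟨b, hb, hbB, hv⟩ := Full.exists_integral_residue A B hB (x : Ω) x.2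
    have h1 : IsLocalRing.residue B x = IsLocalRing.residue B ⟨b, hbB⟩ := by
      rw [← sub_eq_zero, ← map_sub, IsLocalRing.residue_eq_zero_iff, B.valuation_lt_one_iff]
      exact hv
    rw [h1]
    obtain ⟨p, hp, hpb⟩ := hb
    have h2 : eval₂ j (⟨b, hbB⟩ : B) p = 0 := by
      apply Subtype.val_injective
      have h3 := hom_eval₂ p j B.subtype ⟨b, hbB⟩
      exact h3.trans hpb
    have h4 : IsIntegral (IsLocalRing.ResidueField A) (IsLocalRing.residue B ⟨b, hbB⟩) := by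
      refine ⟨p.map (IsLocalRing.residue A), hp.map _, ?_⟩
      rw [eval₂_map]
      have h5 : (algebraMap (IsLocalRing.ResidueField A) (IsLocalRing.ResidueField B)).comp
          (IsLocalRing.residue A) = (IsLocalRing.residue B).comp j := rfl
      rw [h5, ← hom_eval₂, h2, map_zero]
    exact h4.isAlgebraic
  let ψ : IsLocalRing.ResidueField B →ₐ[IsLocalRing.ResidueField A] E := IsAlgClosed.lift
  refine ⟨B, ψ.toRingHom.comp (IsLocalRing.residue B), ?_, ?_⟩
  · intro x hx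
    have h1 : IsLocalRing.residue B x ≠ 0 := by
      intro h0
      apply hx
      change ψ (IsLocalRing.residue B x) = 0
      rw [h0, map_zero]
    have h2 : IsUnit x := (IsLocalRing.residue_ne_zero_iff_isUnit x).1 h1
    obtain ⟨b, hb⟩ := isUnit_iff_exists_inv.1 h2
    have h3 : (x : Ω) * (b : Ω) = 1 := congrArg (fun z : B => (z : Ω)) hb
    rw [← eq_inv_of_mul_eq_one_right h3]
    exact b.2
  · intro x
    refine ⟨hmem x, ?_⟩
    change ψ (algebraMap (IsLocalRing.ResidueField A) (IsLocalRing.ResidueField B)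
      (IsLocalRing.residue A x)) = φ x
    rw [ψ.commutes]
    rfl

/-- two extensions of a place to a Galois extension are conjugate -/
theorem conj_place [IsGalois M Ω] [IsAlgClosed Ω] [CharZero E] {A : ValuationSubring M} (φ : A →+* E)
    (hφ : ∀ x : A, φ x ≠ 0 → (x : M)⁻¹ ∈ A)
    {B₁ B₂ : ValuationSubring Ω} (Φ₁ : B₁ →+* E) (Φ₂ : B₂ →+* E)
    (h₁ : ∀ x : B₁, Φ₁ x ≠ 0 → (x : Ω)⁻¹ ∈ B₁) (h₂ : ∀ x : B₂, Φ₂ x ≠ 0 → (x : Ω)⁻¹ ∈ B₂)
    (e₁ : ∀ x : A, ∃ h : algebraMap M Ω x ∈ B₁, Φ₁ ⟨_, h⟩ = φ x)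
    (e₂ : ∀ x : A, ∃ h : algebraMap M Ω x ∈ B₂, Φ₂ ⟨_, h⟩ = φ x) :
    ∃ g : Gal(Ω/M), ∀ x : B₁, ∃ h : g x ∈ B₂, Φ₂ ⟨g x, h⟩ = Φ₁ x := by
  have hcomap : ∀ (B : ValuationSubring Ω) (Φ : B →+* E),
      (∀ x : A, ∃ h : algebraMap M Ω x ∈ B, Φ ⟨_, h⟩ = φ x) → B.comap (algebraMap M Ω) = A := by
    intro B Φ e
    ext x
    rw [ValuationSubring.mem_comap]
    refine ⟨fun hx => ?_, fun hx => (e ⟨x, hx⟩).1⟩
    by_contra hxA
    have hx1 : x⁻¹ ∈ A := (A.mem_or_inv_mem x).resolve_left hxA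
    have h0 : φ ⟨x⁻¹, hx1⟩ = 0 := by
      by_contra hne
      apply hxA
      have h3 : (x⁻¹)⁻¹ ∈ A := hφ ⟨x⁻¹, hx1⟩ hne
      rwa [inv_inv] at h3
    have hx0 : x ≠ 0 := by
      rintro rfl
      exact hxA A.zero_mem
    obtain ⟨h, he⟩ := e ⟨x⁻¹, hx1⟩
    have h1 : (⟨algebraMap M Ω x, hx⟩ : B) * ⟨algebraMap M Ω x⁻¹, h⟩ = 1 := Subtype.ext (by
      change algebraMap M Ω x * algebraMap M Ω x⁻¹ = 1
      rw [← map_mul, mul_inv_cancel₀ hx0, map_one])
    have h2 := congrArg Φ h1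
    rw [map_mul, he, h0, mul_zero, map_one] at h2
    exact zero_ne_one h2
  have c₁ := hcomap B₁ Φ₁ e₁
  have c₂ := hcomap B₂ Φ₂ e₂
  let Ψ₁ : integralClosure A Ω →+* E := Φ₁.comp (Full.incl c₁)
  let Ψ₂ : integralClosure A Ω →+* E := Φ₂.comp (Full.incl c₂)
  have hA : ∀ a : A, Ψ₁ (algebraMap A _ a) = Ψ₂ (algebraMap A _ a) := by
    intro a
    obtain ⟨x1, y1⟩ := e₁ a
    obtain ⟨x2, y2⟩ := e₂ a
    exact y1.trans y2.symm
  have hE : ∀ (g : Gal(Ω/M)) (x : M), g • algebraMap M Ω x = algebraMap M Ω x :=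
    fun g x => g.commutes x
  let _ : MulSemiringAction Gal(Ω/M) (integralClosure A Ω) := Full.smulClosure hE A
  have hcoe : ∀ (g : Gal(Ω/M)) (c : integralClosure A Ω), ((g • c : integralClosure A Ω) : Ω)
      = g • (c : Ω) := fun _ _ => rfl
  let _ : TopologicalSpace (integralClosure A Ω) := ⊥
  have _ : DiscreteTopology (integralClosure A Ω) := ⟨rfl⟩
  have _ : ContinuousSMul Gal(Ω/M) (integralClosure A Ω) := by
    refine (continuousSMul_iff_stabilizer_isOpen (M := Gal(Ω/M))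
      (X := integralClosure A Ω)).mpr fun c => ?_
    have h1 : (MulAction.stabilizer Gal(Ω/M) c : Set Gal(Ω/M)) =
        (MulAction.stabilizer Gal(Ω/M) (c : Ω) : Set Gal(Ω/M)) := by
      ext g
      rw [SetLike.mem_coe, SetLike.mem_coe, MulAction.mem_stabilizer_iff,
        MulAction.mem_stabilizer_iff, ← hcoe]
      exact Subtype.ext_iff
    rw [h1]
    exact Full.isOpen_stab (c : Ω)
  have hsm : ∀ (a : A) (c : integralClosure A Ω), ((a • c : integralClosure A Ω) : Ω)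
      = algebraMap M Ω (a : M) * (c : Ω) := by
    intro a c
    rw [Subalgebra.coe_smul, Algebra.smul_def]
    rfl
  have _ : SMulCommClass Gal(Ω/M) A (integralClosure A Ω) := ⟨fun g a x => by
    apply Subtype.ext
    rw [hcoe, hsm, hsm, hcoe, smul_mul', hE]⟩
  have _ : Algebra.IsInvariant A (integralClosure A Ω) Gal(Ω/M) := by
    refine ⟨fun c hc => ?_⟩
    obtain ⟨y, hy⟩ : (c : Ω) ∈ Set.range (algebraMap M Ω) :=
      (InfiniteGalois.mem_range_algebraMap_iff_fixed (c : Ω)).mpr fun g => by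
        have h1 := congrArg (fun z : integralClosure A Ω => (z : Ω)) (hc g)
        exact h1
    have hy' : y ∈ A := by
      rw [← c₁, ValuationSubring.mem_comap, hy]
      exact Full.mem_of_isIntegral_comap c₁ c.2
    exact ⟨⟨y, hy'⟩, Subtype.ext hy⟩
  obtain ⟨g, hg⟩ := XExt_lift (A := A) (G := Gal(Ω/M)) Ψ₁ Ψ₂ hA (XExt_range Ψ₁ Ψ₂ hA)
    (XExt_range Ψ₂ Ψ₁ fun a => (hA a).symm)
  refine ⟨g, fun x => ?_⟩
  obtain ⟨a, b, ha, hb, hb1, hab⟩ := Full.exists_integral_div A B₁ c₁ (x : Ω) x.2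
  let a' : integralClosure A Ω := ⟨a, ha⟩
  let b' : integralClosure A Ω := ⟨b, hb⟩
  have hbne : b ≠ 0 := by
    rintro rfl
    rw [map_zero] at hb1
    exact zero_ne_one hb1
  have hbi : b⁻¹ ∈ B₁ := by
    rw [← B₁.valuation_le_one_iff, map_inv₀, hb1, inv_one]
  have hb0 : Ψ₁ b' ≠ 0 := by
    intro h0
    have h1 : Full.incl c₁ b' * (⟨b⁻¹, hbi⟩ : B₁) = 1 := Subtype.ext (mul_inv_cancel₀ hbne)
    have h2 := congrArg Φ₁ h1
    rw [map_mul, map_one] at h2
    change Ψ₁ b' * _ = 1 at h2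
    rw [h0, zero_mul] at h2
    exact zero_ne_one h2
  have hgb : Ψ₂ (g • b') ≠ 0 := by
    rw [hg]
    exact hb0
  have hgbinv : (g b)⁻¹ ∈ B₂ := h₂ (Full.incl c₂ (g • b')) hgb
  have hga : g a ∈ B₂ := (Full.incl c₂ (g • a')).2
  have hgb0 : g b ≠ 0 := by
    rw [Ne, map_eq_zero]
    exact hbne
  have hgx : g (x : Ω) * g b = g a := by rw [← map_mul, hab]
  have hgx' : g (x : Ω) = g a * (g b)⁻¹ := by
    rw [← hgx, mul_assoc, mul_inv_cancel₀ hgb0, mul_one]
  have hmem : g (x : Ω) ∈ B₂ := by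
    rw [hgx']
    exact B₂.mul_mem _ _ hga hgbinv
  refine ⟨hmem, ?_⟩
  have h3 : (⟨g (x : Ω), hmem⟩ : B₂) * Full.incl c₂ (g • b') = Full.incl c₂ (g • a') :=
    Subtype.ext hgx
  have h4 := congrArg Φ₂ h3
  rw [map_mul] at h4
  change Φ₂ ⟨g (x : Ω), hmem⟩ * Ψ₂ (g • b') = Ψ₂ (g • a') at h4
  rw [hg, hg] at h4
  have h5 : x * Full.incl c₁ b' = Full.incl c₁ a' := Subtype.ext hab
  have h6 := congrArg Φ₁ h5
  rw [map_mul] at h6
  change Φ₁ x * Ψ₁ b' = Ψ₁ a' at h6
  exact mul_right_cancel₀ hb0 (h4.trans h6.symm)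

end Pool.Agent.Lib.MP_2f3286_ag.HYP
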