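import Pool.Agent.Lib.MP_2f3286_ag.HYP.Coc

/-!
# Extensions of the automorphisms of a section to an algebraic closure
-/

open Polynomial IsDedekindDomain NumberField

noncomputable section

namespace Pool.Agent.Lib.MP_2f3286_ag.HYP

section

variable {k kb K M Ω : Type*} [Field k] [Field kb] [Algebra k kb] [Field K] [Field M] [Field Ω]
  [Algebra K M] [Algebra kb M] [Algebra M Ω] [Algebra K Ω] [Algebra kb Ω] [IsScalarTower K M Ω]
  [IsScalarTower kb M Ω]

/-- `g` is an extension of `s σ` to `Ω` -/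
def Lft (s : Gal(kb/k) →* Gal(M/K)) (σ : Gal(kb/k)) (g : Gal(Ω/K)) : Prop :=
  ∀ m : M, g (algebraMap M Ω m) = algebraMap M Ω (s σ m)

variable {s : Gal(kb/k) →* Gal(M/K)} {σ τ : Gal(kb/k)} {g g' : Gal(Ω/K)}

omit [Algebra kb M] [Algebra kb Ω] [IsScalarTower kb M Ω] in
theorem exists_lft [Normal K M] [Normal K Ω] (s : Gal(kb/k) →* Gal(M/K)) (σ : Gal(kb/k)) :
    ∃ g : Gal(Ω/K), Lft s σ g := by
  obtain ⟨g, hg⟩ := AlgEquiv.restrictNormalHom_surjective (F := K) (K₁ := M) (E := Ω) (s σ)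
  refine ⟨g, fun m => ?_⟩
  rw [← hg]
  exact (AlgEquiv.restrictNormal_commutes g M m).symm

omit [IsScalarTower K M Ω] in
theorem Lft.const (hsec : ∀ σ a, s σ (algebraMap kb M a) = algebraMap kb M (σ a))
    (h : Lft s σ g) (a : kb) : g (algebraMap kb Ω a) = algebraMap kb Ω (σ a) := by
  rw [IsScalarTower.algebraMap_apply kb M Ω, h, hsec, ← IsScalarTower.algebraMap_apply]

omit [Algebra kb M] [Algebra kb Ω] [IsScalarTower kb M Ω] [IsScalarTower K M Ω] in
theorem Lft.mul (h : Lft s σ g) (h' : Lft s τ g') : Lft s (σ * τ) (g * g') := by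
  intro m
  rw [AlgEquiv.mul_apply, h', h, map_mul]
  rfl

omit [Algebra kb M] [Algebra kb Ω] [IsScalarTower kb M Ω] [IsScalarTower K M Ω] in
theorem lft_one : Lft s 1 g ↔ ∀ m : M, g (algebraMap M Ω m) = algebraMap M Ω m := by
  unfold Lft
  simp only [map_one, AlgEquiv.one_apply]

omit [Algebra kb M] [Algebra kb Ω] [IsScalarTower kb M Ω] [IsScalarTower K M Ω] in
theorem Lft.inv (h : Lft s σ g) : Lft s σ⁻¹ g⁻¹ := by
  intro m
  have h1 := h (s σ⁻¹ m)
  have h2 : s σ (s σ⁻¹ m) = m := by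
    rw [← AlgEquiv.mul_apply, ← map_mul, mul_inv_cancel, map_one]
    rfl
  rw [h2] at h1
  rw [← h1]
  exact g.symm_apply_apply _

omit [Algebra kb M] [Algebra kb Ω] [IsScalarTower kb M Ω] [IsScalarTower K M Ω] in
theorem Lft.inv_mul (h : Lft s σ g) (h' : Lft s σ g') : Lft s 1 (g⁻¹ * g') := by
  have := h.inv.mul h'
  rwa [inv_mul_cancel] at this

omit [Algebra kb M] [Algebra kb Ω] [IsScalarTower kb M Ω] in
/-- an element fixed by all automorphisms over `M` is in `M` -/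
theorem mem_of_lft [IsGalois M Ω] {x : Ω} (hx : ∀ g : Gal(Ω/K), Lft s 1 g → g x = x) :
    ∃ m : M, algebraMap M Ω m = x := by
  refine (InfiniteGalois.mem_range_algebraMap_iff_fixed x).mpr fun h => ?_
  exact hx (h.restrictScalars K) (lft_one.mpr fun m => h.commutes m)

end

end Pool.Agent.Lib.MP_2f3286_ag.HYP
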