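import Pool.Agent.Lib.MP_2f3286_ag.HYP.XLft
import Pool.Agent.Lib.MP_2f3286_ag.HYP.XExt
import Pool.Agent.Lib.MP_2f3286_ag.HYP.HT2

/-!
# The places of a section of a quotient of the Galois group, on an algebraic closure   (module XPls)
-/

open Polynomial IsDedekindDomain NumberField
open Pool.Agent.Lib.MP_2f3286_bir (IsPlaceOf)

noncomputable section

namespace Pool.Agent.Lib.MP_2f3286_ag.HYP

section

variable {k kb K M Ω : Type*} [Field k] [Field kb] [Algebra k kb] [Field K] [Field M] [Field Ω]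
  [Algebra K M] [Algebra kb M] [Algebra M Ω] [Algebra K Ω] [Algebra kb Ω] [IsScalarTower K M Ω]
  [IsScalarTower kb M Ω] [Algebra k Ω] [IsScalarTower k kb Ω] [Algebra k K] [IsScalarTower k K Ω]

/-- a place of `Ω` which extends a place of the section `s` -/
def IsPlcL (s : Gal(kb/k) →* Gal(M/K)) (F : Type*) {Fb : Type*} [Field F] [Field Fb] [Algebra F Fb]
    (ι : kb →+* Fb) (A : ValuationSubring Ω) (φ : A →+* Fb) : Prop :=
  (∀ a : kb, ∃ h : algebraMap kb Ω a ∈ A, φ ⟨algebraMap kb Ω a, h⟩ = ι a) ∧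
  (∀ x : A, φ x ≠ 0 → (x : Ω)⁻¹ ∈ A) ∧
  ∀ (σ : Gal(kb/k)) (τ : Gal(Fb/F)), (∀ a, ι (σ a) = τ (ι a)) →
    ∃ g : Gal(Ω/K), Lft s σ g ∧ ∀ x : A, ∃ h : g x ∈ A, φ ⟨g x, h⟩ = τ (φ x)

variable {f : k[X]} {s : Gal(kb/k) →* Gal(M/K)} {F Fb : Type*} [Field F] [Field Fb] [Algebra F Fb]
  {ι : kb →+* Fb}

omit [Algebra k Ω] [IsScalarTower k kb Ω] [Algebra k K] [IsScalarTower k K Ω] in
theorem exists_plcL [IsAlgClosed Fb] [CharZero Fb] [IsAlgClosed Ω] [IsGalois M Ω] [Normal K M]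
    [Normal K Ω] {A : ValuationSubring M} {φ : A →+* Fb} (h : IsPlaceOf s F ι A φ) :
    ∃ (B : ValuationSubring Ω) (Φ : B →+* Fb), IsPlcL s F ι B Φ ∧
      ∀ x : A, ∃ h : algebraMap M Ω x ∈ B, Φ ⟨_, h⟩ = φ x := by
  obtain ⟨B, Φ, hB, hBA⟩ := exists_ext_place (Ω := Ω) φ h.2.1
  refine ⟨B, Φ, ⟨fun a => ?_, hB, fun σ τ hστ => ?_⟩, hBA⟩
  · obtain ⟨h1, h2⟩ := h.1 a
    obtain ⟨h3, h4⟩ := hBA ⟨_, h1⟩
    have h5 : algebraMap kb Ω a ∈ B := by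
      rw [IsScalarTower.algebraMap_apply kb M Ω]
      exact h3
    refine ⟨h5, ?_⟩
    rw [← h2, ← h4]
    congr 1
    exact Subtype.ext (IsScalarTower.algebraMap_apply kb M Ω a)
  · obtain ⟨g₀, hg₀⟩ := exists_lft (Ω := Ω) s σ
    let j : Ω →+* Ω := (g₀ : Ω ≃ₐ[K] Ω)
    let B₂ : ValuationSubring Ω := B.comap j
    have hB₂ : ∀ x, x ∈ B₂ ↔ g₀ x ∈ B := fun x => Iff.rfl
    let Φ₂ : B₂ →+* Fb := (τ⁻¹ : Gal(Fb/F)).toAlgHom.toRingHom.comp (Φ.comp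
      ((j.comp B₂.subtype).codRestrict B (fun x => (hB₂ x).mp x.2)))
    have hΦ₂ : ∀ (x : Ω) (hx : x ∈ B₂), Φ₂ ⟨x, hx⟩ = τ⁻¹ (Φ ⟨g₀ x, (hB₂ x).mp hx⟩) :=
      fun x hx => rfl
    obtain ⟨γ, hγ⟩ := conj_place φ h.2.1 Φ Φ₂ hB (fun x hx => by
        have h1 : Φ ⟨g₀ x, (hB₂ x).mp x.2⟩ ≠ 0 := by
          intro h0
          apply hx
          have h2 := hΦ₂ x x.2
          rw [h0, map_zero] at h2
          exact h2
        have h2 := hB _ h1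
        rw [hB₂, map_inv₀]
        exact h2) hBA (fun x => by
        obtain ⟨h1, h2⟩ := h.2.2 σ τ hστ x
        obtain ⟨h3, h4⟩ := hBA ⟨_, h1⟩
        have h5 : algebraMap M Ω x ∈ B₂ := by
          rw [hB₂, hg₀]
          exact h3
        refine ⟨h5, ?_⟩
        rw [hΦ₂]
        have h6 : (⟨g₀ (algebraMap M Ω x), (hB₂ _).mp h5⟩ : B) = ⟨_, h3⟩ :=
          Subtype.ext (hg₀ x)
        rw [h6, h4, h2]
        exact τ.symm_apply_apply _)
    refine ⟨g₀ * γ.restrictScalars K, fun m => ?_, fun x => ?_⟩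
    · rw [AlgEquiv.mul_apply]
      have h1 : γ.restrictScalars K (algebraMap M Ω m) = algebraMap M Ω m := γ.commutes m
      rw [h1, hg₀]
    · obtain ⟨h1, h2⟩ := hγ x
      refine ⟨(hB₂ _).mp h1, ?_⟩
      rw [hΦ₂] at h2
      rw [← h2]
      exact (τ.apply_symm_apply _).symm

variable {A : ValuationSubring Ω} {φ : A →+* Fb}

theorem plc_ofL (hf : f.Monic) (h : IsPlcL s F ι A φ) :
    Plc A φ (f.map (algebraMap k Ω)) (f.map (ι.comp (algebraMap k kb))) := by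
  refine ⟨h.2.1, ?_⟩
  let j : kb →+* A := (algebraMap kb Ω).codRestrict A fun a => (h.1 a).1
  refine ⟨f.map (j.comp (algebraMap k kb)), hf.map _, ?_, ?_⟩
  · rw [Polynomial.map_map]
    congr 1
    apply RingHom.ext
    intro a
    exact (IsScalarTower.algebraMap_apply k kb Ω a).symm
  · rw [Polynomial.map_map]
    congr 1
    apply RingHom.ext
    intro a
    exact (h.1 (algebraMap k kb a)).2

theorem sp_sactL [IsAlgClosed Ω] [IsAlgClosed Fb] {g : ℕ} (hf : f.Monic) (h : IsPlcL s F ι A φ)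
    (h1 : Good g (f.map (algebraMap k Ω))) (h2 : Good g (f.map (ι.comp (algebraMap k kb))))
    {σ : Gal(kb/k)} {τ : Gal(Fb/F)} (hστ : ∀ a, ι (σ a) = τ (ι a)) {γ : Gal(Ω/K)}
    (hγ : ∀ x : A, ∃ h : γ x ∈ A, φ ⟨γ x, h⟩ = τ (φ x))
    (z : J (f.map (algebraMap k Ω))) :
    (plc_ofL hf h).sp h1 h2 (sact f γ z) =
      J.map (τ : Fb →+* Fb) (map_fix' f hστ) ((plc_ofL hf h).sp h1 h2 z) := by
  have key : ((plc_ofL hf h).sp h1 h2).comp (sact f γ) =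
      (J.map (τ : Fb →+* Fb) (map_fix' f hστ)).comp ((plc_ofL hf h).sp h1 h2) := by
    apply J.hom_ext
    intro P
    rw [AddMonoidHom.comp_apply, AddMonoidHom.comp_apply, sact, J.map_cl]
    by_cases hx : P.x ∈ A
    · obtain ⟨hx', hx1⟩ := hγ ⟨P.x, hx⟩
      obtain ⟨hy', hy1⟩ := hγ ⟨P.y, (plc_ofL hf h).y_mem hx⟩
      rw [(plc_ofL hf h).sp_cl h1 h2 P hx, J.map_cl]
      refine ((plc_ofL hf h).sp_cl h1 h2 (P.map (γ : Ω →+* Ω) (map_fixΩ f γ)) hx').trans ?_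
      congr 1
      apply Pt.ext
      · exact hx1
      · exact hy1
    · rw [(plc_ofL hf h).sp_cl' h1 h2 P hx, map_zero]
      apply (plc_ofL hf h).sp_cl' h1 h2
      intro hx'
      obtain ⟨hb, hb0⟩ := (plc_ofL hf h).inv_of_notMem hx
      obtain ⟨hb', hb1⟩ := hγ ⟨P.x⁻¹, hb⟩
      rw [hb0, map_zero] at hb1
      have hx0 : P.x ≠ 0 := fun h0 => hx (h0 ▸ zero_mem _)
      have h5 : (⟨γ P.x, hx'⟩ : A) * ⟨γ P.x⁻¹, hb'⟩ = 1 := by
        apply Subtype.ext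
        change γ P.x * γ P.x⁻¹ = 1
        rw [← map_mul, mul_inv_cancel₀ hx0, map_one]
      have h6 := congrArg φ h5
      rw [map_mul, hb1, mul_zero, map_one] at h6
      exact zero_ne_one h6
  exact DFunLike.congr_fun key z

theorem sp_constL [IsAlgClosed Ω] [IsAlgClosed Fb] {g : ℕ} (hf : f.Monic) (h : IsPlcL s F ι A φ)
    (h1 : Good g (f.map (algebraMap k Ω))) (h2 : Good g (f.map (ι.comp (algebraMap k kb))))
    (z : J (f.map (algebraMap k kb))) :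
    (plc_ofL hf h).sp h1 h2 (jconst f z) = J.map ι (Polynomial.map_map _ _ _) z := by
  have key : ((plc_ofL hf h).sp h1 h2).comp (jconst f) = J.map ι (Polynomial.map_map _ _ _) := by
    apply J.hom_ext
    intro P
    rw [AddMonoidHom.comp_apply, jconst, J.map_cl, J.map_cl]
    obtain ⟨hx', hx1⟩ := h.1 P.x
    obtain ⟨hy', hy1⟩ := h.1 P.y
    rw [(plc_ofL hf h).sp_cl h1 h2 (P.map _ _) hx']
    congr 1
    apply Pt.ext
    · exact hx1
    · exact hy1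
  exact DFunLike.congr_fun key z

theorem value_memL [IsGalois F Fb] (h : IsPlcL s F ι A φ)
    (hres : ∀ τ : Gal(Fb/F), ∃ σ : Gal(kb/k), ∀ a, ι (σ a) = τ (ι a)) {x : Ω} (hx : x ∈ A)
    (hs : ∀ σ g, Lft s σ g → g x = x) : ∃ a : F, algebraMap F Fb a = φ ⟨x, hx⟩ := by
  have h1 : ∀ τ : Gal(Fb/F), τ (φ ⟨x, hx⟩) = φ ⟨x, hx⟩ := by
    intro τ
    obtain ⟨σ, hσ⟩ := hres τ
    obtain ⟨g, hg, hc⟩ := h.2.2 σ τ hσ
    obtain ⟨h3, h4⟩ := hc ⟨x, hx⟩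
    rw [← h4]
    congr 1
    apply Subtype.ext
    exact hs σ g hg
  have h2 : φ ⟨x, hx⟩ ∈ (⊥ : IntermediateField F Fb) := by
    rw [InfiniteGalois.mem_bot_iff_fixed]; exact h1
  exact IntermediateField.mem_bot.mp h2

theorem locPt_of_placeL [IsAlgClosed Ω] [IsAlgClosed Fb] [IsGalois F Fb] {g : ℕ} (hf : f.Monic)
    (h : IsPlcL s F ι A φ)
    (h1 : Good g (f.map (algebraMap k Ω))) (h2 : Good g (f.map (ι.comp (algebraMap k kb))))
    (hres : ∀ τ : Gal(Fb/F), ∃ σ : Gal(kb/k), ∀ a, ι (σ a) = τ (ι a))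
    {c : ℕ → Gal(kb/k) → J (f.map (algebraMap k kb))} {E' : ℕ → J (f.map (algebraMap k Ω))}
    (hc : ∀ n σ γ, Lft s σ γ → jconst f (c n σ) = sact f γ (E' n) - E' n)
    (hE : ∀ n, 2 • E' (n + 1) = E' n) {P : Pt (f.map (algebraMap k Ω))}
    (hP : E' 0 = cl P) (hx : ∀ σ γ, Lft s σ γ → γ P.x = P.x)
    (hy : ∀ σ γ, Lft s σ γ → γ P.y = P.y) :
    LocPt f c F ι := by
  refine ⟨fun n => (plc_ofL hf h).sp h1 h2 (E' n), ?_, ?_, ?_⟩
  · beta_reduce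
    rw [hP]
    by_cases hxA : P.x ∈ A
    · right
      rw [(plc_ofL hf h).sp_cl h1 h2 P hxA]
      obtain ⟨a, ha⟩ := value_memL h hres hxA hx
      obtain ⟨b, hb⟩ := value_memL h hres ((plc_ofL hf h).y_mem hxA) hy
      exact ⟨(plc_ofL hf h).redPt P hxA, ⟨a, b, ha, hb⟩, rfl⟩
    · left
      exact (plc_ofL hf h).sp_cl' h1 h2 P hxA
  · intro n
    rw [← map_nsmul, hE]
  · intro n σ τ hστ
    obtain ⟨γ, hγ, hc'⟩ := h.2.2 σ τ hστ
    rw [← sp_sactL hf h h1 h2 hστ hc', ← map_sub, ← hc n σ γ hγ, sp_constL hf h h1 h2]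

/-- the condition at an infinite place -/
theorem locPt_realL [IsAlgClosed kb] [IsAlgClosed Ω] [IsGalois M Ω] [Normal K M] [Normal K Ω]
    {ι : kb →+* ℂ}
    (hpl : ∀ σ₀ : Gal(kb/k), (∀ a, ι (σ₀ a) = starRingEnd ℂ (ι a)) →
      ∃ (A : ValuationSubring M) (φ : A →+* ℂ), IsPlaceOf s ℝ ι A φ)
    {g : ℕ} (hf : f.Monic)
    (h1 : Good g (f.map (algebraMap k Ω))) (h2 : Good g (f.map (ι.comp (algebraMap k kb))))
    {c : ℕ → Gal(kb/k) → J (f.map (algebraMap k kb))} {E' : ℕ → J (f.map (algebraMap k Ω))}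
    (hc : ∀ n σ γ, Lft s σ γ → jconst f (c n σ) = sact f γ (E' n) - E' n) (hc1 : ∀ n, c n 1 = 0)
    (hE : ∀ n, 2 • E' (n + 1) = E' n) {P : Pt (f.map (algebraMap k Ω))}
    (hP : E' 0 = cl P) (hx : ∀ σ γ, Lft s σ γ → γ P.x = P.x)
    (hy : ∀ σ γ, Lft s σ γ → γ P.y = P.y) :
    LocPt f c ℝ ι := by
  classical
  by_cases hσ : ∃ σ₀ : Gal(kb/k), ∀ a, ι (σ₀ a) = starRingEnd ℂ (ι a)
  · obtain ⟨σ₀, hσ₀⟩ := hσ
    obtain ⟨A₀, φ₀, h₀⟩ := hpl σ₀ hσ₀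
    obtain ⟨A, φ, h, -⟩ := exists_plcL (Ω := Ω) h₀
    have hA : IsAlgClosure ℝ ℂ := ⟨inferInstance, inferInstance⟩
    have hG : IsGalois ℝ ℂ := IsAlgClosure.isGalois ℝ ℂ
    refine locPt_of_placeL hf h h1 h2 ?_ hc hE hP hx hy
    intro τ
    rcases gal_complex τ with h3 | h3
    · exact ⟨1, fun a => (h3 _).symm⟩
    · exact ⟨σ₀, fun a => by rw [hσ₀, h3]⟩
  · refine ⟨fun _ => 0, Or.inl rfl, fun _ => smul_zero _, ?_⟩
    intro n σ τ hστ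
    rcases gal_complex τ with h3 | h3
    · have h4 : σ = 1 := by
        ext a
        apply ι.injective
        rw [hστ, h3]
        rfl
      subst h4
      rw [hc1]
      simp only [map_zero, sub_zero]
    · exact absurd ⟨σ, fun a => by rw [hστ, h3]⟩ hσ

end

end Pool.Agent.Lib.MP_2f3286_ag.HYP
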